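import Pool.Agent.LEG.Targets

set_option autoImplicit false

/-!
# LEG-BBS: size of the matrices
-/

namespace Pool.Agent.LEG

open Finset Polynomial
open scoped BigOperators

namespace BBS_

/-- sum of the absolute values of the coefficients -/
noncomputable def nr (p : ℚ[X]) : ℚ := p.sum fun _ a => |a|

lemma nr_eq {p : ℚ[X]} {S : Finset ℕ} (h : p.support ⊆ S) : nr p = ∑ s ∈ S, |p.coeff s| := by
  unfold nr
  rw [Polynomial.sum_def]
  refine Finset.sum_subset h fun s _ hs => ?_
  rw [notMem_support_iff.mp hs, abs_zero]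

lemma nr_nonneg (p : ℚ[X]) : 0 ≤ nr p := by
  rw [nr_eq (Finset.Subset.refl _)]
  exact Finset.sum_nonneg fun _ _ => abs_nonneg _

lemma nr_zero : nr 0 = 0 := by
  simp [nr]

lemma nr_add (p q : ℚ[X]) : nr (p + q) ≤ nr p + nr q := by
  rw [nr_eq (support_add : (p + q).support ⊆ p.support ∪ q.support),
    nr_eq (Finset.subset_union_left : p.support ⊆ p.support ∪ q.support),
    nr_eq (Finset.subset_union_right : q.support ⊆ p.support ∪ q.support), ← sum_add_distrib]
  refine sum_le_sum fun s _ => ?_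
  rw [coeff_add]
  exact abs_add_le _ _

lemma nr_neg (p : ℚ[X]) : nr (-p) = nr p := by
  rw [nr_eq (le_of_eq (support_neg) : (-p).support ⊆ p.support),
    nr_eq (Finset.Subset.refl _)]
  refine sum_congr rfl fun s _ => ?_
  rw [coeff_neg, abs_neg]

lemma nr_sub (p q : ℚ[X]) : nr (p - q) ≤ nr p + nr q := by
  rw [sub_eq_add_neg]
  refine (nr_add _ _).trans ?_
  rw [nr_neg]

lemma nr_sum {α : Type} (S : Finset α) (f : α → ℚ[X]) : nr (∑ i ∈ S, f i) ≤ ∑ i ∈ S, nr (f i) := by
  classical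
  induction S using Finset.induction_on with
  | empty => simp [nr_zero]
  | insert a S ha ih =>
    rw [sum_insert ha, sum_insert ha]
    exact (nr_add _ _).trans (by linarith)

lemma nr_monomial (n : ℕ) (a : ℚ) : nr (monomial n a) = |a| := by
  unfold nr
  rw [sum_monomial_index]
  exact abs_zero

lemma nr_mul (p q : ℚ[X]) : nr (p * q) ≤ nr p * nr q := by
  rw [Polynomial.mul_eq_sum_sum]
  simp only [Polynomial.sum_def]
  refine (nr_sum _ _).trans ?_
  rw [nr_eq (Finset.Subset.refl p.support), Finset.sum_mul]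
  refine sum_le_sum fun i _ => ?_
  refine (nr_sum _ _).trans ?_
  rw [nr_eq (Finset.Subset.refl q.support), Finset.mul_sum]
  refine sum_le_sum fun j _ => ?_
  rw [nr_monomial, abs_mul]

lemma nr_derivative (p : ℚ[X]) : nr (derivative p) ≤ p.natDegree * nr p := by
  rw [derivative_apply, Polynomial.sum_def]
  refine (nr_sum _ _).trans ?_
  rw [nr_eq (Finset.Subset.refl p.support), Finset.mul_sum]
  refine sum_le_sum fun n hn => ?_
  rw [C_mul_X_pow_eq_monomial, nr_monomial, abs_mul, mul_comm]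
  have h1 : n ≤ p.natDegree := le_natDegree_of_mem_supp n hn
  have h2 : |(n : ℚ)| ≤ p.natDegree := by
    rw [abs_of_nonneg (Nat.cast_nonneg n)]
    exact_mod_cast h1
  exact mul_le_mul_of_nonneg_right h2 (abs_nonneg _)

lemma nr_natCast (k : ℕ) : nr (k : ℚ[X]) = k := by
  rw [← C_eq_natCast, ← monomial_zero_left, nr_monomial, abs_of_nonneg (Nat.cast_nonneg k)]

lemma ev_le (p : ℚ[X]) (x : ℝ) (hx : |x| ≤ 1) : |aeval x p| ≤ ((nr p : ℚ) : ℝ) := by
  rw [aeval_eq_sum_range, nr_eq (supp_subset_range_natDegree_succ (p := p))]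
  push_cast
  refine (Finset.abs_sum_le_sum_abs _ _).trans (sum_le_sum fun n _ => ?_)
  rw [Algebra.smul_def, abs_mul, abs_pow]
  have h1 : |x| ^ n ≤ 1 := pow_le_one₀ (abs_nonneg _) hx
  have h2 : |(algebraMap ℚ ℝ) (p.coeff n)| = |((p.coeff n : ℚ) : ℝ)| := rfl
  rw [h2]
  calc |((p.coeff n : ℚ) : ℝ)| * |x| ^ n ≤ |((p.coeff n : ℚ) : ℝ)| * 1 :=
        mul_le_mul_of_nonneg_left h1 (abs_nonneg _)
    _ = _ := mul_one _

lemma BB_deg {ι : Type} [Fintype ι] [DecidableEq ι] (T : ℚ[X]) (A : ι → ι → ℚ[X]) {ρ : ℕ}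
    (hT : T.natDegree ≤ ρ) (hA : ∀ i j, (A i j).natDegree ≤ ρ) (k : ℕ) :
    ∀ i j, (BB T A k i j).natDegree ≤ k * ρ := by
  induction k with
  | zero =>
    intro i j
    simp only [BB]
    split_ifs <;> simp
  | succ k ih =>
    intro i j
    simp only [BB]
    have e : (k + 1) * ρ = k * ρ + ρ := by ring
    rw [e]
    have t1 : (T * derivative (BB T A k i j)).natDegree ≤ k * ρ + ρ := by
      refine natDegree_mul_le.trans ?_
      have h1 := natDegree_derivative_le (BB T A k i j)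
      have h2 := ih i j
      omega
    have t2 : ((k : ℚ[X]) * derivative T * BB T A k i j).natDegree ≤ k * ρ + ρ := by
      refine natDegree_mul_le.trans ?_
      have h0 : ((k : ℚ[X]) * derivative T).natDegree ≤ ρ := by
        refine natDegree_mul_le.trans ?_
        rw [natDegree_natCast, zero_add]
        have h1 := natDegree_derivative_le T
        omega
      have h2 := ih i j
      omega
    have t3 : (∑ l, A i l * BB T A k l j).natDegree ≤ k * ρ + ρ := by
      refine natDegree_sum_le_of_forall_le _ _ fun l _ => ?_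
      refine natDegree_mul_le.trans ?_
      have h1 := hA i l
      have h2 := ih l j
      omega
    refine (natDegree_sub_le _ _).trans (max_le ?_ t3)
    exact (natDegree_sub_le _ _).trans (max_le t1 t2)

lemma arith (k ρ t t' a b x1 x2 x3 x4 x5 : ℚ) (hk : 0 ≤ k) (hρ : 0 ≤ ρ) (ht : 0 ≤ t)
    (ht' : 0 ≤ t') (ha : 0 ≤ a) (hb : 0 ≤ b) (h1 : x1 ≤ t * ((k * ρ) * b)) (h2 : x2 ≤ k * t' * b)
    (h3 : x3 ≤ a * b) (h4 : x4 ≤ x5 + x3) (h5 : x5 ≤ x1 + x2) :
    x4 ≤ (k + 1) * (ρ * t + t' + a) * b := by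
  have h7 : 0 ≤ ρ * t * b := by positivity
  have h8 : 0 ≤ t' * b := by positivity
  have h9 : 0 ≤ k * a * b := by positivity
  have e : (k + 1) * (ρ * t + t' + a) * b =
      t * ((k * ρ) * b) + k * t' * b + a * b + ρ * t * b + t' * b + k * a * b := by ring
  rw [e]
  linarith

lemma BB_nr {ι : Type} [Fintype ι] [DecidableEq ι] (T : ℚ[X]) (A : ι → ι → ℚ[X]) {ρ : ℕ}
    (hT : T.natDegree ≤ ρ) (hA : ∀ i j, (A i j).natDegree ≤ ρ) (c : ℚ)
    (hc : ρ * nr T + nr (derivative T) + ∑ i, ∑ l, nr (A i l) ≤ c) (hc1 : 1 ≤ c) (k : ℕ) :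
    ∀ i j, nr (BB T A k i j) ≤ c ^ k * (k.factorial : ℚ) := by
  induction k with
  | zero =>
    intro i j
    simp only [BB, pow_zero, Nat.factorial_zero, Nat.cast_one, mul_one]
    split_ifs
    · have : (1 : ℚ[X]) = ((1 : ℕ) : ℚ[X]) := by simp
      rw [this, nr_natCast]
      simp
    · rw [nr_zero]
      exact zero_le_one
  | succ k ih =>
    intro i j
    simp only [BB]
    set b : ℚ := c ^ k * (k.factorial : ℚ) with hb
    have hb0 : 0 ≤ b := by positivity
    have hk0 : (0 : ℚ) ≤ k := Nat.cast_nonneg k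
    have t1 : nr (T * derivative (BB T A k i j)) ≤ nr T * ((k * ρ) * b) := by
      refine (nr_mul _ _).trans (mul_le_mul_of_nonneg_left ?_ (nr_nonneg _))
      refine (nr_derivative _).trans ?_
      have h1 : (((BB T A k i j).natDegree : ℕ) : ℚ) ≤ k * ρ := by
        exact_mod_cast BB_deg T A hT hA k i j
      exact mul_le_mul h1 (ih i j) (nr_nonneg _) (by positivity)
    have t2 : nr ((k : ℚ[X]) * derivative T * BB T A k i j) ≤ k * nr (derivative T) * b := by
      refine (nr_mul _ _).trans ?_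
      refine mul_le_mul ?_ (ih i j) (nr_nonneg _) (mul_nonneg hk0 (nr_nonneg _))
      refine (nr_mul _ _).trans ?_
      rw [nr_natCast]
    have t3 : nr (∑ l, A i l * BB T A k l j) ≤ (∑ i, ∑ l, nr (A i l)) * b := by
      refine (nr_sum _ _).trans ?_
      calc ∑ l, nr (A i l * BB T A k l j) ≤ ∑ l, nr (A i l) * b := by
            refine sum_le_sum fun l _ => (nr_mul _ _).trans ?_
            exact mul_le_mul_of_nonneg_left (ih l j) (nr_nonneg _)
        _ = (∑ l, nr (A i l)) * b := by rw [Finset.sum_mul]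
        _ ≤ (∑ i, ∑ l, nr (A i l)) * b := by
            refine mul_le_mul_of_nonneg_right ?_ hb0
            exact Finset.single_le_sum (f := fun i => ∑ l, nr (A i l))
              (fun i _ => Finset.sum_nonneg fun l _ => nr_nonneg _) (Finset.mem_univ i)
    have hT0 := nr_nonneg T
    have hT1 := nr_nonneg (derivative T)
    have hA0 : 0 ≤ ∑ i, ∑ l, nr (A i l) :=
      Finset.sum_nonneg fun i _ => Finset.sum_nonneg fun l _ => nr_nonneg _
    have h4a := nr_sub (T * derivative (BB T A k i j) - (k : ℚ[X]) * derivative T * BB T A k i j)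
      (∑ l, A i l * BB T A k l j)
    have h4b := nr_sub (T * derivative (BB T A k i j))
      ((k : ℚ[X]) * derivative T * BB T A k i j)
    have h5 : c ^ (k + 1) * ((k + 1).factorial : ℚ) = (k + 1) * c * b := by
      rw [Nat.factorial_succ, hb]
      push_cast
      ring
    rw [h5]
    have hρ0 : (0 : ℚ) ≤ ρ := Nat.cast_nonneg ρ
    have h6 : (k + 1) * (ρ * nr T + nr (derivative T) + ∑ i, ∑ l, nr (A i l)) * b ≤
        (k + 1) * c * b := by
      refine mul_le_mul_of_nonneg_right ?_ hb0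
      exact mul_le_mul_of_nonneg_left hc (by linarith)
    refine le_trans ?_ h6
    exact arith _ _ _ _ _ _ _ _ _ _ (nr _) hk0 hρ0 hT0 hT1 hA0 hb0 t1 t2 t3 h4a h4b

end BBS_

open BBS_ in
theorem p_BBS : T_BBS := by
  intro ι _ _ T A
  set ρ : ℕ := T.natDegree + ∑ i, ∑ l, (A i l).natDegree with hρ
  have hT : T.natDegree ≤ ρ := Nat.le_add_right _ _
  have hA : ∀ i j, (A i j).natDegree ≤ ρ := by
    intro i j
    have h1 : (A i j).natDegree ≤ ∑ l, (A i l).natDegree :=
      Finset.single_le_sum (f := fun l => (A i l).natDegree) (fun _ _ => Nat.zero_le _)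
        (Finset.mem_univ j)
    have h2 : ∑ l, (A i l).natDegree ≤ ∑ i, ∑ l, (A i l).natDegree :=
      Finset.single_le_sum (f := fun i => ∑ l, (A i l).natDegree) (fun _ _ => Nat.zero_le _)
        (Finset.mem_univ i)
    omega
  obtain ⟨C, hC⟩ := exists_nat_ge (ρ * nr T + nr (derivative T) + ∑ i, ∑ l, nr (A i l))
  refine ⟨C + 1, Nat.le_add_left _ _, ?_⟩
  intro k i j x hx
  have h1 := BB_nr T A hT hA ((C + 1 : ℕ) : ℚ) (hC.trans (by push_cast; linarith))
    (by push_cast; linarith [(Nat.cast_nonneg C : (0 : ℚ) ≤ C)]) k i j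
  have h2 := ev_le (BB T A k i j) x hx
  have h3 : ((nr (BB T A k i j) : ℚ) : ℝ) ≤ ((C + 1 : ℕ) : ℝ) ^ k * (k.factorial : ℝ) := by
    exact_mod_cast h1
  refine (h2.trans h3).trans ?_
  refine mul_le_mul_of_nonneg_right ?_ (by positivity)
  refine pow_le_pow_right₀ ?_ (Nat.le_succ k)
  push_cast
  linarith [(Nat.cast_nonneg C : (0 : ℝ) ≤ C)]

end Pool.Agent.LEG
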