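import Pool.Agent.LEG.Targets

set_option autoImplicit false

/-!
# Target SMALL: the linear forms of the derivatives are small
-/

namespace Pool.Agent.LEG

open Finset
open scoped BigOperators

namespace SMALL_

/-! ## Evaluation -/

/-- the terms of the series -/
noncomputable def tm (f : PowerSeries ℚ) (x : ℝ) (n : ℕ) : ℝ :=
  ((PowerSeries.coeff n f : ℚ) : ℝ) * x ^ n

/-- absolute convergence -/
def SC (f : PowerSeries ℚ) (x : ℝ) : Prop := Summable fun n => ‖tm f x n‖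

theorem tm_add (f g : PowerSeries ℚ) (x : ℝ) (n : ℕ) : tm (f + g) x n = tm f x n + tm g x n := by
  simp [tm, add_mul]

theorem tm_sub (f g : PowerSeries ℚ) (x : ℝ) (n : ℕ) : tm (f - g) x n = tm f x n - tm g x n := by
  simp [tm, sub_mul]

theorem sc_add {f g : PowerSeries ℚ} {x : ℝ} (hf : SC f x) (hg : SC g x) : SC (f + g) x := by
  unfold SC at *
  refine Summable.of_nonneg_of_le (fun n => norm_nonneg _) (fun n => ?_) (hf.add hg)
  rw [tm_add]
  exact norm_add_le _ _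

theorem ev_add {f g : PowerSeries ℚ} {x : ℝ} (hf : SC f x) (hg : SC g x) :
    ev (f + g) x = ev f x + ev g x := by
  show ∑' n, tm (f + g) x n = ∑' n, tm f x n + ∑' n, tm g x n
  rw [← Summable.tsum_add hf.of_norm hg.of_norm]
  exact tsum_congr (fun n => tm_add f g x n)

theorem ev_sub {f g : PowerSeries ℚ} {x : ℝ} (hf : SC f x) (hg : SC g x) :
    ev (f - g) x = ev f x - ev g x := by
  show ∑' n, tm (f - g) x n = ∑' n, tm f x n - ∑' n, tm g x n
  rw [← Summable.tsum_sub hf.of_norm hg.of_norm]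
  exact tsum_congr (fun n => tm_sub f g x n)

theorem sc_zero (x : ℝ) : SC 0 x := by
  unfold SC
  simp [tm, summable_zero]

theorem ev_zero (x : ℝ) : ev 0 x = 0 := by
  simp [ev]

theorem sc_sum {κ : Type*} (s : Finset κ) (f : κ → PowerSeries ℚ) (x : ℝ)
    (h : ∀ i ∈ s, SC (f i) x) : SC (∑ i ∈ s, f i) x ∧ ev (∑ i ∈ s, f i) x = ∑ i ∈ s, ev (f i) x := by
  classical
  induction s using Finset.induction_on with
  | empty => simpa using ⟨sc_zero x, ev_zero x⟩
  | insert a s ha ih =>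
    have h1 := ih (fun i hi => h i (Finset.mem_insert_of_mem hi))
    have h2 := h a (Finset.mem_insert_self a s)
    rw [Finset.sum_insert ha, Finset.sum_insert ha]
    exact ⟨sc_add h2 h1.1, by rw [ev_add h2 h1.1, h1.2]⟩

theorem tm_mul (f g : PowerSeries ℚ) (x : ℝ) (n : ℕ) :
    tm (f * g) x n = ∑ kl ∈ antidiagonal n, tm f x kl.1 * tm g x kl.2 := by
  unfold tm
  rw [PowerSeries.coeff_mul]
  push_cast
  rw [Finset.sum_mul]
  refine Finset.sum_congr rfl (fun kl hkl => ?_)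
  rw [← (Finset.HasAntidiagonal.mem_antidiagonal).1 hkl, pow_add]
  ring

theorem sc_mul {f g : PowerSeries ℚ} {x : ℝ} (hf : SC f x) (hg : SC g x) : SC (f * g) x := by
  unfold SC
  have h := summable_norm_sum_mul_antidiagonal_of_summable_norm hf hg
  refine h.congr (fun n => ?_)
  rw [tm_mul]

theorem ev_mul {f g : PowerSeries ℚ} {x : ℝ} (hf : SC f x) (hg : SC g x) :
    ev (f * g) x = ev f x * ev g x := by
  show ∑' n, tm (f * g) x n = (∑' n, tm f x n) * ∑' n, tm g x n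
  rw [tsum_mul_tsum_eq_tsum_sum_antidiagonal_of_summable_norm hf hg]
  exact tsum_congr (fun n => tm_mul f g x n)

theorem tm_poly (p : Polynomial ℚ) (x : ℝ) (n : ℕ) (hn : n ∉ range (p.natDegree + 1)) :
    tm (p : PowerSeries ℚ) x n = 0 := by
  unfold tm
  rw [Polynomial.coeff_coe, Polynomial.coeff_eq_zero_of_natDegree_lt]
  · simp
  · rw [Finset.mem_range] at hn
    omega

theorem sc_poly (p : Polynomial ℚ) (x : ℝ) : SC (p : PowerSeries ℚ) x := by
  unfold SC
  apply summable_of_ne_finset_zero (s := range (p.natDegree + 1))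
  intro n hn
  rw [tm_poly p x n hn, norm_zero]

theorem ev_poly (p : Polynomial ℚ) (x : ℝ) :
    ev (p : PowerSeries ℚ) x = Polynomial.aeval x p := by
  show ∑' n, tm (p : PowerSeries ℚ) x n = _
  rw [tsum_eq_sum (s := range (p.natDegree + 1)) (fun n hn => tm_poly p x n hn),
    Polynomial.aeval_eq_sum_range]
  refine Finset.sum_congr rfl (fun n _ => ?_)
  unfold tm
  rw [Polynomial.coeff_coe, Rat.smul_def]

/-! ## Sizes -/

theorem der_bound (g : PowerSeries ℚ) (σ l : ℕ) (K C x : ℝ) (hC : 1 ≤ C) (hx : 0 < x)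
    (hCx : 4 * C * x ≤ 1) (hK : 0 ≤ K) (h0 : ∀ s, s < σ → PowerSeries.coeff s g = 0)
    (hb : ∀ s, |((PowerSeries.coeff s g : ℚ) : ℝ)| ≤ K * C ^ (s + 1)) :
    SC ((PowerSeries.derivative ℚ)^[l] g) x ∧
      |ev ((PowerSeries.derivative ℚ)^[l] g) x| ≤
        (l.factorial : ℝ) * (2 * K * C * (4 * C * x) ^ σ / x ^ l) := by
  have hkey : ∀ n, ‖tm ((PowerSeries.derivative ℚ)^[l] g) x n‖ ≤
      ((l.factorial : ℝ) * (K * C * (4 * C * x) ^ σ / x ^ l)) * (1 / 2) ^ n := by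
    intro n
    have hC0 : 0 < C := by linarith
    unfold tm
    rw [PowerSeries.coeff_iterate_derivative]
    rcases lt_or_ge (n + l) σ with h | h
    · rw [h0 _ h]
      simp only [mul_zero, Rat.cast_zero, zero_mul, norm_zero]
      positivity
    · rw [Nat.ascFactorial_eq_factorial_mul_choose, Real.norm_eq_abs, abs_mul]
      push_cast
      rw [abs_mul, abs_mul, abs_of_nonneg (Nat.cast_nonneg l.factorial),
        abs_of_nonneg (Nat.cast_nonneg ((n + l).choose l)), abs_of_pos (pow_pos hx n)]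
      have h1 : (((n + l).choose l : ℕ) : ℝ) ≤ 2 ^ (n + l) := by
        exact_mod_cast Nat.choose_le_two_pow (n + l) l
      have h2 := hb (n + l)
      have h3 : (2 * C * x) ^ (n + l) ≤ (4 * C * x) ^ σ * (1 / 2) ^ n := by
        have e1 : (2 * C * x) ^ (n + l) = (2 * C * x) ^ σ * (2 * C * x) ^ (n + l - σ) := by
          rw [← pow_add]; congr 1; omega
        have e2 : (4 * C * x) ^ σ = (2 * C * x) ^ σ * 2 ^ σ := by
          rw [← mul_pow]; congr 1; ring
        rw [e1, e2, mul_assoc ((2 * C * x) ^ σ)]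
        have h4 : (2 * C * x) ^ (n + l - σ) ≤ (1 / 2) ^ (n + l - σ) :=
          pow_le_pow_left₀ (by positivity) (by linarith) _
        have h5 : ((1 : ℝ) / 2) ^ (n + l - σ) ≤ 2 ^ σ * (1 / 2) ^ n := by
          have e3 : ((1 : ℝ) / 2) ^ (n + l - σ) * (1 / 2) ^ σ ≤ (1 / 2) ^ n := by
            rw [← pow_add]
            apply pow_le_pow_of_le_one (by norm_num) (by norm_num)
            omega
          have e4 : ((1 : ℝ) / 2) ^ σ * 2 ^ σ = 1 := by
            rw [← mul_pow]; norm_num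
          calc ((1 : ℝ) / 2) ^ (n + l - σ)
              = 2 ^ σ * (((1 : ℝ) / 2) ^ (n + l - σ) * (1 / 2) ^ σ) := by
                rw [mul_comm (((1 : ℝ) / 2) ^ (n + l - σ)), ← mul_assoc, mul_comm (2 ^ σ : ℝ), e4,
                  one_mul]
            _ ≤ 2 ^ σ * (1 / 2) ^ n := by gcongr
        have h6 : 0 ≤ (2 * C * x) ^ σ := by positivity
        exact mul_le_mul_of_nonneg_left (h4.trans h5) h6
      calc (l.factorial : ℝ) * (((n + l).choose l : ℕ) : ℝ) *
            |((PowerSeries.coeff (n + l) g : ℚ) : ℝ)| * x ^ n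
          ≤ (l.factorial : ℝ) * 2 ^ (n + l) * (K * C ^ (n + l + 1)) * x ^ n := by gcongr
        _ = (l.factorial : ℝ) * (K * C / x ^ l) * (2 * C * x) ^ (n + l) := by
            rw [mul_pow, mul_pow, pow_add x n l]
            field_simp
            ring
        _ ≤ (l.factorial : ℝ) * (K * C / x ^ l) * ((4 * C * x) ^ σ * (1 / 2) ^ n) := by
            gcongr
        _ = ((l.factorial : ℝ) * (K * C * (4 * C * x) ^ σ / x ^ l)) * (1 / 2) ^ n := by ring
  have hs := (hasSum_geometric_two).mul_left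
    ((l.factorial : ℝ) * (K * C * (4 * C * x) ^ σ / x ^ l))
  refine ⟨Summable.of_nonneg_of_le (fun n => norm_nonneg _) hkey hs.summable, ?_⟩
  have h7 := tsum_of_norm_bounded hs hkey
  rw [Real.norm_eq_abs] at h7
  refine h7.trans (le_of_eq ?_)
  ring

theorem poly_bound (p : Polynomial ℚ) : ∃ C : ℕ, 1 ≤ C ∧ ∀ x : ℝ, |x| ≤ 1 →
    |Polynomial.aeval x p| ≤ C := by
  obtain ⟨C, hC⟩ := exists_nat_ge (∑ i ∈ range (p.natDegree + 1), |((p.coeff i : ℚ) : ℝ)|)
  refine ⟨C + 1, by omega, fun x hx => ?_⟩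
  rw [Polynomial.aeval_eq_sum_range]
  push_cast
  refine (Finset.abs_sum_le_sum_abs _ _).trans ?_
  refine le_trans (Finset.sum_le_sum (g := fun i => |((p.coeff i : ℚ) : ℝ)|) (fun i _ => ?_)) ?_
  · rw [Rat.smul_def, abs_mul, abs_pow]
    exact mul_le_of_le_one_right (abs_nonneg _) (pow_le_one₀ (abs_nonneg _) hx)
  · linarith

theorem common {ι : Type} [Fintype ι] (f : ι → PowerSeries ℚ) (hf : ∀ i, IsG (f i)) :
    ∃ C : ℕ, 1 ≤ C ∧ ∀ i n, |((PowerSeries.coeff n (f i) : ℚ) : ℝ)| ≤ (C : ℝ) ^ (n + 1) := by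
  choose C hC using hf
  refine ⟨1 + ∑ i, C i, by omega, fun i n => ?_⟩
  have h1 := (hC i n).1
  have h2 : |((PowerSeries.coeff n (f i) : ℚ) : ℝ)| ≤ (C i : ℝ) ^ (n + 1) := by exact_mod_cast h1
  refine h2.trans ?_
  apply pow_le_pow_left₀ (Nat.cast_nonneg _)
  have h3 : C i ≤ ∑ i, C i := Finset.single_le_sum (fun _ _ => Nat.zero_le _) (Finset.mem_univ i)
  exact_mod_cast h3.trans (by omega)

/-- coefficients of the remainders -/
theorem rem_bound (f : PowerSeries ℚ) (Q P : Polynomial ℚ) (m σ : ℕ) (C H : ℝ) (hC : 1 ≤ C)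
    (hf : ∀ n, |((PowerSeries.coeff n f : ℚ) : ℝ)| ≤ C ^ (n + 1)) (hm : m < σ)
    (hQ : Q.natDegree ≤ m) (hP : P.natDegree ≤ m) (hH : ∀ s, |((Q.coeff s : ℚ) : ℝ)| ≤ H)
    (hord : (PowerSeries.X : PowerSeries ℚ) ^ σ ∣ (Q : PowerSeries ℚ) * f - (P : PowerSeries ℚ)) :
    (∀ s, s < σ → PowerSeries.coeff s ((Q : PowerSeries ℚ) * f - (P : PowerSeries ℚ)) = 0) ∧
    ∀ s, |((PowerSeries.coeff s ((Q : PowerSeries ℚ) * f - (P : PowerSeries ℚ)) : ℚ) : ℝ)| ≤
      (((m : ℝ) + 1) * H) * C ^ (s + 1) := by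
  have hz := (PowerSeries.X_pow_dvd_iff).1 hord
  have hH0 : 0 ≤ H := (abs_nonneg _).trans (hH 0)
  have hC0 : 0 < C := by linarith
  refine ⟨hz, fun s => ?_⟩
  rcases lt_or_ge s σ with h | h
  · rw [hz s h]
    simp only [Rat.cast_zero, abs_zero]
    positivity
  · have e1 : PowerSeries.coeff s ((Q : PowerSeries ℚ) * f - (P : PowerSeries ℚ)) =
        ∑ a ∈ range (s + 1), Q.coeff a * PowerSeries.coeff (s - a) f := by
      rw [map_sub, Polynomial.coeff_coe, Polynomial.coeff_eq_zero_of_natDegree_lt (by omega),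
        sub_zero, PowerSeries.coeff_mul, Finset.Nat.sum_antidiagonal_eq_sum_range_succ_mk]
      refine Finset.sum_congr rfl (fun a _ => ?_)
      rw [Polynomial.coeff_coe]
    rw [e1]
    push_cast
    have e2 : ∑ a ∈ range (s + 1), ((Q.coeff a : ℚ) : ℝ) * ((PowerSeries.coeff (s - a) f : ℚ) : ℝ) =
        ∑ a ∈ range (m + 1), ((Q.coeff a : ℚ) : ℝ) * ((PowerSeries.coeff (s - a) f : ℚ) : ℝ) := by
      symm
      apply Finset.sum_subset
      · intro a ha
        rw [Finset.mem_range] at ha ⊢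
        omega
      · intro a _ ha
        rw [Finset.mem_range] at ha
        rw [Polynomial.coeff_eq_zero_of_natDegree_lt (by omega)]
        simp
    rw [e2]
    refine (Finset.abs_sum_le_sum_abs _ _).trans ?_
    have hb : ∀ a ∈ range (m + 1), |((Q.coeff a : ℚ) : ℝ) *
        ((PowerSeries.coeff (s - a) f : ℚ) : ℝ)| ≤ H * C ^ (s + 1) := by
      intro a _
      rw [abs_mul]
      have h1 : C ^ (s - a + 1) ≤ C ^ (s + 1) := pow_le_pow_right₀ hC (by omega)
      exact mul_le_mul (hH a) ((hf _).trans h1) (abs_nonneg _) hH0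
    refine (Finset.sum_le_sum hb).trans (le_of_eq ?_)
    rw [Finset.sum_const, Finset.card_range, nsmul_eq_mul]
    push_cast
    ring

/-- the formal identity -/
theorem formal {ι : Type} [Fintype ι] [DecidableEq ι] (h1 : T_LEIB) (T : Polynomial ℚ)
    (A : ι → ι → Polynomial ℚ) (f : ι → PowerSeries ℚ) (hH : Hor T A f) (Q : Polynomial ℚ)
    (P : ι → Polynomial ℚ) (k : ℕ) (i : ι) :
    (VV T A P k i : PowerSeries ℚ) =
      ((T ^ k * Polynomial.derivative^[k] Q : Polynomial ℚ) : PowerSeries ℚ) * f i -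
      ∑ l ∈ range (k + 1), ∑ j, (((k.choose l : Polynomial ℚ) * BB T A (k - l) i j * T ^ l :
        Polynomial ℚ) : PowerSeries ℚ) *
        (PowerSeries.derivative ℚ)^[l] ((Q : PowerSeries ℚ) * f j - (P j : PowerSeries ℚ)) := by
  obtain ⟨L1, L2, -, L4⟩ := h1 ι T A
  have e4 := L4 f Q k i hH
  have e1 := L1 (fun j => (Q : PowerSeries ℚ) * f j) k i
  have e2 := L1 (fun j => (P j : PowerSeries ℚ)) k i
  rw [L2 P k i, e2]
  have e5 : ((T ^ k * Polynomial.derivative^[k] Q : Polynomial ℚ) : PowerSeries ℚ) * f i =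
      VS T A (fun j => (Q : PowerSeries ℚ) * f j) k i := by
    rw [e4, Polynomial.coe_mul, Polynomial.coe_pow]
  rw [e5, e1, ← Finset.sum_sub_distrib]
  refine Finset.sum_congr rfl (fun l _ => ?_)
  rw [← Finset.sum_sub_distrib]
  refine Finset.sum_congr rfl (fun j _ => ?_)
  have e6 : (PowerSeries.derivative ℚ)^[l] ((Q : PowerSeries ℚ) * f j - (P j : PowerSeries ℚ)) =
      (PowerSeries.derivative ℚ)^[l] ((Q : PowerSeries ℚ) * f j) -
        (PowerSeries.derivative ℚ)^[l] (P j : PowerSeries ℚ) :=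
    iterate_map_sub (PowerSeries.derivative ℚ) l _ _
  rw [e6]
  have e7 : (((k.choose l : Polynomial ℚ) * BB T A (k - l) i j * T ^ l : Polynomial ℚ) :
      PowerSeries ℚ) = (k.choose l : PowerSeries ℚ) * (BB T A (k - l) i j : PowerSeries ℚ) *
        (T : PowerSeries ℚ) ^ l := by
    rw [Polynomial.coe_mul, Polynomial.coe_mul, Polynomial.coe_pow]
    congr 2
    exact map_natCast (Polynomial.coeToPowerSeries.ringHom (R := ℚ)) _
  rw [e7]
  ring

end SMALL_

theorem p_SMALL (h1 : T_LEIB) (h2 : T_BBS) : T_SMALL := by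
  intro ι _ _ T A f o hG hHor
  obtain ⟨CB, hCB1, hCB⟩ := h2 ι T A
  obtain ⟨CT, hCT1, hCT⟩ := SMALL_.poly_bound T
  obtain ⟨C, hC1, hC⟩ := SMALL_.common f hG
  set M := Fintype.card ι with hM
  refine ⟨8 * (M + 1) * CB * CT * C, ?_, ?_⟩
  · have : 0 < 8 * (M + 1) * CB * CT * C := by positivity
    omega
  intro N m σ k H P c hN hmσ hP hH hrel
  have hCr : (1 : ℝ) ≤ C := by exact_mod_cast hC1
  have hCBr : (1 : ℝ) ≤ CB := by exact_mod_cast hCB1
  have hCTr : (1 : ℝ) ≤ CT := by exact_mod_cast hCT1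
  have hMr : (0 : ℝ) ≤ M := Nat.cast_nonneg _
  have hNbig : 4 * (C : ℝ) ≤ N := by
    have h3 : ((8 * (M + 1) * CB * CT * C : ℕ) : ℝ) ≤ N := by exact_mod_cast hN
    push_cast at h3
    have h4 : 4 * (C : ℝ) ≤ 8 * (M + 1) * CB * CT * C := by
      have h5 : (1 : ℝ) ≤ (M + 1) * CB * CT := by
        have h6 : (1 : ℝ) ≤ (M + 1) * CB := one_le_mul_of_one_le_of_one_le (by linarith) hCBr
        exact one_le_mul_of_one_le_of_one_le h6 hCTr
      nlinarith
    exact h4.trans h3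
  have hN1 : (1 : ℝ) ≤ N := by linarith
  have hN0 : (0 : ℝ) < N := by linarith
  set x : ℝ := 1 / (N : ℝ) with hx
  have hx0 : 0 < x := by positivity
  have hx1 : |x| ≤ 1 := by
    rw [abs_of_pos hx0, hx, div_le_one hN0]
    exact hN1
  have hCx : 4 * (C : ℝ) * x ≤ 1 := by
    rw [hx, mul_one_div, div_le_one hN0]
    exact hNbig
  have hH0 : 0 ≤ H := (abs_nonneg _).trans (hH 0)
  -- the remainders
  have hR := fun j => SMALL_.rem_bound (f j) (P o) (P j) m σ C H hCr (hC j) hmσ (hP.deg o)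
    (hP.deg j) hH (hP.ord j)
  have hD := fun j l => SMALL_.der_bound _ σ l (((m : ℝ) + 1) * H) C x hCr hx0 hCx
    (by positivity) (hR j).1 (hR j).2
  -- convergence of the functions
  have hfc : ∀ i, SMALL_.SC (f i) x := by
    intro i
    have h3 := SMALL_.der_bound (f i) 0 0 1 C x hCr hx0 hCx zero_le_one
      (fun s hs => absurd hs (Nat.not_lt_zero s)) (fun s => by rw [one_mul]; exact hC i s)
    exact h3.1
  -- evaluation of the formal identity
  have hev : ∀ i, Polynomial.aeval x (VV T A P k i) =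
      Polynomial.aeval x (T ^ k * Polynomial.derivative^[k] (P o)) * ev (f i) x -
      ∑ l ∈ range (k + 1), ∑ j, Polynomial.aeval x ((k.choose l : Polynomial ℚ) *
        BB T A (k - l) i j * T ^ l) *
        ev ((PowerSeries.derivative ℚ)^[l] ((P o : PowerSeries ℚ) * f j -
          (P j : PowerSeries ℚ))) x := by
    intro i
    rw [← SMALL_.ev_poly (VV T A P k i), SMALL_.formal h1 T A f hHor (P o) P k i]
    have s1 := SMALL_.sc_mul (SMALL_.sc_poly (T ^ k * Polynomial.derivative^[k] (P o)) x) (hfc i)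
    have s2 : ∀ l, ∀ j ∈ (Finset.univ : Finset ι), SMALL_.SC
        ((((k.choose l : Polynomial ℚ) * BB T A (k - l) i j * T ^ l :
        Polynomial ℚ) : PowerSeries ℚ) *
        (PowerSeries.derivative ℚ)^[l] ((P o : PowerSeries ℚ) * f j - (P j : PowerSeries ℚ))) x :=
      fun l j _ => SMALL_.sc_mul (SMALL_.sc_poly _ x) (hD j l).1
    have s3 := fun l => SMALL_.sc_sum Finset.univ _ x (s2 l)
    have s4 := SMALL_.sc_sum (range (k + 1)) (fun l => ∑ j, (((k.choose l : Polynomial ℚ) *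
        BB T A (k - l) i j * T ^ l : Polynomial ℚ) : PowerSeries ℚ) *
        (PowerSeries.derivative ℚ)^[l] ((P o : PowerSeries ℚ) * f j - (P j : PowerSeries ℚ))) x
        (fun l _ => (s3 l).1)
    rw [SMALL_.ev_sub s1 s4.1, SMALL_.ev_mul (SMALL_.sc_poly _ x) (hfc i), SMALL_.ev_poly, s4.2]
    congr 1
    refine Finset.sum_congr rfl (fun l _ => ?_)
    rw [(s3 l).2]
    refine Finset.sum_congr rfl (fun j _ => ?_)
    rw [SMALL_.ev_mul (SMALL_.sc_poly _ x) (hD j l).1, SMALL_.ev_poly]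
  -- the size of the remainder
  set W : ℝ := 2 * (((m : ℝ) + 1) * H) * C * (4 * C * x) ^ σ with hW
  have hW0 : 0 ≤ W := by positivity
  have hS : ∀ i, |∑ l ∈ range (k + 1), ∑ j, Polynomial.aeval x ((k.choose l : Polynomial ℚ) *
        BB T A (k - l) i j * T ^ l) *
        ev ((PowerSeries.derivative ℚ)^[l] ((P o : PowerSeries ℚ) * f j -
          (P j : PowerSeries ℚ))) x| ≤
      (k.factorial : ℝ) * (((k : ℝ) + 1) * M * ((CB : ℝ) ^ (k + 1) * (CT : ℝ) ^ k) *
        (W * (N : ℝ) ^ k)) := by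
    intro i
    have hterm : ∀ l ∈ range (k + 1), ∀ j ∈ (Finset.univ : Finset ι),
        |Polynomial.aeval x ((k.choose l : Polynomial ℚ) * BB T A (k - l) i j * T ^ l) *
        ev ((PowerSeries.derivative ℚ)^[l] ((P o : PowerSeries ℚ) * f j -
          (P j : PowerSeries ℚ))) x| ≤
        (k.factorial : ℝ) * (((CB : ℝ) ^ (k + 1) * (CT : ℝ) ^ k) * (W * (N : ℝ) ^ k)) := by
      intro l hl j _
      have hlk : l ≤ k := by
        rw [Finset.mem_range] at hl
        omega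
      rw [abs_mul, map_mul, map_mul, map_pow, map_natCast, abs_mul, abs_mul, abs_pow,
        Nat.abs_cast]
      have b1 := hCB (k - l) i j x hx1
      have b2 : |Polynomial.aeval x T| ^ l ≤ (CT : ℝ) ^ k :=
        (pow_le_pow_left₀ (abs_nonneg _) (hCT x hx1) l).trans (pow_le_pow_right₀ hCTr hlk)
      have b3 : (CB : ℝ) ^ (k - l + 1) ≤ (CB : ℝ) ^ (k + 1) :=
        pow_le_pow_right₀ hCBr (by omega)
      have b4 : |ev ((PowerSeries.derivative ℚ)^[l] ((P o : PowerSeries ℚ) * f j -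
          (P j : PowerSeries ℚ))) x| ≤ (l.factorial : ℝ) * (W * (N : ℝ) ^ k) := by
        refine (hD j l).2.trans ?_
        have e1 : (2 * (((m : ℝ) + 1) * H) * C * (4 * C * x) ^ σ / x ^ l) = W * (N : ℝ) ^ l := by
          rw [hW, hx, one_div, inv_pow (N : ℝ) l, div_inv_eq_mul]
        rw [e1]
        have b5 : (N : ℝ) ^ l ≤ (N : ℝ) ^ k := pow_le_pow_right₀ hN1 hlk
        gcongr
      have e2 : ((k.choose l : ℕ) : ℝ) * ((k - l).factorial : ℝ) * (l.factorial : ℝ) =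
          (k.factorial : ℝ) := by
        have := Nat.choose_mul_factorial_mul_factorial hlk
        have h' : k.choose l * (k - l).factorial * l.factorial = k.factorial := by
          rw [← this]; ring
        exact_mod_cast h'
      calc ((k.choose l : ℕ) : ℝ) * |Polynomial.aeval x (BB T A (k - l) i j)| *
            |Polynomial.aeval x T| ^ l *
            |ev ((PowerSeries.derivative ℚ)^[l] ((P o : PowerSeries ℚ) * f j -
              (P j : PowerSeries ℚ))) x|
          ≤ ((k.choose l : ℕ) : ℝ) * ((CB : ℝ) ^ (k + 1) * ((k - l).factorial : ℝ)) *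
            (CT : ℝ) ^ k * ((l.factorial : ℝ) * (W * (N : ℝ) ^ k)) := by
            have b6 : |Polynomial.aeval x (BB T A (k - l) i j)| ≤
                (CB : ℝ) ^ (k + 1) * ((k - l).factorial : ℝ) :=
              b1.trans (mul_le_mul_of_nonneg_right b3 (Nat.cast_nonneg _))
            gcongr
        _ = (((k.choose l : ℕ) : ℝ) * ((k - l).factorial : ℝ) * (l.factorial : ℝ)) *
            (((CB : ℝ) ^ (k + 1) * (CT : ℝ) ^ k) * (W * (N : ℝ) ^ k)) := by ring
        _ = (k.factorial : ℝ) * (((CB : ℝ) ^ (k + 1) * (CT : ℝ) ^ k) * (W * (N : ℝ) ^ k)) := by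
            rw [e2]
    refine (Finset.abs_sum_le_sum_abs _ _).trans ?_
    refine (Finset.sum_le_sum (fun l hl => (Finset.abs_sum_le_sum_abs _ _).trans
      (Finset.sum_le_sum (hterm l hl)))).trans (le_of_eq ?_)
    simp only [Finset.sum_const, Finset.card_range, nsmul_eq_mul, Finset.card_univ]
    rw [← hM]
    push_cast
    ring
  -- the relation
  have hsum : ∑ i, (c i : ℝ) * ((((VV T A P k i).eval (1 / (N : ℚ)) : ℚ) : ℝ) /
      (k.factorial : ℝ)) =
      - ∑ i, (c i : ℝ) * ((∑ l ∈ range (k + 1), ∑ j,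
        Polynomial.aeval x ((k.choose l : Polynomial ℚ) * BB T A (k - l) i j * T ^ l) *
        ev ((PowerSeries.derivative ℚ)^[l] ((P o : PowerSeries ℚ) * f j -
          (P j : PowerSeries ℚ))) x) / (k.factorial : ℝ)) := by
    have e1 : ∀ i, (((VV T A P k i).eval (1 / (N : ℚ)) : ℚ) : ℝ) =
        Polynomial.aeval x (VV T A P k i) := by
      intro i
      have h3 := Polynomial.aeval_algebraMap_apply ℝ (1 / (N : ℚ)) (VV T A P k i)
      rw [Polynomial.coe_aeval_eq_eval] at h3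
      have h4 : algebraMap ℚ ℝ (1 / (N : ℚ)) = x := by
        rw [hx]; simp
      rw [h4] at h3
      rw [h3]
      rfl
    have e2 : ∀ i, (c i : ℝ) * ((((VV T A P k i).eval (1 / (N : ℚ)) : ℚ) : ℝ) /
        (k.factorial : ℝ)) =
        (Polynomial.aeval x (T ^ k * Polynomial.derivative^[k] (P o)) / (k.factorial : ℝ)) *
          ((c i : ℝ) * ev (f i) x) -
        (c i : ℝ) * ((∑ l ∈ range (k + 1), ∑ j,
        Polynomial.aeval x ((k.choose l : Polynomial ℚ) * BB T A (k - l) i j * T ^ l) *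
        ev ((PowerSeries.derivative ℚ)^[l] ((P o : PowerSeries ℚ) * f j -
          (P j : PowerSeries ℚ))) x) / (k.factorial : ℝ)) := by
      intro i
      rw [e1 i, hev i]
      ring
    rw [Finset.sum_congr rfl (fun i _ => e2 i), Finset.sum_sub_distrib, ← Finset.mul_sum, hrel,
      mul_zero, zero_sub]
  rw [hsum, abs_neg]
  refine (Finset.abs_sum_le_sum_abs _ _).trans ?_
  have hkf : (0 : ℝ) < (k.factorial : ℝ) := by exact_mod_cast k.factorial_pos
  have hfin : ∀ i ∈ (Finset.univ : Finset ι), |(c i : ℝ) * ((∑ l ∈ range (k + 1), ∑ j,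
        Polynomial.aeval x ((k.choose l : Polynomial ℚ) * BB T A (k - l) i j * T ^ l) *
        ev ((PowerSeries.derivative ℚ)^[l] ((P o : PowerSeries ℚ) * f j -
          (P j : PowerSeries ℚ))) x) / (k.factorial : ℝ))| ≤
      |(c i : ℝ)| * (((k : ℝ) + 1) * M * ((CB : ℝ) ^ (k + 1) * (CT : ℝ) ^ k) *
        (W * (N : ℝ) ^ k)) := by
    intro i _
    rw [abs_mul, abs_div, abs_of_pos hkf]
    refine mul_le_mul_of_nonneg_left ?_ (abs_nonneg _)
    rw [div_le_iff₀ hkf]
    refine (hS i).trans (le_of_eq ?_)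
    ring
  refine (Finset.sum_le_sum hfin).trans ?_
  rw [← Finset.sum_mul, mul_assoc (∑ i, |(c i : ℝ)|), mul_assoc (∑ i, |(c i : ℝ)|),
    mul_assoc (∑ i, |(c i : ℝ)|), mul_div_assoc]
  refine mul_le_mul_of_nonneg_left ?_ (Finset.sum_nonneg (fun i _ => abs_nonneg _))
  -- constants
  have hcst : ((k : ℝ) + 1) * M * ((CB : ℝ) ^ (k + 1) * (CT : ℝ) ^ k) * (2 * C * (4 * C) ^ σ) ≤
      ((8 * (M + 1) * CB * CT * C : ℕ) : ℝ) ^ (k + σ + 1) := by
    push_cast
    have g1 : ((k : ℝ) + 1) ≤ 2 ^ k := by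
      have := Nat.lt_two_pow_self (n := k)
      exact_mod_cast this
    have g2 : (M : ℝ) ≤ ((M : ℝ) + 1) ^ (k + σ + 1) := by
      have h3 : ((M : ℝ) + 1) ^ 1 ≤ ((M : ℝ) + 1) ^ (k + σ + 1) :=
        pow_le_pow_right₀ (by linarith) (by omega)
      rw [pow_one] at h3
      linarith
    have g3 : (CB : ℝ) ^ (k + 1) ≤ (CB : ℝ) ^ (k + σ + 1) := pow_le_pow_right₀ hCBr (by omega)
    have g4 : (CT : ℝ) ^ k ≤ (CT : ℝ) ^ (k + σ + 1) := pow_le_pow_right₀ hCTr (by omega)
    have g5 : (C : ℝ) ^ (σ + 1) ≤ (C : ℝ) ^ (k + σ + 1) := pow_le_pow_right₀ hCr (by omega)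
    have g6 : (2 : ℝ) ^ k * 2 * 4 ^ σ ≤ 8 ^ (k + σ + 1) := by
      rw [pow_add, pow_add, pow_one]
      have a1 : (2 : ℝ) ^ k ≤ 8 ^ k := pow_le_pow_left₀ (by norm_num) (by norm_num) k
      have a2 : (4 : ℝ) ^ σ ≤ 8 ^ σ := pow_le_pow_left₀ (by norm_num) (by norm_num) σ
      have a3 : (0 : ℝ) < 8 ^ k := by positivity
      have a4 : (0 : ℝ) < 8 ^ σ := by positivity
      calc (2 : ℝ) ^ k * 2 * 4 ^ σ ≤ 8 ^ k * 2 * 8 ^ σ := by gcongr
        _ ≤ 8 ^ k * 8 ^ σ * 8 := by nlinarith [mul_pos a3 a4]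
    have e1 : ((k : ℝ) + 1) * M * ((CB : ℝ) ^ (k + 1) * (CT : ℝ) ^ k) * (2 * C * (4 * C) ^ σ) =
        (((k : ℝ) + 1) * 2 * 4 ^ σ) * M * (CB : ℝ) ^ (k + 1) * (CT : ℝ) ^ k *
          (C : ℝ) ^ (σ + 1) := by
      rw [mul_pow]; ring
    have e2 : (8 * ((M : ℝ) + 1) * CB * CT * C) ^ (k + σ + 1) = 8 ^ (k + σ + 1) *
        ((M : ℝ) + 1) ^ (k + σ + 1) * (CB : ℝ) ^ (k + σ + 1) * (CT : ℝ) ^ (k + σ + 1) *
          (C : ℝ) ^ (k + σ + 1) := by
      rw [mul_pow, mul_pow, mul_pow, mul_pow]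
    rw [e1, e2]
    have g7 : ((k : ℝ) + 1) * 2 * 4 ^ σ ≤ 8 ^ (k + σ + 1) := by
      refine le_trans ?_ g6
      gcongr
    gcongr
  have hxs : (4 * (C : ℝ) * x) ^ σ = (4 * C) ^ σ / (N : ℝ) ^ σ := by
    rw [hx, mul_one_div, div_pow]
  rw [hW, hxs]
  have hfinal : ((k : ℝ) + 1) * M * ((CB : ℝ) ^ (k + 1) * (CT : ℝ) ^ k) *
      (2 * (((m : ℝ) + 1) * H) * C * ((4 * C) ^ σ / (N : ℝ) ^ σ) * (N : ℝ) ^ k) =
      (((k : ℝ) + 1) * M * ((CB : ℝ) ^ (k + 1) * (CT : ℝ) ^ k) * (2 * C * (4 * C) ^ σ)) *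
        ((((m : ℝ) + 1) * H) * ((N : ℝ) ^ k / (N : ℝ) ^ σ)) := by
    ring
  rw [hfinal]
  have hlast : (((m : ℝ) + 1) * (H * (((8 * (M + 1) * CB * CT * C : ℕ) : ℝ) ^ (k + σ + 1) *
      ((N : ℝ) ^ k / (N : ℝ) ^ σ)))) = (((8 * (M + 1) * CB * CT * C : ℕ) : ℝ) ^ (k + σ + 1)) *
        ((((m : ℝ) + 1) * H) * ((N : ℝ) ^ k / (N : ℝ) ^ σ)) := by
    ring
  refine (mul_le_mul_of_nonneg_right hcst (by positivity)).trans (le_of_eq ?_)
  rw [← hlast]
  ring

end Pool.Agent.LEG
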