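import Pool.Agent.LEG.Targets

set_option autoImplicit false

/-!
# G-functions: the substitution `c z / (1 - a z)`
-/

namespace Pool.Agent.LEG

open Finset
open scoped BigOperators Topology

namespace GSH_

/-- the coefficients of `c z / (1 - a z)` as natural numbers -/
def yy (c a : ℕ) (j : ℕ) : ℕ := if j = 0 then 0 else c * a ^ (j - 1)

theorem coeff_sh (c a j : ℕ) : PowerSeries.coeff j (sh c a) = ((yy c a j : ℕ) : ℚ) := by
  unfold sh yy
  rw [PowerSeries.coeff_mk]
  split_ifs <;> simp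

theorem yy_le (c a j : ℕ) : yy c a j ≤ (c + a) ^ j := by
  unfold yy
  split_ifs with h
  · exact Nat.zero_le _
  · obtain ⟨j, rfl⟩ := Nat.exists_eq_succ_of_ne_zero h
    rw [Nat.succ_sub_one, pow_succ, mul_comm]
    exact Nat.mul_le_mul (Nat.pow_le_pow_left (Nat.le_add_left a c) j) (Nat.le_add_right c a)

/-- the coefficients of the powers -/
theorem pc (c a : ℕ) (n : ℕ) : ∃ x : ℕ → ℕ,
    (∀ s, PowerSeries.coeff s (sh c a ^ n) = ((x s : ℕ) : ℚ)) ∧
    (∀ s, x s ≤ (2 * (c + a)) ^ s) ∧ ∀ s, s < n → x s = 0 := by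
  induction n with
  | zero =>
    refine ⟨fun s => if s = 0 then 1 else 0, fun s => ?_, fun s => ?_, fun s hs => ?_⟩
    · rw [pow_zero, PowerSeries.coeff_one]
      split_ifs with h <;> simp [h]
    · simp only
      split_ifs with h
      · rw [h, pow_zero]
      · exact Nat.zero_le _
    · exact absurd hs (Nat.not_lt_zero s)
  | succ n ih =>
    obtain ⟨x, hx1, hx2, hx3⟩ := ih
    refine ⟨fun s => ∑ i ∈ range (s + 1), x i * yy c a (s - i), fun s => ?_, fun s => ?_,
      fun s hs => ?_⟩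
    · rw [pow_succ, PowerSeries.coeff_mul,
        Finset.Nat.sum_antidiagonal_eq_sum_range_succ
          (fun i j => PowerSeries.coeff i (sh c a ^ n) * PowerSeries.coeff j (sh c a))]
      push_cast
      refine Finset.sum_congr rfl fun i _ => ?_
      rw [hx1, coeff_sh]
    · simp only
      rw [Finset.sum_range_succ, Nat.sub_self]
      have h0 : yy c a 0 = 0 := rfl
      rw [h0, mul_zero, add_zero]
      calc ∑ i ∈ range s, x i * yy c a (s - i)
          ≤ ∑ i ∈ range s, 2 ^ i * (c + a) ^ s := by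
            refine Finset.sum_le_sum fun i hi => ?_
            have hi' : i ≤ s := (Finset.mem_range.1 hi).le
            calc x i * yy c a (s - i) ≤ (2 * (c + a)) ^ i * (c + a) ^ (s - i) :=
                  Nat.mul_le_mul (hx2 i) (yy_le c a (s - i))
              _ = 2 ^ i * ((c + a) ^ i * (c + a) ^ (s - i)) := by rw [mul_pow, mul_assoc]
              _ = 2 ^ i * (c + a) ^ s := by rw [← pow_add, Nat.add_sub_cancel' hi']
        _ = (∑ i ∈ range s, 2 ^ i) * (c + a) ^ s := by rw [Finset.sum_mul]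
        _ ≤ 2 ^ s * (c + a) ^ s := by
            refine Nat.mul_le_mul_right _ (Nat.geomSum_lt le_rfl fun k hk => ?_).le
            exact Finset.mem_range.1 hk
        _ = (2 * (c + a)) ^ s := by rw [mul_pow]
    · simp only
      refine Finset.sum_eq_zero fun i hi => ?_
      rcases Nat.lt_or_ge i n with h | h
      · rw [hx3 i h, zero_mul]
      · have h1 : s - i = 0 := by
          have := Finset.mem_range.1 hi
          omega
        rw [h1]
        exact mul_zero _

theorem hasSubst_sh (c a : ℕ) : PowerSeries.HasSubst (sh c a) := by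
  apply PowerSeries.HasSubst.of_constantCoeff_zero'
  rw [← PowerSeries.coeff_zero_eq_constantCoeff_apply, coeff_sh]
  simp [yy]

end GSH_

open GSH_

theorem p_GSH : T_GSH := by
  intro c a f hf
  obtain ⟨C, hC⟩ := hf
  have hC1 : 1 ≤ C := by
    obtain ⟨-, d, hd, hd2, -⟩ := hC 0
    rw [zero_add, pow_one] at hd2
    omega
  choose x hx1 hx2 hx3 using pc c a
  have hcoef : ∀ s, PowerSeries.coeff s (f.subst (sh c a)) =
      ∑ m ∈ range (s + 1), PowerSeries.coeff m f * ((x m s : ℕ) : ℚ) := by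
    intro s
    rw [PowerSeries.coeff_subst' (hasSubst_sh c a), finsum_eq_sum_of_support_subset (s := range (s + 1))]
    · refine Finset.sum_congr rfl fun m _ => ?_
      rw [hx1, smul_eq_mul]
    · intro m hm
      rw [Function.mem_support] at hm
      rw [Finset.coe_range, Set.mem_Iio]
      by_contra hcon
      apply hm
      rw [hx1, hx3 m s (by omega)]
      simp
  refine ⟨2 * C * (2 * (c + a) + 1), fun n => ⟨?_, ?_⟩⟩
  · rw [hcoef]
    have hCQ : (1 : ℚ) ≤ C := by exact_mod_cast hC1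
    have h1 : ∀ m ∈ range (n + 1), |PowerSeries.coeff m f * ((x m n : ℕ) : ℚ)| ≤
        (C : ℚ) ^ (n + 1) * (2 * ((c : ℚ) + a) + 1) ^ (n + 1) := by
      intro m hm
      have hm' : m ≤ n := Nat.lt_succ_iff.1 (Finset.mem_range.1 hm)
      rw [abs_mul]
      have e1 : |PowerSeries.coeff m f| ≤ (C : ℚ) ^ (n + 1) :=
        (hC m).1.trans (pow_le_pow_right₀ hCQ (by omega))
      have e2 : |((x m n : ℕ) : ℚ)| ≤ (2 * ((c : ℚ) + a) + 1) ^ (n + 1) := by
        rw [abs_of_nonneg (Nat.cast_nonneg _)]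
        have e3 : ((x m n : ℕ) : ℚ) ≤ (2 * ((c : ℚ) + a)) ^ n := by exact_mod_cast hx2 m n
        refine e3.trans ?_
        calc (2 * ((c : ℚ) + a)) ^ n ≤ (2 * ((c : ℚ) + a) + 1) ^ n :=
              pow_le_pow_left₀ (by positivity) (by linarith) n
          _ ≤ (2 * ((c : ℚ) + a) + 1) ^ (n + 1) :=
              pow_le_pow_right₀ (by
                have : (0 : ℚ) ≤ 2 * ((c : ℚ) + a) := by positivity
                linarith) (Nat.le_succ n)
      exact mul_le_mul e1 e2 (abs_nonneg _) (by positivity)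
    calc |∑ m ∈ range (n + 1), PowerSeries.coeff m f * ((x m n : ℕ) : ℚ)|
        ≤ ∑ m ∈ range (n + 1), |PowerSeries.coeff m f * ((x m n : ℕ) : ℚ)| :=
          Finset.abs_sum_le_sum_abs _ _
      _ ≤ ∑ _m ∈ range (n + 1), (C : ℚ) ^ (n + 1) * (2 * ((c : ℚ) + a) + 1) ^ (n + 1) :=
          Finset.sum_le_sum h1
      _ = ((n + 1 : ℕ) : ℚ) * ((C : ℚ) ^ (n + 1) * (2 * ((c : ℚ) + a) + 1) ^ (n + 1)) := by
          rw [Finset.sum_const, Finset.card_range, nsmul_eq_mul]
      _ ≤ (2 : ℚ) ^ (n + 1) * ((C : ℚ) ^ (n + 1) * (2 * ((c : ℚ) + a) + 1) ^ (n + 1)) := by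
          refine mul_le_mul_of_nonneg_right ?_ (by positivity)
          exact_mod_cast (Nat.lt_two_pow_self (n := n + 1)).le
      _ = ((2 * C * (2 * (c + a) + 1) : ℕ) : ℚ) ^ (n + 1) := by
          push_cast
          rw [mul_pow, mul_pow]
          ring
  · obtain ⟨-, d, hd, hd2, hd3⟩ := hC n
    refine ⟨d, hd, hd2.trans (Nat.pow_le_pow_left ?_ _), fun s hs => ?_⟩
    · nlinarith [Nat.zero_le (c + a)]
    · have h1 : ∀ m, m ≤ n → ∃ z : ℤ, (d : ℚ) * PowerSeries.coeff m f = z := hd3
      choose! z hz using h1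
      refine ⟨∑ m ∈ range (s + 1), z m * (x m s : ℤ), ?_⟩
      rw [hcoef, Finset.mul_sum]
      push_cast
      refine Finset.sum_congr rfl fun m hm => ?_
      have hm' : m ≤ n := by
        have := Finset.mem_range.1 hm
        omega
      rw [← mul_assoc, hz m hm']

end Pool.Agent.LEG
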