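import Pool.Agent.LEG.Targets

set_option autoImplicit false

/-! GRING: `IsG` is closed under the ring operations and the derivative. -/

namespace Pool.Agent.LEG

open Finset
open scoped BigOperators Topology

namespace GRING_

/-- the definition with the constant -/
def GC (C : ℕ) (f : PowerSeries ℚ) : Prop :=
  ∀ n : ℕ, |PowerSeries.coeff n f| ≤ (C : ℚ) ^ (n + 1) ∧
    ∃ d : ℕ, 0 < d ∧ d ≤ C ^ (n + 1) ∧ ∀ s, s ≤ n → ∃ x : ℤ, (d : ℚ) * PowerSeries.coeff s f = x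

lemma one_le_of_GC {C : ℕ} {f : PowerSeries ℚ} (h : GC C f) : 1 ≤ C := by
  obtain ⟨-, d, h1, h2, -⟩ := h 0
  rw [zero_add, pow_one] at h2
  omega

lemma mul_of_dvd {x : ℚ} {D : ℕ} (h : x.den ∣ D) : ∃ y : ℤ, (D : ℚ) * x = y := by
  obtain ⟨k, rfl⟩ := h
  refine ⟨k * x.num, ?_⟩
  push_cast
  have h1 : (x.den : ℚ) * x = x.num := Rat.den_mul_eq_num x
  calc (x.den : ℚ) * k * x = k * (x.den * x) := by ring
    _ = k * x.num := by rw [h1]

lemma lt_two_pow' (n : ℕ) : n + 1 ≤ 2 ^ (n + 1) := (Nat.lt_two_pow_self).le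

lemma poly (p : Polynomial ℚ) : IsG (p : PowerSeries ℚ) := by
  set D : ℕ := ∏ s ∈ range (p.natDegree + 1), (p.coeff s).den with hD
  set M : ℕ := ∑ s ∈ range (p.natDegree + 1), ⌈|p.coeff s|⌉₊ with hM
  have hD0 : 0 < D := Finset.prod_pos fun s _ => (p.coeff s).pos
  have hC1 : 1 ≤ D + M := by omega
  refine ⟨D + M, fun n => ⟨?_, D, hD0, ?_, fun s _ => ?_⟩⟩
  · rw [Polynomial.coeff_coe]
    have h1 : |p.coeff n| ≤ (M : ℚ) := by
      by_cases hn : n ∈ range (p.natDegree + 1)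
      · refine (Nat.le_ceil _).trans ?_
        exact_mod_cast Finset.single_le_sum (f := fun s => ⌈|p.coeff s|⌉₊)
          (fun _ _ => Nat.zero_le _) hn
      · rw [Finset.mem_range, not_lt] at hn
        rw [Polynomial.coeff_eq_zero_of_natDegree_lt (by omega), abs_zero]
        positivity
    have h2 : D + M ≤ (D + M) ^ (n + 1) := Nat.le_self_pow (by omega) _
    calc |p.coeff n| ≤ (M : ℚ) := h1
      _ ≤ ((D + M : ℕ) : ℚ) := by exact_mod_cast Nat.le_add_left M D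
      _ ≤ (((D + M) ^ (n + 1) : ℕ) : ℚ) := by exact_mod_cast h2
      _ = ((D + M : ℕ) : ℚ) ^ (n + 1) := by push_cast; ring
  · calc D ≤ D + M := Nat.le_add_right _ _
      _ ≤ (D + M) ^ (n + 1) := Nat.le_self_pow (by omega) _
  · rw [Polynomial.coeff_coe]
    by_cases hs : s ∈ range (p.natDegree + 1)
    · exact mul_of_dvd (Finset.dvd_prod_of_mem (fun s => (p.coeff s).den) hs)
    · rw [Finset.mem_range, not_lt] at hs
      rw [Polynomial.coeff_eq_zero_of_natDegree_lt (by omega)]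
      exact ⟨0, by simp⟩

lemma add {f g : PowerSeries ℚ} (hf : IsG f) (hg : IsG g) : IsG (f + g) := by
  obtain ⟨C, hC⟩ := hf
  obtain ⟨C', hC'⟩ := hg
  have h1 : 1 ≤ C := one_le_of_GC hC
  have h1' : 1 ≤ C' := one_le_of_GC hC'
  refine ⟨(C + 1) * (C' + 1), fun n => ?_⟩
  obtain ⟨b, d, hd, hdC, hx⟩ := hC n
  obtain ⟨b', d', hd', hdC', hx'⟩ := hC' n
  refine ⟨?_, d * d', Nat.mul_pos hd hd', ?_, fun s hs => ?_⟩
  · have e1 : (C : ℕ) ^ (n + 1) + C' ^ (n + 1) ≤ ((C + 1) * (C' + 1)) ^ (n + 1) := by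
      calc C ^ (n + 1) + C' ^ (n + 1) ≤ (C + C') ^ (n + 1) := pow_add_pow_le (Nat.zero_le _) (Nat.zero_le _) (by omega)
        _ ≤ ((C + 1) * (C' + 1)) ^ (n + 1) := Nat.pow_le_pow_left (by nlinarith) _
    rw [map_add]
    calc |PowerSeries.coeff n f + PowerSeries.coeff n g|
        ≤ |PowerSeries.coeff n f| + |PowerSeries.coeff n g| := abs_add_le _ _
      _ ≤ (C : ℚ) ^ (n + 1) + (C' : ℚ) ^ (n + 1) := add_le_add b b'
      _ ≤ (((C + 1) * (C' + 1) : ℕ) : ℚ) ^ (n + 1) := by exact_mod_cast e1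
  · calc d * d' ≤ C ^ (n + 1) * C' ^ (n + 1) := Nat.mul_le_mul hdC hdC'
      _ = (C * C') ^ (n + 1) := (mul_pow _ _ _).symm
      _ ≤ ((C + 1) * (C' + 1)) ^ (n + 1) := Nat.pow_le_pow_left (by nlinarith) _
  · obtain ⟨x, hx⟩ := hx s hs
    obtain ⟨x', hx'⟩ := hx' s hs
    refine ⟨d' * x + d * x', ?_⟩
    rw [map_add]
    push_cast
    rw [← hx, ← hx']
    ring

lemma mul {f g : PowerSeries ℚ} (hf : IsG f) (hg : IsG g) : IsG (f * g) := by
  obtain ⟨C, hC⟩ := hf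
  obtain ⟨C', hC'⟩ := hg
  have h1 : 1 ≤ C := one_le_of_GC hC
  have h1' : 1 ≤ C' := one_le_of_GC hC'
  have q1 : (1 : ℚ) ≤ C := by exact_mod_cast h1
  have q1' : (1 : ℚ) ≤ C' := by exact_mod_cast h1'
  refine ⟨2 * (C * C'), fun n => ?_⟩
  obtain ⟨-, d, hd, hdC, hx⟩ := hC n
  obtain ⟨-, d', hd', hdC', hx'⟩ := hC' n
  refine ⟨?_, d * d', Nat.mul_pos hd hd', ?_, fun s hs => ?_⟩
  · rw [PowerSeries.coeff_mul]
    have e1 : ∀ p ∈ antidiagonal n, |PowerSeries.coeff p.1 f * PowerSeries.coeff p.2 g| ≤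
        (C : ℚ) ^ (n + 1) * (C' : ℚ) ^ (n + 1) := by
      intro p hp
      have hp' := Finset.HasAntidiagonal.mem_antidiagonal.mp hp
      rw [abs_mul]
      refine mul_le_mul ?_ ?_ (abs_nonneg _) (by positivity)
      · exact (hC p.1).1.trans (pow_le_pow_right₀ q1 (by omega))
      · exact (hC' p.2).1.trans (pow_le_pow_right₀ q1' (by omega))
    have e2 : ((n : ℚ) + 1) ≤ 2 ^ (n + 1) := by exact_mod_cast lt_two_pow' n
    calc |∑ p ∈ antidiagonal n, PowerSeries.coeff p.1 f * PowerSeries.coeff p.2 g|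
        ≤ ∑ p ∈ antidiagonal n, |PowerSeries.coeff p.1 f * PowerSeries.coeff p.2 g| :=
          Finset.abs_sum_le_sum_abs _ _
      _ ≤ ∑ p ∈ antidiagonal n, (C : ℚ) ^ (n + 1) * (C' : ℚ) ^ (n + 1) :=
          Finset.sum_le_sum e1
      _ = ((n : ℚ) + 1) * ((C : ℚ) ^ (n + 1) * (C' : ℚ) ^ (n + 1)) := by
          rw [Finset.sum_const, Finset.Nat.card_antidiagonal, nsmul_eq_mul]
          push_cast
          ring
      _ ≤ 2 ^ (n + 1) * ((C : ℚ) ^ (n + 1) * (C' : ℚ) ^ (n + 1)) := by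
          refine mul_le_mul_of_nonneg_right e2 (by positivity)
      _ = ((2 * (C * C') : ℕ) : ℚ) ^ (n + 1) := by
          push_cast
          rw [mul_pow, mul_pow]
  · calc d * d' ≤ C ^ (n + 1) * C' ^ (n + 1) := Nat.mul_le_mul hdC hdC'
      _ = (C * C') ^ (n + 1) := (mul_pow _ _ _).symm
      _ ≤ (2 * (C * C')) ^ (n + 1) := Nat.pow_le_pow_left (by omega) _
  · choose! x hx using hx
    choose! x' hx' using hx'
    refine ⟨∑ p ∈ antidiagonal s, x p.1 * x' p.2, ?_⟩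
    rw [PowerSeries.coeff_mul, Finset.mul_sum]
    push_cast
    refine Finset.sum_congr rfl fun p hp => ?_
    have hp' := Finset.HasAntidiagonal.mem_antidiagonal.mp hp
    rw [← hx p.1 (by omega), ← hx' p.2 (by omega)]
    ring

lemma deriv {f : PowerSeries ℚ} (hf : IsG f) : IsG (PowerSeries.derivative ℚ f) := by
  obtain ⟨C, hC⟩ := hf
  have h1 : 1 ≤ C := one_le_of_GC hC
  have q1 : (1 : ℚ) ≤ C := by exact_mod_cast h1
  refine ⟨2 * (C * C), fun n => ?_⟩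
  obtain ⟨b, d, hd, hdC, hx⟩ := hC (n + 1)
  have e0 : C ^ (n + 1 + 1) ≤ (C * C) ^ (n + 1) := by
    rw [← pow_two, ← pow_mul]
    exact Nat.pow_le_pow_right h1 (by omega)
  refine ⟨?_, d, hd, ?_, fun s hs => ?_⟩
  · have e1 : PowerSeries.coeff n (PowerSeries.derivative ℚ f) =
        PowerSeries.coeff (n + 1) f * (n + 1) := PowerSeries.coeff_derivative f n
    rw [e1, abs_mul]
    have e2 : |((n : ℚ) + 1)| = (n : ℚ) + 1 := abs_of_nonneg (by positivity)
    rw [e2]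
    have e3 : ((n : ℚ) + 1) ≤ 2 ^ (n + 1) := by exact_mod_cast lt_two_pow' n
    have e4 : (C : ℚ) ^ (n + 1 + 1) ≤ (C * C : ℚ) ^ (n + 1) := by exact_mod_cast e0
    calc |PowerSeries.coeff (n + 1) f| * ((n : ℚ) + 1)
        ≤ (C * C : ℚ) ^ (n + 1) * 2 ^ (n + 1) :=
          mul_le_mul (b.trans e4) e3 (by positivity) (by positivity)
      _ = ((2 * (C * C) : ℕ) : ℚ) ^ (n + 1) := by
          push_cast
          rw [← mul_pow]
          ring
  · refine hdC.trans (e0.trans ?_)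
    exact Nat.pow_le_pow_left (by omega) _
  · obtain ⟨x, hx⟩ := hx (s + 1) (by omega)
    refine ⟨x * (s + 1), ?_⟩
    have e1 : PowerSeries.coeff s (PowerSeries.derivative ℚ f) =
        PowerSeries.coeff (s + 1) f * (s + 1) := PowerSeries.coeff_derivative f s
    rw [e1]
    push_cast
    rw [← hx]
    ring

end GRING_

theorem p_GRING : T_GRING :=
  ⟨GRING_.poly, fun _ _ => GRING_.add, fun _ _ => GRING_.mul, fun _ => GRING_.deriv⟩

end Pool.Agent.LEG
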