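import Pool.Agent.LEG.Targets

set_option autoImplicit false

/-!
# LEG-DEG: degrees
-/

namespace Pool.Agent.LEG

open Finset Polynomial
open scoped BigOperators

namespace DEG_

lemma step {ι : Type} [Fintype ι] (T : Polynomial ℚ) (A : ι → ι → Polynomial ℚ) {ρ n : ℕ}
    (hT : T.natDegree ≤ ρ) (hA : ∀ i j, (A i j).natDegree ≤ ρ) (k : ℕ) (v : ι → Polynomial ℚ)
    (hv : ∀ j, (v j).natDegree ≤ n) (i : ι) :
    (T * derivative (v i) - (k : Polynomial ℚ) * derivative T * v i -
      ∑ l, A i l * v l).natDegree ≤ n + ρ := by
  have t1 : (T * derivative (v i)).natDegree ≤ n + ρ := by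
    refine natDegree_mul_le.trans ?_
    have h1 := natDegree_derivative_le (v i)
    have h2 := hv i
    omega
  have t2 : ((k : Polynomial ℚ) * derivative T * v i).natDegree ≤ n + ρ := by
    refine natDegree_mul_le.trans ?_
    have h0 : ((k : Polynomial ℚ) * derivative T).natDegree ≤ ρ := by
      refine natDegree_mul_le.trans ?_
      rw [natDegree_natCast, zero_add]
      have h1 := natDegree_derivative_le T
      omega
    have h2 := hv i
    omega
  have t3 : (∑ l, A i l * v l).natDegree ≤ n + ρ := by
    refine natDegree_sum_le_of_forall_le _ _ fun l _ => ?_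
    refine natDegree_mul_le.trans ?_
    have h1 := hA i l
    have h2 := hv l
    omega
  refine (natDegree_sub_le _ _).trans (max_le ?_ t3)
  exact (natDegree_sub_le _ _).trans (max_le t1 t2)

end DEG_

open DEG_ in
theorem p_DEG : T_DEG := by
  intro ι _ _ T A ρ hT hA
  refine ⟨?_, ?_⟩
  · intro k
    induction k with
    | zero =>
      intro i j
      simp only [BB]
      split_ifs <;> simp
    | succ k ih =>
      intro i j
      have h := step T A hT hA k (fun i => BB T A k i j) (fun l => ih l j) i
      have e : (k + 1) * ρ = k * ρ + ρ := by ring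
      rw [e]
      exact h
  · intro m P hP
    have hV : ∀ k i, (VV T A P k i).natDegree ≤ m + k * ρ := by
      intro k
      induction k with
      | zero =>
        intro i
        simpa [VV] using hP i
      | succ k ih =>
        intro i
        have h := step T A hT hA k (VV T A P k) ih i
        have e : m + (k + 1) * ρ = m + k * ρ + ρ := by ring
        rw [e]
        exact h
    refine ⟨hV, ?_⟩
    have e : WW T A P = ∑ σ : Equiv.Perm ι, Equiv.Perm.sign σ •
        ∏ i, VV T A P (num (σ i)) i := Matrix.det_apply _
    rw [e]
    refine natDegree_sum_le_of_forall_le _ _ fun σ _ => ?_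
    refine (natDegree_smul_le _ _).trans ?_
    refine (natDegree_prod_le _ _).trans ?_
    have hnum : ∀ K : ι, num K ≤ Fintype.card ι := fun K => (Fintype.equivFin ι K).isLt.le
    have h1 : ∀ K : ι, (VV T A P (num (σ K)) K).natDegree ≤ m + Fintype.card ι * ρ := by
      intro K
      refine (hV _ K).trans ?_
      exact Nat.add_le_add_left (Nat.mul_le_mul_right _ (hnum _)) _
    refine (sum_le_sum fun K _ => h1 K).trans ?_
    rw [sum_const, card_univ, smul_eq_mul]
    apply le_of_eq
    ring

end Pool.Agent.LEG
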