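import Pool.Agent.LEG.Targets

set_option autoImplicit false

/-!
# Denominators (job DEN)
-/

namespace Pool.Agent.LEG

open Finset
open scoped BigOperators

namespace DEN_

/-- membership in the image of the integral polynomials -/
theorem mem_lifts (p : Polynomial ℚ) :
    p ∈ Polynomial.lifts (Int.castRingHom ℚ) ↔ ∀ s, ∃ x : ℤ, p.coeff s = x := by
  rw [Polynomial.lifts_iff_coeff_lifts]
  constructor
  · intro h s
    obtain ⟨x, hx⟩ := h s
    exact ⟨x, by rw [← hx]; simp⟩
  · intro h s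
    obtain ⟨x, hx⟩ := h s
    exact ⟨x, by rw [hx]; simp⟩

/-- the value of an integral polynomial at `1 / N` -/
theorem intEval {V : Polynomial ℚ} {D N : ℕ} (hN : 1 ≤ N) (hV : ∀ s, ∃ x : ℤ, V.coeff s = x)
    (hD : V.natDegree ≤ D) : ∃ x : ℤ, (N : ℚ) ^ D * V.eval (1 / (N : ℚ)) = x := by
  choose x hx using hV
  have hN0 : (N : ℚ) ≠ 0 := by
    have : N ≠ 0 := by omega
    exact_mod_cast this
  refine ⟨∑ s ∈ range (D + 1), x s * (N : ℤ) ^ (D - s), ?_⟩
  rw [Polynomial.eval_eq_sum_range' (Nat.lt_succ_of_le hD), mul_sum]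
  push_cast
  refine Finset.sum_congr rfl fun s hs => ?_
  rw [mem_range] at hs
  have h1 : (N : ℚ) ^ D = (N : ℚ) ^ (D - s) * (N : ℚ) ^ s := by
    rw [← pow_add]
    congr 1
    omega
  rw [hx, h1, one_div, inv_pow]
  field_simp

/-- the divided derivatives of an integral polynomial -/
theorem int_derivative {p : Polynomial ℚ} {d : ℕ} (hp : ∀ s, ∃ x : ℤ, (d : ℚ) * p.coeff s = x)
    (l : ℕ) : Polynomial.C ((d : ℚ) / (l.factorial : ℚ)) * Polynomial.derivative^[l] p ∈
      Polynomial.lifts (Int.castRingHom ℚ) := by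
  rw [mem_lifts]
  intro s
  obtain ⟨x, hx⟩ := hp (s + l)
  refine ⟨((s + l).choose l : ℤ) * x, ?_⟩
  rw [Polynomial.coeff_C_mul, Polynomial.coeff_iterate_derivative,
    Nat.descFactorial_eq_factorial_mul_choose, nsmul_eq_mul]
  push_cast
  rw [← hx]
  have : (l.factorial : ℚ) ≠ 0 := by exact_mod_cast l.factorial_ne_zero
  field_simp

end DEN_

open DEN_ in
theorem p_DEN (h1 : T_LEIB) (h2 : T_DEG) : T_DEN := by
  intro ι _ _ T A ρ hT hG hTρ hAρ
  obtain ⟨C, hC⟩ := hG
  refine ⟨max C 1, le_max_right _ _, fun K => ?_⟩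
  obtain ⟨e, he0, he1, he2⟩ := hC K
  refine ⟨e, he0, he1.trans (Nat.pow_le_pow_left (le_max_left _ _) _), ?_⟩
  intro k N m d P hk hN hPm hPd i
  have hdeg : (VV T A P k i).natDegree ≤ m + k * ρ :=
    ((h2 ι T A ρ hTρ hAρ).2 m P hPm).1 k i
  have hleib := (h1 ι T A).2.2.1 P k i
  set V : Polynomial ℚ := Polynomial.C ((e : ℚ) * d / (k.factorial : ℚ)) * VV T A P k i with hVdef
  have hTl : T ∈ Polynomial.lifts (Int.castRingHom ℚ) := (mem_lifts T).2 hT
  have hVl : V ∈ Polynomial.lifts (Int.castRingHom ℚ) := by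
    rw [hVdef, hleib, mul_sum]
    refine Subsemiring.sum_mem _ fun l hl => ?_
    rw [mul_sum]
    refine Subsemiring.sum_mem _ fun j _ => ?_
    rw [mem_range] at hl
    have hl' : l ≤ k := by omega
    have e1 : Polynomial.C ((e : ℚ) * d / (k.factorial : ℚ)) *
        ((k.choose l : Polynomial ℚ) * BB T A (k - l) i j * T ^ l *
          Polynomial.derivative^[l] (P j)) =
        (Polynomial.C ((e : ℚ) / ((k - l).factorial : ℚ)) * BB T A (k - l) i j) * T ^ l *
          (Polynomial.C ((d : ℚ) / (l.factorial : ℚ)) * Polynomial.derivative^[l] (P j)) := by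
      have e2 : Polynomial.C ((e : ℚ) * d / (k.factorial : ℚ)) * (k.choose l : Polynomial ℚ) =
          Polynomial.C ((e : ℚ) / ((k - l).factorial : ℚ)) *
            Polynomial.C ((d : ℚ) / (l.factorial : ℚ)) := by
        rw [← Polynomial.C_eq_natCast, ← Polynomial.C_mul, ← Polynomial.C_mul]
        congr 1
        have a1 : (k.factorial : ℚ) ≠ 0 := by exact_mod_cast k.factorial_ne_zero
        have a2 : (l.factorial : ℚ) ≠ 0 := by exact_mod_cast l.factorial_ne_zero
        have a3 : ((k - l).factorial : ℚ) ≠ 0 := by exact_mod_cast (k - l).factorial_ne_zero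
        rw [Nat.cast_choose ℚ hl']
        field_simp
      linear_combination (BB T A (k - l) i j * T ^ l * Polynomial.derivative^[l] (P j)) * e2
    rw [e1]
    refine Subsemiring.mul_mem _ (Subsemiring.mul_mem _ ?_ (Subsemiring.pow_mem _ hTl _)) ?_
    · rw [mem_lifts]
      intro s
      obtain ⟨x, hx⟩ := he2 (k - l) (by omega) i j s
      refine ⟨x, ?_⟩
      rw [Polynomial.coeff_C_mul, ← hx]
      ring
    · exact int_derivative (fun s => hPd j s) l
  have hVdeg : V.natDegree ≤ m + k * ρ := (Polynomial.natDegree_C_mul_le _ _).trans hdeg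
  obtain ⟨x, hx⟩ := intEval hN ((mem_lifts V).1 hVl) hVdeg
  refine ⟨x, ?_⟩
  rw [← hx, hVdef, Polynomial.eval_mul, Polynomial.eval_C]
  ring

end Pool.Agent.LEG
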