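import Pool.Agent.LEG.Targets

set_option autoImplicit false

/-! Elimination for triples of numbers. -/

namespace Pool.Agent.LEG

open Finset

namespace ELIM3_

/-- degree at most `d` in the variable, total degree of the coefficients at most `d` -/
def Bd {K : ℕ} (d : ℕ) (q : Polynomial (MvPolynomial (Fin K) ℤ)) : Prop :=
  q.natDegree ≤ d ∧ ∀ j, (q.coeff j).totalDegree ≤ d

lemma Bd.mono {K d e : ℕ} {q : Polynomial (MvPolynomial (Fin K) ℤ)} (h : Bd d q) (hde : d ≤ e) :
    Bd e q :=
  ⟨h.1.trans hde, fun j => (h.2 j).trans hde⟩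

lemma Bd.zero {K d : ℕ} : Bd d (0 : Polynomial (MvPolynomial (Fin K) ℤ)) :=
  ⟨by simp, fun j => by simp⟩

lemma Bd.one {K d : ℕ} : Bd d (1 : Polynomial (MvPolynomial (Fin K) ℤ)) := by
  refine ⟨by simp, fun j => ?_⟩
  rw [Polynomial.coeff_one]
  split_ifs <;> simp

lemma Bd.add {K d : ℕ} {p q : Polynomial (MvPolynomial (Fin K) ℤ)} (hp : Bd d p) (hq : Bd d q) :
    Bd d (p + q) := by
  refine ⟨(Polynomial.natDegree_add_le _ _).trans (max_le hp.1 hq.1), fun j => ?_⟩
  rw [Polynomial.coeff_add]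
  exact (MvPolynomial.totalDegree_add _ _).trans (max_le (hp.2 j) (hq.2 j))

lemma Bd.mul {K d e : ℕ} {p q : Polynomial (MvPolynomial (Fin K) ℤ)} (hp : Bd d p)
    (hq : Bd e q) : Bd (d + e) (p * q) := by
  refine ⟨Polynomial.natDegree_mul_le.trans (add_le_add hp.1 hq.1), fun j => ?_⟩
  rw [Polynomial.coeff_mul]
  exact MvPolynomial.totalDegree_finsetSum_le fun x _ =>
    (MvPolynomial.totalDegree_mul _ _).trans (add_le_add (hp.2 _) (hq.2 _))

lemma Bd.pow {K d : ℕ} {p : Polynomial (MvPolynomial (Fin K) ℤ)} (hp : Bd d p) (k : ℕ) :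
    Bd (k * d) (p ^ k) := by
  induction k with
  | zero => simpa using Bd.one
  | succ k ih =>
    rw [pow_succ]
    exact (ih.mul hp).mono (by ring_nf; exact le_rfl)

lemma Bd.sum {K d : ℕ} {α : Type} (s : Finset α) (f : α → Polynomial (MvPolynomial (Fin K) ℤ))
    (h : ∀ a ∈ s, Bd d (f a)) : Bd d (∑ a ∈ s, f a) := by
  classical
  induction s using Finset.induction_on with
  | empty => simpa using Bd.zero
  | insert a s ha ih =>
    rw [Finset.sum_insert ha]
    exact (h a (Finset.mem_insert_self a s)).add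
      (ih fun b hb => h b (Finset.mem_insert_of_mem hb))

lemma Bd.prod {K : ℕ} {α : Type} (s : Finset α) (f : α → Polynomial (MvPolynomial (Fin K) ℤ))
    (g : α → ℕ) (h : ∀ a ∈ s, Bd (g a) (f a)) : Bd (∑ a ∈ s, g a) (∏ a ∈ s, f a) := by
  classical
  induction s using Finset.induction_on with
  | empty => simpa using Bd.one
  | insert a s ha ih =>
    rw [Finset.sum_insert ha, Finset.prod_insert ha]
    exact (h a (Finset.mem_insert_self a s)).mul
      (ih fun b hb => h b (Finset.mem_insert_of_mem hb))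

lemma Bd.int {K d : ℕ} (z : ℤ) : Bd d (z : Polynomial (MvPolynomial (Fin K) ℤ)) := by
  refine ⟨by rw [Polynomial.natDegree_intCast]; exact Nat.zero_le d, fun j => ?_⟩
  have e : ((z : ℤ) : Polynomial (MvPolynomial (Fin K) ℤ)) =
      Polynomial.C (MvPolynomial.C z) := by simp
  rw [e, Polynomial.coeff_C]
  split_ifs
  · rw [MvPolynomial.totalDegree_C]
    exact Nat.zero_le d
  · simp

lemma Bd.C {K d : ℕ} {p : MvPolynomial (Fin K) ℤ} (h : p.totalDegree ≤ d) :
    Bd d (Polynomial.C p) := by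
  refine ⟨by simp, fun j => ?_⟩
  rw [Polynomial.coeff_C]
  split_ifs
  · exact h
  · simp

lemma Bd.X {K : ℕ} : Bd 1 (Polynomial.X : Polynomial (MvPolynomial (Fin K) ℤ)) := by
  refine ⟨Polynomial.natDegree_X_le, fun j => ?_⟩
  rw [Polynomial.coeff_X]
  split_ifs <;> simp

lemma bd_aeval {K : ℕ} {σ : Type} (f : σ → Polynomial (MvPolynomial (Fin K) ℤ))
    (hf : ∀ s, Bd 1 (f s)) (P : MvPolynomial σ ℤ) : Bd P.totalDegree (MvPolynomial.aeval f P) := by
  rw [MvPolynomial.aeval_def, MvPolynomial.eval₂_eq]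
  refine Bd.sum _ _ fun d hd => ?_
  have h1 : Bd (∑ i ∈ d.support, d i) (∏ i ∈ d.support, f i ^ d i) := by
    refine Bd.prod _ _ _ fun a _ => ?_
    simpa using (hf a).pow (d a)
  have h2 : (algebraMap ℤ (Polynomial (MvPolynomial (Fin K) ℤ))) (P.coeff d) =
      ((P.coeff d : ℤ) : Polynomial (MvPolynomial (Fin K) ℤ)) := by simp
  rw [h2]
  have h3 := (Bd.int (K := K) (d := 0) (P.coeff d)).mul h1
  refine h3.mono ?_
  rw [zero_add]
  exact MvPolynomial.le_totalDegree hd

/-- an integer point where the polynomial does not vanish -/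
lemma int_pt {K : ℕ} (θ : Fin K → ℂ) (P : MvPolynomial (Fin K ⊕ Fin 3) ℤ)
    (h : ∃ x' : Fin 3 → ℂ, MvPolynomial.aeval (Sum.elim θ x') P ≠ 0) :
    ∃ m : Fin 3 → ℤ, MvPolynomial.aeval (Sum.elim θ (fun j => (m j : ℂ))) P ≠ 0 := by
  by_contra hc
  push Not at hc
  obtain ⟨x', hx'⟩ := h
  have key : ∀ x : Fin 3 → ℂ, MvPolynomial.eval x
      (MvPolynomial.aeval (Sum.elim (fun k => MvPolynomial.C (θ k)) MvPolynomial.X :
        Fin K ⊕ Fin 3 → MvPolynomial (Fin 3) ℂ) P) = MvPolynomial.aeval (Sum.elim θ x) P := by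
    intro x
    have e : (MvPolynomial.eval x) (MvPolynomial.aeval (Sum.elim
        (fun k => MvPolynomial.C (θ k)) MvPolynomial.X : Fin K ⊕ Fin 3 → MvPolynomial (Fin 3) ℂ) P)
        = ((MvPolynomial.eval x).toIntAlgHom.comp (MvPolynomial.aeval (Sum.elim
        (fun k => MvPolynomial.C (θ k)) MvPolynomial.X : Fin K ⊕ Fin 3 →
          MvPolynomial (Fin 3) ℂ))) P := rfl
    rw [e, MvPolynomial.comp_aeval]
    congr 2
    funext v
    rcases v with k | j
    · simp
    · simp
  apply hx'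
  rw [← key]
  have : MvPolynomial.aeval (Sum.elim (fun k => MvPolynomial.C (θ k)) MvPolynomial.X :
      Fin K ⊕ Fin 3 → MvPolynomial (Fin 3) ℂ) P = 0 := by
    apply MvPolynomial.funext_set (fun _ => Set.range ((↑) : ℤ → ℂ))
      (fun _ => Set.infinite_range_of_injective Int.cast_injective)
    intro x hx
    rw [key, map_zero]
    have hx' : ∀ j, ∃ m : ℤ, (m : ℂ) = x j := fun j => hx j trivial
    choose m hm using hx'
    have : x = fun j => (m j : ℂ) := funext fun j => (hm j).symm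
    rw [this]
    exact hc m
  rw [this, map_zero]

/-- the first coordinate that satisfies a relation over the others -/
lemma first {K : ℕ} (D : ℕ) (θ : Fin K → ℂ) (x : Fin 3 → ℂ) (h : Rl3 D θ x) :
    ∃ j : Fin 3, ∀ {K' : ℕ} (θ' : Fin K' → ℂ) (a : Fin K → Fin K') (b : Fin 3 → Fin K'),
      (∀ k, θ' (a k) = θ k) → (∀ j', j' ≠ j → θ' (b j') = x j') → Rl D θ' (x j) := by
  obtain ⟨P, hPD, hx', hP0⟩ := h
  obtain ⟨m, hm⟩ := int_pt θ P hx'
  -- the points
  set z : ℕ → Fin 3 → ℂ := fun t j' => if (j' : ℕ) < t then x j' else (m j' : ℂ) with hz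
  have hz0 : z 0 = fun j => (m j : ℂ) := by
    funext j
    simp [hz]
  have hz3 : z 3 = x := by
    funext j
    simp [hz]
  have hex : ∃ t : ℕ, MvPolynomial.aeval (Sum.elim θ (z (t + 1))) P = 0 ∧ t < 3 := by
    exact ⟨2, by rw [hz3]; exact hP0, by norm_num⟩
  classical
  obtain ⟨ht1, ht3⟩ := Nat.find_spec hex
  set t := Nat.find hex with ht
  have ht0 : MvPolynomial.aeval (Sum.elim θ (z t)) P ≠ 0 := by
    rcases Nat.eq_zero_or_pos t with h0 | h0
    · rw [h0, hz0]
      exact hm
    · intro h1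
      have := Nat.find_min hex (m := t - 1) (by omega)
      apply this
      refine ⟨?_, by omega⟩
      rw [Nat.sub_add_cancel h0]
      exact h1
  refine ⟨⟨t, ht3⟩, ?_⟩
  intro K' θ' a b ha hb
  -- the substitution
  set f : Fin K ⊕ Fin 3 → Polynomial (MvPolynomial (Fin K') ℤ) :=
    Sum.elim (fun k => Polynomial.C (MvPolynomial.X (a k)))
      (fun j' => if (j' : ℕ) < t then Polynomial.C (MvPolynomial.X (b j')) else
        if (j' : ℕ) = t then Polynomial.X else ((m j' : ℤ) : Polynomial (MvPolynomial (Fin K') ℤ)))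
    with hf
  have hfB : ∀ s, Bd 1 (f s) := by
    intro s
    rcases s with k | j'
    · exact Bd.C (MvPolynomial.totalDegree_X _).le
    · simp only [hf, Sum.elim_inr]
      split_ifs
      · exact Bd.C (MvPolynomial.totalDegree_X _).le
      · exact Bd.X
      · exact Bd.int _
  -- evaluation
  have hev : ∀ y : ℂ, ((MvPolynomial.aeval f P).map
      (MvPolynomial.aeval θ' : MvPolynomial (Fin K') ℤ →ₐ[ℤ] ℂ).toRingHom).eval y =
      MvPolynomial.aeval (Sum.elim θ (fun j' : Fin 3 => if (j' : ℕ) < t then x j' else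
        if (j' : ℕ) = t then y else (m j' : ℂ))) P := by
    intro y
    have e : ((MvPolynomial.aeval f P).map
        (MvPolynomial.aeval θ' : MvPolynomial (Fin K') ℤ →ₐ[ℤ] ℂ).toRingHom).eval y =
        ((((Polynomial.evalRingHom y).comp (Polynomial.mapRingHom
          (MvPolynomial.aeval θ' : MvPolynomial (Fin K') ℤ →ₐ[ℤ] ℂ).toRingHom)).toIntAlgHom).comp
          (MvPolynomial.aeval f)) P := rfl
    rw [e, MvPolynomial.comp_aeval]
    congr 2
    funext v
    rcases v with k | j'
    · show ((f (Sum.inl k)).map _).eval y = θ k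
      simp only [hf, Sum.elim_inl, Polynomial.map_C, Polynomial.eval_C]
      show (MvPolynomial.aeval θ') (MvPolynomial.X (a k)) = θ k
      rw [MvPolynomial.aeval_X, ha]
    · show ((f (Sum.inr j')).map _).eval y = _
      simp only [hf, Sum.elim_inr]
      split_ifs with h1 h2
      · rw [Polynomial.map_C, Polynomial.eval_C]
        show (MvPolynomial.aeval θ') (MvPolynomial.X (b j')) = x j'
        rw [MvPolynomial.aeval_X]
        apply hb
        intro h3
        rw [h3] at h1
        exact lt_irrefl _ h1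
      · simp
      · simp
  have hz1 : (fun j' : Fin 3 => if (j' : ℕ) < t then x j' else
        if (j' : ℕ) = t then x ⟨t, ht3⟩ else (m j' : ℂ)) = z (t + 1) := by
    funext j'
    simp only [hz]
    by_cases h1 : (j' : ℕ) < t
    · rw [if_pos h1, if_pos (by omega)]
    · rw [if_neg h1]
      by_cases h2 : (j' : ℕ) = t
      · rw [if_pos h2, if_pos (by omega)]
        congr 1
        exact Fin.ext h2.symm
      · rw [if_neg h2, if_neg (by omega)]
  have hz2 : (fun j' : Fin 3 => if (j' : ℕ) < t then x j' else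
        if (j' : ℕ) = t then (m ⟨t, ht3⟩ : ℂ) else (m j' : ℂ)) = z t := by
    funext j'
    simp only [hz]
    by_cases h1 : (j' : ℕ) < t
    · rw [if_pos h1, if_pos h1]
    · rw [if_neg h1, if_neg h1]
      by_cases h2 : (j' : ℕ) = t
      · rw [if_pos h2]
        congr 2
        exact Fin.ext h2.symm
      · rw [if_neg h2]
  have hB := (bd_aeval f hfB P).mono hPD
  refine ⟨MvPolynomial.aeval f P, hB.1, hB.2, ?_, ?_⟩
  · intro h0
    have := hev (m ⟨t, ht3⟩ : ℂ)
    rw [h0, hz2, Polynomial.eval_zero] at this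
    exact ht0 this.symm
  · rw [hev, hz1]
    exact ht1

end ELIM3_

open ELIM3_ in
theorem p_ELIM3 (h : T_ELIM) : T_ELIM3 := by
  intro K r D hKr
  obtain ⟨B, hB⟩ := h (K + r * 2) r (r * 3) D (by omega)
  refine ⟨B, fun θ x hx => ?_⟩
  choose j hj using fun i => first D θ (x i) (hx i)
  -- indices
  set eK : Fin K ⊕ (Fin r × Fin 2) ≃ Fin (K + r * 2) :=
    (Equiv.sumCongr (Equiv.refl _) finProdFinEquiv).trans finSumFinEquiv with heK
  set e3 : Fin r × Fin 3 ≃ Fin (r * 3) := finProdFinEquiv with he3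
  set θ' : Fin (K + r * 2) → ℂ := fun v =>
    Sum.elim θ (fun w : Fin r × Fin 2 => x w.1 ((j w.1).succAbove w.2)) (eK.symm v) with hθ'
  have hex : ∀ (i : Fin r) (j' : Fin 3), ∃ e : Fin 2, j' ≠ j i → (j i).succAbove e = j' := by
    intro i j'
    by_cases h1 : j' = j i
    · exact ⟨0, fun h2 => absurd h1 h2⟩
    · obtain ⟨e, he⟩ := Fin.exists_succAbove_eq h1
      exact ⟨e, fun _ => he⟩
  choose e he using hex
  have hRl : ∀ i, Rl D θ' (x i (j i)) := by
    intro i
    refine hj i θ' (fun k => eK (Sum.inl k)) (fun j' => eK (Sum.inr (i, e i j'))) ?_ ?_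
    · intro k
      simp only [hθ', Equiv.symm_apply_apply, Sum.elim_inl]
    · intro j' hj'
      simp only [hθ', Equiv.symm_apply_apply, Sum.elim_inr]
      rw [he i j' hj']
  obtain ⟨W, hW0, hWB, hW⟩ := hB θ' (fun i => x i (j i)) (fun v =>
    if (e3.symm v).2 = j (e3.symm v).1 then Sum.inr (e3.symm v).1
    else Sum.inl (eK (Sum.inr ((e3.symm v).1, e (e3.symm v).1 (e3.symm v).2)))) hRl
  refine ⟨MvPolynomial.rename e3.symm W, ?_, fun v => ?_, ?_⟩
  · intro h0
    apply hW0
    exact MvPolynomial.rename_injective _ e3.symm.injective (by rw [h0, map_zero])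
  · have := MvPolynomial.degreeOf_rename_of_injective (p := W) e3.symm.injective (e3 v)
    rw [Equiv.symm_apply_apply] at this
    rw [this]
    exact hWB _
  · rw [MvPolynomial.aeval_rename]
    rw [← hW]
    congr 2
    funext v
    simp only [Function.comp_apply]
    split_ifs with h1
    · rw [Sum.elim_inr, ← h1]
    · rw [Sum.elim_inl]
      simp only [hθ', Equiv.symm_apply_apply, Sum.elim_inr]
      rw [he _ _ h1]

end Pool.Agent.LEG
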