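import Pool.Agent.LEG.Targets

set_option autoImplicit false

/-! LEG-EVC: evaluation of power series. -/

namespace Pool.Agent.LEG

open Finset
open scoped BigOperators Topology NNReal ENNReal

namespace EVC_

/-- real coefficients -/
noncomputable def co (f : PowerSeries ℚ) (n : ℕ) : ℝ := ((PowerSeries.coeff n f : ℚ) : ℝ)

lemma ev_eq (f : PowerSeries ℚ) (x : ℝ) : ev f x = ∑' n, co f n * x ^ n := rfl

lemma conv_iff (f : PowerSeries ℚ) (x : ℝ) : Conv f x ↔ Summable fun n => ‖co f n * x ^ n‖ := by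
  unfold Conv
  have : (fun n : ℕ => |((PowerSeries.coeff n f : ℚ) : ℝ)| * |x| ^ n) =
      fun n => ‖co f n * x ^ n‖ := by
    funext n
    rw [norm_mul, norm_pow, Real.norm_eq_abs, Real.norm_eq_abs]
    rfl
  rw [this]

lemma conv_mono {f : PowerSeries ℚ} {x y : ℝ} (h : Conv f x) (hxy : |y| ≤ |x|) : Conv f y := by
  unfold Conv at *
  refine Summable.of_nonneg_of_le (fun n => by positivity) (fun n => ?_) h
  gcongr

lemma co_add (f g : PowerSeries ℚ) (n : ℕ) : co (f + g) n = co f n + co g n := by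
  unfold co
  rw [map_add]
  push_cast
  rfl

lemma co_mul (f g : PowerSeries ℚ) (n : ℕ) :
    co (f * g) n = ∑ p ∈ antidiagonal n, co f p.1 * co g p.2 := by
  unfold co
  rw [PowerSeries.coeff_mul]
  push_cast
  rfl

lemma add_case {f g : PowerSeries ℚ} {x : ℝ} (hf : Conv f x) (hg : Conv g x) :
    Conv (f + g) x ∧ ev (f + g) x = ev f x + ev g x := by
  rw [conv_iff] at *
  have e : ∀ n, co (f + g) n * x ^ n = co f n * x ^ n + co g n * x ^ n := fun n => by
    rw [co_add, add_mul]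
  refine ⟨?_, ?_⟩
  · refine Summable.of_nonneg_of_le (fun n => norm_nonneg _) (fun n => ?_) (hf.add hg)
    rw [e]
    exact norm_add_le _ _
  · rw [ev_eq, ev_eq, ev_eq, ← hf.of_norm.tsum_add hg.of_norm]
    exact tsum_congr e

lemma mul_case {f g : PowerSeries ℚ} {x : ℝ} (hf : Conv f x) (hg : Conv g x) :
    Conv (f * g) x ∧ ev (f * g) x = ev f x * ev g x := by
  rw [conv_iff] at *
  have e : ∀ n, co (f * g) n * x ^ n =
      ∑ p ∈ antidiagonal n, (co f p.1 * x ^ p.1) * (co g p.2 * x ^ p.2) := fun n => by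
    rw [co_mul, sum_mul]
    refine sum_congr rfl fun p hp => ?_
    rw [← mem_antidiagonal.1 hp, pow_add]
    ring
  refine ⟨?_, ?_⟩
  · have := summable_norm_sum_mul_antidiagonal_of_summable_norm hf hg
    refine this.congr fun n => ?_
    rw [e]
  · rw [ev_eq, ev_eq, ev_eq, tsum_mul_tsum_eq_tsum_sum_antidiagonal_of_summable_norm hf hg]
    exact tsum_congr e

lemma poly_case (p : Polynomial ℚ) (x : ℝ) :
    Conv (p : PowerSeries ℚ) x ∧ ev (p : PowerSeries ℚ) x = Polynomial.aeval x p := by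
  have hz : ∀ n, n ∉ range (p.natDegree + 1) → co (p : PowerSeries ℚ) n = 0 := by
    intro n hn
    unfold co
    rw [Polynomial.coeff_coe, Polynomial.coeff_eq_zero_of_natDegree_lt, Rat.cast_zero]
    simpa [mem_range, not_lt] using hn
  refine ⟨?_, ?_⟩
  · rw [conv_iff]
    refine summable_of_ne_finset_zero (s := range (p.natDegree + 1)) fun n hn => ?_
    rw [hz n hn, zero_mul, norm_zero]
  · rw [ev_eq, tsum_eq_sum (s := range (p.natDegree + 1)) fun n hn => by rw [hz n hn, zero_mul],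
      Polynomial.aeval_eq_sum_range]
    refine sum_congr rfl fun n _ => ?_
    unfold co
    rw [Polynomial.coeff_coe, Rat.smul_def]

lemma isG_case {f : PowerSeries ℚ} (hf : IsG f) :
    ∃ δ : ℝ, 0 < δ ∧ ∀ x : ℝ, |x| < δ → Conv f x := by
  obtain ⟨C, hC⟩ := hf
  refine ⟨1 / ((C : ℝ) + 1), by positivity, fun x hx => ?_⟩
  have h1 : (C : ℝ) * |x| < 1 := by
    have h2 : ((C : ℝ) + 1) * |x| < 1 := by
      rw [lt_div_iff₀ (by positivity)] at hx
      linarith
    have := abs_nonneg x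
    nlinarith
  have h0 : 0 ≤ (C : ℝ) * |x| := by positivity
  have hs : Summable fun n : ℕ => (C : ℝ) * ((C : ℝ) * |x|) ^ n :=
    (summable_geometric_of_lt_one h0 h1).mul_left _
  unfold Conv
  refine Summable.of_nonneg_of_le (fun n => by positivity) (fun n => ?_) hs
  have h3 : |((PowerSeries.coeff n f : ℚ) : ℝ)| ≤ (C : ℝ) ^ (n + 1) := by
    have := (hC n).1
    exact_mod_cast this
  calc |((PowerSeries.coeff n f : ℚ) : ℝ)| * |x| ^ n ≤ (C : ℝ) ^ (n + 1) * |x| ^ n := by gcongr
    _ = (C : ℝ) * ((C : ℝ) * |x|) ^ n := by rw [mul_pow]; ring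

/-- power series expansion at the origin -/
lemma hasFP {f : PowerSeries ℚ} {δ : ℝ} (hδ : 0 < δ) (hc : ∀ x : ℝ, |x| < δ → Conv f x) :
    HasFPowerSeriesOnBall (ev f) (FormalMultilinearSeries.ofScalars ℝ (co f)) 0
      (ENNReal.ofReal δ) := by
  set p := FormalMultilinearSeries.ofScalars ℝ (co f) with hp
  have hr : ENNReal.ofReal δ ≤ p.radius := by
    refine ENNReal.le_of_forall_nnreal_lt fun r hr => ?_
    have hr' : (r : ℝ) < δ := by
      have := (ENNReal.lt_ofReal_iff_toReal_lt ENNReal.coe_ne_top).1 hr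
      simpa using this
    refine p.le_radius_of_summable ?_
    have h1 := hc r (by rw [NNReal.abs_eq]; exact hr')
    unfold Conv at h1
    rw [NNReal.abs_eq] at h1
    refine h1.congr fun n => ?_
    rw [hp, FormalMultilinearSeries.ofScalars_norm]
    rfl
  have h2 := (p.hasFPowerSeriesOnBall (lt_of_lt_of_le (ENNReal.ofReal_pos.2 hδ) hr)).mono
    (ENNReal.ofReal_pos.2 hδ) hr
  have h3 : p.sum = ev f := by
    have := FormalMultilinearSeries.ofScalarsSum_eq_tsum (E := ℝ) (co f)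
    unfold FormalMultilinearSeries.ofScalarsSum at this
    rw [hp, this]
    funext x
    rw [ev_eq]
    refine tsum_congr fun n => ?_
    rw [smul_eq_mul]
  rwa [h3] at h2

lemma co_deriv (f : PowerSeries ℚ) (n : ℕ) :
    co (PowerSeries.derivative ℚ f) n = co f (n + 1) * (n + 1) := by
  unfold co
  rw [PowerSeries.coeff_derivative]
  push_cast
  ring

/-- the derived series converges -/
lemma summ_deriv {f : PowerSeries ℚ} {δ : ℝ} (hc : ∀ x : ℝ, |x| < δ → Conv f x)
    {r : ℝ} (hr0 : 0 < r) (hr : r < δ) : Summable fun n : ℕ => |co f n| * (n * r ^ (n - 1)) := by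
  obtain ⟨s, hs1, hs2⟩ := exists_between hr
  have hs0 : 0 < s := hr0.trans hs1
  have h1 : Summable fun n : ℕ => |co f n| * s ^ n := by
    have := hc s (by rw [abs_of_pos hs0]; exact hs2)
    unfold Conv at this
    rw [abs_of_pos hs0] at this
    exact this
  have hlo := (isLittleO_coe_const_pow_of_one_lt (R := ℝ) (r := s / r)
    ((one_lt_div hr0).2 hs1)).isBigO
  obtain ⟨C, hC0, hC⟩ := hlo.exists_pos
  have hC' := hC.bound
  refine Summable.of_norm_bounded_eventually_nat (g := fun n => C / r * (|co f n| * s ^ n))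
    (h1.mul_left _) ?_
  filter_upwards [hC', Filter.eventually_ge_atTop 1] with n hn hn1
  rw [Real.norm_eq_abs, abs_mul, abs_abs, abs_of_nonneg (by positivity : (0 : ℝ) ≤ n * r ^ (n - 1))]
  have h2 : (n : ℝ) ≤ C * (s / r) ^ n := by
    have e1 : ‖(n : ℝ)‖ = n := by simp
    have e2 : ‖(s / r) ^ n‖ = (s / r) ^ n := by
      rw [Real.norm_eq_abs, abs_of_nonneg (by positivity)]
    rw [e1, e2] at hn
    exact hn
  have h3 : (n : ℝ) * r ^ (n - 1) ≤ C / r * s ^ n := by
    calc (n : ℝ) * r ^ (n - 1) ≤ C * (s / r) ^ n * r ^ (n - 1) := by gcongr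
      _ = C / r * s ^ n := by
        obtain ⟨k, rfl⟩ : ∃ k, n = k + 1 := ⟨n - 1, by omega⟩
        rw [Nat.add_sub_cancel, div_pow, pow_succ r k]
        field_simp
  calc |co f n| * (n * r ^ (n - 1)) ≤ |co f n| * (C / r * s ^ n) := by gcongr
    _ = C / r * (|co f n| * s ^ n) := by ring

lemma deriv_conv {f : PowerSeries ℚ} {δ : ℝ} (hc : ∀ x : ℝ, |x| < δ → Conv f x) {x : ℝ}
    (hx : |x| < δ) : Conv (PowerSeries.derivative ℚ f) x := by
  obtain ⟨r, hr1, hr2⟩ := exists_between hx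
  have hr0 : 0 < r := lt_of_le_of_lt (abs_nonneg _) hr1
  have h1 := (summable_nat_add_iff 1).2 (summ_deriv hc hr0 hr2)
  have h2 : Conv (PowerSeries.derivative ℚ f) r := by
    unfold Conv
    rw [abs_of_pos hr0]
    refine h1.congr fun n => ?_
    show |co f (n + 1)| * (((n + 1 : ℕ) : ℝ) * r ^ (n + 1 - 1)) =
      |co (PowerSeries.derivative ℚ f) n| * r ^ n
    rw [co_deriv, abs_mul, Nat.add_sub_cancel, abs_of_nonneg (by positivity : (0 : ℝ) ≤ n + 1)]
    push_cast
    ring
  exact conv_mono h2 (by rw [abs_of_pos hr0]; exact hr1.le)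

lemma deriv_has {f : PowerSeries ℚ} {δ : ℝ} (hc : ∀ x : ℝ, |x| < δ → Conv f x) {x : ℝ}
    (hx : |x| < δ) : HasDerivAt (ev f) (ev (PowerSeries.derivative ℚ f) x) x := by
  obtain ⟨r, hr1, hr2⟩ := exists_between hx
  have hr0 : 0 < r := lt_of_le_of_lt (abs_nonneg _) hr1
  have h1 := summ_deriv hc hr0 hr2
  have key := hasDerivAt_tsum_of_isPreconnected (𝕜 := ℝ)
    (u := fun n : ℕ => |co f n| * (n * r ^ (n - 1)))
    (t := Metric.ball (0 : ℝ) r) (g := fun n y => co f n * y ^ n)
    (g' := fun n y => co f n * (n * y ^ (n - 1))) (y₀ := 0) (y := x) h1 Metric.isOpen_ball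
    (convex_ball _ _).isPreconnected
    (fun n y _ => (hasDerivAt_pow n y).const_mul _)
    (fun n y hy => by
      rw [norm_mul, Real.norm_eq_abs, Real.norm_eq_abs, abs_mul, Nat.abs_cast, abs_pow]
      have : |y| ≤ r := by
        rw [mem_ball_zero_iff] at hy
        exact hy.le
      gcongr)
    (by simpa using hr0)
    (by
      refine summable_of_ne_finset_zero (s := {0}) fun n hn => ?_
      have : n ≠ 0 := by simpa using hn
      simp [this])
    (by rw [mem_ball_zero_iff]; exact hr1)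
  have e : (∑' n : ℕ, co f n * ((n : ℝ) * x ^ (n - 1))) = ev (PowerSeries.derivative ℚ f) x := by
    have hsum : Summable fun n : ℕ => co f n * ((n : ℝ) * x ^ (n - 1)) := by
      refine Summable.of_norm_bounded h1 fun n => ?_
      rw [norm_mul, Real.norm_eq_abs, Real.norm_eq_abs, abs_mul, Nat.abs_cast, abs_pow]
      gcongr
    rw [hsum.tsum_eq_zero_add, ev_eq]
    simp only [Nat.cast_zero, zero_mul, mul_zero, zero_add]
    refine tsum_congr fun n => ?_
    rw [co_deriv, Nat.add_sub_cancel]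
    push_cast
    ring
  rw [← e]
  exact key

lemma ident {f : PowerSeries ℚ} {δ : ℝ} (hδ : 0 < δ) (hc : ∀ x : ℝ, |x| < δ → Conv f x)
    (h0 : ∀ᶠ x in 𝓝[>] (0 : ℝ), ev f x = 0) : f = 0 := by
  have hf := (hasFP hδ hc).hasFPowerSeriesAt
  have h1 : ∀ᶠ x in 𝓝 (0 : ℝ), ev f x = 0 := by
    refine hf.analyticAt.frequently_zero_iff_eventually_zero.1 ?_
    have h2 : ∃ᶠ x in 𝓝[>] (0 : ℝ), ev f x = 0 := h0.frequently
    exact h2.filter_mono (nhdsWithin_mono _ fun x hx => ne_of_gt hx)
  have h3 := hf.eq_zero_of_eventually h1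
  rw [FormalMultilinearSeries.ofScalars_series_eq_zero] at h3
  ext n
  have := congrFun h3 n
  unfold co at this
  rw [Pi.zero_apply, Rat.cast_eq_zero] at this
  rw [this, map_zero]

end EVC_

open EVC_ in
theorem p_EVC : T_EVC := by
  refine ⟨fun f g x hf hg => ⟨(add_case hf hg).1, (add_case hf hg).2, (mul_case hf hg).1,
    (mul_case hf hg).2⟩, poly_case, fun f hf => isG_case hf, fun f δ hδ hc => ⟨fun x hx => ⟨?_,
    deriv_conv hc hx, deriv_has hc hx⟩, ident hδ hc⟩⟩
  refine (hasFP hδ hc).analyticAt_of_mem ?_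
  rw [Metric.eball_ofReal, mem_ball_zero_iff]
  exact hx

end Pool.Agent.LEG
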