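import Pool.Agent.LEG.Targets

set_option autoImplicit false

/-!
LEG-EVLO: evaluation of the logarithm series.
-/

namespace Pool.Agent.LEG

namespace EVLO_

lemma coeff_lo (a n : ℕ) :
    ((PowerSeries.coeff n (lo a) : ℚ) : ℝ) = -((a : ℝ) ^ n / (n : ℝ)) := by
  simp [lo, PowerSeries.coeff_mk]

lemma term (a n : ℕ) (x : ℝ) :
    -((a : ℝ) ^ n / (n : ℝ)) * x ^ n = -(((a : ℝ) * x) ^ n / (n : ℝ)) := by
  rw [mul_pow]; ring

end EVLO_

open EVLO_

theorem p_EVLO : T_EVLO := by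
  intro a x hx hax
  have h0 : 0 ≤ (a : ℝ) * x := mul_nonneg (Nat.cast_nonneg a) hx
  have habs : |(a : ℝ) * x| < 1 := by rwa [abs_of_nonneg h0]
  have hs := Real.hasSum_pow_div_log_of_abs_lt_one habs
  have hs1 : HasSum (fun n : ℕ => ((a : ℝ) * x) ^ n / (n : ℝ)) (-Real.log (1 - a * x)) := by
    rw [← hasSum_nat_add_iff' 1]
    simpa using hs
  constructor
  · unfold Conv
    refine hs1.summable.congr (fun n => ?_)
    rw [coeff_lo, abs_neg, abs_div, abs_of_nonneg hx, abs_of_nonneg (pow_nonneg (Nat.cast_nonneg a) n),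
      Nat.abs_cast, mul_pow]
    ring
  · unfold ev
    have h2 : (fun n : ℕ => ((PowerSeries.coeff n (lo a) : ℚ) : ℝ) * x ^ n) =
        fun n : ℕ => -(((a : ℝ) * x) ^ n / (n : ℝ)) := by
      funext n
      rw [coeff_lo, term]
    rw [h2, tsum_neg, hs1.tsum_eq, neg_neg]

end Pool.Agent.LEG
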