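import Pool.Agent.LEG.Targets

set_option autoImplicit false

/-!
# EVPHI: evaluation of the four functions
-/

namespace Pool.Agent.LEG

open Finset
open scoped BigOperators Topology

/-- EVPHI -/
theorem p_EVPHI (h1 : T_EVC) (h2 : T_EVSH) (h3 : T_EVLO) (h4 : T_CONV) : T_EVPHI := by
  intro c a p z hz hc hlt
  obtain ⟨k1, k2, -, -⟩ := h1
  have hc' : (1 : ℝ) ≤ c := by exact_mod_cast hc
  have ha0 : (0 : ℝ) ≤ a := Nat.cast_nonneg a
  have hcz : 0 ≤ (c : ℝ) * z := mul_nonneg (by linarith) hz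
  have hlt' : (a : ℝ) * z + c * z < 1 := by linarith [add_mul (a : ℝ) c z]
  have haz : (a : ℝ) * z < 1 := by linarith
  have hm : |(c : ℝ) * z / (1 - a * z)| < 1 := by
    rw [abs_of_nonneg (div_nonneg hcz (by linarith)), div_lt_one (by linarith)]
    linarith
  have e0 := h2 c a (FH p.1 0) z hz haz (h4 p.1 0 _ hm)
  by_cases hp : p.2 = 0
  · have h5 : phi c a p = (FH p.1 0).subst (sh c a) := by
      unfold phi
      rw [if_pos hp]
    have h6 : PhR c a z p.1 p.2 = ev (FH p.1 0) (c * z / (1 - a * z)) := by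
      unfold PhR
      rw [Matrix.of_apply, if_pos hp]
    rw [h5, h6]
    exact e0
  · have e1 := h2 c a (FH p.1 1) z hz haz (h4 p.1 1 _ hm)
    have e2 := h3 a z hz haz
    have e3 := k2 (Polynomial.C (1 / 2 : ℚ)) z
    have e4 := k2 (Polynomial.C (-1 : ℚ)) z
    rw [Polynomial.coe_C, Polynomial.aeval_C] at e3 e4
    have h5 : phi c a p = (FH p.1 1).subst (sh c a) + PowerSeries.C (-1 : ℚ) *
        (PowerSeries.C (1 / 2 : ℚ) * (FH p.1 0).subst (sh c a) * lo a) := by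
      unfold phi
      rw [if_neg hp, map_neg, map_one]
      ring
    have h6 : PhR c a z p.1 p.2 = ev (FH p.1 1) (c * z / (1 - a * z)) -
      1 / 2 * ev (FH p.1 0) (c * z / (1 - a * z)) * Real.log (1 - a * z) := by
      unfold PhR
      rw [Matrix.of_apply, if_neg hp]
    obtain ⟨-, -, m1, m2⟩ := k1 _ _ z e3.1 e0.1
    obtain ⟨-, -, m3, m4⟩ := k1 _ _ z m1 e2.1
    obtain ⟨-, -, m5, m6⟩ := k1 _ _ z e4.1 m3
    obtain ⟨m7, m8, -, -⟩ := k1 _ _ z e1.1 m5
    rw [h5, h6]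
    refine ⟨m7, ?_⟩
    rw [m8, m6, m4, m2, e0.2, e1.2, e2.2, e3.2, e4.2]
    simp only [eq_ratCast]
    push_cast
    ring

end Pool.Agent.LEG
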