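import Pool.Agent.LEG.Targets

set_option autoImplicit false

/-!
# Target EVSH: evaluation after substitution
-/

namespace Pool.Agent.LEG

open Finset
open scoped BigOperators Topology

namespace EVSH_

theorem hasSubst_sh (c a : ℕ) : PowerSeries.HasSubst (sh c a) := by
  apply PowerSeries.HasSubst.of_constantCoeff_zero'
  rw [← PowerSeries.coeff_zero_eq_constantCoeff_apply]
  simp [sh]

/-- the coefficients of the powers -/
noncomputable def sc (c a n k : ℕ) : ℚ := PowerSeries.coeff k (sh c a ^ n)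

theorem sh_nonneg (c a k : ℕ) : 0 ≤ PowerSeries.coeff k (sh c a) := by
  simp only [sh, PowerSeries.coeff_mk]
  split_ifs
  · exact le_rfl
  · positivity

theorem sc_nonneg (c a : ℕ) : ∀ n k, 0 ≤ sc c a n k
  | 0, k => by
    simp only [sc, pow_zero, PowerSeries.coeff_one]
    split_ifs <;> norm_num
  | n + 1, k => by
    simp only [sc, pow_succ, PowerSeries.coeff_mul]
    exact Finset.sum_nonneg fun p _ => mul_nonneg (sc_nonneg c a n p.1) (sh_nonneg c a p.2)

theorem sc_zero (c a : ℕ) {n k : ℕ} (h : k < n) : sc c a n k = 0 := by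
  have h1 : (PowerSeries.X : PowerSeries ℚ) ∣ sh c a := by
    rw [PowerSeries.X_dvd_iff, ← PowerSeries.coeff_zero_eq_constantCoeff_apply]
    simp [sh]
  have h2 : (PowerSeries.X : PowerSeries ℚ) ^ n ∣ sh c a ^ n := pow_dvd_pow_of_dvd h1 n
  exact (PowerSeries.X_pow_dvd_iff.1 h2) k h

section
variable {c a : ℕ} {x : ℝ} (hx : 0 ≤ x) (hax : a * x < 1)

include hx hax

theorem hasSum_sh : HasSum (fun k : ℕ => ((PowerSeries.coeff k (sh c a) : ℚ) : ℝ) * x ^ k)
    (c * x / (1 - a * x)) := by
  have h0 : 0 ≤ a * x := by positivity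
  have h1 := (hasSum_geometric_of_lt_one h0 hax).mul_left (c * x)
  rw [← hasSum_nat_add_iff' 1]
  have e : (fun k : ℕ => ((PowerSeries.coeff (k + 1) (sh c a) : ℚ) : ℝ) * x ^ (k + 1)) =
      fun k : ℕ => c * x * (a * x) ^ k := by
    funext k
    simp only [sh, PowerSeries.coeff_mk, Nat.succ_ne_zero, if_false, Nat.add_sub_cancel]
    push_cast
    rw [mul_pow]
    ring
  rw [e]
  have e2 : (c : ℝ) * x / (1 - a * x) -
      ∑ i ∈ range 1, ((PowerSeries.coeff i (sh c a) : ℚ) : ℝ) * x ^ i =
      c * x * (1 - a * x)⁻¹ := by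
    simp [sh, div_eq_mul_inv]
  rw [e2]
  exact h1

theorem hasSum_sc (n : ℕ) : HasSum (fun k : ℕ => ((sc c a n k : ℚ) : ℝ) * x ^ k)
    ((c * x / (1 - a * x)) ^ n) := by
  induction n with
  | zero =>
    rw [pow_zero]
    have e : (fun k : ℕ => ((sc c a 0 k : ℚ) : ℝ) * x ^ k) = fun k => if k = 0 then 1 else 0 := by
      funext k
      simp only [sc, pow_zero, PowerSeries.coeff_one]
      split_ifs with h
      · subst h; simp
      · simp
    rw [e]
    exact hasSum_ite_eq 0 1
  | succ n ih =>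
    have hs := hasSum_sh (c := c) hx hax
    have n1 : Summable fun k : ℕ => ‖((sc c a n k : ℚ) : ℝ) * x ^ k‖ := by
      refine ih.summable.norm
    have n2 : Summable fun k : ℕ => ‖((PowerSeries.coeff k (sh c a) : ℚ) : ℝ) * x ^ k‖ :=
      hs.summable.norm
    have e : ∀ k : ℕ, ((sc c a (n + 1) k : ℚ) : ℝ) * x ^ k =
        ∑ p ∈ HasAntidiagonal.antidiagonal k, (((sc c a n p.1 : ℚ) : ℝ) * x ^ p.1) *
          (((PowerSeries.coeff p.2 (sh c a) : ℚ) : ℝ) * x ^ p.2) := by
      intro k
      simp only [sc, pow_succ, PowerSeries.coeff_mul]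
      push_cast
      rw [Finset.sum_mul]
      refine Finset.sum_congr rfl fun p hp => ?_
      rw [← (HasAntidiagonal.mem_antidiagonal.1 hp), pow_add]
      ring
    have s1 : Summable fun k : ℕ => ((sc c a (n + 1) k : ℚ) : ℝ) * x ^ k := by
      have := summable_norm_sum_mul_antidiagonal_of_summable_norm n1 n2
      refine this.of_norm.congr fun k => (e k).symm
    have s2 : ∑' k : ℕ, ((sc c a (n + 1) k : ℚ) : ℝ) * x ^ k = (c * x / (1 - a * x)) ^ (n + 1) := by
      rw [pow_succ, ← ih.tsum_eq]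
      conv_rhs => rw [← hs.tsum_eq]
      rw [tsum_mul_tsum_eq_tsum_sum_antidiagonal_of_summable_norm n1 n2]
      exact tsum_congr e
    rw [← s2]
    exact s1.hasSum

end

/-- the coefficients of the substitution -/
theorem hasSum_coeff (c a : ℕ) (f : PowerSeries ℚ) (k : ℕ) :
    HasSum (fun n : ℕ => ((PowerSeries.coeff n f : ℚ) : ℝ) * ((sc c a n k : ℚ) : ℝ))
      ((PowerSeries.coeff k (f.subst (sh c a)) : ℚ) : ℝ) := by
  have h1 : PowerSeries.coeff k (f.subst (sh c a)) =
      ∑ n ∈ range (k + 1), PowerSeries.coeff n f * sc c a n k := by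
    rw [PowerSeries.coeff_subst' (hasSubst_sh c a)]
    rw [finsum_eq_sum_of_support_subset _ (s := range (k + 1))]
    · rfl
    · intro n hn
      rw [Function.mem_support] at hn
      simp only [coe_range, Set.mem_Iio]
      by_contra hcon
      apply hn
      have : sc c a n k = 0 := sc_zero c a (by omega)
      rw [show PowerSeries.coeff k (sh c a ^ n) = sc c a n k from rfl, this, smul_zero]
  rw [h1]
  push_cast
  apply hasSum_sum_of_ne_finset_zero
  intro n hn
  have : sc c a n k = 0 := sc_zero c a (by simpa using hn)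
  rw [this]
  simp

end EVSH_

open EVSH_ in
theorem p_EVSH : T_EVSH := by
  intro c a f x hx hax hconv
  have hd : 0 < 1 - a * x := by linarith
  set y : ℝ := c * x / (1 - a * x) with hy
  have hy0 : 0 ≤ y := by positivity
  -- the double family of absolute values
  set g : ℕ × ℕ → ℝ := fun q => ((PowerSeries.coeff q.1 f : ℚ) : ℝ) *
    (((sc c a q.1 q.2 : ℚ) : ℝ) * x ^ q.2) with hg
  have hscn : ∀ n k, (0 : ℝ) ≤ ((sc c a n k : ℚ) : ℝ) := fun n k => by
    exact_mod_cast sc_nonneg c a n k
  have habs : ∀ n k, |g (n, k)| = |((PowerSeries.coeff n f : ℚ) : ℝ)| *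
      (((sc c a n k : ℚ) : ℝ) * x ^ k) := by
    intro n k
    simp only [hg]
    rw [abs_mul, abs_of_nonneg (mul_nonneg (hscn n k) (pow_nonneg hx k))]
  have hG : Summable fun q : ℕ × ℕ => |g q| := by
    rw [summable_prod_of_nonneg (fun q => abs_nonneg _)]
    constructor
    · intro n
      simp only [habs]
      exact (hasSum_sc hx hax n).summable.mul_left _
    · simp only [habs]
      have : ∀ n : ℕ, ∑' k : ℕ, |((PowerSeries.coeff n f : ℚ) : ℝ)| *
          (((sc c a n k : ℚ) : ℝ) * x ^ k) = |((PowerSeries.coeff n f : ℚ) : ℝ)| * |y| ^ n := by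
        intro n
        rw [tsum_mul_left, (hasSum_sc hx hax n).tsum_eq, abs_of_nonneg hy0]
      simp only [this]
      exact hconv
  have hgs : Summable g := hG.of_abs
  have hck : ∀ k, HasSum (fun n => g (n, k))
      (((PowerSeries.coeff k (f.subst (sh c a)) : ℚ) : ℝ) * x ^ k) := by
    intro k
    have := (hasSum_coeff c a f k).mul_right (x ^ k)
    refine this.congr_fun ?_ |> fun h => h
    intro n
    simp only [hg]
    ring
  constructor
  · -- convergence
    have h1 : Summable fun k : ℕ => ∑' n : ℕ, |g (n, k)| := by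
      have h2 : Summable fun q : ℕ × ℕ => |g q.swap| := hG.prod_symm
      exact h2.prod
    refine Summable.of_nonneg_of_le (fun k => by positivity) (fun k => ?_) h1
    have h3 : Summable fun n => |g (n, k)| := by
      have h2 : Summable fun q : ℕ × ℕ => |g q.swap| := hG.prod_symm
      exact h2.prod_factor k
    have h4 : |((PowerSeries.coeff k (f.subst (sh c a)) : ℚ) : ℝ)| * |x| ^ k =
        |∑' n, g (n, k)| := by
      rw [(hck k).tsum_eq, abs_mul, abs_pow]
    rw [h4]
    have h5 : Summable fun n => ‖g (n, k)‖ := h3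
    have h6 : ‖∑' n, g (n, k)‖ ≤ ∑' n, ‖g (n, k)‖ := norm_tsum_le_tsum_norm h5
    simpa only [Real.norm_eq_abs] using h6
  · unfold ev
    have h1 : ∀ k : ℕ, ((PowerSeries.coeff k (f.subst (sh c a)) : ℚ) : ℝ) * x ^ k =
        ∑' n, g (n, k) := fun k => (hck k).tsum_eq.symm
    have h2 : ∀ n : ℕ, ((PowerSeries.coeff n f : ℚ) : ℝ) * y ^ n = ∑' k, g (n, k) := by
      intro n
      simp only [hg]
      rw [tsum_mul_left, (hasSum_sc hx hax n).tsum_eq]
    simp only [h1, h2]
    exact (hgs.tsum_comm' (fun n => hgs.prod_factor n) (fun k => (hck k).summable))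

end Pool.Agent.LEG
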