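import Pool.Agent.LEG.Targets

set_option autoImplicit false

/-! EXC: from periods to the functions. -/

namespace Pool.Agent.LEG

open Finset
open scoped BigOperators Topology

namespace EXC_

open MvPolynomial

/-- the substitution, with the last variable multiplied by `f` -/
noncomputable def sub (k : ℕ) : Fin k ⊕ Fin 4 → MvPolynomial (Fin (k + 2) ⊕ Fin 3) ℤ :=
  Sum.elim (fun i => X (Sum.inl (Fin.castAdd 2 i)))
    ![X (Sum.inl (Fin.natAdd k 0)) * X (Sum.inr 0), X (Sum.inl (Fin.natAdd k 0)) * X (Sum.inr 1),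
      X (Sum.inl (Fin.natAdd k 1)) * X (Sum.inr 0) - X (Sum.inr 2),
      X (Sum.inr 0) * (X (Sum.inl (Fin.natAdd k 1)) * X (Sum.inr 0) - X (Sum.inr 2) -
        X (Sum.inl (Fin.natAdd k 1)) * X (Sum.inr 1)) + 1 + X (Sum.inr 1) * X (Sum.inr 2)]

theorem td_X {σ : Type} (v : σ) : (X v : MvPolynomial σ ℤ).totalDegree ≤ 1 :=
  (totalDegree_X v).le

theorem td_mul {σ : Type} {p q : MvPolynomial σ ℤ} {a b : ℕ} (hp : p.totalDegree ≤ a)
    (hq : q.totalDegree ≤ b) : (p * q).totalDegree ≤ a + b :=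
  (totalDegree_mul p q).trans (add_le_add hp hq)

theorem td_add {σ : Type} {p q : MvPolynomial σ ℤ} {a : ℕ} (hp : p.totalDegree ≤ a)
    (hq : q.totalDegree ≤ a) : (p + q).totalDegree ≤ a :=
  (totalDegree_add p q).trans (max_le hp hq)

theorem td_sub {σ : Type} {p q : MvPolynomial σ ℤ} {a : ℕ} (hp : p.totalDegree ≤ a)
    (hq : q.totalDegree ≤ a) : (p - q).totalDegree ≤ a :=
  (totalDegree_sub p q).trans (max_le hp hq)

theorem sub_deg (k : ℕ) (v : Fin k ⊕ Fin 4) : (sub k v).totalDegree ≤ 3 := by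
  rcases v with i | j
  · exact (td_X _).trans (by norm_num)
  · unfold sub
    simp only [Sum.elim_inr]
    fin_cases j
    · exact (td_mul (td_X _) (td_X _)).trans (by norm_num)
    · exact (td_mul (td_X _) (td_X _)).trans (by norm_num)
    · exact (td_sub (td_mul (td_X _) (td_X _)) ((td_X _).trans (by norm_num))).trans (by norm_num)
    · refine td_add (td_add (td_mul (a := 1) (b := 2) (td_X _) ?_) (by simp)) ?_
      · exact td_sub (td_sub (td_mul (td_X _) (td_X _)) ((td_X _).trans (by norm_num)))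
          (td_mul (td_X _) (td_X _))
      · exact (td_mul (td_X _) (td_X _)).trans (by norm_num)

theorem key {k D : ℕ} (P : MvPolynomial (Fin k ⊕ Fin 4) ℤ) (hD : P.totalDegree ≤ D) :
    ∃ P' : MvPolynomial (Fin (k + 2) ⊕ Fin 3) ℤ, P'.totalDegree ≤ 4 * D ∧
      ∀ (θ : Fin k → ℂ) (p ξ : ℂ) (y : Fin 3 → ℂ) (x : Fin 4 → ℂ),
        x 0 = p * y 0 → x 1 = p * y 1 → x 2 = ξ * y 0 - y 2 →
        y 0 * x 3 = y 0 * (ξ * y 0 - y 2 - ξ * y 1) + 1 + y 1 * y 2 →
        aeval (Sum.elim (Fin.append θ ![p, ξ]) y) P' = y 0 ^ D * aeval (Sum.elim θ x) P := by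
  have hs : ∀ s ∈ P.support, ∑ v, s v ≤ D := by
    intro s hs
    have h1 := le_totalDegree hs
    rw [Finsupp.sum_fintype _ _ (fun _ => rfl)] at h1
    exact h1.trans hD
  refine ⟨∑ s ∈ P.support, C (coeff s P) * X (Sum.inr 0) ^ (D - s (Sum.inr 3)) *
    ∏ v, sub k v ^ s v, ?_, ?_⟩
  · refine totalDegree_finsetSum_le fun s hsP => ?_
    have h1 : (∏ v, sub k v ^ s v).totalDegree ≤ 3 * D := by
      refine (totalDegree_finset_prod _ _).trans ?_
      calc ∑ v, (sub k v ^ s v).totalDegree ≤ ∑ v, 3 * s v := by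
            refine Finset.sum_le_sum fun v _ => (totalDegree_pow _ _).trans ?_
            rw [mul_comm]
            exact Nat.mul_le_mul_right _ (sub_deg k v)
        _ = 3 * ∑ v, s v := by rw [Finset.mul_sum]
        _ ≤ 3 * D := Nat.mul_le_mul_left _ (hs s hsP)
    have h2 : (C (coeff s P) * X (Sum.inr 0) ^ (D - s (Sum.inr 3)) :
        MvPolynomial (Fin (k + 2) ⊕ Fin 3) ℤ).totalDegree ≤ 0 + D := by
      refine td_mul (totalDegree_C _).le ((totalDegree_pow _ _).trans ?_)
      rw [totalDegree_X, mul_one]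
      exact Nat.sub_le _ _
    exact (td_mul h2 h1).trans (by omega)
  · intro θ p ξ y x h0 h1 h2 h3
    have e : ∀ v : Fin k ⊕ Fin 4, aeval (Sum.elim (Fin.append θ ![p, ξ]) y) (sub k v) =
        (if v = Sum.inr 3 then y 0 else 1) * Sum.elim θ x v := by
      intro v
      rcases v with i | j
      · simp [sub]
      · fin_cases j
        · simp [sub, h0]
        · simp [sub, h1]
        · simp [sub, h2]
        · simp [sub, h3]
    rw [map_sum, aeval_def (Sum.elim θ x), eval₂_eq', Finset.mul_sum]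
    refine Finset.sum_congr rfl fun s hsP => ?_
    rw [map_mul, map_mul, map_prod, map_pow, aeval_C, aeval_X]
    simp only [map_pow, e, mul_pow, Finset.prod_mul_distrib]
    have e2 : ∏ v : Fin k ⊕ Fin 4, (if v = Sum.inr 3 then y 0 else 1) ^ s v =
        y 0 ^ s (Sum.inr 3) := by
      rw [Finset.prod_eq_single (Sum.inr 3 : Fin k ⊕ Fin 4)]
      · simp
      · intro v _ hv
        rw [if_neg hv, one_pow]
      · intro h
        exact absurd (Finset.mem_univ _) h
    rw [e2]
    have h4 : s (Sum.inr 3) ≤ D :=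
      (Finset.single_le_sum (f := fun v => s v) (fun _ _ => Nat.zero_le _)
        (Finset.mem_univ (Sum.inr 3 : Fin k ⊕ Fin 4))).trans (hs s hsP)
    have e3 : y 0 ^ D = y 0 ^ (D - s (Sum.inr 3)) * y 0 ^ s (Sum.inr 3) := by
      rw [← pow_add]
      congr 1
      omega
    simp only [Sum.elim_inr]
    rw [e3]
    ring

/-- moving away from `x 0 = 0` -/
theorem perturb {k : ℕ} (P : MvPolynomial (Fin k ⊕ Fin 4) ℤ) (θ : Fin k → ℂ) (x : Fin 4 → ℂ)
    (hx : Leg x) (hP : aeval (Sum.elim θ x) P ≠ 0) :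
    ∃ x' : Fin 4 → ℂ, Leg x' ∧ x' 0 ≠ 0 ∧ aeval (Sum.elim θ x') P ≠ 0 := by
  by_cases h0 : x 0 = 0
  · unfold Leg at hx
    rw [h0] at hx
    have hpi : (Real.pi : ℂ) ≠ 0 := by exact_mod_cast Real.pi_ne_zero
    have h2 : x 2 ≠ 0 := by
      intro h2
      rw [h2] at hx
      apply hpi
      linear_combination -2 * hx
    let y : ℂ → Fin 4 → ℂ := fun t => ![t, ((Real.pi : ℂ) / 2 - x 3 * t + t * x 2) / x 2, x 2, x 3]
    have hy0 : y 0 = x := by
      funext j
      fin_cases j
      · simp [y, h0]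
      · simp only [y]
        simp
        rw [div_eq_iff h2]
        linear_combination -hx
      · simp [y]
      · simp [y]
    have hc : Continuous (fun t => aeval (Sum.elim θ (y t)) P) := by
      simp only [aeval_def, eval₂_eq']
      refine continuous_finset_sum _ fun s _ => continuous_const.mul
        (continuous_finset_prod _ fun v _ => Continuous.pow ?_ _)
      rcases v with i | j
      · exact continuous_const
      · simp only [Sum.elim_inr, y]
        fin_cases j
        · exact continuous_id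
        · show Continuous fun t : ℂ => ((Real.pi : ℂ) / 2 - x 3 * t + t * x 2) / x 2
          fun_prop
        · exact continuous_const
        · exact continuous_const
    have hne : ∀ᶠ t in 𝓝 (0 : ℂ), aeval (Sum.elim θ (y t)) P ≠ 0 := by
      refine hc.continuousAt.eventually_ne ?_
      rw [hy0]
      exact hP
    have hne' : ∀ᶠ t in 𝓝[≠] (0 : ℂ), aeval (Sum.elim θ (y t)) P ≠ 0 :=
      hne.filter_mono nhdsWithin_le_nhds
    obtain ⟨t, ht1, ht2⟩ := (hne'.and self_mem_nhdsWithin).exists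
    refine ⟨y t, ?_, ?_, ht1⟩
    · unfold Leg
      show ((Real.pi : ℂ) / 2 - x 3 * t + t * x 2) / x 2 * x 2 + x 3 * t - t * x 2 = _
      rw [div_mul_cancel₀ _ h2]
      ring
    · exact ht2
  · exact ⟨x, hx, h0, hP⟩

end EXC_

open EXC_ MvPolynomial in
theorem p_EXC (h : T_RHO) : T_EXC := by
  intro c k D hc
  obtain ⟨⟨c1, hc1⟩, -, -, -, -, hdet⟩ := h c hc
  refine ⟨4 * D, fun N θ => ?_⟩
  obtain ⟨ξ, hξ⟩ : ∃ ξ : ℝ, ξ = c1 - Real.log (1 / (N : ℝ)) / 2 := ⟨_, rfl⟩
  refine ⟨Fin.append θ ![(Real.pi : ℂ) / 2, (ξ : ℂ)], fun a haN hE => ?_⟩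
  obtain ⟨P, hPD, hP0, x, hx, hPx⟩ := hE
  obtain ⟨P', hP'D, hP'⟩ := key P hPD
  refine ⟨P', hP'D, ?_, ?_⟩
  · obtain ⟨x', hx', hx0, hPx'⟩ := perturb P θ x hx hPx
    have hpi : (Real.pi : ℂ) ≠ 0 := by exact_mod_cast Real.pi_ne_zero
    refine ⟨![2 * x' 0 / Real.pi, 2 * x' 1 / Real.pi, ξ * (2 * x' 0 / Real.pi) - x' 2], ?_⟩
    rw [hP' θ _ _ _ x' ?_ ?_ ?_ ?_]
    · refine mul_ne_zero (pow_ne_zero _ ?_) hPx'
      simp only [Matrix.cons_val_zero]
      exact div_ne_zero (mul_ne_zero two_ne_zero hx0) hpi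
    · simp only [Matrix.cons_val_zero]
      field_simp
    · simp only [Matrix.cons_val_one, Matrix.cons_val_zero]
      field_simp
    · simp
    · unfold Leg at hx'
      simp
      field_simp
      linear_combination (2 * (Real.pi : ℂ)) * hx'
  · have hN : (0 : ℝ) < N := by
      have : 0 < N := by omega
      exact_mod_cast this
    have hz : (0 : ℝ) < 1 / (N : ℝ) := by positivity
    have hlt : ((a : ℝ) + c) * (1 / (N : ℝ)) < 1 := by
      rw [mul_one_div, div_lt_one hN]
      exact_mod_cast haN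
    have hr := hc1 a (1 / (N : ℝ)) hz hlt
    have hd := hdet a (1 / (N : ℝ)) hz hlt
    have haN' : (a : ℝ) < N := by
      have : a < N := by omega
      exact_mod_cast this
    have hm : (c : ℝ) * (1 / (N : ℝ)) / (1 - a * (1 / (N : ℝ))) = (c : ℝ) / ((N - a : ℕ) : ℝ) := by
      rw [Nat.cast_sub (by omega)]
      have : (N : ℝ) - a ≠ 0 := by linarith
      field_simp
    have hdet1 : (PhR c a (1 / (N : ℝ))).det = 1 := by
      rw [hr, Matrix.det_mul] at hd
      have e : (RL c1 (Real.log (1 / (N : ℝ)))).det = -(Real.pi / 2) := by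
        unfold RL
        rw [Matrix.det_fin_two_of]
        ring
      rw [e] at hd
      have hpi := Real.pi_ne_zero
      have : -(Real.pi / 2) ≠ 0 := by simpa using hpi
      exact mul_right_cancel₀ this (by rw [hd, one_mul])
    rw [Matrix.det_fin_two] at hdet1
    have r00 := congrFun (congrFun hr 0) 0
    have r01 := congrFun (congrFun hr 0) 1
    have r10 := congrFun (congrFun hr 1) 0
    have r11 := congrFun (congrFun hr 1) 1
    simp only [rho, RL, Matrix.mul_apply, Fin.sum_univ_two, Matrix.of_apply, Matrix.cons_val',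
      Matrix.cons_val_zero, Matrix.cons_val_one, Matrix.cons_val_fin_one, hm, ← hξ] at r00 r01 r10 r11
    rw [hP' θ _ _ _ (per c (N - a)) ?_ ?_ ?_ ?_, hP0, mul_zero]
    · simp only [per, xn, Matrix.cons_val_zero]
      rw [r00]
      push_cast
      ring
    · simp [per, xn]
      rw [r10]
      push_cast
      ring
    · simp [per, xn]
      rw [r01]
      push_cast
      ring
    · have hreal : PhR c a (1 / (N : ℝ)) 0 0 * EE (1 - (c : ℝ) / ((N - a : ℕ) : ℝ)) =
          PhR c a (1 / (N : ℝ)) 0 0 * (ξ * PhR c a (1 / (N : ℝ)) 0 0 - PhR c a (1 / (N : ℝ)) 0 1 -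
            ξ * PhR c a (1 / (N : ℝ)) 1 0) + 1 +
            PhR c a (1 / (N : ℝ)) 1 0 * PhR c a (1 / (N : ℝ)) 0 1 := by
        linear_combination PhR c a (1 / (N : ℝ)) 0 0 * (r01 - r11) + hdet1
      have hc' := congrArg (fun t : ℝ => (t : ℂ)) hreal
      push_cast at hc'
      simpa [per, xn] using hc'

end Pool.Agent.LEG
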