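import Pool.Agent.LEG.Targets

set_option autoImplicit false

/-! FAM: the big family is good. -/

namespace Pool.Agent.LEG

open Finset
open scoped BigOperators Topology

namespace FAM_

theorem TA_map (A' : ℕ) : TA A' = Polynomial.map (Int.castRingHom ℚ)
    (2 * Polynomial.X * ∏ b ∈ range (A' + 1), (1 - Polynomial.C (b : ℤ) * Polynomial.X)) := by
  unfold TA UA
  simp [Polynomial.map_prod]

theorem intP_TA (A' : ℕ) : IntP (TA A') := by
  intro s
  rw [TA_map, Polynomial.coeff_map]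
  exact ⟨_, rfl⟩

theorem TA_ne (A' : ℕ) : TA A' ≠ 0 := by
  unfold TA UA
  refine mul_ne_zero (mul_ne_zero two_ne_zero Polynomial.X_ne_zero)
    (Finset.prod_ne_zero_iff.mpr fun b _ h => ?_)
  have := congrArg (Polynomial.eval 0) h
  simp at this

end FAM_

open FAM_ in
theorem p_FAM (h1 : T_ODEPHI) (h2 : T_GPHI) (h3 : T_GALV) (h4 : T_GALU) (h5 : T_GALK)
    (h6 : T_GOODOPT) (h7 : T_GOODPI) : T_FAM := by
  intro c A B hc
  refine ⟨TA_ne _, intP_TA _, ?_⟩
  refine h7 (Fin (A + 1) × Fin B) (Option (Fin 2 × Fin 2)) (TA (A + c))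
    (fun s p => p.elim 1 (phi c (s.1 : ℕ))) fun s => ?_
  refine h6.1 (Fin 2 × Fin 2) (TA (A + c)) (phi c (s.1 : ℕ)) ⟨h2 c _, _,
    (h1 (A + c) c s.1 hc (by have := s.1.2; omega)).1, ?_⟩
  exact h5 _ _ _ _ _ (h3 (A + c) c s.1 hc (by have := s.1.2; omega)) (h4 (A + c))

end Pool.Agent.LEG
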