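import Pool.Agent.LEG.Targets

set_option autoImplicit false

/-!
Functional independence of the periods of Legendre curves with different shifts.
-/

namespace Pool.Agent.LEG

open Finset
open scoped BigOperators Topology

namespace FI_

/-- nilpotent matrices -/
def E12 : Matrix (Fin 2) (Fin 2) ℝ := !![0, 1; 0, 0]
def E21 : Matrix (Fin 2) (Fin 2) ℝ := !![0, 0; 1, 0]

theorem up_eq (s : ℝ) : up s = 1 + s • E12 := by
  ext i j; fin_cases i <;> fin_cases j <;> simp [up, E12]

theorem lw_eq (s : ℝ) : lw s = 1 + s • E21 := by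
  ext i j; fin_cases i <;> fin_cases j <;> simp [lw, E21]

theorem up_add (s t : ℝ) : up (s + t) = up s * up t := by
  ext i j; fin_cases i <;> fin_cases j <;> simp [up, Matrix.mul_apply, Fin.sum_univ_two, add_comm]

theorem lw_add (s t : ℝ) : lw (s + t) = lw s * lw t := by
  ext i j; fin_cases i <;> fin_cases j <;> simp [lw, Matrix.mul_apply, Fin.sum_univ_two]

theorem up_zero : up 0 = 1 := by
  ext i j; fin_cases i <;> fin_cases j <;> simp [up]

theorem lw_zero : lw 0 = 1 := by
  ext i j; fin_cases i <;> fin_cases j <;> simp [lw]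

theorem conj_eq (s : ℝ) : up 1 * lw 1 * up (-1) * lw s * (up 1 * lw (-1) * up (-1)) = up (-s) := by
  ext i j; fin_cases i <;> fin_cases j <;>
    simp [up, lw, Matrix.mul_apply, Fin.sum_univ_two]
  ring

/-- evaluation of a polynomial at analytic functions is analytic -/
theorem analytic_eval {σ : Type} (P : MvPolynomial σ ℝ) (u : ℝ → σ → ℝ) (z0 : ℝ)
    (hu : ∀ i, AnalyticAt ℝ (fun z => u z i) z0) :
    AnalyticAt ℝ (fun z => MvPolynomial.eval (u z) P) z0 := by
  induction P using MvPolynomial.induction_on with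
  | C a => simpa using analyticAt_const
  | add p q hp hq => simpa using hp.fun_add hq
  | mul_X p i hp => simpa using hp.fun_mul (hu i)

theorem ext_left {f : ℝ → ℝ} {b : ℝ} (hb : 0 < b) (hf : ∀ z, 0 < z → z < b → AnalyticAt ℝ f z)
    (h : ∀ᶠ z in 𝓝[>] (0 : ℝ), f z = 0) : ∀ z, 0 < z → z < b → f z = 0 := by
  obtain ⟨δ, hδ, h1⟩ := mem_nhdsGT_iff_exists_Ioo_subset.mp h
  have hδ' : (0 : ℝ) < δ := hδ
  have hU : AnalyticOnNhd ℝ f (Set.Ioo 0 b) := fun z hz => hf z hz.1 hz.2
  have hz0 : min δ b / 2 ∈ Set.Ioo 0 b := by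
    constructor
    · positivity
    · have : min δ b ≤ b := min_le_right _ _
      have : 0 < min δ b := by positivity
      linarith
  have hev : f =ᶠ[𝓝 (min δ b / 2)] 0 := by
    have : Set.Ioo 0 δ ∈ 𝓝 (min δ b / 2) := by
      apply isOpen_Ioo.mem_nhds
      constructor
      · positivity
      · have : min δ b ≤ δ := min_le_left _ _
        have : 0 < min δ b := by positivity
        linarith
    filter_upwards [this] with z hz
    exact h1 hz
  have := hU.eqOn_zero_of_preconnected_of_eventuallyEq_zero (convex_Ioo 0 b).isPreconnected hz0 hev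
  exact fun z hz1 hz2 => this ⟨hz1, hz2⟩

theorem ext_right {f : ℝ → ℝ} {b : ℝ} (hb : 0 < b) (hf : ∀ z, 0 < z → z < b → AnalyticAt ℝ f z)
    (h : ∀ᶠ x in 𝓝[>] (0 : ℝ), f (b - x) = 0) : ∀ z, 0 < z → z < b → f z = 0 := by
  have hg : ∀ z, 0 < z → z < b → AnalyticAt ℝ (fun x => f (b - x)) z := by
    intro z hz1 hz2
    have h1 : AnalyticAt ℝ f (b - z) := hf _ (by linarith) (by linarith)
    exact h1.fun_comp (analyticAt_const.sub analyticAt_id)
  have := ext_left hb hg h
  intro z hz1 hz2
  have h2 := this (b - z) (by linarith) (by linarith)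
  simpa using h2

theorem gen_sl2 (H : Set (Matrix (Fin 2) (Fin 2) ℝ)) (h1 : 1 ∈ H)
    (hup : ∀ s h, h ∈ H → up s * h ∈ H) (hlw : ∀ s h, h ∈ H → lw s * h ∈ H) :
    ∀ h : Matrix (Fin 2) (Fin 2) ℝ, h.det = 1 → h ∈ H := by
  have key : ∀ h : Matrix (Fin 2) (Fin 2) ℝ, h.det = 1 → h 0 1 ≠ 0 → h ∈ H := by
    intro h hd hq
    have : h = lw ((h 1 1 - 1) / h 0 1) * (up (h 0 1) * (lw ((h 0 0 - 1) / h 0 1) * 1)) := by
      rw [Matrix.det_fin_two] at hd
      ext i j; fin_cases i <;> fin_cases j <;>
        simp [up, lw, Matrix.mul_apply, Fin.sum_univ_two]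
      · field_simp; ring
      · field_simp
        linear_combination -hd
      · field_simp; ring
    rw [this]
    exact hlw _ _ (hup _ _ (hlw _ _ h1))
  intro h hd
  by_cases hq : h 0 1 = 0
  · have h2 : up (-1) * (up 1 * h) = h := by
      rw [← mul_assoc, ← up_add]; simp [up_zero]
    rw [← h2]
    apply hup
    apply key
    · rw [Matrix.det_mul, hd]; simp [up]
    · rw [Matrix.det_fin_two, hq] at hd
      have : h 1 1 ≠ 0 := by
        intro h0; rw [h0] at hd; simp at hd
      simp [up, Matrix.mul_apply, Fin.sum_univ_two, hq, this]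
  · exact key h hd hq

/-- the evaluation point: shifts `< A` move, shift `A` is `rho * h`, the rest is `x` -/
noncomputable def mx (c A : ℕ) (z t : ℝ) (h : Matrix (Fin 2) (Fin 2) ℝ)
    (x : ℕ → Matrix (Fin 2) (Fin 2) ℝ) (a : ℕ) : Matrix (Fin 2) (Fin 2) ℝ :=
  if a < A then rho c a z * up (-t / Real.pi) else if a = A then rho c A z * h else x a

theorem zA_pos (c A : ℕ) (hc : 1 ≤ c) : (0 : ℝ) < 1 / ((A : ℝ) + c) := by
  have : (1 : ℝ) ≤ c := by exact_mod_cast hc
  positivity

theorem lt_zA {c A a : ℕ} (hc : 1 ≤ c) (ha : a ≤ A) {z : ℝ} (hz : 0 < z)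
    (hz' : z < 1 / ((A : ℝ) + c)) : ((a : ℝ) + c) * z < 1 := by
  have hc' : (1 : ℝ) ≤ c := by exact_mod_cast hc
  have hpos : (0 : ℝ) < (A : ℝ) + c := by positivity
  rw [lt_div_iff₀ hpos] at hz'
  have ha' : (a : ℝ) ≤ A := by exact_mod_cast ha
  nlinarith

theorem analyticAt_log' {z : ℝ} (hz : 0 < z) : AnalyticAt ℝ Real.log z := by
  exact analyticAt_log hz

/-- analyticity of the evaluation -/
theorem mx_analytic (hR : T_RHO) (c A : ℕ) (hc : 1 ≤ c) (t : ℝ) (h : Matrix (Fin 2) (Fin 2) ℝ)
    (x : ℕ → Matrix (Fin 2) (Fin 2) ℝ) (P : MvPolynomial Var ℝ) (z : ℝ) (hz : 0 < z)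
    (hz' : z < 1 / ((A : ℝ) + c)) :
    AnalyticAt ℝ (fun z => MvPolynomial.eval (pt z (Real.log z + t) (mx c A z t h x)) P) z := by
  obtain ⟨-, -, -, hR4, -, -⟩ := hR c hc
  apply analytic_eval
  rintro (i | ⟨a, i, j⟩)
  · fin_cases i
    · exact analyticAt_id
    · exact (analyticAt_log' hz).fun_add analyticAt_const
  · simp only [pt, Sum.elim_inr, mx]
    by_cases h1 : a < A
    · simp only [h1, if_true, Matrix.mul_apply, Fin.sum_univ_two]
      have e0 := hR4 a i 0 z hz (lt_zA hc h1.le hz hz')
      have e1 := hR4 a i 1 z hz (lt_zA hc h1.le hz hz')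
      exact (e0.fun_mul analyticAt_const).fun_add (e1.fun_mul analyticAt_const)
    · by_cases h2 : a = A
      · simp only [h2, lt_irrefl, if_false, if_true, Matrix.mul_apply, Fin.sum_univ_two]
        have e0 := hR4 A i 0 z hz (lt_zA hc le_rfl hz hz')
        have e1 := hR4 A i 1 z hz (lt_zA hc le_rfl hz hz')
        exact (e0.fun_mul analyticAt_const).fun_add (e1.fun_mul analyticAt_const)
      · simp only [h1, h2, if_false]
        exact analyticAt_const

/-- invariance at `0` -/
theorem inv0 (hR : T_RHO) (hL : T_LOGP) (c A : ℕ) (hc : 1 ≤ c) (t t' : ℝ)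
    (h : Matrix (Fin 2) (Fin 2) ℝ) (x : ℕ → Matrix (Fin 2) (Fin 2) ℝ) (P : MvPolynomial Var ℝ)
    (hP : ∀ z, 0 < z → z < 1 / ((A : ℝ) + c) →
      MvPolynomial.eval (pt z (Real.log z + t) (mx c A z t h x)) P = 0) :
    ∀ z, 0 < z → z < 1 / ((A : ℝ) + c) →
      MvPolynomial.eval (pt z (Real.log z + (t + t')) (mx c A z (t + t') (up (-t' / Real.pi) * h) x))
        P = 0 := by
  obtain ⟨-, -, hR3, -, -, -⟩ := hR c hc
  choose Q hQa hQ using hR3
  apply ext_left (zA_pos c A hc)
    (fun z hz hz' => mx_analytic hR c A hc (t + t') (up (-t' / Real.pi) * h) x P z hz hz')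
  -- the coordinates
  let u : Var → ℝ → ℝ := Sum.elim (fun i z => ![z, t] i) (fun v z =>
    if v.1 < A then (Q v.1 z * up (-t / Real.pi)) v.2.1 v.2.2 else
      if v.1 = A then (Q A z * h) v.2.1 v.2.2 else x v.1 v.2.1 v.2.2)
  let w : Var → ℝ → ℝ := Sum.elim (fun i _ => ![0, 1] i) (fun v z =>
    if v.1 < A then ((-1 / Real.pi) • (Q v.1 z * E12 * up (-t / Real.pi))) v.2.1 v.2.2 else
      if v.1 = A then ((-1 / Real.pi) • (Q A z * E12 * h)) v.2.1 v.2.2 else 0)
  have huw : ∀ z X : ℝ, (fun i => u i z + w i z * X) = pt z (X + t) (fun a =>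
      if a < A then Q a z * up (-X / Real.pi) * up (-t / Real.pi) else
        if a = A then Q A z * up (-X / Real.pi) * h else x a) := by
    intro z X
    funext v
    rcases v with i | ⟨a, i, j⟩
    · fin_cases i <;> simp [u, w, pt, add_comm]
    · simp only [u, w, pt, Sum.elim_inr]
      by_cases h1 : a < A
      · simp only [h1, if_true, up_eq (-X / Real.pi), mul_add, add_mul, mul_one, Matrix.add_apply,
          Matrix.mul_smul, Matrix.smul_mul, Matrix.smul_apply, smul_eq_mul]
        ring
      · by_cases h2 : a = A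
        · simp only [h2, lt_irrefl, if_false, if_true, up_eq (-X / Real.pi), mul_add, add_mul,
            mul_one, Matrix.add_apply, Matrix.mul_smul, Matrix.smul_mul, Matrix.smul_apply,
            smul_eq_mul]
          ring
        · simp only [h1, h2, if_false, zero_mul, add_zero]
  have mulan : ∀ (F : ℝ → Matrix (Fin 2) (Fin 2) ℝ) (G : Matrix (Fin 2) (Fin 2) ℝ),
      (∀ i j, AnalyticAt ℝ (fun z => F z i j) 0) →
      ∀ i j, AnalyticAt ℝ (fun z => (F z * G) i j) 0 := by
    intro F G hF i j
    simp only [Matrix.mul_apply, Fin.sum_univ_two]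
    exact ((hF i 0).fun_mul analyticAt_const).fun_add ((hF i 1).fun_mul analyticAt_const)
  have hu : ∀ i, AnalyticAt ℝ (u i) 0 := by
    rintro (i | ⟨a, i, j⟩)
    · fin_cases i
      · exact analyticAt_id
      · exact analyticAt_const
    · simp only [u, Sum.elim_inr]
      by_cases h1 : a < A
      · simp only [h1, if_true]
        exact mulan _ _ (hQa a) i j
      · by_cases h2 : a = A
        · simp only [h2, lt_irrefl, if_false, if_true]
          exact mulan _ _ (hQa A) i j
        · simp only [h1, h2, if_false]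
          exact analyticAt_const
  have hw : ∀ i, AnalyticAt ℝ (w i) 0 := by
    rintro (i | ⟨a, i, j⟩)
    · exact analyticAt_const
    · simp only [w, Sum.elim_inr]
      by_cases h1 : a < A
      · simp only [h1, if_true, Matrix.smul_apply, smul_eq_mul]
        exact analyticAt_const.fun_mul (mulan _ _ (mulan _ _ (hQa a)) i j)
      · by_cases h2 : a = A
        · simp only [h2, lt_irrefl, if_false, if_true, Matrix.smul_apply, smul_eq_mul]
          exact analyticAt_const.fun_mul (mulan _ _ (mulan _ _ (hQa A)) i j)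
        · simp only [h1, h2, if_false]
          exact analyticAt_const
  have hz0 : ∀ᶠ z in 𝓝[>] (0 : ℝ), 0 < z ∧ z < 1 / ((A : ℝ) + c) :=
    Ioo_mem_nhdsGT (zA_pos c A hc)
  have hrel : ∀ᶠ z in 𝓝[>] (0 : ℝ),
      MvPolynomial.eval (fun i => u i z + w i z * Real.log z) P = 0 := by
    filter_upwards [hz0] with z hz
    rw [huw, ← hP z hz.1 hz.2]
    congr 2
    congr 1
    funext a
    simp only [mx]
    by_cases h1 : a < A
    · simp only [h1, if_true, hQ a z hz.1 (lt_zA hc h1.le hz.1 hz.2)]
    · by_cases h2 : a = A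
      · simp only [h2, lt_irrefl, if_false, if_true, hQ A z hz.1 (lt_zA hc le_rfl hz.1 hz.2)]
      · simp only [h1, h2, if_false]
  have := hL Var P u w hu hw hrel
  filter_upwards [this, hz0] with z h1 hz
  have h2 := h1 (Real.log z + t')
  rw [huw] at h2
  rw [← h2]
  congr 2
  rw [show Real.log z + (t + t') = Real.log z + t' + t by ring]
  congr 1
  funext a
  have hsplit : up (-(Real.log z + t') / Real.pi) = up (-Real.log z / Real.pi) * up (-t' / Real.pi) := by
    rw [← up_add]; congr 1; ring
  simp only [mx]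
  by_cases h1 : a < A
  · have e : up (-(t + t') / Real.pi) = up (-t' / Real.pi) * up (-t / Real.pi) := by
      rw [← up_add]; congr 1; ring
    simp only [h1, if_true, hQ a z hz.1 (lt_zA hc h1.le hz.1 hz.2), hsplit, e, mul_assoc]
  · by_cases h2 : a = A
    · simp only [h2, lt_irrefl, if_false, if_true, hQ A z hz.1 (lt_zA hc le_rfl hz.1 hz.2), hsplit]
      simp only [mul_assoc]
    · simp only [h1, h2, if_false]

theorem mulan (F : ℝ → Matrix (Fin 2) (Fin 2) ℝ) (G : Matrix (Fin 2) (Fin 2) ℝ) (z0 : ℝ)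
    (hF : ∀ i j, AnalyticAt ℝ (fun z => F z i j) z0) (i j : Fin 2) :
    AnalyticAt ℝ (fun z => (F z * G) i j) z0 := by
  simp only [Matrix.mul_apply, Fin.sum_univ_two]
  exact ((hF i 0).fun_mul analyticAt_const).fun_add ((hF i 1).fun_mul analyticAt_const)

/-- invariance at the singular point of shift `A` -/
theorem invA (hR : T_RHO) (hL : T_LOGP) (c A : ℕ) (hc : 1 ≤ c) (t s : ℝ)
    (h : Matrix (Fin 2) (Fin 2) ℝ) (x : ℕ → Matrix (Fin 2) (Fin 2) ℝ) (P : MvPolynomial Var ℝ)
    (hP : ∀ z, 0 < z → z < 1 / ((A : ℝ) + c) →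
      MvPolynomial.eval (pt z (Real.log z + t) (mx c A z t h x)) P = 0) :
    ∀ z, 0 < z → z < 1 / ((A : ℝ) + c) →
      MvPolynomial.eval (pt z (Real.log z + t) (mx c A z t (lw s * h) x)) P = 0 := by
  obtain ⟨-, -, -, hR4, hR5, -⟩ := hR c hc
  obtain ⟨Q, hQa, hQ⟩ := hR5 A
  have hc' : (1 : ℝ) ≤ c := by exact_mod_cast hc
  apply ext_right (zA_pos c A hc)
    (fun z hz hz' => mx_analytic hR c A hc t (lw s * h) x P z hz hz')
  set b : ℝ := 1 / ((A : ℝ) + c) with hb
  have hbpos : 0 < b := zA_pos c A hc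
  let u : Var → ℝ → ℝ := Sum.elim (fun i w => ![b - w, Real.log (b - w) + t] i) (fun v w =>
    if v.1 < A then (rho c v.1 (b - w) * up (-t / Real.pi)) v.2.1 v.2.2 else
      if v.1 = A then (Q w * h) v.2.1 v.2.2 else x v.1 v.2.1 v.2.2)
  let w : Var → ℝ → ℝ := Sum.elim (fun _ _ => 0) (fun v w =>
    if v.1 < A then 0 else
      if v.1 = A then ((-1 / Real.pi) • (Q w * E21 * h)) v.2.1 v.2.2 else 0)
  have huw : ∀ z X : ℝ, (fun i => u i z + w i z * X) = pt (b - z) (Real.log (b - z) + t) (fun a =>
      if a < A then rho c a (b - z) * up (-t / Real.pi) else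
        if a = A then Q z * lw (-X / Real.pi) * h else x a) := by
    intro z X
    funext v
    rcases v with i | ⟨a, i, j⟩
    · fin_cases i <;> simp [u, w, pt]
    · simp only [u, w, pt, Sum.elim_inr]
      by_cases h1 : a < A
      · simp only [h1, if_true, zero_mul, add_zero]
      · by_cases h2 : a = A
        · simp only [h2, lt_irrefl, if_false, if_true, lw_eq (-X / Real.pi), mul_add, add_mul,
            mul_one, Matrix.add_apply, Matrix.mul_smul, Matrix.smul_mul, Matrix.smul_apply,
            smul_eq_mul]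
          ring
        · simp only [h1, h2, if_false, zero_mul, add_zero]
  have hsub : AnalyticAt ℝ (fun w : ℝ => b - w) 0 := analyticAt_const.fun_sub analyticAt_id
  have hu : ∀ i, AnalyticAt ℝ (u i) 0 := by
    rintro (i | ⟨a, i, j⟩)
    · fin_cases i
      · exact hsub
      · have h0 : AnalyticAt ℝ Real.log (b - 0) := analyticAt_log' (by simpa using hbpos)
        exact (h0.fun_comp hsub).fun_add analyticAt_const
    · simp only [u, Sum.elim_inr]
      by_cases h1 : a < A
      · simp only [h1, if_true]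
        apply mulan
        intro i j
        have hlt : ((a : ℝ) + c) * (b - 0) < 1 := by
          have : (a : ℝ) < A := by exact_mod_cast h1
          rw [sub_zero, hb, mul_one_div, div_lt_one (by positivity)]
          linarith
        have h0 := hR4 a i j (b - 0) (by simpa using hbpos) hlt
        exact h0.fun_comp hsub
      · by_cases h2 : a = A
        · simp only [h2, lt_irrefl, if_false, if_true]
          exact mulan _ _ _ hQa i j
        · simp only [h1, h2, if_false]
          exact analyticAt_const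
  have hw : ∀ i, AnalyticAt ℝ (w i) 0 := by
    rintro (i | ⟨a, i, j⟩)
    · exact analyticAt_const
    · simp only [w, Sum.elim_inr]
      by_cases h1 : a < A
      · simp only [h1, if_true]
        exact analyticAt_const
      · by_cases h2 : a = A
        · simp only [h2, lt_irrefl, if_false, if_true, Matrix.smul_apply, smul_eq_mul]
          exact analyticAt_const.fun_mul (mulan _ _ _ (mulan _ _ _ hQa) i j)
        · simp only [h1, h2, if_false]
          exact analyticAt_const
  have hz0 : ∀ᶠ z in 𝓝[>] (0 : ℝ), 0 < z ∧ z < b := Ioo_mem_nhdsGT hbpos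
  have hrel : ∀ᶠ z in 𝓝[>] (0 : ℝ),
      MvPolynomial.eval (fun i => u i z + w i z * Real.log z) P = 0 := by
    filter_upwards [hz0, hQ] with z hz hQz
    rw [huw, ← hP (b - z) (by linarith) (by linarith)]
    congr 2
    congr 1
    funext a
    simp only [mx]
    by_cases h1 : a < A
    · simp only [h1, if_true]
    · by_cases h2 : a = A
      · simp only [h2, lt_irrefl, if_false, if_true, hQz]
      · simp only [h1, h2, if_false]
  have := hL Var P u w hu hw hrel
  filter_upwards [this, hz0, hQ] with z h1 hz hQz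
  have h2 := h1 (Real.log z + -(Real.pi * s))
  rw [huw] at h2
  rw [← h2]
  congr 2
  congr 1
  funext a
  have hsplit : lw (-(Real.log z + -(Real.pi * s)) / Real.pi) = lw (-Real.log z / Real.pi) * lw s := by
    rw [← lw_add]; congr 1; field_simp; ring
  simp only [mx]
  by_cases h1 : a < A
  · simp only [h1, if_true]
  · by_cases h2 : a = A
    · simp only [h2, lt_irrefl, if_false, if_true, hQz, hsplit, mul_assoc]
    · simp only [h1, h2, if_false]

/-- the relation holds for `rho_A * h`, all `h` of determinant one -/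
theorem all_h (hR : T_RHO) (hL : T_LOGP) (c A : ℕ) (hc : 1 ≤ c)
    (x : ℕ → Matrix (Fin 2) (Fin 2) ℝ) (P : MvPolynomial Var ℝ)
    (hP : ∀ z, 0 < z → z < 1 / ((A : ℝ) + c) →
      MvPolynomial.eval (pt z (Real.log z + 0) (mx c A z 0 1 x)) P = 0) :
    ∀ h : Matrix (Fin 2) (Fin 2) ℝ, h.det = 1 → ∀ z, 0 < z → z < 1 / ((A : ℝ) + c) →
      MvPolynomial.eval (pt z (Real.log z + 0) (mx c A z 0 h x)) P = 0 := by
  -- left multiplication by `up τ * lw s * up (-τ)`
  have hconj : ∀ (τ s : ℝ) (h : Matrix (Fin 2) (Fin 2) ℝ),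
      (∀ z, 0 < z → z < 1 / ((A : ℝ) + c) →
        MvPolynomial.eval (pt z (Real.log z + 0) (mx c A z 0 h x)) P = 0) →
      (∀ z, 0 < z → z < 1 / ((A : ℝ) + c) →
        MvPolynomial.eval (pt z (Real.log z + 0) (mx c A z 0 (up τ * lw s * up (-τ) * h) x)) P
          = 0) := by
    intro τ s h hh
    have h1 := inv0 hR hL c A hc 0 (Real.pi * τ) h x P hh
    have h2 := invA hR hL c A hc (0 + Real.pi * τ) s _ x P h1
    have h3 := inv0 hR hL c A hc (0 + Real.pi * τ) (-(Real.pi * τ)) _ x P h2
    have e1 : 0 + Real.pi * τ + -(Real.pi * τ) = 0 := by ring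
    have e2 : -(Real.pi * τ) / Real.pi = -τ := by field_simp
    have e3 : -(-(Real.pi * τ)) / Real.pi = τ := by field_simp
    rw [e1, e2, e3] at h3
    simpa only [mul_assoc] using h3
  apply gen_sl2 {h | ∀ z, 0 < z → z < 1 / ((A : ℝ) + c) →
      MvPolynomial.eval (pt z (Real.log z + 0) (mx c A z 0 h x)) P = 0}
  · exact hP
  · intro s h hh
    have h1 := hconj 1 (-1) h hh
    have h2 := hconj 0 (-s) _ h1
    have h3 := hconj 1 1 _ h2
    have e := conj_eq (-s)
    rw [neg_neg] at e
    have e2 : up 1 * lw 1 * up (-1) * (up 0 * lw (-s) * up (-0) * (up 1 * lw (-1) * up (-1) * h)) =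
        up s * h := by
      rw [← e]; simp only [neg_zero, up_zero, one_mul, mul_one, mul_assoc]
    rw [e2] at h3
    exact h3
  · intro s h hh
    have h2 := hconj 0 s _ hh
    have e2 : up 0 * lw s * up (-0) * h = lw s * h := by
      simp only [neg_zero, up_zero, one_mul, mul_one]
    rw [e2] at h2
    exact h2

/-- the point used in the induction -/
noncomputable def mix (c A : ℕ) (z : ℝ) (x : ℕ → Matrix (Fin 2) (Fin 2) ℝ) (a : ℕ) :
    Matrix (Fin 2) (Fin 2) ℝ := if a < A then rho c a z else x a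

theorem induct (hR : T_RHO) (hL : T_LOGP) (c : ℕ) (hc : 1 ≤ c) (A : ℕ) :
    ∀ (P : MvPolynomial Var ℝ) (x : ℕ → Matrix (Fin 2) (Fin 2) ℝ),
    (∀ᶠ z in 𝓝[>] (0 : ℝ), MvPolynomial.eval (pt z (Real.log z) (mix c A z x)) P = 0) →
    ∀ (z l : ℝ) (y : ℕ → Matrix (Fin 2) (Fin 2) ℝ), (∀ a, (y a).det = -(Real.pi / 2)) →
      MvPolynomial.eval (pt z l (fun a => if a < A then y a else x a)) P = 0 := by
  induction A with
  | zero =>
    intro P x h z l y _
    have h1 : ∀ z : ℝ, mix c 0 z x = x := fun z => by funext a; simp [mix]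
    simp only [h1] at h
    let u : Var → ℝ → ℝ := Sum.elim (fun i z => ![z, 0] i) (fun v _ => x v.1 v.2.1 v.2.2)
    let w : Var → ℝ → ℝ := Sum.elim (fun i _ => ![0, 1] i) (fun _ _ => 0)
    have huw : ∀ z X : ℝ, (fun i => u i z + w i z * X) = pt z X x := by
      intro z X
      funext v
      rcases v with i | ⟨a, i, j⟩
      · fin_cases i <;> simp [u, w, pt]
      · simp [u, w, pt]
    have hu : ∀ i, AnalyticAt ℝ (u i) 0 := by
      rintro (i | ⟨a, i, j⟩)
      · fin_cases i
        · exact analyticAt_id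
        · exact analyticAt_const
      · exact analyticAt_const
    have hw : ∀ i, AnalyticAt ℝ (w i) 0 := by
      rintro (i | ⟨a, i, j⟩) <;> exact analyticAt_const
    have hrel : ∀ᶠ z in 𝓝[>] (0 : ℝ),
        MvPolynomial.eval (fun i => u i z + w i z * Real.log z) P = 0 := by
      filter_upwards [h] with z hz
      rw [huw]; exact hz
    have h2 := hL Var P u w hu hw hrel
    simp only [huw] at h2
    have h3 : ∀ z, AnalyticAt ℝ (fun z => MvPolynomial.eval (pt z l x) P) z := by
      intro z0
      apply analytic_eval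
      rintro (i | ⟨a, i, j⟩)
      · fin_cases i
        · exact analyticAt_id
        · exact analyticAt_const
      · exact analyticAt_const
    have h4 : ∀ᶠ z in 𝓝[>] (0 : ℝ), MvPolynomial.eval (pt z l x) P = 0 := by
      filter_upwards [h2] with z hz using hz l
    have h5 := ext_left (b := 1) one_pos (fun z _ _ => h3 z) h4
    have h6 : (fun z => MvPolynomial.eval (pt z l x) P) =ᶠ[𝓝 (1 / 2 : ℝ)] 0 := by
      have : Set.Ioo (0 : ℝ) 1 ∈ 𝓝 (1 / 2 : ℝ) := isOpen_Ioo.mem_nhds ⟨by norm_num, by norm_num⟩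
      filter_upwards [this] with z hz using h5 z hz.1 hz.2
    have h7 : AnalyticOnNhd ℝ (fun z => MvPolynomial.eval (pt z l x) P) Set.univ :=
      fun z _ => h3 z
    have := h7.eqOn_zero_of_preconnected_of_eventuallyEq_zero isPreconnected_univ
      (Set.mem_univ (1 / 2 : ℝ)) h6 (Set.mem_univ z)
    simpa using this
  | succ A ih =>
    intro P x h z l y hy
    obtain ⟨-, -, -, -, -, hR6⟩ := hR c hc
    have e1 : ∀ z : ℝ, mx c A z 0 1 x = mix c (A + 1) z x := by
      intro z
      funext a
      simp only [mx, mix]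
      by_cases h1 : a < A
      · simp [h1, Nat.lt_succ_of_lt h1, up_zero]
      · by_cases h2 : a = A
        · simp [h2]
        · have : ¬ a < A + 1 := by omega
          simp [h1, h2, this]
    have hP : ∀ z, 0 < z → z < 1 / ((A : ℝ) + c) →
        MvPolynomial.eval (pt z (Real.log z + 0) (mx c A z 0 1 x)) P = 0 := by
      apply ext_left (zA_pos c A hc) (fun z hz hz' => mx_analytic hR c A hc 0 1 x P z hz hz')
      filter_upwards [h] with z hz
      rw [e1, add_zero]; exact hz
    have hall := all_h hR hL c A hc x P hP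
    have h2 := ih P (Function.update x A (y A)) ?_ z l y hy
    · have e2 : (fun a => if a < A + 1 then y a else x a) =
          (fun a => if a < A then y a else Function.update x A (y A) a) := by
        funext a
        by_cases h1 : a < A
        · simp [h1, Nat.lt_succ_of_lt h1]
        · by_cases h2 : a = A
          · subst h2; simp
          · have : ¬ a < A + 1 := by omega
            simp [h1, h2, this]
      rw [e2]
      exact h2
    · have hz0 : ∀ᶠ z in 𝓝[>] (0 : ℝ), 0 < z ∧ z < 1 / ((A : ℝ) + c) :=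
        Ioo_mem_nhdsGT (zA_pos c A hc)
      filter_upwards [hz0] with z hz
      have hd := hR6 A z hz.1 (lt_zA hc le_rfl hz.1 hz.2)
      have hne : (rho c A z).det ≠ 0 := by
        rw [hd]; have := Real.pi_pos; intro h0; linarith
      have hunit : IsUnit (rho c A z).det := isUnit_iff_ne_zero.mpr hne
      have hdet : ((rho c A z)⁻¹ * y A).det = 1 := by
        rw [Matrix.det_mul, Matrix.det_nonsing_inv, hy A, hd, Ring.inverse_eq_inv']
        have := Real.pi_pos
        field_simp
      have h3 := hall _ hdet z hz.1 hz.2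
      rw [add_zero] at h3
      rw [← h3]
      congr 2
      congr 1
      funext a
      simp only [mix, mx]
      by_cases h1 : a < A
      · simp [h1, up_zero]
      · by_cases h2 : a = A
        · subst h2
          simp only [lt_irrefl, if_false, if_true, Function.update_self]
          rw [← mul_assoc, Matrix.mul_nonsing_inv _ hunit, one_mul]
        · simp [h1, h2]

end FI_

theorem p_FI (h1 : T_RHO) (h2 : T_LOGP) : T_FI := by
  intro c hc P h z l x hx
  classical
  -- a bound for the shifts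
  obtain ⟨A, hA⟩ : ∃ A : ℕ, ∀ v ∈ P.vars, ∀ a p, v = Sum.inr (a, p) → a < A := by
    refine ⟨P.vars.sup (fun v => Sum.elim (fun _ => 0) (fun q => q.1 + 1) v), ?_⟩
    intro v hv a p hvp
    have := Finset.le_sup (f := fun v : Var => Sum.elim (fun _ => 0) (fun q => q.1 + 1) v) hv
    subst hvp
    simpa using this
  have heq : ∀ (z l : ℝ) (M M' : ℕ → Matrix (Fin 2) (Fin 2) ℝ), (∀ a, a < A → M a = M' a) →
      MvPolynomial.eval (pt z l M) P = MvPolynomial.eval (pt z l M') P := by
    intro z l M M' hM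
    apply MvPolynomial.eval₂Hom_congr' rfl _ rfl
    intro v hv _
    rcases v with i | ⟨a, i, j⟩
    · rfl
    · have := hA _ hv a (i, j) rfl
      simp [pt, hM a this]
  have h3 := FI_.induct h1 h2 c hc A P x ?_ z l x hx
  · rw [← h3]
    apply heq
    intro a _; simp
  · filter_upwards [h] with z hz
    rw [← hz]
    apply heq
    intro a ha
    simp [FI_.mix, ha]

end Pool.Agent.LEG
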