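import Pool.Agent.LEG.Targets

set_option autoImplicit false

/-!
# Functional independence, formal version
-/

namespace Pool.Agent.LEG

open Finset
open scoped BigOperators Topology

namespace FIP_

/-- the inverse of the connecting matrix -/
noncomputable def RLi (c1 l : ℝ) : Matrix (Fin 2) (Fin 2) ℝ :=
  !![2 / Real.pi, 2 / Real.pi * (c1 - l / 2); 0, -1]

theorem RL_RLi (c1 l : ℝ) : RL c1 l * RLi c1 l = 1 := by
  have h : Real.pi ≠ 0 := Real.pi_ne_zero
  ext i j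
  fin_cases i <;> fin_cases j <;> simp [RL, RLi, Matrix.mul_apply, Fin.sum_univ_two]
  field_simp
  ring

/-- its entries as polynomials -/
noncomputable def Lp (c1 : ℝ) : Fin 2 → Fin 2 → MvPolynomial Var ℝ :=
  ![![MvPolynomial.C (2 / Real.pi), MvPolynomial.C (2 / Real.pi) *
      (MvPolynomial.C c1 - MvPolynomial.C (1 / 2) * MvPolynomial.X (Sum.inl 1))], ![0, -1]]

theorem eval_Lp (c1 z l : ℝ) (x : ℕ → Matrix (Fin 2) (Fin 2) ℝ) (i j : Fin 2) :
    MvPolynomial.eval (pt z l x) (Lp c1 i j) = RLi c1 l i j := by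
  fin_cases i <;> fin_cases j <;> simp [Lp, RLi, pt]
  ring

/-- the substituted variables -/
noncomputable def Y (A : ℕ) (c1 : ℝ) (v : Fin (A + 1) × Fin 2 × Fin 2) : MvPolynomial Var ℝ :=
  ∑ k, MvPolynomial.X (Sum.inr ((v.1 : ℕ), v.2.1, k)) * Lp c1 k v.2.2

theorem eval_Y (A : ℕ) (c1 z l : ℝ) (x : ℕ → Matrix (Fin 2) (Fin 2) ℝ)
    (v : Fin (A + 1) × Fin 2 × Fin 2) :
    MvPolynomial.eval (pt z l x) (Y A c1 v) = (x (v.1 : ℕ) * RLi c1 l) v.2.1 v.2.2 := by
  rw [Y, map_sum, Matrix.mul_apply]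
  refine Finset.sum_congr rfl fun k _ => ?_
  rw [map_mul, eval_Lp, MvPolynomial.eval_X]
  rfl

/-- coefficients -/
noncomputable def cz : Polynomial ℚ →+* MvPolynomial Var ℝ :=
  (Polynomial.aeval (MvPolynomial.X (Sum.inl 0) : MvPolynomial Var ℝ) :
    Polynomial ℚ →ₐ[ℚ] MvPolynomial Var ℝ).toRingHom

theorem eval_cz (z l : ℝ) (x : ℕ → Matrix (Fin 2) (Fin 2) ℝ) :
    (MvPolynomial.eval (pt z l x)).comp cz =
      (Polynomial.aeval z : Polynomial ℚ →ₐ[ℚ] ℝ).toRingHom := by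
  refine Polynomial.ringHom_ext (fun a => ?_) ?_
  · simp [cz]
  · simp [cz, pt]

theorem eval_PP (A : ℕ) (c1 z l : ℝ) (x : ℕ → Matrix (Fin 2) (Fin 2) ℝ)
    (P : MvPolynomial (Fin (A + 1) × Fin 2 × Fin 2) (Polynomial ℚ)) :
    MvPolynomial.eval (pt z l x) (MvPolynomial.eval₂ cz (Y A c1) P) =
      MvPolynomial.eval₂ (Polynomial.aeval z : Polynomial ℚ →ₐ[ℚ] ℝ).toRingHom
        (fun v => (x (v.1 : ℕ) * RLi c1 l) v.2.1 v.2.2) P := by
  rw [MvPolynomial.hom_eval₂, eval_cz]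
  congr 1
  funext v
  exact eval_Y A c1 z l x v

theorem ev_hom (hEVC : T_EVC) {σ : Type} (φ : σ → PowerSeries ℚ) (z : ℝ)
    (h : ∀ v, Conv (φ v) z) (P : MvPolynomial σ (Polynomial ℚ)) :
    Conv (MvPolynomial.eval₂ Polynomial.coeToPowerSeries.ringHom φ P) z ∧
    ev (MvPolynomial.eval₂ Polynomial.coeToPowerSeries.ringHom φ P) z =
      MvPolynomial.eval₂ (Polynomial.aeval z : Polynomial ℚ →ₐ[ℚ] ℝ).toRingHom
        (fun v => ev (φ v) z) P := by
  obtain ⟨h1, h2, -, -⟩ := hEVC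
  induction P using MvPolynomial.induction_on with
  | C p =>
    rw [MvPolynomial.eval₂_C, MvPolynomial.eval₂_C]
    exact h2 p z
  | add p q hp hq =>
    rw [MvPolynomial.eval₂_add, MvPolynomial.eval₂_add]
    obtain ⟨a1, a2, -, -⟩ := h1 _ _ z hp.1 hq.1
    exact ⟨a1, by rw [a2, hp.2, hq.2]⟩
  | mul_X p v hp =>
    rw [MvPolynomial.eval₂_mul, MvPolynomial.eval₂_mul, MvPolynomial.eval₂_X, MvPolynomial.eval₂_X]
    obtain ⟨-, -, a3, a4⟩ := h1 _ _ z hp.1 (h v)
    exact ⟨a3, by rw [a4, hp.2]⟩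

end FIP_

open FIP_ in
theorem p_FIP (hFI : T_FI) (hRHO : T_RHO) (hEVPHI : T_EVPHI) (hEVC : T_EVC) : T_FIP := by
  intro c A hc P hP z x hx
  obtain ⟨⟨c1, hc1⟩, -⟩ := hRHO c hc
  have key := hFI c hc (MvPolynomial.eval₂ cz (Y A c1) P) ?_
  · set x' : ℕ → Matrix (Fin 2) (Fin 2) ℝ := fun a =>
      if h : a < A + 1 then x ⟨a, h⟩ * RL c1 0 else RL c1 0 with hx'
    have hdet : ∀ a, (x' a).det = -(Real.pi / 2) := by
      intro a
      have hd : (RL c1 0).det = -(Real.pi / 2) := by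
        simp [RL, Matrix.det_fin_two]
      by_cases h : a < A + 1
      · simp only [hx', h, dif_pos, Matrix.det_mul, hx, hd, one_mul]
      · simp only [hx', h, dif_neg, not_false_eq_true, hd]
    have e := key (z : ℝ) 0 x' hdet
    rw [eval_PP] at e
    have e1 : (Polynomial.aeval (z : ℝ) : Polynomial ℚ →ₐ[ℚ] ℝ).toRingHom =
        (algebraMap ℚ ℝ).comp (Polynomial.evalRingHom z) := by
      refine Polynomial.ringHom_ext (fun a => ?_) ?_
      · simp
      · simp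
    rw [e1] at e
    rw [← e]
    congr 1
    funext v
    have h : (v.1 : ℕ) < A + 1 := v.1.2
    simp only [hx', h, dif_pos, Fin.eta, Matrix.mul_assoc, RL_RLi, Matrix.mul_one]
  · -- the relation holds for small positive numbers
    have hpos : (0 : ℝ) < 1 / ((A : ℝ) + c) := by
      have : (0 : ℝ) < c := by exact_mod_cast hc
      positivity
    have hev : ∀ᶠ t in 𝓝[>] (0 : ℝ), 0 < t ∧ t < 1 / ((A : ℝ) + c) := by
      have := Ioo_mem_nhdsGT hpos
      filter_upwards [this] with t ht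
      exact ht
    filter_upwards [hev] with t ht
    obtain ⟨ht0, ht1⟩ := ht
    have hAc : (0 : ℝ) < (A : ℝ) + c := by
      have : (0 : ℝ) < c := by exact_mod_cast hc
      positivity
    have hlt : ∀ a : Fin (A + 1), (((a : ℕ) : ℝ) + c) * t < 1 := by
      intro a
      have h1 : (((a : ℕ) : ℝ) + c) ≤ (A : ℝ) + c := by
        have : ((a : ℕ) : ℝ) ≤ A := by exact_mod_cast Nat.lt_succ_iff.mp a.2
        linarith
      have h2 : ((A : ℝ) + c) * t < 1 := by
        rw [lt_div_iff₀ hAc] at ht1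
        linarith
      nlinarith
    rw [eval_PP]
    have hconv : ∀ v : Fin (A + 1) × Fin 2 × Fin 2, Conv (phi c (v.1 : ℕ) v.2) t :=
      fun v => (hEVPHI c v.1 v.2 t ht0.le hc (hlt v.1)).1
    have h2 := (ev_hom hEVC (fun v : Fin (A + 1) × Fin 2 × Fin 2 => phi c (v.1 : ℕ) v.2) t
      hconv P).2
    rw [hP] at h2
    have h0 : ev 0 t = 0 := by simp [ev]
    rw [h0] at h2
    rw [h2]
    congr 1
    funext v
    rw [(hEVPHI c v.1 v.2 t ht0.le hc (hlt v.1)).2, hc1 _ t ht0 (hlt v.1), Matrix.mul_assoc,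
      RL_RLi, Matrix.mul_one]

end Pool.Agent.LEG
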