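import Pool.Agent.LEG.Targets

set_option autoImplicit false

/-!
# FORM: formal identities for the complete elliptic integrals
-/

namespace Pool.Agent.LEG

open Finset
open scoped BigOperators Topology

namespace FORM_

/-- the coefficients of `F0` -/
noncomputable def b (n : ℕ) : ℚ := ((Nat.centralBinom n : ℚ) / 4 ^ n) ^ 2

/-- the harmonic part of the coefficients of `H0` -/
noncomputable def sg (n : ℕ) : ℚ :=
  2 * ∑ j ∈ range n, (1 / (2 * (j : ℚ) + 1) - 1 / (2 * (j : ℚ) + 2))

theorem b_succ (n : ℕ) : b (n + 1) * (2 * ((n : ℚ) + 1)) ^ 2 = b n * (2 * (n : ℚ) + 1) ^ 2 := by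
  have h : ((n : ℚ) + 1) * (Nat.centralBinom (n + 1) : ℚ) =
      2 * (2 * (n : ℚ) + 1) * (Nat.centralBinom n : ℚ) := by
    exact_mod_cast Nat.succ_mul_centralBinom_succ n
  have h2 : (Nat.centralBinom (n + 1) : ℚ) / 4 ^ (n + 1) * (2 * ((n : ℚ) + 1)) =
      (Nat.centralBinom n : ℚ) / 4 ^ n * (2 * (n : ℚ) + 1) := by
    rw [pow_succ]
    field_simp
    linear_combination (2 : ℚ) * h
  unfold b
  rw [← mul_pow, ← mul_pow, h2]

theorem b_succ' (n : ℕ) : b n = b (n + 1) * (2 * ((n : ℚ) + 1)) ^ 2 / (2 * (n : ℚ) + 1) ^ 2 := by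
  rw [b_succ, mul_div_assoc, div_self (by positivity), mul_one]

theorem b_zero : b 0 = 1 := by simp [b]

theorem sg_zero : sg 0 = 0 := by simp [sg]

theorem sg_succ (n : ℕ) : sg n = sg (n + 1) - 1 / (((n : ℚ) + 1) * (2 * (n : ℚ) + 1)) := by
  unfold sg
  rw [Finset.sum_range_succ]
  field_simp
  ring

theorem coeff_F0 (n : ℕ) : PowerSeries.coeff n F0 = b n := by
  rw [F0, PowerSeries.coeff_mk, b]

theorem coeff_H0 (n : ℕ) : PowerSeries.coeff n H0 = b n * sg n := by
  rw [H0, PowerSeries.coeff_mk, b, sg]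

theorem cXd (f : PowerSeries ℚ) (n : ℕ) :
    PowerSeries.coeff n (PowerSeries.X * PowerSeries.derivative ℚ f) = n * PowerSeries.coeff n f := by
  cases n with
  | zero => simp
  | succ n =>
    rw [PowerSeries.coeff_succ_X_mul, PowerSeries.coeff_derivative]
    push_cast
    ring

theorem cX1 (f : PowerSeries ℚ) (n : ℕ) :
    PowerSeries.coeff (n + 1) ((1 - PowerSeries.X) * f) =
      PowerSeries.coeff (n + 1) f - PowerSeries.coeff n f := by
  rw [sub_mul, one_mul, map_sub, PowerSeries.coeff_succ_X_mul]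

theorem cX0 (f : PowerSeries ℚ) :
    PowerSeries.coeff 0 ((1 - PowerSeries.X) * f) = PowerSeries.coeff 0 f := by
  rw [sub_mul, one_mul, map_sub]
  simp

theorem c2 (f : PowerSeries ℚ) (n : ℕ) :
    PowerSeries.coeff n (2 * f) = 2 * PowerSeries.coeff n f := by
  rw [two_mul, map_add, two_mul]

theorem re1 (f : PowerSeries ℚ) :
    2 * PowerSeries.X * (1 - PowerSeries.X) * PowerSeries.derivative ℚ f =
      2 * ((1 - PowerSeries.X) * (PowerSeries.X * PowerSeries.derivative ℚ f)) := by ring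

theorem coeff_F2_zero : PowerSeries.coeff 0 F2 = 1 := by
  rw [F2, re1, map_add, c2, cX0, cX0, cXd, coeff_F0, b_zero]
  simp

theorem coeff_F2_succ (n : ℕ) : PowerSeries.coeff (n + 1) F2 = - b (n + 1) / (2 * (n : ℚ) + 1) := by
  rw [F2, re1, map_add, c2, cX1, cX1, cXd, cXd, coeff_F0, coeff_F0, b_succ' n]
  push_cast
  field_simp
  ring

theorem coeff_H2_zero : PowerSeries.coeff 0 H2 = 1 := by
  rw [H2, re1, map_add, map_add, c2, cX0, cX0, cX0, cXd, coeff_F0, coeff_H0, b_zero, sg_zero]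
  simp

theorem coeff_H2_succ (n : ℕ) : PowerSeries.coeff (n + 1) H2 =
    b (n + 1) * (- sg (n + 1) / (2 * (n : ℚ) + 1) + 1 / (2 * (n : ℚ) + 1) ^ 2) := by
  rw [H2, re1, map_add, map_add, c2, cX1, cX1, cX1, cXd, cXd, coeff_F0, coeff_F0, coeff_H0, coeff_H0,
    b_succ' n, sg_succ n]
  push_cast
  field_simp
  ring

theorem re2 (f : PowerSeries ℚ) :
    2 * PowerSeries.X * PowerSeries.derivative ℚ f =
      2 * (PowerSeries.X * PowerSeries.derivative ℚ f) := by ring

theorem form1 : 2 * PowerSeries.X * PowerSeries.derivative ℚ F2 = F2 - F0 := by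
  ext n
  rw [re2, c2, cXd, map_sub, coeff_F0]
  cases n with
  | zero => rw [coeff_F2_zero, b_zero]; simp
  | succ n =>
    rw [coeff_F2_succ]
    push_cast
    field_simp
    ring

theorem form2 : 2 * PowerSeries.X * PowerSeries.derivative ℚ H2 = H2 - H0 - F2 := by
  ext n
  rw [re2, c2, cXd, map_sub, map_sub, coeff_H0]
  cases n with
  | zero => rw [coeff_F2_zero, coeff_H2_zero, b_zero, sg_zero]; simp
  | succ n =>
    rw [coeff_F2_succ, coeff_H2_succ]
    push_cast
    field_simp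
    ring

theorem form3 : F0 * H2 - F2 * H0 = 1 := by
  have hX : (2 * PowerSeries.X * (1 - PowerSeries.X) : PowerSeries ℚ) ≠ 0 := by
    intro h
    have h1 := congrArg (PowerSeries.coeff 1) h
    have h2 : (2 * PowerSeries.X * (1 - PowerSeries.X) : PowerSeries ℚ) =
        2 * ((1 - PowerSeries.X) * PowerSeries.X) := by ring
    rw [h2, c2, cX1, PowerSeries.coeff_one_X] at h1
    simp at h1
  have hF : 2 * PowerSeries.X * (1 - PowerSeries.X) * PowerSeries.derivative ℚ F0 =
      F2 - (1 - PowerSeries.X) * F0 := by rw [F2]; ring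
  have hH : 2 * PowerSeries.X * (1 - PowerSeries.X) * PowerSeries.derivative ℚ H0 =
      H2 - (1 - PowerSeries.X) * H0 - (1 - PowerSeries.X) * F0 := by rw [H2]; ring
  have hd : PowerSeries.derivative ℚ (F0 * H2 - F2 * H0) = 0 := by
    have h0 : 2 * PowerSeries.X * (1 - PowerSeries.X) *
        PowerSeries.derivative ℚ (F0 * H2 - F2 * H0) = 0 := by
      rw [map_sub, Derivation.leibniz, Derivation.leibniz]
      simp only [smul_eq_mul]
      linear_combination H2 * hF - F2 * hH + (1 - PowerSeries.X) * F0 * form2 -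
        (1 - PowerSeries.X) * H0 * form1
    exact (mul_eq_zero.1 h0).resolve_left hX
  refine PowerSeries.derivative.ext ?_ ?_
  · rw [hd]
    simp
  · rw [map_sub, map_mul, map_mul]
    rw [← PowerSeries.coeff_zero_eq_constantCoeff_apply, ← PowerSeries.coeff_zero_eq_constantCoeff_apply,
      ← PowerSeries.coeff_zero_eq_constantCoeff_apply, ← PowerSeries.coeff_zero_eq_constantCoeff_apply,
      coeff_F0, coeff_H0, coeff_F2_zero, coeff_H2_zero, b_zero, sg_zero]
    simp

end FORM_

theorem p_FORM : T_FORM := ⟨FORM_.form1, FORM_.form2, FORM_.form3⟩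

end Pool.Agent.LEG
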