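import Pool.Agent.LEG.Targets

/-!
LEG-GALK: the Galochkin condition of a Kronecker sum.
-/

set_option autoImplicit false

namespace Pool.Agent.LEG

open Finset
open scoped BigOperators Topology

namespace GALK_

variable {ι κ : Type} [Fintype ι] [DecidableEq ι] [Fintype κ] [DecidableEq κ]

lemma kron_sum (A : ι → ι → Polynomial ℚ) (B : κ → κ → Polynomial ℚ) (a : ι → Polynomial ℚ)
    (b : κ → Polynomial ℚ) (p : ι × κ) :
    ∑ r : ι × κ, kron A B p r * (a r.1 * b r.2) =
      (∑ i, A p.1 i * a i) * b p.2 + a p.1 * ∑ j, B p.2 j * b j := by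
  simp only [kron, add_mul, Finset.sum_add_distrib, Fintype.sum_prod_type]
  congr 1
  · rw [Finset.sum_mul]
    refine Finset.sum_congr rfl fun i _ => ?_
    rw [Finset.sum_eq_single p.2]
    · simp [mul_assoc]
    · intro j _ hj
      rw [if_neg (fun h => hj h.symm), zero_mul]
    · simp
  · rw [Finset.sum_eq_single p.1]
    · rw [Finset.mul_sum]
      refine Finset.sum_congr rfl fun j _ => ?_
      rw [if_pos rfl]; ring
    · intro i _ hi
      refine Finset.sum_eq_zero fun j _ => ?_
      rw [if_neg (fun h => hi h.symm), zero_mul]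
    · simp

lemma BB_zero (T : Polynomial ℚ) (A : ι → ι → Polynomial ℚ) (i j : ι) :
    BB T A 0 i j = if i = j then 1 else 0 := rfl

lemma BB_succ (T : Polynomial ℚ) (A : ι → ι → Polynomial ℚ) (k : ℕ) (i j : ι) :
    BB T A (k + 1) i j = T * Polynomial.derivative (BB T A k i j) -
      (k : Polynomial ℚ) * Polynomial.derivative T * BB T A k i j - ∑ l, A i l * BB T A k l j := rfl

lemma BB_kron (T : Polynomial ℚ) (A : ι → ι → Polynomial ℚ) (B : κ → κ → Polynomial ℚ) (k : ℕ) :
    ∀ p q : ι × κ, BB T (kron A B) k p q = ∑ ij ∈ antidiagonal k,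
      (k.choose ij.1 : Polynomial ℚ) * (BB T A ij.1 p.1 q.1 * BB T B ij.2 p.2 q.2) := by
  induction k with
  | zero =>
    intro p q
    simp only [Finset.Nat.antidiagonal_zero, Finset.sum_singleton, Nat.choose_self, Nat.cast_one,
      one_mul, BB_zero]
    by_cases h1 : p.1 = q.1
    · by_cases h2 : p.2 = q.2
      · rw [if_pos (Prod.ext h1 h2), if_pos h1, if_pos h2, one_mul]
      · rw [if_neg (fun h => h2 (by rw [h])), if_neg h2, mul_zero]
    · rw [if_neg (fun h => h1 (by rw [h])), if_neg h1, zero_mul]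
  | succ k ih =>
    intro p q
    rw [Finset.sum_antidiagonal_choose_succ_mul
      (fun i j => BB T A i p.1 q.1 * BB T B j p.2 q.2) k, BB_succ]
    have e1 : ∀ r, kron A B p r * BB T (kron A B) k r q = ∑ ij ∈ antidiagonal k,
        (k.choose ij.1 : Polynomial ℚ) * (kron A B p r *
          (BB T A ij.1 r.1 q.1 * BB T B ij.2 r.2 q.2)) := by
      intro r
      rw [ih r q, Finset.mul_sum]
      refine Finset.sum_congr rfl fun ij _ => ?_
      ring
    rw [Finset.sum_congr rfl fun r _ => e1 r, Finset.sum_comm, ih p q, Polynomial.derivative_sum,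
      Finset.mul_sum, Finset.mul_sum, ← Finset.sum_sub_distrib, ← Finset.sum_sub_distrib,
      ← Finset.sum_add_distrib]
    refine Finset.sum_congr rfl fun ij hij => ?_
    rw [Finset.HasAntidiagonal.mem_antidiagonal] at hij
    have hc : k.choose ij.2 = k.choose ij.1 := by
      rw [← hij]; exact (Nat.choose_symm_add).symm
    rw [← Finset.mul_sum, kron_sum A B (fun i => BB T A ij.1 i q.1) (fun j => BB T B ij.2 j q.2) p,
      hc, Polynomial.derivative_mul, Polynomial.derivative_natCast, Polynomial.derivative_mul,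
      BB_succ, BB_succ, ← hij]
    push_cast
    ring

end GALK_

open GALK_

theorem p_GALK : T_GALK := by
  intro ι κ _ _ _ _ T A B hA hB
  obtain ⟨C1, h1⟩ := hA
  obtain ⟨C2, h2⟩ := hB
  refine ⟨C1 * C2, fun n => ?_⟩
  obtain ⟨d1, p1, b1, g1⟩ := h1 n
  obtain ⟨d2, p2, b2, g2⟩ := h2 n
  refine ⟨d1 * d2, Nat.mul_pos p1 p2, ?_, ?_⟩
  · rw [mul_pow]; exact Nat.mul_le_mul b1 b2
  intro k hk p q s
  rw [BB_kron, Polynomial.finsetSum_coeff, Finset.sum_div, Finset.mul_sum]
  have key : ∀ ij ∈ antidiagonal k, ∃ x : ℤ, (((d1 * d2 : ℕ) : ℚ)) *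
      (((k.choose ij.1 : Polynomial ℚ) * (BB T A ij.1 p.1 q.1 * BB T B ij.2 p.2 q.2)).coeff s /
        (k.factorial : ℚ)) = x := by
    intro ij hij
    rw [Finset.HasAntidiagonal.mem_antidiagonal] at hij
    have hf : (k.factorial : ℚ) = (k.choose ij.1 : ℚ) * (ij.1.factorial * ij.2.factorial) := by
      rw [← hij, ← Nat.add_choose_mul_factorial_mul_factorial ij.1 ij.2, Nat.choose_symm_add]
      push_cast; ring
    have hc : (k.choose ij.1 : ℚ) ≠ 0 := by
      have : 0 < k.choose ij.1 := Nat.choose_pos (by omega)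
      positivity
    have f1 : (ij.1.factorial : ℚ) ≠ 0 := by positivity
    have f2 : (ij.2.factorial : ℚ) ≠ 0 := by positivity
    rw [← Polynomial.C_eq_natCast, Polynomial.coeff_C_mul, Polynomial.coeff_mul, hf]
    have e : (((d1 * d2 : ℕ) : ℚ)) * (((k.choose ij.1 : ℕ) : ℚ) *
        (∑ x ∈ antidiagonal s, (BB T A ij.1 p.1 q.1).coeff x.1 * (BB T B ij.2 p.2 q.2).coeff x.2) /
        ((k.choose ij.1 : ℚ) * (ij.1.factorial * ij.2.factorial))) =
        ∑ x ∈ antidiagonal s, ((d1 : ℚ) * ((BB T A ij.1 p.1 q.1).coeff x.1 / ij.1.factorial)) *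
          ((d2 : ℚ) * ((BB T B ij.2 p.2 q.2).coeff x.2 / ij.2.factorial)) := by
      rw [mul_div_mul_left _ _ hc, Finset.sum_div, Finset.mul_sum]
      refine Finset.sum_congr rfl fun x _ => ?_
      push_cast
      field_simp
    rw [e]
    choose u hu using fun x : ℕ × ℕ => g1 ij.1 (by omega) p.1 q.1 x.1
    choose v hv using fun x : ℕ × ℕ => g2 ij.2 (by omega) p.2 q.2 x.2
    refine ⟨∑ x ∈ antidiagonal s, u x * v x, ?_⟩
    push_cast
    exact Finset.sum_congr rfl fun x _ => by rw [hu, hv]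
  choose! w hw using key
  refine ⟨∑ ij ∈ antidiagonal k, w ij, ?_⟩
  push_cast
  exact Finset.sum_congr rfl fun x hx => by
    have := hw x hx
    push_cast at this
    exact this

end Pool.Agent.LEG
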