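import Pool.Agent.LEG.Targets
import Pool.Agent.KBD.ZE

set_option autoImplicit false

/-!
# Galochkin condition for the unipotent part
-/

namespace Pool.Agent.LEG.GALU_

open Finset
open scoped BigOperators

/-- the polynomial `UA` with integer coefficients -/
noncomputable def UZ (A' : ℕ) : Polynomial ℤ :=
  ∏ b ∈ range (A' + 1), (1 - Polynomial.C (b : ℤ) * Polynomial.X)

theorem UA_eq (A' : ℕ) : UA A' = (UZ A').map (Int.castRingHom ℚ) := by
  unfold UA UZ
  rw [Polynomial.map_prod]
  apply Finset.prod_congr rfl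
  intro b _
  simp

theorem formula (A' : ℕ) (k : ℕ) :
    BB (TA A') (NU A') (k + 1) 1 0 =
      Polynomial.C ((-1) ^ k * (k.factorial : ℚ) * 2 ^ k) * UA A' ^ (k + 1) ∧
    BB (TA A') (NU A') (k + 1) 0 0 = 0 ∧ BB (TA A') (NU A') (k + 1) 0 1 = 0 ∧
    BB (TA A') (NU A') (k + 1) 1 1 = 0 := by
  induction k with
  | zero =>
    refine ⟨?_, ?_, ?_, ?_⟩ <;> simp [BB, NU]
  | succ k ih =>
    obtain ⟨h1, h2, h3, h4⟩ := ih
    have hrec : ∀ i j, BB (TA A') (NU A') (k + 1 + 1) i j =
        TA A' * Polynomial.derivative (BB (TA A') (NU A') (k + 1) i j) -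
        ((k + 1 : ℕ) : Polynomial ℚ) * Polynomial.derivative (TA A') *
          BB (TA A') (NU A') (k + 1) i j - ∑ l, NU A' i l * BB (TA A') (NU A') (k + 1) l j :=
      fun i j => rfl
    refine ⟨?_, ?_, ?_, ?_⟩
    · rw [hrec, Fin.sum_univ_two, h1, h2]
      simp only [NU, TA]
      have hd : Polynomial.derivative (UA A' ^ (k + 1)) =
          ((k + 1 : ℕ) : Polynomial ℚ) * UA A' ^ k * Polynomial.derivative (UA A') := by
        rw [Polynomial.derivative_pow]
        simp
      simp only [Matrix.cons_val_zero, Matrix.cons_val_one, Matrix.cons_val', Polynomial.derivative_mul,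
        Polynomial.derivative_C, Polynomial.derivative_X, hd, Polynomial.derivative_ofNat]
      have hC : Polynomial.C ((-1) ^ (k + 1) * ((k + 1).factorial : ℚ) * 2 ^ (k + 1)) =
          -2 * ((k + 1 : ℕ) : Polynomial ℚ) *
            Polynomial.C ((-1) ^ k * (k.factorial : ℚ) * 2 ^ k) := by
        rw [Nat.factorial_succ]
        simp only [map_mul, map_pow, map_neg, map_one, map_natCast, map_ofNat]
        push_cast
        ring
      rw [hC]
      ring
    · rw [hrec, Fin.sum_univ_two, h2]
      simp [NU]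
    · rw [hrec, Fin.sum_univ_two, h3]
      simp [NU]
    · rw [hrec, Fin.sum_univ_two, h3, h4]
      simp [NU]

end Pool.Agent.LEG.GALU_

namespace Pool.Agent.LEG

open GALU_ Finset

theorem p_GALU : T_GALU := by
  intro A'
  refine ⟨220, fun n => ⟨Nat.lcmUpto n, Nat.lcmUpto_pos n, ?_, ?_⟩⟩
  · exact (KBD.p_LCM n).trans (Nat.pow_le_pow_right (by norm_num) (Nat.le_succ n))
  · intro k hk i j s
    rcases Nat.eq_zero_or_pos k with h0 | h0
    · subst h0
      refine ⟨(Nat.lcmUpto n : ℤ) * (if i = j then (1 : Polynomial ℤ) else 0).coeff s, ?_⟩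
      simp only [BB]
      split_ifs with h
      · simp [Polynomial.coeff_one]
      · simp
    · obtain ⟨l, rfl⟩ : ∃ l, k = l + 1 := ⟨k - 1, by omega⟩
      obtain ⟨h1, h2, h3, h4⟩ := formula A' l
      have hz : ∀ i j, (i, j) ≠ ((1 : Fin 2), (0 : Fin 2)) →
          BB (TA A') (NU A') (l + 1) i j = 0 := by
        intro i j hij
        fin_cases i <;> fin_cases j
        · exact h2
        · exact h3
        · exact absurd rfl hij
        · exact h4
      by_cases hij : (i, j) = ((1 : Fin 2), (0 : Fin 2))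
      · rw [Prod.mk.injEq] at hij
        obtain ⟨rfl, rfl⟩ := hij
        have hdvd : (l + 1) ∣ Nat.lcmUpto n := by
          unfold Nat.lcmUpto
          exact Finset.dvd_lcm (f := id) (Finset.mem_Icc.2 ⟨by omega, hk⟩)
        obtain ⟨q, hq⟩ := hdvd
        refine ⟨(q : ℤ) * ((-1) ^ l * 2 ^ l * ((UZ A') ^ (l + 1)).coeff s), ?_⟩
        rw [h1, Polynomial.coeff_C_mul, UA_eq, ← Polynomial.map_pow, Polynomial.coeff_map, hq,
          Nat.factorial_succ]
        have hf : ((l.factorial : ℕ) : ℚ) ≠ 0 := by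
          exact_mod_cast Nat.factorial_ne_zero l
        have hl : ((l : ℚ) + 1) ≠ 0 := by positivity
        push_cast
        simp only [eq_intCast]
        field_simp
      · refine ⟨0, ?_⟩
        rw [hz i j hij]
        simp

end Pool.Agent.LEG
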