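import Pool.Agent.LEG.Targets
import Pool.Agent.KBD.ZE

set_option autoImplicit false

/-!
# LEG-GALV: the Galochkin condition for the Legendre system
-/

namespace Pool.Agent.LEG

open Finset
open scoped BigOperators

namespace GALV_

theorem BB_succ {ι : Type} [Fintype ι] [DecidableEq ι] (T : Polynomial ℚ)
    (A : ι → ι → Polynomial ℚ) (k : ℕ) (i j : ι) :
    BB T A (k + 1) i j = T * Polynomial.derivative (BB T A k i j) -
      (k : Polynomial ℚ) * Polynomial.derivative T * BB T A k i j -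
      ∑ l, A i l * BB T A k l j := rfl

theorem sub_deg {p q : Polynomial ℚ} {n : ℕ} (hp : p.natDegree ≤ n) (hq : q.natDegree ≤ n) :
    (p - q).natDegree ≤ n := (Polynomial.natDegree_sub_le p q).trans (max_le hp hq)

theorem deg_le {ι : Type} [Fintype ι] [DecidableEq ι] (T : Polynomial ℚ)
    (A : ι → ι → Polynomial ℚ) (ρ : ℕ) (hT : T.natDegree ≤ ρ) (hA : ∀ i j, (A i j).natDegree ≤ ρ) :
    ∀ k i j, (BB T A k i j).natDegree ≤ k * ρ := by
  intro k
  induction k with
  | zero =>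
    intro i j
    unfold BB
    split_ifs <;> simp
  | succ k ih =>
    intro i j
    have e : (k + 1) * ρ = ρ + k * ρ := by ring
    rw [e, BB_succ]
    refine sub_deg ?_ ?_
    · refine sub_deg ?_ ?_
      · exact Polynomial.natDegree_mul_le_of_le hT
          ((Polynomial.natDegree_derivative_le (BB T A k i j)).trans
            ((Nat.sub_le _ _).trans (ih i j)))
      · refine Polynomial.natDegree_mul_le_of_le ?_ (ih i j)
        have h0 : (k : Polynomial ℚ).natDegree ≤ 0 := by simp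
        have := Polynomial.natDegree_mul_le_of_le h0
          ((Polynomial.natDegree_derivative_le T).trans ((Nat.sub_le _ _).trans hT))
        simpa using this
    · refine Polynomial.natDegree_sum_le_of_forall_le _ _ fun l _ => ?_
      exact Polynomial.natDegree_mul_le_of_le (hA i l) (ih l j)

/-- descending factorial -/
noncomputable def rho (s : ℕ) : ℕ → ℚ
  | 0 => 1
  | (k + 1) => ((s : ℚ) - k) * rho s k

/-- the nilpotent part -/
noncomputable def tau (s : ℕ) : ℕ → ℚ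
  | 0 => 0
  | (k + 1) => ((s : ℚ) - k) * tau s k - 1 / 2 * rho s k

theorem choose_step (s k : ℕ) :
    ((k : ℚ) + 1) * (s.choose (k + 1) : ℚ) = ((s : ℚ) - k) * (s.choose k : ℚ) := by
  rcases lt_or_ge s k with h | h
  · rw [Nat.choose_eq_zero_of_lt h, Nat.choose_eq_zero_of_lt (by omega : s < k + 1)]
    simp
  · have := Nat.choose_succ_right_eq s k
    have h2 : ((s.choose (k + 1) * (k + 1) : ℕ) : ℚ) = ((s.choose k * (s - k) : ℕ) : ℚ) := by
      rw [this]
    push_cast [Nat.cast_sub h] at h2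
    linarith

theorem rho_eq (s : ℕ) : ∀ k, rho s k = (k.factorial : ℚ) * (s.choose k : ℚ) := by
  intro k
  induction k with
  | zero => simp [rho]
  | succ k ih =>
    rw [rho, ih, Nat.factorial_succ]
    have := choose_step s k
    push_cast
    linear_combination (-(k.factorial : ℚ)) * this

/-- closed form of `tau / k!` -/
noncomputable def gg (s k : ℕ) : ℚ :=
  ∑ c ∈ range k, (-1) ^ (c + 1) / (2 * ((c : ℚ) + 1)) * (s.choose (k - 1 - c) : ℚ)

theorem gg_succ (s k : ℕ) :
    ((k : ℚ) + 1) * gg s (k + 1) = ((s : ℚ) - k) * gg s k - 1 / 2 * (s.choose k : ℚ) := by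
  have tele : ∑ c ∈ range k, ((-1 : ℚ) ^ (c + 1) * (s.choose (k - (c + 1)) : ℚ) -
      (-1) ^ c * (s.choose (k - c) : ℚ)) = (-1) ^ k - (s.choose k : ℚ) := by
    rw [Finset.sum_range_sub (fun c => (-1 : ℚ) ^ c * (s.choose (k - c) : ℚ))]
    simp
  have h1 : ((s : ℚ) - k) * gg s k = ∑ c ∈ range k,
      (((k : ℚ) + 1) * ((-1) ^ (c + 1) / (2 * ((c : ℚ) + 1)) * (s.choose (k - c) : ℚ)) +
        1 / 2 * ((-1 : ℚ) ^ (c + 1) * (s.choose (k - (c + 1)) : ℚ) -
          (-1) ^ c * (s.choose (k - c) : ℚ)) * (-1)) := by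
    unfold gg
    rw [Finset.mul_sum]
    refine Finset.sum_congr rfl fun c hc => ?_
    have hc' : c < k := Finset.mem_range.1 hc
    have e := choose_step s (k - 1 - c)
    have e1 : k - 1 - c + 1 = k - c := by omega
    have e2 : k - (c + 1) = k - 1 - c := by omega
    have e3 : ((k - 1 - c : ℕ) : ℚ) = (k : ℚ) - 1 - c := by
      have : k - 1 - c + (c + 1) = k := by omega
      have h := congrArg (fun n : ℕ => (n : ℚ)) this
      push_cast at h
      linarith
    rw [e1, e3] at e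
    rw [e2]
    have hc1 : ((c : ℚ) + 1) ≠ 0 := by positivity
    have h : (-1 : ℚ) ^ c / (2 * ((c : ℚ) + 1)) * ((c : ℚ) + 1) = (-1) ^ c / 2 := by
      field_simp
    have h3 : (-1 : ℚ) ^ (c + 1) / (2 * ((c : ℚ) + 1)) = -((-1 : ℚ) ^ c / (2 * ((c : ℚ) + 1))) := by
      rw [pow_succ]
      ring
    rw [h3, pow_succ]
    linear_combination ((-1 : ℚ) ^ c / (2 * ((c : ℚ) + 1))) * e +
      ((s.choose (k - c) : ℚ) + (s.choose (k - 1 - c) : ℚ)) * h
  rw [h1, Finset.sum_add_distrib, ← Finset.sum_mul, ← Finset.mul_sum, ← Finset.mul_sum, tele]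
  unfold gg
  rw [Finset.sum_range_succ]
  have e4 : ∀ c, k + 1 - 1 - c = k - c := fun c => by omega
  simp only [e4, Nat.sub_self, Nat.choose_zero_right]
  have hk1 : ((k : ℚ) + 1) ≠ 0 := by positivity
  rw [mul_add]
  have e5 : ((k : ℚ) + 1) * ((-1) ^ (k + 1) / (2 * ((k : ℚ) + 1)) * ((1 : ℕ) : ℚ)) =
      (-1) ^ (k + 1) / 2 := by
    field_simp
    simp
  rw [e5, pow_succ]
  ring

theorem tau_eq (s : ℕ) : ∀ k, tau s k = (k.factorial : ℚ) * gg s k := by
  intro k
  induction k with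
  | zero => simp [tau, gg]
  | succ k ih =>
    rw [tau, ih, rho_eq, Nat.factorial_succ]
    have := gg_succ s k
    push_cast
    linear_combination (-(k.factorial : ℚ)) * this

theorem dvd_lcm {c n : ℕ} (h1 : 1 ≤ c) (h2 : c ≤ n) : c ∣ Nat.lcmUpto n :=
  Finset.dvd_lcm (f := id) (Finset.mem_Icc.2 ⟨h1, h2⟩)

theorem gg_den (s k n : ℕ) (h : k ≤ n) : ∃ x : ℤ, ((2 * Nat.lcmUpto n : ℕ) : ℚ) * gg s k = x := by
  have : ∀ c ∈ range k, ∃ x : ℤ, ((2 * Nat.lcmUpto n : ℕ) : ℚ) *
      ((-1) ^ (c + 1) / (2 * ((c : ℚ) + 1)) * (s.choose (k - 1 - c) : ℚ)) = x := by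
    intro c hc
    have hc' : c < k := Finset.mem_range.1 hc
    obtain ⟨q, hq⟩ := dvd_lcm (c := c + 1) (n := n) (by omega) (by omega)
    refine ⟨(-1) ^ (c + 1) * q * s.choose (k - 1 - c), ?_⟩
    rw [hq]
    have hc1 : ((c : ℚ) + 1) ≠ 0 := by positivity
    push_cast
    field_simp
  choose! x hx using this
  refine ⟨∑ c ∈ range k, x c, ?_⟩
  unfold gg
  rw [Finset.mul_sum, Int.cast_sum]
  exact Finset.sum_congr rfl hx

/-! ### denominators -/

/-- `d` is a denominator of the coefficients up to `N` -/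
def Den (d N : ℕ) (f : PowerSeries ℚ) : Prop :=
  ∀ s, s ≤ N → ∃ x : ℤ, (d : ℚ) * PowerSeries.coeff s f = x

theorem Den.add {d N : ℕ} {f g : PowerSeries ℚ} (hf : Den d N f) (hg : Den d N g) :
    Den d N (f + g) := by
  intro s hs
  obtain ⟨x, hx⟩ := hf s hs
  obtain ⟨y, hy⟩ := hg s hs
  exact ⟨x + y, by rw [map_add, mul_add, hx, hy]; push_cast; rfl⟩

theorem Den.neg {d N : ℕ} {f : PowerSeries ℚ} (hf : Den d N f) : Den d N (-f) := by
  intro s hs
  obtain ⟨x, hx⟩ := hf s hs
  exact ⟨-x, by rw [map_neg, mul_neg, hx]; push_cast; rfl⟩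

theorem Den.mul {d e N : ℕ} {f g : PowerSeries ℚ} (hf : Den d N f) (hg : Den e N g) :
    Den (d * e) N (f * g) := by
  intro s hs
  have : ∀ p ∈ antidiagonal s, ∃ x : ℤ, ((d * e : ℕ) : ℚ) *
      (PowerSeries.coeff p.1 f * PowerSeries.coeff p.2 g) = x := by
    intro p hp
    rw [Finset.HasAntidiagonal.mem_antidiagonal] at hp
    obtain ⟨x, hx⟩ := hf p.1 (by omega)
    obtain ⟨y, hy⟩ := hg p.2 (by omega)
    exact ⟨x * y, by push_cast; rw [← hx, ← hy]; ring⟩
  choose! x hx using this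
  refine ⟨∑ p ∈ antidiagonal s, x p, ?_⟩
  rw [PowerSeries.coeff_mul, Finset.mul_sum, Int.cast_sum]
  exact Finset.sum_congr rfl hx

theorem Den.pow {N : ℕ} {f : PowerSeries ℚ} (hf : Den 1 N f) (k : ℕ) : Den 1 N (f ^ k) := by
  induction k with
  | zero =>
    intro s _
    rw [pow_zero, PowerSeries.coeff_one]
    split_ifs
    · exact ⟨1, by simp⟩
    · exact ⟨0, by simp⟩
  | succ k ih =>
    rw [pow_succ]
    have := ih.mul hf
    simpa using this

theorem Den.mono {d e N : ℕ} {f : PowerSeries ℚ} (hf : Den d N f) (h : d ∣ e) : Den e N f := by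
  obtain ⟨q, rfl⟩ := h
  intro s hs
  obtain ⟨x, hx⟩ := hf s hs
  exact ⟨q * x, by push_cast; rw [← hx]; ring⟩

theorem common {κ : Type} [Fintype κ] (f : κ → PowerSeries ℚ) (h : ∀ p, IsG (f p)) :
    ∃ C : ℕ, ∀ n : ℕ, ∃ d : ℕ, 0 < d ∧ d ≤ C ^ (n + 1) ∧ ∀ p, Den d n (f p) := by
  choose C hC using h
  refine ⟨∏ p, C p, fun n => ?_⟩
  choose d hd using fun p => (hC p n).2
  refine ⟨∏ p, d p, Finset.prod_pos fun p _ => (hd p).1, ?_, fun p => ?_⟩
  · rw [← Finset.prod_pow]
    exact Finset.prod_le_prod' fun p _ => (hd p).2.1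
  · refine Den.mono (d := d p) ?_ (Finset.dvd_prod_of_mem _ (Finset.mem_univ p))
    exact fun s hs => (hd p).2.2 s hs

/-! ### the gauge -/

/-- the vectors -/
noncomputable def SS (w0 w1 : PowerSeries ℚ) (k : ℕ) : PowerSeries ℚ :=
  PowerSeries.mk fun s => rho s k * PowerSeries.coeff s w0 + tau s k * PowerSeries.coeff s w1

/-- the second component -/
noncomputable def S1 (w1 : PowerSeries ℚ) (k : ℕ) : PowerSeries ℚ :=
  PowerSeries.mk fun s => rho s k * PowerSeries.coeff s w1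

theorem coeff_X_der (f : PowerSeries ℚ) (s : ℕ) :
    PowerSeries.coeff s (PowerSeries.X * PowerSeries.derivative ℚ f) =
      (s : ℚ) * PowerSeries.coeff s f := by
  cases s with
  | zero => simp
  | succ s =>
    rw [mul_comm, PowerSeries.coeff_succ_mul_X, PowerSeries.coeff_derivative]
    push_cast
    ring

theorem S1_der (w1 : PowerSeries ℚ) (k : ℕ) :
    PowerSeries.X * PowerSeries.derivative ℚ (S1 w1 k) =
      (k : PowerSeries ℚ) * S1 w1 k + S1 w1 (k + 1) := by
  ext s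
  have e : (k : PowerSeries ℚ) = PowerSeries.C (k : ℚ) := by simp
  rw [coeff_X_der, map_add, e, PowerSeries.coeff_C_mul]
  simp only [S1, PowerSeries.coeff_mk, rho]
  ring

theorem SS_der (w0 w1 : PowerSeries ℚ) (k : ℕ) :
    2 * (PowerSeries.X * PowerSeries.derivative ℚ (SS w0 w1 k)) =
      2 * ((k : PowerSeries ℚ) * SS w0 w1 k) + S1 w1 k + 2 * SS w0 w1 (k + 1) := by
  ext s
  have e : (k : PowerSeries ℚ) = PowerSeries.C (k : ℚ) := by simp
  have e2 : (2 : PowerSeries ℚ) = PowerSeries.C (2 : ℚ) := (map_ofNat PowerSeries.C 2).symm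
  rw [map_add, map_add, e2, PowerSeries.coeff_C_mul, PowerSeries.coeff_C_mul,
    PowerSeries.coeff_C_mul, coeff_X_der, e, PowerSeries.coeff_C_mul]
  simp only [SS, S1, PowerSeries.coeff_mk, rho, tau]
  ring

theorem main_formula (T U : Polynomial ℚ) (A : Fin 2 → Fin 2 → Polynomial ℚ)
    (Φ : Fin 2 × Fin 2 → PowerSeries ℚ) (hT : T = 2 * Polynomial.X * U)
    (h0 : ∀ i, (T : PowerSeries ℚ) * PowerSeries.derivative ℚ (Φ (i, 0)) =
      (A i 0 : PowerSeries ℚ) * Φ (0, 0) + (A i 1 : PowerSeries ℚ) * Φ (1, 0))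
    (h1 : ∀ i, (T : PowerSeries ℚ) * PowerSeries.derivative ℚ (Φ (i, 1)) =
      (A i 0 : PowerSeries ℚ) * Φ (0, 1) + (A i 1 : PowerSeries ℚ) * Φ (1, 1) -
        (U : PowerSeries ℚ) * Φ (i, 0))
    (j : Fin 2) (w0 w1 : PowerSeries ℚ)
    (hw : ∀ i, (((if i = j then 1 else 0 : Polynomial ℚ)) : PowerSeries ℚ) =
      Φ (i, 0) * w0 + Φ (i, 1) * w1) :
    ∀ k i, (BB T A k i j : PowerSeries ℚ) =
      (2 * (U : PowerSeries ℚ)) ^ k * (Φ (i, 0) * SS w0 w1 k + Φ (i, 1) * S1 w1 k) := by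
  have hTc : (T : PowerSeries ℚ) = 2 * PowerSeries.X * (U : PowerSeries ℚ) := by
    rw [hT]
    have : ((2 : Polynomial ℚ) : PowerSeries ℚ) = 2 := by
      have e1 : (2 : Polynomial ℚ) = Polynomial.C (2 : ℚ) := (map_ofNat Polynomial.C 2).symm
      have e2 : (2 : PowerSeries ℚ) = PowerSeries.C (2 : ℚ) := (map_ofNat PowerSeries.C 2).symm
      rw [e1, e2, Polynomial.coe_C]
    rw [Polynomial.coe_mul, Polynomial.coe_mul, Polynomial.coe_X, this]
  have hdT : ((Polynomial.derivative T : Polynomial ℚ) : PowerSeries ℚ) =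
      2 * (U : PowerSeries ℚ) +
        2 * PowerSeries.X * PowerSeries.derivative ℚ (U : PowerSeries ℚ) := by
    rw [← PowerSeries.derivative_coe, hTc]
    have h2 : PowerSeries.derivative ℚ (2 : PowerSeries ℚ) = 0 := by
      have e2 : (2 : PowerSeries ℚ) = PowerSeries.C (2 : ℚ) := (map_ofNat PowerSeries.C 2).symm
      rw [e2]
      exact PowerSeries.derivative_C
    rw [Derivation.leibniz, Derivation.leibniz, h2, PowerSeries.derivative_X]
    simp only [smul_eq_mul]
    ring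
  have hpow : ∀ k : ℕ, (T : PowerSeries ℚ) *
      PowerSeries.derivative ℚ ((2 * (U : PowerSeries ℚ)) ^ k) =
      (k : PowerSeries ℚ) * (2 * (U : PowerSeries ℚ)) ^ k *
        (2 * PowerSeries.X * PowerSeries.derivative ℚ (U : PowerSeries ℚ)) := by
    intro k
    have h2 : PowerSeries.derivative ℚ (2 : PowerSeries ℚ) = 0 := by
      have e2 : (2 : PowerSeries ℚ) = PowerSeries.C (2 : ℚ) := (map_ofNat PowerSeries.C 2).symm
      rw [e2]
      exact PowerSeries.derivative_C
    induction k with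
    | zero => simp
    | succ k ih =>
      rw [pow_succ, Derivation.leibniz, Derivation.leibniz, h2]
      simp only [smul_eq_mul]
      push_cast
      have e : (T : PowerSeries ℚ) * ((2 * (U : PowerSeries ℚ)) ^ k *
          (2 * PowerSeries.derivative ℚ (U : PowerSeries ℚ) + (U : PowerSeries ℚ) * 0) +
          2 * (U : PowerSeries ℚ) * PowerSeries.derivative ℚ ((2 * (U : PowerSeries ℚ)) ^ k)) =
        (2 * (U : PowerSeries ℚ)) ^ k * (2 * PowerSeries.derivative ℚ (U : PowerSeries ℚ)) *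
          (T : PowerSeries ℚ) + 2 * (U : PowerSeries ℚ) * ((T : PowerSeries ℚ) *
          PowerSeries.derivative ℚ ((2 * (U : PowerSeries ℚ)) ^ k)) := by ring
      rw [e, ih, hTc]
      ring
  intro k
  induction k with
  | zero =>
    intro i
    have e0 : SS w0 w1 0 = w0 := by
      ext s
      simp [SS, rho, tau]
    have e1 : S1 w1 0 = w1 := by
      ext s
      simp [S1, rho]
    rw [e0, e1, pow_zero, one_mul, ← hw i]
    rfl
  | succ k ih =>
    intro i
    have hB : (BB T A (k + 1) i j : PowerSeries ℚ) = (T : PowerSeries ℚ) *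
        PowerSeries.derivative ℚ (BB T A k i j : PowerSeries ℚ) -
        (k : PowerSeries ℚ) * ((Polynomial.derivative T : Polynomial ℚ) : PowerSeries ℚ) *
          (BB T A k i j : PowerSeries ℚ) -
        ((A i 0 : PowerSeries ℚ) * (BB T A k 0 j : PowerSeries ℚ) +
          (A i 1 : PowerSeries ℚ) * (BB T A k 1 j : PowerSeries ℚ)) := by
      have hk : ((k : Polynomial ℚ) : PowerSeries ℚ) = (k : PowerSeries ℚ) := by
        rw [← Polynomial.C_eq_natCast, Polynomial.coe_C, map_natCast]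
      rw [BB_succ, Fin.sum_univ_two, Polynomial.coe_sub, Polynomial.coe_sub, Polynomial.coe_add,
        Polynomial.coe_mul, Polynomial.coe_mul, Polynomial.coe_mul, Polynomial.coe_mul,
        Polynomial.coe_mul, PowerSeries.derivative_coe, hk]
    rw [hB, ih i, ih 0, ih 1, hdT, Derivation.leibniz, map_add, Derivation.leibniz,
      Derivation.leibniz]
    simp only [smul_eq_mul]
    have a1 := h0 i
    have a2 := h1 i
    have a3 := SS_der w0 w1 k
    have a4 := S1_der w1 k
    have a5 := hpow k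
    rw [pow_succ]
    linear_combination ((2 * (U : PowerSeries ℚ)) ^ k * SS w0 w1 k) * a1 +
      ((2 * (U : PowerSeries ℚ)) ^ k * S1 w1 k) * a2 +
      ((2 * (U : PowerSeries ℚ)) ^ k * (U : PowerSeries ℚ) * Φ (i, 0)) * a3 +
      ((2 * (U : PowerSeries ℚ)) ^ k * 2 * (U : PowerSeries ℚ) * Φ (i, 1)) * a4 +
      (Φ (i, 0) * SS w0 w1 k + Φ (i, 1) * S1 w1 k) * a5 +
      ((2 * (U : PowerSeries ℚ)) ^ k * (Φ (i, 0) * PowerSeries.derivative ℚ (SS w0 w1 k) +
        Φ (i, 1) * PowerSeries.derivative ℚ (S1 w1 k))) * hTc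

theorem den_SS (w0 w1 : PowerSeries ℚ) (d N n k : ℕ) (hk : k ≤ n) (h0 : Den d N w0)
    (h1 : Den d N w1) : Den (2 * Nat.lcmUpto n * d) N
      (PowerSeries.C (1 / (k.factorial : ℚ)) * SS w0 w1 k) := by
  intro s hs
  obtain ⟨x, hx⟩ := h0 s hs
  obtain ⟨y, hy⟩ := h1 s hs
  obtain ⟨z, hz⟩ := gg_den s k n hk
  have hf : (k.factorial : ℚ) ≠ 0 := by exact_mod_cast k.factorial_ne_zero
  refine ⟨2 * Nat.lcmUpto n * s.choose k * x + z * y, ?_⟩
  rw [PowerSeries.coeff_C_mul, SS, PowerSeries.coeff_mk, rho_eq, tau_eq]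
  push_cast
  push_cast at hz
  rw [← hx, ← hy, ← hz]
  field_simp

theorem den_S1 (w1 : PowerSeries ℚ) (d N k : ℕ) (h1 : Den d N w1) : Den d N
      (PowerSeries.C (1 / (k.factorial : ℚ)) * S1 w1 k) := by
  intro s hs
  obtain ⟨y, hy⟩ := h1 s hs
  have hf : (k.factorial : ℚ) ≠ 0 := by exact_mod_cast k.factorial_ne_zero
  refine ⟨s.choose k * y, ?_⟩
  rw [PowerSeries.coeff_C_mul, S1, PowerSeries.coeff_mk, rho_eq]
  push_cast
  rw [← hy]
  field_simp

theorem den_U (A' N : ℕ) : Den 1 N (2 * (UA A' : PowerSeries ℚ)) := by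
  have hp : ∀ (S : Finset ℕ), Den 1 N (((∏ b ∈ S, (1 - Polynomial.C (b : ℚ) * Polynomial.X) :
      Polynomial ℚ)) : PowerSeries ℚ) := by
    intro S
    induction S using Finset.induction_on with
    | empty =>
      intro s _
      rw [Finset.prod_empty, Polynomial.coe_one, PowerSeries.coeff_one]
      split_ifs
      · exact ⟨1, by simp⟩
      · exact ⟨0, by simp⟩
    | insert b S hb ih =>
      rw [Finset.prod_insert hb, Polynomial.coe_mul]
      have h1 : Den 1 N ((1 - Polynomial.C (b : ℚ) * Polynomial.X : Polynomial ℚ) :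
          PowerSeries ℚ) := by
        intro s _
        rw [Polynomial.coeff_coe, Polynomial.coeff_sub, Polynomial.coeff_one,
          Polynomial.coeff_C_mul, Polynomial.coeff_X]
        refine ⟨(if s = 0 then 1 else 0) - b * (if 1 = s then 1 else 0), ?_⟩
        push_cast
        ring
      have := h1.mul ih
      simpa using this
  have h2 : Den 1 N (2 : PowerSeries ℚ) := by
    intro s _
    have e2 : (2 : PowerSeries ℚ) = PowerSeries.C (2 : ℚ) := (map_ofNat PowerSeries.C 2).symm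
    rw [e2, PowerSeries.coeff_C]
    split_ifs
    · exact ⟨2, by simp⟩
    · exact ⟨0, by simp⟩
  have := h2.mul (hp (range (A' + 1)))
  simpa [UA] using this

end GALV_

open GALV_

theorem p_GALV (h1 : T_ODEPHI) (h2 : T_GPHI) : T_GALV := by
  intro A' c a hc hac
  obtain ⟨hH, hdet⟩ := h1 A' c a hc hac
  obtain ⟨C, hC⟩ := common (phi c a) (h2 c a)
  set T := TA A' with hT
  set A := Aa A' c a with hA
  set Φ := phi c a with hΦ
  set ρ := T.natDegree + ∑ i, ∑ j, (A i j).natDegree with hρ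
  have hTρ : T.natDegree ≤ ρ := by rw [hρ]; omega
  have hAρ : ∀ i j, (A i j).natDegree ≤ ρ := by
    intro i j
    rw [hρ]
    have e1 : (A i j).natDegree ≤ ∑ j, (A i j).natDegree :=
      Finset.single_le_sum (f := fun j => (A i j).natDegree) (fun _ _ => Nat.zero_le _)
        (Finset.mem_univ j)
    have e2 : ∑ j, (A i j).natDegree ≤ ∑ i, ∑ j, (A i j).natDegree :=
      Finset.single_le_sum (f := fun i => ∑ j, (A i j).natDegree) (fun _ _ => Nat.zero_le _)
        (Finset.mem_univ i)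
    omega
  have hdeg := deg_le T A ρ hTρ hAρ
  have hC1 : 1 ≤ C := by
    obtain ⟨d, hd0, hd, _⟩ := hC 0
    by_contra hh
    have : C = 0 := by omega
    rw [this] at hd
    simp at hd
    omega
  have e0 : ∀ i, (T : PowerSeries ℚ) * PowerSeries.derivative ℚ (Φ (i, 0)) =
      (A i 0 : PowerSeries ℚ) * Φ (0, 0) + (A i 1 : PowerSeries ℚ) * Φ (1, 0) := by
    intro i
    have := hH (i, 0)
    rw [Fintype.sum_prod_type] at this
    rw [this]
    fin_cases i <;> simp [kron, NU, Fin.sum_univ_two]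
  have e1 : ∀ i, (T : PowerSeries ℚ) * PowerSeries.derivative ℚ (Φ (i, 1)) =
      (A i 0 : PowerSeries ℚ) * Φ (0, 1) + (A i 1 : PowerSeries ℚ) * Φ (1, 1) -
        (UA A' : PowerSeries ℚ) * Φ (i, 0) := by
    intro i
    have := hH (i, 1)
    rw [Fintype.sum_prod_type] at this
    rw [this]
    fin_cases i <;> simp [kron, NU, Fin.sum_univ_two] <;> ring
  have hfor : ∀ j : Fin 2, ∃ w0 w1 : PowerSeries ℚ, (∀ d N : ℕ, (∀ p, Den d N (Φ p)) →
      Den d N w0 ∧ Den d N w1) ∧ ∀ k i, (BB T A k i j : PowerSeries ℚ) =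
      (2 * (UA A' : PowerSeries ℚ)) ^ k * (Φ (i, 0) * SS w0 w1 k + Φ (i, 1) * S1 w1 k) := by
    intro j
    fin_cases j
    · refine ⟨Φ (1, 1), -Φ (1, 0), fun d N h => ⟨h _, (h _).neg⟩, ?_⟩
      refine main_formula T (UA A') A Φ rfl e0 e1 0 _ _ ?_
      intro i
      fin_cases i
      · simp
        linear_combination -hdet
      · simp
        ring
    · refine ⟨-Φ (0, 1), Φ (0, 0), fun d N h => ⟨(h _).neg, h _⟩, ?_⟩
      refine main_formula T (UA A') A Φ rfl e0 e1 1 _ _ ?_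
      intro i
      fin_cases i
      · simp
        ring
      · simp
        linear_combination -hdet
  refine ⟨440 * C ^ (2 * ρ + 2), fun n => ?_⟩
  obtain ⟨d, hd0, hdC, hd⟩ := hC (n * ρ)
  have hL : Nat.lcmUpto n ≤ 220 ^ n := Pool.Agent.KBD.p_LCM n
  have hL0 : 0 < Nat.lcmUpto n := Nat.lcmUpto_pos n
  refine ⟨d * (2 * Nat.lcmUpto n * d), by positivity, ?_, ?_⟩
  · calc d * (2 * Nat.lcmUpto n * d) ≤ C ^ (n * ρ + 1) * (2 * 220 ^ n * C ^ (n * ρ + 1)) := by
          gcongr
      _ = (2 * 220 ^ n) * C ^ (2 * (n * ρ + 1)) := by ring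
      _ ≤ 440 ^ (n + 1) * C ^ ((2 * ρ + 2) * (n + 1)) := by
          refine Nat.mul_le_mul ?_ ?_
          · calc 2 * 220 ^ n ≤ 440 * 440 ^ n := by
                  refine Nat.mul_le_mul (by norm_num) (Nat.pow_le_pow_left (by norm_num) _)
              _ = 440 ^ (n + 1) := by ring
          · refine Nat.pow_le_pow_right hC1 ?_
            nlinarith [Nat.zero_le (n * ρ), Nat.zero_le n, Nat.zero_le ρ]
      _ = (440 * C ^ (2 * ρ + 2)) ^ (n + 1) := by rw [mul_pow, ← pow_mul]
  · intro k hk i j s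
    rcases le_or_gt s (n * ρ) with hs | hs
    · obtain ⟨w0, w1, hw, hfo⟩ := hfor j
      obtain ⟨hw0, hw1⟩ := hw d (n * ρ) hd
      have key : Den (d * (2 * Nat.lcmUpto n * d)) (n * ρ)
          ((2 * (UA A' : PowerSeries ℚ)) ^ k * (Φ (i, 0) * (PowerSeries.C (1 / (k.factorial : ℚ)) *
            SS w0 w1 k) + Φ (i, 1) * (PowerSeries.C (1 / (k.factorial : ℚ)) * S1 w1 k))) := by
        have k1 := (hd (i, 0)).mul (den_SS w0 w1 d (n * ρ) n k hk hw0 hw1)
        have k2 := (hd (i, 1)).mul (den_S1 w1 d (n * ρ) k hw1)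
        have k3 : Den (d * (2 * Nat.lcmUpto n * d)) (n * ρ)
            (Φ (i, 1) * (PowerSeries.C (1 / (k.factorial : ℚ)) * S1 w1 k)) :=
          k2.mono (mul_dvd_mul_left _ (Dvd.intro_left _ rfl))
        have k4 := ((den_U A' (n * ρ)).pow k).mul (k1.add k3)
        simpa using k4
      obtain ⟨x, hx⟩ := key s hs
      refine ⟨x, ?_⟩
      rw [← hx]
      congr 1
      have e : (2 * (UA A' : PowerSeries ℚ)) ^ k * (Φ (i, 0) *
          (PowerSeries.C (1 / (k.factorial : ℚ)) * SS w0 w1 k) +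
          Φ (i, 1) * (PowerSeries.C (1 / (k.factorial : ℚ)) * S1 w1 k)) =
          PowerSeries.C (1 / (k.factorial : ℚ)) * (BB T A k i j : PowerSeries ℚ) := by
        rw [hfo k i]
        ring
      rw [e, PowerSeries.coeff_C_mul, Polynomial.coeff_coe]
      ring
    · refine ⟨0, ?_⟩
      have : (BB T A k i j).coeff s = 0 := by
        refine Polynomial.coeff_eq_zero_of_natDegree_lt ?_
        calc (BB T A k i j).natDegree ≤ k * ρ := hdeg k i j
          _ ≤ n * ρ := Nat.mul_le_mul_right _ hk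
          _ < s := hs
      rw [this]
      simp

end Pool.Agent.LEG
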