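import Pool.Agent.LEG.Targets

/-!
LEG-GF: coefficients of `F0` and `H0`.
-/

set_option autoImplicit false

namespace Pool.Agent.LEG

open Finset
open scoped BigOperators Topology

namespace GF_

theorem lcm_le (n : ℕ) : Nat.lcmUpto n ≤ 220 ^ n := by
  have h1 := Chebyshev.psi_le_const_mul_self (x := (n : ℝ)) (by positivity)
  rw [Chebyshev.psi_eq_log_lcmUpto] at h1
  have hpos : (0 : ℝ) < Nat.lcmUpto n := by exact_mod_cast Nat.lcmUpto_pos n
  have h2 : (Nat.lcmUpto n : ℝ) ≤ Real.exp ((Real.log 4 + 4) * n) := by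
    rw [← Real.log_le_iff_le_exp hpos]
    exact h1
  have h3 : Real.exp ((Real.log 4 + 4) * n) = (4 * Real.exp 4) ^ n := by
    rw [mul_comm, Real.exp_nat_mul, Real.exp_add, Real.exp_log (by norm_num)]
  have h4 : Real.exp 4 ≤ 55 := by
    have h5 := Real.exp_one_lt_d9
    have h6 : Real.exp 4 = Real.exp 1 ^ 4 := by
      rw [← Real.exp_nat_mul]; norm_num
    rw [h6]
    calc Real.exp 1 ^ 4 ≤ (2.7182818286 : ℝ) ^ 4 :=
          pow_le_pow_left₀ (Real.exp_pos _).le h5.le 4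
      _ ≤ 55 := by norm_num
  have h5 : (Nat.lcmUpto n : ℝ) ≤ (220 : ℝ) ^ n := by
    rw [h3] at h2
    refine h2.trans (pow_le_pow_left₀ (by positivity) ?_ n)
    linarith
  exact_mod_cast h5

theorem dvd_lcm {n s : ℕ} (h0 : s ≠ 0) (hs : s ≤ n) : s ∣ Nat.lcmUpto n := by
  unfold Nat.lcmUpto
  exact Finset.dvd_lcm (f := id) (Finset.mem_Icc.2 ⟨Nat.one_le_iff_ne_zero.2 h0, hs⟩)

/-- the coefficients of `F0` -/
noncomputable def bb (n : ℕ) : ℚ := ((Nat.centralBinom n : ℚ) / 4 ^ n) ^ 2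

theorem bb_nonneg (n : ℕ) : 0 ≤ bb n := by unfold bb; positivity

theorem cb_le (n : ℕ) : (Nat.centralBinom n : ℚ) ≤ 4 ^ n := by
  have h : Nat.centralBinom n ≤ 4 ^ n := by
    rw [Nat.centralBinom_eq_two_mul_choose]
    have h1 : (2 * n).choose n ≤ 2 ^ (2 * n) := Nat.choose_le_two_pow _ _
    rwa [pow_mul] at h1
  exact_mod_cast h

theorem bb_le (n : ℕ) : bb n ≤ 1 := by
  unfold bb
  have h : (Nat.centralBinom n : ℚ) / 4 ^ n ≤ 1 := (div_le_one (by positivity)).2 (cb_le n)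
  exact pow_le_one₀ (by positivity) h

theorem bb_int {s n : ℕ} (hs : s ≤ n) : ∃ x : ℤ, (16 : ℚ) ^ n * bb s = x := by
  refine ⟨16 ^ (n - s) * (Nat.centralBinom s : ℤ) ^ 2, ?_⟩
  unfold bb
  push_cast
  have h : (16 : ℚ) ^ n = 16 ^ (n - s) * 16 ^ s := by rw [← pow_add, Nat.sub_add_cancel hs]
  have h16 : (16 : ℚ) ^ s = (4 ^ s) ^ 2 := by rw [← pow_mul, mul_comm s 2, pow_mul]; norm_num
  rw [h, h16, div_pow]
  field_simp

/-- the harmonic factor -/
noncomputable def hh (n : ℕ) : ℚ :=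
  2 * ∑ j ∈ range n, (1 / (2 * (j : ℚ) + 1) - 1 / (2 * (j : ℚ) + 2))

theorem hh_nonneg (n : ℕ) : 0 ≤ hh n := by
  unfold hh
  refine mul_nonneg (by norm_num) (Finset.sum_nonneg fun j _ => ?_)
  rw [sub_nonneg]
  exact one_div_le_one_div_of_le (by positivity) (by linarith)

theorem hh_le (n : ℕ) : hh n ≤ 2 := by
  have h : ∀ n : ℕ, ∑ j ∈ range n, (1 / (2 * (j : ℚ) + 1) - 1 / (2 * (j : ℚ) + 2)) ≤
      1 - 1 / (2 * (n : ℚ) + 1) := by
    intro n
    induction n with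
    | zero => simp
    | succ n ih =>
      rw [Finset.sum_range_succ]
      have e : 1 / (2 * ((n + 1 : ℕ) : ℚ) + 1) ≤ 1 / (2 * (n : ℚ) + 2) := by
        push_cast
        exact one_div_le_one_div_of_le (by positivity) (by linarith)
      linarith
  have h1 := h n
  have h2 : (0 : ℚ) ≤ 1 / (2 * (n : ℚ) + 1) := by positivity
  unfold hh
  linarith

theorem inv_int {s n : ℕ} (h0 : s ≠ 0) (hs : s ≤ n) :
    ∃ x : ℤ, (Nat.lcmUpto n : ℚ) * (1 / (s : ℚ)) = x := by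
  obtain ⟨c, hc⟩ := dvd_lcm h0 hs
  refine ⟨c, ?_⟩
  have hs0 : (s : ℚ) ≠ 0 := by exact_mod_cast h0
  rw [hc]
  push_cast
  field_simp

theorem hh_int {s n : ℕ} (hs : s ≤ n) : ∃ x : ℤ, (Nat.lcmUpto (2 * n) : ℚ) * hh s = x := by
  have h : ∀ j ∈ range s, ∃ x : ℤ, (Nat.lcmUpto (2 * n) : ℚ) *
      (1 / (2 * (j : ℚ) + 1) - 1 / (2 * (j : ℚ) + 2)) = x := by
    intro j hj
    have hj' := Finset.mem_range.1 hj
    obtain ⟨x, hx⟩ := inv_int (s := 2 * j + 1) (n := 2 * n) (by omega) (by omega)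
    obtain ⟨y, hy⟩ := inv_int (s := 2 * j + 2) (n := 2 * n) (by omega) (by omega)
    refine ⟨x - y, ?_⟩
    push_cast at hx hy ⊢
    rw [mul_sub, hx, hy]
  choose! w hw using h
  refine ⟨2 * ∑ j ∈ range s, w j, ?_⟩
  unfold hh
  push_cast
  rw [mul_left_comm, Finset.mul_sum]
  congr 1
  exact Finset.sum_congr rfl hw

end GF_

open GF_

theorem p_GF : T_GF := by
  constructor
  · refine ⟨16, fun n => ⟨?_, 16 ^ n, by positivity, Nat.pow_le_pow_right (by norm_num) (by omega),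
      fun s hs => ?_⟩⟩
    · rw [F0, PowerSeries.coeff_mk, ← bb, abs_of_nonneg (bb_nonneg n)]
      exact (bb_le n).trans (one_le_pow₀ (by norm_num))
    · rw [F0, PowerSeries.coeff_mk, ← bb]
      have := bb_int hs
      push_cast
      exact this
  · refine ⟨16 * 220 ^ 2, fun n => ⟨?_, 16 ^ n * Nat.lcmUpto (2 * n),
      Nat.mul_pos (by positivity) (Nat.lcmUpto_pos _), ?_, fun s hs => ?_⟩⟩
    · rw [H0, PowerSeries.coeff_mk, ← bb, ← hh, abs_of_nonneg (mul_nonneg (bb_nonneg n)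
        (hh_nonneg n))]
      calc bb n * hh n ≤ 1 * 2 := mul_le_mul (bb_le n) (hh_le n) (hh_nonneg n) (by norm_num)
        _ ≤ (16 * 220 ^ 2 : ℚ) ^ 1 := by norm_num
        _ ≤ (16 * 220 ^ 2 : ℚ) ^ (n + 1) := pow_le_pow_right₀ (by norm_num) (by omega)
        _ = _ := by norm_num
    · calc 16 ^ n * Nat.lcmUpto (2 * n) ≤ 16 ^ n * 220 ^ (2 * n) :=
            Nat.mul_le_mul le_rfl (lcm_le _)
        _ = (16 * 220 ^ 2) ^ n := by rw [mul_pow, pow_mul]
        _ ≤ (16 * 220 ^ 2) ^ (n + 1) := Nat.pow_le_pow_right (by norm_num) (by omega)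
    · rw [H0, PowerSeries.coeff_mk, ← bb, ← hh]
      obtain ⟨x, hx⟩ := bb_int hs
      obtain ⟨y, hy⟩ := hh_int hs
      refine ⟨x * y, ?_⟩
      push_cast
      rw [← hx, ← hy]
      ring

end Pool.Agent.LEG
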