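import Pool.Agent.LEG.Targets

set_option autoImplicit false

/-!
# LEG-GLO: the logarithm is a G-function
-/

namespace Pool.Agent.LEG

open Finset

namespace GLO_

theorem lcm_bound (n : ℕ) : Nat.lcmUpto n ≤ 220 ^ n := by
  have h1 := Chebyshev.psi_le_const_mul_self (x := (n : ℝ)) (by positivity)
  rw [Chebyshev.psi_eq_log_lcmUpto] at h1
  have hpos : (0 : ℝ) < Nat.lcmUpto n := by exact_mod_cast Nat.lcmUpto_pos n
  have h2 : (Nat.lcmUpto n : ℝ) ≤ Real.exp ((Real.log 4 + 4) * n) := by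
    rw [← Real.log_le_iff_le_exp hpos]
    exact h1
  have h3 : Real.exp ((Real.log 4 + 4) * n) = (4 * Real.exp 4) ^ n := by
    rw [mul_comm, Real.exp_nat_mul, Real.exp_add, Real.exp_log (by norm_num)]
  have h4 : Real.exp 4 ≤ 55 := by
    have h5 := Real.exp_one_lt_d9
    have h6 : Real.exp 4 = Real.exp 1 ^ 4 := by
      rw [← Real.exp_nat_mul]; norm_num
    rw [h6]
    calc Real.exp 1 ^ 4 ≤ (2.7182818286 : ℝ) ^ 4 :=
          pow_le_pow_left₀ (Real.exp_pos _).le h5.le 4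
      _ ≤ 55 := by norm_num
  have h5 : (Nat.lcmUpto n : ℝ) ≤ (220 : ℝ) ^ n := by
    rw [h3] at h2
    refine h2.trans (pow_le_pow_left₀ (by positivity) ?_ n)
    linarith
  exact_mod_cast h5

theorem dvd_lcm {s n : ℕ} (h1 : 1 ≤ s) (h2 : s ≤ n) : s ∣ Nat.lcmUpto n := by
  unfold Nat.lcmUpto
  exact Finset.dvd_lcm (f := id) (Finset.mem_Icc.mpr ⟨h1, h2⟩)

end GLO_

open GLO_ in
theorem p_GLO : T_GLO := by
  intro a
  refine ⟨a + 220, fun n => ⟨?_, Nat.lcmUpto n, Nat.lcmUpto_pos n, ?_, ?_⟩⟩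
  · have ha : (0 : ℚ) ≤ a := Nat.cast_nonneg a
    simp only [lo, PowerSeries.coeff_mk, abs_neg]
    rw [abs_of_nonneg (by positivity)]
    have h1 : (a : ℚ) ^ n / n ≤ (a : ℚ) ^ n := by
      rcases Nat.eq_zero_or_pos n with rfl | hn
      · simp
      · refine div_le_self (by positivity) ?_
        exact_mod_cast hn
    refine h1.trans ?_
    have h2 : (a : ℚ) ^ n ≤ ((a + 220 : ℕ) : ℚ) ^ n := by
      refine pow_le_pow_left₀ ha ?_ n
      push_cast
      linarith
    refine h2.trans (pow_le_pow_right₀ ?_ (Nat.le_succ n))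
    push_cast
    linarith
  · refine (lcm_bound n).trans ?_
    refine (Nat.pow_le_pow_left (Nat.le_add_left 220 a) n).trans ?_
    exact Nat.pow_le_pow_right (by omega) (Nat.le_succ n)
  · intro s hs
    simp only [lo, PowerSeries.coeff_mk]
    rcases Nat.eq_zero_or_pos s with rfl | h0
    · exact ⟨0, by simp⟩
    · obtain ⟨t, ht⟩ := dvd_lcm h0 hs
      refine ⟨-(t * a ^ s), ?_⟩
      rw [ht]
      have : (s : ℚ) ≠ 0 := by exact_mod_cast h0.ne'
      push_cast
      field_simp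

end Pool.Agent.LEG
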