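import Pool.Agent.LEG.Targets

set_option autoImplicit false

/-!
# GOODMUL: tensor products
-/

namespace Pool.Agent.LEG

open Finset
open scoped BigOperators Topology

namespace GOODMUL_

theorem hor_kron {ι κ : Type} [Fintype ι] [DecidableEq ι] [Fintype κ] [DecidableEq κ]
    {T : Polynomial ℚ} {A : ι → ι → Polynomial ℚ} {B : κ → κ → Polynomial ℚ}
    {f : ι → PowerSeries ℚ} {g : κ → PowerSeries ℚ} (hf : Hor T A f) (hg : Hor T B g) :
    Hor T (kron A B) (fun p : ι × κ => f p.1 * g p.2) := by
  rintro ⟨i, j⟩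
  have h1 := hf i
  have h2 := hg j
  have h3 : ∑ q : ι × κ, (kron A B (i, j) q : PowerSeries ℚ) * (f q.1 * g q.2) =
      (∑ l, (A i l : PowerSeries ℚ) * f l) * g j + f i * ∑ l, (B j l : PowerSeries ℚ) * g l := by
    have h4 : ∀ q : ι × κ, (kron A B (i, j) q : PowerSeries ℚ) * (f q.1 * g q.2) =
        (if j = q.2 then (A i q.1 : PowerSeries ℚ) * f q.1 * g q.2 else 0) +
          (if i = q.1 then (B j q.2 : PowerSeries ℚ) * (f q.1 * g q.2) else 0) := by
      intro q
      unfold kron
      rw [Polynomial.coe_add, add_mul]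
      congr 1
      · split_ifs
        · ring
        · simp
      · split_ifs
        · ring
        · simp
    simp only [h4]
    rw [Finset.sum_add_distrib, Fintype.sum_prod_type, Fintype.sum_prod_type]
    congr 1
    · rw [Finset.sum_mul]
      refine Finset.sum_congr rfl fun l _ => ?_
      rw [Finset.sum_ite_eq univ j]
      simp
    · rw [Finset.sum_comm, Finset.mul_sum]
      refine Finset.sum_congr rfl fun l _ => ?_
      rw [Finset.sum_ite_eq univ i]
      simp only [Finset.mem_univ, if_true]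
      ring
  simp only
  rw [h3, ← h1, ← h2, Derivation.leibniz]
  simp only [smul_eq_mul]
  ring

end GOODMUL_

theorem p_GOODMUL (h1 : T_GALK) (h2 : T_GRING) : T_GOODMUL := by
  intro ι κ _ _ _ _ T f g hf hg
  obtain ⟨hfG, A, hA, hA'⟩ := hf
  obtain ⟨hgG, B, hB, hB'⟩ := hg
  exact ⟨fun p => h2.2.2.1 _ _ (hfG p.1) (hgG p.2), kron A B, GOODMUL_.hor_kron hA hB,
    h1 ι κ T A B hA' hB'⟩

end Pool.Agent.LEG
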