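import Pool.Agent.LEG.Targets

set_option autoImplicit false

/-!
# Adding the constant function, and relabelling
-/

namespace Pool.Agent.LEG

open Finset
open scoped BigOperators

namespace GOODOPT_

theorem isG_one : IsG (1 : PowerSeries ℚ) := by
  refine ⟨1, fun n => ⟨?_, 1, one_pos, by simp, fun s _ => ?_⟩⟩
  · rw [PowerSeries.coeff_one]
    split_ifs <;> simp
  · rw [PowerSeries.coeff_one]
    split_ifs
    · exact ⟨1, by simp⟩
    · exact ⟨0, by simp⟩

section opt

variable {ι : Type} [Fintype ι] [DecidableEq ι]

/-- the extended matrix -/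
noncomputable def AO (A : ι → ι → Polynomial ℚ) : Option ι → Option ι → Polynomial ℚ :=
  fun p q => p.elim 0 (fun i => q.elim 0 (fun j => A i j))

/-- the extended matrices -/
noncomputable def BO (T : Polynomial ℚ) (A : ι → ι → Polynomial ℚ) (k : ℕ) :
    Option ι → Option ι → Polynomial ℚ :=
  fun p q => p.elim (q.elim (if k = 0 then 1 else 0) (fun _ => 0))
    (fun i => q.elim 0 (fun j => BB T A k i j))

theorem BB_AO (T : Polynomial ℚ) (A : ι → ι → Polynomial ℚ) (k : ℕ) (p q : Option ι) :
    BB T (AO A) k p q = BO T A k p q := by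
  induction k generalizing p q with
  | zero =>
      rcases p with _ | i <;> rcases q with _ | j <;> simp [BB, BO]
  | succ k ih =>
      rw [BB]
      simp only [ih, Fintype.sum_option]
      rcases p with _ | i <;> rcases q with _ | j
      · simp only [BO, AO, Option.elim]
        rcases k with _ | k
        · simp
        · simp
      · simp [BO, AO]
      · simp [BO, AO]
      · simp only [BO, AO, Option.elim]
        rw [BB]
        simp

theorem good_opt (T : Polynomial ℚ) (f : ι → PowerSeries ℚ) (h : Good T f) :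
    Good T (fun p : Option ι => p.elim 1 f) := by
  obtain ⟨hf, A, hA, C, hC⟩ := h
  refine ⟨?_, AO A, ?_, C, ?_⟩
  · rintro (_ | i)
    · exact isG_one
    · exact hf i
  · rintro (_ | i)
    · simp only [AO, Option.elim, Polynomial.coe_zero, zero_mul, Finset.sum_const_zero]
      rw [show (PowerSeries.derivative ℚ) (1 : PowerSeries ℚ) = 0 from Derivation.map_one_eq_zero _,
        mul_zero]
    · simp only [AO, Option.elim, Fintype.sum_option, Polynomial.coe_zero, zero_mul, zero_add]
      exact hA i
  · intro n
    obtain ⟨d, hd0, hd, hd1⟩ := hC n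
    refine ⟨d, hd0, hd, fun k hk p q s => ?_⟩
    rw [BB_AO]
    rcases p with _ | i <;> rcases q with _ | j
    · simp only [BO, Option.elim]
      split_ifs with h0
      · subst h0
        rw [Polynomial.coeff_one]
        split_ifs
        · exact ⟨d, by simp⟩
        · exact ⟨0, by simp⟩
      · exact ⟨0, by simp⟩
    · exact ⟨0, by simp [BO]⟩
    · exact ⟨0, by simp [BO]⟩
    · exact hd1 k hk i j s

end opt

section rel

variable {ι κ : Type} [Fintype ι] [DecidableEq ι] [Fintype κ] [DecidableEq κ]

theorem BB_rel (T : Polynomial ℚ) (A : ι → ι → Polynomial ℚ) (e : κ ≃ ι) (k : ℕ) (p q : κ) :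
    BB T (fun p q : κ => A (e p) (e q)) k p q = BB T A k (e p) (e q) := by
  induction k generalizing p q with
  | zero => simp [BB]
  | succ k ih =>
      rw [BB, BB]
      simp only [ih]
      rw [Equiv.sum_comp e (fun l => A (e p) l * BB T A k l (e q))]

theorem good_rel (T : Polynomial ℚ) (f : ι → PowerSeries ℚ) (e : κ ≃ ι) (h : Good T f) :
    Good T (fun p : κ => f (e p)) := by
  obtain ⟨hf, A, hA, C, hC⟩ := h
  refine ⟨fun p => hf (e p), fun p q => A (e p) (e q), ?_, C, ?_⟩
  · intro p
    have := hA (e p)
    rw [← Equiv.sum_comp e (fun l => (A (e p) l : PowerSeries ℚ) * f l)] at this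
    exact this
  · intro n
    obtain ⟨d, hd0, hd, hd1⟩ := hC n
    refine ⟨d, hd0, hd, fun k hk p q s => ?_⟩
    rw [BB_rel]
    exact hd1 k hk (e p) (e q) s

end rel

end GOODOPT_

/-- adding the constant function `1`, and relabelling -/
theorem p_GOODOPT : T_GOODOPT :=
  ⟨fun _ _ _ T f h => GOODOPT_.good_opt T f h,
    fun _ _ _ _ _ _ T f e h => GOODOPT_.good_rel T f e h⟩

end Pool.Agent.LEG
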