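import Pool.Agent.LEG.Targets

set_option autoImplicit false

/-!
# GOODPI: finite products
-/

namespace Pool.Agent.LEG

open Finset
open scoped BigOperators Topology

namespace GOODPI_

/-- the empty family -/
theorem good_empty (T : Polynomial ℚ) (f : PEmpty → PowerSeries ℚ) [DecidableEq PEmpty] :
    Good T f :=
  ⟨fun i => i.elim, fun i => i.elim, fun i => i.elim,
    1, fun _ => ⟨1, one_pos, by simp, fun _ _ i => i.elim⟩⟩

/-- the induction statement -/
def St (S : Type) [Fintype S] : Prop := ∀ (_ : DecidableEq S) (κ : Type) (_ : Fintype κ)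
  (_ : DecidableEq κ) (T : Polynomial ℚ) (g : S → κ → PowerSeries ℚ), (∀ s, Good T (g s)) →
  Good T (fun w : S → κ => ∏ s, g s (w s))

theorem st_all (h1 : T_GOODMUL) (h2 : T_GOODOPT) (S : Type) [Fintype S] : St S := by
  refine Fintype.induction_empty_option (P := fun S _ => St S) ?_ ?_ ?_ S
  · intro α β _ e h dβ κ fκ dκ T g hg
    let _ : Fintype α := Fintype.ofEquiv β e.symm
    let _ : DecidableEq α := Classical.decEq α
    have h3 : Good T (fun w : α → κ => ∏ s, g (e s) (w s)) :=
      h (Classical.decEq α) κ fκ dκ T (fun s => g (e s)) (fun s => hg (e s))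
    have h4 := h2.2 (α → κ) (β → κ) T _ (Equiv.arrowCongr e.symm (Equiv.refl κ)) h3
    have h5 : (fun w : β → κ => ∏ s, g s (w s)) = fun p : β → κ =>
        (fun w : α → κ => ∏ s, g (e s) (w s)) (Equiv.arrowCongr e.symm (Equiv.refl κ) p) := by
      funext w
      simp only [Equiv.arrowCongr_apply, Equiv.coe_refl, Function.comp_apply, id_eq,
        Equiv.symm_symm]
      exact (Equiv.prod_comp e (fun s => g s (w s))).symm
    rw [h5]
    exact h4
  · intro dS κ fκ dκ T g hg
    have h3 := h2.1 PEmpty T (fun i => i.elim) (good_empty T _)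
    have h4 := h2.2 (Option PEmpty) (PEmpty → κ) T _ (Equiv.ofUnique _ _) h3
    have h5 : (fun w : PEmpty → κ => ∏ s, g s (w s)) = fun p : PEmpty → κ =>
        (fun q : Option PEmpty => q.elim (1 : PowerSeries ℚ) (fun i => i.elim))
          ((Equiv.ofUnique (PEmpty → κ) (Option PEmpty)) p) := by
      funext w
      have h6 : (Equiv.ofUnique (PEmpty → κ) (Option PEmpty)) w = none := Subsingleton.elim _ _
      rw [h6]
      simp
    rw [h5]
    exact h4
  · intro α _ h dS κ fκ dκ T g hg
    let _ : DecidableEq α := Classical.decEq α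
    have h3 : Good T (fun w : α → κ => ∏ s, g (some s) (w s)) :=
      h (Classical.decEq α) κ fκ dκ T (fun s => g (some s)) (fun s => hg (some s))
    have h4 := h1 κ (α → κ) T (g none) _ (hg none) h3
    have h5 := h2.2 (κ × (α → κ)) (Option α → κ) T _ (Equiv.piOptionEquivProd) h4
    have h6 : (fun w : Option α → κ => ∏ s, g s (w s)) = fun p : Option α → κ =>
        (fun p : κ × (α → κ) => g none p.1 * ∏ s, g (some s) (p.2 s))
          (Equiv.piOptionEquivProd p) := by
      funext w
      rw [Fintype.prod_option]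
      rfl
    rw [h6]
    exact h5

end GOODPI_

open GOODPI_ in
theorem p_GOODPI (h1 : T_GOODMUL) (h2 : T_GOODOPT) : T_GOODPI := by
  intro S κ _ dS _ dκ T g hg
  exact st_all h1 h2 S dS κ _ dκ T g hg

end Pool.Agent.LEG
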