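import Pool.Agent.LEG.Targets

set_option autoImplicit false

/-!
# Spanning subfamilies (job GOODSUB)
-/

namespace Pool.Agent.LEG

open Finset
open scoped BigOperators

namespace GOODSUB_

theorem der_C_mul (a : ℚ) (f : PowerSeries ℚ) :
    PowerSeries.derivative ℚ (PowerSeries.C a * f) = PowerSeries.C a * PowerSeries.derivative ℚ f := by
  rw [← PowerSeries.smul_eq_C_mul, Derivation.map_smul, PowerSeries.smul_eq_C_mul]

theorem coe_sum' {α : Type} (s : Finset α) (f : α → Polynomial ℚ) :
    ((∑ i ∈ s, f i : Polynomial ℚ) : PowerSeries ℚ) = ∑ i ∈ s, (f i : PowerSeries ℚ) := by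
  rw [← Polynomial.coeToPowerSeries.ringHom_apply, map_sum]
  rfl

theorem indep_eq {κ : Type} [Fintype κ] (f : κ → PowerSeries ℚ) (hf : Indep f)
    (a b : κ → Polynomial ℚ) (h : ∑ p, (a p : PowerSeries ℚ) * f p = ∑ p, (b p : PowerSeries ℚ) * f p) :
    a = b := by
  have h1 : a - b = 0 := by
    refine hf (a - b) ?_
    have : ∀ p, (((a - b) p : Polynomial ℚ) : PowerSeries ℚ) * f p =
        (a p : PowerSeries ℚ) * f p - (b p : PowerSeries ℚ) * f p := by
      intro p
      rw [Pi.sub_apply, Polynomial.coe_sub, sub_mul]
    rw [Finset.sum_congr rfl fun p _ => this p, Finset.sum_sub_distrib, h, sub_self]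
  exact sub_eq_zero.1 h1

end GOODSUB_

open GOODSUB_ in
theorem p_GOODSUB : T_GOODSUB := by
  classical
  intro ι κ _ _ _ _ T g e ⟨hG, A, hA, C, hC⟩ hind hspan
  choose q hq using hspan
  set f : κ → PowerSeries ℚ := fun p => g (e p) with hf
  obtain ⟨Af, hAf⟩ : ∃ Af : κ → κ → Polynomial ℚ,
      Af = fun p p' => ∑ i, A (e p) i * Polynomial.C (q i p') := ⟨_, rfl⟩
  -- the system in terms of `f`
  have hsys : ∀ i, (T : PowerSeries ℚ) * PowerSeries.derivative ℚ (g i) =
      ∑ p', ((∑ j, A i j * Polynomial.C (q j p') : Polynomial ℚ) : PowerSeries ℚ) * f p' := by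
    intro i
    rw [hA i]
    have h1 : ∀ j, (A i j : PowerSeries ℚ) * g j =
        ∑ p', (A i j : PowerSeries ℚ) * (PowerSeries.C (q j p') * f p') := by
      intro j
      rw [← Finset.mul_sum, ← hq j]
    rw [Finset.sum_congr rfl fun j _ => h1 j, Finset.sum_comm]
    refine Finset.sum_congr rfl fun p' _ => ?_
    rw [coe_sum', Finset.sum_mul]
    refine Finset.sum_congr rfl fun j _ => ?_
    rw [Polynomial.coe_mul, Polynomial.coe_C]
    ring
  have hHor : Hor T Af f := by
    intro p
    rw [hf, hAf]
    exact hsys (e p)
  have hdel : ∀ p p', q (e p) p' = if p' = p then 1 else 0 := by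
    intro p p'
    have h1 := indep_eq f hind (fun p' => Polynomial.C (q (e p) p'))
      (fun p' => if p' = p then 1 else 0) (by
        have h2 := hq (e p)
        have h3 : ∑ p', (((if p' = p then 1 else 0 : Polynomial ℚ)) : PowerSeries ℚ) * f p' =
            f p := by
          rw [Finset.sum_eq_single p]
          · rw [if_pos rfl, Polynomial.coe_one, one_mul]
          · intro b _ hb
            rw [if_neg hb, Polynomial.coe_zero, zero_mul]
          · intro hb
            exact absurd (Finset.mem_univ _) hb
        rw [h3]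
        simp only [Polynomial.coe_C]
        exact h2.symm)
    have h2 := congrFun h1 p'
    split_ifs at h2 ⊢ with h3
    · rw [← Polynomial.C_1] at h2
      exact Polynomial.C_injective h2
    · rw [← Polynomial.C_0] at h2
      exact Polynomial.C_injective h2
  have hcomm : ∀ i p', ∑ j, A i j * Polynomial.C (q j p') =
      ∑ p, Polynomial.C (q i p) * Af p p' := by
    intro i p'
    have h1 : (T : PowerSeries ℚ) * PowerSeries.derivative ℚ (g i) =
        ∑ p', ((∑ p, Polynomial.C (q i p) * Af p p' : Polynomial ℚ) : PowerSeries ℚ) * f p' := by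
      rw [hq i, map_sum, Finset.mul_sum]
      have h2 : ∀ p, (T : PowerSeries ℚ) * PowerSeries.derivative ℚ (PowerSeries.C (q i p) * g (e p)) =
          ∑ p', PowerSeries.C (q i p) * ((Af p p' : PowerSeries ℚ) * f p') := by
        intro p
        rw [der_C_mul, ← Finset.mul_sum, ← hHor p, hf]
        ring
      rw [Finset.sum_congr rfl fun p _ => h2 p, Finset.sum_comm]
      refine Finset.sum_congr rfl fun p' _ => ?_
      rw [coe_sum', Finset.sum_mul]
      refine Finset.sum_congr rfl fun p _ => ?_
      rw [Polynomial.coe_mul, Polynomial.coe_C]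
      ring
    rw [hsys i] at h1
    exact congrFun (indep_eq f hind _ _ h1) p'
  have hBB : ∀ k i p', ∑ j, BB T A k i j * Polynomial.C (q j p') =
      ∑ p, Polynomial.C (q i p) * BB T Af k p p' := by
    intro k
    induction k with
    | zero =>
      intro i p'
      simp only [BB]
      rw [Finset.sum_eq_single i, Finset.sum_eq_single p']
      · rw [if_pos rfl, if_pos rfl, one_mul, mul_one]
      · intro b _ hb
        rw [if_neg hb, mul_zero]
      · intro hb
        exact absurd (Finset.mem_univ _) hb
      · intro b _ hb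
        rw [if_neg (Ne.symm hb), zero_mul]
      · intro hb
        exact absurd (Finset.mem_univ _) hb
    | succ k ih =>
      intro i p'
      have hder1 : ∑ j, Polynomial.derivative (BB T A k i j) * Polynomial.C (q j p') =
          Polynomial.derivative (∑ j, BB T A k i j * Polynomial.C (q j p')) := by
        rw [Polynomial.derivative_sum]
        refine Finset.sum_congr rfl fun j _ => ?_
        rw [Polynomial.derivative_mul, Polynomial.derivative_C, mul_zero, add_zero]
      have hder2 : Polynomial.derivative (∑ p, Polynomial.C (q i p) * BB T Af k p p') =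
          ∑ p, Polynomial.C (q i p) * Polynomial.derivative (BB T Af k p p') := by
        rw [Polynomial.derivative_sum]
        refine Finset.sum_congr rfl fun j _ => ?_
        rw [Polynomial.derivative_C_mul]
      have hl : ∑ j, BB T A (k + 1) i j * Polynomial.C (q j p') =
          T * Polynomial.derivative (∑ j, BB T A k i j * Polynomial.C (q j p')) -
          (k : Polynomial ℚ) * Polynomial.derivative T *
            (∑ j, BB T A k i j * Polynomial.C (q j p')) -
          ∑ l, A i l * ∑ j, BB T A k l j * Polynomial.C (q j p') := by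
        rw [← hder1, Finset.mul_sum, Finset.mul_sum]
        simp only [Finset.mul_sum]
        rw [Finset.sum_comm (s := univ) (t := univ), ← Finset.sum_sub_distrib,
          ← Finset.sum_sub_distrib]
        refine Finset.sum_congr rfl fun j _ => ?_
        simp only [BB]
        rw [sub_mul, sub_mul, Finset.sum_mul]
        congr 1
        · ring
        · exact Finset.sum_congr rfl fun l _ => by ring
      have hr : ∑ p, Polynomial.C (q i p) * BB T Af (k + 1) p p' =
          T * Polynomial.derivative (∑ p, Polynomial.C (q i p) * BB T Af k p p') -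
          (k : Polynomial ℚ) * Polynomial.derivative T *
            (∑ p, Polynomial.C (q i p) * BB T Af k p p') -
          ∑ r, (∑ p, Polynomial.C (q i p) * Af p r) * BB T Af k r p' := by
        rw [hder2, Finset.mul_sum, Finset.mul_sum]
        simp only [Finset.sum_mul]
        rw [Finset.sum_comm (s := univ) (t := univ), ← Finset.sum_sub_distrib,
          ← Finset.sum_sub_distrib]
        refine Finset.sum_congr rfl fun p _ => ?_
        simp only [BB]
        rw [mul_sub, mul_sub, Finset.mul_sum]
        congr 1
        · ring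
        · exact Finset.sum_congr rfl fun l _ => by ring
      rw [hl, hr, ih i p']
      congr 1
      have h1 : ∀ l, A i l * ∑ j, BB T A k l j * Polynomial.C (q j p') =
          ∑ r, A i l * Polynomial.C (q l r) * BB T Af k r p' := by
        intro l
        rw [ih l p', Finset.mul_sum]
        exact Finset.sum_congr rfl fun r _ => by ring
      rw [Finset.sum_congr rfl fun l _ => h1 l, Finset.sum_comm]
      refine Finset.sum_congr rfl fun r _ => ?_
      rw [← Finset.sum_mul, hcomm i r]
  have hBf : ∀ k p p', BB T Af k p p' = ∑ j, BB T A k (e p) j * Polynomial.C (q j p') := by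
    intro k p p'
    rw [hBB k (e p) p', Finset.sum_eq_single p]
    · rw [hdel, if_pos rfl, Polynomial.C_1, one_mul]
    · intro b _ hb
      rw [hdel, if_neg hb, Polynomial.C_0, zero_mul]
    · intro hb
      exact absurd (Finset.mem_univ _) hb
  refine ⟨fun p => hG (e p), Af, hHor, ?_⟩
  -- the common denominator of `q`
  obtain ⟨Q, hQ0, hQ⟩ : ∃ Q : ℕ, 0 < Q ∧ ∀ i p, ∃ x : ℤ, (Q : ℚ) * q i p = x := by
    refine ⟨∏ i, ∏ p, (q i p).den, ?_, fun i p => ?_⟩
    · exact Finset.prod_pos fun i _ => Finset.prod_pos fun p _ => (q i p).den_pos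
    · have h1 : (q i p).den ∣ ∏ i, ∏ p, (q i p).den :=
        (Finset.dvd_prod_of_mem (fun p => (q i p).den) (Finset.mem_univ p)).trans
          (Finset.dvd_prod_of_mem (fun i => ∏ p, (q i p).den) (Finset.mem_univ i))
      obtain ⟨c, hc⟩ := h1
      refine ⟨c * (q i p).num, ?_⟩
      rw [hc]
      push_cast
      have := Rat.mul_den_eq_num (q i p)
      rw [← this]
      ring
  refine ⟨C * Q, fun n => ?_⟩
  obtain ⟨d, hd0, hd1, hd⟩ := hC n
  refine ⟨d * Q, Nat.mul_pos hd0 hQ0, ?_, fun k hk p p' s => ?_⟩
  · rw [mul_pow]
    refine Nat.mul_le_mul hd1 ?_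
    exact Nat.le_self_pow (Nat.succ_ne_zero n) Q
  · choose x hx using fun j => hd k hk (e p) j s
    choose y hy using fun j => hQ j p'
    refine ⟨∑ j, x j * y j, ?_⟩
    rw [hBf, Polynomial.finsetSum_coeff, Finset.sum_div, Finset.mul_sum, Int.cast_sum]
    refine Finset.sum_congr rfl fun j _ => ?_
    rw [Polynomial.coeff_mul_C, Int.cast_mul, ← hx j, ← hy j]
    push_cast
    ring

end Pool.Agent.LEG
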