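import Pool.Agent.LEG.Targets

set_option autoImplicit false

/-! GPHI: the four functions of a shift are G-functions -/

namespace Pool.Agent.LEG

open Finset
open scoped BigOperators

namespace GPHI_

lemma poly (h1 : T_GRING) (f : PowerSeries ℚ) (p : Polynomial ℚ)
    (hp : (p : PowerSeries ℚ) = f) : IsG f := hp ▸ h1.1 p

lemma g1 (h1 : T_GRING) : IsG (1 - PowerSeries.X) :=
  poly h1 _ (1 - Polynomial.X) (by simp)

lemma g2 (h1 : T_GRING) : IsG (2 * PowerSeries.X * (1 - PowerSeries.X)) :=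
  poly h1 _ (2 * Polynomial.X * (1 - Polynomial.X)) (by
    have h : ((2 : Polynomial ℚ) : PowerSeries ℚ) = 2 := by
      rw [← one_add_one_eq_two, ← one_add_one_eq_two]
      simp
    simp [h])

lemma sub (h1 : T_GRING) {f g : PowerSeries ℚ} (hf : IsG f) (hg : IsG g) : IsG (f - g) := by
  have h : f - g = f + PowerSeries.C (-1 : ℚ) * g := by
    rw [map_neg, map_one]
    ring
  rw [h]
  exact h1.2.1 _ _ hf (h1.2.2.1 _ _ (poly h1 _ (Polynomial.C (-1 : ℚ)) (by simp)) hg)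

lemma lin (h1 : T_GRING) {f : PowerSeries ℚ} (hf : IsG f) :
    IsG (2 * PowerSeries.X * (1 - PowerSeries.X) * PowerSeries.derivative ℚ f +
      (1 - PowerSeries.X) * f) :=
  h1.2.1 _ _ (h1.2.2.1 _ _ (g2 h1) (h1.2.2.2 _ hf)) (h1.2.2.1 _ _ (g1 h1) hf)

lemma fh (h1 : T_GRING) (h4 : T_GF) : ∀ i j, IsG (FH i j) := by
  intro i j
  fin_cases i <;> fin_cases j
  · exact h4.1
  · exact h4.2
  · exact lin h1 h4.1
  · exact h1.2.1 _ _ (lin h1 h4.2) (h1.2.2.1 _ _ (g1 h1) h4.1)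

end GPHI_

theorem p_GPHI (h1 : T_GRING) (h2 : T_GSH) (h3 : T_GLO) (h4 : T_GF) : T_GPHI := by
  intro c a p
  unfold phi
  split_ifs with h
  · exact h2 c a _ (GPHI_.fh h1 h4 _ _)
  · refine GPHI_.sub h1 (h2 c a _ (GPHI_.fh h1 h4 _ _)) ?_
    exact h1.2.2.1 _ _ (h1.2.2.1 _ _ (GPHI_.poly h1 _ (Polynomial.C (1 / 2 : ℚ)) (by simp))
      (h2 c a _ (GPHI_.fh h1 h4 _ _))) (h3 a)

end Pool.Agent.LEG
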