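import Mathlib

set_option autoImplicit false

/-!
# Periods of Legendre curves: relations of bounded degree (MP_5d33ca_ag)

Definitions and exact targets. The complete proofs are in `Blueprint.lean.txt`.
-/

namespace Pool.Agent.LEG

open Finset
open scoped BigOperators Topology

/-! ## G-functions: definitions -/

/-- coefficients of a G-function: geometric size and geometric common denominators -/
def IsG (f : PowerSeries ℚ) : Prop :=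
  ∃ C : ℕ, ∀ n : ℕ, |PowerSeries.coeff n f| ≤ (C : ℚ) ^ (n + 1) ∧
    ∃ d : ℕ, 0 < d ∧ d ≤ C ^ (n + 1) ∧ ∀ s, s ≤ n → ∃ x : ℤ, (d : ℚ) * PowerSeries.coeff s f = x

/-- value at a real number -/
noncomputable def ev (f : PowerSeries ℚ) (x : ℝ) : ℝ :=
  ∑' n : ℕ, ((PowerSeries.coeff n f : ℚ) : ℝ) * x ^ n

/-- absolute convergence at a real number -/
def Conv (f : PowerSeries ℚ) (x : ℝ) : Prop :=
  Summable fun n : ℕ => |((PowerSeries.coeff n f : ℚ) : ℝ)| * |x| ^ n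

/-- integer coefficients -/
def IntP (p : Polynomial ℚ) : Prop := ∀ s, ∃ x : ℤ, p.coeff s = x

/-- the matrices `T^k D^k` applied to constant vectors, `D = d/dz - A/T` -/
noncomputable def BB {ι : Type} [Fintype ι] [DecidableEq ι] (T : Polynomial ℚ)
    (A : ι → ι → Polynomial ℚ) : ℕ → ι → ι → Polynomial ℚ
  | 0 => fun i j => if i = j then 1 else 0
  | (k + 1) => fun i j => T * Polynomial.derivative (BB T A k i j) -
      (k : Polynomial ℚ) * Polynomial.derivative T * BB T A k i j - ∑ l, A i l * BB T A k l j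

/-- the vectors `T^k D^k P` -/
noncomputable def VV {ι : Type} [Fintype ι] (T : Polynomial ℚ) (A : ι → ι → Polynomial ℚ)
    (P : ι → Polynomial ℚ) : ℕ → ι → Polynomial ℚ
  | 0 => P
  | (k + 1) => fun i => T * Polynomial.derivative (VV T A P k i) -
      (k : Polynomial ℚ) * Polynomial.derivative T * VV T A P k i - ∑ j, A i j * VV T A P k j

/-- the same for power series -/
noncomputable def VS {ι : Type} [Fintype ι] (T : Polynomial ℚ) (A : ι → ι → Polynomial ℚ)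
    (R : ι → PowerSeries ℚ) : ℕ → ι → PowerSeries ℚ
  | 0 => R
  | (k + 1) => fun i => (T : PowerSeries ℚ) * PowerSeries.derivative ℚ (VS T A R k i) -
      (k : PowerSeries ℚ) * (Polynomial.derivative T : Polynomial ℚ) * VS T A R k i -
      ∑ j, (A i j : PowerSeries ℚ) * VS T A R k j

/-- a numbering -/
noncomputable def num {ι : Type} [Fintype ι] (i : ι) : ℕ := (Fintype.equivFin ι i : ℕ)

/-- the determinant of the first vectors -/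
noncomputable def WW {ι : Type} [Fintype ι] [DecidableEq ι] (T : Polynomial ℚ)
    (A : ι → ι → Polynomial ℚ) (P : ι → Polynomial ℚ) : Polynomial ℚ :=
  Matrix.det (Matrix.of fun i j : ι => VV T A P (num i) j)

/-- `f` is a solution: `T f' = A f` -/
def Hor {ι : Type} [Fintype ι] (T : Polynomial ℚ) (A : ι → ι → Polynomial ℚ)
    (f : ι → PowerSeries ℚ) : Prop :=
  ∀ i, (T : PowerSeries ℚ) * PowerSeries.derivative ℚ (f i) = ∑ j, (A i j : PowerSeries ℚ) * f j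

/-- linear independence over polynomials -/
def Indep {ι : Type} [Fintype ι] (f : ι → PowerSeries ℚ) : Prop :=
  ∀ l : ι → Polynomial ℚ, ∑ i, (l i : PowerSeries ℚ) * f i = 0 → l = 0

/-- the (dual) Galochkin condition -/
def Gal {ι : Type} [Fintype ι] [DecidableEq ι] (T : Polynomial ℚ) (A : ι → ι → Polynomial ℚ) :
    Prop :=
  ∃ C : ℕ, ∀ n : ℕ, ∃ d : ℕ, 0 < d ∧ d ≤ C ^ (n + 1) ∧ ∀ k, k ≤ n → ∀ i j s, ∃ x : ℤ,
    (d : ℚ) * ((BB T A k i j).coeff s / (k.factorial : ℚ)) = x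

/-- G-functions satisfying a system with the Galochkin condition -/
def Good {ι : Type} [Fintype ι] [DecidableEq ι] (T : Polynomial ℚ) (f : ι → PowerSeries ℚ) :
    Prop :=
  (∀ i, IsG (f i)) ∧ ∃ A : ι → ι → Polynomial ℚ, Hor T A f ∧ Gal T A

/-- simultaneous approximation: `P_j = P_o f_j + O(z^σ)` -/
structure Pade {ι : Type} (f : ι → PowerSeries ℚ) (o : ι) (m σ : ℕ) (P : ι → Polynomial ℚ) :
    Prop where
  ne : P o ≠ 0
  deg : ∀ j, (P j).natDegree ≤ m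
  ord : ∀ j, (PowerSeries.X : PowerSeries ℚ) ^ σ ∣
    (P o : PowerSeries ℚ) * f j - (P j : PowerSeries ℚ)

/-- Taylor expansion of a polynomial at `z0`, as a power series -/
noncomputable def ty (z0 : ℚ) (p : Polynomial ℚ) : PowerSeries ℚ :=
  ((Polynomial.taylor z0 p : Polynomial ℚ) : PowerSeries ℚ)

/-! ## G-functions: targets of the general theorem -/

/-- Leibniz formulas -/
def T_LEIB : Prop := ∀ (ι : Type) [Fintype ι] [DecidableEq ι] (T : Polynomial ℚ)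
  (A : ι → ι → Polynomial ℚ),
  (∀ (R : ι → PowerSeries ℚ) (k : ℕ) (i : ι), VS T A R k i =
    ∑ l ∈ range (k + 1), ∑ j, (k.choose l : PowerSeries ℚ) * (BB T A (k - l) i j : PowerSeries ℚ) *
      (T : PowerSeries ℚ) ^ l * (PowerSeries.derivative ℚ)^[l] (R j)) ∧
  (∀ (P : ι → Polynomial ℚ) (k : ℕ) (i : ι),
    (VV T A P k i : PowerSeries ℚ) = VS T A (fun j => (P j : PowerSeries ℚ)) k i) ∧
  (∀ (P : ι → Polynomial ℚ) (k : ℕ) (i : ι), VV T A P k i =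
    ∑ l ∈ range (k + 1), ∑ j, (k.choose l : Polynomial ℚ) * BB T A (k - l) i j *
      T ^ l * Polynomial.derivative^[l] (P j)) ∧
  (∀ (f : ι → PowerSeries ℚ) (Q : Polynomial ℚ) (k : ℕ) (i : ι), Hor T A f →
    VS T A (fun j => (Q : PowerSeries ℚ) * f j) k i =
      (T : PowerSeries ℚ) ^ k * (Polynomial.derivative^[k] Q : Polynomial ℚ) * f i)

/-- degrees -/
def T_DEG : Prop := ∀ (ι : Type) [Fintype ι] [DecidableEq ι] (T : Polynomial ℚ)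
  (A : ι → ι → Polynomial ℚ) (ρ : ℕ), T.natDegree ≤ ρ → (∀ i j, (A i j).natDegree ≤ ρ) →
  (∀ k i j, (BB T A k i j).natDegree ≤ k * ρ) ∧
  ∀ (m : ℕ) (P : ι → Polynomial ℚ), (∀ j, (P j).natDegree ≤ m) →
    (∀ k i, (VV T A P k i).natDegree ≤ m + k * ρ) ∧
    (WW T A P).natDegree ≤ Fintype.card ι * m + Fintype.card ι * Fintype.card ι * ρ

/-- size of the matrices -/
def T_BBS : Prop := ∀ (ι : Type) [Fintype ι] [DecidableEq ι] (T : Polynomial ℚ)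
  (A : ι → ι → Polynomial ℚ), ∃ C : ℕ, 1 ≤ C ∧ ∀ (k : ℕ) (i j : ι) (x : ℝ), |x| ≤ 1 →
    |Polynomial.aeval x (BB T A k i j)| ≤ (C : ℝ) ^ (k + 1) * (k.factorial : ℝ)

/-- Wronskian lemma for power series -/
def T_WRON : Prop := ∀ (M : ℕ) (h : Fin M → PowerSeries ℚ),
  Matrix.det (Matrix.of fun i j : Fin M => (PowerSeries.derivative ℚ)^[(j : ℕ)] (h i)) = 0 →
  ∃ c : Fin M → ℚ, c ≠ 0 ∧ ∑ i, PowerSeries.C (c i) * h i = 0

/-- local horizontal sections of the dual at `z0`, and the gauge formula -/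
def T_LOC : Prop := ∀ (ι : Type) [Fintype ι] [DecidableEq ι] (T : Polynomial ℚ)
  (A : ι → ι → Polynomial ℚ) (z0 : ℚ), T.eval z0 ≠ 0 → ∀ c : ι → ℚ, ∃ g : ι → PowerSeries ℚ,
  (∀ i, PowerSeries.constantCoeff (g i) = c i) ∧
  ∀ (P : ι → Polynomial ℚ) (k : ℕ), ∑ i, g i * ty z0 (VV T A P k i) =
    ty z0 T ^ k * (PowerSeries.derivative ℚ)^[k] (∑ i, g i * ty z0 (P i))

/-- Shidlovskii's lemma, first form (from T_LOC, T_WRON) -/
def T_SHID0 : Prop := ∀ (ι : Type) [Fintype ι] [DecidableEq ι] (T : Polynomial ℚ)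
  (A : ι → ι → Polynomial ℚ), T ≠ 0 → ∃ c1 : ℕ, ∀ P : ι → Polynomial ℚ, WW T A P = 0 →
  ∃ l : ι → Polynomial ℚ, l ≠ 0 ∧ (∀ i, (l i).natDegree ≤ c1) ∧ ∑ i, l i * P i = 0

/-- Shidlovskii's lemma, second form (from T_SHID0) -/
def T_SHID : Prop := ∀ (ι : Type) [Fintype ι] [DecidableEq ι] (T : Polynomial ℚ)
  (A : ι → ι → Polynomial ℚ) (f : ι → PowerSeries ℚ) (o : ι), T ≠ 0 → Indep f →
  ∃ c0 : ℕ, ∀ (m σ : ℕ) (P : ι → Polynomial ℚ), Pade f o m σ P → m + c0 ≤ σ → WW T A P ≠ 0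

/-- order at zero -/
def T_ORD0 : Prop := ∀ (ι : Type) [Fintype ι] [DecidableEq ι] (T : Polynomial ℚ)
  (A : ι → ι → Polynomial ℚ) (f : ι → PowerSeries ℚ) (o : ι) (m σ : ℕ) (P : ι → Polynomial ℚ),
  Hor T A f → f o = 1 → Pade f o m σ P →
  (Polynomial.X : Polynomial ℚ) ^ ((Fintype.card ι - 1) * (σ - Fintype.card ι)) ∣ WW T A P

/-- order at `z0` (from T_LOC) -/
def T_ORD1 : Prop := ∀ (ι : Type) [Fintype ι] [DecidableEq ι] (T : Polynomial ℚ)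
  (A : ι → ι → Polynomial ℚ) (z0 : ℚ) (K0 : ℕ) (P : ι → Polynomial ℚ) (c : ι → ℚ),
  T.eval z0 ≠ 0 → c ≠ 0 → (∀ k, k ≤ K0 → ∑ i, c i * (VV T A P k i).eval z0 = 0) →
  (Polynomial.X - Polynomial.C z0) ^ (K0 + 1 - Fintype.card ι) ∣ WW T A P

/-- zero estimate (from T_SHID, T_ORD0, T_ORD1, T_DEG) -/
def T_ZE : Prop := ∀ (ι : Type) [Fintype ι] [DecidableEq ι] (T : Polynomial ℚ)
  (A : ι → ι → Polynomial ℚ) (f : ι → PowerSeries ℚ) (o : ι), T ≠ 0 → Hor T A f → f o = 1 →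
  Indep f → ∃ c5 : ℕ, ∀ (m σ K0 : ℕ) (P : ι → Polynomial ℚ) (z0 : ℚ) (c : ι → ℚ),
  Pade f o m σ P → m + c5 ≤ σ → z0 ≠ 0 → T.eval z0 ≠ 0 → c ≠ 0 →
  (∀ k, k ≤ K0 → ∑ i, c i * (VV T A P k i).eval z0 = 0) →
  (Fintype.card ι - 1) * σ + K0 ≤ Fintype.card ι * m + c5

/-- Siegel's lemma; `M = card ι`, `m = (M-1) L n`, `σ = m + 1 + (L-1) n` -/
def T_SIEG : Prop := ∀ (ι : Type) [Fintype ι] [DecidableEq ι] (f : ι → PowerSeries ℚ) (o : ι)
  (L : ℕ), (∀ i, IsG (f i)) → f o = 1 → 2 ≤ Fintype.card ι → 2 ≤ L →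
  ∃ C : ℕ, 1 ≤ C ∧ ∀ n : ℕ, 1 ≤ n → ∃ P : ι → Polynomial ℚ,
    Pade f o ((Fintype.card ι - 1) * L * n) ((Fintype.card ι - 1) * L * n + 1 + (L - 1) * n) P ∧
    (∀ s, |(P o).coeff s| ≤ (C : ℚ) ^ n) ∧
    ∃ d : ℕ, 0 < d ∧ d ≤ C ^ n ∧ ∀ j s, ∃ x : ℤ, (d : ℚ) * (P j).coeff s = x

/-- denominators (from T_LEIB, T_DEG) -/
def T_DEN : Prop := ∀ (ι : Type) [Fintype ι] [DecidableEq ι] (T : Polynomial ℚ)
  (A : ι → ι → Polynomial ℚ) (ρ : ℕ), IntP T → Gal T A → T.natDegree ≤ ρ →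
  (∀ i j, (A i j).natDegree ≤ ρ) → ∃ C : ℕ, 1 ≤ C ∧ ∀ K : ℕ, ∃ e : ℕ, 0 < e ∧ e ≤ C ^ (K + 1) ∧
  ∀ (k N m d : ℕ) (P : ι → Polynomial ℚ), k ≤ K → 1 ≤ N → (∀ j, (P j).natDegree ≤ m) →
  (∀ j s, ∃ x : ℤ, (d : ℚ) * (P j).coeff s = x) → ∀ i, ∃ x : ℤ,
  (N : ℚ) ^ (m + k * ρ) * e * d * ((VV T A P k i).eval (1 / (N : ℚ)) / (k.factorial : ℚ)) = x

/-- smallness (from T_LEIB, T_BBS) -/
def T_SMALL : Prop := ∀ (ι : Type) [Fintype ι] [DecidableEq ι] (T : Polynomial ℚ)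
  (A : ι → ι → Polynomial ℚ) (f : ι → PowerSeries ℚ) (o : ι), (∀ i, IsG (f i)) → Hor T A f →
  ∃ C : ℕ, 1 ≤ C ∧ ∀ (N m σ k : ℕ) (H : ℝ) (P : ι → Polynomial ℚ) (c : ι → ℤ), C ≤ N → m < σ →
  Pade f o m σ P → (∀ s, |((P o).coeff s : ℝ)| ≤ H) →
  ∑ i, (c i : ℝ) * ev (f i) (1 / (N : ℝ)) = 0 →
  |∑ i, (c i : ℝ) * ((((VV T A P k i).eval (1 / (N : ℚ)) : ℚ) : ℝ) / (k.factorial : ℝ))| ≤
    (∑ i, |(c i : ℝ)|) * ((m : ℝ) + 1) * H * (C : ℝ) ^ (k + σ + 1) * (N : ℝ) ^ k / (N : ℝ) ^ σ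

/-- Galochkin's theorem (from T_ZE, T_SIEG, T_DEN, T_SMALL) -/
def T_GTHM : Prop := ∀ (ι : Type) [Fintype ι] [DecidableEq ι] (T : Polynomial ℚ)
  (f : ι → PowerSeries ℚ) (o : ι), T ≠ 0 → IntP T → Good T f → f o = 1 → Indep f →
  ∃ N0 : ℕ, ∀ N : ℕ, N0 ≤ N → ∀ c : ι → ℤ, ∑ i, (c i : ℝ) * ev (f i) (1 / (N : ℝ)) = 0 → c = 0

/-! ## closure properties -/

/-- `c z / (1 - a z)` -/
noncomputable def sh (c a : ℕ) : PowerSeries ℚ :=
  PowerSeries.mk fun n => if n = 0 then 0 else (c : ℚ) * (a : ℚ) ^ (n - 1)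

/-- `log (1 - a z)` -/
noncomputable def lo (a : ℕ) : PowerSeries ℚ := PowerSeries.mk fun n => -((a : ℚ) ^ n / (n : ℚ))

/-- Kronecker sum -/
noncomputable def kron {ι κ : Type} [DecidableEq ι] [DecidableEq κ] (A : ι → ι → Polynomial ℚ)
    (B : κ → κ → Polynomial ℚ) : ι × κ → ι × κ → Polynomial ℚ :=
  fun p q => (if p.2 = q.2 then A p.1 q.1 else 0) + (if p.1 = q.1 then B p.2 q.2 else 0)

/-- `IsG` is closed under the ring operations and the derivative -/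
def T_GRING : Prop := (∀ p : Polynomial ℚ, IsG (p : PowerSeries ℚ)) ∧
  (∀ f g : PowerSeries ℚ, IsG f → IsG g → IsG (f + g)) ∧
  (∀ f g : PowerSeries ℚ, IsG f → IsG g → IsG (f * g)) ∧
  (∀ f : PowerSeries ℚ, IsG f → IsG (PowerSeries.derivative ℚ f))

/-- substitution `c z / (1 - a z)` -/
def T_GSH : Prop := ∀ (c a : ℕ) (f : PowerSeries ℚ), IsG f → IsG (f.subst (sh c a))

/-- logarithm -/
def T_GLO : Prop := ∀ a : ℕ, IsG (lo a)

/-- tensor products (matrices) -/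
def T_GALK : Prop := ∀ (ι κ : Type) [Fintype ι] [DecidableEq ι] [Fintype κ] [DecidableEq κ]
  (T : Polynomial ℚ) (A : ι → ι → Polynomial ℚ) (B : κ → κ → Polynomial ℚ), Gal T A → Gal T B →
  Gal T (kron A B)

/-- tensor products (from T_GALK, T_GRING) -/
def T_GOODMUL : Prop := ∀ (ι κ : Type) [Fintype ι] [DecidableEq ι] [Fintype κ] [DecidableEq κ]
  (T : Polynomial ℚ) (f : ι → PowerSeries ℚ) (g : κ → PowerSeries ℚ), Good T f → Good T g →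
  Good T (fun p : ι × κ => f p.1 * g p.2)

/-- adding the constant function `1`, and relabelling -/
def T_GOODOPT : Prop := (∀ (ι : Type) [Fintype ι] [DecidableEq ι] (T : Polynomial ℚ)
    (f : ι → PowerSeries ℚ), Good T f → Good T (fun p : Option ι => p.elim 1 f)) ∧
  (∀ (ι κ : Type) [Fintype ι] [DecidableEq ι] [Fintype κ] [DecidableEq κ] (T : Polynomial ℚ)
    (f : ι → PowerSeries ℚ) (e : κ ≃ ι), Good T f → Good T (fun p : κ => f (e p)))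

/-- products over a finite set (from T_GOODMUL, T_GOODOPT) -/
def T_GOODPI : Prop := ∀ (S κ : Type) [Fintype S] [DecidableEq S] [Fintype κ] [DecidableEq κ]
  (T : Polynomial ℚ) (g : S → κ → PowerSeries ℚ), (∀ s, Good T (g s)) →
  Good T (fun w : S → κ => ∏ s, g s (w s))

/-- subfamilies that span -/
def T_GOODSUB : Prop := ∀ (ι κ : Type) [Fintype ι] [DecidableEq ι] [Fintype κ] [DecidableEq κ]
  (T : Polynomial ℚ) (g : ι → PowerSeries ℚ) (e : κ → ι), Good T g → Indep (fun p => g (e p)) →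
  (∀ i, ∃ q : κ → ℚ, g i = ∑ p, PowerSeries.C (q p) * g (e p)) → Good T (fun p => g (e p))

/-! ## the Legendre family: formal part -/

/-- `2K/π` -/
noncomputable def F0 : PowerSeries ℚ :=
  PowerSeries.mk fun n => ((Nat.centralBinom n : ℚ) / 4 ^ n) ^ 2

/-- the logarithmic partner of `F0` -/
noncomputable def H0 : PowerSeries ℚ :=
  PowerSeries.mk fun n => ((Nat.centralBinom n : ℚ) / 4 ^ n) ^ 2 *
    (2 * ∑ j ∈ range n, (1 / (2 * (j : ℚ) + 1) - 1 / (2 * (j : ℚ) + 2)))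

/-- `2E/π` -/
noncomputable def F2 : PowerSeries ℚ :=
  2 * PowerSeries.X * (1 - PowerSeries.X) * PowerSeries.derivative ℚ F0 + (1 - PowerSeries.X) * F0

/-- the logarithmic partner of `F2` -/
noncomputable def H2 : PowerSeries ℚ :=
  2 * PowerSeries.X * (1 - PowerSeries.X) * PowerSeries.derivative ℚ H0 + (1 - PowerSeries.X) * H0 +
    (1 - PowerSeries.X) * F0

/-- the matrix `[F0, H0; F2, H2]` -/
noncomputable def FH : Fin 2 → Fin 2 → PowerSeries ℚ := ![![F0, H0], ![F2, H2]]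

/-- the four functions of shift `a` -/
noncomputable def phi (c a : ℕ) (p : Fin 2 × Fin 2) : PowerSeries ℚ :=
  if p.2 = 0 then (FH p.1 0).subst (sh c a)
  else (FH p.1 1).subst (sh c a) - PowerSeries.C (1 / 2 : ℚ) * (FH p.1 0).subst (sh c a) * lo a

/-- `∏_{b ≤ A'} (1 - b z)` -/
noncomputable def UA (A' : ℕ) : Polynomial ℚ :=
  ∏ b ∈ range (A' + 1), (1 - Polynomial.C (b : ℚ) * Polynomial.X)

/-- the same without the factor `e` -/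
noncomputable def Ue (A' e : ℕ) : Polynomial ℚ :=
  ∏ b ∈ (range (A' + 1)).erase e, (1 - Polynomial.C (b : ℚ) * Polynomial.X)

/-- the common denominator `2 z ∏_{b ≤ A'} (1 - b z)` -/
noncomputable def TA (A' : ℕ) : Polynomial ℚ := 2 * Polynomial.X * UA A'

/-- the system for `(K, E)` -/
noncomputable def Aa (A' c a : ℕ) : Fin 2 → Fin 2 → Polynomial ℚ :=
  ![![-Ue A' a, Ue A' (a + c)], ![-Ue A' a, Ue A' a]]

/-- the unipotent part -/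
noncomputable def NU (A' : ℕ) : Fin 2 → Fin 2 → Polynomial ℚ := ![![0, 0], ![-UA A', 0]]

/-- formal identities -/
def T_FORM : Prop :=
  2 * PowerSeries.X * PowerSeries.derivative ℚ F2 = F2 - F0 ∧
  2 * PowerSeries.X * PowerSeries.derivative ℚ H2 = H2 - H0 - F2 ∧
  F0 * H2 - F2 * H0 = 1

/-- the system in the variable `z` (from T_FORM) -/
def T_ODEPHI : Prop := ∀ A' c a : ℕ, 1 ≤ c → a + c ≤ A' →
  Hor (TA A') (kron (Aa A' c a) (NU A')) (phi c a) ∧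
  phi c a (0, 0) * phi c a (1, 1) - phi c a (1, 0) * phi c a (0, 1) = 1

/-- coefficients of `F0`, `H0` -/
def T_GF : Prop := IsG F0 ∧ IsG H0

/-- (from T_GRING, T_GSH, T_GLO, T_GF) -/
def T_GPHI : Prop := ∀ (c a : ℕ) (p : Fin 2 × Fin 2), IsG (phi c a p)

/-- Galochkin condition for `(K, E)` (from T_ODEPHI, T_GPHI) -/
def T_GALV : Prop := ∀ A' c a : ℕ, 1 ≤ c → a + c ≤ A' → Gal (TA A') (Aa A' c a)

/-- Galochkin condition for the unipotent part -/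
def T_GALU : Prop := ∀ A' : ℕ, Gal (TA A') (NU A')

/-- the big family: products of `B` functions for each shift `a ≤ A` -/
noncomputable def fam (c A B : ℕ) (w : Fin (A + 1) × Fin B → Option (Fin 2 × Fin 2)) :
    PowerSeries ℚ :=
  ∏ s, (w s).elim 1 (phi c (s.1 : ℕ))

/-- (from T_ODEPHI, T_GPHI, T_GALV, T_GALU, T_GALK, T_GOODOPT, T_GOODPI) -/
def T_FAM : Prop := ∀ c A B : ℕ, 1 ≤ c →
  TA (A + c) ≠ 0 ∧ IntP (TA (A + c)) ∧ Good (TA (A + c)) (fam c A B)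

/-! ## evaluation -/

/-- evaluation is a ring homomorphism on convergent series -/
def T_EVC : Prop :=
  (∀ (f g : PowerSeries ℚ) (x : ℝ), Conv f x → Conv g x →
    Conv (f + g) x ∧ ev (f + g) x = ev f x + ev g x ∧
    Conv (f * g) x ∧ ev (f * g) x = ev f x * ev g x) ∧
  (∀ (p : Polynomial ℚ) (x : ℝ), Conv (p : PowerSeries ℚ) x ∧
    ev (p : PowerSeries ℚ) x = Polynomial.aeval x p) ∧
  (∀ f : PowerSeries ℚ, IsG f → ∃ δ : ℝ, 0 < δ ∧ ∀ x : ℝ, |x| < δ → Conv f x) ∧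
  (∀ (f : PowerSeries ℚ) (δ : ℝ), 0 < δ → (∀ x : ℝ, |x| < δ → Conv f x) →
    (∀ x : ℝ, |x| < δ → AnalyticAt ℝ (ev f) x ∧ Conv (PowerSeries.derivative ℚ f) x ∧
      HasDerivAt (ev f) (ev (PowerSeries.derivative ℚ f) x) x) ∧
    ((∀ᶠ x in 𝓝[>] (0 : ℝ), ev f x = 0) → f = 0))

/-- evaluation after substitution -/
def T_EVSH : Prop := ∀ (c a : ℕ) (f : PowerSeries ℚ) (x : ℝ), 0 ≤ x → a * x < 1 →
  Conv f (c * x / (1 - a * x)) →
  Conv (f.subst (sh c a)) x ∧ ev (f.subst (sh c a)) x = ev f (c * x / (1 - a * x))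

/-- evaluation of the logarithm -/
def T_EVLO : Prop := ∀ (a : ℕ) (x : ℝ), 0 ≤ x → a * x < 1 →
  Conv (lo a) x ∧ ev (lo a) x = Real.log (1 - a * x)

/-- convergence in the unit disc -/
def T_CONV : Prop := ∀ (i j : Fin 2) (x : ℝ), |x| < 1 → Conv (FH i j) x

/-- the four functions as real functions -/
noncomputable def PhR (c a : ℕ) (z : ℝ) : Matrix (Fin 2) (Fin 2) ℝ :=
  Matrix.of fun i j => if j = 0 then ev (FH i 0) (c * z / (1 - a * z))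
    else ev (FH i 1) (c * z / (1 - a * z)) -
      1 / 2 * ev (FH i 0) (c * z / (1 - a * z)) * Real.log (1 - a * z)

/-- (from T_EVC, T_EVSH, T_EVLO, T_CONV) -/
def T_EVPHI : Prop := ∀ (c a : ℕ) (p : Fin 2 × Fin 2) (z : ℝ), 0 ≤ z → 1 ≤ c →
  ((a : ℝ) + c) * z < 1 → Conv (phi c a p) z ∧ ev (phi c a p) z = PhR c a z p.1 p.2

/-! ## complete elliptic integrals -/

/-- first kind, parameter `m` -/
noncomputable def KK (m : ℝ) : ℝ :=
  ∫ t in (0 : ℝ)..(Real.pi / 2), 1 / Real.sqrt (1 - m * Real.sin t ^ 2)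

/-- second kind, parameter `m` -/
noncomputable def EE (m : ℝ) : ℝ :=
  ∫ t in (0 : ℝ)..(Real.pi / 2), Real.sqrt (1 - m * Real.sin t ^ 2)

/-- derivatives -/
def T_KE : Prop := ∀ m : ℝ, 0 < m → m < 1 →
  HasDerivAt KK ((EE m - (1 - m) * KK m) / (2 * m * (1 - m))) m ∧
  HasDerivAt EE ((EE m - KK m) / (2 * m)) m

/-- limits at `0` and at `1` -/
def T_LIM : Prop := Filter.Tendsto KK (𝓝[>] 0) (𝓝 (Real.pi / 2)) ∧
  Filter.Tendsto EE (𝓝[>] 0) (𝓝 (Real.pi / 2)) ∧ Filter.Tendsto EE (𝓝[<] 1) (𝓝 1) ∧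
  (∀ m : ℝ, 0 < m → m < 1 → |KK (1 - m)| ≤ Real.pi / 2 / Real.sqrt m) ∧
  (∀ m : ℝ, 0 < m → m < 1 / 2 → |EE m - KK m| ≤ 4 * m)

/-- Legendre's relation (from T_KE, T_LIM) -/
def T_LEGR : Prop := ∀ m : ℝ, 0 < m → m < 1 →
  EE m * KK (1 - m) + EE (1 - m) * KK m - KK m * KK (1 - m) = Real.pi / 2

/-- (from T_KE, T_LIM, T_FORM, T_CONV, T_EVC) -/
def T_KF : Prop := ∀ m : ℝ, 0 < m → m < 1 →
  KK m = Real.pi / 2 * ev F0 m ∧ EE m = Real.pi / 2 * ev F2 m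

/-- (from T_KE, T_LEGR, T_KF, T_FORM, T_CONV, T_EVC) -/
def T_KH : Prop := ∃ c1 : ℝ, ∀ m : ℝ, 0 < m → m < 1 →
  KK (1 - m) = c1 * ev F0 m - 1 / 2 * ev F0 m * Real.log m - ev H0 m ∧
  KK (1 - m) - EE (1 - m) = c1 * ev F2 m - 1 / 2 * ev F2 m * Real.log m - ev H2 m

/-! ## functional independence -/

/-- the period matrix of shift `a` -/
noncomputable def rho (c a : ℕ) (z : ℝ) : Matrix (Fin 2) (Fin 2) ℝ :=
  !![KK (c * z / (1 - a * z)), KK (1 - c * z / (1 - a * z));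
    EE (c * z / (1 - a * z)), KK (1 - c * z / (1 - a * z)) - EE (1 - c * z / (1 - a * z))]

/-- the connecting matrix -/
noncomputable def RL (c1 l : ℝ) : Matrix (Fin 2) (Fin 2) ℝ := !![Real.pi / 2, c1 - l / 2; 0, -1]

/-- upper unipotent -/
def up (s : ℝ) : Matrix (Fin 2) (Fin 2) ℝ := !![1, s; 0, 1]

/-- lower unipotent -/
def lw (s : ℝ) : Matrix (Fin 2) (Fin 2) ℝ := !![1, 0; s, 1]

/-- properties of the period matrices (from T_KF, T_KH, T_LEGR, T_CONV, T_EVC) -/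
def T_RHO : Prop := ∀ c : ℕ, 1 ≤ c →
  (∃ c1 : ℝ, ∀ (a : ℕ) (z : ℝ), 0 < z → ((a : ℝ) + c) * z < 1 →
    rho c a z = PhR c a z * RL c1 (Real.log z)) ∧
  (∀ (a : ℕ) (i j : Fin 2), AnalyticAt ℝ (fun z => PhR c a z i j) 0) ∧
  (∀ a : ℕ, ∃ Q : ℝ → Matrix (Fin 2) (Fin 2) ℝ, (∀ i j, AnalyticAt ℝ (fun z => Q z i j) 0) ∧
    ∀ z : ℝ, 0 < z → ((a : ℝ) + c) * z < 1 → rho c a z = Q z * up (-Real.log z / Real.pi)) ∧
  (∀ (a : ℕ) (i j : Fin 2) (z : ℝ), 0 < z → ((a : ℝ) + c) * z < 1 →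
    AnalyticAt ℝ (fun z => rho c a z i j) z) ∧
  (∀ a : ℕ, ∃ Q : ℝ → Matrix (Fin 2) (Fin 2) ℝ, (∀ i j, AnalyticAt ℝ (fun z => Q z i j) 0) ∧
    ∀ᶠ x in 𝓝[>] (0 : ℝ), rho c a (1 / ((a : ℝ) + c) - x) = Q x * lw (-Real.log x / Real.pi)) ∧
  (∀ (a : ℕ) (z : ℝ), 0 < z → ((a : ℝ) + c) * z < 1 → (rho c a z).det = -(Real.pi / 2))

/-- the logarithm is transcendental over germs of analytic functions -/
def T_LOGP : Prop := ∀ (σ : Type) (P : MvPolynomial σ ℝ) (u v : σ → ℝ → ℝ),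
  (∀ i, AnalyticAt ℝ (u i) 0) → (∀ i, AnalyticAt ℝ (v i) 0) →
  (∀ᶠ x in 𝓝[>] (0 : ℝ), MvPolynomial.eval (fun i => u i x + v i x * Real.log x) P = 0) →
  ∀ᶠ x in 𝓝[>] (0 : ℝ), ∀ X : ℝ, MvPolynomial.eval (fun i => u i x + v i x * X) P = 0

/-- variables: `z`, `log z`, and the entries of one matrix for each shift -/
abbrev Var : Type := Fin 2 ⊕ (ℕ × Fin 2 × Fin 2)

/-- point with the given values -/
def pt (z l : ℝ) (x : ℕ → Matrix (Fin 2) (Fin 2) ℝ) : Var → ℝ :=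
  Sum.elim ![z, l] (fun v => x v.1 v.2.1 v.2.2)

/-- all relations between `z`, `log z` and the periods follow from the Legendre relations
(from T_RHO, T_LOGP) -/
def T_FI : Prop := ∀ c : ℕ, 1 ≤ c → ∀ P : MvPolynomial Var ℝ,
  (∀ᶠ z in 𝓝[>] (0 : ℝ), MvPolynomial.eval (pt z (Real.log z) (fun a => rho c a z)) P = 0) →
  ∀ (z l : ℝ) (x : ℕ → Matrix (Fin 2) (Fin 2) ℝ), (∀ a, (x a).det = -(Real.pi / 2)) →
    MvPolynomial.eval (pt z l x) P = 0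

/-- formal version (from T_FI, T_RHO, T_EVPHI, T_EVC) -/
def T_FIP : Prop := ∀ (c A : ℕ), 1 ≤ c →
  ∀ (P : MvPolynomial (Fin (A + 1) × Fin 2 × Fin 2) (Polynomial ℚ)),
  MvPolynomial.eval₂ (Polynomial.coeToPowerSeries.ringHom)
    (fun v => phi c (v.1 : ℕ) v.2) P = 0 →
  ∀ (z : ℚ) (x : Fin (A + 1) → Matrix (Fin 2) (Fin 2) ℝ), (∀ a, (x a).det = 1) →
    MvPolynomial.eval₂ ((algebraMap ℚ ℝ).comp (Polynomial.evalRingHom z))
      (fun v => x v.1 v.2.1 v.2.2) P = 0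

/-- independence over `ℚ` implies independence over `ℚ[z]` (from T_FIP, T_EVPHI, T_EVC, T_ODEPHI) -/
def T_IND : Prop := ∀ (c A B : ℕ) (κ : Type) [Fintype κ]
  (e : κ → (Fin (A + 1) × Fin B → Option (Fin 2 × Fin 2))), 1 ≤ c →
  LinearIndependent ℚ (fun p => fam c A B (e p)) → Indep (fun p => fam c A B (e p))

/-- three of the four functions at `1/N` -/
noncomputable def xn (c N a : ℕ) (j : Fin 3) : ℝ :=
  ![PhR c a (1 / (N : ℝ)) 0 0, PhR c a (1 / (N : ℝ)) 1 0, PhR c a (1 / (N : ℝ)) 0 1] j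

/-- no relation of bounded degree between the values (from T_GTHM, T_FAM, T_IND, T_FIP, T_EVPHI,
T_EVC, T_GOODSUB) -/
def T_GT : Prop := ∀ c A B : ℕ, 1 ≤ c → ∃ N0 : ℕ, ∀ N : ℕ, N0 ≤ N →
  ∀ W : MvPolynomial (Fin (A + 1) × Fin 3) ℤ, (∀ v, W.degreeOf v ≤ B) →
    MvPolynomial.aeval (fun v => xn c N (v.1 : ℕ) v.2) W = 0 → W = 0

/-! ## elimination and counting -/

/-- `y` satisfies a nontrivial polynomial relation over `ℤ[θ]` -/
def Rl {K : ℕ} (D : ℕ) (θ : Fin K → ℂ) (y : ℂ) : Prop :=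
  ∃ P : Polynomial (MvPolynomial (Fin K) ℤ), P.natDegree ≤ D ∧ (∀ j, (P.coeff j).totalDegree ≤ D) ∧
    P.map (MvPolynomial.aeval θ).toRingHom ≠ 0 ∧ (P.map (MvPolynomial.aeval θ).toRingHom).eval y = 0

/-- three numbers satisfy a nontrivial polynomial relation over `ℤ[θ]` -/
def Rl3 {K : ℕ} (D : ℕ) (θ : Fin K → ℂ) (x : Fin 3 → ℂ) : Prop :=
  ∃ P : MvPolynomial (Fin K ⊕ Fin 3) ℤ, P.totalDegree ≤ D ∧
    (∃ x' : Fin 3 → ℂ, MvPolynomial.aeval (Sum.elim θ x') P ≠ 0) ∧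
    MvPolynomial.aeval (Sum.elim θ x) P = 0

/-- elimination by counting dimensions -/
def T_ELIM : Prop := ∀ K r S D : ℕ, K < S → ∃ B : ℕ, ∀ (θ : Fin K → ℂ) (y : Fin r → ℂ)
  (s : Fin S → Fin K ⊕ Fin r), (∀ i, Rl D θ (y i)) → ∃ W : MvPolynomial (Fin S) ℤ, W ≠ 0 ∧
    (∀ v, W.degreeOf v ≤ B) ∧ MvPolynomial.aeval (fun v => Sum.elim θ y (s v)) W = 0

/-- (from T_ELIM) -/
def T_ELIM3 : Prop := ∀ K r D : ℕ, K < r → ∃ B : ℕ, ∀ (θ : Fin K → ℂ) (x : Fin r → Fin 3 → ℂ),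
  (∀ i, Rl3 D θ (x i)) → ∃ W : MvPolynomial (Fin r × Fin 3) ℤ, W ≠ 0 ∧
    (∀ v, W.degreeOf v ≤ B) ∧ MvPolynomial.aeval (fun v => x v.1 v.2) W = 0

/-- the periods `K, E, K', E'` of `y^2 = x (x-1) (x-c/N)` -/
noncomputable def per (c N : ℕ) : Fin 4 → ℂ :=
  ![(KK ((c : ℝ) / N) : ℂ), (EE ((c : ℝ) / N) : ℂ), (KK (1 - (c : ℝ) / N) : ℂ),
    (EE (1 - (c : ℝ) / N) : ℂ)]

/-- the Legendre relation `E K' + E' K - K K' = π / 2` -/
def Leg (x : Fin 4 → ℂ) : Prop := x 1 * x 2 + x 3 * x 0 - x 0 * x 2 = (Real.pi : ℂ) / 2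

/-- `n` curves with a relation of degree at most `D` over `ℤ[θ]` that does not follow from the
Legendre relations -/
def MExc {k n : ℕ} (c : Fin n → ℕ) (D : ℕ) (θ : Fin k → ℂ) (N : Fin n → ℕ) : Prop :=
  ∃ P : MvPolynomial (Fin k ⊕ (Fin n × Fin 4)) ℤ, P.totalDegree ≤ D ∧
    MvPolynomial.aeval (Sum.elim θ (fun v => per (c v.1) (N v.1) v.2)) P = 0 ∧
    ∃ x : Fin n → Fin 4 → ℂ, (∀ i, Leg (x i)) ∧
      MvPolynomial.aeval (Sum.elim θ (fun v => x v.1 v.2)) P ≠ 0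

/-- one curve -/
def Exc {k : ℕ} (c D : ℕ) (θ : Fin k → ℂ) (N : ℕ) : Prop :=
  ∃ P : MvPolynomial (Fin k ⊕ Fin 4) ℤ, P.totalDegree ≤ D ∧
    MvPolynomial.aeval (Sum.elim θ (per c N)) P = 0 ∧
    ∃ x : Fin 4 → ℂ, Leg x ∧ MvPolynomial.aeval (Sum.elim θ x) P ≠ 0

/-- from periods to the functions (from T_RHO) -/
def T_EXC : Prop := ∀ c k D : ℕ, 1 ≤ c → ∃ D' : ℕ, ∀ (N : ℕ) (θ : Fin k → ℂ),
  ∃ θ' : Fin (k + 2) → ℂ, ∀ a : ℕ, a + c < N → Exc c D θ (N - a) →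
    Rl3 D' θ' (fun j => (xn c N a j : ℂ))

/-- few exceptions in a window (from T_EXC, T_ELIM3, T_GT) -/
def T_WIN : Prop := ∀ c k D A : ℕ, 1 ≤ c → ∃ N1 : ℕ, ∀ N : ℕ, N1 ≤ N → ∀ θ : Fin k → ℂ,
  ({a : ℕ | a ≤ A ∧ Exc c D θ (N - a)}).ncard ≤ k + 2

/-- one curve (from T_WIN) -/
def T_ONE : Prop := ∀ (c k D : ℕ) (ε : ℝ), 1 ≤ c → 0 < ε → ∃ T0 : ℕ, ∀ T : ℕ, T0 ≤ T →
  ∀ θ : Fin k → ℂ, (({N : ℕ | c < N ∧ N ≤ T ∧ Exc c D θ N}).ncard : ℝ) ≤ ε * T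

/-- a generic point -/
def T_GEN : Prop := ∀ (n : ℕ) (S : Set (MvPolynomial (Fin n × Fin 4) ℂ)), S.Countable →
  (∀ P ∈ S, ∃ x : Fin n → Fin 4 → ℂ, (∀ i, Leg (x i)) ∧
    MvPolynomial.eval (fun v => x v.1 v.2) P ≠ 0) →
  ∃ y : Fin n → Fin 4 → ℂ, (∀ i, Leg (y i)) ∧
    ∀ P ∈ S, MvPolynomial.eval (fun v => y v.1 v.2) P ≠ 0

/-- several curves (from T_ONE, T_GEN) -/
def T_MULTI : Prop := ∀ (n k D : ℕ) (c : Fin n → ℕ) (ε : ℝ), (∀ i, 1 ≤ c i) → 0 < ε →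
  ∃ T0 : ℕ, ∀ T : ℕ, T0 ≤ T → ∀ θ : Fin k → ℂ,
  (({N : Fin n → ℕ | (∀ i, c i < N i ∧ N i ≤ T) ∧ MExc c D θ N}).ncard : ℝ) ≤ ε * (T : ℝ) ^ n

end Pool.Agent.LEG
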