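import Mathlib
import Pool.Agent.LEG.Targets

set_option autoImplicit false

/-!
# No relation of bounded degree between the values at `1/N`
-/

namespace Pool.Agent.LEG

open Finset
open scoped BigOperators Topology

namespace GT_

/-- extraction of a basis containing a given vector -/
theorem basis_ext {I : Type} [Finite I] (g : I → PowerSeries ℚ) (o0 : I) (ho : g o0 ≠ 0) :
    ∃ b : Set I, o0 ∈ b ∧ LinearIndependent ℚ (fun p : b => g p) ∧
      ∀ i, g i ∈ Submodule.span ℚ (Set.range (fun p : b => g p)) := by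
  obtain ⟨b, -, hb, hsp, hli⟩ := exists_linearIndepOn_extension (K := ℚ) (v := g)
    (s := {o0}) (t := Set.univ) (by
      rw [LinearIndepOn]
      exact linearIndependent_unique_iff.2 (by simpa using ho)) (Set.subset_univ _)
  refine ⟨b, hb rfl, hli, fun i => ?_⟩
  have := hsp ⟨i, Set.mem_univ _, rfl⟩
  have h2 : Set.range (fun p : b => g p) = g '' b := by
    ext x
    simp
  rw [h2]
  exact this

/-- the three functions used -/
def idx (j : Fin 3) : Fin 2 × Fin 2 := ![(0, 0), (1, 0), (0, 1)] j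

/-- the functions -/
noncomputable def gX (c A : ℕ) (v : Fin (A + 1) × Fin 3) : PowerSeries ℚ := phi c (v.1 : ℕ) (idx v.2)

/-- word of a monomial -/
def wd (A B : ℕ) (d : Fin (A + 1) × Fin 3 →₀ ℕ) (s : Fin (A + 1) × Fin (3 * B)) :
    Option (Fin 2 × Fin 2) :=
  if (((finProdFinEquiv (m := 3) (n := B)).symm s.2).2 : ℕ) <
      d (s.1, ((finProdFinEquiv (m := 3) (n := B)).symm s.2).1)
  then some (idx ((finProdFinEquiv (m := 3) (n := B)).symm s.2).1) else none

theorem prod_lt (B n : ℕ) (h : n ≤ B) (y : PowerSeries ℚ) :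
    ∏ r : Fin B, (if (r : ℕ) < n then y else 1) = y ^ n := by
  rw [Fin.prod_univ_eq_prod_range (fun r => if r < n then y else 1) B, Finset.prod_ite]
  simp only [Finset.prod_const]
  have : (Finset.range B).filter (fun r => r < n) = Finset.range n := by
    ext x
    simp only [Finset.mem_filter, Finset.mem_range]
    omega
  rw [this, Finset.card_range, one_pow, mul_one]

theorem fam_wd (c A B : ℕ) (d : Fin (A + 1) × Fin 3 →₀ ℕ) (hd : ∀ v, d v ≤ B) :
    fam c A (3 * B) (wd A B d) = ∏ v, gX c A v ^ d v := by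
  unfold fam
  rw [Fintype.prod_prod_type, Fintype.prod_prod_type]
  refine Finset.prod_congr rfl fun a _ => ?_
  rw [← (finProdFinEquiv (m := 3) (n := B)).prod_comp, Fintype.prod_prod_type]
  refine Finset.prod_congr rfl fun j _ => ?_
  rw [← prod_lt B (d (a, j)) (hd _) (gX c A (a, j))]
  refine Finset.prod_congr rfl fun r _ => ?_
  simp only [wd, Equiv.symm_apply_apply]
  by_cases h : (r : ℕ) < d (a, j)
  · simp [h, gX]
  · simp [h]

theorem ev_C (h6 : T_EVC) (q : ℚ) (x : ℝ) :
    Conv (PowerSeries.C q) x ∧ ev (PowerSeries.C q) x = (q : ℝ) := by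
  have h := h6.2.1 (Polynomial.C q) x
  rw [Polynomial.coe_C] at h
  refine ⟨h.1, h.2.trans ?_⟩
  simp

theorem conv_prod (h6 : T_EVC) {I : Type} (s : Finset I) (f : I → PowerSeries ℚ) (x : ℝ)
    (h : ∀ i, Conv (f i) x) : Conv (∏ i ∈ s, f i) x := by
  classical
  induction s using Finset.induction_on with
  | empty =>
    have := (ev_C h6 1 x).1
    simpa using this
  | insert a s ha ih =>
    rw [Finset.prod_insert ha]
    exact (h6.1 _ _ x (h a) ih).2.2.1

theorem ev_comb (h6 : T_EVC) {I : Type} (s : Finset I) (e : I → ℚ) (f : I → PowerSeries ℚ) (x : ℝ)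
    (h : ∀ i, Conv (f i) x) : Conv (∑ i ∈ s, PowerSeries.C (e i) * f i) x ∧
      ev (∑ i ∈ s, PowerSeries.C (e i) * f i) x = ∑ i ∈ s, (e i : ℝ) * ev (f i) x := by
  classical
  induction s using Finset.induction_on with
  | empty =>
    have := ev_C h6 0 x
    simpa using this
  | insert a s ha ih =>
    rw [Finset.sum_insert ha, Finset.sum_insert ha]
    have h1 := ev_C h6 (e a) x
    have h2 := h6.1 _ _ x h1.1 (h a)
    have h3 := h6.1 _ _ x h2.2.2.1 ih.1
    refine ⟨h3.1, ?_⟩
    rw [h3.2.1, h2.2.2.2, h1.2, ih.2]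

theorem ev_aeval (h6 : T_EVC) {σ : Type} (G : σ → PowerSeries ℚ) (x : ℝ) (h : ∀ v, Conv (G v) x)
    (W : MvPolynomial σ ℤ) : Conv (MvPolynomial.aeval G W) x ∧
      ev (MvPolynomial.aeval G W) x = MvPolynomial.aeval (fun v => ev (G v) x) W := by
  induction W using MvPolynomial.induction_on with
  | C a =>
    have := ev_C h6 (a : ℚ) x
    simpa using this
  | add p q hp hq =>
    have h1 := h6.1 _ _ x hp.1 hq.1
    rw [map_add, map_add]
    exact ⟨h1.1, by rw [h1.2.1, hp.2, hq.2]⟩
  | mul_X p i hp =>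
    have h1 := h6.1 _ _ x hp.1 (h i)
    rw [map_mul, map_mul, MvPolynomial.aeval_X, MvPolynomial.aeval_X]
    exact ⟨h1.2.2.1, by rw [h1.2.2.2, hp.2]⟩

/-- if the value at the functions vanishes then the polynomial is zero -/
theorem zero_of_fun (h4 : T_FIP) (c A : ℕ) (hc : 1 ≤ c) (W : MvPolynomial (Fin (A + 1) × Fin 3) ℤ)
    (h : MvPolynomial.aeval (gX c A) W = 0) : W = 0 := by
  set P : MvPolynomial (Fin (A + 1) × Fin 2 × Fin 2) (Polynomial ℚ) :=
    MvPolynomial.rename (fun v : Fin (A + 1) × Fin 3 => (v.1, idx v.2))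
      (MvPolynomial.map (Int.castRingHom (Polynomial ℚ)) W) with hP
  have h1 : MvPolynomial.eval₂ (Polynomial.coeToPowerSeries.ringHom)
    (fun v => phi c (v.1 : ℕ) v.2) P = 0 := by
    rw [hP, MvPolynomial.eval₂_rename, MvPolynomial.eval₂_map, ← h, MvPolynomial.aeval_def]
    congr 1
    exact RingHom.ext_int _ _
  have h2 := h4 c A hc P h1 0
  have h3 : MvPolynomial.map (Int.castRingHom ℝ) W = 0 := by
    refine MvPolynomial.funext_set (fun _ => Set.Ioi (0 : ℝ)) (fun _ => Set.Ioi_infinite _) ?_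
    intro y hy
    have hy' : ∀ v, 0 < y v := fun v => hy v (Set.mem_univ _)
    have h5 := h2 (fun a => !![y (a, 0), y (a, 2); y (a, 1), (1 + y (a, 1) * y (a, 2)) / y (a, 0)])
      (fun a => by
        rw [Matrix.det_fin_two_of]
        have := (hy' (a, 0)).ne'
        field_simp
        ring)
    rw [map_zero, ← h5, hP, MvPolynomial.eval₂_rename, MvPolynomial.eval₂_map,
      MvPolynomial.eval_map]
    congr 1
    · exact RingHom.ext_int _ _
    · funext v
      obtain ⟨a, j⟩ := v
      fin_cases j <;> simp [idx]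
  exact MvPolynomial.map_injective _ (RingHom.injective_int _) (by rw [h3, map_zero])

/-- common denominator -/
theorem clear {I : Type} [Fintype I] (e : I → ℚ) : ∃ (D : ℕ) (c : I → ℤ), 0 < D ∧
    ∀ i, (D : ℚ) * e i = c i := by
  classical
  refine ⟨∏ i, (e i).den, fun i => (∏ j ∈ Finset.univ.erase i, ((e j).den : ℤ)) * (e i).num,
    Finset.prod_pos fun i _ => (e i).den_pos, fun i => ?_⟩
  rw [← Finset.prod_erase_mul _ _ (Finset.mem_univ i)]
  push_cast
  rw [mul_assoc, Rat.den_mul_eq_num]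

end GT_

open GT_ in
theorem p_GT (h1 : T_GTHM) (h2 : T_FAM) (h3 : T_IND) (h4 : T_FIP) (h5 : T_EVPHI) (h6 : T_EVC)
    (h7 : T_GOODSUB) : T_GT := by
  classical
  intro c A B hc
  obtain ⟨hT, hInt, hGood⟩ := h2 c A (3 * B) hc
  set g := fam c A (3 * B) with hg
  have ho1 : g (fun _ => none) = 1 := by
    rw [hg]
    simp [fam]
  obtain ⟨b, hob, hli, hsp⟩ := basis_ext g (fun _ => none) (by rw [ho1]; exact one_ne_zero)
  have : Fintype b := Fintype.ofFinite _
  have hInd : Indep (fun p : b => g p) := h3 c A (3 * B) b (fun p => p) hc hli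
  have hq : ∀ i, ∃ q : b → ℚ, g i = ∑ p, PowerSeries.C (q p) * g (p : _) := by
    intro i
    obtain ⟨q, hq⟩ := (Submodule.mem_span_range_iff_exists_fun ℚ).1 (hsp i)
    refine ⟨q, ?_⟩
    rw [← hq]
    refine Finset.sum_congr rfl fun p _ => ?_
    rw [PowerSeries.smul_eq_C_mul]
  have hGf : Good (TA (A + c)) (fun p : b => g p) :=
    h7 _ b (TA (A + c)) g (fun p => p) hGood hInd hq
  obtain ⟨N0, hN0⟩ := h1 b (TA (A + c)) (fun p => g p) ⟨_, hob⟩ hT hInt hGf ho1 hInd
  refine ⟨max N0 (A + c + 1), fun N hN W hW hW0 => ?_⟩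
  have hN1 : N0 ≤ N := le_trans (le_max_left _ _) hN
  have hN2 : A + c + 1 ≤ N := le_trans (le_max_right _ _) hN
  have hNpos : (0 : ℝ) < N := by
    have : 0 < N := by omega
    exact_mod_cast this
  have hphi : ∀ (a : Fin (A + 1)) (p : Fin 2 × Fin 2), Conv (phi c a p) (1 / (N : ℝ)) ∧
      ev (phi c a p) (1 / (N : ℝ)) = PhR c a (1 / (N : ℝ)) p.1 p.2 := by
    intro a p
    refine h5 c a p (1 / N) (by positivity) hc ?_
    rw [mul_one_div, div_lt_one hNpos]
    have h8 : (a : ℕ) + c < N := by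
      have := a.2
      omega
    exact_mod_cast h8
  have hgX : ∀ v, Conv (gX c A v) (1 / (N : ℝ)) := fun v => (hphi v.1 (idx v.2)).1
  have hfam : ∀ i, Conv (g i) (1 / (N : ℝ)) := by
    intro i
    refine conv_prod h6 _ _ _ fun s => ?_
    rcases h : i s with _ | p
    · simpa using (ev_C h6 1 (1 / (N : ℝ))).1
    · simpa using (hphi s.1 p).1
  -- the value of `W` at the functions
  choose q hq using hq
  have hval : MvPolynomial.aeval (gX c A) W =
      ∑ p : b, PowerSeries.C (∑ d ∈ W.support, ((W.coeff d : ℤ) : ℚ) * q (wd A B d) p) * g p := by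
    have e1 : MvPolynomial.aeval (gX c A) W =
        ∑ d ∈ W.support, PowerSeries.C ((W.coeff d : ℤ) : ℚ) * g (wd A B d) := by
      rw [MvPolynomial.aeval_def, MvPolynomial.eval₂_eq']
      refine Finset.sum_congr rfl fun d hd => ?_
      rw [hg, fam_wd]
      · congr 1
        simp
      · intro v
        exact le_trans (MvPolynomial.monomial_le_degreeOf v hd) (hW v)
    rw [e1]
    have e2 : ∀ d, PowerSeries.C ((W.coeff d : ℤ) : ℚ) * g (wd A B d) =
        ∑ p : b, PowerSeries.C (((W.coeff d : ℤ) : ℚ) * q (wd A B d) p) * g p := by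
      intro d
      rw [hq (wd A B d), Finset.mul_sum]
      refine Finset.sum_congr rfl fun p _ => ?_
      rw [map_mul, mul_assoc]
    rw [Finset.sum_congr rfl fun d _ => e2 d, Finset.sum_comm]
    refine Finset.sum_congr rfl fun p _ => ?_
    rw [map_sum, Finset.sum_mul]
  set e : b → ℚ := fun p => ∑ d ∈ W.support, ((W.coeff d : ℤ) : ℚ) * q (wd A B d) p with he
  have hval' : MvPolynomial.aeval (gX c A) W = ∑ p : b, PowerSeries.C (e p) * g p := hval
  have hev : ∑ p : b, (e p : ℝ) * ev (g p) (1 / (N : ℝ)) = 0 := by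
    rw [← (ev_comb h6 Finset.univ e (fun p : b => g p) (1 / (N : ℝ)) fun p => hfam _).2, ← hval',
      (ev_aeval h6 (gX c A) _ hgX W).2, ← hW0]
    congr 2
    funext v
    obtain ⟨a, j⟩ := v
    rw [gX, (hphi a (idx j)).2]
    fin_cases j <;> simp [idx, xn]
  obtain ⟨D, c', hD, hc'⟩ := clear e
  have hc0 : c' = 0 := by
    refine hN0 N hN1 c' ?_
    have : ∀ p : b, (c' p : ℝ) * ev (g p) (1 / (N : ℝ)) =
        (D : ℝ) * ((e p : ℝ) * ev (g p) (1 / (N : ℝ))) := by
      intro p
      have h9 : (c' p : ℝ) = (D : ℝ) * (e p : ℝ) := by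
        have := hc' p
        have h10 : ((c' p : ℚ) : ℝ) = (((D : ℚ) * e p : ℚ) : ℝ) := by rw [this]
        simpa using h10
      rw [h9, mul_assoc]
    rw [Finset.sum_congr rfl fun p _ => this p, ← Finset.mul_sum, hev, mul_zero]
  have he0 : ∀ p, e p = 0 := by
    intro p
    have h9 := hc' p
    rw [hc0] at h9
    have hD' : (D : ℚ) ≠ 0 := by exact_mod_cast hD.ne'
    simpa [hD'] using h9
  refine zero_of_fun h4 c A hc W ?_
  rw [hval']
  refine Finset.sum_eq_zero fun p _ => ?_
  rw [he0 p, map_zero, zero_mul]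

end Pool.Agent.LEG
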