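import Pool.Agent.LEG.Targets

set_option autoImplicit false

/-!
# LEG-IND: independence over the rationals implies independence over polynomials
-/

namespace Pool.Agent.LEG

open Finset
open scoped BigOperators Topology

namespace IND_

theorem conv_abs {f : PowerSeries ℚ} {x : ℝ} (h : Conv f |x|) : Conv f x := by
  unfold Conv at h ⊢
  simpa using h

theorem conv_one (h3 : T_EVC) (x : ℝ) : Conv 1 x ∧ ev 1 x = 1 := by
  have h := h3.2.1 1 x
  simpa using h

theorem conv_C (h3 : T_EVC) (a : ℚ) (x : ℝ) : Conv (PowerSeries.C a) x ∧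
    ev (PowerSeries.C a) x = a := by
  have h := h3.2.1 (Polynomial.C a) x
  simpa using h

theorem conv_zero (h3 : T_EVC) (x : ℝ) : Conv 0 x ∧ ev 0 x = 0 := by
  have h := h3.2.1 0 x
  simpa using h

theorem conv_prod (h3 : T_EVC) {S : Type*} (s : Finset S) (g : S → PowerSeries ℚ) (x : ℝ)
    (h : ∀ i ∈ s, Conv (g i) x) : Conv (∏ i ∈ s, g i) x ∧
      ev (∏ i ∈ s, g i) x = ∏ i ∈ s, ev (g i) x := by
  classical
  induction s using Finset.induction_on with
  | empty =>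
    simp only [Finset.prod_empty]
    exact conv_one h3 x
  | insert a s ha ih =>
    have h1 := h a (Finset.mem_insert_self a s)
    have h2 := ih (fun i hi => h i (Finset.mem_insert_of_mem hi))
    rw [Finset.prod_insert ha, Finset.prod_insert ha]
    have h4 := h3.1 _ _ x h1 h2.1
    exact ⟨h4.2.2.1, by rw [h4.2.2.2, h2.2]⟩

theorem conv_sum (h3 : T_EVC) {S : Type*} (s : Finset S) (g : S → PowerSeries ℚ) (x : ℝ)
    (h : ∀ i ∈ s, Conv (g i) x) : Conv (∑ i ∈ s, g i) x ∧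
      ev (∑ i ∈ s, g i) x = ∑ i ∈ s, ev (g i) x := by
  classical
  induction s using Finset.induction_on with
  | empty =>
    simp only [Finset.sum_empty]
    exact conv_zero h3 x
  | insert a s ha ih =>
    have h1 := h a (Finset.mem_insert_self a s)
    have h2 := ih (fun i hi => h i (Finset.mem_insert_of_mem hi))
    rw [Finset.sum_insert ha, Finset.sum_insert ha]
    have h4 := h3.1 _ _ x h1 h2.1
    exact ⟨h4.1, by rw [h4.2.1, h2.2]⟩

theorem det_PhR (h2 : T_EVPHI) (h3 : T_EVC) (h4 : T_ODEPHI) (c a : ℕ) (z : ℝ) (hc : 1 ≤ c)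
    (hz : 0 ≤ z) (hz1 : ((a : ℝ) + c) * z < 1) : (PhR c a z).det = 1 := by
  have hd := (h4 (a + c) c a hc le_rfl).2
  have hd' : phi c a (0, 0) * phi c a (1, 1) = 1 + phi c a (1, 0) * phi c a (0, 1) := by
    linear_combination hd
  have e := fun p => h2 c a p z hz hc hz1
  have m1 := h3.1 _ _ z (e (0, 0)).1 (e (1, 1)).1
  have m2 := h3.1 _ _ z (e (1, 0)).1 (e (0, 1)).1
  have m3 := h3.1 _ _ z (conv_one h3 z).1 m2.2.2.1
  have k := congrArg (fun f => ev f z) hd'
  rw [m1.2.2.2, m3.2.1, m2.2.2.2, (conv_one h3 z).2, (e (0, 0)).2, (e (1, 1)).2, (e (1, 0)).2,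
    (e (0, 1)).2] at k
  rw [Matrix.det_fin_two]
  simp only at k
  linear_combination k

/-- the monomial of an index -/
noncomputable def mon {A B : ℕ} (w : Fin (A + 1) × Fin B → Option (Fin 2 × Fin 2)) :
    MvPolynomial (Fin (A + 1) × Fin 2 × Fin 2) (Polynomial ℚ) :=
  ∏ s, (w s).elim 1 (fun q => MvPolynomial.X (s.1, q))

theorem eval_mon {A B : ℕ} {R : Type} [CommSemiring R] (φ : Polynomial ℚ →+* R)
    (y : Fin (A + 1) × Fin 2 × Fin 2 → R)
    (w : Fin (A + 1) × Fin B → Option (Fin 2 × Fin 2)) :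
    MvPolynomial.eval₂ φ y (mon w) = ∏ s, (w s).elim 1 (fun q => y (s.1, q)) := by
  unfold mon
  rw [MvPolynomial.eval₂_prod]
  refine Finset.prod_congr rfl fun s _ => ?_
  cases w s with
  | none => simp
  | some q => simp

end IND_

open IND_ in
theorem p_IND (h1 : T_FIP) (h2 : T_EVPHI) (h3 : T_EVC) (h4 : T_ODEPHI) : T_IND := by
  classical
  intro c A B κ _ e hc hli l hl
  by_contra hne
  obtain ⟨p0, hp0⟩ := Function.ne_iff.mp hne
  simp only [Pi.zero_apply] at hp0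
  obtain ⟨z, hz⟩ : ∃ z : ℚ, (l p0).eval z ≠ 0 := by
    by_contra hh
    push Not at hh
    exact hp0 (Polynomial.funext (fun r => by simpa using hh r))
  set P : MvPolynomial (Fin (A + 1) × Fin 2 × Fin 2) (Polynomial ℚ) :=
    ∑ p, MvPolynomial.C (l p) * mon (e p) with hP
  have hP0 : MvPolynomial.eval₂ (Polynomial.coeToPowerSeries.ringHom)
      (fun v : Fin (A + 1) × Fin 2 × Fin 2 => phi c (v.1 : ℕ) v.2) P = 0 := by
    rw [hP, MvPolynomial.eval₂_sum, ← hl]
    refine Finset.sum_congr rfl fun p _ => ?_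
    rw [MvPolynomial.eval₂_mul, MvPolynomial.eval₂_C, eval_mon]
    rfl
  have hF := h1 c A hc P hP0 z
  -- the power series
  set f : PowerSeries ℚ := ∑ p, PowerSeries.C ((l p).eval z) * fam c A B (e p) with hf
  set δ : ℝ := 1 / ((A : ℝ) + c + 1) with hδ
  have hδ0 : 0 < δ := by rw [hδ]; positivity
  have hbd : ∀ (a : Fin (A + 1)) (x : ℝ), 0 ≤ x → x < δ → (((a : ℕ) : ℝ) + c) * x < 1 := by
    intro a x hx0 hx
    have ha : ((a : ℕ) : ℝ) ≤ A := by
      have := a.isLt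
      exact_mod_cast Nat.lt_succ_iff.1 this
    have h5 : x * ((A : ℝ) + c + 1) < 1 := by
      rw [hδ, lt_div_iff₀ (by positivity)] at hx
      exact hx
    have hcr : (0 : ℝ) ≤ c := Nat.cast_nonneg c
    nlinarith
  have hphi : ∀ (s : Fin (A + 1) × Fin B) (o : Option (Fin 2 × Fin 2)) (x : ℝ), 0 ≤ x → x < δ →
      Conv (o.elim 1 (phi c (s.1 : ℕ))) x ∧ ev (o.elim 1 (phi c (s.1 : ℕ))) x =
        o.elim 1 (fun q => PhR c (s.1 : ℕ) x q.1 q.2) := by
    intro s o x hx0 hx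
    cases o with
    | none => exact conv_one h3 x
    | some q => exact h2 c (s.1 : ℕ) q x hx0 hc (hbd s.1 x hx0 hx)
  have hfam : ∀ (p : κ) (x : ℝ), 0 ≤ x → x < δ → Conv (fam c A B (e p)) x ∧
      ev (fam c A B (e p)) x = ∏ s, (e p s).elim 1 (fun q => PhR c (s.1 : ℕ) x q.1 q.2) := by
    intro p x hx0 hx
    unfold fam
    have h6 := conv_prod h3 Finset.univ (fun s => (e p s).elim 1 (phi c (s.1 : ℕ))) x
      (fun s _ => (hphi s (e p s) x hx0 hx).1)
    refine ⟨h6.1, h6.2.trans ?_⟩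
    exact Finset.prod_congr rfl fun s _ => (hphi s (e p s) x hx0 hx).2
  have hterm : ∀ (p : κ) (x : ℝ), 0 ≤ x → x < δ →
      Conv (PowerSeries.C ((l p).eval z) * fam c A B (e p)) x ∧
      ev (PowerSeries.C ((l p).eval z) * fam c A B (e p)) x =
        (((l p).eval z : ℚ) : ℝ) * ∏ s, (e p s).elim 1 (fun q => PhR c (s.1 : ℕ) x q.1 q.2) := by
    intro p x hx0 hx
    have h7 := h3.1 _ _ x (conv_C h3 ((l p).eval z) x).1 (hfam p x hx0 hx).1
    exact ⟨h7.2.2.1, by rw [h7.2.2.2, (conv_C h3 ((l p).eval z) x).2, (hfam p x hx0 hx).2]⟩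
  have hfull : ∀ x : ℝ, 0 ≤ x → x < δ → Conv f x ∧ ev f x =
      ∑ p, (((l p).eval z : ℚ) : ℝ) * ∏ s, (e p s).elim 1 (fun q => PhR c (s.1 : ℕ) x q.1 q.2) := by
    intro x hx0 hx
    have h8 := conv_sum h3 Finset.univ
      (fun p => PowerSeries.C ((l p).eval z) * fam c A B (e p)) x
      (fun p _ => (hterm p x hx0 hx).1)
    exact ⟨h8.1, h8.2.trans (Finset.sum_congr rfl fun p _ => (hterm p x hx0 hx).2)⟩
  have hzero : ∀ x : ℝ, 0 ≤ x → x < δ → ev f x = 0 := by
    intro x hx0 hx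
    rw [(hfull x hx0 hx).2]
    have h9 := hF (fun a => PhR c (a : ℕ) x)
      (fun a => det_PhR h2 h3 h4 c (a : ℕ) x hc hx0 (hbd a x hx0 hx))
    rw [hP, MvPolynomial.eval₂_sum] at h9
    rw [← h9]
    refine Finset.sum_congr rfl fun p _ => ?_
    rw [MvPolynomial.eval₂_mul, MvPolynomial.eval₂_C, eval_mon]
    rfl
  have hf0 : f = 0 := by
    refine (h3.2.2.2 f δ hδ0 (fun x hx => ?_)).2 ?_
    · exact conv_abs (hfull |x| (abs_nonneg x) hx).1
    · filter_upwards [self_mem_nhdsWithin, mem_nhdsWithin_of_mem_nhds (Iio_mem_nhds hδ0)]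
        with x hx1 hx2
      exact hzero x (le_of_lt hx1) hx2
  have h10 := Fintype.linearIndependent_iff.1 hli (fun p => (l p).eval z) (by
    rw [← hf0, hf]
    refine Finset.sum_congr rfl fun p _ => ?_
    rw [PowerSeries.smul_eq_C_mul]) p0
  exact hz h10

end Pool.Agent.LEG
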