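import Pool.Agent.LEG.Targets

set_option autoImplicit false

/-!
# Derivatives of the complete elliptic integrals (job KE)
-/

namespace Pool.Agent.LEG

open scoped Topology

namespace KE_

/-- `1 - m sin^2 t` -/
noncomputable def dd (m t : ℝ) : ℝ := 1 - m * Real.sin t ^ 2

theorem dd_lower (x δ t : ℝ) (h0 : 0 ≤ x) (h1 : δ ≤ 1 - x) : δ ≤ dd x t := by
  unfold dd
  have := Real.sin_sq_le_one t
  nlinarith

theorem dd_pos (x t : ℝ) (h0 : 0 ≤ x) (h1 : x < 1) : 0 < dd x t := by
  have := dd_lower x (1 - x) t h0 le_rfl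
  linarith

theorem cont_dd (x : ℝ) : Continuous (dd x) := by
  unfold dd
  fun_prop

theorem cont_inv (x : ℝ) (h0 : 0 ≤ x) (h1 : x < 1) : Continuous fun t => 1 / Real.sqrt (dd x t) := by
  refine continuous_const.div ((cont_dd x).sqrt) fun t => ?_
  exact (Real.sqrt_pos.2 (dd_pos x t h0 h1)).ne'

theorem cont_inv3 (x : ℝ) (h0 : 0 ≤ x) (h1 : x < 1) :
    Continuous fun t => 1 / (dd x t * Real.sqrt (dd x t)) := by
  refine continuous_const.div ((cont_dd x).mul (cont_dd x).sqrt) fun t => ?_
  exact mul_ne_zero (dd_pos x t h0 h1).ne' (Real.sqrt_pos.2 (dd_pos x t h0 h1)).ne'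

theorem hasDerivAt_dd (x t : ℝ) : HasDerivAt (fun x => dd x t) (-(Real.sin t ^ 2)) x := by
  unfold dd
  have h := ((hasDerivAt_id x).mul_const (Real.sin t ^ 2)).const_sub 1
  simpa using h

theorem hasDerivAt_sqrt (x t : ℝ) (h : 0 < dd x t) :
    HasDerivAt (fun x => Real.sqrt (dd x t)) (-(Real.sin t ^ 2) / (2 * Real.sqrt (dd x t))) x :=
  (hasDerivAt_dd x t).sqrt h.ne'

theorem hasDerivAt_inv (x t : ℝ) (h : 0 < dd x t) :
    HasDerivAt (fun x => 1 / Real.sqrt (dd x t))
      (Real.sin t ^ 2 / 2 * (1 / (dd x t * Real.sqrt (dd x t)))) x := by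
  have hs : Real.sqrt (dd x t) ≠ 0 := (Real.sqrt_pos.2 h).ne'
  have h1 := (hasDerivAt_sqrt x t h).inv hs
  have h2 : (fun x => 1 / Real.sqrt (dd x t)) = (fun x => Real.sqrt (dd x t))⁻¹ := by
    funext y
    rw [one_div]
    rfl
  rw [h2]
  refine h1.congr_deriv ?_
  rw [Real.sq_sqrt h.le]
  field_simp

/-- the primitive used for the reduction -/
theorem hasDerivAt_prim (m t : ℝ) (h : 0 < dd m t) :
    HasDerivAt (fun t => Real.sin t * Real.cos t / Real.sqrt (dd m t))
      (((Real.cos t ^ 2 - Real.sin t ^ 2) * dd m t + m * Real.sin t ^ 2 * Real.cos t ^ 2) *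
        (1 / (dd m t * Real.sqrt (dd m t)))) t := by
  have hs : Real.sqrt (dd m t) ≠ 0 := (Real.sqrt_pos.2 h).ne'
  have h1 : HasDerivAt (fun t => dd m t) (-(m * (2 * Real.sin t * Real.cos t))) t := by
    unfold dd
    have h2 := (((Real.hasDerivAt_sin t).pow 2).const_mul m).const_sub 1
    refine h2.congr_deriv ?_
    norm_num
  have h2 := h1.sqrt h.ne'
  have h3 := ((Real.hasDerivAt_sin t).mul (Real.hasDerivAt_cos t)).div h2 hs
  refine h3.congr_deriv ?_
  have h4 : (Real.sin * Real.cos) t = Real.sin t * Real.cos t := rfl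
  rw [h4, Real.sq_sqrt h.le]
  field_simp
  rw [Real.sq_sqrt h.le]
  ring

/-- the reduction formula -/
theorem red (m : ℝ) (h0 : 0 ≤ m) (h1 : m < 1) :
    (1 - m) * ∫ t in (0 : ℝ)..(Real.pi / 2), 1 / (dd m t * Real.sqrt (dd m t)) = EE m := by
  have hp : ∀ t, 0 < dd m t := fun t => dd_pos m t h0 h1
  have hc : Continuous fun t => ((Real.cos t ^ 2 - Real.sin t ^ 2) * dd m t +
      m * Real.sin t ^ 2 * Real.cos t ^ 2) * (1 / (dd m t * Real.sqrt (dd m t))) := by
    refine Continuous.mul ?_ (cont_inv3 m h0 h1)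
    have := cont_dd m
    fun_prop
  have h2 := intervalIntegral.integral_eq_sub_of_hasDerivAt
    (a := (0 : ℝ)) (b := Real.pi / 2) (fun t _ => hasDerivAt_prim m t (hp t))
    (hc.intervalIntegrable _ _)
  simp only [Real.cos_pi_div_two, Real.sin_zero, mul_zero, zero_mul, zero_div, sub_self] at h2
  have h3 : EE m = ∫ t in (0 : ℝ)..(Real.pi / 2), Real.sqrt (dd m t) := rfl
  have hc2 : Continuous fun t => (1 - m) * (1 / (dd m t * Real.sqrt (dd m t))) :=
    continuous_const.mul (cont_inv3 m h0 h1)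
  rw [h3, ← sub_eq_zero, ← intervalIntegral.integral_const_mul,
    ← intervalIntegral.integral_sub (hc2.intervalIntegrable
      _ _) ((cont_dd m).sqrt.intervalIntegrable _ _)]
  have h4 : ∀ t, (1 - m) * (1 / (dd m t * Real.sqrt (dd m t))) - Real.sqrt (dd m t) =
      -m * (((Real.cos t ^ 2 - Real.sin t ^ 2) * dd m t +
        m * Real.sin t ^ 2 * Real.cos t ^ 2) * (1 / (dd m t * Real.sqrt (dd m t)))) := by
    intro t
    have hs : Real.sqrt (dd m t) ≠ 0 := (Real.sqrt_pos.2 (hp t)).ne'
    have hd : dd m t ≠ 0 := (hp t).ne'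
    have h5 : Real.sqrt (dd m t) = dd m t * dd m t * (1 / (dd m t * Real.sqrt (dd m t))) := by
      field_simp
      rw [Real.sq_sqrt (hp t).le]
    have h6 : (1 - m) - dd m t * dd m t = -m * (((Real.cos t ^ 2 - Real.sin t ^ 2) * dd m t +
        m * Real.sin t ^ 2 * Real.cos t ^ 2)) := by
      unfold dd
      rw [Real.cos_sq']
      ring
    calc (1 - m) * (1 / (dd m t * Real.sqrt (dd m t))) - Real.sqrt (dd m t)
        = ((1 - m) - dd m t * dd m t) * (1 / (dd m t * Real.sqrt (dd m t))) := by
          rw [sub_mul (1 - m), ← h5]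
      _ = _ := by rw [h6]; ring
  rw [intervalIntegral.integral_congr (fun t _ => h4 t), intervalIntegral.integral_const_mul, h2,
    mul_zero]

end KE_

open KE_ in
theorem p_KE : T_KE := by
  intro m hm0 hm1
  have hp : ∀ t, 0 < dd m t := fun t => dd_pos m t hm0.le hm1
  set δ : ℝ := (1 - m) / 2 with hδ
  have hδ0 : 0 < δ := by rw [hδ]; linarith
  have hs : Set.Ioo 0 (1 - δ) ∈ 𝓝 m := Ioo_mem_nhds hm0 (by rw [hδ]; linarith)
  have hsd : ∀ x ∈ Set.Ioo 0 (1 - δ), ∀ t, δ ≤ dd x t := by
    intro x hx t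
    exact dd_lower x δ t hx.1.le (by linarith [hx.2])
  have hE3 := red m hm0.le hm1
  constructor
  · have h1 := (intervalIntegral.hasDerivAt_integral_of_dominated_loc_of_deriv_le
      (a := (0 : ℝ)) (b := Real.pi / 2) (μ := MeasureTheory.volume)
      (F := fun x t => 1 / Real.sqrt (dd x t))
      (F' := fun x t => Real.sin t ^ 2 / 2 * (1 / (dd x t * Real.sqrt (dd x t))))
      (bound := fun _ => 1 / 2 * (1 / (δ * Real.sqrt δ))) hs ?_ ?_ ?_ ?_ ?_ ?_).2
    · refine h1.congr_deriv ?_
      have h2 : ∀ t, Real.sin t ^ 2 / 2 * (1 / (dd m t * Real.sqrt (dd m t))) =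
          1 / (2 * m) * (1 / (dd m t * Real.sqrt (dd m t)) - 1 / Real.sqrt (dd m t)) := by
        intro t
        have hs : Real.sqrt (dd m t) ≠ 0 := (Real.sqrt_pos.2 (hp t)).ne'
        have hd : dd m t ≠ 0 := (hp t).ne'
        have h3 : Real.sin t ^ 2 = (1 - dd m t) / m := by
          unfold dd
          field_simp
          ring
        rw [h3]
        field_simp
      rw [intervalIntegral.integral_congr (fun t _ => h2 t), intervalIntegral.integral_const_mul,
        intervalIntegral.integral_sub ((cont_inv3 m hm0.le hm1).intervalIntegrable _ _)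
          ((cont_inv m hm0.le hm1).intervalIntegrable _ _)]
      have h4 : (∫ t in (0 : ℝ)..(Real.pi / 2), 1 / Real.sqrt (dd m t)) = KK m := rfl
      rw [h4]
      have h5 : (∫ t in (0 : ℝ)..(Real.pi / 2), 1 / (dd m t * Real.sqrt (dd m t))) =
          EE m / (1 - m) := by
        rw [eq_div_iff (by linarith), mul_comm]
        exact hE3
      rw [h5]
      have h6 : 1 - m ≠ 0 := by linarith
      field_simp
    · filter_upwards [hs] with x hx
      refine Continuous.aestronglyMeasurable ?_
      exact cont_inv x hx.1.le (by linarith [hx.2])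
    · exact (cont_inv m hm0.le hm1).intervalIntegrable _ _
    · refine Continuous.aestronglyMeasurable ?_
      exact ((Real.continuous_sin.pow 2).div_const 2).mul (cont_inv3 m hm0.le hm1)
    · refine Filter.Eventually.of_forall fun t _ x hx => ?_
      have h3 := hsd x hx t
      have h4 : 0 < dd x t := lt_of_lt_of_le hδ0 h3
      rw [Real.norm_eq_abs, abs_of_nonneg (by positivity)]
      refine mul_le_mul ?_ ?_ (by positivity) (by norm_num)
      · have := Real.sin_sq_le_one t
        linarith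
      · refine one_div_le_one_div_of_le (by positivity) ?_
        exact mul_le_mul h3 (Real.sqrt_le_sqrt h3) (Real.sqrt_nonneg _) h4.le
    · exact intervalIntegrable_const
    · refine Filter.Eventually.of_forall fun t _ x hx => ?_
      exact hasDerivAt_inv x t (lt_of_lt_of_le hδ0 (hsd x hx t))
  · have h1 := (intervalIntegral.hasDerivAt_integral_of_dominated_loc_of_deriv_le
      (a := (0 : ℝ)) (b := Real.pi / 2) (μ := MeasureTheory.volume)
      (F := fun x t => Real.sqrt (dd x t))
      (F' := fun x t => -(Real.sin t ^ 2) / (2 * Real.sqrt (dd x t)))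
      (bound := fun _ => 1 / (2 * Real.sqrt δ)) hs ?_ ?_ ?_ ?_ ?_ ?_).2
    · refine h1.congr_deriv ?_
      have h2 : ∀ t, -(Real.sin t ^ 2) / (2 * Real.sqrt (dd m t)) =
          1 / (2 * m) * (Real.sqrt (dd m t) - 1 / Real.sqrt (dd m t)) := by
        intro t
        have hs : Real.sqrt (dd m t) ≠ 0 := (Real.sqrt_pos.2 (hp t)).ne'
        have h3 : Real.sin t ^ 2 = (1 - dd m t) / m := by
          unfold dd
          field_simp
          ring
        rw [h3]
        field_simp
        rw [Real.sq_sqrt (hp t).le]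
        ring
      rw [intervalIntegral.integral_congr (fun t _ => h2 t), intervalIntegral.integral_const_mul,
        intervalIntegral.integral_sub ((cont_dd m).sqrt.intervalIntegrable _ _)
          ((cont_inv m hm0.le hm1).intervalIntegrable _ _)]
      have h4 : (∫ t in (0 : ℝ)..(Real.pi / 2), 1 / Real.sqrt (dd m t)) = KK m := rfl
      have h5 : (∫ t in (0 : ℝ)..(Real.pi / 2), Real.sqrt (dd m t)) = EE m := rfl
      rw [h4, h5]
      field_simp
    · filter_upwards [hs] with x hx
      exact ((cont_dd x).sqrt).aestronglyMeasurable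
    · exact (cont_dd m).sqrt.intervalIntegrable _ _
    · refine Continuous.aestronglyMeasurable ?_
      refine ((Real.continuous_sin.pow 2).neg).div (continuous_const.mul (cont_dd m).sqrt)
        fun t => ?_
      exact mul_ne_zero two_ne_zero (Real.sqrt_pos.2 (hp t)).ne'
    · refine Filter.Eventually.of_forall fun t _ x hx => ?_
      have h3 := hsd x hx t
      have h4 : 0 < dd x t := lt_of_lt_of_le hδ0 h3
      rw [Real.norm_eq_abs, abs_div, abs_neg, abs_of_nonneg (sq_nonneg _),
        abs_of_nonneg (by positivity)]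
      refine div_le_div₀ (by norm_num) (Real.sin_sq_le_one t) (by positivity) ?_
      exact mul_le_mul_of_nonneg_left (Real.sqrt_le_sqrt h3) (by norm_num)
    · exact intervalIntegrable_const
    · refine Filter.Eventually.of_forall fun t _ x hx => ?_
      exact hasDerivAt_sqrt x t (lt_of_lt_of_le hδ0 (hsd x hx t))

end Pool.Agent.LEG
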