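import Pool.Agent.LEG.Targets

set_option autoImplicit false

/-!
# LEG-KF: the complete elliptic integrals as power series
-/

namespace Pool.Agent.LEG

open Finset
open scoped BigOperators Topology

namespace KF_

theorem const_of_deriv (w : ℝ → ℝ) (L : ℝ) (h : ∀ m : ℝ, 0 < m → m < 1 → HasDerivAt w 0 m)
    (hl : Filter.Tendsto w (𝓝[>] 0) (𝓝 L)) (m : ℝ) (h0 : 0 < m) (h1 : m < 1) : w m = L := by
  have hc : ∀ x ∈ Set.Ioo (0 : ℝ) 1, w x = w m := by
    intro x hx
    refine isOpen_Ioo.is_const_of_deriv_eq_zero isPreconnected_Ioo ?_ ?_ hx ⟨h0, h1⟩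
    · intro y hy
      exact (h y hy.1 hy.2).differentiableAt.differentiableWithinAt
    · intro y hy
      exact (h y hy.1 hy.2).deriv
  have h2 : Filter.Tendsto w (𝓝[>] 0) (𝓝 (w m)) := by
    refine tendsto_const_nhds.congr' ?_
    have : Set.Ioo (0 : ℝ) 1 ∈ 𝓝[>] (0 : ℝ) := Ioo_mem_nhdsGT one_pos
    filter_upwards [this] with x hx
    exact (hc x hx).symm
  exact tendsto_nhds_unique h2 hl

theorem ev_zero (f : PowerSeries ℚ) : ev f 0 = ((PowerSeries.constantCoeff f : ℚ) : ℝ) := by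
  unfold ev
  rw [tsum_eq_single 0]
  · simp
  · intro n hn
    rw [zero_pow hn, mul_zero]

theorem two_coe : ((2 : Polynomial ℚ) : PowerSeries ℚ) = 2 :=
  map_ofNat (Polynomial.coeToPowerSeries.ringHom (R := ℚ)) 2

theorem cF0 : PowerSeries.constantCoeff F0 = 1 := by
  rw [← PowerSeries.coeff_zero_eq_constantCoeff_apply, F0, PowerSeries.coeff_mk]
  simp

theorem cF2 : PowerSeries.constantCoeff F2 = 1 := by
  unfold F2
  simp [cF0]

theorem F0_pos (h4 : T_CONV) (x : ℝ) (h0 : 0 ≤ x) (h1 : x < 1) : 1 ≤ ev F0 x := by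
  have hc : Conv F0 x := h4 0 0 x (by rw [abs_of_nonneg h0]; exact h1)
  have hnn : ∀ n : ℕ, 0 ≤ ((PowerSeries.coeff n F0 : ℚ) : ℝ) := by
    intro n
    rw [F0, PowerSeries.coeff_mk]
    positivity
  have hs : Summable fun n : ℕ => ((PowerSeries.coeff n F0 : ℚ) : ℝ) * x ^ n := by
    refine hc.congr fun n => ?_
    rw [abs_of_nonneg (hnn n), abs_of_nonneg h0]
  have h2 := hs.le_tsum 0 (fun n _ => mul_nonneg (hnn n) (pow_nonneg h0 n))
  have h3 : ((PowerSeries.coeff 0 F0 : ℚ) : ℝ) * x ^ 0 = 1 := by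
    rw [PowerSeries.coeff_zero_eq_constantCoeff_apply, cF0]; simp
  rw [h3] at h2
  exact h2

end KF_

open KF_

theorem p_KF (h1 : T_KE) (h2 : T_LIM) (h3 : T_FORM) (h4 : T_CONV) (h5 : T_EVC) : T_KF := by
  obtain ⟨hring, hpol, -, han⟩ := h5
  have hC0 : ∀ x : ℝ, |x| < 1 → Conv F0 x := fun x hx => h4 0 0 x hx
  have hC2 : ∀ x : ℝ, |x| < 1 → Conv F2 x := fun x hx => h4 1 0 x hx
  have a0 := (han F0 1 one_pos hC0).1
  have a2 := (han F2 1 one_pos hC2).1
  -- the derivatives of the series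
  have d0 : ∀ m : ℝ, 0 < m → m < 1 →
      HasDerivAt (ev F0) ((ev F2 m - (1 - m) * ev F0 m) / (2 * m * (1 - m))) m := by
    intro m hm0 hm1
    have hm : |m| < 1 := by rw [abs_of_pos hm0]; exact hm1
    obtain ⟨-, hcd, hd⟩ := a0 m hm
    have e : F2 = ((2 * Polynomial.X * (1 - Polynomial.X) : Polynomial ℚ) : PowerSeries ℚ) *
        PowerSeries.derivative ℚ F0 + ((1 - Polynomial.X : Polynomial ℚ) : PowerSeries ℚ) * F0 := by
      unfold F2
      simp [two_coe]
    have hA := hring _ _ m (hpol (2 * Polynomial.X * (1 - Polynomial.X)) m).1 hcd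
    have hB := hring _ _ m (hpol (1 - Polynomial.X) m).1 (hC0 m hm)
    have hS := hring _ _ m hA.2.2.1 hB.2.2.1
    have hev := hS.2.1
    rw [← e, hA.2.2.2, hB.2.2.2, (hpol _ m).2, (hpol _ m).2] at hev
    simp only [map_mul, map_sub, Polynomial.aeval_X, map_one, map_ofNat] at hev
    have h6 : (1 : ℝ) - m ≠ 0 := by linarith
    have h7 : m ≠ 0 := hm0.ne'
    convert hd using 1
    rw [hev]
    field_simp
    ring
  have d2 : ∀ m : ℝ, 0 < m → m < 1 → HasDerivAt (ev F2) ((ev F2 m - ev F0 m) / (2 * m)) m := by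
    intro m hm0 hm1
    have hm : |m| < 1 := by rw [abs_of_pos hm0]; exact hm1
    obtain ⟨-, hcd, hd⟩ := a2 m hm
    have e : F2 = ((2 * Polynomial.X : Polynomial ℚ) : PowerSeries ℚ) *
        PowerSeries.derivative ℚ F2 + F0 := by
      have := h3.1
      simp only [Polynomial.coe_mul, Polynomial.coe_X]
      rw [two_coe, this]
      ring
    have hA := hring _ _ m (hpol (2 * Polynomial.X) m).1 hcd
    have hS := hring _ _ m hA.2.2.1 (hC0 m hm)
    have hev := hS.2.1
    rw [← e, hA.2.2.2, (hpol _ m).2] at hev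
    simp only [map_mul, Polynomial.aeval_X, map_ofNat] at hev
    have h7 : m ≠ 0 := hm0.ne'
    convert hd using 1
    rw [hev]
    field_simp
    ring
  have hpos : ∀ m : ℝ, 0 < m → m < 1 → ev F0 m ≠ 0 := fun m hm0 hm1 =>
    (lt_of_lt_of_le one_pos (F0_pos h4 m hm0.le hm1)).ne'
  have t0 : Filter.Tendsto (ev F0) (𝓝[>] 0) (𝓝 1) := by
    have := (a0 0 (by simp)).2.2.continuousAt.tendsto
    rw [ev_zero, cF0] at this
    simpa using this.mono_left nhdsWithin_le_nhds
  have t2 : Filter.Tendsto (ev F2) (𝓝[>] 0) (𝓝 1) := by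
    have := (a2 0 (by simp)).2.2.continuousAt.tendsto
    rw [ev_zero, cF2] at this
    simpa using this.mono_left nhdsWithin_le_nhds
  -- the first Wronskian
  have hw : ∀ m : ℝ, 0 < m → m < 1 → KK m * ev F2 m - EE m * ev F0 m = 0 := by
    refine const_of_deriv _ 0 ?_ ?_
    · intro m hm0 hm1
      have h6 : (1 : ℝ) - m ≠ 0 := by linarith
      have h7 : m ≠ 0 := hm0.ne'
      refine (((h1 m hm0 hm1).1.mul (d2 m hm0 hm1)).sub
        ((h1 m hm0 hm1).2.mul (d0 m hm0 hm1))).congr_deriv ?_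
      field_simp
      ring
    · have := (h2.1.mul t2).sub (h2.2.1.mul t0)
      simpa using this
  have hK : ∀ m : ℝ, 0 < m → m < 1 → KK m / ev F0 m = Real.pi / 2 := by
    refine const_of_deriv _ _ ?_ ?_
    · intro m hm0 hm1
      have h6 : (1 : ℝ) - m ≠ 0 := by linarith
      have h7 : m ≠ 0 := hm0.ne'
      have h8 := hpos m hm0 hm1
      refine ((h1 m hm0 hm1).1.div (d0 m hm0 hm1) h8).congr_deriv ?_
      rw [div_eq_zero_iff]
      left
      have h9 := hw m hm0 hm1
      have : (EE m - (1 - m) * KK m) / (2 * m * (1 - m)) * ev F0 m -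
          KK m * ((ev F2 m - (1 - m) * ev F0 m) / (2 * m * (1 - m))) =
          -(KK m * ev F2 m - EE m * ev F0 m) / (2 * m * (1 - m)) := by
        field_simp
        ring
      rw [this, h9]
      simp
    · have := h2.1.div t0 one_ne_zero
      rw [div_one] at this
      exact this
  intro m hm0 hm1
  have h8 := hpos m hm0 hm1
  have hKm : KK m = Real.pi / 2 * ev F0 m := by
    rw [← hK m hm0 hm1]
    field_simp
  refine ⟨hKm, ?_⟩
  have h9 := hw m hm0 hm1
  rw [hKm] at h9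
  have : ev F0 m * (Real.pi / 2 * ev F2 m - EE m) = 0 := by linear_combination h9
  have h10 := (mul_eq_zero.1 this).resolve_left h8
  linarith

end Pool.Agent.LEG
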