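import Pool.Agent.LEG.Targets

set_option autoImplicit false

/-!
# LEG, job KH: logarithmic expansion of the complementary integrals
-/

namespace Pool.Agent.LEG

open Finset
open scoped BigOperators Topology

namespace KH_

/-- evaluation rules at a fixed point -/
theorem rules (h6 : T_EVC) (x : ℝ) {f g : PowerSeries ℚ} (hf : Conv f x) (hg : Conv g x) :
    (Conv (f + g) x ∧ ev (f + g) x = ev f x + ev g x) ∧
    (Conv (f * g) x ∧ ev (f * g) x = ev f x * ev g x) := by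
  obtain ⟨a, b, c, d⟩ := h6.1 f g x hf hg
  exact ⟨⟨a, b⟩, c, d⟩

theorem two_X (h6 : T_EVC) (x : ℝ) : Conv (2 * PowerSeries.X : PowerSeries ℚ) x ∧
    ev (2 * PowerSeries.X) x = 2 * x := by
  have e : (2 * PowerSeries.X : PowerSeries ℚ) =
      ((Polynomial.C 2 * Polynomial.X : Polynomial ℚ) : PowerSeries ℚ) := by
    rw [Polynomial.coe_mul, Polynomial.coe_C, Polynomial.coe_X, map_ofNat]
  rw [e]
  obtain ⟨a, b⟩ := h6.2.1 (Polynomial.C 2 * Polynomial.X) x
  refine ⟨a, b.trans ?_⟩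
  simp

theorem one_sub_X (h6 : T_EVC) (x : ℝ) : Conv (1 - PowerSeries.X : PowerSeries ℚ) x ∧
    ev (1 - PowerSeries.X) x = 1 - x := by
  have e : (1 - PowerSeries.X : PowerSeries ℚ) =
      ((1 - Polynomial.X : Polynomial ℚ) : PowerSeries ℚ) := by
    rw [Polynomial.coe_sub, Polynomial.coe_one, Polynomial.coe_X]
  rw [e]
  obtain ⟨a, b⟩ := h6.2.1 (1 - Polynomial.X) x
  refine ⟨a, b.trans ?_⟩
  simp

theorem one_ev (h6 : T_EVC) (x : ℝ) : Conv (1 : PowerSeries ℚ) x ∧ ev (1 : PowerSeries ℚ) x = 1 := by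
  obtain ⟨a, b⟩ := h6.2.1 1 x
  rw [Polynomial.coe_one] at a b
  refine ⟨a, b.trans ?_⟩
  simp

/-- the differential equations of the four real functions -/
theorem odes (h4 : T_FORM) (h5 : T_CONV) (h6 : T_EVC) {x : ℝ} (hx0 : 0 < x) (hx1 : x < 1) :
    HasDerivAt (ev F0) ((ev F2 x - (1 - x) * ev F0 x) / (2 * x * (1 - x))) x ∧
    HasDerivAt (ev H0) ((ev H2 x - (1 - x) * ev H0 x - (1 - x) * ev F0 x) / (2 * x * (1 - x))) x ∧
    ev F0 x * ev H2 x - ev F2 x * ev H0 x = 1 := by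
  have hx : |x| < 1 := abs_lt.2 ⟨by linarith, hx1⟩
  have cF0 : ∀ y : ℝ, |y| < 1 → Conv F0 y := h5 0 0
  have cH0 : ∀ y : ℝ, |y| < 1 → Conv H0 y := h5 0 1
  have cF2 : ∀ y : ℝ, |y| < 1 → Conv F2 y := h5 1 0
  have cH2 : ∀ y : ℝ, |y| < 1 → Conv H2 y := h5 1 1
  obtain ⟨-, dF0, hF0⟩ := (h6.2.2.2 F0 1 one_pos cF0).1 x hx
  obtain ⟨-, dH0, hH0⟩ := (h6.2.2.2 H0 1 one_pos cH0).1 x hx
  have t := two_X h6 x
  have o := one_sub_X h6 x
  have txo := (rules h6 x t.1 o.1).2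
  have hne : 2 * x * (1 - x) ≠ 0 := by
    have : 0 < 1 - x := by linarith
    positivity
  refine ⟨?_, ?_, ?_⟩
  · have e1 := (rules h6 x txo.1 dF0).2
    have e2 := (rules h6 x o.1 (cF0 x hx)).2
    have e3 := (rules h6 x e1.1 e2.1).1
    have e4 : ev F2 x = 2 * x * (1 - x) * ev (PowerSeries.derivative ℚ F0) x +
        (1 - x) * ev F0 x := by
      have : F2 = 2 * PowerSeries.X * (1 - PowerSeries.X) * PowerSeries.derivative ℚ F0 +
        (1 - PowerSeries.X) * F0 := rfl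
      rw [this, e3.2, e1.2, e2.2, txo.2, t.2, o.2]
    have e5 : (ev F2 x - (1 - x) * ev F0 x) / (2 * x * (1 - x)) =
        ev (PowerSeries.derivative ℚ F0) x := by
      rw [div_eq_iff hne, e4]
      ring
    rw [e5]
    exact hF0
  · have e1 := (rules h6 x txo.1 dH0).2
    have e2 := (rules h6 x o.1 (cH0 x hx)).2
    have e2' := (rules h6 x o.1 (cF0 x hx)).2
    have e3 := (rules h6 x e1.1 e2.1).1
    have e3' := (rules h6 x e3.1 e2'.1).1
    have e4 : ev H2 x = 2 * x * (1 - x) * ev (PowerSeries.derivative ℚ H0) x +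
        (1 - x) * ev H0 x + (1 - x) * ev F0 x := by
      have : H2 = 2 * PowerSeries.X * (1 - PowerSeries.X) * PowerSeries.derivative ℚ H0 +
        (1 - PowerSeries.X) * H0 + (1 - PowerSeries.X) * F0 := rfl
      rw [this, e3'.2, e3.2, e1.2, e2.2, e2'.2, txo.2, t.2, o.2]
    have e5 : (ev H2 x - (1 - x) * ev H0 x - (1 - x) * ev F0 x) / (2 * x * (1 - x)) =
        ev (PowerSeries.derivative ℚ H0) x := by
      rw [div_eq_iff hne, e4]
      ring
    rw [e5]
    exact hH0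
  · have e1 := (rules h6 x (cF0 x hx) (cH2 x hx)).2
    have e2 := (rules h6 x (cF2 x hx) (cH0 x hx)).2
    have e3 := (rules h6 x (one_ev h6 x).1 e2.1).1
    have e4 : F0 * H2 = 1 + F2 * H0 := by
      have := h4.2.2
      rw [← this]
      ring
    have e5 : ev (F0 * H2) x = ev (1 + F2 * H0) x := by rw [e4]
    rw [e1.2, e3.2, (one_ev h6 x).2, e2.2] at e5
    linarith

theorem F0_pos (h5 : T_CONV) {x : ℝ} (hx0 : 0 < x) (hx1 : x < 1) : 0 < ev F0 x := by
  have hc : Conv F0 x := h5 0 0 x (abs_lt.2 ⟨by linarith, hx1⟩)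
  have hnn : ∀ n : ℕ, 0 ≤ ((PowerSeries.coeff n F0 : ℚ) : ℝ) * x ^ n := by
    intro n
    have : (0 : ℚ) ≤ PowerSeries.coeff n F0 := by
      simp only [F0, PowerSeries.coeff_mk]
      positivity
    have h' : (0 : ℝ) ≤ ((PowerSeries.coeff n F0 : ℚ) : ℝ) := by exact_mod_cast this
    positivity
  have hs : Summable fun n : ℕ => ((PowerSeries.coeff n F0 : ℚ) : ℝ) * x ^ n := by
    refine Summable.of_norm (hc.congr fun n => ?_)
    rw [norm_mul, norm_pow, Real.norm_eq_abs, Real.norm_eq_abs]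
  have h1 := hs.le_tsum 0 fun n _ => hnn n
  have h2 : ((PowerSeries.coeff 0 F0 : ℚ) : ℝ) * x ^ 0 = 1 := by
    simp [F0]
  rw [h2] at h1
  exact lt_of_lt_of_le one_pos h1

end KH_

open KH_ in
theorem p_KH (h1 : T_KE) (h2 : T_LEGR) (h3 : T_KF) (h4 : T_FORM) (h5 : T_CONV) (h6 : T_EVC) :
    T_KH := by
  -- the algebraic relation
  have rel : ∀ m : ℝ, 0 < m → m < 1 →
      (KK (1 - m) + 1 / 2 * ev F0 m * Real.log m + ev H0 m) * ev F2 m =
      (KK (1 - m) - EE (1 - m) + 1 / 2 * ev F2 m * Real.log m + ev H2 m) * ev F0 m := by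
    intro m hm0 hm1
    obtain ⟨-, -, hw⟩ := odes h4 h5 h6 hm0 hm1
    obtain ⟨k1, k2⟩ := h3 m hm0 hm1
    have hl := h2 m hm0 hm1
    rw [k1, k2] at hl
    have hpi := Real.pi_pos
    have hl' : ev F2 m * KK (1 - m) + EE (1 - m) * ev F0 m - ev F0 m * KK (1 - m) = 1 := by
      have : Real.pi / 2 * (ev F2 m * KK (1 - m) + EE (1 - m) * ev F0 m - ev F0 m * KK (1 - m)) =
          Real.pi / 2 * 1 := by linarith
      exact mul_left_cancel₀ (by positivity) this
    linear_combination hl' - hw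
  have hder : ∀ m : ℝ, 0 < m → m < 1 →
      HasDerivAt (fun m => (KK (1 - m) + 1 / 2 * ev F0 m * Real.log m + ev H0 m) / ev F0 m) 0 m := by
    intro m hm0 hm1
    obtain ⟨d1, d2, -⟩ := odes h4 h5 h6 hm0 hm1
    have hf := F0_pos h5 hm0 hm1
    have hK := (h1 (1 - m) (by linarith) (by linarith)).1
    have hK' : HasDerivAt (fun m => KK (1 - m))
        ((EE (1 - m) - (1 - (1 - m)) * KK (1 - m)) / (2 * (1 - m) * (1 - (1 - m))) * (-1)) m :=
      HasDerivAt.comp m hK ((hasDerivAt_id m).const_sub 1)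
    have hlog := Real.hasDerivAt_log hm0.ne'
    have h7 := ((hK'.add ((d1.const_mul (1 / 2)).mul hlog)).add d2).div d1 hf.ne'
    have hr := rel m hm0 hm1
    refine h7.congr_deriv ?_
    have h1m : (1 - m) ≠ 0 := by linarith
    have hm : m ≠ 0 := hm0.ne'
    have hf' := hf.ne'
    rw [div_eq_zero_iff]
    left
    have e1 : (1 - (1 - m)) = m := by ring
    simp only [Pi.add_apply, Pi.mul_apply, e1]
    field_simp
    linear_combination (-2 : ℝ) * hr
  obtain ⟨c1, hc1⟩ := isOpen_Ioo.exists_is_const_of_deriv_eq_zero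
    (f := fun m : ℝ => (KK (1 - m) + 1 / 2 * ev F0 m * Real.log m + ev H0 m) / ev F0 m)
    (s := Set.Ioo (0 : ℝ) 1) isPreconnected_Ioo
    (fun m hm => (hder m hm.1 hm.2).differentiableAt.differentiableWithinAt)
    (fun m hm => (hder m hm.1 hm.2).deriv)
  refine ⟨c1, fun m hm0 hm1 => ?_⟩
  have hf := F0_pos h5 hm0 hm1
  have h8 : (KK (1 - m) + 1 / 2 * ev F0 m * Real.log m + ev H0 m) / ev F0 m = c1 :=
    hc1 m ⟨hm0, hm1⟩
  rw [div_eq_iff hf.ne'] at h8
  have hr := rel m hm0 hm1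
  refine ⟨by linarith, ?_⟩
  have h9 : (KK (1 - m) - EE (1 - m) + 1 / 2 * ev F2 m * Real.log m + ev H2 m) * ev F0 m =
      (c1 * ev F2 m) * ev F0 m := by
    rw [← hr, h8]
    ring
  have h10 := mul_right_cancel₀ hf.ne' h9
  linarith

end Pool.Agent.LEG
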