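import Pool.Agent.LEG.Targets

set_option autoImplicit false

/-!
# Legendre's relation
-/

namespace Pool.Agent.LEG

open Filter
open scoped Topology

namespace LEGR_

/-- the Legendre expression -/
noncomputable def L (m : ℝ) : ℝ :=
  EE m * KK (1 - m) + EE (1 - m) * KK m - KK m * KK (1 - m)

theorem hasDerivAt_L (h1 : T_KE) (m : ℝ) (h0 : 0 < m) (hm : m < 1) : HasDerivAt L 0 m := by
  obtain ⟨k, e⟩ := h1 m h0 hm
  obtain ⟨k1, e1⟩ := h1 (1 - m) (by linarith) (by linarith)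
  have hs : HasDerivAt (fun x : ℝ => 1 - x) (-1) m := by
    simpa using (hasDerivAt_id m).const_sub 1
  have k2 := HasDerivAt.comp m k1 hs
  have e2 := HasDerivAt.comp m e1 hs
  have h := ((e.mul k2).add (e2.mul k)).sub (k.mul k2)
  refine (h.congr_deriv ?_).congr_of_eventuallyEq ?_
  · have hm0 : m ≠ 0 := h0.ne'
    have hm1 : (1 - m) ≠ 0 := by linarith
    simp only [Function.comp_apply]
    have e3 : (1 - (1 - m)) = m := by ring
    rw [e3]
    field_simp
    ring
  · exact Filter.Eventually.of_forall fun x => rfl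

theorem const_L (h1 : T_KE) {x y : ℝ} (hx0 : 0 < x) (hxy : x < y) (hy : y < 1) : L x = L y := by
  obtain ⟨c, hc, hc'⟩ := exists_hasDerivAt_eq_slope L (fun _ => 0) hxy
    (fun z hz => (hasDerivAt_L h1 z (by linarith [hz.1]) (by linarith [hz.2])).continuousAt.continuousWithinAt)
    (fun z hz => hasDerivAt_L h1 z (by linarith [hz.1]) (by linarith [hz.2]))
  have hne : y - x ≠ 0 := by linarith
  have h2 : L y - L x = 0 := by
    have := hc'.symm
    rwa [div_eq_zero_iff, or_iff_left hne] at this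
  linarith

theorem const_L' (h1 : T_KE) {x y : ℝ} (hx0 : 0 < x) (hx : x < 1) (hy0 : 0 < y) (hy : y < 1) :
    L x = L y := by
  rcases lt_trichotomy x y with h | h | h
  · exact const_L h1 hx0 h hy
  · rw [h]
  · exact (const_L h1 hy0 h hx).symm

theorem tendsto_small (h2 : T_LIM) :
    Tendsto (fun m : ℝ => (EE m - KK m) * KK (1 - m)) (𝓝[>] 0) (𝓝 0) := by
  obtain ⟨-, -, -, hK, hE⟩ := h2
  have hb : ∀ᶠ m in 𝓝[>] (0 : ℝ), ‖(EE m - KK m) * KK (1 - m)‖ ≤ 2 * Real.pi * Real.sqrt m := by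
    have hmem : Set.Ioo (0 : ℝ) (1 / 2) ∈ 𝓝[>] (0 : ℝ) := Ioo_mem_nhdsGT (by norm_num)
    filter_upwards [hmem] with m hm
    have h3 := hK m hm.1 (by linarith [hm.2])
    have h4 := hE m hm.1 hm.2
    have hs : 0 < Real.sqrt m := Real.sqrt_pos.mpr hm.1
    rw [norm_mul, Real.norm_eq_abs, Real.norm_eq_abs]
    calc |EE m - KK m| * |KK (1 - m)| ≤ (4 * m) * (Real.pi / 2 / Real.sqrt m) :=
          mul_le_mul h4 h3 (abs_nonneg _) (by linarith [hm.1])
      _ = 2 * Real.pi * Real.sqrt m := by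
          have h5 : m = Real.sqrt m * Real.sqrt m := (Real.mul_self_sqrt hm.1.le).symm
          have h6 : m / Real.sqrt m = Real.sqrt m := by
            rw [div_eq_iff hs.ne']
            exact h5
          calc (4 * m) * (Real.pi / 2 / Real.sqrt m) = 2 * Real.pi * (m / Real.sqrt m) := by ring
            _ = _ := by rw [h6]
  have ht : Tendsto (fun m : ℝ => 2 * Real.pi * Real.sqrt m) (𝓝[>] 0) (𝓝 0) := by
    have h7 : Tendsto (fun m : ℝ => 2 * Real.pi * Real.sqrt m) (𝓝 0)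
        (𝓝 (2 * Real.pi * Real.sqrt 0)) :=
      ((Real.continuous_sqrt.tendsto 0).const_mul (2 * Real.pi))
    rw [Real.sqrt_zero, mul_zero] at h7
    exact h7.mono_left nhdsWithin_le_nhds
  exact squeeze_zero_norm' hb ht

theorem tendsto_one_sub : Tendsto (fun m : ℝ => 1 - m) (𝓝[>] 0) (𝓝[<] 1) := by
  rw [tendsto_nhdsWithin_iff]
  constructor
  · have h : Tendsto (fun m : ℝ => 1 - m) (𝓝 0) (𝓝 (1 - 0)) := by
      exact (continuous_const.sub continuous_id).tendsto 0
    rw [sub_zero] at h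
    exact h.mono_left nhdsWithin_le_nhds
  · filter_upwards [self_mem_nhdsWithin] with m hm
    have hm' : (0 : ℝ) < m := hm
    show 1 - m < 1
    linarith

theorem tendsto_L (h2 : T_LIM) : Tendsto L (𝓝[>] 0) (𝓝 (Real.pi / 2)) := by
  have hsm := tendsto_small h2
  obtain ⟨hK0, -, hE1, -, -⟩ := h2
  have h3 : Tendsto (fun m : ℝ => EE (1 - m)) (𝓝[>] 0) (𝓝 1) := hE1.comp tendsto_one_sub
  have h4 := hsm.add (h3.mul hK0)
  have h5 : (0 : ℝ) + 1 * (Real.pi / 2) = Real.pi / 2 := by ring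
  rw [h5] at h4
  refine h4.congr fun m => ?_
  unfold L
  ring

end LEGR_

/-- Legendre's relation -/
theorem p_LEGR (h1 : T_KE) (h2 : T_LIM) : T_LEGR := by
  intro m h0 hm
  show LEGR_.L m = Real.pi / 2
  have ht := LEGR_.tendsto_L h2
  have hc : Tendsto LEGR_.L (𝓝[>] 0) (𝓝 (LEGR_.L m)) := by
    refine (tendsto_const_nhds (x := LEGR_.L m)).congr' ?_
    have hmem : Set.Ioo (0 : ℝ) 1 ∈ 𝓝[>] (0 : ℝ) := Ioo_mem_nhdsGT (by norm_num)
    filter_upwards [hmem] with x hx
    exact LEGR_.const_L' h1 h0 hm hx.1 hx.2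
  exact tendsto_nhds_unique hc ht

end Pool.Agent.LEG
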