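import Pool.Agent.LEG.Targets

set_option autoImplicit false

/-!
# Leibniz formulas
-/

namespace Pool.Agent.LEG.LEIB_

open Finset
open scoped BigOperators

/-- Pascal's rule for sums -/
theorem pascal {R : Type} [CommRing R] (Z : ℕ → R) (k : ℕ) :
    ∑ l ∈ range (k + 2), ((k + 1).choose l : R) * Z l =
      ∑ l ∈ range (k + 1), (k.choose l : R) * (Z l + Z (l + 1)) := by
  rw [Finset.sum_range_succ']
  have h1 : ∑ l ∈ range (k + 1), (((k + 1).choose (l + 1) : ℕ) : R) * Z (l + 1) =
      ∑ l ∈ range (k + 1), (k.choose l : R) * Z (l + 1) +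
        ∑ l ∈ range (k + 1), ((k.choose (l + 1) : ℕ) : R) * Z (l + 1) := by
    rw [← Finset.sum_add_distrib]
    apply Finset.sum_congr rfl
    intro l _
    rw [Nat.choose_succ_succ]
    push_cast
    ring
  have h2 : ∑ l ∈ range (k + 1), ((k.choose (l + 1) : ℕ) : R) * Z (l + 1) +
      (k.choose 0 : R) * Z 0 = ∑ l ∈ range (k + 1), (k.choose l : R) * Z l := by
    rw [← Finset.sum_range_succ' (fun l => (k.choose l : R) * Z l) (k + 1),
      Finset.sum_range_succ _ (k + 1), Nat.choose_succ_self]
    simp
  rw [h1, add_assoc]
  have h3 : (((k + 1).choose 0 : ℕ) : R) * Z 0 = (k.choose 0 : R) * Z 0 := by simp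
  rw [h3, h2, ← Finset.sum_add_distrib]
  apply Finset.sum_congr rfl
  intro l _
  ring

variable {R : Type} [CommRing R] [Algebra ℚ R] {ι : Type} [Fintype ι] [DecidableEq ι]

/-- the general Leibniz formula -/
theorem gen (D : Derivation ℚ R R) (T : R) (A : ι → ι → R) (B : ℕ → ι → ι → R)
    (hB0 : ∀ i j, B 0 i j = if i = j then 1 else 0)
    (hBS : ∀ k i j, B (k + 1) i j = T * D (B k i j) - (k : R) * D T * B k i j -
      ∑ l, A i l * B k l j) (V : ℕ → ι → R)
    (hVS : ∀ k i, V (k + 1) i = T * D (V k i) - (k : R) * D T * V k i - ∑ j, A i j * V k j)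
    (k : ℕ) : ∀ i, V k i = ∑ l ∈ range (k + 1), ∑ j, (k.choose l : R) * B (k - l) i j *
      T ^ l * (D : R → R)^[l] (V 0 j) := by
  induction k with
  | zero =>
    intro i
    simp [hB0]
  | succ k ih =>
    intro i
    set Y : ℕ → ℕ → R := fun a l => ∑ j, B a i j * T ^ l * (D : R → R)^[l] (V 0 j) with hY
    have hgoal : ∑ l ∈ range (k + 1 + 1), ∑ j, ((k + 1).choose l : R) * B (k + 1 - l) i j *
        T ^ l * (D : R → R)^[l] (V 0 j) =
        ∑ l ∈ range (k + 2), ((k + 1).choose l : R) * Y (k + 1 - l) l := by
      apply Finset.sum_congr rfl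
      intro l _
      rw [hY]
      simp only [Finset.mul_sum]
      apply Finset.sum_congr rfl
      intro j _
      ring
    rw [hgoal, pascal (fun l => Y (k + 1 - l) l) k, hVS k i]
    have hterm : ∀ l ∈ range (k + 1), ∀ j : ι,
        T * D ((k.choose l : R) * B (k - l) i j * T ^ l * (D : R → R)^[l] (V 0 j)) -
          (k : R) * D T * ((k.choose l : R) * B (k - l) i j * T ^ l * (D : R → R)^[l] (V 0 j)) -
          ∑ m, A i m * ((k.choose l : R) * B (k - l) m j * T ^ l * (D : R → R)^[l] (V 0 j)) =
        (k.choose l : R) * (B (k + 1 - l) i j * T ^ l * (D : R → R)^[l] (V 0 j) +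
          B (k - l) i j * T ^ (l + 1) * (D : R → R)^[l + 1] (V 0 j)) := by
      intro l hl j
      rw [Finset.mem_range] at hl
      have h1 : k + 1 - l = (k - l) + 1 := by omega
      have hcast : ((k - l : ℕ) : R) = (k : R) - (l : R) := by
        rw [Nat.cast_sub (by omega)]
      have hchoose : D ((k.choose l : ℕ) : R) = 0 := D.map_natCast _
      have hpow : T * D (T ^ l) = (l : R) * T ^ l * D T := by
        rw [D.leibniz_pow]
        rcases Nat.eq_zero_or_pos l with h0 | h0
        · subst h0
          simp
        · have h2 : T ^ l = T ^ (l - 1) * T := by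
            rw [← pow_succ]
            congr 1
            omega
          rw [h2]
          simp only [smul_eq_mul, nsmul_eq_mul]
          ring
      have hsum : ∑ m, A i m * ((k.choose l : R) * B (k - l) m j * T ^ l *
          (D : R → R)^[l] (V 0 j)) =
          (∑ m, A i m * B (k - l) m j) * ((k.choose l : R) * T ^ l *
            (D : R → R)^[l] (V 0 j)) := by
        rw [Finset.sum_mul]
        apply Finset.sum_congr rfl
        intro m _
        ring
      rw [h1, hBS, hsum, hcast, Function.iterate_succ_apply']
      generalize (D : R → R)^[l] (V 0 j) = r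
      simp only [D.leibniz, hchoose, smul_eq_mul]
      linear_combination ((k.choose l : R) * B (k - l) i j * r) * hpow
    have hS : T * D (V k i) - (k : R) * D T * V k i - ∑ m, A i m * V k m =
        ∑ l ∈ range (k + 1), ∑ j,
        (T * D ((k.choose l : R) * B (k - l) i j * T ^ l * (D : R → R)^[l] (V 0 j)) -
          (k : R) * D T * ((k.choose l : R) * B (k - l) i j * T ^ l * (D : R → R)^[l] (V 0 j)) -
          ∑ m, A i m * ((k.choose l : R) * B (k - l) m j * T ^ l *
            (D : R → R)^[l] (V 0 j))) := by
      have h3 : ∑ m, A i m * V k m = ∑ l ∈ range (k + 1), ∑ j, ∑ m,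
          A i m * ((k.choose l : R) * B (k - l) m j * T ^ l * (D : R → R)^[l] (V 0 j)) := by
        have h4 : ∀ m, A i m * V k m = ∑ l ∈ range (k + 1), ∑ j,
            A i m * ((k.choose l : R) * B (k - l) m j * T ^ l * (D : R → R)^[l] (V 0 j)) := by
          intro m
          rw [ih m, Finset.mul_sum]
          apply Finset.sum_congr rfl
          intro l _
          rw [Finset.mul_sum]
        rw [Finset.sum_congr rfl fun m _ => h4 m, Finset.sum_comm]
        apply Finset.sum_congr rfl
        intro l _
        rw [Finset.sum_comm]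
      rw [h3, ih i, map_sum, Finset.mul_sum, Finset.mul_sum, ← Finset.sum_sub_distrib,
        ← Finset.sum_sub_distrib]
      apply Finset.sum_congr rfl
      intro l _
      rw [map_sum, Finset.mul_sum, Finset.mul_sum, ← Finset.sum_sub_distrib,
        ← Finset.sum_sub_distrib]
    rw [hS]
    apply Finset.sum_congr rfl
    intro l hl
    rw [Finset.sum_congr rfl fun j _ => hterm l hl j, ← Finset.mul_sum, Finset.sum_add_distrib]
    congr 2
    rw [hY]
    have h5 : k + 1 - (l + 1) = k - l := by omega
    simp only [h5]

theorem coe_nat (k : ℕ) : ((k : Polynomial ℚ) : PowerSeries ℚ) = (k : PowerSeries ℚ) := by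
  rw [← Polynomial.coeToPowerSeries.ringHom_apply, map_natCast]

theorem VS_succ (T : Polynomial ℚ) (A : ι → ι → Polynomial ℚ) (R : ι → PowerSeries ℚ) (k : ℕ)
    (i : ι) : VS T A R (k + 1) i = (T : PowerSeries ℚ) * PowerSeries.derivative ℚ (VS T A R k i) -
      (k : PowerSeries ℚ) * (Polynomial.derivative T : Polynomial ℚ) * VS T A R k i -
      ∑ j, (A i j : PowerSeries ℚ) * VS T A R k j := rfl

theorem VV_succ (T : Polynomial ℚ) (A : ι → ι → Polynomial ℚ) (P : ι → Polynomial ℚ) (k : ℕ)
    (i : ι) : VV T A P (k + 1) i = T * Polynomial.derivative (VV T A P k i) -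
      (k : Polynomial ℚ) * Polynomial.derivative T * VV T A P k i -
      ∑ j, A i j * VV T A P k j := rfl

theorem BB_succ (T : Polynomial ℚ) (A : ι → ι → Polynomial ℚ) (k : ℕ) (i j : ι) :
    BB T A (k + 1) i j = T * Polynomial.derivative (BB T A k i j) -
      (k : Polynomial ℚ) * Polynomial.derivative T * BB T A k i j -
      ∑ l, A i l * BB T A k l j := rfl

end Pool.Agent.LEG.LEIB_

namespace Pool.Agent.LEG

open LEIB_ Finset

theorem p_LEIB : T_LEIB := by
  intro ι _ _ T A
  have h2 : ∀ (P : ι → Polynomial ℚ) (k : ℕ) (i : ι),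
      (VV T A P k i : PowerSeries ℚ) = VS T A (fun j => (P j : PowerSeries ℚ)) k i := by
    intro P k
    induction k with
    | zero => intro i; rfl
    | succ k ih =>
      intro i
      have hsum : ((∑ j, A i j * VV T A P k j : Polynomial ℚ) : PowerSeries ℚ) =
          ∑ j, (A i j : PowerSeries ℚ) * VS T A (fun j => (P j : PowerSeries ℚ)) k j := by
        rw [← Polynomial.coeToPowerSeries.ringHom_apply, map_sum]
        apply Finset.sum_congr rfl
        intro j _
        rw [map_mul, Polynomial.coeToPowerSeries.ringHom_apply,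
          Polynomial.coeToPowerSeries.ringHom_apply, ih j]
      rw [VV_succ, VS_succ, ← hsum, ← ih i, PowerSeries.derivative_coe, Polynomial.coe_sub,
        Polynomial.coe_sub, Polynomial.coe_mul, Polynomial.coe_mul, Polynomial.coe_mul, coe_nat]
  refine ⟨?_, h2, ?_, ?_⟩
  · intro R k i
    have hco : ∀ (p q : Polynomial ℚ), ((p * q : Polynomial ℚ) : PowerSeries ℚ) =
        (p : PowerSeries ℚ) * q := fun p q => Polynomial.coe_mul p q
    have h := gen (PowerSeries.derivative ℚ) (T : PowerSeries ℚ)
      (fun i j => (A i j : PowerSeries ℚ)) (fun k i j => (BB T A k i j : PowerSeries ℚ))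
      (by
        intro i j
        simp only [BB]
        split_ifs <;> simp)
      (by
        intro k i j
        have hsum : ((∑ l, A i l * BB T A k l j : Polynomial ℚ) : PowerSeries ℚ) =
            ∑ l, (A i l : PowerSeries ℚ) * (BB T A k l j : PowerSeries ℚ) := by
          rw [← Polynomial.coeToPowerSeries.ringHom_apply, map_sum]
          apply Finset.sum_congr rfl
          intro l _
          rw [map_mul]
          rfl
        rw [BB_succ, Polynomial.coe_sub, Polynomial.coe_sub, hsum, Polynomial.coe_mul,
          Polynomial.coe_mul, Polynomial.coe_mul, PowerSeries.derivative_coe,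
          PowerSeries.derivative_coe, coe_nat]) (VS T A R) (by
        intro k i
        rw [VS_succ, PowerSeries.derivative_coe]) k i
    exact h
  · intro P k i
    have h := gen (Polynomial.derivative' : Derivation ℚ (Polynomial ℚ) (Polynomial ℚ)) T A
      (BB T A) (fun i j => rfl) (fun k i j => rfl) (VV T A P) (fun k i => rfl) k i
    exact h
  · intro f Q k
    induction k with
    | zero =>
      intro i _
      simp [VS]
    | succ k ih =>
      intro i hf
      have hi := hf i
      rw [VS_succ, ih i hf]
      have hsum : ∑ j, (A i j : PowerSeries ℚ) *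
          VS T A (fun j => (Q : PowerSeries ℚ) * f j) k j =
          (T : PowerSeries ℚ) ^ k * (Polynomial.derivative^[k] Q : Polynomial ℚ) *
            ∑ j, (A i j : PowerSeries ℚ) * f j := by
        rw [Finset.mul_sum]
        apply Finset.sum_congr rfl
        intro j _
        rw [ih j hf]
        ring
      rw [hsum, ← hi, Function.iterate_succ_apply']
      set q := Polynomial.derivative^[k] Q with hq
      have hpow : (T : PowerSeries ℚ) * PowerSeries.derivative ℚ ((T : PowerSeries ℚ) ^ k) =
          (k : PowerSeries ℚ) * (T : PowerSeries ℚ) ^ k *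
            ((Polynomial.derivative T : Polynomial ℚ) : PowerSeries ℚ) := by
        rw [Derivation.leibniz_pow, PowerSeries.derivative_coe]
        rcases Nat.eq_zero_or_pos k with h0 | h0
        · subst h0
          simp
        · have h3 : (T : PowerSeries ℚ) ^ k = (T : PowerSeries ℚ) ^ (k - 1) * T := by
            rw [← pow_succ]
            congr 1
            omega
          rw [h3]
          simp only [smul_eq_mul, nsmul_eq_mul]
          ring
      rw [Derivation.leibniz, Derivation.leibniz, PowerSeries.derivative_coe]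
      simp only [smul_eq_mul]
      linear_combination ((q : PowerSeries ℚ) * f i) * hpow

end Pool.Agent.LEG
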