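import Pool.Agent.LEG.Targets

set_option autoImplicit false

/-!
# LEG-LIM: limits and bounds of the complete elliptic integrals
-/

namespace Pool.Agent.LEG

open Finset Filter Topology
open scoped BigOperators

namespace LIM_

theorem sin_sq_le (t : ℝ) : Real.sin t ^ 2 ≤ 1 := Real.sin_sq_le_one t

theorem sin_sq_nn (t : ℝ) : 0 ≤ Real.sin t ^ 2 := sq_nonneg _

/-- the radicand -/
theorem rad_ge {m : ℝ} (hm : 0 ≤ m) (t : ℝ) : 1 - m ≤ 1 - m * Real.sin t ^ 2 := by
  nlinarith [sin_sq_le t, sin_sq_nn t]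

theorem rad_le {m : ℝ} (hm : 0 ≤ m) (t : ℝ) : 1 - m * Real.sin t ^ 2 ≤ 1 := by
  nlinarith [sin_sq_le t, sin_sq_nn t]

theorem cont_rad (m : ℝ) : Continuous fun t : ℝ => Real.sqrt (1 - m * Real.sin t ^ 2) := by
  fun_prop

theorem intE (m : ℝ) (a b : ℝ) : IntervalIntegrable
    (fun t : ℝ => Real.sqrt (1 - m * Real.sin t ^ 2)) MeasureTheory.volume a b :=
  (cont_rad m).intervalIntegrable _ _

theorem intK {m : ℝ} (hm : 0 ≤ m) (hm1 : m < 1) (a b : ℝ) : IntervalIntegrable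
    (fun t : ℝ => 1 / Real.sqrt (1 - m * Real.sin t ^ 2)) MeasureTheory.volume a b := by
  apply Continuous.intervalIntegrable
  apply Continuous.div continuous_const (cont_rad m)
  intro t
  have h := rad_ge hm t
  have h2 : 0 < 1 - m * Real.sin t ^ 2 := by linarith
  exact (Real.sqrt_pos.mpr h2).ne'

theorem sqrt_half {w : ℝ} (hw : 1 / 2 ≤ w) : 1 / 2 ≤ Real.sqrt w := by
  rw [Real.le_sqrt (by norm_num) (by linarith)]
  linarith

theorem pi_bd : |Real.pi / 2 - 0| ≤ 2 := by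
  rw [sub_zero, abs_of_pos (by positivity)]
  linarith [Real.pi_le_four]

theorem ker1 {m w : ℝ} (hw : 1 / 2 ≤ w) (hw1 : w ≤ 1) (hm : 1 - m ≤ w) :
    |1 / Real.sqrt w - 1| ≤ 2 * m := by
  have h1 := sqrt_half hw
  have h2 : 0 < Real.sqrt w := by linarith
  have h3 : Real.sqrt w * Real.sqrt w = w := Real.mul_self_sqrt (by linarith)
  have h4 : Real.sqrt w ≤ 1 := by
    rw [Real.sqrt_le_one]
    exact hw1
  have h5 : 1 / Real.sqrt w - 1 = (1 - Real.sqrt w) / Real.sqrt w := by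
    field_simp
  rw [h5, abs_of_nonneg (div_nonneg (by linarith) h2.le), div_le_iff₀ h2]
  nlinarith

theorem ker2 {m w : ℝ} (hw : 0 ≤ w) (hw1 : w ≤ 1) (hm : 1 - m ≤ w) :
    |Real.sqrt w - 1| ≤ m := by
  have h3 : Real.sqrt w * Real.sqrt w = w := Real.mul_self_sqrt hw
  have h4 : Real.sqrt w ≤ 1 := by
    rw [Real.sqrt_le_one]
    exact hw1
  have h6 := Real.sqrt_nonneg w
  rw [abs_of_nonpos (by linarith)]
  nlinarith

theorem ker3 {m w : ℝ} (hw : 1 / 2 ≤ w) (hw1 : w ≤ 1) (hm : 1 - m ≤ w) :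
    |Real.sqrt w - 1 / Real.sqrt w| ≤ 2 * m := by
  have h1 := sqrt_half hw
  have h2 : 0 < Real.sqrt w := by linarith
  have h3 : Real.sqrt w * Real.sqrt w = w := Real.mul_self_sqrt (by linarith)
  have h5 : Real.sqrt w - 1 / Real.sqrt w = -((1 - w) / Real.sqrt w) := by
    field_simp
    nlinarith
  rw [h5, abs_neg, abs_of_nonneg (div_nonneg (by linarith) h2.le), div_le_iff₀ h2]
  nlinarith

theorem ker4 {m t : ℝ} (_hm : 0 ≤ m) (hm1 : m ≤ 1) (h0 : 0 ≤ Real.cos t) :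
    |Real.sqrt (1 - m * Real.sin t ^ 2) - Real.cos t| ≤ Real.sqrt (1 - m) := by
  have h1 : Real.cos t = Real.sqrt (1 - Real.sin t ^ 2) := by
    rw [← Real.cos_sq', Real.sqrt_sq h0]
  have h2 : 0 ≤ 1 - Real.sin t ^ 2 := by linarith [sin_sq_le t]
  have h3 : 1 - Real.sin t ^ 2 ≤ 1 - m * Real.sin t ^ 2 := by nlinarith [sin_sq_nn t]
  have h4 := Real.sqrt_le_sqrt h3
  rw [h1, abs_of_nonneg (by linarith)]
  have h5 : 1 - m * Real.sin t ^ 2 ≤ (Real.sqrt (1 - Real.sin t ^ 2) + Real.sqrt (1 - m)) ^ 2 := by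
    have h6 : Real.sqrt (1 - Real.sin t ^ 2) ^ 2 = 1 - Real.sin t ^ 2 := Real.sq_sqrt h2
    have h7 : Real.sqrt (1 - m) ^ 2 = 1 - m := Real.sq_sqrt (by linarith)
    have h8 := mul_nonneg (Real.sqrt_nonneg (1 - Real.sin t ^ 2)) (Real.sqrt_nonneg (1 - m))
    nlinarith [sin_sq_le t, sin_sq_nn t]
  have h9 : Real.sqrt (1 - m * Real.sin t ^ 2) ≤
      Real.sqrt (1 - Real.sin t ^ 2) + Real.sqrt (1 - m) := by
    rw [Real.sqrt_le_left (add_nonneg (Real.sqrt_nonneg _) (Real.sqrt_nonneg _))]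
    exact h5
  linarith

theorem bdK {m : ℝ} (hm : 0 ≤ m) (hm1 : m < 1 / 2) : |KK m - Real.pi / 2| ≤ 4 * m := by
  have h1 : KK m - Real.pi / 2 =
      ∫ t in (0 : ℝ)..(Real.pi / 2), (1 / Real.sqrt (1 - m * Real.sin t ^ 2) - 1) := by
    rw [intervalIntegral.integral_sub (intK hm (by linarith) _ _) (by simp), KK]
    simp
  rw [h1, ← Real.norm_eq_abs]
  refine le_trans (intervalIntegral.norm_integral_le_of_norm_le_const (C := 2 * m) ?_) ?_
  · intro t _
    rw [Real.norm_eq_abs]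
    exact ker1 (by linarith [rad_ge hm t]) (rad_le hm t) (rad_ge hm t)
  · have := pi_bd
    have h3 : 0 ≤ 2 * m := by linarith
    nlinarith

theorem bdE {m : ℝ} (hm : 0 ≤ m) (hm1 : m < 1 / 2) : |EE m - Real.pi / 2| ≤ 4 * m := by
  have h1 : EE m - Real.pi / 2 =
      ∫ t in (0 : ℝ)..(Real.pi / 2), (Real.sqrt (1 - m * Real.sin t ^ 2) - 1) := by
    rw [intervalIntegral.integral_sub (intE _ _ _) (by simp), EE]
    simp
  rw [h1, ← Real.norm_eq_abs]
  refine le_trans (intervalIntegral.norm_integral_le_of_norm_le_const (C := m) ?_) ?_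
  · intro t _
    rw [Real.norm_eq_abs]
    exact ker2 (by linarith [rad_ge hm t]) (rad_le hm t) (rad_ge hm t)
  · have := pi_bd
    nlinarith

theorem bdEK {m : ℝ} (hm : 0 ≤ m) (hm1 : m < 1 / 2) : |EE m - KK m| ≤ 4 * m := by
  have h1 : EE m - KK m =
      ∫ t in (0 : ℝ)..(Real.pi / 2), (Real.sqrt (1 - m * Real.sin t ^ 2) -
        1 / Real.sqrt (1 - m * Real.sin t ^ 2)) := by
    rw [intervalIntegral.integral_sub (intE _ _ _) (intK hm (by linarith) _ _), EE, KK]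
  rw [h1, ← Real.norm_eq_abs]
  refine le_trans (intervalIntegral.norm_integral_le_of_norm_le_const (C := 2 * m) ?_) ?_
  · intro t _
    rw [Real.norm_eq_abs]
    exact ker3 (by linarith [rad_ge hm t]) (rad_le hm t) (rad_ge hm t)
  · have := pi_bd
    have h3 : 0 ≤ 2 * m := by linarith
    nlinarith

theorem bdE1 {m : ℝ} (hm : 0 ≤ m) (hm1 : m ≤ 1) : |EE m - 1| ≤ 2 * Real.sqrt (1 - m) := by
  have h1 : EE m - 1 =
      ∫ t in (0 : ℝ)..(Real.pi / 2), (Real.sqrt (1 - m * Real.sin t ^ 2) - Real.cos t) := by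
    rw [intervalIntegral.integral_sub (intE _ _ _) (Real.continuous_cos.intervalIntegrable _ _), EE]
    simp
  rw [h1, ← Real.norm_eq_abs]
  refine le_trans (intervalIntegral.norm_integral_le_of_norm_le_const
    (C := Real.sqrt (1 - m)) ?_) ?_
  · intro t ht
    rw [Set.uIoc_of_le (by positivity)] at ht
    rw [Real.norm_eq_abs]
    apply ker4 hm hm1
    apply Real.cos_nonneg_of_neg_pi_div_two_le_of_le
    · have := ht.1
      have := Real.pi_pos
      linarith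
    · exact ht.2
  · have := pi_bd
    have h3 := Real.sqrt_nonneg (1 - m)
    nlinarith

end LIM_

open LIM_ in
theorem p_LIM : T_LIM := by
  have e1 : ∀ᶠ m in 𝓝[>] (0 : ℝ), 0 < m ∧ m < 1 / 2 := by
    have h1 : ∀ᶠ m in 𝓝[>] (0 : ℝ), m ∈ Set.Ioo (0 : ℝ) (1 / 2) :=
      Ioo_mem_nhdsGT (by norm_num)
    filter_upwards [h1] with m hm
    exact hm
  have e2 : ∀ᶠ m in 𝓝[<] (1 : ℝ), 0 < m ∧ m < 1 := by
    have h1 : ∀ᶠ m in 𝓝[<] (1 : ℝ), m ∈ Set.Ioo (0 : ℝ) 1 :=
      Ioo_mem_nhdsLT (by norm_num)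
    filter_upwards [h1] with m hm
    exact hm
  have l1 : Filter.Tendsto (fun m : ℝ => 4 * m) (𝓝[>] 0) (𝓝 0) := by
    have : Filter.Tendsto (fun m : ℝ => 4 * m) (𝓝 0) (𝓝 (4 * 0)) :=
      (continuous_const.mul continuous_id).tendsto 0
    rw [mul_zero] at this
    exact this.mono_left nhdsWithin_le_nhds
  have l2 : Filter.Tendsto (fun m : ℝ => 2 * Real.sqrt (1 - m)) (𝓝[<] 1) (𝓝 0) := by
    have h : Continuous (fun m : ℝ => 2 * Real.sqrt (1 - m)) := by fun_prop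
    have := h.tendsto 1
    rw [sub_self, Real.sqrt_zero, mul_zero] at this
    exact this.mono_left nhdsWithin_le_nhds
  refine ⟨?_, ?_, ?_, ?_, ?_⟩
  · rw [tendsto_iff_norm_sub_tendsto_zero]
    refine squeeze_zero' (Eventually.of_forall fun m => norm_nonneg _) ?_ l1
    filter_upwards [e1] with m hm
    exact bdK hm.1.le hm.2
  · rw [tendsto_iff_norm_sub_tendsto_zero]
    refine squeeze_zero' (Eventually.of_forall fun m => norm_nonneg _) ?_ l1
    filter_upwards [e1] with m hm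
    exact bdE hm.1.le hm.2
  · rw [tendsto_iff_norm_sub_tendsto_zero]
    refine squeeze_zero' (Eventually.of_forall fun m => norm_nonneg _) ?_ l2
    filter_upwards [e2] with m hm
    exact bdE1 hm.1.le hm.2.le
  · intro m hm hm1
    rw [KK, ← Real.norm_eq_abs]
    refine le_trans (intervalIntegral.norm_integral_le_of_norm_le_const
      (C := 1 / Real.sqrt m) ?_) ?_
    · intro t _
      have h1 := rad_ge (show (0 : ℝ) ≤ 1 - m by linarith) t
      have h2 : m ≤ 1 - (1 - m) * Real.sin t ^ 2 := by linarith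
      rw [Real.norm_eq_abs, abs_of_nonneg (by positivity)]
      exact one_div_le_one_div_of_le (Real.sqrt_pos.mpr hm) (Real.sqrt_le_sqrt h2)
    · rw [sub_zero, abs_of_pos (by positivity)]
      apply le_of_eq
      ring
  · intro m hm hm1
    exact bdEK hm.le hm1

end Pool.Agent.LEG
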