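import Pool.Agent.LEG.Targets

set_option autoImplicit false

/-!
# Local horizontal sections of the dual system, and the gauge formula
-/

namespace Pool.Agent.LEG

open Finset
open scoped BigOperators

namespace LOC_

variable {ι : Type} [Fintype ι]

/-- coefficients of a solution of a linear system -/
noncomputable def cf (Γ : ι → ι → PowerSeries ℚ) (c : ι → ℚ) : ℕ → ι → ℚ
  | 0 => c
  | (n + 1) => fun j => -(1 / ((n : ℚ) + 1)) *
      ∑ s : Fin (n + 1), ∑ i, cf Γ c s.1 i * PowerSeries.coeff (n - s.1) (Γ i j)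
  termination_by n => n
  decreasing_by exact s.2

theorem cf_zero (Γ : ι → ι → PowerSeries ℚ) (c : ι → ℚ) : cf Γ c 0 = c := by
  rw [cf]

theorem cf_succ (Γ : ι → ι → PowerSeries ℚ) (c : ι → ℚ) (n : ℕ) (j : ι) :
    ((n : ℚ) + 1) * cf Γ c (n + 1) j =
      -∑ s ∈ range (n + 1), ∑ i, cf Γ c s i * PowerSeries.coeff (n - s) (Γ i j) := by
  rw [cf]
  have h : ((n : ℚ) + 1) ≠ 0 := by positivity
  rw [Finset.sum_range (fun s => ∑ i, cf Γ c s i * PowerSeries.coeff (n - s) (Γ i j))]
  field_simp

theorem exists_sol (Γ : ι → ι → PowerSeries ℚ) (c : ι → ℚ) : ∃ g : ι → PowerSeries ℚ,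
    (∀ i, PowerSeries.constantCoeff (g i) = c i) ∧
    ∀ j, PowerSeries.derivative ℚ (g j) = -∑ i, g i * Γ i j := by
  refine ⟨fun j => PowerSeries.mk fun n => cf Γ c n j, fun i => ?_, fun j => ?_⟩
  · rw [← PowerSeries.coeff_zero_eq_constantCoeff_apply, PowerSeries.coeff_mk, cf_zero]
  · ext n
    rw [PowerSeries.coeff_derivative, PowerSeries.coeff_mk, map_neg, map_sum, mul_comm, cf_succ]
    congr 1
    rw [Finset.sum_comm]
    refine Finset.sum_congr rfl fun i _ => ?_
    rw [PowerSeries.coeff_mul, Finset.Nat.sum_antidiagonal_eq_sum_range_succ_mk]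
    refine Finset.sum_congr rfl fun s _ => ?_
    rw [PowerSeries.coeff_mk]

theorem ty_mul (z0 : ℚ) (p q : Polynomial ℚ) : ty z0 (p * q) = ty z0 p * ty z0 q := by
  unfold ty
  rw [Polynomial.taylor_mul, Polynomial.coe_mul]

theorem ty_add (z0 : ℚ) (p q : Polynomial ℚ) : ty z0 (p + q) = ty z0 p + ty z0 q := by
  unfold ty
  rw [map_add, Polynomial.coe_add]

theorem ty_sub (z0 : ℚ) (p q : Polynomial ℚ) : ty z0 (p - q) = ty z0 p - ty z0 q := by
  have h := ty_add z0 (p - q) q
  rw [sub_add_cancel] at h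
  rw [h, add_sub_cancel_right]

theorem ty_zero (z0 : ℚ) : ty z0 0 = 0 := by
  unfold ty
  rw [map_zero, Polynomial.coe_zero]

theorem ty_sum (z0 : ℚ) (s : Finset ι) (f : ι → Polynomial ℚ) :
    ty z0 (∑ i ∈ s, f i) = ∑ i ∈ s, ty z0 (f i) := by
  classical
  induction s using Finset.induction_on with
  | empty => simp [ty_zero]
  | insert a s ha ih => rw [Finset.sum_insert ha, Finset.sum_insert ha, ty_add, ih]

theorem ty_natCast (z0 : ℚ) (k : ℕ) : ty z0 (k : Polynomial ℚ) = (k : PowerSeries ℚ) := by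
  unfold ty
  rw [← Polynomial.C_eq_natCast, Polynomial.taylor_C, Polynomial.coe_C]
  exact map_natCast _ k

theorem der_ty (z0 : ℚ) (p : Polynomial ℚ) :
    PowerSeries.derivative ℚ (ty z0 p) = ty z0 (Polynomial.derivative p) := by
  unfold ty
  rw [PowerSeries.derivative_coe]
  congr 1
  rw [Polynomial.taylor_apply, Polynomial.taylor_apply, Polynomial.derivative_comp]
  simp

end LOC_

open LOC_ in
theorem p_LOC : T_LOC := by
  intro ι _ _ T A z0 hT c
  have h0 : PowerSeries.constantCoeff (ty z0 T) ≠ 0 := by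
    unfold ty
    rw [Polynomial.constantCoeff_coe, Polynomial.taylor_coeff_zero]
    exact hT
  have hinv : ty z0 T * (ty z0 T)⁻¹ = 1 := PowerSeries.mul_inv_cancel _ h0
  obtain ⟨g, hg0, hg⟩ := exists_sol (fun i j => ty z0 (A i j) * (ty z0 T)⁻¹) c
  have hg' : ∀ j, ty z0 T * PowerSeries.derivative ℚ (g j) = -∑ i, g i * ty z0 (A i j) := by
    intro j
    rw [hg j, mul_neg, Finset.mul_sum]
    congr 1
    refine Finset.sum_congr rfl fun i _ => ?_
    linear_combination (g i * ty z0 (A i j)) * hinv
  refine ⟨g, hg0, fun P k => ?_⟩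
  have step : ∀ k, ty z0 T * PowerSeries.derivative ℚ (∑ i, g i * ty z0 (VV T A P k i)) =
      ∑ i, g i * ty z0 (VV T A P (k + 1) i) +
        (k : PowerSeries ℚ) * ty z0 (Polynomial.derivative T) *
          ∑ i, g i * ty z0 (VV T A P k i) := by
    intro k
    have e1 : ∀ i, ty z0 (VV T A P (k + 1) i) =
        ty z0 T * ty z0 (Polynomial.derivative (VV T A P k i)) -
          (k : PowerSeries ℚ) * ty z0 (Polynomial.derivative T) * ty z0 (VV T A P k i) -
          ∑ j, ty z0 (A i j) * ty z0 (VV T A P k j) := by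
      intro i
      rw [VV, ty_sub, ty_sub, ty_mul, ty_mul, ty_mul, ty_natCast, ty_sum]
      congr 1
      exact Finset.sum_congr rfl fun j _ => ty_mul _ _ _
    have e2 : ∑ i, (ty z0 T * PowerSeries.derivative ℚ (g i)) * ty z0 (VV T A P k i) =
        -∑ i, g i * ∑ j, ty z0 (A i j) * ty z0 (VV T A P k j) := by
      simp_rw [hg', neg_mul, Finset.sum_neg_distrib, Finset.sum_mul, Finset.mul_sum]
      rw [Finset.sum_comm]
      congr 1
      refine Finset.sum_congr rfl fun i _ => Finset.sum_congr rfl fun j _ => ?_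
      ring
    calc ty z0 T * PowerSeries.derivative ℚ (∑ i, g i * ty z0 (VV T A P k i))
        = ∑ i, (g i * (ty z0 T * ty z0 (Polynomial.derivative (VV T A P k i)))) +
          ∑ i, (ty z0 T * PowerSeries.derivative ℚ (g i)) * ty z0 (VV T A P k i) := by
          rw [map_sum, Finset.mul_sum, ← Finset.sum_add_distrib]
          refine Finset.sum_congr rfl fun i _ => ?_
          rw [Derivation.leibniz, der_ty, smul_eq_mul, smul_eq_mul]
          ring
      _ = _ := by
          rw [e2]
          simp_rw [e1, mul_sub, Finset.sum_sub_distrib, Finset.mul_sum]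
          have e3 : ∀ i, g i * ((k : PowerSeries ℚ) * ty z0 (Polynomial.derivative T) *
              ty z0 (VV T A P k i)) = (k : PowerSeries ℚ) * ty z0 (Polynomial.derivative T) *
              (g i * ty z0 (VV T A P k i)) := fun i => by ring
          simp_rw [e3]
          ring
  induction k with
  | zero => simp [VV]
  | succ k ih =>
    have s := step k
    rw [ih] at s
    rw [Function.iterate_succ_apply']
    rw [Derivation.leibniz, Derivation.leibniz_pow, der_ty] at s
    simp only [smul_eq_mul, nsmul_eq_mul] at s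
    rcases k with _ | k
    · simp only [pow_zero, Nat.cast_zero, zero_mul, mul_zero, add_zero, one_mul, zero_add,
        Nat.zero_sub, pow_one, Function.iterate_zero, id_eq] at s ⊢
      rw [← s]
    · have e : k + 1 - 1 = k := rfl
      rw [e] at s
      linear_combination -s

end Pool.Agent.LEG
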