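import Pool.Agent.LEG.Targets

set_option autoImplicit false

/-!
# The logarithm is transcendental over analytic germs (job LOGP)
-/

namespace Pool.Agent.LEG

open Finset Filter
open scoped BigOperators Topology

namespace LOGP_

theorem lim1 (k : ℕ) : Tendsto (fun x : ℝ => x * Real.log x ^ k) (𝓝[>] 0) (𝓝 0) := by
  rcases k with _ | k
  · simp only [pow_zero, mul_one]
    exact tendsto_id.mono_left nhdsWithin_le_nhds
  · have hr : (0 : ℝ) < ((k + 1 : ℕ) : ℝ)⁻¹ := by positivity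
    have h := (tendsto_log_mul_rpow_nhdsGT_zero hr).pow (k + 1)
    rw [zero_pow (Nat.succ_ne_zero k)] at h
    refine h.congr' ?_
    filter_upwards [self_mem_nhdsWithin] with x hx
    rw [mul_pow, Real.rpow_inv_natCast_pow (le_of_lt hx) (Nat.succ_ne_zero k), mul_comm]

theorem lim2 (a k : ℕ) :
    Tendsto (fun x : ℝ => x ^ (a + 1) * Real.log x ^ k) (𝓝[>] 0) (𝓝 0) := by
  have h1 : Tendsto (fun x : ℝ => x ^ a) (𝓝[>] 0) (𝓝 (0 ^ a)) :=
    ((continuous_pow a).tendsto 0).mono_left nhdsWithin_le_nhds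
  have h2 := h1.mul (lim1 k)
  rw [mul_zero] at h2
  refine h2.congr fun x => ?_
  rw [pow_succ]
  ring

theorem lim3 : Tendsto (fun x : ℝ => (Real.log x)⁻¹) (𝓝[>] 0) (𝓝 0) :=
  tendsto_inv_atBot_zero.comp Real.tendsto_log_nhdsGT_zero

theorem log_ne : ∀ᶠ x : ℝ in 𝓝[>] 0, Real.log x ≠ 0 := by
  have h := Real.tendsto_log_nhdsGT_zero.eventually (eventually_lt_atBot (0 : ℝ))
  filter_upwards [h] with x hx
  exact hx.ne

/-- the key statement -/
theorem key (d : ℕ) (g : ℕ → ℝ → ℝ) (hg : ∀ j, AnalyticAt ℝ (g j) 0)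
    (h : ∀ᶠ x in 𝓝[>] (0 : ℝ), ∑ j ∈ range d, g j x * Real.log x ^ j = 0) :
    ∀ j ∈ range d, ∀ᶠ x in 𝓝 (0 : ℝ), g j x = 0 := by
  classical
  by_contra hcon
  push Not at hcon
  obtain ⟨j0, hj0, hj0'⟩ := hcon
  set S := (range d).filter fun j => ¬ ∀ᶠ x in 𝓝 (0 : ℝ), g j x = 0 with hS
  have hj0S : j0 ∈ S := by
    rw [hS, mem_filter]
    refine ⟨hj0, ?_⟩
    simpa using hj0'
  have hdec : ∀ j, ∃ (n : ℕ) (f : ℝ → ℝ), j ∈ S → AnalyticAt ℝ f 0 ∧ f 0 ≠ 0 ∧
      ∀ᶠ z in 𝓝 (0 : ℝ), g j z = z ^ n * f z := by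
    intro j
    by_cases hj : j ∈ S
    · rw [hS, mem_filter] at hj
      obtain ⟨n, f, h1, h2, h3⟩ := ((hg j).exists_eventuallyEq_pow_smul_nonzero_iff).2 hj.2
      refine ⟨n, f, fun _ => ⟨h1, h2, ?_⟩⟩
      filter_upwards [h3] with z hz
      rw [hz, sub_zero, smul_eq_mul]
    · exact ⟨0, 0, fun h => absurd h hj⟩
  choose n f hf using hdec
  obtain ⟨j1, hj1, hmin⟩ := S.exists_min_image n ⟨j0, hj0S⟩
  obtain ⟨J, hJ, hmax⟩ := (S.filter fun j => n j = n j1).exists_max_image id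
    ⟨j1, mem_filter.2 ⟨hj1, rfl⟩⟩
  rw [mem_filter] at hJ
  have hlim : ∀ j ∈ range d, Tendsto (fun x => g j x * Real.log x ^ j *
      ((x ^ n J)⁻¹ * (Real.log x)⁻¹ ^ J)) (𝓝[>] 0) (𝓝 (if j = J then f J 0 else 0)) := by
    intro j hj
    by_cases hjS : j ∈ S
    · obtain ⟨h1, h2, h3⟩ := hf j hjS
      have hfj : Tendsto (f j) (𝓝[>] 0) (𝓝 (f j 0)) :=
        h1.continuousAt.tendsto.mono_left nhdsWithin_le_nhds
      have h3' : ∀ᶠ z in 𝓝[>] (0 : ℝ), g j z = z ^ n j * f j z :=
        h3.filter_mono nhdsWithin_le_nhds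
      by_cases hjJ : j = J
      · subst hjJ
        rw [if_pos rfl]
        refine hfj.congr' ?_
        filter_upwards [h3', self_mem_nhdsWithin, log_ne] with x hx1 hx2 hx3
        have hx2' : x ≠ 0 := ne_of_gt hx2
        rw [hx1, inv_pow]
        field_simp
      · rw [if_neg hjJ]
        have hle := hmin j hjS
        by_cases hn : n j = n j1
        · have hlt : j < J := lt_of_le_of_ne (hmax j (mem_filter.2 ⟨hjS, hn⟩)) hjJ
          have h4 := hfj.mul (lim3.pow (J - j))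
          rw [zero_pow (by omega), mul_zero] at h4
          refine h4.congr' ?_
          filter_upwards [h3', self_mem_nhdsWithin, log_ne] with x hx1 hx2 hx3
          have hx2' : x ≠ 0 := ne_of_gt hx2
          rw [hx1, hJ.2, hn]
          obtain ⟨e, he⟩ : ∃ e, J = j + e := ⟨J - j, by omega⟩
          have he2 : J - j = e := by omega
          rw [he2, he, inv_pow, inv_pow, pow_add]
          field_simp
        · obtain ⟨a, ha⟩ : ∃ a, n j = n j1 + (a + 1) := ⟨n j - n j1 - 1, by omega⟩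
          have h4 := (hfj.mul (lim2 a j)).mul (lim3.pow J)
          rw [mul_zero, zero_mul] at h4
          refine h4.congr' ?_
          filter_upwards [h3', self_mem_nhdsWithin, log_ne] with x hx1 hx2 hx3
          have hx2' : x ≠ 0 := ne_of_gt hx2
          rw [hx1, hJ.2, ha, pow_add x (n j1)]
          field_simp
    · have h1 : ∀ᶠ x in 𝓝 (0 : ℝ), g j x = 0 := by
        by_contra h2
        exact hjS (mem_filter.2 ⟨hj, h2⟩)
      rw [if_neg (by rintro rfl; exact hjS hJ.1)]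
      refine tendsto_const_nhds.congr' ?_
      filter_upwards [h1.filter_mono nhdsWithin_le_nhds] with x hx
      rw [hx, zero_mul, zero_mul]
  have hsum := tendsto_finsetSum (range d) hlim
  have hJd : J ∈ range d := (mem_filter.1 hJ.1).1
  rw [Finset.sum_ite_eq' (range d) J, if_pos hJd] at hsum
  have h0 : Tendsto (fun x => ∑ j ∈ range d, g j x * Real.log x ^ j *
      ((x ^ n J)⁻¹ * (Real.log x)⁻¹ ^ J)) (𝓝[>] 0) (𝓝 0) := by
    refine tendsto_const_nhds.congr' ?_
    filter_upwards [h] with x hx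
    rw [← Finset.sum_mul, hx, zero_mul]
  exact (hf J hJ.1).2.1 (tendsto_nhds_unique hsum h0)

/-- the polynomial in `X` -/
noncomputable def pp {σ : Type} (P : MvPolynomial σ ℝ) (u v : σ → ℝ → ℝ) : Polynomial (ℝ → ℝ) :=
  MvPolynomial.eval₂ (Polynomial.C.comp (algebraMap ℝ (ℝ → ℝ)))
    (fun i => Polynomial.C (u i) + Polynomial.C (v i) * Polynomial.X) P

theorem analytic_coeff {σ : Type} (P : MvPolynomial σ ℝ) (u v : σ → ℝ → ℝ)
    (hu : ∀ i, AnalyticAt ℝ (u i) 0) (hv : ∀ i, AnalyticAt ℝ (v i) 0) (j : ℕ) :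
    AnalyticAt ℝ ((pp P u v).coeff j) 0 := by
  unfold pp
  induction P using MvPolynomial.induction_on generalizing j with
  | C a =>
    rw [MvPolynomial.eval₂_C, RingHom.comp_apply, Polynomial.coeff_C]
    split_ifs
    · exact analyticAt_const
    · exact analyticAt_const
  | add p q hp hq =>
    rw [MvPolynomial.eval₂_add, Polynomial.coeff_add]
    exact (hp j).add (hq j)
  | mul_X p i hp =>
    rw [MvPolynomial.eval₂_mul, MvPolynomial.eval₂_X, mul_add, ← mul_assoc, Polynomial.coeff_add]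
    refine AnalyticAt.add ?_ ?_
    · rw [Polynomial.coeff_mul_C]
      exact (hp j).mul (hu i)
    · rcases j with _ | j
      · rw [Polynomial.coeff_mul_X_zero]
        exact analyticAt_const
      · rw [Polynomial.coeff_mul_X, Polynomial.coeff_mul_C]
        exact (hp j).mul (hv i)

theorem eval_pp {σ : Type} (P : MvPolynomial σ ℝ) (u v : σ → ℝ → ℝ) (x X : ℝ) :
    MvPolynomial.eval (fun i => u i x + v i x * X) P =
      ∑ j ∈ range ((pp P u v).natDegree + 1), (pp P u v).coeff j x * X ^ j := by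
  have h1 : MvPolynomial.eval (fun i => u i x + v i x * X) P =
      Polynomial.eval₂ (Pi.evalRingHom (fun _ : ℝ => ℝ) x) X (pp P u v) := by
    unfold pp
    rw [← Polynomial.coe_eval₂RingHom, MvPolynomial.hom_eval₂]
    rw [MvPolynomial.eval, MvPolynomial.coe_eval₂Hom]
    congr 1
    · ext a
      simp
    · funext i
      simp
  rw [h1, Polynomial.eval₂_eq_sum_range]
  rfl

end LOGP_

open LOGP_ in
theorem p_LOGP : T_LOGP := by
  intro σ P u v hu hv h
  have h2 : ∀ᶠ x in 𝓝[>] (0 : ℝ),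
      ∑ j ∈ range ((pp P u v).natDegree + 1), (pp P u v).coeff j x * Real.log x ^ j = 0 := by
    filter_upwards [h] with x hx
    rw [← eval_pp, hx]
  have h3 := key _ _ (fun j => analytic_coeff P u v hu hv j) h2
  have h4 : ∀ᶠ x in 𝓝 (0 : ℝ), ∀ j ∈ range ((pp P u v).natDegree + 1),
      (pp P u v).coeff j x = 0 := by
    rw [Filter.eventually_all_finset]
    exact h3
  filter_upwards [h4.filter_mono nhdsWithin_le_nhds] with x hx X
  rw [eval_pp]
  exact Finset.sum_eq_zero fun j hj => by rw [hx j hj, zero_mul]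

end Pool.Agent.LEG
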