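import Pool.Agent.LEG.Targets

set_option autoImplicit false

/-!
Reduction of the count for `n` curves to the count for one curve (`T_MULTI`).
-/

namespace Pool.Agent.LEG

namespace MULTI_

open Finset

/-- put a first point in front -/
def full {S : Type} {n : ℕ} (z : Fin 4 → S) (w : Fin n × Fin 4 → S) : Fin (n + 1) × Fin 4 → S :=
  fun v => Fin.cases (motive := fun _ => S) (z v.2) (fun i => w (i, v.2)) v.1

theorem full_eq {S : Type} {n : ℕ} (x : Fin (n + 1) × Fin 4 → S) :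
    x = full (fun j => x (0, j)) (fun v => x (v.1.succ, v.2)) := by
  funext ⟨i, j⟩
  refine Fin.cases ?_ (fun i => ?_) i
  · rfl
  · rfl

/-- the first curve goes to the base -/
def e1 (k n : ℕ) : Fin k ⊕ (Fin (n + 1) × Fin 4) → Fin (k + 4) ⊕ (Fin n × Fin 4) :=
  Sum.elim (fun i => Sum.inl (Fin.castAdd 4 i))
    (full (fun j => Sum.inl (Fin.natAdd k j)) (fun v => Sum.inr v))

/-- the other curves go to the base -/
def e2 (k n : ℕ) : Fin k ⊕ (Fin (n + 1) × Fin 4) → Fin (k + n * 4) ⊕ Fin 4 :=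
  Sum.elim (fun i => Sum.inl (Fin.castAdd (n * 4) i))
    (full (fun j => Sum.inr j) (fun v => Sum.inl (Fin.natAdd k (finProdFinEquiv v))))

theorem e1_comp {S : Type} {k n : ℕ} (θ : Fin k → S) (z : Fin 4 → S) (w : Fin n × Fin 4 → S) :
    Sum.elim (Fin.append θ z) w ∘ e1 k n = Sum.elim θ (full z w) := by
  funext i
  rcases i with i | ⟨i, j⟩
  · simp [e1]
  · refine Fin.cases ?_ (fun i => ?_) i
    · simp [e1, full]
    · simp [e1, full]

theorem e2_comp {S : Type} {k n : ℕ} (θ : Fin k → S) (z : Fin 4 → S) (w : Fin n × Fin 4 → S) :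
    Sum.elim (Fin.append θ (w ∘ finProdFinEquiv.symm)) z ∘ e2 k n = Sum.elim θ (full z w) := by
  funext i
  rcases i with i | ⟨i, j⟩
  · simp [e2]
  · refine Fin.cases ?_ (fun i => ?_) i
    · simp [e2, full]
    · simp [e2, full]

/-- the polynomial in the other curves -/
noncomputable def sp {k n : ℕ} (θ : Fin k → ℂ) (z : Fin 4 → ℂ)
    (P : MvPolynomial (Fin k ⊕ (Fin (n + 1) × Fin 4)) ℤ) : MvPolynomial (Fin n × Fin 4) ℂ :=
  MvPolynomial.aeval (Sum.elim (fun i => MvPolynomial.C (θ i))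
    (full (fun j => MvPolynomial.C (z j)) MvPolynomial.X)) P

theorem eval_sp {k n : ℕ} (θ : Fin k → ℂ) (z : Fin 4 → ℂ)
    (P : MvPolynomial (Fin k ⊕ (Fin (n + 1) × Fin 4)) ℤ) (w : Fin n × Fin 4 → ℂ) :
    MvPolynomial.eval w (sp θ z P) = MvPolynomial.aeval (Sum.elim θ (full z w)) P := by
  unfold sp
  have h4 := MvPolynomial.comp_aeval_apply (R := ℤ)
    (Sum.elim (fun i => MvPolynomial.C (θ i))
      (full (fun j => MvPolynomial.C (z j)) (MvPolynomial.X : Fin n × Fin 4 → _)))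
    ((MvPolynomial.aeval (R := ℂ) w).restrictScalars ℤ) P
  refine Eq.trans h4 ?_
  congr 2
  funext i
  rcases i with i | ⟨i, j⟩
  · simp
  · refine Fin.cases ?_ (fun i => ?_) i
    · simp [full]
    · simp [full]

theorem aeval_e1 {k n : ℕ} (θ : Fin k → ℂ) (z : Fin 4 → ℂ)
    (P : MvPolynomial (Fin k ⊕ (Fin (n + 1) × Fin 4)) ℤ) (w : Fin n × Fin 4 → ℂ) :
    MvPolynomial.aeval (Sum.elim (Fin.append θ z) w) (MvPolynomial.rename (e1 k n) P) =
      MvPolynomial.aeval (Sum.elim θ (full z w)) P := by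
  rw [MvPolynomial.aeval_rename, e1_comp]

theorem aeval_e2 {k n : ℕ} (θ : Fin k → ℂ) (z : Fin 4 → ℂ)
    (P : MvPolynomial (Fin k ⊕ (Fin (n + 1) × Fin 4)) ℤ) (w : Fin n × Fin 4 → ℂ) :
    MvPolynomial.aeval (Sum.elim (Fin.append θ (w ∘ finProdFinEquiv.symm)) z)
      (MvPolynomial.rename (e2 k n) P) = MvPolynomial.aeval (Sum.elim θ (full z w)) P := by
  rw [MvPolynomial.aeval_rename, e2_comp]

theorem cnt (σ : Type) [Countable σ] : Countable (MvPolynomial σ ℤ) := by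
  have := MvPolynomial.cardinalMk_le_max (σ := σ) (R := ℤ)
  rw [← Cardinal.mk_le_aleph0_iff]
  refine this.trans ?_
  simp

/-- the generic point and the two cases -/
theorem exc_cases (hgen : T_GEN) (n k D : ℕ) (c : Fin (n + 1) → ℕ) (θ : Fin k → ℂ) :
    ∃ θ' : Fin (k + n * 4) → ℂ, ∀ N : Fin (n + 1) → ℕ, MExc c D θ N →
      Exc (c 0) D θ' (N 0) ∨
        MExc (Fin.tail c) D (Fin.append θ (per (c 0) (N 0))) (Fin.tail N) := by
  classical
  -- a good first point for each polynomial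
  have hx0 : ∀ P : MvPolynomial (Fin k ⊕ (Fin (n + 1) × Fin 4)) ℤ, ∃ x0 : Fin 4 → ℂ,
      (∃ x : Fin (n + 1) → Fin 4 → ℂ, (∀ i, Leg (x i)) ∧
        MvPolynomial.aeval (Sum.elim θ (fun v => x v.1 v.2)) P ≠ 0) →
      Leg x0 ∧ ∃ w : Fin n → Fin 4 → ℂ, (∀ i, Leg (w i)) ∧
        MvPolynomial.eval (fun v => w v.1 v.2) (sp θ x0 P) ≠ 0 := by
    intro P
    by_cases h : ∃ x : Fin (n + 1) → Fin 4 → ℂ, (∀ i, Leg (x i)) ∧
        MvPolynomial.aeval (Sum.elim θ (fun v => x v.1 v.2)) P ≠ 0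
    · obtain ⟨x, hx, hx'⟩ := h
      refine ⟨x 0, fun _ => ⟨hx 0, Fin.tail x, fun i => hx i.succ, ?_⟩⟩
      rw [eval_sp]
      rw [full_eq (fun v : Fin (n + 1) × Fin 4 => x v.1 v.2)] at hx'
      exact hx'
    · exact ⟨0, fun h' => absurd h' h⟩
  choose x0 hx0 using hx0
  let F : MvPolynomial (Fin k ⊕ (Fin (n + 1) × Fin 4)) ℤ × Option ℕ →
      MvPolynomial (Fin n × Fin 4) ℂ := fun q =>
    sp θ (q.2.elim (x0 q.1) (fun m => per (c 0) m)) q.1
  haveI : Countable (MvPolynomial (Fin k ⊕ (Fin (n + 1) × Fin 4)) ℤ) := cnt _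
  have hcount : (Set.range F).Countable := Set.countable_range F
  let S : Set (MvPolynomial (Fin n × Fin 4) ℂ) := {Q | Q ∈ Set.range F ∧
    ∃ x : Fin n → Fin 4 → ℂ, (∀ i, Leg (x i)) ∧ MvPolynomial.eval (fun v => x v.1 v.2) Q ≠ 0}
  have hS : S.Countable := hcount.mono fun Q hQ => hQ.1
  obtain ⟨y, hyL, hy⟩ := hgen n S hS (fun Q hQ => hQ.2)
  refine ⟨Fin.append θ ((fun v => y v.1 v.2) ∘ finProdFinEquiv.symm), ?_⟩
  rintro N ⟨P, hdeg, hval, hx⟩
  have hx' := hx0 P hx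
  rw [full_eq (fun v : Fin (n + 1) × Fin 4 => per (c v.1) (N v.1) v.2)] at hval
  by_cases hA : ∃ x : Fin n → Fin 4 → ℂ, (∀ i, Leg (x i)) ∧
      MvPolynomial.eval (fun v => x v.1 v.2) (sp θ (per (c 0) (N 0)) P) ≠ 0
  · right
    obtain ⟨x, hxL, hxne⟩ := hA
    refine ⟨MvPolynomial.rename (e1 k n) P, (MvPolynomial.totalDegree_rename_le _ _).trans hdeg,
      ?_, x, hxL, ?_⟩
    · rw [aeval_e1]
      exact hval
    · rw [aeval_e1, ← eval_sp]
      exact hxne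
  · left
    refine ⟨MvPolynomial.rename (e2 k n) P, (MvPolynomial.totalDegree_rename_le _ _).trans hdeg,
      ?_, x0 P, hx'.1, ?_⟩
    · rw [aeval_e2, ← eval_sp]
      by_contra hne
      exact hA ⟨y, hyL, hne⟩
    · rw [aeval_e2, ← eval_sp]
      exact hy _ ⟨⟨(P, none), rfl⟩, hx'.2⟩

/-- the box -/
def box (n : ℕ) (c : Fin n → ℕ) (T : ℕ) : Set (Fin n → ℕ) := {t | ∀ i, c i < t i ∧ t i ≤ T}

theorem box_eq (n : ℕ) (c : Fin n → ℕ) (T : ℕ) : box n c T =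
    ((Fintype.piFinset (fun i : Fin n => Finset.Ioc (c i) T) : Finset (Fin n → ℕ)) :
        Set (Fin n → ℕ)) := by
  ext x
  simp only [box, Set.mem_ofPred_eq, Finset.mem_coe, Fintype.mem_piFinset, Finset.mem_Ioc]

theorem ncard_box (n : ℕ) (c : Fin n → ℕ) (T : ℕ) : (box n c T).ncard ≤ T ^ n := by
  rw [box_eq, Set.ncard_coe_finset, Fintype.card_piFinset]
  simp only [Nat.card_Ioc]
  calc ∏ i : Fin n, (T - c i) ≤ ∏ _i : Fin n, T := Finset.prod_le_prod' fun i _ => Nat.sub_le _ _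
    _ = T ^ n := by simp

theorem finite_box (n : ℕ) (c : Fin n → ℕ) (T : ℕ) : (box n c T).Finite := by
  rw [box_eq]
  exact Finset.finite_toSet _

/-- exceptional numbers -/
def E1 {k : ℕ} (c D T : ℕ) (θ : Fin k → ℂ) : Set ℕ := {N : ℕ | c < N ∧ N ≤ T ∧ Exc c D θ N}

/-- exceptional tuples -/
def En {n k : ℕ} (c : Fin n → ℕ) (D T : ℕ) (θ : Fin k → ℂ) : Set (Fin n → ℕ) :=
  {N : Fin n → ℕ | (∀ i, c i < N i ∧ N i ≤ T) ∧ MExc c D θ N}

theorem count_le (hgen : T_GEN) (n k D : ℕ) (c : Fin (n + 1) → ℕ) (θ : Fin k → ℂ) (T : ℕ)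
    (M1 M : ℝ) (hM0 : 0 ≤ M)
    (hM1 : ∀ θ' : Fin (k + n * 4) → ℂ, ((E1 (c 0) D T θ').ncard : ℝ) ≤ M1)
    (hM : ∀ z : Fin 4 → ℂ, ((En (Fin.tail c) D T (Fin.append θ z)).ncard : ℝ) ≤ M) :
    ((En c D T θ).ncard : ℝ) ≤ M1 * (T : ℝ) ^ n + T * M := by
  classical
  obtain ⟨θ', hθ'⟩ := exc_cases hgen n k D c θ
  set A : Set ℕ := E1 (c 0) D T θ' with hA
  set B : Set (Fin n → ℕ) := box n (Fin.tail c) T with hB
  set E : ℕ → Set (Fin n → ℕ) := fun t0 =>
    En (Fin.tail c) D T (Fin.append θ (per (c 0) t0)) with hE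
  have hAf : A.Finite := (Set.finite_Iic T).subset fun t ht => ht.2.1
  have hBf : B.Finite := finite_box n _ T
  have hEf : ∀ t0, (E t0).Finite := fun t0 => hBf.subset fun t ht => ht.1
  let cn : ℕ → (Fin n → ℕ) → (Fin (n + 1) → ℕ) := fun a b => Fin.cons a b
  let U1 : Set (Fin (n + 1) → ℕ) := (fun p : ℕ × (Fin n → ℕ) => cn p.1 p.2) '' (A ×ˢ B)
  let U2 : Set (Fin (n + 1) → ℕ) := ⋃ a ∈ Finset.Ioc (c 0) T, (cn a) '' (E a)
  have hU1f : U1.Finite := (hAf.prod hBf).image _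
  have hU2f : U2.Finite := Set.Finite.biUnion (Finset.finite_toSet _) fun a _ => (hEf a).image _
  have hsub : En c D T θ ⊆ U1 ∪ U2 := by
    rintro t ⟨htp, ht⟩
    have h0 : c 0 < t 0 ∧ t 0 ≤ T := htp 0
    have htl : Fin.tail t ∈ B := fun i => htp i.succ
    rcases hθ' t ht with h | h
    · left
      exact ⟨(t 0, Fin.tail t), ⟨⟨h0.1, h0.2, h⟩, htl⟩, Fin.cons_self_tail t⟩
    · right
      simp only [U2, Set.mem_iUnion]
      exact ⟨t 0, Finset.mem_Ioc.2 h0, Fin.tail t, ⟨htl, h⟩, Fin.cons_self_tail t⟩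
  have hc1 : U1.ncard ≤ A.ncard * T ^ n := by
    calc U1.ncard ≤ (A ×ˢ B).ncard := Set.ncard_image_le (hAf.prod hBf)
      _ = A.ncard * B.ncard := Set.ncard_prod
      _ ≤ A.ncard * T ^ n := Nat.mul_le_mul_left _ (ncard_box n _ T)
  have hc2 : U2.ncard ≤ ∑ a ∈ Finset.Ioc (c 0) T, (E a).ncard := by
    calc U2.ncard ≤ ∑ a ∈ Finset.Ioc (c 0) T, ((cn a) '' (E a)).ncard :=
          Finset.set_ncard_biUnion_le _ _
      _ ≤ ∑ a ∈ Finset.Ioc (c 0) T, (E a).ncard :=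
          Finset.sum_le_sum fun a _ => Set.ncard_image_le (hEf a)
  have hc3 : (∑ a ∈ Finset.Ioc (c 0) T, ((E a).ncard : ℝ)) ≤ T * M := by
    calc (∑ a ∈ Finset.Ioc (c 0) T, ((E a).ncard : ℝ)) ≤ ∑ a ∈ Finset.Ioc (c 0) T, M :=
          Finset.sum_le_sum fun a _ => hM _
      _ = ((T - c 0 : ℕ) : ℝ) * M := by simp
      _ ≤ T * M := by
          apply mul_le_mul_of_nonneg_right _ hM0
          exact_mod_cast Nat.sub_le _ _
  have hc4 : (En c D T θ).ncard ≤ U1.ncard + U2.ncard :=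
    (Set.ncard_le_ncard hsub (hU1f.union hU2f)).trans (Set.ncard_union_le _ _)
  calc ((En c D T θ).ncard : ℝ)
      ≤ (U1.ncard : ℝ) + (U2.ncard : ℝ) := by exact_mod_cast hc4
    _ ≤ (A.ncard : ℝ) * (T : ℝ) ^ n + ∑ a ∈ Finset.Ioc (c 0) T, ((E a).ncard : ℝ) := by
        have h1 : (U1.ncard : ℝ) ≤ (A.ncard : ℝ) * (T : ℝ) ^ n := by exact_mod_cast hc1
        have h2 : (U2.ncard : ℝ) ≤ ∑ a ∈ Finset.Ioc (c 0) T, ((E a).ncard : ℝ) := by
          exact_mod_cast hc2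
        linarith
    _ ≤ M1 * (T : ℝ) ^ n + T * M := by
        have h1 : (A.ncard : ℝ) * (T : ℝ) ^ n ≤ M1 * (T : ℝ) ^ n :=
          mul_le_mul_of_nonneg_right (hM1 θ') (by positivity)
        linarith

end MULTI_

open MULTI_ in
theorem p_MULTI (h1 : T_ONE) (h2 : T_GEN) : T_MULTI := by
  intro n
  induction n with
  | zero =>
    intro k D c ε _ hε
    refine ⟨0, fun T _ θ => ?_⟩
    have h : {N : Fin 0 → ℕ | (∀ i, c i < N i ∧ N i ≤ T) ∧ MExc c D θ N} = ∅ := by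
      ext N
      simp only [Set.mem_empty_iff_false, iff_false]
      rintro ⟨-, P, -, hval, x, -, hne⟩
      apply hne
      rw [← hval]
      congr 3
      funext v
      exact Fin.elim0 v.1
    rw [h, Set.ncard_empty]
    simp [hε.le]
  | succ n ih =>
    intro k D c ε hc hε
    obtain ⟨T1, hT1⟩ := h1 (c 0) (k + n * 4) D (ε / 2) (hc 0) (by linarith)
    obtain ⟨T2, hT2⟩ := ih (k + 4) D (Fin.tail c) (ε / 2) (fun i => hc i.succ) (by linarith)
    refine ⟨max T1 T2, fun T hT θ => ?_⟩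
    have hTa : T1 ≤ T := (le_max_left _ _).trans hT
    have hTb : T2 ≤ T := (le_max_right _ _).trans hT
    refine (count_le h2 n k D c θ T (ε / 2 * T) (ε / 2 * (T : ℝ) ^ n) (by positivity)
      (fun θ' => hT1 T hTa θ') (fun z => hT2 T hTb (Fin.append θ z))).trans (le_of_eq ?_)
    ring

end Pool.Agent.LEG
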