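import Pool.Agent.LEG.Targets

set_option autoImplicit false
set_option linter.unusedSimpArgs false

/-!
# The system of the Legendre family in the variable `z`
-/

namespace Pool.Agent.LEG

open Finset
open scoped BigOperators Topology

namespace ODEPHI_

lemma sh_eq (c a : ℕ) : (1 - PowerSeries.C (a : ℚ) * PowerSeries.X) * sh c a =
    PowerSeries.C (c : ℚ) * PowerSeries.X := by
  ext n
  rw [sub_mul, one_mul, mul_assoc, map_sub, PowerSeries.coeff_C_mul, PowerSeries.coeff_C_mul]
  match n with
  | 0 => simp [sh]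
  | 1 =>
    rw [PowerSeries.coeff_succ_X_mul]
    simp [sh, PowerSeries.coeff_X]
  | (n + 2) =>
    rw [PowerSeries.coeff_succ_X_mul]
    simp only [sh, PowerSeries.coeff_mk, PowerSeries.coeff_X]
    have h1 : n + 2 ≠ 0 := by omega
    have h2 : n + 1 ≠ 0 := by omega
    have h3 : n + 2 ≠ 1 := by omega
    simp only [h1, h2, h3, if_false, Nat.add_sub_cancel]
    have h4 : n + 2 - 1 = n + 1 := by omega
    rw [h4]
    ring

lemma lo_eq (a : ℕ) : (1 - PowerSeries.C (a : ℚ) * PowerSeries.X) *
    PowerSeries.derivative ℚ (lo a) = - PowerSeries.C (a : ℚ) := by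
  ext n
  rw [sub_mul, one_mul, mul_assoc, map_sub, PowerSeries.coeff_C_mul]
  match n with
  | 0 => simp [lo, PowerSeries.coeff_derivative]
  | (n + 1) =>
    rw [PowerSeries.coeff_succ_X_mul]
    simp only [lo, PowerSeries.coeff_derivative, PowerSeries.coeff_mk, map_neg,
      PowerSeries.coeff_C]
    have h1 : (n : ℚ) + 1 ≠ 0 := by positivity
    have h2 : (n : ℚ) + 1 + 1 ≠ 0 := by positivity
    simp only [Nat.succ_ne_zero, if_false]
    push_cast
    field_simp
    ring

lemma hasSubst_sh (c a : ℕ) : PowerSeries.HasSubst (sh c a) := by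
  refine PowerSeries.HasSubst.of_constantCoeff_zero' ?_
  simp [sh, ← PowerSeries.coeff_zero_eq_constantCoeff_apply]

/-- substitution as an algebra homomorphism -/
noncomputable def ph (c a : ℕ) : PowerSeries ℚ →ₐ[ℚ] PowerSeries ℚ :=
  PowerSeries.substAlgHom (hasSubst_sh c a)

lemma ph_apply (c a : ℕ) (f : PowerSeries ℚ) : ph c a f = f.subst (sh c a) := by
  unfold ph
  rw [PowerSeries.coe_substAlgHom]

lemma ph_X (c a : ℕ) : ph c a PowerSeries.X = sh c a := by
  rw [ph_apply, PowerSeries.subst_X (hasSubst_sh c a)]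

lemma der_ph (c a : ℕ) (f : PowerSeries ℚ) : PowerSeries.derivative ℚ (ph c a f) =
    ph c a (PowerSeries.derivative ℚ f) * PowerSeries.derivative ℚ (sh c a) := by
  rw [ph_apply, ph_apply]
  exact PowerSeries.derivative_subst (hasSubst_sh c a)

lemma one_sub_ne {p : PowerSeries ℚ} (h : PowerSeries.constantCoeff p = 0) : 1 - p ≠ 0 := by
  intro h1
  have h2 := congrArg (PowerSeries.constantCoeff (R := ℚ)) h1
  rw [map_sub, h] at h2
  simp at h2

lemma U_eq (A' e : ℕ) (h : e ≤ A') : ((1 - PowerSeries.C (e : ℚ) * PowerSeries.X) *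
    (Ue A' e : PowerSeries ℚ)) = (UA A' : PowerSeries ℚ) := by
  have h1 : (1 - Polynomial.C (e : ℚ) * Polynomial.X) * Ue A' e = UA A' := by
    unfold Ue UA
    exact Finset.mul_prod_erase (range (A' + 1))
      (fun b : ℕ => (1 - Polynomial.C (b : ℚ) * Polynomial.X)) (by simp; omega)
  rw [← h1, Polynomial.coe_mul, Polynomial.coe_sub, Polynomial.coe_one, Polynomial.coe_mul,
    Polynomial.coe_C, Polynomial.coe_X]

end ODEPHI_

open ODEPHI_

theorem p_ODEPHI (h : T_FORM) : T_ODEPHI := by
  obtain ⟨e1, e2, e3⟩ := h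
  intro A' c a hc hac
  set X : PowerSeries ℚ := PowerSeries.X with hX
  set s := sh c a with hs
  set s' := PowerSeries.derivative ℚ s with hs'
  set α : PowerSeries ℚ := PowerSeries.C (a : ℚ) with hα
  set γ : PowerSeries ℚ := PowerSeries.C (c : ℚ) with hγ
  have hs1 : (1 - α * X) * s = γ * X := sh_eq c a
  have hne1 : 1 - α * X ≠ 0 := one_sub_ne (by simp [hX])
  have hX0 : X ≠ 0 := PowerSeries.X_ne_zero
  have hsc : PowerSeries.constantCoeff s = 0 := by
    simp [hs, sh, ← PowerSeries.coeff_zero_eq_constantCoeff_apply]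
  have hne2 : 1 - s ≠ 0 := one_sub_ne hsc
  -- derivative of `s`
  have hs2 : (1 - α * X) * s' - α * s = γ := by
    have := congrArg (PowerSeries.derivative ℚ) hs1
    simp only [Derivation.leibniz, map_sub, smul_eq_mul, hα, hγ, hX, PowerSeries.derivative_C,
      PowerSeries.derivative_X, Derivation.map_one_eq_zero] at this
    linear_combination this
  have hs3 : X * (1 - α * X) * s' = s := by
    linear_combination X * hs2 - hs1
  have hs4 : (1 - α * X) * (1 - s) = 1 - (α + γ) * X := by
    linear_combination -hs1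
  -- the logarithm
  set l := lo a with hl
  set l' := PowerSeries.derivative ℚ l with hl'
  have hl1 : (1 - α * X) * l' = -α := lo_eq a
  -- the polynomials
  set U : PowerSeries ℚ := (UA A' : PowerSeries ℚ) with hU
  set Ua : PowerSeries ℚ := (Ue A' a : PowerSeries ℚ) with hUa
  set Uc : PowerSeries ℚ := (Ue A' (a + c) : PowerSeries ℚ) with hUc
  have hU1 : (1 - α * X) * Ua = U := U_eq A' a (by omega)
  have hU2 : (1 - (α + γ) * X) * Uc = U := by
    have := U_eq A' (a + c) hac
    push_cast at this
    rw [map_add] at this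
    exact this
  have hU3 : (1 - s) * Uc = Ua := by
    apply mul_left_cancel₀ hne1
    linear_combination hU2 - hU1 + Uc * hs4
  -- the functions
  set f0 := ph c a F0 with hf0
  set f2 := ph c a F2 with hf2
  set h0 := ph c a H0 with hh0
  set h2 := ph c a H2 with hh2
  set g0 := ph c a (PowerSeries.derivative ℚ F0) with hg0
  set g2 := ph c a (PowerSeries.derivative ℚ F2) with hg2
  set k0 := ph c a (PowerSeries.derivative ℚ H0) with hk0
  set k2 := ph c a (PowerSeries.derivative ℚ H2) with hk2
  have phX : ph c a X = s := ph_X c a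
  have q1 : 2 * s * g2 = f2 - f0 := by
    have := congrArg (ph c a) e1
    simp only [map_mul, map_sub, map_ofNat, phX] at this
    exact this
  have q2 : 2 * s * k2 = h2 - h0 - f2 := by
    have := congrArg (ph c a) e2
    simp only [map_mul, map_sub, map_ofNat, phX] at this
    exact this
  have q3 : f0 * h2 - f2 * h0 = 1 := by
    have := congrArg (ph c a) e3
    simp only [map_mul, map_sub, map_one] at this
    exact this
  have q4 : f2 = 2 * s * (1 - s) * g0 + (1 - s) * f0 := by
    have := congrArg (ph c a) F2.eq_1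
    simp only [map_mul, map_sub, map_add, map_one, map_ofNat, ph_X] at this
    exact this
  have q5 : h2 = 2 * s * (1 - s) * k0 + (1 - s) * h0 + (1 - s) * f0 := by
    have := congrArg (ph c a) H2.eq_1
    simp only [map_mul, map_sub, map_add, map_one, map_ofNat, ph_X] at this
    exact this
  have d0 : PowerSeries.derivative ℚ f0 = g0 * s' := der_ph c a F0
  have d2 : PowerSeries.derivative ℚ f2 = g2 * s' := der_ph c a F2
  have c0 : PowerSeries.derivative ℚ h0 = k0 * s' := der_ph c a H0
  have c2 : PowerSeries.derivative ℚ h2 = k2 * s' := der_ph c a H2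
  set η : PowerSeries ℚ := PowerSeries.C (1 / 2 : ℚ) with hη
  have hη2 : 2 * η = 1 := by
    rw [hη, show (2 : PowerSeries ℚ) = PowerSeries.C (2 : ℚ) from (map_ofNat PowerSeries.C 2).symm, ← map_mul]
    norm_num
  -- the four equations
  have t0 : 2 * X * U * (g0 * s') = -Ua * f0 + Uc * f2 := by
    apply mul_left_cancel₀ hne2
    linear_combination (-2 * X * s' * g0 * (1 - s)) * hU1 + (2 * (1 - s) * Ua * g0) * hs3 -
      Ua * q4 - f2 * hU3
  have t2 : 2 * X * U * (g2 * s') = -Ua * f0 + Ua * f2 := by
    linear_combination (-2 * X * s' * g2) * hU1 + (2 * Ua * g2) * hs3 + Ua * q1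
  have u0 : 2 * X * U * (k0 * s') = -Ua * h0 + Uc * h2 - Ua * f0 := by
    apply mul_left_cancel₀ hne2
    linear_combination (-2 * X * s' * k0 * (1 - s)) * hU1 + (2 * (1 - s) * Ua * k0) * hs3 -
      Ua * q5 - h2 * hU3
  have u2 : 2 * X * U * (k2 * s') = -Ua * h0 + Ua * h2 - Ua * f2 := by
    linear_combination (-2 * X * s' * k2) * hU1 + (2 * Ua * k2) * hs3 + Ua * q2
  have hl2 : X * U * l' = -α * X * Ua := by
    linear_combination (-X * l') * hU1 + X * Ua * hl1
  have p00 : phi c a (0, 0) = f0 := by
    simp [phi, FH, hf0, ph_apply]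
  have p10 : phi c a (1, 0) = f2 := by
    simp [phi, FH, hf2, ph_apply]
  have p01 : phi c a (0, 1) = h0 - η * f0 * l := by
    simp [phi, FH, hf0, hh0, ph_apply, hη, hl]
  have p11 : phi c a (1, 1) = h2 - η * f2 * l := by
    simp [phi, FH, hf2, hh2, ph_apply, hη, hl]
  have hT : ((TA A' : Polynomial ℚ) : PowerSeries ℚ) = 2 * X * U := by
    unfold TA
    rw [Polynomial.coe_mul, Polynomial.coe_mul, Polynomial.coe_X]
    congr 2
    exact map_ofNat (Polynomial.coeToPowerSeries.ringHom (R := ℚ)) 2
  have dη : PowerSeries.derivative ℚ η = 0 := by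
    rw [hη, PowerSeries.derivative_C]
  constructor
  · intro p
    obtain ⟨i, j⟩ := p
    rw [hT, Fintype.sum_prod_type]
    simp only [Fin.sum_univ_two]
    fin_cases i <;> fin_cases j
    all_goals simp only [Fin.zero_eta, Fin.mk_one, Fin.isValue]
    · rw [p00, p10, p01, p11, d0, t0]
      simp only [kron, Aa, NU, Matrix.cons_val_zero, Matrix.cons_val_one, Matrix.cons_val_fin_one,
        if_true, if_false, one_ne_zero, zero_ne_one, Polynomial.coe_add, Polynomial.coe_neg,
        Polynomial.coe_zero, add_zero, zero_add, zero_mul]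
      rw [← hUa, ← hUc]
    · rw [p00, p10, p01, p11]
      simp only [kron, Aa, NU, Matrix.cons_val_zero, Matrix.cons_val_one, Matrix.cons_val_fin_one,
        if_true, if_false, one_ne_zero, zero_ne_one, Polynomial.coe_add, Polynomial.coe_neg,
        Polynomial.coe_zero, add_zero, zero_add, zero_mul, map_sub, Derivation.leibniz,
        smul_eq_mul, dη, d0, c0]
      rw [← hUa, ← hUc, ← hU, ← hl']
      linear_combination u0 - η * l * t0 - 2 * η * f0 * hl2 + α * X * Ua * f0 * hη2 - f0 * hU1
    · rw [p00, p10, p01, p11, d2, t2]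
      simp only [kron, Aa, NU, Matrix.cons_val_zero, Matrix.cons_val_one, Matrix.cons_val_fin_one,
        if_true, if_false, one_ne_zero, zero_ne_one, Polynomial.coe_add, Polynomial.coe_neg,
        Polynomial.coe_zero, add_zero, zero_add, zero_mul]
      rw [← hUa]
    · rw [p00, p10, p01, p11]
      simp only [kron, Aa, NU, Matrix.cons_val_zero, Matrix.cons_val_one, Matrix.cons_val_fin_one,
        if_true, if_false, one_ne_zero, zero_ne_one, Polynomial.coe_add, Polynomial.coe_neg,
        Polynomial.coe_zero, add_zero, zero_add, zero_mul, map_sub, Derivation.leibniz,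
        smul_eq_mul, dη, d2, c2]
      rw [← hUa, ← hU, ← hl']
      linear_combination u2 - η * l * t2 - 2 * η * f2 * hl2 + α * X * Ua * f2 * hη2 - f2 * hU1
  · rw [p00, p10, p01, p11]
    linear_combination q3

end Pool.Agent.LEG
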