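import Pool.Agent.LEG.Targets

/-!
# One curve: few exceptions
-/

set_option autoImplicit false

namespace Pool.Agent.LEG

open Finset
open scoped BigOperators Topology

namespace ONE_

/-- windows with few exceptions imply few exceptions -/
theorem window (P : ℕ → Prop) (A N1 q T : ℕ)
    (h : ∀ N, N1 ≤ N → ({a : ℕ | a ≤ A ∧ P (N - a)}).ncard ≤ q) :
    ({N : ℕ | N ≤ T ∧ P N}).ncard ≤ N1 + (T / (A + 1) + 1) * q := by
  classical
  have e1 : {N : ℕ | N ≤ T ∧ P N} = (((range (T + 1)).filter P : Finset ℕ) : Set ℕ) := by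
    ext N
    simp
  have e2 : ∀ N, {a : ℕ | a ≤ A ∧ P (N - a)} =
      (((range (A + 1)).filter fun a => P (N - a) : Finset ℕ) : Set ℕ) := by
    intro N
    ext a
    simp
  rw [e1, Set.ncard_coe_finset]
  have hsub : (range (T + 1)).filter P ⊆ range N1 ∪ (range (T / (A + 1) + 1)).biUnion
      (fun j => ((range (A + 1)).filter fun a => P (N1 + j * (A + 1) + A - a)).image
        fun a => N1 + j * (A + 1) + A - a) := by
    intro N hN
    rw [mem_filter, mem_range] at hN
    rw [mem_union, mem_range]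
    rcases lt_or_ge N N1 with h1 | h1
    · exact Or.inl h1
    · right
      rw [mem_biUnion]
      obtain ⟨j, hj⟩ : ∃ j, j = (N - N1) / (A + 1) := ⟨_, rfl⟩
      have h2 : (A + 1) * j + (N - N1) % (A + 1) = N - N1 := by
        rw [hj]
        exact Nat.div_add_mod _ _
      have h3 : (N - N1) % (A + 1) < A + 1 := Nat.mod_lt _ (Nat.succ_pos A)
      have h4 : j ≤ T / (A + 1) := by
        rw [hj]
        exact Nat.div_le_div_right (by omega)
      have h5 : j * (A + 1) = (A + 1) * j := Nat.mul_comm _ _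
      refine ⟨j, mem_range.2 (by omega), ?_⟩
      rw [mem_image]
      refine ⟨A - (N - N1) % (A + 1), ?_, by omega⟩
      rw [mem_filter, mem_range]
      refine ⟨by omega, ?_⟩
      have h6 : N1 + j * (A + 1) + A - (A - (N - N1) % (A + 1)) = N := by omega
      rw [h6]
      exact hN.2
  refine (card_le_card hsub).trans ((card_union_le _ _).trans ?_)
  rw [card_range]
  refine Nat.add_le_add_left ?_ _
  refine (card_biUnion_le_card_mul _ _ q ?_).trans (by rw [card_range])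
  intro j _
  refine card_image_le.trans ?_
  have h1 := h (N1 + j * (A + 1) + A) (by omega)
  rw [e2, Set.ncard_coe_finset] at h1
  exact h1

end ONE_

theorem p_ONE (hwin : T_WIN) : T_ONE := by
  intro c k D ε hc hε
  obtain ⟨A, hA⟩ := exists_nat_gt (2 * ((k : ℝ) + 2) / ε)
  obtain ⟨N1, hN1⟩ := hwin c k D A hc
  obtain ⟨T0, hT0⟩ := exists_nat_gt (2 * ((N1 : ℝ) + (k + 2)) / ε)
  refine ⟨T0, fun T hT θ => ?_⟩
  have h1 := ONE_.window (fun N => Exc c D θ N) A N1 (k + 2) T fun N hN => hN1 N hN θ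
  have h2 : ({N : ℕ | c < N ∧ N ≤ T ∧ Exc c D θ N}).ncard ≤
      ({N : ℕ | N ≤ T ∧ Exc c D θ N}).ncard := by
    refine Set.ncard_le_ncard (fun N hN => ⟨hN.2.1, hN.2.2⟩) ?_
    exact (Set.finite_le_nat T).subset fun N hN => hN.1
  have h3 : (({N : ℕ | c < N ∧ N ≤ T ∧ Exc c D θ N}).ncard : ℝ) ≤
      N1 + ((T : ℝ) / (A + 1) + 1) * (k + 2) := by
    have h4 : (({N : ℕ | c < N ∧ N ≤ T ∧ Exc c D θ N}).ncard : ℝ) ≤
        ((N1 + (T / (A + 1) + 1) * (k + 2) : ℕ) : ℝ) := by
      exact_mod_cast h2.trans h1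
    refine h4.trans ?_
    push_cast
    have h5 : (((T / (A + 1) : ℕ) : ℕ) : ℝ) ≤ (T : ℝ) / (A + 1) := by
      have := @Nat.cast_div_le ℝ _ _ _ T (A + 1)
      push_cast at this
      exact this
    gcongr
  refine h3.trans ?_
  have hk : (0 : ℝ) < k + 2 := by positivity
  have hA1 : ((k : ℝ) + 2) / (A + 1) ≤ ε / 2 := by
    rw [div_le_iff₀ (by positivity)]
    rw [div_lt_iff₀ hε] at hA
    nlinarith
  have hT1 : (N1 : ℝ) + (k + 2) ≤ ε / 2 * T := by
    rw [div_lt_iff₀ hε] at hT0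
    have : (T0 : ℝ) ≤ T := by exact_mod_cast hT
    nlinarith
  have hT2 : (T : ℝ) / (A + 1) * (k + 2) = T * (((k : ℝ) + 2) / (A + 1)) := by ring
  have hT3 : (T : ℝ) * (((k : ℝ) + 2) / (A + 1)) ≤ T * (ε / 2) := by gcongr
  nlinarith

end Pool.Agent.LEG
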