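import Pool.Agent.LEG.Targets

set_option autoImplicit false

/-! Periods of Legendre curves: order of the determinant at zero. -/

namespace Pool.Agent.LEG

open Finset
open scoped BigOperators

namespace ORD0_

theorem vv_coe {ι : Type} [Fintype ι] (T : Polynomial ℚ) (A : ι → ι → Polynomial ℚ)
    (P : ι → Polynomial ℚ) (k : ℕ) (i : ι) :
    (VV T A P k i : PowerSeries ℚ) = VS T A (fun j => (P j : PowerSeries ℚ)) k i := by
  induction k generalizing i with
  | zero => rfl
  | succ k ih =>
    have h1 : ((∑ j, A i j * VV T A P k j : Polynomial ℚ) : PowerSeries ℚ) =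
        ∑ j, (A i j : PowerSeries ℚ) * VS T A (fun j => (P j : PowerSeries ℚ)) k j := by
      have := map_sum (Polynomial.coeToPowerSeries.ringHom (R := ℚ))
        (fun j => A i j * VV T A P k j) univ
      simp only [Polynomial.coeToPowerSeries.ringHom_apply, Polynomial.coe_mul] at this
      rw [this]
      exact Finset.sum_congr rfl fun j _ => by rw [ih j]
    have h2 : (((k : Polynomial ℚ) : Polynomial ℚ) : PowerSeries ℚ) = (k : PowerSeries ℚ) :=
      map_natCast (Polynomial.coeToPowerSeries.ringHom (R := ℚ)) k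
    simp only [VV, VS]
    rw [Polynomial.coe_sub, Polynomial.coe_sub, Polynomial.coe_mul, Polynomial.coe_mul,
      Polynomial.coe_mul, h1, h2, ← PowerSeries.derivative_coe, ih i]

theorem vs_sub {ι : Type} [Fintype ι] (T : Polynomial ℚ) (A : ι → ι → Polynomial ℚ)
    (R S : ι → PowerSeries ℚ) (k : ℕ) (i : ι) :
    VS T A (fun j => R j - S j) k i = VS T A R k i - VS T A S k i := by
  induction k generalizing i with
  | zero => rfl
  | succ k ih =>
    simp only [VS, ih, map_sub, mul_sub, Finset.sum_sub_distrib]
    ring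

theorem vs_hor {ι : Type} [Fintype ι] (T : Polynomial ℚ) (A : ι → ι → Polynomial ℚ)
    (f : ι → PowerSeries ℚ) (hf : Hor T A f) (Q : Polynomial ℚ) (k : ℕ) (i : ι) :
    VS T A (fun j => (Q : PowerSeries ℚ) * f j) k i =
      (T : PowerSeries ℚ) ^ k * (Polynomial.derivative^[k] Q : Polynomial ℚ) * f i := by
  induction k generalizing i with
  | zero => simp [VS]
  | succ k ih =>
    simp only [VS, ih]
    have h1 : ∑ j, (A i j : PowerSeries ℚ) *
        ((T : PowerSeries ℚ) ^ k * (Polynomial.derivative^[k] Q : Polynomial ℚ) * f j) =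
        (T : PowerSeries ℚ) ^ k * (Polynomial.derivative^[k] Q : Polynomial ℚ) *
          ((T : PowerSeries ℚ) * PowerSeries.derivative ℚ (f i)) := by
      rw [hf i, Finset.mul_sum]
      exact Finset.sum_congr rfl fun j _ => by ring
    rw [h1, Function.iterate_succ_apply', Derivation.leibniz, Derivation.leibniz,
      PowerSeries.derivative_pow, PowerSeries.derivative_coe, PowerSeries.derivative_coe]
    simp only [smul_eq_mul]
    rcases k with _ | k
    · simp
      ring
    · rw [Nat.add_sub_cancel]
      ring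

theorem vs_dvd {ι : Type} [Fintype ι] (T : Polynomial ℚ) (A : ι → ι → Polynomial ℚ)
    (R : ι → PowerSeries ℚ) (s : ℕ) (h : ∀ j, (PowerSeries.X : PowerSeries ℚ) ^ s ∣ R j) (k : ℕ)
    (i : ι) : (PowerSeries.X : PowerSeries ℚ) ^ (s - k) ∣ VS T A R k i := by
  induction k generalizing i with
  | zero => exact h i
  | succ k ih =>
    have h0 : ∀ j, (PowerSeries.X : PowerSeries ℚ) ^ (s - (k + 1)) ∣ VS T A R k j := fun j =>
      (pow_dvd_pow _ (by omega)).trans (ih j)
    have h1 : (PowerSeries.X : PowerSeries ℚ) ^ (s - (k + 1)) ∣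
        PowerSeries.derivative ℚ (VS T A R k i) := by
      have h2 := ih i
      rw [PowerSeries.X_pow_dvd_iff] at h2 ⊢
      intro m hm
      rw [PowerSeries.coeff_derivative, h2 (m + 1) (by omega), zero_mul]
    simp only [VS]
    exact dvd_sub (dvd_sub (h1.mul_left _) ((h0 i).mul_left _))
      (Finset.dvd_sum fun j _ => (h0 j).mul_left _)

theorem det_dvd {n : Type*} [Fintype n] [DecidableEq n] (G : Matrix n n (PowerSeries ℚ)) (j₀ : n)
    (s : ℕ) (h : ∀ i j, j ≠ j₀ → (PowerSeries.X : PowerSeries ℚ) ^ s ∣ G i j) :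
    (PowerSeries.X : PowerSeries ℚ) ^ ((Fintype.card n - 1) * s) ∣ Matrix.det G := by
  classical
  choose! q hq using h
  set G' : Matrix n n (PowerSeries ℚ) := Matrix.of fun i j => if j = j₀ then G i j else q i j
  have h1 : G = Matrix.of fun i j =>
      (fun j => if j = j₀ then 1 else (PowerSeries.X : PowerSeries ℚ) ^ s) j * G' i j := by
    ext1 i j
    simp only [Matrix.of_apply, G']
    split_ifs with hj
    · rw [one_mul]
    · exact hq i j hj
  rw [h1, Matrix.det_mul_row]
  apply Dvd.dvd.mul_right
  rw [Finset.prod_ite]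
  simp only [prod_const_one, one_mul, prod_const]
  rw [← pow_mul, mul_comm s]
  apply pow_dvd_pow
  apply Nat.mul_le_mul_right
  apply le_of_eq
  rw [Finset.filter_not, Finset.filter_eq' univ j₀]
  simp [Finset.card_sdiff]

end ORD0_

open ORD0_ in
/-- order at zero of the determinant of the first vectors -/
theorem p_ORD0 : T_ORD0 := by
  intro ι _ _ T A f o m σ P hf hfo hP
  set R : ι → PowerSeries ℚ := fun j => (P o : PowerSeries ℚ) * f j - (P j : PowerSeries ℚ) with hR
  have hV : ∀ k i, (VV T A P k i : PowerSeries ℚ) =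
      (T : PowerSeries ℚ) ^ k * (Polynomial.derivative^[k] (P o) : Polynomial ℚ) * f i -
        VS T A R k i := by
    intro k i
    rw [vv_coe, ← vs_hor T A f hf (P o) k i, hR, vs_sub]
    ring
  set N : Matrix ι ι (PowerSeries ℚ) :=
    Matrix.of fun i j => ((VV T A P (num i) j : Polynomial ℚ) : PowerSeries ℚ) with hN
  set N' : Matrix ι ι (PowerSeries ℚ) :=
    Matrix.of fun i j => N i j - (if j = o then 0 else f j) * N i o with hN'
  have hdet : N.det = N'.det := by
    rw [← Matrix.det_transpose N, ← Matrix.det_transpose N']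
    symm
    apply Matrix.det_eq_of_forall_row_eq_smul_add_const
      (fun j => -(if j = o then 0 else f j)) o (by simp)
    intro j i
    simp only [Matrix.transpose_apply, hN', Matrix.of_apply]
    ring
  have h1 : (PowerSeries.X : PowerSeries ℚ) ^ ((Fintype.card ι - 1) * (σ - Fintype.card ι)) ∣
      N'.det := by
    apply det_dvd N' o
    intro i j hj
    have hi : num i < Fintype.card ι := (Fintype.equivFin ι i).isLt
    have e1 : N' i j = f j * VS T A R (num i) o - VS T A R (num i) j := by
      simp only [hN', hN, Matrix.of_apply, hV, if_neg hj, hfo]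
      ring
    have e2 : ∀ j, (PowerSeries.X : PowerSeries ℚ) ^ (σ - Fintype.card ι) ∣
        VS T A R (num i) j := fun j =>
      (pow_dvd_pow _ (by omega)).trans (vs_dvd T A R σ hP.ord (num i) j)
    rw [e1]
    exact dvd_sub ((e2 o).mul_left _) (e2 j)
  have h2 : N.det = ((WW T A P : Polynomial ℚ) : PowerSeries ℚ) := by
    have := RingHom.map_det (Polynomial.coeToPowerSeries.ringHom (R := ℚ))
      (Matrix.of fun i j : ι => VV T A P (num i) j)
    rw [Polynomial.coeToPowerSeries.ringHom_apply] at this
    rw [WW, this]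
    rfl
  rw [← hdet, h2, PowerSeries.X_pow_dvd_iff] at h1
  rw [Polynomial.X_pow_dvd_iff]
  intro n hn
  have := h1 n hn
  rwa [Polynomial.coeff_coe] at this

end Pool.Agent.LEG
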