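import Pool.Agent.LEG.Targets

set_option autoImplicit false

/-!
# LEG, job ORD1: order of the determinant at `z0`
-/

namespace Pool.Agent.LEG

open Finset
open scoped BigOperators

namespace ORD1_

/-- `ty z0` as a ring homomorphism -/
noncomputable def tyh (z0 : ℚ) : Polynomial ℚ →+* PowerSeries ℚ :=
  (Polynomial.coeToPowerSeries.ringHom (R := ℚ)).comp
    ((Polynomial.taylorAlgHom z0 : Polynomial ℚ →ₐ[ℚ] Polynomial ℚ) : Polynomial ℚ →+* Polynomial ℚ)

theorem tyh_apply (z0 : ℚ) (p : Polynomial ℚ) : tyh z0 p = ty z0 p := rfl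

theorem cc_ty (z0 : ℚ) (p : Polynomial ℚ) :
    PowerSeries.constantCoeff (ty z0 p) = p.eval z0 := by
  unfold ty
  rw [← PowerSeries.coeff_zero_eq_constantCoeff_apply, Polynomial.coeff_coe,
    Polynomial.taylor_coeff_zero]

theorem dvd_det_of_mulVec {ι : Type} [Fintype ι] [DecidableEq ι] (s : ℕ)
    (G : Matrix ι ι (PowerSeries ℚ)) (g : ι → PowerSeries ℚ)
    (hg : ∃ j, PowerSeries.constantCoeff (g j) ≠ 0)
    (h : ∀ K, (PowerSeries.X : PowerSeries ℚ) ^ s ∣ G.mulVec g K) :
    (PowerSeries.X : PowerSeries ℚ) ^ s ∣ G.det := by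
  obtain ⟨J, hJ⟩ := hg
  have h1 : G.adjugate.mulVec (G.mulVec g) J = G.det * g J := by
    rw [Matrix.mulVec_mulVec, Matrix.adjugate_mul, Matrix.smul_mulVec, Matrix.one_mulVec,
      Pi.smul_apply, smul_eq_mul]
  have h2 : (PowerSeries.X : PowerSeries ℚ) ^ s ∣ G.det * g J := by
    rw [← h1]
    unfold Matrix.mulVec dotProduct
    exact Finset.dvd_sum fun K _ => (h K).mul_left _
  have h3 : IsUnit (g J) := by
    rw [PowerSeries.isUnit_iff_constantCoeff]
    exact isUnit_iff_ne_zero.mpr hJ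
  exact (h3.dvd_mul_right).mp h2

theorem dvd_deriv (n k : ℕ) (H : PowerSeries ℚ) (h : (PowerSeries.X : PowerSeries ℚ) ^ n ∣ H) :
    (PowerSeries.X : PowerSeries ℚ) ^ (n - k) ∣ (PowerSeries.derivative ℚ)^[k] H := by
  rw [PowerSeries.X_pow_dvd_iff] at h ⊢
  intro m hm
  rw [PowerSeries.coeff_iterate_derivative, h (m + k) (by omega)]
  simp

theorem coeff_of_deriv (k : ℕ) (H : PowerSeries ℚ)
    (h : PowerSeries.constantCoeff ((PowerSeries.derivative ℚ)^[k] H) = 0) :
    PowerSeries.coeff k H = 0 := by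
  rw [← PowerSeries.coeff_zero_eq_constantCoeff_apply, PowerSeries.coeff_iterate_derivative] at h
  rcases mul_eq_zero.1 h with h1 | h1
  · exfalso
    revert h1
    simp [Nat.factorial_ne_zero]
  · rw [zero_add] at h1
    exact h1

end ORD1_

open ORD1_ in
theorem p_ORD1 (hL : T_LOC) : T_ORD1 := by
  intro ι _ _ T A z0 K0 P c hT hc hk
  obtain ⟨g, hg0, hg⟩ := hL ι T A z0 hT c
  set s := K0 + 1 - Fintype.card ι with hs
  set H : PowerSeries ℚ := ∑ i, g i * ty z0 (P i) with hH
  have hH1 : (PowerSeries.X : PowerSeries ℚ) ^ (K0 + 1) ∣ H := by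
    rw [PowerSeries.X_pow_dvd_iff]
    intro k hk1
    apply coeff_of_deriv
    have h1 := congrArg (PowerSeries.constantCoeff (R := ℚ)) (hg P k)
    rw [map_sum, map_mul, map_pow, cc_ty] at h1
    have h2 : ∑ i, PowerSeries.constantCoeff (g i * ty z0 (VV T A P k i)) = 0 := by
      rw [← hk k (by omega)]
      refine Finset.sum_congr rfl fun i _ => ?_
      rw [map_mul, hg0, cc_ty]
    rw [h2] at h1
    rcases mul_eq_zero.1 h1.symm with h3 | h3
    · exact absurd h3 (pow_ne_zero _ hT)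
    · exact h3
  set N : Matrix ι ι (Polynomial ℚ) := Matrix.of fun i j : ι => VV T A P (num i) j with hN
  have h1 : (PowerSeries.X : PowerSeries ℚ) ^ s ∣ ((tyh z0).mapMatrix N).det := by
    refine dvd_det_of_mulVec s _ g ?_ fun K => ?_
    · obtain ⟨j, hj⟩ := Function.ne_iff.mp hc
      exact ⟨j, by rw [hg0]; exact hj⟩
    · have h2 : ((tyh z0).mapMatrix N).mulVec g K =
          ty z0 T ^ (num K) * (PowerSeries.derivative ℚ)^[num K] H := by
        rw [hH, ← hg P (num K)]
        show ∑ j, ty z0 (VV T A P (num K) j) * g j = _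
        exact Finset.sum_congr rfl fun j _ => mul_comm _ _
      rw [h2]
      refine Dvd.dvd.mul_left ?_ _
      refine (pow_dvd_pow _ ?_).trans (dvd_deriv (K0 + 1) (num K) H hH1)
      have : num K < Fintype.card ι := (Fintype.equivFin ι K).isLt
      omega
  rw [← RingHom.map_det, tyh_apply] at h1
  rw [Polynomial.X_sub_C_pow_dvd_iff, Polynomial.X_pow_dvd_iff]
  rw [PowerSeries.X_pow_dvd_iff] at h1
  intro d hd
  have h3 := h1 d hd
  unfold ty at h3
  rw [Polynomial.coeff_coe, Polynomial.taylor_apply] at h3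
  exact h3

end Pool.Agent.LEG
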