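import Pool.Agent.LEG.Targets

set_option autoImplicit false

/-!
# LEG, entry RHO: properties of the period matrices
-/

namespace Pool.Agent.LEG

open Finset
open scoped BigOperators Topology

namespace RHO_

/-- the argument of the elliptic integrals -/
noncomputable def mm (c a : ℕ) (z : ℝ) : ℝ := c * z / (1 - a * z)

theorem den_pos {c a : ℕ} {z : ℝ} (hc : 1 ≤ c) (hz : 0 < z) (h : ((a : ℝ) + c) * z < 1) :
    0 < 1 - a * z := by
  have h1 : (1 : ℝ) ≤ c := by exact_mod_cast hc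
  nlinarith [mul_pos (by linarith : (0 : ℝ) < c) hz]

theorem mm_pos {c a : ℕ} {z : ℝ} (hc : 1 ≤ c) (hz : 0 < z) (h : ((a : ℝ) + c) * z < 1) :
    0 < mm c a z := by
  have h1 : (1 : ℝ) ≤ c := by exact_mod_cast hc
  exact div_pos (mul_pos (by linarith) hz) (den_pos hc hz h)

theorem mm_lt {c a : ℕ} {z : ℝ} (hc : 1 ≤ c) (hz : 0 < z) (h : ((a : ℝ) + c) * z < 1) :
    mm c a z < 1 := by
  rw [mm, div_lt_one (den_pos hc hz h)]
  linarith

theorem log_mm {c a : ℕ} {z : ℝ} (hc : 1 ≤ c) (hz : 0 < z) (h : ((a : ℝ) + c) * z < 1) :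
    Real.log (mm c a z) = Real.log c + Real.log z - Real.log (1 - a * z) := by
  have h1 : (1 : ℝ) ≤ c := by exact_mod_cast hc
  rw [mm, Real.log_div (mul_pos (by linarith) hz).ne' (den_pos hc hz h).ne',
    Real.log_mul (by linarith) hz.ne']

/-- analyticity of the four basic series in the unit disc -/
theorem an_FH (h4 : T_CONV) (h5 : T_EVC) (i j : Fin 2) {x : ℝ} (hx : |x| < 1) :
    AnalyticAt ℝ (ev (FH i j)) x :=
  ((h5.2.2.2 (FH i j) 1 one_pos (fun y hy => h4 i j y hy)).1 x hx).1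

theorem an_mm (c a : ℕ) {z : ℝ} (hz : 1 - (a : ℝ) * z ≠ 0) :
    AnalyticAt ℝ (fun z => (c : ℝ) * z / (1 - a * z)) z := by
  refine AnalyticAt.div ?_ ?_ hz
  · exact analyticAt_const.mul analyticAt_id
  · exact analyticAt_const.sub (analyticAt_const.mul analyticAt_id)

theorem an_comp (h4 : T_CONV) (h5 : T_EVC) (c a : ℕ) (i j : Fin 2) {z : ℝ}
    (hz : 1 - (a : ℝ) * z ≠ 0) (hx : |(c : ℝ) * z / (1 - a * z)| < 1) :
    AnalyticAt ℝ (fun z => ev (FH i j) ((c : ℝ) * z / (1 - a * z))) z :=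
  AnalyticAt.fun_comp (g := ev (FH i j)) (an_FH h4 h5 i j hx) (an_mm c a hz)

theorem an_comp1 (h4 : T_CONV) (h5 : T_EVC) (c a : ℕ) (i j : Fin 2) {z : ℝ}
    (hz : 1 - (a : ℝ) * z ≠ 0) (hx : |1 - (c : ℝ) * z / (1 - a * z)| < 1) :
    AnalyticAt ℝ (fun z => ev (FH i j) (1 - (c : ℝ) * z / (1 - a * z))) z :=
  AnalyticAt.fun_comp (g := ev (FH i j)) (f := fun z => 1 - (c : ℝ) * z / (1 - a * z))
    (an_FH h4 h5 i j hx) (analyticAt_const.sub (an_mm c a hz))

theorem FH00 : FH 0 0 = F0 := rfl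
theorem FH01 : FH 0 1 = H0 := rfl
theorem FH10 : FH 1 0 = F2 := rfl
theorem FH11 : FH 1 1 = H2 := rfl

/-- the relation between the period matrix and the four functions -/
theorem rho_eq (h1 : T_KF) {c1 : ℝ} (hc1 : ∀ m : ℝ, 0 < m → m < 1 →
    KK (1 - m) = c1 * ev F0 m - 1 / 2 * ev F0 m * Real.log m - ev H0 m ∧
    KK (1 - m) - EE (1 - m) = c1 * ev F2 m - 1 / 2 * ev F2 m * Real.log m - ev H2 m)
    {c : ℕ} (hc : 1 ≤ c) (a : ℕ) (z : ℝ) (hz : 0 < z) (h : ((a : ℝ) + c) * z < 1) :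
    rho c a z = PhR c a z * RL (c1 - Real.log c / 2) (Real.log z) := by
  have hm0 := mm_pos hc hz h
  have hm1 := mm_lt hc hz h
  have hl := log_mm hc hz h
  obtain ⟨k1, k2⟩ := h1 _ hm0 hm1
  obtain ⟨k3, k4⟩ := hc1 _ hm0 hm1
  rw [hl] at k3 k4
  unfold mm at k1 k2 k3 k4
  ext i j
  fin_cases i <;> fin_cases j
  · simp [rho, PhR, RL, Matrix.mul_apply, Fin.sum_univ_two, FH00, k1]
    ring
  · simp [rho, PhR, RL, Matrix.mul_apply, Fin.sum_univ_two, FH00, FH01]
    rw [k3]
    ring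
  · simp [rho, PhR, RL, Matrix.mul_apply, Fin.sum_univ_two, FH10, k2]
    ring
  · simp [rho, PhR, RL, Matrix.mul_apply, Fin.sum_univ_two, FH10, FH11]
    rw [k4]
    ring

theorem RL_up (c1 l : ℝ) : RL c1 l = RL c1 0 * up (-l / Real.pi) := by
  have hp : Real.pi ≠ 0 := Real.pi_ne_zero
  ext i j
  fin_cases i <;> fin_cases j
  · simp [RL, up, Matrix.mul_apply, Fin.sum_univ_two]
  · simp [RL, up, Matrix.mul_apply, Fin.sum_univ_two]
    field_simp
    ring
  · simp [RL, up, Matrix.mul_apply, Fin.sum_univ_two]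
  · simp [RL, up, Matrix.mul_apply, Fin.sum_univ_two]

/-- analyticity of the four functions at the origin -/
theorem an_PhR (h4 : T_CONV) (h5 : T_EVC) (c a : ℕ) (i j : Fin 2) :
    AnalyticAt ℝ (fun z => PhR c a z i j) 0 := by
  have hd : (1 : ℝ) - (a : ℝ) * 0 ≠ 0 := by norm_num
  have hx : |(c : ℝ) * 0 / (1 - a * 0)| < 1 := by norm_num
  have hlog : AnalyticAt ℝ (fun z : ℝ => Real.log (1 - a * z)) 0 := by
    refine AnalyticAt.log ?_ ?_
    · exact analyticAt_const.sub (analyticAt_const.mul analyticAt_id)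
    · norm_num
  fin_cases j
  · have e : (fun z => PhR c a z i 0) = fun z => ev (FH i 0) ((c : ℝ) * z / (1 - a * z)) := by
      funext z
      simp [PhR]
    show AnalyticAt ℝ (fun z => PhR c a z i 0) 0
    rw [e]
    exact an_comp h4 h5 c a i 0 hd hx
  · have e : (fun z => PhR c a z i 1) = fun z => ev (FH i 1) ((c : ℝ) * z / (1 - a * z)) -
        1 / 2 * ev (FH i 0) ((c : ℝ) * z / (1 - a * z)) * Real.log (1 - a * z) := by
      funext z
      simp [PhR]
    show AnalyticAt ℝ (fun z => PhR c a z i 1) 0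
    rw [e]
    exact (an_comp h4 h5 c a i 1 hd hx).sub
      ((analyticAt_const.mul (an_comp h4 h5 c a i 0 hd hx)).mul hlog)

theorem an_mul {P : ℝ → Matrix (Fin 2) (Fin 2) ℝ} {x : ℝ} (R : Matrix (Fin 2) (Fin 2) ℝ)
    (hP : ∀ i j, AnalyticAt ℝ (fun z => P z i j) x) (i j : Fin 2) :
    AnalyticAt ℝ (fun z => (P z * R) i j) x := by
  have e : (fun z => (P z * R) i j) = fun z => P z i 0 * R 0 j + P z i 1 * R 1 j := by
    funext z
    simp [Matrix.mul_apply, Fin.sum_univ_two]
  rw [e]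
  exact ((hP i 0).mul analyticAt_const).add ((hP i 1).mul analyticAt_const)

/-- analyticity of the periods -/
theorem an_rho (h1 : T_KF) (h4 : T_CONV) (h5 : T_EVC) {c : ℕ} (hc : 1 ≤ c) (a : ℕ) (i j : Fin 2)
    (z : ℝ) (hz : 0 < z) (h : ((a : ℝ) + c) * z < 1) :
    AnalyticAt ℝ (fun z => rho c a z i j) z := by
  have hden := (den_pos hc hz h).ne'
  have hm0 := mm_pos hc hz h
  have hm1 := mm_lt hc hz h
  have hx : |(c : ℝ) * z / (1 - a * z)| < 1 := by
    unfold mm at hm0 hm1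
    rw [abs_lt]
    constructor <;> linarith
  have hx1 : |1 - (c : ℝ) * z / (1 - a * z)| < 1 := by
    unfold mm at hm0 hm1
    rw [abs_lt]
    constructor <;> linarith
  have hev : ∀ᶠ w in 𝓝 z, 0 < w ∧ ((a : ℝ) + c) * w < 1 := by
    refine (eventually_gt_nhds hz).and ?_
    exact (continuous_const.mul continuous_id).continuousAt.eventually_lt
      continuousAt_const h
  have kK : AnalyticAt ℝ (fun z => KK (c * z / (1 - a * z))) z := by
    refine (analyticAt_const.mul (an_comp h4 h5 c a 0 0 hden hx)).congr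
      (f := fun z => Real.pi / 2 * ev (FH 0 0) ((c : ℝ) * z / (1 - a * z))) ?_
    filter_upwards [hev] with w hw
    exact ((h1 _ (mm_pos hc hw.1 hw.2) (mm_lt hc hw.1 hw.2)).1).symm
  have kE : AnalyticAt ℝ (fun z => EE (c * z / (1 - a * z))) z := by
    refine (analyticAt_const.mul (an_comp h4 h5 c a 1 0 hden hx)).congr
      (f := fun z => Real.pi / 2 * ev (FH 1 0) ((c : ℝ) * z / (1 - a * z))) ?_
    filter_upwards [hev] with w hw
    exact ((h1 _ (mm_pos hc hw.1 hw.2) (mm_lt hc hw.1 hw.2)).2).symm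
  have kK1 : AnalyticAt ℝ (fun z => KK (1 - c * z / (1 - a * z))) z := by
    refine (analyticAt_const.mul (an_comp1 h4 h5 c a 0 0 hden hx1)).congr
      (f := fun z => Real.pi / 2 * ev (FH 0 0) (1 - (c : ℝ) * z / (1 - a * z))) ?_
    filter_upwards [hev] with w hw
    have e0 := mm_pos hc hw.1 hw.2
    have e1 := mm_lt hc hw.1 hw.2
    exact ((h1 (1 - mm c a w) (by linarith) (by linarith)).1).symm
  have kE1 : AnalyticAt ℝ (fun z => EE (1 - c * z / (1 - a * z))) z := by
    refine (analyticAt_const.mul (an_comp1 h4 h5 c a 1 0 hden hx1)).congr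
      (f := fun z => Real.pi / 2 * ev (FH 1 0) (1 - (c : ℝ) * z / (1 - a * z))) ?_
    filter_upwards [hev] with w hw
    have e0 := mm_pos hc hw.1 hw.2
    have e1 := mm_lt hc hw.1 hw.2
    exact ((h1 (1 - mm c a w) (by linarith) (by linarith)).2).symm
  fin_cases i <;> fin_cases j
  · exact kK
  · exact kK1
  · exact kE
  · exact kK1.sub kE1

/-- the function `g` with `1 - m = x g(x)` -/
noncomputable def gg (c a : ℕ) (x : ℝ) : ℝ := ((a : ℝ) + c) / (c / ((a : ℝ) + c) + a * x)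

theorem gg_pos {c a : ℕ} {x : ℝ} (hc : 1 ≤ c) (hx : 0 ≤ x) : 0 < gg c a x := by
  have h1 : (0 : ℝ) < c := by exact_mod_cast (by omega : 0 < c)
  unfold gg
  positivity

theorem an_gg {c : ℕ} (a : ℕ) (hc : 1 ≤ c) : AnalyticAt ℝ (gg c a) 0 := by
  have h1 : (0 : ℝ) < c := by exact_mod_cast (by omega : 0 < c)
  unfold gg
  refine AnalyticAt.div analyticAt_const
    (analyticAt_const.add (analyticAt_const.mul analyticAt_id)) ?_
  simp only [mul_zero, add_zero, id_eq]
  positivity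

theorem one_sub_mm {c a : ℕ} (hc : 1 ≤ c) {x : ℝ} (hx : 0 < x) :
    1 - (c : ℝ) * (1 / ((a : ℝ) + c) - x) / (1 - a * (1 / ((a : ℝ) + c) - x)) = x * gg c a x := by
  have h1 : (0 : ℝ) < c := by exact_mod_cast (by omega : 0 < c)
  have h2 : (0 : ℝ) < (a : ℝ) + c := by positivity
  have h3 : (0 : ℝ) < c / ((a : ℝ) + c) + a * x := by positivity
  have h4 : 1 - (a : ℝ) * (1 / ((a : ℝ) + c) - x) = c / ((a : ℝ) + c) + a * x := by
    field_simp
    ring
  rw [h4, gg, eq_comm, mul_div_assoc', eq_sub_iff_add_eq, ← add_div, div_eq_one_iff_eq h3.ne']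
  field_simp
  ring

end RHO_

open RHO_

theorem p_RHO (h1 : T_KF) (h2 : T_KH) (h3 : T_LEGR) (h4 : T_CONV) (h5 : T_EVC) : T_RHO := by
  obtain ⟨c1, hc1⟩ := h2
  intro c hc
  have hc0 : (0 : ℝ) < c := by exact_mod_cast (by omega : 0 < c)
  refine ⟨⟨c1 - Real.log c / 2, fun a z hz h => rho_eq h1 hc1 hc a z hz h⟩,
    fun a i j => an_PhR h4 h5 c a i j, ?_, fun a i j z hz h => an_rho h1 h4 h5 hc a i j z hz h,
    ?_, ?_⟩
  · intro a
    refine ⟨fun z => PhR c a z * RL (c1 - Real.log c / 2) 0,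
      fun i j => an_mul _ (fun i j => an_PhR h4 h5 c a i j) i j, fun z hz h => ?_⟩
    rw [rho_eq h1 hc1 hc a z hz h, RL_up, Matrix.mul_assoc]
  · intro a
    have hac : (0 : ℝ) < (a : ℝ) + c := by positivity
    have hg := an_gg a hc
    have hxg : AnalyticAt ℝ (fun x => x * gg c a x) 0 := analyticAt_id.mul hg
    have hf : ∀ i j, AnalyticAt ℝ (fun x => ev (FH i j) (x * gg c a x)) 0 := by
      intro i j
      refine AnalyticAt.fun_comp (g := ev (FH i j)) (f := fun x => x * gg c a x)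
        (an_FH h4 h5 i j ?_) hxg
      simp
    have hlg : AnalyticAt ℝ (fun x => Real.log (gg c a x)) 0 :=
      AnalyticAt.log hg (gg_pos hc le_rfl)
    refine ⟨fun x => !![c1 * ev (FH 0 0) (x * gg c a x) -
        1 / 2 * ev (FH 0 0) (x * gg c a x) * Real.log (gg c a x) - ev (FH 0 1) (x * gg c a x),
        Real.pi / 2 * ev (FH 0 0) (x * gg c a x);
        c1 * (ev (FH 0 0) (x * gg c a x) - ev (FH 1 0) (x * gg c a x)) -
        1 / 2 * (ev (FH 0 0) (x * gg c a x) - ev (FH 1 0) (x * gg c a x)) *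
          Real.log (gg c a x) - (ev (FH 0 1) (x * gg c a x) - ev (FH 1 1) (x * gg c a x)),
        Real.pi / 2 * (ev (FH 0 0) (x * gg c a x) - ev (FH 1 0) (x * gg c a x))], ?_, ?_⟩
    · intro i j
      fin_cases i <;> fin_cases j
      · exact ((analyticAt_const.mul (hf 0 0)).sub
          ((analyticAt_const.mul (hf 0 0)).mul hlg)).sub (hf 0 1)
      · exact analyticAt_const.mul (hf 0 0)
      · exact ((analyticAt_const.mul ((hf 0 0).sub (hf 1 0))).sub
          ((analyticAt_const.mul ((hf 0 0).sub (hf 1 0))).mul hlg)).sub ((hf 0 1).sub (hf 1 1))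
      · exact analyticAt_const.mul ((hf 0 0).sub (hf 1 0))
    · have hsm : ∀ᶠ x in 𝓝[>] (0 : ℝ), x < 1 / ((a : ℝ) + c) :=
        nhdsWithin_le_nhds (eventually_lt_nhds (by positivity))
      filter_upwards [hsm, self_mem_nhdsWithin] with x hx hx0
      have hx0' : 0 < x := hx0
      have hz : 0 < 1 / ((a : ℝ) + c) - x := by linarith
      have hz1 : ((a : ℝ) + c) * (1 / ((a : ℝ) + c) - x) < 1 := by
        have : ((a : ℝ) + c) * (1 / ((a : ℝ) + c) - x) = 1 - ((a : ℝ) + c) * x := by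
          field_simp
        rw [this]
        have := mul_pos hac hx0'
        linarith
      have hm0 := mm_pos hc hz hz1
      have hm1 := mm_lt hc hz hz1
      have hgp : 0 < gg c a x := gg_pos hc hx0'.le
      have hs := one_sub_mm (a := a) hc hx0'
      unfold mm at hm0 hm1
      set m := (c : ℝ) * (1 / ((a : ℝ) + c) - x) / (1 - a * (1 / ((a : ℝ) + c) - x)) with hmdef
      have hl : Real.log (1 - m) = Real.log x + Real.log (gg c a x) := by
        rw [hs, Real.log_mul hx0'.ne' hgp.ne']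
      obtain ⟨k1, k2⟩ := h1 (1 - m) (by linarith) (by linarith)
      obtain ⟨k3, k4⟩ := hc1 (1 - m) (by linarith) (by linarith)
      rw [sub_sub_cancel] at k3 k4
      rw [hl] at k3 k4
      have k5 : EE m = c1 * (ev F0 (1 - m) - ev F2 (1 - m)) -
          1 / 2 * (ev F0 (1 - m) - ev F2 (1 - m)) * (Real.log x + Real.log (gg c a x)) -
          (ev H0 (1 - m) - ev H2 (1 - m)) := by linarith
      have hp : Real.pi ≠ 0 := Real.pi_ne_zero
      rw [← hs]
      ext i j
      fin_cases i <;> fin_cases j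
      · simp only [rho, lw, Matrix.mul_apply, Fin.sum_univ_two, FH00, FH01, Fin.zero_eta,
          Fin.isValue, Matrix.of_apply, Matrix.cons_val_zero, Matrix.cons_val_one,
          Matrix.cons_val', Matrix.cons_val_fin_one]
        rw [← hmdef, k3]
        field_simp
        ring
      · simp only [rho, lw, Matrix.mul_apply, Fin.sum_univ_two, FH00, FH01, Fin.zero_eta,
          Fin.isValue, Matrix.of_apply, Matrix.cons_val_zero, Matrix.cons_val_one,
          Matrix.cons_val', Matrix.cons_val_fin_one, Fin.mk_one]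
        rw [← hmdef, k1]
        ring
      · simp only [rho, lw, Matrix.mul_apply, Fin.sum_univ_two, FH00, FH01, FH10, FH11,
          Fin.zero_eta, Fin.isValue, Matrix.of_apply, Matrix.cons_val_zero, Matrix.cons_val_one,
          Matrix.cons_val', Matrix.cons_val_fin_one, Fin.mk_one]
        rw [← hmdef, k5]
        field_simp
        ring
      · simp only [rho, lw, Matrix.mul_apply, Fin.sum_univ_two, FH00, FH01, FH10, FH11,
          Fin.zero_eta, Fin.isValue, Matrix.of_apply, Matrix.cons_val_zero, Matrix.cons_val_one,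
          Matrix.cons_val', Matrix.cons_val_fin_one, Fin.mk_one]
        rw [← hmdef, k1, k2]
        ring
  · intro a z hz h
    have hm0 := mm_pos hc hz h
    have hm1 := mm_lt hc hz h
    have hL := h3 _ hm0 hm1
    unfold mm at hL
    rw [rho, Matrix.det_fin_two_of]
    linarith

end Pool.Agent.LEG
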