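import Pool.Agent.LEG.Targets

set_option autoImplicit false

/-!
# Target SHID: Shidlovskii's lemma, second form
-/

namespace Pool.Agent.LEG

open Finset
open scoped BigOperators

namespace SHID_

variable {ι : Type}

/-- the polynomial vector of a vector of coefficients -/
noncomputable def pv (c1 : ℕ) (x : ι → Fin (c1 + 1) → ℚ) (i : ι) : Polynomial ℚ :=
  ∑ s : Fin (c1 + 1), Polynomial.C (x i s) * Polynomial.X ^ (s : ℕ)

theorem pv_of (c1 : ℕ) (l : ι → Polynomial ℚ) (hl : ∀ i, (l i).natDegree ≤ c1) :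
    pv c1 (fun i s => (l i).coeff s) = l := by
  funext i
  unfold pv
  have h := Polynomial.as_sum_range' (l i) (c1 + 1) (Nat.lt_succ_of_le (hl i))
  conv_rhs => rw [h]
  rw [Finset.sum_range]
  refine Finset.sum_congr rfl (fun s _ => ?_)
  rw [Polynomial.C_mul_X_pow_eq_monomial]

variable [Fintype ι]

/-- the linear form -/
noncomputable def Phi (c1 : ℕ) (f : ι → PowerSeries ℚ) :
    (ι → Fin (c1 + 1) → ℚ) →ₗ[ℚ] PowerSeries ℚ where
  toFun x := ∑ i, (pv c1 x i : PowerSeries ℚ) * f i
  map_add' x y := by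
    rw [← Finset.sum_add_distrib]
    refine Finset.sum_congr rfl (fun i _ => ?_)
    rw [← add_mul, ← Polynomial.coe_add]
    congr 2
    unfold pv
    rw [← Finset.sum_add_distrib]
    refine Finset.sum_congr rfl (fun s _ => ?_)
    simp [add_mul]
  map_smul' r x := by
    simp only [RingHom.id_apply]
    rw [Finset.smul_sum]
    refine Finset.sum_congr rfl (fun i _ => ?_)
    have h : pv c1 (r • x) i = Polynomial.C r * pv c1 x i := by
      unfold pv
      rw [Finset.mul_sum]
      refine Finset.sum_congr rfl (fun s _ => ?_)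
      simp [mul_assoc]
    rw [h, Polynomial.coe_mul, Polynomial.coe_C, mul_assoc, PowerSeries.smul_eq_C_mul]

/-- the forms with order at least `n` -/
noncomputable def KK (c1 : ℕ) (f : ι → PowerSeries ℚ) (n : ℕ) :
    Submodule ℚ (ι → Fin (c1 + 1) → ℚ) where
  carrier := {x | ∀ m, m < n → PowerSeries.coeff m (Phi c1 f x) = 0}
  add_mem' := by
    intro x y hx hy m hm
    rw [map_add, map_add, hx m hm, hy m hm, add_zero]
  zero_mem' := by
    intro m _
    simp
  smul_mem' := by
    intro r x hx m hm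
    rw [map_smul, map_smul, hx m hm, smul_zero]

theorem exists_bound (c1 : ℕ) (f : ι → PowerSeries ℚ) (hf : Indep f) :
    ∃ c2 : ℕ, ∀ l : ι → Polynomial ℚ, (∀ i, (l i).natDegree ≤ c1) →
      (∀ m, m < c2 → PowerSeries.coeff m (∑ i, (l i : PowerSeries ℚ) * f i) = 0) → l = 0 := by
  have hmono : Antitone (KK c1 f) := by
    intro n n' hn x hx m hm
    exact hx m (lt_of_lt_of_le hm hn)
  obtain ⟨n0, hn0⟩ := IsArtinian.monotone_stabilizes (R := ℚ) (M := ι → Fin (c1 + 1) → ℚ)
    ⟨fun n => OrderDual.toDual (KK c1 f n), fun a b h => hmono h⟩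
  refine ⟨n0, fun l hl h0 => ?_⟩
  have hx : (fun i (s : Fin (c1 + 1)) => (l i).coeff (s : ℕ)) ∈ KK c1 f n0 := by
    intro m hm
    show PowerSeries.coeff m (∑ i, (pv c1 (fun i s => (l i).coeff s) i : PowerSeries ℚ) * f i) = 0
    rw [pv_of c1 l hl]
    exact h0 m hm
  have hall : ∀ m, PowerSeries.coeff m (∑ i, (l i : PowerSeries ℚ) * f i) = 0 := by
    intro m
    have hk : KK c1 f n0 = KK c1 f (n0 + (m + 1)) := hn0 (n0 + (m + 1)) (Nat.le_add_right _ _)
    rw [hk] at hx
    have h1 : PowerSeries.coeff m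
        (∑ i, (pv c1 (fun i s => (l i).coeff s) i : PowerSeries ℚ) * f i) = 0 := hx m (by omega)
    rw [pv_of c1 l hl] at h1
    exact h1
  exact hf l (PowerSeries.ext (fun m => by rw [hall m]; simp))

end SHID_

theorem p_SHID (h : T_SHID0) : T_SHID := by
  intro ι _ _ T A f o hT hf
  obtain ⟨c1, hc1⟩ := h ι T A hT
  obtain ⟨c2, hc2⟩ := SHID_.exists_bound c1 f hf
  refine ⟨c2, fun m σ P hP hσ hW => ?_⟩
  obtain ⟨l, hl0, hl1, hl2⟩ := hc1 P hW
  apply hl0
  apply hc2 l hl1
  intro s hs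
  -- the product with `P o`
  have e1 : (P o : PowerSeries ℚ) * (∑ i, (l i : PowerSeries ℚ) * f i) =
      ∑ i, (l i : PowerSeries ℚ) * ((P o : PowerSeries ℚ) * f i - (P i : PowerSeries ℚ)) := by
    have e2 : ∑ i, (l i : PowerSeries ℚ) * (P i : PowerSeries ℚ) = 0 := by
      have h3 := congrArg (fun p : Polynomial ℚ => (p : PowerSeries ℚ)) hl2
      have h4 := map_sum (Polynomial.coeToPowerSeries.ringHom (R := ℚ)) (fun i => l i * P i)
        Finset.univ
      simp only [Polynomial.coeToPowerSeries.ringHom_apply, Polynomial.coe_mul] at h4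
      rw [← h4]
      simpa using h3
    simp only [mul_sub, Finset.sum_sub_distrib]
    rw [e2, sub_zero, Finset.mul_sum]
    refine Finset.sum_congr rfl (fun i _ => by ring)
  have hdvd : (PowerSeries.X : PowerSeries ℚ) ^ σ ∣
      (P o : PowerSeries ℚ) * (∑ i, (l i : PowerSeries ℚ) * f i) := by
    rw [e1]
    exact Finset.dvd_sum (fun i _ => Dvd.dvd.mul_left (hP.ord i) _)
  have h5 : (σ : ℕ∞) ≤ PowerSeries.order
      ((P o : PowerSeries ℚ) * (∑ i, (l i : PowerSeries ℚ) * f i)) := by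
    apply PowerSeries.nat_le_order
    rw [PowerSeries.X_pow_dvd_iff] at hdvd
    exact hdvd
  rw [PowerSeries.order_mul] at h5
  have h6 : PowerSeries.order (P o : PowerSeries ℚ) ≤ m := by
    have h7 : PowerSeries.coeff (P o).natDegree (P o : PowerSeries ℚ) ≠ 0 := by
      rw [Polynomial.coeff_coe]
      exact Polynomial.leadingCoeff_ne_zero.2 hP.ne
    refine (PowerSeries.order_le _ h7).trans ?_
    exact_mod_cast hP.deg o
  apply PowerSeries.coeff_of_lt_order
  by_contra hcon
  rw [not_lt] at hcon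
  have h8 : (σ : ℕ∞) ≤ (m : ℕ∞) + (s : ℕ∞) := h5.trans (add_le_add h6 hcon)
  have h9 : σ ≤ m + s := by exact_mod_cast h8
  omega

end Pool.Agent.LEG
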