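import Pool.Agent.LEG.Targets

set_option autoImplicit false

/-!
# SHID0: Shidlovskii's lemma, first form
-/

namespace Pool.Agent.LEG

open Finset
open scoped BigOperators Topology

namespace SHID0_

theorem smul_eq (p : Polynomial ℚ) (f : PowerSeries ℚ) : p • f = (p : PowerSeries ℚ) * f := by
  rw [Algebra.smul_def]
  congr 1

/-- reduction to a linearly independent subfamily -/
theorem reduce {α : Type} [Fintype α] (v : α → PowerSeries ℚ) :
    ∃ (S : Set α) (_ : Fintype S) (D : Polynomial ℚ) (R : α → S → Polynomial ℚ), D ≠ 0 ∧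
      (∀ l : S → Polynomial ℚ, ∑ t, (l t : PowerSeries ℚ) * v t = 0 → l = 0) ∧
      ∀ x, (D : PowerSeries ℚ) * v x = ∑ t, (R x t : PowerSeries ℚ) * v t := by
  classical
  obtain ⟨S, hS, hmax⟩ := exists_maximal_linearIndepOn (Polynomial ℚ) v
  have hmem : ∀ x : α, ∃ a : Polynomial ℚ, a ≠ 0 ∧
      a • v x ∈ Submodule.span (Polynomial ℚ) (v '' S) := by
    intro x
    by_cases hx : x ∈ S
    · exact ⟨1, one_ne_zero, by
        rw [one_smul]; exact Submodule.subset_span ⟨x, hx, rfl⟩⟩
    · exact hmax x hx
  choose a ha0 ha using hmem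
  have hD : ∀ x, (∏ y, a y) • v x ∈ Submodule.span (Polynomial ℚ) (v '' S) := by
    intro x
    rw [← Finset.prod_erase_mul _ _ (Finset.mem_univ x), mul_smul]
    exact Submodule.smul_mem _ _ (ha x)
  have himg : v '' S = Set.range (fun t : S => v t) := by
    ext y; simp
  rw [himg] at hD
  have hD2 : ∀ x, ∃ c : S → Polynomial ℚ, ∑ t, c t • v t = (∏ y, a y) • v x := fun x =>
    (Submodule.mem_span_range_iff_exists_fun _).1 (hD x)
  choose R hR using hD2
  refine ⟨S, inferInstance, ∏ y, a y, R, Finset.prod_ne_zero_iff.2 fun y _ => ha0 y, ?_, ?_⟩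
  · intro l hl
    have hli : LinearIndependent (Polynomial ℚ) (fun t : S => v t) := hS
    rw [Fintype.linearIndependent_iff] at hli
    funext t
    refine hli l ?_ t
    simpa only [smul_eq] using hl
  · intro x
    have := hR x
    simp only [smul_eq] at this
    exact this.symm

theorem coe_injective : Function.Injective (fun p : Polynomial ℚ => (p : PowerSeries ℚ)) :=
  Polynomial.coe_injective ℚ

theorem ty_mul (z : ℚ) (p q : Polynomial ℚ) : ty z (p * q) = ty z p * ty z q := by
  rw [ty, Polynomial.taylor_mul, Polynomial.coe_mul, ty, ty]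

/-- the ring homomorphism `ty` -/
noncomputable def tyH (z : ℚ) : Polynomial ℚ →+* PowerSeries ℚ :=
  (Polynomial.coeToPowerSeries.ringHom (R := ℚ)).comp (Polynomial.taylorAlgHom z).toRingHom

theorem tyH_apply (z : ℚ) (p : Polynomial ℚ) : tyH z p = ty z p := rfl

theorem ty_ne_zero (z : ℚ) {p : Polynomial ℚ} (h : p ≠ 0) : ty z p ≠ 0 := by
  intro h0
  apply h
  rw [ty] at h0
  have h1 : Polynomial.taylor z p = 0 := by
    apply coe_injective
    simpa using h0
  exact Polynomial.taylor_injective z (by rw [h1, map_zero])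

theorem exists_eval_ne {T : Polynomial ℚ} (hT : T ≠ 0) : ∃ z : ℚ, T.eval z ≠ 0 := by
  by_contra h
  push Not at h
  exact hT (Polynomial.funext fun z => by rw [h z, Polynomial.eval_zero])

/-- from a vanishing Wronskian to a linear relation with constant coefficients -/
theorem relation (h2 : T_WRON) {ι : Type} [Fintype ι] [DecidableEq ι] (T : Polynomial ℚ)
    (A : ι → ι → Polynomial ℚ) (z : ℚ) (hT : T.eval z ≠ 0) (g : ι → ι → PowerSeries ℚ)
    (hg : ∀ (a : ι) (P : ι → Polynomial ℚ) (k : ℕ), ∑ i, g a i * ty z (VV T A P k i) =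
      ty z T ^ k * (PowerSeries.derivative ℚ)^[k] (∑ i, g a i * ty z (P i)))
    (P : ι → Polynomial ℚ) (hW : WW T A P = 0) :
    ∃ c : ι → ℚ, c ≠ 0 ∧ ∑ a, PowerSeries.C (c a) * ∑ i, g a i * ty z (P i) = 0 := by
  have hT0 : T ≠ 0 := by
    rintro rfl
    exact hT (by simp)
  set h : ι → PowerSeries ℚ := fun a => ∑ i, g a i * ty z (P i) with hh
  set Y : Matrix ι ι (PowerSeries ℚ) := Matrix.of g with hY
  set V : Matrix ι ι (Polynomial ℚ) := Matrix.of fun i j : ι => VV T A P (num i) j with hV
  have hWV : V.det = 0 := hW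
  have hdetV : (V.map (tyH z)).det = 0 := by
    have := RingHom.map_det (tyH z) V
    rw [hWV, map_zero] at this
    exact this.symm
  have hprod : Y * (V.map (tyH z)).transpose =
      Matrix.of fun a i : ι => ty z T ^ (num i) * (PowerSeries.derivative ℚ)^[num i] (h a) := by
    ext1 a i
    rw [Matrix.mul_apply]
    simp only [Matrix.transpose_apply, Matrix.map_apply, Matrix.of_apply, hY, hV, tyH_apply]
    exact hg a P (num i)
  have hdet1 : (Matrix.of fun a i : ι => ty z T ^ (num i) *
      (PowerSeries.derivative ℚ)^[num i] (h a)).det = 0 := by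
    rw [← hprod, Matrix.det_mul, Matrix.det_transpose, hdetV, mul_zero]
  have hdet2 : (Matrix.of fun a i : ι => (PowerSeries.derivative ℚ)^[num i] (h a)).det = 0 := by
    have h3 := Matrix.det_mul_row (fun i : ι => ty z T ^ (num i))
      (Matrix.of fun a i : ι => (PowerSeries.derivative ℚ)^[num i] (h a))
    have h4 : (Matrix.of fun i j => (fun i : ι => ty z T ^ (num i)) j *
        (Matrix.of fun a i : ι => (PowerSeries.derivative ℚ)^[num i] (h a)) i j) =
        (Matrix.of fun a i : ι => ty z T ^ (num i) *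
          (PowerSeries.derivative ℚ)^[num i] (h a)) := rfl
    rw [h4, hdet1] at h3
    rcases mul_eq_zero.1 h3.symm with h5 | h5
    · exfalso
      rw [Finset.prod_eq_zero_iff] at h5
      obtain ⟨i, _, hi⟩ := h5
      exact pow_ne_zero _ (ty_ne_zero z hT0) hi
    · exact h5
  have hdet3 : Matrix.det (Matrix.of fun i j : Fin (Fintype.card ι) =>
      (PowerSeries.derivative ℚ)^[(j : ℕ)] (h ((Fintype.equivFin ι).symm i))) = 0 := by
    rw [← hdet2]
    rw [← Matrix.det_submatrix_equiv_self (Fintype.equivFin ι)]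
    congr 1
    ext1 a i
    simp [Matrix.submatrix_apply, num]
  obtain ⟨c, hc0, hc⟩ := h2 _ _ hdet3
  refine ⟨fun a => c (Fintype.equivFin ι a), ?_, ?_⟩
  · intro h0
    apply hc0
    funext i
    have := congrFun h0 ((Fintype.equivFin ι).symm i)
    simpa using this
  · rw [← hc]
    exact Fintype.sum_equiv (Fintype.equivFin ι) _ _ fun a => by simp [hh]

end SHID0_

open SHID0_ in
theorem p_SHID0 (h1 : T_LOC) (h2 : T_WRON) : T_SHID0 := by
  intro ι _ _ T A hT
  obtain ⟨z, hz⟩ := exists_eval_ne hT
  have hsec : ∀ a : ι, ∃ g : ι → PowerSeries ℚ,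
      (∀ i, PowerSeries.constantCoeff (g i) = if i = a then (1 : ℚ) else 0) ∧
      ∀ (P : ι → Polynomial ℚ) (k : ℕ), ∑ i, g i * ty z (VV T A P k i) =
        ty z T ^ k * (PowerSeries.derivative ℚ)^[k] (∑ i, g i * ty z (P i)) := fun a =>
    h1 ι T A z hz (fun i => if i = a then (1 : ℚ) else 0)
  choose g hg0 hg using hsec
  obtain ⟨S, hSf, D, R, hD, hind, hR⟩ := reduce (fun x : ι × ι => g x.1 x.2)
  refine ⟨Finset.univ.sup fun x : (ι × ι) × S => (R x.1 x.2).natDegree, fun P hW => ?_⟩
  obtain ⟨c, hc0, hc⟩ := relation h2 T A z hz g hg P hW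
  -- the combined section
  set G : ι → PowerSeries ℚ := fun j => ∑ a, PowerSeries.C (c a) * g a j with hG
  have hGP : ∑ j, G j * ty z (P j) = 0 := by
    rw [← hc]
    simp only [hG, Finset.sum_mul, Finset.mul_sum]
    rw [Finset.sum_comm]
    refine Finset.sum_congr rfl fun a _ => Finset.sum_congr rfl fun j _ => by ring
  obtain ⟨j0, hj0⟩ : ∃ j, G j ≠ 0 := by
    by_contra hcon
    push Not at hcon
    apply hc0
    funext j
    have h3 := congrArg PowerSeries.constantCoeff (hcon j)
    simp only [hG, map_sum, map_mul, map_zero, hg0, PowerSeries.constantCoeff_C] at h3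
    simpa using h3
  set l : S → ι → Polynomial ℚ := fun t j => ∑ a, Polynomial.C (c a) * R (a, j) t with hl
  have hDG : ∀ j, (D : PowerSeries ℚ) * G j = ∑ t : S, (l t j : PowerSeries ℚ) *
      g (t : ι × ι).1 (t : ι × ι).2 := by
    intro j
    simp only [hG, hl, Finset.mul_sum]
    have e1 : ∀ a, (D : PowerSeries ℚ) * (PowerSeries.C (c a) * g a j) =
        ∑ t : S, PowerSeries.C (c a) * ((R (a, j) t : PowerSeries ℚ) *
          g (t : ι × ι).1 (t : ι × ι).2) := by
      intro a
      have := hR (a, j)
      simp only at this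
      rw [mul_left_comm, this, Finset.mul_sum]
    simp only [e1]
    rw [Finset.sum_comm]
    refine Finset.sum_congr rfl fun t _ => ?_
    have e2 : ((∑ a, Polynomial.C (c a) * R (a, j) t : Polynomial ℚ) : PowerSeries ℚ) =
        ∑ a, PowerSeries.C (c a) * (R (a, j) t : PowerSeries ℚ) := by
      have := map_sum (Polynomial.coeToPowerSeries.ringHom (R := ℚ))
        (fun a => Polynomial.C (c a) * R (a, j) t) Finset.univ
      simp only [Polynomial.coeToPowerSeries.ringHom_apply, Polynomial.coe_mul,
        Polynomial.coe_C] at this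
      exact this
    rw [e2, Finset.sum_mul]
    refine Finset.sum_congr rfl fun a _ => by ring
  -- some relation is nonzero
  obtain ⟨t0, ht0⟩ : ∃ t : S, l t j0 ≠ 0 := by
    by_contra hcon
    push Not at hcon
    have h3 := hDG j0
    simp only [hcon, Polynomial.coe_zero, zero_mul, Finset.sum_const_zero] at h3
    rcases mul_eq_zero.1 h3 with h4 | h4
    · exact hD (coe_injective (by simpa using h4))
    · exact hj0 h4
  have hrel : ∀ t : S, ∑ j, l t j * Polynomial.taylor z (P j) = 0 := by
    have h3 : (fun t : S => ∑ j, l t j * Polynomial.taylor z (P j)) = 0 := by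
      apply hind
      have e3 : ∀ t : S, ((∑ j, l t j * Polynomial.taylor z (P j) : Polynomial ℚ) : PowerSeries ℚ) =
          ∑ j, (l t j : PowerSeries ℚ) * ty z (P j) := by
        intro t
        have := map_sum (Polynomial.coeToPowerSeries.ringHom (R := ℚ))
          (fun j => l t j * Polynomial.taylor z (P j)) Finset.univ
        simp only [Polynomial.coeToPowerSeries.ringHom_apply, Polynomial.coe_mul] at this
        exact this
      simp only [e3, Finset.sum_mul]
      rw [Finset.sum_comm]
      have e4 : ∀ j, ∑ t : S, (l t j : PowerSeries ℚ) * ty z (P j) *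
          g (t : ι × ι).1 (t : ι × ι).2 = (D : PowerSeries ℚ) * (G j * ty z (P j)) := by
        intro j
        rw [← mul_assoc, hDG, Finset.sum_mul]
        refine Finset.sum_congr rfl fun t _ => by ring
      simp only [e4]
      rw [← Finset.mul_sum, hGP, mul_zero]
    exact fun t => congrFun h3 t
  refine ⟨fun j => Polynomial.taylor (-z) (l t0 j), ?_, ?_, ?_⟩
  · intro h0
    apply ht0
    have := congrFun h0 j0
    exact Polynomial.taylor_injective (-z) (by rw [map_zero]; exact this)
  · intro j
    rw [Polynomial.natDegree_taylor]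
    refine Polynomial.natDegree_sum_le_of_forall_le _ _ fun a _ => ?_
    refine (Polynomial.natDegree_C_mul_le _ _).trans ?_
    exact Finset.le_sup (f := fun x : (ι × ι) × S => (R x.1 x.2).natDegree)
      (Finset.mem_univ ((a, j), t0))
  · have h3 := congrArg (Polynomial.taylor (-z)) (hrel t0)
    rw [map_zero, map_sum] at h3
    rw [← h3]
    refine Finset.sum_congr rfl fun j _ => ?_
    rw [Polynomial.taylor_mul, Polynomial.taylor_taylor, neg_add_cancel, Polynomial.taylor_zero]

end Pool.Agent.LEG
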