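import Pool.Agent.LEG.Targets

set_option autoImplicit false

/-!
# Siegel's lemma for the simultaneous approximation (job SIEG)
-/

namespace Pool.Agent.LEG

open Finset
open scoped BigOperators

namespace SIEG_

attribute [local instance] Matrix.seminormedAddCommGroup

theorem siegel {α β : Type} [Fintype α] [Fintype β] (A : Matrix α β ℤ) (X E : ℕ)
    (hX : 1 ≤ X) (hA : ∀ i j, |A i j| ≤ (X : ℤ))
    (h1 : Fintype.card α < Fintype.card β) (h2 : 0 < Fintype.card α)
    (h3 : Fintype.card α ≤ E * (Fintype.card β - Fintype.card α)) :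
    ∃ t : β → ℤ, t ≠ 0 ∧ A.mulVec t = 0 ∧ ∀ j, |t j| ≤ ((Fintype.card β * X : ℕ) : ℤ) ^ E := by
  obtain ⟨t, ht0, ht1, ht2⟩ := Int.Matrix.exists_ne_zero_int_vec_norm_le A h1 h2
  refine ⟨t, ht0, ht1, fun j => ?_⟩
  have hXr : (1 : ℝ) ≤ X := by exact_mod_cast hX
  have hn : (1 : ℝ) ≤ (Fintype.card β : ℝ) := by exact_mod_cast (by omega : 1 ≤ Fintype.card β)
  have hnorm : ‖A‖ ≤ (X : ℝ) := by
    rw [Matrix.norm_le_iff (by positivity)]
    intro i j
    rw [Int.norm_eq_abs]
    exact_mod_cast hA i j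
  have hmax : max 1 ‖A‖ ≤ (X : ℝ) := max_le hXr hnorm
  have hbase : (Fintype.card β : ℝ) * max 1 ‖A‖ ≤ (Fintype.card β : ℝ) * X :=
    mul_le_mul_of_nonneg_left hmax (by positivity)
  have hbase1 : (1 : ℝ) ≤ (Fintype.card β : ℝ) * X := by nlinarith
  have hdpos : (0 : ℝ) < (Fintype.card β : ℝ) - Fintype.card α := by
    rw [sub_pos]; exact_mod_cast h1
  have hexp : ((Fintype.card α : ℝ) / ((Fintype.card β : ℝ) - Fintype.card α)) ≤ (E : ℝ) := by
    rw [div_le_iff₀ hdpos]
    have h4 : ((Fintype.card β - Fintype.card α : ℕ) : ℝ) =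
        (Fintype.card β : ℝ) - Fintype.card α := by
      rw [Nat.cast_sub h1.le]
    rw [← h4]
    exact_mod_cast h3
  have hexp0 : 0 ≤ ((Fintype.card α : ℝ) / ((Fintype.card β : ℝ) - Fintype.card α)) := by
    positivity
  have h5 : ‖t‖ ≤ ((Fintype.card β : ℝ) * X) ^ E := by
    refine ht2.trans ?_
    calc _ ≤ ((Fintype.card β : ℝ) * X) ^
          ((Fintype.card α : ℝ) / ((Fintype.card β : ℝ) - Fintype.card α)) :=
          Real.rpow_le_rpow (by positivity) hbase hexp0
      _ ≤ ((Fintype.card β : ℝ) * X) ^ (E : ℝ) :=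
          Real.rpow_le_rpow_of_exponent_le hbase1 hexp
      _ = _ := Real.rpow_natCast _ _
  have h6 := (norm_le_pi_norm t j).trans h5
  rw [Int.norm_eq_abs] at h6
  exact_mod_cast h6

/-- the polynomial with coefficients `t` -/
noncomputable def QQ {m : ℕ} (t : Fin (m + 1) → ℤ) : Polynomial ℚ :=
  ∑ i : Fin (m + 1), Polynomial.C (t i : ℚ) * Polynomial.X ^ (i : ℕ)

theorem coeff_QQ {m : ℕ} (t : Fin (m + 1) → ℤ) (s : ℕ) :
    (QQ t).coeff s = if h : s < m + 1 then (t ⟨s, h⟩ : ℚ) else 0 := by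
  unfold QQ
  rw [Polynomial.finsetSum_coeff]
  simp only [Polynomial.coeff_C_mul, Polynomial.coeff_X_pow]
  split_ifs with h
  · rw [Finset.sum_eq_single ⟨s, h⟩]
    · simp
    · intro b _ hb
      rw [if_neg, mul_zero]
      intro h2
      exact hb (Fin.ext h2.symm)
    · intro h2
      exact absurd (Finset.mem_univ _) h2
  · refine Finset.sum_eq_zero fun i _ => ?_
    rw [if_neg, mul_zero]
    intro h2
    exact h (by rw [h2]; exact i.isLt)

theorem natDegree_QQ {m : ℕ} (t : Fin (m + 1) → ℤ) : (QQ t).natDegree < m + 1 := by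
  rw [Nat.lt_succ_iff, Polynomial.natDegree_le_iff_coeff_eq_zero]
  intro s hs
  rw [coeff_QQ, dif_neg (by omega)]

/-- coefficient of the product with a power series -/
theorem coeff_QQ_mul {m : ℕ} (t : Fin (m + 1) → ℤ) (f : PowerSeries ℚ) (s : ℕ) (hs : m ≤ s) :
    PowerSeries.coeff s ((QQ t : PowerSeries ℚ) * f) =
      ∑ i : Fin (m + 1), (t i : ℚ) * PowerSeries.coeff (s - i) f := by
  rw [PowerSeries.coeff_mul, Finset.Nat.sum_antidiagonal_eq_sum_range_succ_mk]
  have h1 : ∑ k ∈ range (s.succ), (PowerSeries.coeff k) (QQ t : PowerSeries ℚ) *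
      PowerSeries.coeff (s - k) f =
      ∑ k ∈ range (m + 1), (PowerSeries.coeff k) (QQ t : PowerSeries ℚ) *
        PowerSeries.coeff (s - k) f := by
    symm
    refine Finset.sum_subset (fun k hk => ?_) fun k _ hk => ?_
    · rw [Finset.mem_range] at hk ⊢
      omega
    · rw [Finset.mem_range] at hk
      rw [Polynomial.coeff_coe, coeff_QQ, dif_neg hk, zero_mul]
  refine h1.trans ?_
  rw [Finset.sum_range]
  refine Finset.sum_congr rfl fun i _ => ?_
  rw [Polynomial.coeff_coe, coeff_QQ, dif_pos i.isLt]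

/-- integrality of low coefficients of products -/
theorem int_coeff_mul {m : ℕ} (t : Fin (m + 1) → ℤ) (f : PowerSeries ℚ) (c : ℚ)
    (hf : ∀ s, s ≤ m → ∃ x : ℤ, c * PowerSeries.coeff s f = x) (s : ℕ) (hs : s ≤ m) :
    ∃ x : ℤ, c * PowerSeries.coeff s ((QQ t : PowerSeries ℚ) * f) = x := by
  rw [PowerSeries.coeff_mul, Finset.mul_sum]
  have h : ∀ p ∈ Finset.HasAntidiagonal.antidiagonal s, ∃ x : ℤ,
      c * ((PowerSeries.coeff p.1) (QQ t : PowerSeries ℚ) * (PowerSeries.coeff p.2) f) = x := by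
    intro p hp
    rw [Finset.HasAntidiagonal.mem_antidiagonal] at hp
    obtain ⟨x, hx⟩ := hf p.2 (by omega)
    rw [Polynomial.coeff_coe, coeff_QQ, dif_pos (by omega)]
    refine ⟨t ⟨p.1, by omega⟩ * x, ?_⟩
    rw [Int.cast_mul, ← hx]
    ring
  choose! x hx using h
  refine ⟨∑ p ∈ Finset.HasAntidiagonal.antidiagonal s, x p, ?_⟩
  rw [Int.cast_sum]
  exact Finset.sum_congr rfl hx

/-- common constants for finitely many G-functions -/
theorem common {ι : Type} [Fintype ι] (f : ι → PowerSeries ℚ) (hf : ∀ i, IsG (f i)) :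
    ∃ C : ℕ, 1 ≤ C ∧ (∀ i n, |PowerSeries.coeff n (f i)| ≤ (C : ℚ) ^ (n + 1)) ∧
      ∃ D : ℕ → ℕ, ∀ n, 0 < D n ∧ D n ≤ C ^ (Fintype.card ι * (n + 1)) ∧
        ∀ i s, s ≤ n → ∃ x : ℤ, (D n : ℚ) * PowerSeries.coeff s (f i) = x := by
  classical
  choose C hC using hf
  choose hC1 d hd using fun i n => hC i n
  refine ⟨1 + ∑ i, C i, by omega, fun i n => ?_, fun n => ∏ i, d i n, fun n => ⟨?_, ?_, ?_⟩⟩
  · refine (hC1 i n).trans (pow_le_pow_left₀ (by positivity) ?_ _)
    have : C i ≤ 1 + ∑ i, C i :=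
      (Finset.single_le_sum (f := C) (fun j _ => Nat.zero_le _) (mem_univ i)).trans (by omega)
    exact_mod_cast this
  · exact Finset.prod_pos fun i _ => (hd i n).1
  · calc ∏ i, d i n ≤ ∏ _i : ι, (1 + ∑ i, C i) ^ (n + 1) := by
          refine Finset.prod_le_prod' fun i _ => (hd i n).2.1.trans (Nat.pow_le_pow_left ?_ _)
          exact (Finset.single_le_sum (f := C) (fun j _ => Nat.zero_le _) (mem_univ i)).trans
            (by omega)
      _ = _ := by
          rw [Finset.prod_const, Finset.card_univ, ← pow_mul, mul_comm]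
  · intro i s hs
    obtain ⟨x, hx⟩ := (hd i n).2.2 s hs
    refine ⟨(∏ j ∈ univ.erase i, d j n : ℕ) * x, ?_⟩
    show ((∏ j, d j n : ℕ) : ℚ) * PowerSeries.coeff s (f i) = _
    rw [← Finset.mul_prod_erase univ (fun j => d j n) (mem_univ i)]
    push_cast
    rw [← hx]
    ring

end SIEG_

open SIEG_ in
theorem p_SIEG : T_SIEG := by
  intro ι _ _ f o L hG ho hM hL
  obtain ⟨C, hC1, hCc, D, hD⟩ := common f hG
  set M := Fintype.card ι with hMdef
  set B := M * L + 1 with hB
  refine ⟨(2 * C ^ (M + 1)) ^ (B * L), Nat.one_le_iff_ne_zero.2 (by positivity), ?_⟩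
  intro n hn
  set m := (M - 1) * L * n with hm
  set σ := m + 1 + (L - 1) * n with hσ
  obtain ⟨M', hM'⟩ : ∃ M', M = M' + 2 := ⟨M - 2, by omega⟩
  obtain ⟨L', hL'⟩ : ∃ L', L = L' + 2 := ⟨L - 2, by omega⟩
  obtain ⟨n', hn'⟩ : ∃ n', n = n' + 1 := ⟨n - 1, by omega⟩
  have e1 : M - 1 = M' + 1 := by omega
  have e2 : L - 1 = L' + 1 := by omega
  have hσB : σ + 1 ≤ B * n := by
    rw [hσ, hm, hB, e1, e2, hM', hL']
    nlinarith
  have hmσ : m + 1 ≤ σ := by omega
  have hz : ∃ z : ι → ℕ → ℤ, ∀ J s, s ≤ σ →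
      (D σ : ℚ) * PowerSeries.coeff s (f J) = z J s := by
    have : ∀ (J : ι) (s : ℕ), ∃ x : ℤ, s ≤ σ →
        (D σ : ℚ) * PowerSeries.coeff s (f J) = x := by
      intro J s
      by_cases hs : s ≤ σ
      · obtain ⟨x, hx⟩ := (hD σ).2.2 J s hs
        exact ⟨x, fun _ => hx⟩
      · exact ⟨0, fun h => absurd h hs⟩
    choose z hz using this
    exact ⟨z, hz⟩
  obtain ⟨z, hz⟩ := hz
  obtain ⟨X, hX⟩ : ∃ X : ℕ, X = C ^ ((M + 1) * (B * n)) := ⟨_, rfl⟩
  have hX1 : 1 ≤ X := by
    rw [hX]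
    exact Nat.one_le_iff_ne_zero.2 (by positivity)
  have hCq : (1 : ℚ) ≤ C := by exact_mod_cast hC1
  have hzb : ∀ J s, s ≤ σ → |z J s| ≤ (X : ℤ) := by
    intro J s hs
    rw [hX]
    have e1 : (|z J s| : ℚ) = (D σ : ℚ) * |PowerSeries.coeff s (f J)| := by
      rw [← hz J s hs, abs_mul, abs_of_nonneg (by positivity)]
    have e3 : (|z J s| : ℚ) ≤ (C : ℚ) ^ ((M + 1) * (B * n)) := by
      rw [e1]
      calc (D σ : ℚ) * |PowerSeries.coeff s (f J)|
          ≤ (C : ℚ) ^ (M * (σ + 1)) * (C : ℚ) ^ (s + 1) :=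
            mul_le_mul (by exact_mod_cast (hD σ).2.1) (hCc J s) (abs_nonneg _) (by positivity)
        _ = (C : ℚ) ^ (M * (σ + 1) + (s + 1)) := (pow_add _ _ _).symm
        _ ≤ (C : ℚ) ^ ((M + 1) * (B * n)) := by
            refine pow_le_pow_right₀ hCq ?_
            calc M * (σ + 1) + (s + 1) ≤ M * (B * n) + B * n := by
                  have := Nat.mul_le_mul_left M hσB
                  omega
              _ = (M + 1) * (B * n) := by ring
    exact_mod_cast e3
  -- the linear system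
  set Mat : Matrix ({J : ι // J ≠ o} × Fin ((L - 1) * n)) (Fin (m + 1)) ℤ :=
    fun p i => z p.1 (m + 1 + p.2 - i) with hMat
  have hcardα : Fintype.card ({J : ι // J ≠ o} × Fin ((L - 1) * n)) =
      (M - 1) * ((L - 1) * n) := by
    rw [Fintype.card_prod, Fintype.card_fin, Fintype.card_subtype_compl,
      Fintype.card_subtype_eq]
  have hcardβ : Fintype.card (Fin (m + 1)) = m + 1 := Fintype.card_fin _
  have hlt : Fintype.card ({J : ι // J ≠ o} × Fin ((L - 1) * n)) <
      Fintype.card (Fin (m + 1)) := by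
    rw [hcardα, hcardβ, hm, e1, e2, hL']
    nlinarith [Nat.zero_le ((M' + 1) * n)]
  have hpos : 0 < Fintype.card ({J : ι // J ≠ o} × Fin ((L - 1) * n)) := by
    rw [hcardα, e1, e2, hn']
    positivity
  have hE : Fintype.card ({J : ι // J ≠ o} × Fin ((L - 1) * n)) ≤
      L * (Fintype.card (Fin (m + 1)) -
        Fintype.card ({J : ι // J ≠ o} × Fin ((L - 1) * n))) := by
    have e3 : Fintype.card (Fin (m + 1)) -
        Fintype.card ({J : ι // J ≠ o} × Fin ((L - 1) * n)) = (M - 1) * n + 1 := by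
      rw [hcardα, hcardβ, hm, e1, e2, hL']
      rw [Nat.sub_eq_iff_eq_add]
      · ring
      · nlinarith [Nat.zero_le ((M' + 1) * n)]
    rw [e3, hcardα, e1, e2, hL']
    nlinarith [Nat.zero_le ((M' + 1) * n), Nat.zero_le ((M' + 1) * n * L')]
  have hMb : ∀ p i, |Mat p i| ≤ (X : ℤ) := by
    intro p i
    exact hzb _ _ (by have := p.2.isLt; omega)
  obtain ⟨t, ht0, ht1, ht2⟩ := siegel Mat X L hX1 hMb hlt hpos hE
  have hP0 : PowerSeries.trunc (m + 1) ((QQ t : PowerSeries ℚ) * f o) = QQ t := by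
    rw [ho, mul_one]
    exact PowerSeries.trunc_coe_eq_self (natDegree_QQ t)
  have hBn : ∀ a b : ℕ, a ≤ b → C ^ a ≤ C ^ b := fun a b h => Nat.pow_le_pow_right hC1 h
  refine ⟨fun J => PowerSeries.trunc (m + 1) ((QQ t : PowerSeries ℚ) * f J), ⟨?_, ?_, ?_⟩,
    ?_, ?_⟩
  · show PowerSeries.trunc (m + 1) ((QQ t : PowerSeries ℚ) * f o) ≠ 0
    rw [hP0]
    intro h0
    refine ht0 (funext fun i => ?_)
    have h3 := coeff_QQ t i
    rw [h0, Polynomial.coeff_zero, dif_pos i.isLt] at h3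
    have h4 : (t i : ℚ) = 0 := h3.symm
    exact_mod_cast h4
  · intro J
    exact Nat.lt_succ_iff.1 (PowerSeries.natDegree_trunc_lt _ _)
  · intro J
    show (PowerSeries.X : PowerSeries ℚ) ^ σ ∣
      ((PowerSeries.trunc (m + 1) ((QQ t : PowerSeries ℚ) * f o) : Polynomial ℚ) :
        PowerSeries ℚ) * f J -
      ((PowerSeries.trunc (m + 1) ((QQ t : PowerSeries ℚ) * f J) : Polynomial ℚ) :
        PowerSeries ℚ)
    rw [hP0, PowerSeries.X_pow_dvd_iff]
    intro s hs
    rw [map_sub, Polynomial.coeff_coe, PowerSeries.coeff_trunc]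
    split_ifs with h3
    · exact sub_self _
    · rw [sub_zero]
      by_cases hJ : J = o
      · rw [hJ, ho, mul_one, Polynomial.coeff_coe, coeff_QQ, dif_neg h3]
      · have h4 : (D σ : ℚ) *
            PowerSeries.coeff s ((QQ t : PowerSeries ℚ) * f J) = 0 := by
          rw [coeff_QQ_mul t _ s (by omega), Finset.mul_sum]
          have h5 := congrFun ht1 (⟨J, hJ⟩, ⟨s - (m + 1), by omega⟩)
          rw [Matrix.mulVec, dotProduct] at h5
          have h6 : ((∑ i, Mat (⟨J, hJ⟩, ⟨s - (m + 1), by omega⟩) i * t i : ℤ) : ℚ) = 0 := by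
            rw [h5]; rfl
          rw [← h6, Int.cast_sum]
          refine Finset.sum_congr rfl fun i _ => ?_
          have h7 : Mat (⟨J, hJ⟩, ⟨s - (m + 1), by omega⟩) i = z J (s - i) := by
            rw [hMat]
            show z J (m + 1 + (s - (m + 1)) - i) = z J (s - i)
            congr 2
            omega
          rw [h7, Int.cast_mul, ← hz J (s - i) (by omega)]
          ring
        have hDne : (D σ : ℚ) ≠ 0 := by
          have := (hD σ).1
          positivity
        exact (mul_eq_zero.1 h4).resolve_left hDne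
  · intro s
    show |(PowerSeries.trunc (m + 1) ((QQ t : PowerSeries ℚ) * f o)).coeff s| ≤ _
    rw [hP0, coeff_QQ]
    split_ifs with h3
    · have h4 := ht2 ⟨s, h3⟩
      have h5 : (Fintype.card (Fin (m + 1)) * X) ^ L ≤
          ((2 * C ^ (M + 1)) ^ (B * L)) ^ n := by
        have h6 : m + 1 ≤ 2 ^ (B * n) :=
          le_trans (by omega : m + 1 ≤ B * n) (Nat.lt_two_pow_self).le
        calc (Fintype.card (Fin (m + 1)) * X) ^ L
            ≤ (2 ^ (B * n) * X) ^ L := by
              rw [hcardβ]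
              exact Nat.pow_le_pow_left (Nat.mul_le_mul_right _ h6) L
          _ = ((2 * C ^ (M + 1)) ^ (B * L)) ^ n := by
              rw [hX, mul_comm (M + 1) (B * n), pow_mul C, pow_right_comm C, ← mul_pow,
                ← pow_mul, ← pow_mul]
              congr 1
              ring
      have h6 : |t ⟨s, h3⟩| ≤ ((((2 * C ^ (M + 1)) ^ (B * L)) ^ n : ℕ) : ℤ) := by
        refine h4.trans ?_
        exact_mod_cast h5
      exact_mod_cast h6
    · rw [abs_zero]
      positivity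
  · refine ⟨D m, (hD m).1, ?_, ?_⟩
    · calc D m ≤ C ^ (M * (m + 1)) := (hD m).2.1
        _ ≤ C ^ ((M + 1) * (B * L * n)) := by
            refine hBn _ _ (Nat.mul_le_mul (by omega) ?_)
            have h7 : B * n ≤ B * L * n := by
              rw [mul_assoc]
              refine Nat.mul_le_mul_left _ ?_
              nlinarith
            omega
        _ ≤ (2 * C ^ (M + 1)) ^ (B * L * n) := by
            rw [pow_mul]
            exact Nat.pow_le_pow_left (by omega) _
        _ = ((2 * C ^ (M + 1)) ^ (B * L)) ^ n := by rw [pow_mul]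
    · intro J s
      show ∃ x : ℤ, _ * (PowerSeries.trunc (m + 1) ((QQ t : PowerSeries ℚ) * f J)).coeff s = x
      rw [PowerSeries.coeff_trunc]
      split_ifs with h3
      · exact int_coeff_mul t (f J) _ (fun s hs => (hD m).2.2 J s hs) s (by omega)
      · exact ⟨0, by simp⟩

end Pool.Agent.LEG
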