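import Pool.Agent.LEG.Targets

namespace Pool.Agent.LEG

namespace WIN_

lemma degreeOf_rename_le {σ τ : Type*} (f : σ → τ) (hf : Function.Injective f)
    (W : MvPolynomial σ ℤ) (B : ℕ) (h : ∀ v, W.degreeOf v ≤ B) (t : τ) :
    (MvPolynomial.rename f W).degreeOf t ≤ B := by
  classical
  by_cases ht : ∃ s, f s = t
  · obtain ⟨s, rfl⟩ := ht
    rw [MvPolynomial.degreeOf_rename_of_injective hf]
    exact h s
  · have h0 : (MvPolynomial.rename f W).degreeOf t = 0 := by
      by_contra hne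
      have hpos : 0 < (MvPolynomial.rename f W).degreeOf t := Nat.pos_of_ne_zero hne
      have hmem : t ∈ (MvPolynomial.rename f W).vars := by
        rw [MvPolynomial.degreeOf_def, Multiset.count_pos] at hpos
        rw [MvPolynomial.vars_def, Multiset.mem_toFinset]
        exact hpos
      have h2 := MvPolynomial.vars_rename f W hmem
      rw [Finset.mem_image] at h2
      obtain ⟨s, -, hs⟩ := h2
      exact ht ⟨s, hs⟩
    rw [h0]
    exact Nat.zero_le _

end WIN_

theorem p_WIN (h1 : T_EXC) (h2 : T_ELIM3) (h3 : T_GT) : T_WIN := by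
  intro c k D A hc
  obtain ⟨D', hD'⟩ := h1 c k D hc
  obtain ⟨B, hB⟩ := h2 (k + 2) (k + 3) D' (by omega)
  obtain ⟨N0, hN0⟩ := h3 c A B hc
  refine ⟨max N0 (A + c + 1), fun N hN θ => ?_⟩
  have hNN0 : N0 ≤ N := le_trans (le_max_left _ _) hN
  have hNA : A + c + 1 ≤ N := le_trans (le_max_right _ _) hN
  obtain ⟨θ', hθ'⟩ := hD' N θ
  by_contra hcard
  push Not at hcard
  set S : Set ℕ := {a : ℕ | a ≤ A ∧ Exc c D θ (N - a)} with hS
  have hfin : S.Finite := (Set.finite_Iic A).subset (fun a ha => ha.1)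
  have hcard' : k + 3 ≤ hfin.toFinset.card := by
    rw [← Set.ncard_eq_toFinset_card S hfin]
    omega
  set f := hfin.toFinset.orderEmbOfCardLe hcard' with hf
  have hfmem : ∀ i, f i ∈ S := fun i => by
    have := hfin.toFinset.orderEmbOfCardLe_mem hcard' i
    rwa [Set.Finite.mem_toFinset] at this
  obtain ⟨W, hW0, hWd, hWz⟩ := hB θ' (fun i j => (xn c N (f i) j : ℂ)) (fun i =>
    hθ' (f i) (by have := (hfmem i).1; omega) (hfmem i).2)
  set g : Fin (k + 3) × Fin 3 → Fin (A + 1) × Fin 3 :=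
    fun v => (⟨f v.1, Nat.lt_succ_of_le (hfmem v.1).1⟩, v.2) with hg
  have hginj : Function.Injective g := by
    rintro ⟨i, j⟩ ⟨i', j'⟩ h
    simp only [hg, Prod.mk.injEq, Fin.mk.injEq] at h
    rw [Prod.mk.injEq]
    exact ⟨f.injective h.1, h.2⟩
  have hz := hN0 N hNN0 (MvPolynomial.rename g W) (WIN_.degreeOf_rename_le g hginj W B hWd) (by
    rw [MvPolynomial.aeval_rename]
    have e1 : (fun v : Fin (k + 3) × Fin 3 => ((xn c N (f v.1) v.2 : ℝ) : ℂ)) =
        fun v => algebraMap ℝ ℂ (((fun v : Fin (A + 1) × Fin 3 => xn c N (v.1 : ℕ) v.2) ∘ g) v) := by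
      funext v
      rfl
    have e2 : MvPolynomial.aeval (fun v : Fin (k + 3) × Fin 3 => ((xn c N (f v.1) v.2 : ℝ) : ℂ)) W = 0 := hWz
    rw [e1] at e2
    have e3 := MvPolynomial.aeval_algebraMap_apply (A := ℝ) (B := ℂ)
      ((fun v : Fin (A + 1) × Fin 3 => xn c N (v.1 : ℕ) v.2) ∘ g) W
    have e4 : algebraMap ℝ ℂ (MvPolynomial.aeval ((fun v : Fin (A + 1) × Fin 3 => xn c N (v.1 : ℕ) v.2) ∘ g) W) = 0 := by
      rw [← e3]
      exact e2
    exact (map_eq_zero (algebraMap ℝ ℂ)).1 e4)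
  exact hW0 (MvPolynomial.rename_injective g hginj (by rw [hz, map_zero]))

end Pool.Agent.LEG
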