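import Pool.Agent.LEG.Targets

set_option autoImplicit false

/-! WRON: the Wronskian lemma for power series -/

namespace Pool.Agent.LEG

open Finset
open scoped BigOperators

namespace WRON_

/-- the derivative -/
noncomputable abbrev D : PowerSeries ℚ → PowerSeries ℚ := fun f => PowerSeries.derivative ℚ f

lemma D_mul (f g : PowerSeries ℚ) : D (f * g) = D f * g + f * D g := by
  simp only [D, Derivation.leibniz, smul_eq_mul]
  ring

lemma D_add (f g : PowerSeries ℚ) : D (f + g) = D f + D g := by
  simp only [D, map_add]

lemma D_sum (s : Finset ℕ) (f : ℕ → PowerSeries ℚ) : D (∑ i ∈ s, f i) = ∑ i ∈ s, D (f i) := by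
  simp only [D, map_sum]

/-- coefficients of the Leibniz formula -/
noncomputable def b (f : PowerSeries ℚ) : ℕ → ℕ → PowerSeries ℚ
  | 0, 0 => f
  | 0, (_ + 1) => 0
  | (j + 1), 0 => D (b f j 0)
  | (j + 1), (l + 1) => D (b f j (l + 1)) + b f j l

lemma b_gt (f : PowerSeries ℚ) : ∀ j l, j < l → b f j l = 0
  | 0, 0, h => absurd h (lt_irrefl _)
  | 0, (_ + 1), _ => by simp [b]
  | (j + 1), 0, h => absurd h (by omega)
  | (j + 1), (l + 1), h => by
      rw [b, b_gt f j (l + 1) (by omega), b_gt f j l (by omega)]
      simp [D]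

lemma b_diag (f : PowerSeries ℚ) : ∀ j, b f j j = f
  | 0 => by simp [b]
  | (j + 1) => by
      rw [b, b_gt f j (j + 1) (by omega), b_diag f j]
      simp [D]

lemma leib (f u : PowerSeries ℚ) : ∀ j, D^[j] (f * u) = ∑ l ∈ range (j + 1), b f j l * D^[l] u
  | 0 => by simp [b]
  | (j + 1) => by
      rw [Function.iterate_succ_apply', leib f u j, D_sum]
      simp only [D_mul, ← Function.iterate_succ_apply' D]
      rw [sum_add_distrib, sum_range_succ' (fun l => b f (j + 1) l * D^[l] u) (j + 1)]
      simp only [b, add_mul]
      rw [sum_add_distrib, sum_range_succ' (fun l => D (b f j l) * D^[l] u) j,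
        sum_range_succ (fun l => D (b f j (l + 1)) * D^[l + 1] u) j,
        b_gt f j (j + 1) (by omega)]
      simp only [D, map_zero, zero_mul, add_zero]
      ring

/-- the Wronskian -/
noncomputable def W {M : ℕ} (h : Fin M → PowerSeries ℚ) : PowerSeries ℚ :=
  Matrix.det (Matrix.of fun i j : Fin M => D^[(j : ℕ)] (h i))

lemma W_mul {M : ℕ} (f : PowerSeries ℚ) (u : Fin M → PowerSeries ℚ) :
    W (fun i => f * u i) = W u * f ^ M := by
  have h1 : (Matrix.of fun i j : Fin M => D^[(j : ℕ)] (f * u i)) =
      (Matrix.of fun i j : Fin M => D^[(j : ℕ)] (u i)) *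
        (Matrix.of fun l j : Fin M => b f (j : ℕ) (l : ℕ)) := by
    ext1 i j
    rw [Matrix.mul_apply]
    simp only [Matrix.of_apply]
    rw [leib, Fin.sum_univ_eq_sum_range (fun l => D^[l] (u i) * b f (j : ℕ) l) M]
    rw [← sum_subset (range_subset_range.2 (Nat.succ_le_of_lt j.2))]
    · exact sum_congr rfl fun l _ => mul_comm _ _
    · intro l _ hl
      rw [b_gt f j l (by simpa using hl), mul_zero]
  unfold W
  rw [h1, Matrix.det_mul, Matrix.det_of_isUpperTriangular (M := Matrix.of fun l j : Fin M =>
    b f (j : ℕ) (l : ℕ))]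
  · congr 1
    simp [b_diag]
  · intro l j hlj
    exact b_gt f j l hlj

lemma D_one_iter (n : ℕ) : D^[n + 1] (1 : PowerSeries ℚ) = 0 := by
  rw [Function.iterate_succ_apply]
  have h : D (1 : PowerSeries ℚ) = 0 := by
    simp [D]
  rw [h]
  induction n with
  | zero => rfl
  | succ n ih =>
    rw [Function.iterate_succ_apply', ih]
    simp [D]

lemma W_one {M : ℕ} (u : Fin (M + 1) → PowerSeries ℚ) (i : Fin (M + 1)) (hi : u i = 1) :
    W u = (-1) ^ (i : ℕ) * W (fun k : Fin M => D (u (i.succAbove k))) := by
  unfold W
  rw [Matrix.det_succ_row _ i, sum_eq_single 0]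
  · simp only [Matrix.of_apply, Fin.val_zero, add_zero, Function.iterate_zero, id, hi, mul_one]
    rfl
  · intro j _ hj
    obtain ⟨k, hk⟩ := Fin.exists_succ_eq.2 hj
    subst hk
    simp only [Matrix.of_apply, hi, Fin.val_succ]
    rw [D_one_iter, mul_zero, zero_mul]
  · intro h
    exact absurd (mem_univ _) h

lemma dvd_of_order_le {f g : PowerSeries ℚ} (hf : f ≠ 0) (h : f.order ≤ g.order) : f ∣ g := by
  have h1 : f = PowerSeries.X ^ f.order.toNat * f.divXPowOrder := by
    exact (PowerSeries.X_pow_order_mul_divXPowOrder).symm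
  obtain ⟨v, hv⟩ := PowerSeries.isUnit_divided_by_X_pow_order hf
  have h2 : PowerSeries.X ^ f.order.toNat ∣ g := by
    rw [PowerSeries.X_pow_dvd_iff]
    intro m hm
    refine PowerSeries.coeff_of_lt_order m (lt_of_lt_of_le ?_ h)
    rw [← ENat.natCast_toNat (PowerSeries.order_finite_iff_ne_zero.2 hf).ne]
    exact_mod_cast hm
  rw [h1, ← hv]
  exact (Units.mul_right_dvd).2 h2

lemma main : ∀ (M : ℕ) (h : Fin M → PowerSeries ℚ), W h = 0 →
    ∃ c : Fin M → ℚ, c ≠ 0 ∧ ∑ i, PowerSeries.C (c i) * h i = 0
  | 0, h, hW => by
      exfalso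
      unfold W at hW
      rw [Matrix.det_isEmpty] at hW
      exact one_ne_zero hW
  | (M + 1), h, hW => by
      by_cases hz : ∃ i, h i = 0
      · obtain ⟨i, hi⟩ := hz
        refine ⟨Pi.single i 1, ?_, ?_⟩
        · intro h0
          have := congrFun h0 i
          simp at this
        · rw [sum_eq_single i]
          · rw [hi, mul_zero]
          · intro j _ hj
            rw [Pi.single_eq_of_ne hj, map_zero, zero_mul]
          · intro h0
            exact absurd (mem_univ _) h0
      push Not at hz
      obtain ⟨i0, hi0⟩ := Finite.exists_min (fun i => (h i).order)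
      have hd : ∀ i, h i0 ∣ h i := fun i => dvd_of_order_le (hz i0) (hi0 i)
      choose u hu using hd
      have hu0 : u i0 = 1 := by
        have h1 := hu i0
        have h2 : h i0 * 1 = h i0 * u i0 := by rw [mul_one]; exact h1
        exact (mul_left_cancel₀ (hz i0) h2).symm
      have hWu : W u = 0 := by
        have h1 : W (fun i => h i0 * u i) = 0 := by
          rw [← hW]
          congr 1
          funext i
          exact (hu i).symm
        rw [W_mul] at h1
        rcases mul_eq_zero.1 h1 with h2 | h2
        · exact h2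
        · exact absurd (pow_eq_zero_iff (Nat.succ_ne_zero M) |>.1 h2) (hz i0)
      rw [W_one u i0 hu0] at hWu
      have hW' : W (fun k : Fin M => D (u (i0.succAbove k))) = 0 := by
        rcases mul_eq_zero.1 hWu with h2 | h2
        · exfalso
          exact (pow_ne_zero _ (neg_ne_zero.2 one_ne_zero)) h2
        · exact h2
      obtain ⟨c, hc, hcs⟩ := main M _ hW'
      set S : PowerSeries ℚ := ∑ k, PowerSeries.C (c k) * u (i0.succAbove k) with hS
      have hDS : D S = 0 := by
        simp only [hS, D, map_sum]
        rw [← hcs]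
        refine sum_congr rfl fun k _ => ?_
        have := D_mul (PowerSeries.C (c k)) (u (i0.succAbove k))
        simp only [D] at this
        rw [this, PowerSeries.derivative_C, zero_mul, zero_add]
      have hSc : S = PowerSeries.C (PowerSeries.constantCoeff S) := by
        refine PowerSeries.derivative.ext ?_ ?_
        · rw [PowerSeries.derivative_C]
          exact hDS
        · simp
      refine ⟨i0.insertNth (-PowerSeries.constantCoeff S) c, ?_, ?_⟩
      · intro h0
        apply hc
        funext k
        have := congrFun h0 (i0.succAbove k)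
        rw [Fin.insertNth_apply_succAbove] at this
        exact this
      · rw [Fin.sum_univ_succAbove _ i0, Fin.insertNth_apply_same]
        simp only [Fin.insertNth_apply_succAbove]
        have h1 : ∑ k, PowerSeries.C (c k) * h (i0.succAbove k) = h i0 * S := by
          rw [hS, mul_sum]
          refine sum_congr rfl fun k _ => ?_
          rw [hu (i0.succAbove k)]
          ring
        have h2 : h i0 * S = h i0 * PowerSeries.C (PowerSeries.constantCoeff S) :=
          congrArg (fun t => h i0 * t) hSc
        rw [h1, map_neg, h2]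
        ring

end WRON_

theorem p_WRON : T_WRON := fun M h hW => WRON_.main M h hW

end Pool.Agent.LEG
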