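import Pool.Agent.LEG.Targets

set_option autoImplicit false

/-! Periods of Legendre curves: the zero estimate. -/

namespace Pool.Agent.LEG

open Finset

/-- zero estimate: `WW` is nonzero, of small degree, and divisible by high powers of `X` and of
`X - z0` -/
theorem p_ZE (h1 : T_SHID) (h2 : T_ORD0) (h3 : T_ORD1) (h4 : T_DEG) : T_ZE := by
  intro ι _ _ T A f o hT hH hfo hI
  obtain ⟨c0, hc0⟩ := h1 ι T A f o hT hI
  obtain ⟨ρ, hρT, hρA⟩ : ∃ ρ : ℕ, T.natDegree ≤ ρ ∧ ∀ i j, (A i j).natDegree ≤ ρ := by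
    refine ⟨T.natDegree + ∑ i, ∑ j, (A i j).natDegree, Nat.le_add_right _ _, fun i j => ?_⟩
    have e1 : (A i j).natDegree ≤ ∑ j, (A i j).natDegree :=
      Finset.single_le_sum (f := fun j => (A i j).natDegree) (fun _ _ => Nat.zero_le _)
        (Finset.mem_univ j)
    have e2 : ∑ j, (A i j).natDegree ≤ ∑ i, ∑ j, (A i j).natDegree :=
      Finset.single_le_sum (f := fun i => ∑ j, (A i j).natDegree) (fun _ _ => Nat.zero_le _)
        (Finset.mem_univ i)
    omega
  have hM1 : 1 ≤ Fintype.card ι := Fintype.card_pos_iff.2 ⟨o⟩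
  generalize hM : Fintype.card ι = M at hM1
  refine ⟨c0 + (M - 1) * M + M + M * M * ρ, ?_⟩
  intro m σ K0 P z0 c hP hm hz0 hTz hc hk
  have hW := hc0 m σ P hP (by omega)
  have d0 := h2 ι T A f o m σ P hH hfo hP
  have d1 := h3 ι T A z0 K0 P c hTz hc hk
  have dg := ((h4 ι T A ρ hρT hρA).2 m P hP.deg).2
  rw [hM] at d0 d1 dg
  have hco : IsCoprime (Polynomial.X ^ ((M - 1) * (σ - M)) : Polynomial ℚ)
      ((Polynomial.X - Polynomial.C z0) ^ (K0 + 1 - M)) := by
    apply IsCoprime.pow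
    have := Polynomial.isCoprime_X_sub_C_of_isUnit_sub (R := ℚ) (a := 0) (b := z0)
      (by simpa using hz0)
    simpa using this
  have hdvd := hco.mul_dvd d0 d1
  have hdeg := Polynomial.natDegree_le_of_dvd hdvd hW
  rw [Polynomial.natDegree_mul (pow_ne_zero _ Polynomial.X_ne_zero)
    (pow_ne_zero _ (Polynomial.X_sub_C_ne_zero z0)), Polynomial.natDegree_pow,
    Polynomial.natDegree_pow, Polynomial.natDegree_X, Polynomial.natDegree_X_sub_C,
    mul_one, mul_one] at hdeg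
  have h5 := hdeg.trans dg
  obtain ⟨M', hM'⟩ : ∃ M', M = M' + 1 := ⟨M - 1, by omega⟩
  rw [hM'] at h5 ⊢
  simp only [Nat.add_sub_cancel] at h5 ⊢
  have h6 : M' * σ ≤ M' * (σ - (M' + 1)) + M' * (M' + 1) := by
    rw [← Nat.mul_add]
    exact Nat.mul_le_mul_left _ (by omega)
  have h7 : K0 + 1 ≤ (K0 + 1 - (M' + 1)) + (M' + 1) := by omega
  nlinarith

end Pool.Agent.LEG
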