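import Pool.Agent.LEG.Targets
import Pool.Agent.LEG.LEIB
import Pool.Agent.LEG.DEG
import Pool.Agent.LEG.BBS
import Pool.Agent.LEG.WRON
import Pool.Agent.LEG.LOC
import Pool.Agent.LEG.SHID0
import Pool.Agent.LEG.SHID
import Pool.Agent.LEG.ORD0
import Pool.Agent.LEG.ORD1
import Pool.Agent.LEG.ZE
import Pool.Agent.LEG.SIEG
import Pool.Agent.LEG.DEN
import Pool.Agent.LEG.SMALL
import Pool.Agent.LEG.GTHM
import Pool.Agent.LEG.GRING
import Pool.Agent.LEG.GSH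
import Pool.Agent.LEG.GLO
import Pool.Agent.LEG.GALK
import Pool.Agent.LEG.GOODMUL
import Pool.Agent.LEG.GOODOPT
import Pool.Agent.LEG.GOODPI
import Pool.Agent.LEG.GOODSUB
import Pool.Agent.LEG.FORM
import Pool.Agent.LEG.ODEPHI
import Pool.Agent.LEG.GF
import Pool.Agent.LEG.GPHI
import Pool.Agent.LEG.GALU
import Pool.Agent.LEG.GALV
import Pool.Agent.LEG.FAM
import Pool.Agent.LEG.EVC
import Pool.Agent.LEG.EVSH
import Pool.Agent.LEG.EVLO
import Pool.Agent.LEG.CONV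
import Pool.Agent.LEG.EVPHI
import Pool.Agent.LEG.KE
import Pool.Agent.LEG.LIM
import Pool.Agent.LEG.LEGR
import Pool.Agent.LEG.KF
import Pool.Agent.LEG.KH
import Pool.Agent.LEG.RHO
import Pool.Agent.LEG.LOGP
import Pool.Agent.LEG.FI
import Pool.Agent.LEG.FIP
import Pool.Agent.LEG.IND
import Pool.Agent.LEG.GT
import Pool.Agent.LEG.ELIM
import Pool.Agent.LEG.ELIM3
import Pool.Agent.LEG.EXC
import Pool.Agent.LEG.WIN
import Pool.Agent.LEG.ONE
import Pool.Agent.LEG.GEN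
import Pool.Agent.LEG.MULTI

set_option autoImplicit false

/-!
Assembly of version 1: Galochkin's theorem for G-functions at `1/N` (`galochkin`), and relations of
bounded degree between the periods of Legendre curves (`multi`).
-/

namespace Pool.Agent.LEG

theorem h_SHID : T_SHID := p_SHID (p_SHID0 p_LOC p_WRON)

theorem h_ZE : T_ZE := p_ZE h_SHID p_ORD0 (p_ORD1 p_LOC) p_DEG

/-- Galochkin's theorem -/
theorem galochkin : T_GTHM := p_GTHM h_ZE p_SIEG (p_DEN p_LEIB p_DEG) (p_SMALL p_LEIB p_BBS)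

theorem h_GPHI : T_GPHI := p_GPHI p_GRING p_GSH p_GLO p_GF

theorem h_ODEPHI : T_ODEPHI := p_ODEPHI p_FORM

theorem h_FAM : T_FAM := p_FAM h_ODEPHI h_GPHI (p_GALV h_ODEPHI h_GPHI) p_GALU p_GALK p_GOODOPT
  (p_GOODPI (p_GOODMUL p_GALK p_GRING) p_GOODOPT)

theorem h_EVPHI : T_EVPHI := p_EVPHI p_EVC p_EVSH p_EVLO p_CONV

theorem h_LEGR : T_LEGR := p_LEGR p_KE p_LIM

theorem h_KF : T_KF := p_KF p_KE p_LIM p_FORM p_CONV p_EVC

theorem h_KH : T_KH := p_KH p_KE h_LEGR h_KF p_FORM p_CONV p_EVC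

theorem h_RHO : T_RHO := p_RHO h_KF h_KH h_LEGR p_CONV p_EVC

theorem h_FI : T_FI := p_FI h_RHO p_LOGP

theorem h_FIP : T_FIP := p_FIP h_FI h_RHO h_EVPHI p_EVC

theorem h_IND : T_IND := p_IND h_FIP h_EVPHI p_EVC h_ODEPHI

theorem h_GT : T_GT := p_GT galochkin h_FAM h_IND h_FIP h_EVPHI p_EVC p_GOODSUB

theorem multi : T_MULTI :=
  p_MULTI (p_ONE (p_WIN (p_EXC h_RHO) (p_ELIM3 p_ELIM) h_GT)) p_GEN

end Pool.Agent.LEG
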