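import Pool.Agent.LEG.Targets2

/-!
LEG2-BLKU: one block over the common denominator.
-/

set_option autoImplicit false

namespace Pool.Agent.LEG

open Finset
open scoped BigOperators Topology

namespace BLKU_

lemma ty_mul (z : ℚ) (p q : Polynomial ℚ) : GF.ty z (p * q) = GF.ty z p * GF.ty z q := by
  simp [GF.ty, Polynomial.taylor_mul, Polynomial.coe_mul]

lemma ty_add (z : ℚ) (p q : Polynomial ℚ) : GF.ty z (p + q) = GF.ty z p + GF.ty z q := by
  simp [GF.ty, Polynomial.coe_add]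

lemma ty_zero (z : ℚ) : GF.ty z 0 = 0 := by
  simp [GF.ty]

lemma ty_kron_sum (z : ℚ) (A B : Fin 2 → Fin 2 → Polynomial ℚ) (a b : Fin 2 → PowerSeries ℚ)
    (u : Polynomial ℚ) (q : Fin 2 × Fin 2) :
    ∑ r : Fin 2 × Fin 2, (a r.1 * b r.2) * GF.ty z (u * kron A B r q) =
      GF.ty z u * ((∑ i, a i * GF.ty z (A i q.1)) * b q.2 +
        a q.1 * ∑ j, b j * GF.ty z (B j q.2)) := by
  obtain ⟨q1, q2⟩ := q
  fin_cases q1 <;> fin_cases q2 <;>
    simp only [kron, Fintype.sum_prod_type, Fin.sum_univ_two, ty_mul, ty_add, Fin.zero_eta,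
      Fin.mk_one, Fin.isValue, if_true, one_ne_zero, zero_ne_one, if_false, ty_zero, add_zero,
      zero_add, mul_zero] <;> ring

/-- the other factors -/
noncomputable def uu (c : ℕ) {r : ℕ} (a : Fin r → ℕ) (i : Fin r) : Polynomial ℚ :=
  ∏ j ∈ univ.erase i, ((1 - Polynomial.C (a j : ℚ) * Polynomial.X) *
    (1 - Polynomial.C ((a j : ℚ) + c) * Polynomial.X))

lemma TR_eq (c : ℕ) {r : ℕ} (a : Fin r → ℕ) (i : Fin r) : TR c a = uu c a i * T1 c (a i) := by
  unfold TR uu T1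
  rw [← Finset.mul_prod_erase univ _ (Finset.mem_univ i)]
  ring

lemma fac_deg (x : ℚ) : (1 - Polynomial.C x * Polynomial.X : Polynomial ℚ).natDegree ≤ 1 := by
  compute_degree

lemma uu_deg (c : ℕ) {r : ℕ} (a : Fin r → ℕ) (i : Fin r) : (uu c a i).natDegree ≤ 2 * r := by
  unfold uu
  refine (Polynomial.natDegree_prod_le _ _).trans ?_
  refine (Finset.sum_le_card_nsmul _ _ 2 fun j _ => ?_).trans ?_
  · exact (Polynomial.natDegree_mul_le).trans (by
      have h1 := fac_deg (a j : ℚ)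
      have h2 := fac_deg ((a j : ℚ) + c)
      omega)
  · rw [Finset.card_erase_of_mem (Finset.mem_univ i), Finset.card_univ, Fintype.card_fin,
      smul_eq_mul]
    omega

lemma uu_eval (c : ℕ) {r : ℕ} (a : Fin r → ℕ) (i : Fin r) : (uu c a i).eval 0 = 1 := by
  unfold uu
  rw [Polynomial.eval_prod]
  refine Finset.prod_eq_one fun j _ => ?_
  simp

lemma A1_deg (c a : ℕ) (i j : Fin 2) : (A1 c a i j).natDegree ≤ 2 := by
  have h1 := fac_deg (a : ℚ)
  have h2 := fac_deg ((a : ℚ) + c)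
  fin_cases i <;> fin_cases j <;> simp only [A1, Matrix.cons_val', Matrix.cons_val_zero,
    Matrix.cons_val_one, Matrix.cons_val_fin_one, Fin.zero_eta, Fin.mk_one, Fin.isValue,
    Polynomial.natDegree_neg] <;> omega

lemma N1_deg (c a : ℕ) (i j : Fin 2) : (N1 c a i j).natDegree ≤ 2 := by
  have h1 := fac_deg (a : ℚ)
  have h2 := fac_deg ((a : ℚ) + c)
  have h3 : ((1 - Polynomial.C (a : ℚ) * Polynomial.X) *
    (1 - Polynomial.C ((a : ℚ) + c) * Polynomial.X) : Polynomial ℚ).natDegree ≤ 2 :=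
    (Polynomial.natDegree_mul_le).trans (by omega)
  fin_cases i <;> fin_cases j <;> simp only [N1, Matrix.cons_val', Matrix.cons_val_zero,
    Matrix.cons_val_one, Matrix.cons_val_fin_one, Fin.zero_eta, Fin.mk_one, Fin.isValue,
    Polynomial.natDegree_neg, Polynomial.natDegree_zero] <;> omega

lemma kron_deg (c a : ℕ) (p q : Fin 2 × Fin 2) :
    (kron (A1 c a) (N1 c a) p q).natDegree ≤ 2 := by
  unfold kron
  refine (Polynomial.natDegree_add_le _ _).trans (max_le ?_ ?_)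
  · split_ifs
    · exact A1_deg c a _ _
    · simp
  · split_ifs
    · exact N1_deg c a _ _
    · simp

lemma A1_eval (c a : ℕ) (i j : Fin 2) : (A1 c a i j).eval 0 = (![![-1, 1], ![-1, 1]] :
    Fin 2 → Fin 2 → ℚ) i j := by
  fin_cases i <;> fin_cases j <;> simp [A1]

lemma N1_eval (c a : ℕ) (i j : Fin 2) : (N1 c a i j).eval 0 = (![![0, 0], ![-1, 0]] :
    Fin 2 → Fin 2 → ℚ) i j := by
  fin_cases i <;> fin_cases j <;> simp [N1]

lemma nilp (c a : ℕ) (u : Polynomial ℚ) (hu : u.eval 0 = 1) :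
    IsNilpotent (Matrix.of fun p q => (u * kron (A1 c a) (N1 c a) p q).eval 0) := by
  have e : (Matrix.of fun p q => (u * kron (A1 c a) (N1 c a) p q).eval 0) =
      Matrix.of fun p q : Fin 2 × Fin 2 => (if p.2 = q.2 then (![![-1, 1], ![-1, 1]] :
        Fin 2 → Fin 2 → ℚ) p.1 q.1 else 0) + (if p.1 = q.1 then (![![0, 0], ![-1, 0]] :
        Fin 2 → Fin 2 → ℚ) p.2 q.2 else 0) := by
    ext p q
    simp only [Matrix.of_apply, kron]
    rw [Polynomial.eval_mul, hu, one_mul, Polynomial.eval_add]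
    congr 1
    · split_ifs
      · exact A1_eval c a _ _
      · simp
    · split_ifs
      · exact N1_eval c a _ _
      · simp
  rw [e]
  refine ⟨3, ?_⟩
  rw [pow_succ, pow_two]
  ext ⟨i, i'⟩ ⟨j, j'⟩
  fin_cases i <;> fin_cases i' <;> fin_cases j <;> fin_cases j' <;>
    simp [Matrix.mul_apply, Fintype.sum_prod_type, Fin.sum_univ_two]

/-- monotonicity of the constants -/
lemma pw {G K a A n : ℕ} (hG : G ≤ K) (hn : n ≤ K) (hK : 1 ≤ K) (ha : a ≤ A) :
    (G * (a + 1)) ^ n ≤ (K * (A + 1)) ^ K := by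
  have h1 : G * (a + 1) ≤ K * (A + 1) := Nat.mul_le_mul hG (by omega)
  have h2 : 1 ≤ K * (A + 1) := Nat.one_le_iff_ne_zero.2 (by positivity)
  exact (Nat.pow_le_pow_left h1 n).trans (Nat.pow_le_pow_right h2 hn)

lemma size_mul {B N V K D : ℕ} {f g : PowerSeries ℚ} (hN2 : 2 ≤ N) (hB1 : 1 ≤ B) (hVB : D ≤ B)
    (hVK : V + 2 ≤ K) (hf : ∀ s, |PowerSeries.coeff s f| ≤ ((D : ℚ) * N) ^ (V * (s + 1)))
    (hg : ∀ s, |PowerSeries.coeff s g| ≤ (N : ℚ) ^ s) (s : ℕ) :
    |PowerSeries.coeff s (f * g)| ≤ ((B : ℚ) * N) ^ (K * (s + 1)) := by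
  have hNq : (2 : ℚ) ≤ N := by exact_mod_cast hN2
  have hBq : (1 : ℚ) ≤ B := by exact_mod_cast hB1
  have hDB : (D : ℚ) ≤ B := by exact_mod_cast hVB
  have hBN : (1 : ℚ) ≤ (B : ℚ) * N := by nlinarith
  have hNB : (N : ℚ) ≤ (B : ℚ) * N := by nlinarith
  have h0 : (0 : ℚ) ≤ (B : ℚ) * N := by linarith
  have t1 : ∀ x : ℕ × ℕ, x ∈ antidiagonal s → |PowerSeries.coeff x.1 f * PowerSeries.coeff x.2 g| ≤
      ((B : ℚ) * N) ^ (V * (s + 1)) * ((B : ℚ) * N) ^ (s + 1) := by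
    intro x hx
    rw [Finset.HasAntidiagonal.mem_antidiagonal] at hx
    rw [abs_mul]
    have a1 : |PowerSeries.coeff x.1 f| ≤ ((B : ℚ) * N) ^ (V * (s + 1)) := by
      refine (hf x.1).trans ((pow_le_pow_left₀ (by positivity)
        (mul_le_mul_of_nonneg_right hDB (by positivity)) _).trans (pow_le_pow_right₀ hBN ?_))
      exact Nat.mul_le_mul le_rfl (by omega)
    have a2 : |PowerSeries.coeff x.2 g| ≤ ((B : ℚ) * N) ^ (s + 1) :=
      (hg x.2).trans ((pow_le_pow_left₀ (by positivity) hNB _).trans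
        (pow_le_pow_right₀ hBN (by omega)))
    exact mul_le_mul a1 a2 (abs_nonneg _) (pow_nonneg h0 _)
  have t2 : ((s + 1 : ℕ) : ℚ) ≤ ((B : ℚ) * N) ^ (s + 1) := by
    have e4 : ((s + 1 : ℕ) : ℚ) ≤ (2 : ℚ) ^ (s + 1) := by
      exact_mod_cast (Nat.lt_two_pow_self (n := s + 1)).le
    exact e4.trans (pow_le_pow_left₀ (by norm_num) (by linarith) _)
  rw [PowerSeries.coeff_mul]
  refine (Finset.abs_sum_le_sum_abs _ _).trans ((Finset.sum_le_sum t1).trans ?_)
  rw [Finset.sum_const, Finset.Nat.card_antidiagonal, nsmul_eq_mul]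
  refine (mul_le_mul_of_nonneg_right t2 (mul_nonneg (pow_nonneg h0 _) (pow_nonneg h0 _))).trans ?_
  rw [← pow_add, ← pow_add]
  refine pow_le_pow_right₀ hBN ?_
  calc s + 1 + (V * (s + 1) + (s + 1)) = (V + 2) * (s + 1) := by ring
    _ ≤ K * (s + 1) := Nat.mul_le_mul hVK le_rfl

end BLKU_

open BLKU_

theorem p_BLKU (h1 : T_ODE1) (h2 : T_GPHIU) (h3 : T_TRV) (h4 : T_TRU) : T_BLKU := by
  intro c r hc
  obtain ⟨G, hG⟩ := h2 c
  obtain ⟨V, hV⟩ := h3 c hc
  obtain ⟨U, hU⟩ := h4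
  obtain ⟨K, hK⟩ : ∃ K : ℕ, K = 4 * G + 2 * V + U + 2 * r + 10 := ⟨_, rfl⟩
  refine ⟨K, fun A N a ha hN i => ?_⟩
  have hai := ha i
  have hN1 : 1 ≤ N := by omega
  have hN2 : 2 ≤ N := by omega
  have hK1 : 1 ≤ K := by omega
  have hKA : 1 ≤ K * (A + 1) := Nat.one_le_iff_ne_zero.2 (by positivity)
  have hB1 : 1 ≤ (K * (A + 1)) ^ K := Nat.one_le_pow _ _ hKA
  have hGB : (G * (a i + 1)) ^ G ≤ (K * (A + 1)) ^ K := pw (by omega) (by omega) hK1 hai
  have hG4 : (G * (a i + 1)) ^ (4 * G) ≤ (K * (A + 1)) ^ K := pw (by omega) (by omega) hK1 hai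
  have hVB : (V * (a i + 1)) ^ V ≤ (K * (A + 1)) ^ K := pw (by omega) (by omega) hK1 hai
  have hVU : (V * (a i + 1)) ^ V * U ≤ (K * (A + 1)) ^ K := by
    calc (V * (a i + 1)) ^ V * U ≤ (K * (A + 1)) ^ V * (K * (A + 1)) := by
          refine Nat.mul_le_mul (Nat.pow_le_pow_left (Nat.mul_le_mul (by omega) (by omega)) _) ?_
          exact le_trans (by omega : U ≤ K) (Nat.le_mul_of_pos_right _ (by omega))
      _ = (K * (A + 1)) ^ (V + 1) := by rw [pow_succ]
      _ ≤ (K * (A + 1)) ^ K := Nat.pow_le_pow_right hKA (by omega)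
  generalize (K * (A + 1)) ^ K = B at hB1 hGB hG4 hVB hVU ⊢
  obtain ⟨ΓV, eV, τ, iV, oV, sV, τ0, τ1, eV1, dV⟩ := hV (a i) N (by omega)
  obtain ⟨ΓU, eU, iU, oU, sU, eU1, dU⟩ := hU c (a i) N (by omega) hN1
  refine ⟨hB1, hK1, ?_, ?_, ?_⟩
  · intro p s
    refine ((hG (a i) p s).1).trans ?_
    exact_mod_cast Nat.pow_le_pow_left hGB _
  · choose d hd0 hd1 hd2 using fun (p : Fin 2 × Fin 2) (k : ℕ) => (hG (a i) p k).2
    refine ⟨fun k => ∏ p, d p k, fun k => ⟨Finset.prod_pos fun p _ => hd0 p k, ?_⟩,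
      fun p k s hs => ?_⟩
    · calc ∏ p, d p k ≤ ∏ _p : Fin 2 × Fin 2, ((G * (a i + 1)) ^ G) ^ (k + 1) :=
            Finset.prod_le_prod' fun p _ => hd1 p k
        _ = ((G * (a i + 1)) ^ (4 * G)) ^ (k + 1) := by
            rw [Finset.prod_const, Finset.card_univ]
            simp only [Fintype.card_prod, Fintype.card_fin]
            rw [← pow_mul, ← pow_mul, ← pow_mul]
            congr 1
            ring
        _ ≤ B ^ (k + 1) := Nat.pow_le_pow_left hG4 _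
    · obtain ⟨x, hx⟩ := hd2 p k s hs
      refine ⟨(∏ q ∈ univ.erase p, (d q k : ℤ)) * x, ?_⟩
      beta_reduce
      rw [← Finset.mul_prod_erase univ _ (Finset.mem_univ p)]
      push_cast
      rw [← hx]
      ring
  · refine ⟨⟨TR c a, fun p q => uu c a i * kron (A1 c (a i)) (N1 c (a i)) p q, phi c (a i)⟩,
      fun p q => ΓV p.1 q.1 * ΓU p.2 q.2, fun k => eV k * eU k, τ, rfl, rfl, ?_, ?_, ?_, ?_, ?_, τ0,
      ?_, ?_, ?_⟩
    · intro p q
      refine (Polynomial.natDegree_mul_le).trans ?_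
      have e1 := uu_deg c a i
      have e2 := kron_deg c (a i) p q
      omega
    · intro p
      have e := (h1 c (a i) hc).1 p
      change ((TR c a : Polynomial ℚ) : PowerSeries ℚ) * _ = ∑ j, ((uu c a i *
        kron (A1 c (a i)) (N1 c (a i)) p j : Polynomial ℚ) : PowerSeries ℚ) * phi c (a i) j
      rw [TR_eq c a i, Polynomial.coe_mul, mul_assoc]
      rw [e, Finset.mul_sum]
      refine Finset.sum_congr rfl fun q _ => ?_
      rw [Polynomial.coe_mul, mul_assoc]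
    · exact nilp c (a i) (uu c a i) (uu_eval c a i)
    · refine ⟨fun p q => ?_, fun p q => ?_⟩
      · rw [map_mul, iV, iU]
        by_cases e1 : p.1 = q.1
        · by_cases e2 : p.2 = q.2
          · rw [if_pos e1, if_pos e2, if_pos (Prod.ext e1 e2), one_mul]
          · rw [if_neg e2, if_neg (fun h : p = q => e2 (congrArg Prod.snd h)), mul_zero]
        · rw [if_neg e1, if_neg (fun h : p = q => e1 (congrArg Prod.fst h)), zero_mul]
      · change GF.ty (1 / (N : ℚ)) (TR c a) * PowerSeries.derivative ℚ (ΓV p.1 q.1 * ΓU p.2 q.2) =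
          - ∑ l : Fin 2 × Fin 2, (ΓV p.1 l.1 * ΓU p.2 l.2) *
            GF.ty (1 / (N : ℚ)) (uu c a i * kron (A1 c (a i)) (N1 c (a i)) l q)
        rw [ty_kron_sum _ _ _ (fun l => ΓV p.1 l) (fun l => ΓU p.2 l), TR_eq c a i, ty_mul]
        have e1 := oV p.1 q.1
        have e2 := oU p.2 q.2
        rw [Derivation.leibniz, smul_eq_mul, smul_eq_mul]
        linear_combination (GF.ty (1 / (N : ℚ)) (uu c a i)) * ΓU p.2 q.2 * e1 +
          (GF.ty (1 / (N : ℚ)) (uu c a i)) * ΓV p.1 q.1 * e2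
    · intro p q s
      exact size_mul hN2 hB1 hVB (by omega) (sV p.1 q.1) (sU p.2 q.2) s
    · have hBN : 1 ≤ B * N := Nat.one_le_iff_ne_zero.2 (by positivity)
      calc τ ≤ ((V * (a i + 1)) ^ V * N) ^ V := τ1
        _ ≤ (B * N) ^ V := Nat.pow_le_pow_left (Nat.mul_le_mul hVB le_rfl) _
        _ ≤ (B * N) ^ K := Nat.pow_le_pow_right hBN (by omega)
    · intro k
      refine ⟨Nat.mul_pos (eV1 k).1 (eU1 k).1, ?_⟩
      calc eV k * eU k ≤ ((V * (a i + 1)) ^ V) ^ (k + 1) * U ^ (k + 1) :=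
            Nat.mul_le_mul (eV1 k).2 (eU1 k).2
        _ = ((V * (a i + 1)) ^ V * U) ^ (k + 1) := (mul_pow _ _ _).symm
        _ ≤ B ^ (k + 1) := Nat.pow_le_pow_left hVU _
    · intro p q k s hs
      choose! x hx using fun (t : ℕ) (ht : t ≤ k) => dV p.1 q.1 k t ht
      choose! y hy using fun (t : ℕ) (ht : t ≤ k) => dU p.2 q.2 k t ht
      refine ⟨∑ t ∈ antidiagonal s, x t.1 * y t.2 * (τ : ℤ) ^ (s - t.1), ?_⟩
      rw [PowerSeries.coeff_mul, Finset.mul_sum]
      push_cast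
      refine Finset.sum_congr rfl fun t ht => ?_
      rw [Finset.HasAntidiagonal.mem_antidiagonal] at ht
      rw [← hx t.1 (by omega), ← hy t.2 (by omega)]
      have e5 : (τ : ℚ) ^ s = (τ : ℚ) ^ t.1 * (τ : ℚ) ^ (s - t.1) := by
        rw [← pow_add]; congr 1; omega
      rw [e5]
      ring

end Pool.Agent.LEG
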