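import Pool.Agent.LEG.Targets2
import Pool.Agent.LEG.ELIM3

set_option autoImplicit false

/-! Elimination for triples of numbers, explicit in the degree. -/

namespace Pool.Agent.LEG

open Finset

open ELIM3_ in
theorem p_ELIM3X (h : T_ELIMX) : T_ELIM3X := by
  intro K r hKr
  obtain ⟨B, hB⟩ := h (K + r * 2) r (r * 3) (by omega)
  refine ⟨B, fun D θ x hx => ?_⟩
  choose j hj using fun i => first D θ (x i) (hx i)
  -- indices
  set eK : Fin K ⊕ (Fin r × Fin 2) ≃ Fin (K + r * 2) :=
    (Equiv.sumCongr (Equiv.refl _) finProdFinEquiv).trans finSumFinEquiv with heK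
  set e3 : Fin r × Fin 3 ≃ Fin (r * 3) := finProdFinEquiv with he3
  set θ' : Fin (K + r * 2) → ℂ := fun v =>
    Sum.elim θ (fun w : Fin r × Fin 2 => x w.1 ((j w.1).succAbove w.2)) (eK.symm v) with hθ'
  have hex : ∀ (i : Fin r) (j' : Fin 3), ∃ e : Fin 2, j' ≠ j i → (j i).succAbove e = j' := by
    intro i j'
    by_cases h1 : j' = j i
    · exact ⟨0, fun h2 => absurd h1 h2⟩
    · obtain ⟨e, he⟩ := Fin.exists_succAbove_eq h1
      exact ⟨e, fun _ => he⟩
  choose e he using hex
  have hRl : ∀ i, Rl D θ' (x i (j i)) := by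
    intro i
    refine hj i θ' (fun k => eK (Sum.inl k)) (fun j' => eK (Sum.inr (i, e i j'))) ?_ ?_
    · intro k
      simp only [hθ', Equiv.symm_apply_apply, Sum.elim_inl]
    · intro j' hj'
      simp only [hθ', Equiv.symm_apply_apply, Sum.elim_inr]
      rw [he i j' hj']
  obtain ⟨W, hW0, hWB, hW⟩ := hB D θ' (fun i => x i (j i)) (fun v =>
    if (e3.symm v).2 = j (e3.symm v).1 then Sum.inr (e3.symm v).1
    else Sum.inl (eK (Sum.inr ((e3.symm v).1, e (e3.symm v).1 (e3.symm v).2)))) hRl
  refine ⟨MvPolynomial.rename e3.symm W, ?_, fun v => ?_, ?_⟩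
  · intro h0
    apply hW0
    exact MvPolynomial.rename_injective _ e3.symm.injective (by rw [h0, map_zero])
  · have := MvPolynomial.degreeOf_rename_of_injective (p := W) e3.symm.injective (e3 v)
    rw [Equiv.symm_apply_apply] at this
    rw [this]
    exact hWB _
  · rw [MvPolynomial.aeval_rename]
    rw [← hW]
    congr 2
    funext v
    simp only [Function.comp_apply]
    split_ifs with h1
    · rw [Sum.elim_inr, ← h1]
    · rw [Sum.elim_inl]
      simp only [hθ', Equiv.symm_apply_apply, Sum.elim_inr]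
      rw [he _ _ h1]

end Pool.Agent.LEG
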