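import Pool.Agent.LEG.Targets2
import Pool.Agent.LEG.EXC

set_option autoImplicit false

/-! EXCX: from periods to the functions, with an explicit degree. -/

namespace Pool.Agent.LEG

open Finset
open scoped BigOperators Topology

open EXC_ MvPolynomial in
theorem p_EXCX (h : T_RHO) : T_EXCX := by
  intro c k hc
  obtain ⟨⟨c1, hc1⟩, -, -, -, -, hdet⟩ := h c hc
  refine ⟨4, fun D N θ => ?_⟩
  obtain ⟨ξ, hξ⟩ : ∃ ξ : ℝ, ξ = c1 - Real.log (1 / (N : ℝ)) / 2 := ⟨_, rfl⟩
  refine ⟨Fin.append θ ![(Real.pi : ℂ) / 2, (ξ : ℂ)], fun a haN hE => ?_⟩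
  obtain ⟨P, hPD, hP0, x, hx, hPx⟩ := hE
  obtain ⟨P', hP'D, hP'⟩ := key P hPD
  refine ⟨P', hP'D.trans (by omega), ?_, ?_⟩
  · obtain ⟨x', hx', hx0, hPx'⟩ := perturb P θ x hx hPx
    have hpi : (Real.pi : ℂ) ≠ 0 := by exact_mod_cast Real.pi_ne_zero
    refine ⟨![2 * x' 0 / Real.pi, 2 * x' 1 / Real.pi, ξ * (2 * x' 0 / Real.pi) - x' 2], ?_⟩
    rw [hP' θ _ _ _ x' ?_ ?_ ?_ ?_]
    · refine mul_ne_zero (pow_ne_zero _ ?_) hPx'
      simp only [Matrix.cons_val_zero]
      exact div_ne_zero (mul_ne_zero two_ne_zero hx0) hpi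
    · simp only [Matrix.cons_val_zero]
      field_simp
    · simp only [Matrix.cons_val_one, Matrix.cons_val_zero]
      field_simp
    · simp
    · unfold Leg at hx'
      simp
      field_simp
      linear_combination (2 * (Real.pi : ℂ)) * hx'
  · have hN : (0 : ℝ) < N := by
      have : 0 < N := by omega
      exact_mod_cast this
    have hz : (0 : ℝ) < 1 / (N : ℝ) := by positivity
    have hlt : ((a : ℝ) + c) * (1 / (N : ℝ)) < 1 := by
      rw [mul_one_div, div_lt_one hN]
      exact_mod_cast haN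
    have hr := hc1 a (1 / (N : ℝ)) hz hlt
    have hd := hdet a (1 / (N : ℝ)) hz hlt
    have haN' : (a : ℝ) < N := by
      have : a < N := by omega
      exact_mod_cast this
    have hm : (c : ℝ) * (1 / (N : ℝ)) / (1 - a * (1 / (N : ℝ))) = (c : ℝ) / ((N - a : ℕ) : ℝ) := by
      rw [Nat.cast_sub (by omega)]
      have : (N : ℝ) - a ≠ 0 := by linarith
      field_simp
    have hdet1 : (PhR c a (1 / (N : ℝ))).det = 1 := by
      rw [hr, Matrix.det_mul] at hd
      have e : (RL c1 (Real.log (1 / (N : ℝ)))).det = -(Real.pi / 2) := by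
        unfold RL
        rw [Matrix.det_fin_two_of]
        ring
      rw [e] at hd
      have hpi := Real.pi_ne_zero
      have : -(Real.pi / 2) ≠ 0 := by simpa using hpi
      exact mul_right_cancel₀ this (by rw [hd, one_mul])
    rw [Matrix.det_fin_two] at hdet1
    have r00 := congrFun (congrFun hr 0) 0
    have r01 := congrFun (congrFun hr 0) 1
    have r10 := congrFun (congrFun hr 1) 0
    have r11 := congrFun (congrFun hr 1) 1
    simp only [rho, RL, Matrix.mul_apply, Fin.sum_univ_two, Matrix.of_apply, Matrix.cons_val',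
      Matrix.cons_val_zero, Matrix.cons_val_one, Matrix.cons_val_fin_one, hm, ← hξ] at r00 r01 r10 r11
    rw [hP' θ _ _ _ (per c (N - a)) ?_ ?_ ?_ ?_, hP0, mul_zero]
    · simp only [per, xn, Matrix.cons_val_zero]
      rw [r00]
      push_cast
      ring
    · simp [per, xn]
      rw [r10]
      push_cast
      ring
    · simp [per, xn]
      rw [r01]
      push_cast
      ring
    · have hreal : PhR c a (1 / (N : ℝ)) 0 0 * EE (1 - (c : ℝ) / ((N - a : ℕ) : ℝ)) =
          PhR c a (1 / (N : ℝ)) 0 0 * (ξ * PhR c a (1 / (N : ℝ)) 0 0 - PhR c a (1 / (N : ℝ)) 0 1 -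
            ξ * PhR c a (1 / (N : ℝ)) 1 0) + 1 +
            PhR c a (1 / (N : ℝ)) 1 0 * PhR c a (1 / (N : ℝ)) 0 1 := by
        linear_combination PhR c a (1 / (N : ℝ)) 0 0 * (r01 - r11) + hdet1
      have hc' := congrArg (fun t : ℝ => (t : ℂ)) hreal
      push_cast at hc'
      simpa [per, xn] using hc'

end Pool.Agent.LEG
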