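import Pool.Agent.LEG.Targets2

set_option autoImplicit false

/-!
# The family of monomials is a uniform family
-/

namespace Pool.Agent.LEG

open Finset
open scoped BigOperators

namespace FAMU_

/-- letters -/
abbrev Q4 : Type := Fin 2 × Fin 2

/-- words of length `n` or `n - 1` -/
abbrev Bl (n : ℕ) : Type := (Fin n → Q4) ⊕ (Fin (n - 1) → Q4)

/-- number of letters `p` -/
def cnt {m : ℕ} (w : Fin m → Q4) (p : Q4) : ℕ := (Finset.univ.filter fun s => w s = p).card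

theorem cnt_sum {m : ℕ} (w : Fin m → Q4) : ∑ p, cnt w p = m := by
  have h := Finset.card_eq_sum_card_fiberwise (f := w) (s := Finset.univ) (t := Finset.univ)
    (fun _ _ => Finset.mem_coe.2 (Finset.mem_univ _))
  rw [Finset.card_univ, Fintype.card_fin] at h
  exact h.symm

theorem cnt_le {m : ℕ} (w : Fin m → Q4) (p : Q4) : cnt w p ≤ m := by
  have h : cnt w p ≤ (Finset.univ : Finset (Fin m)).card := Finset.card_filter_le _ _
  rwa [Finset.card_univ, Fintype.card_fin] at h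

theorem cnt_prod {m : ℕ} (w : Fin m → Q4) (f : Q4 → PowerSeries ℚ) :
    ∏ s, f (w s) = ∏ p, f p ^ cnt w p := by
  rw [← Finset.prod_fiberwise' Finset.univ w f]
  refine Finset.prod_congr rfl fun p _ => ?_
  rw [Finset.prod_const]
  rfl

theorem cnt_surj {m : ℕ} (μ : Q4 → ℕ) (h : ∑ p, μ p = m) : ∃ w : Fin m → Q4, ∀ p, cnt w p = μ p := by
  have hc : Fintype.card (Σ p : Q4, Fin (μ p)) = m := by
    rw [Fintype.card_sigma]
    simpa using h
  let E : Fin m ≃ (Σ p : Q4, Fin (μ p)) := (Fintype.equivFinOfCardEq hc).symm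
  refine ⟨fun s => (E s).1, fun p => ?_⟩
  unfold cnt
  rw [← Fintype.card_subtype]
  have e1 : {s : Fin m // (E s).1 = p} ≃ {x : (Σ p : Q4, Fin (μ p)) // x.1 = p} :=
    E.subtypeEquiv fun s => Iff.rfl
  rw [Fintype.card_congr (e1.trans (Equiv.sigmaSubtype p)), Fintype.card_fin]

/-- letter counts of a word of length `n` or `n - 1` -/
def cb {n : ℕ} (b : Bl n) (p : Q4) : ℕ := b.elim (fun w => cnt w p) (fun w => cnt w p)

theorem cb_le {n : ℕ} (b : Bl n) (p : Q4) : cb b p ≤ n := by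
  rcases b with w | w
  · exact cnt_le w p
  · exact (cnt_le w p).trans (Nat.sub_le n 1)

theorem cb_sum {n : ℕ} (hn : 1 ≤ n) (b : Bl n) :
    (∑ p, cb b p = n) ∨ (∑ p, cb b p + 1 = n) := by
  rcases b with w | w
  · exact Or.inl (cnt_sum w)
  · right
    have : ∑ p, cb (n := n) (Sum.inr w) p = n - 1 := cnt_sum w
    rw [this]
    omega

/-- exponents -/
def qq {r n : ℕ} (hn : 1 ≤ n) (w : Fin r → Bl n) : Ix r n :=
  ⟨fun i p => ⟨cb (w i) p, Nat.lt_succ_of_le (cb_le (w i) p)⟩, fun i => cb_sum hn (w i)⟩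

theorem qq_surj {r n : ℕ} (hn : 1 ≤ n) : Function.Surjective (qq (r := r) hn) := by
  intro μ
  have h : ∀ i, ∃ b : Bl n, ∀ p, cb b p = (μ.1 i p : ℕ) := by
    intro i
    rcases μ.2 i with h | h
    · obtain ⟨w, hw⟩ := cnt_surj (fun p => (μ.1 i p : ℕ)) h
      exact ⟨Sum.inl w, hw⟩
    · obtain ⟨w, hw⟩ := cnt_surj (m := n - 1) (fun p => (μ.1 i p : ℕ)) (Nat.eq_sub_of_add_eq h)
      exact ⟨Sum.inr w, hw⟩
  choose b hb using h
  refine ⟨b, Subtype.ext ?_⟩
  funext i p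
  exact Fin.ext (hb i p)

/-- the functions of one block -/
noncomputable def gb (c a n : ℕ) : Bl n → PowerSeries ℚ :=
  Sum.elim (fun w => ∏ s, phi c a (w s)) (fun w => ∏ s, phi c a (w s))

theorem gb_eq (c a n : ℕ) (b : Bl n) : gb c a n b = ∏ p, phi c a p ^ cb b p := by
  rcases b with w | w
  · exact cnt_prod w (phi c a)
  · exact cnt_prod w (phi c a)

theorem prod_eq {c r n : ℕ} (a : Fin r → ℕ) (hn : 1 ≤ n) (w : Fin r → Bl n) :
    ∏ i, gb c (a i) n (w i) = ff c a n (qq hn w) := by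
  unfold ff
  refine Finset.prod_congr rfl fun i _ => ?_
  rw [gb_eq]
  rfl

theorem card_le (r n : ℕ) (hn : 1 ≤ n) : Fintype.card (Fin r → Bl n) + 1 ≤ 2 * 8 ^ (n * r) := by
  have h1 : Fintype.card (Fin r → Bl n) = (4 ^ n + 4 ^ (n - 1)) ^ r := by
    rw [Fintype.card_pi]
    simp
  have h2 : 4 ^ n + 4 ^ (n - 1) ≤ 2 * 4 ^ n := by
    have : 4 ^ (n - 1) ≤ 4 ^ n := Nat.pow_le_pow_right (by norm_num) (Nat.sub_le n 1)
    omega
  have h3 : 2 * 4 ^ n ≤ 8 ^ n := by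
    have h4 : 2 ≤ 2 ^ n := by
      calc 2 = 2 ^ 1 := by norm_num
        _ ≤ 2 ^ n := Nat.pow_le_pow_right (by norm_num) hn
    calc 2 * 4 ^ n ≤ 2 ^ n * 4 ^ n := Nat.mul_le_mul_right _ h4
      _ = 8 ^ n := by rw [← Nat.mul_pow]
  have h5 : (4 ^ n + 4 ^ (n - 1)) ^ r ≤ 8 ^ (n * r) := by
    rw [pow_mul]
    exact Nat.pow_le_pow_left (h2.trans h3) r
  have h6 : 1 ≤ 8 ^ (n * r) := Nat.one_le_pow _ _ (by norm_num)
  rw [h1]
  omega

/-- the final constants -/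
theorem const_le (K r n X : ℕ) (hK : 1 ≤ K) (hn : 1 ≤ n) (hX : 1 ≤ X) :
    (2 * 8 ^ (n * r)) * (2 * ((2 * (K * X) ^ K) ^ n * (2 * (K * X) ^ K) ^ n)) ^ r ≤
      ((2 * K * (r + 1) + 8 * r + 2) * X) ^ ((2 * K * (r + 1) + 8 * r + 2) * n) := by
  have h1 : (2 * 8 ^ (n * r)) * (2 * ((2 * (K * X) ^ K) ^ n * (2 * (K * X) ^ K) ^ n)) ^ r =
      2 ^ (1 + 3 * (n * r) + r + 2 * (n * r)) * (K * X) ^ (2 * K * n * r) := by
    have e8 : (8 : ℕ) = 2 ^ 3 := by norm_num
    rw [e8]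
    simp only [mul_pow, ← pow_mul]
    ring
  rw [h1]
  set C := 2 * K * (r + 1) + 8 * r + 2 with hC
  have hC1 : 2 * (K * X) ≤ C * X := by
    rw [← mul_assoc]
    refine Nat.mul_le_mul_right X ?_
    rw [hC]
    nlinarith
  have h2 : 2 ^ (1 + 3 * (n * r) + r + 2 * (n * r)) * (K * X) ^ (2 * K * n * r) ≤
      (2 * (K * X)) ^ (1 + 3 * (n * r) + r + 2 * (n * r)) * (2 * (K * X)) ^ (2 * K * n * r) := by
    refine Nat.mul_le_mul (Nat.pow_le_pow_left ?_ _) (Nat.pow_le_pow_left ?_ _)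
    · nlinarith [Nat.mul_le_mul hK hX]
    · omega
  refine h2.trans ?_
  rw [← pow_add]
  have hpos : 1 ≤ C * X := by
    have : 1 ≤ C := by rw [hC]; omega
    exact Nat.mul_le_mul this hX
  have h3 : 1 + 3 * (n * r) + r + 2 * (n * r) + 2 * K * n * r ≤ C * n := by
    rw [hC]
    have h4 : r ≤ r * n := Nat.le_mul_of_pos_right r hn
    have h5 : 0 ≤ K * n := Nat.zero_le _
    nlinarith
  calc (2 * (K * X)) ^ (1 + 3 * (n * r) + r + 2 * (n * r) + 2 * K * n * r)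
      ≤ (C * X) ^ (1 + 3 * (n * r) + r + 2 * (n * r) + 2 * K * n * r) :=
        Nat.pow_le_pow_left hC1 _
    _ ≤ (C * X) ^ (C * n) := Nat.pow_le_pow_right hpos h3

theorem deg_le (K r n : ℕ) (hn : 1 ≤ n) :
    2 * (K * n + 1) * r + 1 ≤ (2 * K * (r + 1) + 8 * r + 2) * n := by
  have h4 : r ≤ r * n := Nat.le_mul_of_pos_right r hn
  have h5 : 0 ≤ K * n := Nat.zero_le _
  nlinarith

end FAMU_

open FAMU_ in
/-- the family of monomials -/
theorem p_FAMU (h1 : T_BLKU) (h2 : T_UMONO) (h3 : T_USUM) (h4 : T_UPI) (h5 : T_USUB)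
    (h6 : T_INDU) : T_FAMU := by
  classical
  intro c r hc
  obtain ⟨C0, hC0⟩ := h1 c r hc
  set K := C0 + 1 with hK
  refine ⟨2 * K * (r + 1) + 8 * r + 2, ?_⟩
  intro n A N a hn hinj haA hN
  have hN1 : 1 ≤ N := by omega
  set X := A + 1 with hX
  set T := TR c a with hT
  set C1 := (K * X) ^ K with hC1
  have hC1pos : 1 ≤ C1 := Nat.one_le_pow _ _ (by positivity)
  -- one block
  have g1 : ∀ i, UG T (phi c (a i)) N C1 K := by
    intro i
    refine h2.1 _ T _ N ((C0 * (A + 1)) ^ C0) C0 C1 K hN1 ?_ (by omega) (hC0 A N a haA hN i)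
    rw [hC1]
    calc (C0 * (A + 1)) ^ C0 ≤ (K * X) ^ C0 :=
          Nat.pow_le_pow_left (Nat.mul_le_mul (by omega) le_rfl) _
      _ ≤ (K * X) ^ K := Nat.pow_le_pow_right (by positivity) (by omega)
  -- words
  have g2 : ∀ i, UG T (fun w : Fin n → Q4 => ∏ s, phi c (a i) (w s)) N ((2 * C1) ^ n)
      (K * n + 1) := by
    intro i
    have := h4 (Fin n) Q4 T (fun _ => phi c (a i)) N C1 K hN1 hC1pos (by omega) (fun _ => g1 i)
    simpa using this
  have g3 : ∀ i, UG T (fun w : Fin (n - 1) → Q4 => ∏ s, phi c (a i) (w s)) N ((2 * C1) ^ n)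
      (K * n + 1) := by
    intro i
    have := h4 (Fin (n - 1)) Q4 T (fun _ => phi c (a i)) N C1 K hN1 hC1pos (by omega)
      (fun _ => g1 i)
    rw [Fintype.card_fin] at this
    refine h2.1 _ T _ N _ _ _ _ hN1 ?_ ?_ this
    · exact Nat.pow_le_pow_right (by omega) (Nat.sub_le n 1)
    · have : K * (n - 1) ≤ K * n := Nat.mul_le_mul_left K (Nat.sub_le n 1)
      omega
  have g4 : ∀ i, UG T (gb c (a i) n) N ((2 * C1) ^ n * (2 * C1) ^ n) (2 * (K * n + 1)) :=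
    fun i => h3 _ _ T _ _ N _ _ hN1 (g2 i) (g3 i)
  have hpos2 : 1 ≤ (2 * C1) ^ n * (2 * C1) ^ n := by
    have : 1 ≤ (2 * C1) ^ n := Nat.one_le_pow _ _ (by omega)
    exact Nat.mul_le_mul this this
  have g5 := h4 (Fin r) (Bl n) T (fun i => gb c (a i) n) N _ _ hN1 hpos2 (by omega) g4
  -- remove repetitions
  obtain ⟨e, he⟩ := (qq_surj (r := r) hn).hasRightInverse
  have hG : (fun p : Ix r n => (fun w : Fin r → Bl n => ∏ i, gb c (a i) n (w i)) (e p)) =
      ff c a n := by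
    funext p
    simp only
    rw [prod_eq a hn, he p]
  have g6 := h5 (Fin r → Bl n) (Ix r n) T (fun w => ∏ i, gb c (a i) n (w i)) N _ _ e (qq hn) hN1
    he (fun w => by simp only [prod_eq a hn]; rw [he]) (by
      rw [hG]
      exact h6 c r n a hc hn hinj) g5
  rw [hG] at g6
  refine h2.1 _ T _ N _ _ _ _ hN1 ?_ ?_ g6
  · rw [Fintype.card_fin]
    refine le_trans (Nat.mul_le_mul_right _ (card_le r n hn)) ?_
    exact const_le K r n X (by omega) hn (by omega)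
  · rw [Fintype.card_fin]
    exact deg_le K r n hn

end Pool.Agent.LEG
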