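import Pool.Agent.LEG.Targets2
import Pool.Agent.LEG.GRING
import Pool.Agent.LEG.GSH
import Pool.Agent.LEG.GLO
import Pool.Agent.LEG.GF
import Pool.Agent.LEG.GPHI

set_option autoImplicit false

/-!
# GPHIU: sizes and denominators of the functions of a block, polynomial in the shift
-/

namespace Pool.Agent.LEG

open Finset
open scoped BigOperators Topology

namespace GPHIU_

open GSH_ in
lemma subst_sh (c a C : ℕ) (f : PowerSeries ℚ) (hC : IsGC C f) :
    IsGC (2 * C * (2 * (c + a) + 1)) (f.subst (sh c a)) := by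
  have hC1 : 1 ≤ C := by
    obtain ⟨-, d, hd, hd2, -⟩ := hC 0
    rw [zero_add, pow_one] at hd2
    omega
  choose x hx1 hx2 hx3 using pc c a
  have hcoef : ∀ s, PowerSeries.coeff s (f.subst (sh c a)) =
      ∑ m ∈ range (s + 1), PowerSeries.coeff m f * ((x m s : ℕ) : ℚ) := by
    intro s
    rw [PowerSeries.coeff_subst' (hasSubst_sh c a), finsum_eq_sum_of_support_subset (s := range (s + 1))]
    · refine Finset.sum_congr rfl fun m _ => ?_
      rw [hx1, smul_eq_mul]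
    · intro m hm
      rw [Function.mem_support] at hm
      rw [Finset.coe_range, Set.mem_Iio]
      by_contra hcon
      apply hm
      rw [hx1, hx3 m s (by omega)]
      simp
  refine fun n => ⟨?_, ?_⟩
  · rw [hcoef]
    have hCQ : (1 : ℚ) ≤ C := by exact_mod_cast hC1
    have h1 : ∀ m ∈ range (n + 1), |PowerSeries.coeff m f * ((x m n : ℕ) : ℚ)| ≤
        (C : ℚ) ^ (n + 1) * (2 * ((c : ℚ) + a) + 1) ^ (n + 1) := by
      intro m hm
      have hm' : m ≤ n := Nat.lt_succ_iff.1 (Finset.mem_range.1 hm)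
      rw [abs_mul]
      have e1 : |PowerSeries.coeff m f| ≤ (C : ℚ) ^ (n + 1) :=
        (hC m).1.trans (pow_le_pow_right₀ hCQ (by omega))
      have e2 : |((x m n : ℕ) : ℚ)| ≤ (2 * ((c : ℚ) + a) + 1) ^ (n + 1) := by
        rw [abs_of_nonneg (Nat.cast_nonneg _)]
        have e3 : ((x m n : ℕ) : ℚ) ≤ (2 * ((c : ℚ) + a)) ^ n := by exact_mod_cast hx2 m n
        refine e3.trans ?_
        calc (2 * ((c : ℚ) + a)) ^ n ≤ (2 * ((c : ℚ) + a) + 1) ^ n :=
              pow_le_pow_left₀ (by positivity) (by linarith) n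
          _ ≤ (2 * ((c : ℚ) + a) + 1) ^ (n + 1) :=
              pow_le_pow_right₀ (by
                have : (0 : ℚ) ≤ 2 * ((c : ℚ) + a) := by positivity
                linarith) (Nat.le_succ n)
      exact mul_le_mul e1 e2 (abs_nonneg _) (by positivity)
    calc |∑ m ∈ range (n + 1), PowerSeries.coeff m f * ((x m n : ℕ) : ℚ)|
        ≤ ∑ m ∈ range (n + 1), |PowerSeries.coeff m f * ((x m n : ℕ) : ℚ)| :=
          Finset.abs_sum_le_sum_abs _ _
      _ ≤ ∑ _m ∈ range (n + 1), (C : ℚ) ^ (n + 1) * (2 * ((c : ℚ) + a) + 1) ^ (n + 1) :=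
          Finset.sum_le_sum h1
      _ = ((n + 1 : ℕ) : ℚ) * ((C : ℚ) ^ (n + 1) * (2 * ((c : ℚ) + a) + 1) ^ (n + 1)) := by
          rw [Finset.sum_const, Finset.card_range, nsmul_eq_mul]
      _ ≤ (2 : ℚ) ^ (n + 1) * ((C : ℚ) ^ (n + 1) * (2 * ((c : ℚ) + a) + 1) ^ (n + 1)) := by
          refine mul_le_mul_of_nonneg_right ?_ (by positivity)
          exact_mod_cast (Nat.lt_two_pow_self (n := n + 1)).le
      _ = ((2 * C * (2 * (c + a) + 1) : ℕ) : ℚ) ^ (n + 1) := by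
          push_cast
          rw [mul_pow, mul_pow]
          ring
  · obtain ⟨-, d, hd, hd2, hd3⟩ := hC n
    refine ⟨d, hd, hd2.trans (Nat.pow_le_pow_left ?_ _), fun s hs => ?_⟩
    · nlinarith [Nat.zero_le (c + a)]
    · have h1 : ∀ m, m ≤ n → ∃ z : ℤ, (d : ℚ) * PowerSeries.coeff m f = z := hd3
      choose! z hz using h1
      refine ⟨∑ m ∈ range (s + 1), z m * (x m s : ℤ), ?_⟩
      rw [hcoef, Finset.mul_sum]
      push_cast
      refine Finset.sum_congr rfl fun m hm => ?_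
      have hm' : m ≤ n := by
        have := Finset.mem_range.1 hm
        omega
      rw [← mul_assoc, hz m hm']


lemma lo_bd (a : ℕ) : IsGC (a + 220) (lo a) := by
  refine fun n => ⟨?_, Nat.lcmUpto n, Nat.lcmUpto_pos n, ?_, ?_⟩
  · have ha : (0 : ℚ) ≤ a := Nat.cast_nonneg a
    simp only [lo, PowerSeries.coeff_mk, abs_neg]
    rw [abs_of_nonneg (by positivity)]
    have h1 : (a : ℚ) ^ n / n ≤ (a : ℚ) ^ n := by
      rcases Nat.eq_zero_or_pos n with rfl | hn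
      · simp
      · refine div_le_self (by positivity) ?_
        exact_mod_cast hn
    refine h1.trans ?_
    have h2 : (a : ℚ) ^ n ≤ ((a + 220 : ℕ) : ℚ) ^ n := by
      refine pow_le_pow_left₀ ha ?_ n
      push_cast
      linarith
    refine h2.trans (pow_le_pow_right₀ ?_ (Nat.le_succ n))
    push_cast
    linarith
  · refine (GLO_.lcm_bound n).trans ?_
    refine (Nat.pow_le_pow_left (Nat.le_add_left 220 a) n).trans ?_
    exact Nat.pow_le_pow_right (by omega) (Nat.le_succ n)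
  · intro s hs
    simp only [lo, PowerSeries.coeff_mk]
    rcases Nat.eq_zero_or_pos s with rfl | h0
    · exact ⟨0, by simp⟩
    · obtain ⟨t, ht⟩ := GLO_.dvd_lcm h0 hs
      refine ⟨-(t * a ^ s), ?_⟩
      rw [ht]
      have : (s : ℚ) ≠ 0 := by exact_mod_cast h0.ne'
      push_cast
      field_simp


lemma add {C C' : ℕ} {f g : PowerSeries ℚ} (hC : IsGC C f) (hC' : IsGC C' g) :
    IsGC ((C + 1) * (C' + 1)) (f + g) := by
  have h1 : 1 ≤ C := GRING_.one_le_of_GC hC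
  have h1' : 1 ≤ C' := GRING_.one_le_of_GC hC'
  intro n
  obtain ⟨b, d, hd, hdC, hx⟩ := hC n
  obtain ⟨b', d', hd', hdC', hx'⟩ := hC' n
  refine ⟨?_, d * d', Nat.mul_pos hd hd', ?_, fun s hs => ?_⟩
  · have e1 : (C : ℕ) ^ (n + 1) + C' ^ (n + 1) ≤ ((C + 1) * (C' + 1)) ^ (n + 1) := by
      calc C ^ (n + 1) + C' ^ (n + 1) ≤ (C + C') ^ (n + 1) := pow_add_pow_le (Nat.zero_le _) (Nat.zero_le _) (by omega)
        _ ≤ ((C + 1) * (C' + 1)) ^ (n + 1) := Nat.pow_le_pow_left (by nlinarith) _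
    rw [map_add]
    calc |PowerSeries.coeff n f + PowerSeries.coeff n g|
        ≤ |PowerSeries.coeff n f| + |PowerSeries.coeff n g| := abs_add_le _ _
      _ ≤ (C : ℚ) ^ (n + 1) + (C' : ℚ) ^ (n + 1) := add_le_add b b'
      _ ≤ (((C + 1) * (C' + 1) : ℕ) : ℚ) ^ (n + 1) := by exact_mod_cast e1
  · calc d * d' ≤ C ^ (n + 1) * C' ^ (n + 1) := Nat.mul_le_mul hdC hdC'
      _ = (C * C') ^ (n + 1) := (mul_pow _ _ _).symm
      _ ≤ ((C + 1) * (C' + 1)) ^ (n + 1) := Nat.pow_le_pow_left (by nlinarith) _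
  · obtain ⟨x, hx⟩ := hx s hs
    obtain ⟨x', hx'⟩ := hx' s hs
    refine ⟨d' * x + d * x', ?_⟩
    rw [map_add]
    push_cast
    rw [← hx, ← hx']
    ring

lemma mul {C C' : ℕ} {f g : PowerSeries ℚ} (hC : IsGC C f) (hC' : IsGC C' g) :
    IsGC (2 * (C * C')) (f * g) := by
  have h1 : 1 ≤ C := GRING_.one_le_of_GC hC
  have h1' : 1 ≤ C' := GRING_.one_le_of_GC hC'
  have q1 : (1 : ℚ) ≤ C := by exact_mod_cast h1
  have q1' : (1 : ℚ) ≤ C' := by exact_mod_cast h1'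
  intro n
  obtain ⟨-, d, hd, hdC, hx⟩ := hC n
  obtain ⟨-, d', hd', hdC', hx'⟩ := hC' n
  refine ⟨?_, d * d', Nat.mul_pos hd hd', ?_, fun s hs => ?_⟩
  · rw [PowerSeries.coeff_mul]
    have e1 : ∀ p ∈ antidiagonal n, |PowerSeries.coeff p.1 f * PowerSeries.coeff p.2 g| ≤
        (C : ℚ) ^ (n + 1) * (C' : ℚ) ^ (n + 1) := by
      intro p hp
      have hp' := Finset.HasAntidiagonal.mem_antidiagonal.mp hp
      rw [abs_mul]
      refine mul_le_mul ?_ ?_ (abs_nonneg _) (by positivity)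
      · exact (hC p.1).1.trans (pow_le_pow_right₀ q1 (by omega))
      · exact (hC' p.2).1.trans (pow_le_pow_right₀ q1' (by omega))
    have e2 : ((n : ℚ) + 1) ≤ 2 ^ (n + 1) := by exact_mod_cast GRING_.lt_two_pow' n
    calc |∑ p ∈ antidiagonal n, PowerSeries.coeff p.1 f * PowerSeries.coeff p.2 g|
        ≤ ∑ p ∈ antidiagonal n, |PowerSeries.coeff p.1 f * PowerSeries.coeff p.2 g| :=
          Finset.abs_sum_le_sum_abs _ _
      _ ≤ ∑ p ∈ antidiagonal n, (C : ℚ) ^ (n + 1) * (C' : ℚ) ^ (n + 1) :=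
          Finset.sum_le_sum e1
      _ = ((n : ℚ) + 1) * ((C : ℚ) ^ (n + 1) * (C' : ℚ) ^ (n + 1)) := by
          rw [Finset.sum_const, Finset.Nat.card_antidiagonal, nsmul_eq_mul]
          push_cast
          ring
      _ ≤ 2 ^ (n + 1) * ((C : ℚ) ^ (n + 1) * (C' : ℚ) ^ (n + 1)) := by
          refine mul_le_mul_of_nonneg_right e2 (by positivity)
      _ = ((2 * (C * C') : ℕ) : ℚ) ^ (n + 1) := by
          push_cast
          rw [mul_pow, mul_pow]
  · calc d * d' ≤ C ^ (n + 1) * C' ^ (n + 1) := Nat.mul_le_mul hdC hdC'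
      _ = (C * C') ^ (n + 1) := (mul_pow _ _ _).symm
      _ ≤ (2 * (C * C')) ^ (n + 1) := Nat.pow_le_pow_left (by omega) _
  · choose! x hx using hx
    choose! x' hx' using hx'
    refine ⟨∑ p ∈ antidiagonal s, x p.1 * x' p.2, ?_⟩
    rw [PowerSeries.coeff_mul, Finset.mul_sum]
    push_cast
    refine Finset.sum_congr rfl fun p hp => ?_
    have hp' := Finset.HasAntidiagonal.mem_antidiagonal.mp hp
    rw [← hx p.1 (by omega), ← hx' p.2 (by omega)]
    ring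

lemma mono {C C' : ℕ} {f : PowerSeries ℚ} (h : IsGC C f) (hC : C ≤ C') : IsGC C' f := by
  intro n
  obtain ⟨b, d, hd, hdC, hx⟩ := h n
  refine ⟨b.trans ?_, d, hd, hdC.trans (Nat.pow_le_pow_left hC _), hx⟩
  exact pow_le_pow_left₀ (Nat.cast_nonneg _) (by exact_mod_cast hC) _

end GPHIU_

open GPHIU_ in
theorem p_GPHIU : T_GPHIU := by
  intro c
  have hFH : ∀ i j, ∃ C, IsGC C (FH i j) := fun i j => GPHI_.fh p_GRING p_GF i j
  choose D hD using hFH
  obtain ⟨E1, hE1⟩ : ∃ C, IsGC C (PowerSeries.C (1 / 2 : ℚ)) :=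
    GPHI_.poly p_GRING _ (Polynomial.C (1 / 2 : ℚ)) (by simp)
  obtain ⟨E2, hE2⟩ : ∃ C, IsGC C (PowerSeries.C (-1 : ℚ)) :=
    GPHI_.poly p_GRING _ (Polynomial.C (-1 : ℚ)) (by simp)
  obtain ⟨K, hDK, hK1, hE1K, hE2K⟩ : ∃ K : ℕ, (∀ i j, D i j ≤ K) ∧ 1 ≤ K ∧ E1 ≤ K ∧ E2 ≤ K := by
    refine ⟨(∑ i, ∑ j, D i j) + E1 + E2 + 1, fun i j => ?_, by omega, by omega, by omega⟩
    have h1 : D i j ≤ ∑ j, D i j := Finset.single_le_sum (f := fun j => D i j)
      (fun _ _ => Nat.zero_le _) (Finset.mem_univ j)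
    have h2 : ∑ j, D i j ≤ ∑ i, ∑ j, D i j := Finset.single_le_sum (f := fun i => ∑ j, D i j)
      (fun _ _ => Nat.zero_le _) (Finset.mem_univ i)
    omega
  obtain ⟨L, hL⟩ : ∃ L : ℕ, L = 2 * K * (2 * c + 222) := ⟨_, rfl⟩
  have hL0 : K * 444 ≤ L := by
    rw [hL]
    nlinarith
  refine ⟨16 * L + 16, fun a p => ?_⟩
  obtain ⟨X, hX⟩ : ∃ X : ℕ, X = L * (a + 1) := ⟨_, rfl⟩
  have hLX : L ≤ X := by
    rw [hX]
    exact Nat.le_mul_of_pos_right L (Nat.succ_pos a)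
  have hX1 : 1 ≤ X := by omega
  have hsub : ∀ i j, IsGC X ((FH i j).subst (sh c a)) := by
    intro i j
    refine mono (subst_sh c a (D i j) _ (hD i j)) ?_
    have h1 : 2 * (c + a) + 1 ≤ (2 * c + 222) * (a + 1) := by nlinarith [Nat.zero_le (c * a)]
    calc 2 * D i j * (2 * (c + a) + 1) ≤ 2 * K * ((2 * c + 222) * (a + 1)) :=
          Nat.mul_le_mul (Nat.mul_le_mul_left 2 (hDK i j)) h1
      _ = X := by rw [hX, hL]; ring
  have hE1' : IsGC X (PowerSeries.C (1 / 2 : ℚ)) := mono hE1 (by omega)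
  have hE2' : IsGC X (PowerSeries.C (-1 : ℚ)) := mono hE2 (by omega)
  have hlo : IsGC X (lo a) := by
    refine mono (lo_bd a) ?_
    have h222 : 222 ≤ L := by omega
    have h3 : 222 * (a + 1) ≤ L * (a + 1) := Nat.mul_le_mul_right (a + 1) h222
    rw [hX]
    omega
  have hfin : ∀ {f : PowerSeries ℚ}, IsGC ((16 * X) ^ 8) f →
      IsGC (((16 * L + 16) * (a + 1)) ^ (16 * L + 16)) f := by
    intro f hf
    refine mono hf ?_
    obtain ⟨Y, hY⟩ : ∃ Y : ℕ, Y = (16 * L + 16) * (a + 1) := ⟨_, rfl⟩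
    obtain ⟨e, he⟩ : ∃ e : ℕ, e = 16 * L + 16 := ⟨_, rfl⟩
    have h16 : 16 * X ≤ Y := by
      rw [hY, hX, ← mul_assoc]
      exact Nat.mul_le_mul_right (a + 1) (Nat.le_add_right _ _)
    have h8 : 8 ≤ e := by omega
    have hY1 : 1 ≤ Y := by omega
    rw [← hY, ← he]
    exact (Nat.pow_le_pow_left h16 8).trans (Nat.pow_le_pow_right hY1 h8)
  unfold phi
  split_ifs with h
  · refine hfin (mono (hsub p.1 0) ?_)
    have h1 : X ≤ 16 * X := by omega
    exact h1.trans (Nat.le_self_pow (by norm_num) _)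
  · have e : (FH p.1 1).subst (sh c a) -
        PowerSeries.C (1 / 2 : ℚ) * (FH p.1 0).subst (sh c a) * lo a =
        (FH p.1 1).subst (sh c a) + PowerSeries.C (-1 : ℚ) *
          (PowerSeries.C (1 / 2 : ℚ) * (FH p.1 0).subst (sh c a) * lo a) := by
      rw [map_neg, map_one]
      ring
    rw [e]
    refine hfin (mono (add (hsub p.1 1) (mul hE2' (mul (mul hE1' (hsub p.1 0)) hlo))) ?_)
    have h2 : X + 1 ≤ 2 * X := by omega
    have hX4 : 1 ≤ X ^ 4 := Nat.one_le_pow _ _ hX1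
    have h3 : 2 * (X * (2 * (2 * (X * X) * X))) + 1 ≤ 9 * X ^ 4 := by
      have : 2 * (X * (2 * (2 * (X * X) * X))) = 8 * X ^ 4 := by ring
      omega
    have h4 : (2 * X) * (9 * X ^ 4) = 18 * X ^ 5 := by ring
    have h5 : X ^ 5 ≤ X ^ 8 := Nat.pow_le_pow_right hX1 (by norm_num)
    have h6 : (16 * X) ^ 8 = 16 ^ 8 * X ^ 8 := mul_pow _ _ _
    have h7 : (18 : ℕ) ≤ 16 ^ 8 := by norm_num
    rw [h6]
    exact ((Nat.mul_le_mul h2 h3).trans h4.le).trans (Nat.mul_le_mul h7 h5)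

end Pool.Agent.LEG
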