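import Pool.Agent.LEG.Targets2

set_option autoImplicit false

/-!
# Target GTU: no relation of bounded degree between the values, explicit
-/

namespace Pool.Agent.LEG

open Finset
open scoped BigOperators Topology

namespace GTU_

/-- the three functions used -/
def idx (j : Fin 3) : Fin 2 × Fin 2 := ![(0, 0), (1, 0), (0, 1)] j

/-- weights -/
def wt (r : ℕ) (v : Fin r × Fin 2 × Fin 2) : Fin r → ℕ := Pi.single v.1 1

/-- the determinant of a block -/
noncomputable def dt {r : ℕ} (i : Fin r) : MvPolynomial (Fin r × Fin 2 × Fin 2) ℤ :=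
  MvPolynomial.X (i, 0, 0) * MvPolynomial.X (i, 1, 1) -
    MvPolynomial.X (i, 1, 0) * MvPolynomial.X (i, 0, 1)

/-- the degree of a monomial in a block -/
def bdg {r : ℕ} (d : Fin r × Fin 3 →₀ ℕ) (i : Fin r) : ℕ := ∑ j, d (i, j)

/-- the homogenised monomial -/
noncomputable def hm {r : ℕ} (n : ℕ) (d : Fin r × Fin 3 →₀ ℕ) :
    MvPolynomial (Fin r × Fin 2 × Fin 2) ℤ :=
  ∏ i, ((∏ j, MvPolynomial.X (i, idx j) ^ d (i, j)) * dt i ^ ((n - bdg d i) / 2))

theorem dt_hom {r : ℕ} (i : Fin r) :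
    MvPolynomial.IsWeightedHomogeneous (wt r) (dt i) (Pi.single i 2 : Fin r → ℕ) := by
  have hX : ∀ v : Fin r × Fin 2 × Fin 2, MvPolynomial.IsWeightedHomogeneous (R := ℤ) (wt r)
      (MvPolynomial.X v) (Pi.single v.1 1 : Fin r → ℕ) :=
    fun v => MvPolynomial.isWeightedHomogeneous_X ℤ (wt r) v
  have h2 : (Pi.single i 1 + Pi.single i 1 : Fin r → ℕ) = Pi.single i 2 := by
    rw [← Pi.single_add]
  have h3 := (hX (i, 0, 0)).mul (hX (i, 1, 1))
  have h4 := (hX (i, 1, 0)).mul (hX (i, 0, 1))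
  simp only [h2] at h3 h4
  unfold dt
  rw [sub_eq_add_neg]
  have h5 : MvPolynomial.IsWeightedHomogeneous (wt r)
      (-(MvPolynomial.X (i, 1, 0) * MvPolynomial.X (i, 0, 1) :
        MvPolynomial (Fin r × Fin 2 × Fin 2) ℤ)) (Pi.single i 2 : Fin r → ℕ) :=
    (MvPolynomial.weightedHomogeneousSubmodule ℤ (wt r) _).neg_mem h4
  exact h3.add h5

theorem hm_hom {r : ℕ} (n : ℕ) (d : Fin r × Fin 3 →₀ ℕ) :
    MvPolynomial.IsWeightedHomogeneous (wt r) (hm n d)
      (fun i => bdg d i + 2 * ((n - bdg d i) / 2)) := by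
  have h : ∀ i ∈ (Finset.univ : Finset (Fin r)), MvPolynomial.IsWeightedHomogeneous (wt r)
      ((∏ j, MvPolynomial.X (i, idx j) ^ d (i, j)) * dt i ^ ((n - bdg d i) / 2))
      (Pi.single i (bdg d i + 2 * ((n - bdg d i) / 2)) : Fin r → ℕ) := by
    intro i _
    have h1 : MvPolynomial.IsWeightedHomogeneous (R := ℤ) (wt r)
        (∏ j, MvPolynomial.X (i, idx j) ^ d (i, j)) (∑ j, d (i, j) • (Pi.single i 1 : Fin r → ℕ)) :=
      MvPolynomial.IsWeightedHomogeneous.prod Finset.univ _ _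
        (fun j _ => (MvPolynomial.isWeightedHomogeneous_X ℤ (wt r) (i, idx j)).pow (d (i, j)))
    have h2 := (dt_hom i).pow ((n - bdg d i) / 2)
    have h3 := h1.mul h2
    have e : (∑ j, d (i, j) • (Pi.single i 1 : Fin r → ℕ)) +
        ((n - bdg d i) / 2) • (Pi.single i 2 : Fin r → ℕ) =
        Pi.single i (bdg d i + 2 * ((n - bdg d i) / 2)) := by
      rw [← Finset.sum_smul]
      funext k
      by_cases hk : k = i
      · subst hk
        simp [bdg, mul_comm]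
      · simp [hk]
    rw [e] at h3
    exact h3
  have h4 := MvPolynomial.IsWeightedHomogeneous.prod Finset.univ _ _ h
  have e2 : (∑ i, (Pi.single i (bdg d i + 2 * ((n - bdg d i) / 2)) : Fin r → ℕ)) =
      fun i => bdg d i + 2 * ((n - bdg d i) / 2) :=
    Finset.univ_sum_single (fun i => bdg d i + 2 * ((n - bdg d i) / 2))
  rw [e2] at h4
  exact h4

theorem weight_wt {r : ℕ} (m : Fin r × Fin 2 × Fin 2 →₀ ℕ) (i : Fin r) :
    (Finsupp.weight (wt r) m) i = ∑ p, m (i, p) := by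
  rw [Finsupp.weight_apply, Finsupp.sum_fintype _ _ (fun v => by simp), Finset.sum_apply,
    Fintype.sum_prod_type]
  rw [Finset.sum_eq_single i]
  · refine Finset.sum_congr rfl (fun p _ => ?_)
    simp [wt]
  · intro k _ hk
    refine Finset.sum_eq_zero (fun p _ => ?_)
    simp [wt, hk.symm]
  · intro h
    exact absurd (Finset.mem_univ _) h

/-- the homogenised polynomial -/
noncomputable def hW {r : ℕ} (n : ℕ) (W : MvPolynomial (Fin r × Fin 3) ℤ) :
    MvPolynomial (Fin r × Fin 2 × Fin 2) ℤ :=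
  ∑ d ∈ W.support, MvPolynomial.C (W.coeff d) * hm n d

/-- exponents of `Ix` as finitely supported functions -/
noncomputable def toF {r n : ℕ} (μ : Ix r n) : Fin r × Fin 2 × Fin 2 →₀ ℕ :=
  Finsupp.equivFunOnFinite.symm (fun v => (μ.1 v.1 v.2 : ℕ))

theorem toF_apply {r n : ℕ} (μ : Ix r n) (v : Fin r × Fin 2 × Fin 2) :
    toF μ v = (μ.1 v.1 v.2 : ℕ) := rfl

theorem toF_inj {r n : ℕ} : Function.Injective (toF (r := r) (n := n)) := by
  intro μ ν h
  apply Subtype.ext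
  funext i p
  apply Fin.ext
  have := congrArg (fun f => f (i, p)) h
  simpa [toF_apply] using this

theorem mem_range {r : ℕ} (B : ℕ) (W : MvPolynomial (Fin r × Fin 3) ℤ)
    (hWB : ∀ v, W.degreeOf v ≤ B) (m : Fin r × Fin 2 × Fin 2 →₀ ℕ)
    (hm' : (hW (3 * B + 1) W).coeff m ≠ 0) : ∃ μ : Ix r (3 * B + 1), toF μ = m := by
  have h1 : ∃ d ∈ W.support, (hm (3 * B + 1) d).coeff m ≠ 0 := by
    by_contra hcon
    push Not at hcon
    apply hm'
    unfold hW
    rw [MvPolynomial.coeff_sum]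
    refine Finset.sum_eq_zero (fun d hd => ?_)
    rw [MvPolynomial.coeff_C_mul, hcon d hd, mul_zero]
  obtain ⟨d, hd, h2⟩ := h1
  have h3 := hm_hom (3 * B + 1) d h2
  have hb : ∀ i, bdg d i ≤ 3 * B := by
    intro i
    unfold bdg
    calc ∑ j, d (i, j) ≤ ∑ _j : Fin 3, B := Finset.sum_le_sum (fun j _ =>
          (MvPolynomial.monomial_le_degreeOf (i, j) hd).trans (hWB _))
      _ = 3 * B := by simp
  have h4 : ∀ i, ∑ p, m (i, p) = bdg d i + 2 * ((3 * B + 1 - bdg d i) / 2) := by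
    intro i
    rw [← weight_wt, h3]
  have h5 : ∀ i, (∑ p, m (i, p) = 3 * B + 1) ∨ (∑ p, m (i, p) + 1 = 3 * B + 1) := by
    intro i
    have := h4 i
    have := hb i
    omega
  have h6 : ∀ i p, m (i, p) < 3 * B + 1 + 1 := by
    intro i p
    have h7 : m (i, p) ≤ ∑ p, m (i, p) :=
      Finset.single_le_sum (f := fun p => m (i, p)) (fun _ _ => Nat.zero_le _) (Finset.mem_univ p)
    have := h5 i
    omega
  refine ⟨⟨fun i p => ⟨m (i, p), h6 i p⟩, fun i => h5 i⟩, ?_⟩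
  ext v
  rfl

theorem ev_hW {r : ℕ} (B : ℕ) (W : MvPolynomial (Fin r × Fin 3) ℤ)
    (hWB : ∀ v, W.degreeOf v ≤ B) (Y : Fin r → Fin 2 × Fin 2 → ℝ) :
    MvPolynomial.aeval (fun v : Fin r × Fin 2 × Fin 2 => Y v.1 v.2) (hW (3 * B + 1) W) =
      ∑ μ : Ix r (3 * B + 1), (((hW (3 * B + 1) W).coeff (toF μ) : ℤ) : ℝ) *
        ∏ i, ∏ p, Y i p ^ (μ.1 i p : ℕ) := by
  classical
  rw [MvPolynomial.aeval_def, MvPolynomial.eval₂_eq']
  have e1 : ∑ μ : Ix r (3 * B + 1), (((hW (3 * B + 1) W).coeff (toF μ) : ℤ) : ℝ) *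
        ∏ i, ∏ p, Y i p ^ (μ.1 i p : ℕ) =
      ∑ m ∈ Finset.univ.image (toF (r := r) (n := 3 * B + 1)),
        (((hW (3 * B + 1) W).coeff m : ℤ) : ℝ) * ∏ v, Y v.1 v.2 ^ m v := by
    rw [Finset.sum_image (fun a _ b _ h => toF_inj h)]
    refine Finset.sum_congr rfl (fun μ _ => ?_)
    rw [Fintype.prod_prod_type]
    rfl
  rw [e1]
  apply Finset.sum_subset_zero_on_sdiff
  · intro m hm1
    rw [MvPolynomial.mem_support_iff] at hm1
    obtain ⟨μ, hμ⟩ := mem_range B W hWB m hm1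
    exact Finset.mem_image.2 ⟨μ, Finset.mem_univ _, hμ⟩
  · intro m hm2
    rw [Finset.mem_sdiff, MvPolynomial.mem_support_iff, not_not] at hm2
    rw [hm2.2]
    simp
  · intro m _
    rfl

theorem ev_hW' {r : ℕ} (n : ℕ) (W : MvPolynomial (Fin r × Fin 3) ℤ)
    (Y : Fin r → Fin 2 × Fin 2 → ℝ)
    (hdet : ∀ i, Y i (0, 0) * Y i (1, 1) - Y i (1, 0) * Y i (0, 1) = 1) :
    MvPolynomial.aeval (fun v : Fin r × Fin 2 × Fin 2 => Y v.1 v.2) (hW n W) =
      MvPolynomial.aeval (fun v : Fin r × Fin 3 => Y v.1 (idx v.2)) W := by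
  unfold hW
  rw [map_sum]
  conv_rhs => rw [MvPolynomial.aeval_def, MvPolynomial.eval₂_eq']
  refine Finset.sum_congr rfl (fun d _ => ?_)
  rw [map_mul]
  congr 1
  · simp
  · unfold hm dt
    rw [map_prod, Fintype.prod_prod_type]
    refine Finset.prod_congr rfl (fun i _ => ?_)
    rw [map_mul, map_pow, map_sub, map_mul, map_mul]
    simp only [MvPolynomial.aeval_X, map_prod, map_pow]
    rw [hdet i, one_pow, mul_one]

/-- if the homogenised polynomial has no nonzero coefficient then the polynomial is zero -/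
theorem zero_of_coeff {r : ℕ} (B : ℕ) (W : MvPolynomial (Fin r × Fin 3) ℤ)
    (hWB : ∀ v, W.degreeOf v ≤ B)
    (h : ∀ μ : Ix r (3 * B + 1), (hW (3 * B + 1) W).coeff (toF μ) = 0) : W = 0 := by
  have h3 : MvPolynomial.map (Int.castRingHom ℝ) W = 0 := by
    refine MvPolynomial.funext_set (fun _ => Set.Ioi (0 : ℝ)) (fun _ => Set.Ioi_infinite _) ?_
    intro y hy
    have hy' : ∀ v, 0 < y v := fun v => hy v (Set.mem_univ _)
    set Y : Fin r → Fin 2 × Fin 2 → ℝ := fun a p =>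
      !![y (a, 0), y (a, 2); y (a, 1), (1 + y (a, 1) * y (a, 2)) / y (a, 0)] p.1 p.2 with hY
    have hdet : ∀ i, Y i (0, 0) * Y i (1, 1) - Y i (1, 0) * Y i (0, 1) = 1 := by
      intro a
      have := (hy' (a, 0)).ne'
      simp only [hY, Matrix.of_apply, Matrix.cons_val_zero, Matrix.cons_val_one,
        Matrix.cons_val', Matrix.cons_val_fin_one]
      field_simp
      ring
    have h5 := ev_hW B W hWB Y
    rw [ev_hW' _ W Y hdet] at h5
    simp only [h, Int.cast_zero, zero_mul, Finset.sum_const_zero] at h5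
    rw [map_zero, ← h5, MvPolynomial.aeval_def, MvPolynomial.eval_map]
    congr 1
    funext v
    obtain ⟨a, j⟩ := v
    fin_cases j <;> simp [idx, hY]
  exact MvPolynomial.map_injective _ (RingHom.injective_int _) (by rw [h3, map_zero])

/-! ## Evaluation -/

theorem conv_one (h : T_EVC) (x : ℝ) : Conv 1 x ∧ ev 1 x = 1 := by
  have h1 := h.2.1 (1 : Polynomial ℚ) x
  rw [Polynomial.coe_one, map_one] at h1
  exact h1

theorem ev_pow (h : T_EVC) (f : PowerSeries ℚ) (x : ℝ) (hf : Conv f x) (n : ℕ) :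
    Conv (f ^ n) x ∧ ev (f ^ n) x = ev f x ^ n := by
  induction n with
  | zero => simpa using conv_one h x
  | succ n ih =>
    rw [pow_succ, pow_succ]
    have h2 := h.1 _ _ x ih.1 hf
    exact ⟨h2.2.2.1, by rw [h2.2.2.2, ih.2]⟩

theorem ev_prod (h : T_EVC) {I : Type} (s : Finset I) (f : I → PowerSeries ℚ) (x : ℝ)
    (hf : ∀ i, Conv (f i) x) : Conv (∏ i ∈ s, f i) x ∧ ev (∏ i ∈ s, f i) x = ∏ i ∈ s, ev (f i) x := by
  classical
  induction s using Finset.induction_on with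
  | empty => simpa using conv_one h x
  | insert a s ha ih =>
    rw [Finset.prod_insert ha, Finset.prod_insert ha]
    have h2 := h.1 _ _ x (hf a) ih.1
    exact ⟨h2.2.2.1, by rw [h2.2.2.2, ih.2]⟩

theorem phr_det (h4 : T_ODE1) (h6 : T_EVPHI) (h7 : T_EVC) (c a : ℕ) (hc : 1 ≤ c) (z : ℝ)
    (hz : 0 ≤ z) (hz1 : ((a : ℝ) + c) * z < 1) :
    PhR c a z 0 0 * PhR c a z 1 1 - PhR c a z 1 0 * PhR c a z 0 1 = 1 := by
  have hd := (h4 c a hc).2
  have hp := fun p => h6 c a p z hz hc hz1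
  have h1 := h7.1 _ _ z (hp (0, 0)).1 (hp (1, 1)).1
  have h2 := h7.1 _ _ z (hp (1, 0)).1 (hp (0, 1)).1
  have h3 := h7.2.1 (-1 : Polynomial ℚ) z
  have h4' := h7.1 _ _ z h3.1 h2.2.2.1
  have h5 := h7.1 _ _ z h1.2.2.1 h4'.2.2.1
  have e : phi c a (0, 0) * phi c a (1, 1) +
      ((-1 : Polynomial ℚ) : PowerSeries ℚ) * (phi c a (1, 0) * phi c a (0, 1)) = 1 := by
    rw [← hd, Polynomial.coe_neg, Polynomial.coe_one]
    ring
  rw [e, (conv_one h7 z).2, h4'.2.2.2, h1.2.2.2, h2.2.2.2, h3.2, (hp (0, 0)).2, (hp (1, 1)).2,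
    (hp (1, 0)).2, (hp (0, 1)).2] at h5
  have h8 := h5.2.1
  simp only [map_neg, map_one] at h8
  linarith

theorem ev_ff (h6 : T_EVPHI) (h7 : T_EVC) (c : ℕ) (hc : 1 ≤ c) {r : ℕ} (a : Fin r → ℕ) (n : ℕ)
    (z : ℝ) (hz : 0 ≤ z) (hz1 : ∀ i, ((a i : ℝ) + c) * z < 1) (μ : Ix r n) :
    ev (ff c a n μ) z = ∏ i, ∏ p : Fin 2 × Fin 2, PhR c (a i) z p.1 p.2 ^ (μ.1 i p : ℕ) := by
  have hp := fun i p => h6 c (a i) p z hz hc (hz1 i)
  have h1 : ∀ i p, Conv (phi c (a i) p ^ (μ.1 i p : ℕ)) z ∧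
      ev (phi c (a i) p ^ (μ.1 i p : ℕ)) z = PhR c (a i) z p.1 p.2 ^ (μ.1 i p : ℕ) := by
    intro i p
    have h2 := ev_pow h7 (phi c (a i) p) z (hp i p).1 (μ.1 i p : ℕ)
    rw [(hp i p).2] at h2
    exact h2
  have h3 := fun i => ev_prod h7 Finset.univ (fun p => phi c (a i) p ^ (μ.1 i p : ℕ)) z
    (fun p => (h1 i p).1)
  have h4 := ev_prod h7 Finset.univ (fun i => ∏ p, phi c (a i) p ^ (μ.1 i p : ℕ)) z
    (fun i => (h3 i).1)
  unfold ff
  rw [h4.2]
  refine Finset.prod_congr rfl (fun i _ => ?_)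
  rw [(h3 i).2]
  refine Finset.prod_congr rfl (fun p _ => ?_)
  rw [(h1 i p).2]

/-! ## The system -/

theorem sh_const (c a : ℕ) : PowerSeries.constantCoeff (sh c a) = 0 := by
  rw [← PowerSeries.coeff_zero_eq_constantCoeff_apply]
  simp [sh]

theorem const_phi (c a : ℕ) : PowerSeries.constantCoeff (phi c a (0, 0)) = 1 := by
  have h0 : phi c a (0, 0) = F0.subst (sh c a) := by
    simp [phi, FH]
  rw [h0, ← PowerSeries.coeff_zero_eq_constantCoeff_apply,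
    PowerSeries.coeff_subst' (PowerSeries.HasSubst.of_constantCoeff_zero' (sh_const c a)),
    finsum_eq_single _ 0]
  · simp [F0]
  · intro d hd
    rw [PowerSeries.coeff_zero_eq_constantCoeff_apply, map_pow, sh_const, zero_pow hd, smul_zero]

/-- the base index -/
def J0 (r n : ℕ) : Ix r n :=
  ⟨fun _ p => if p = (0, 0) then ⟨n, Nat.lt_succ_self n⟩ else ⟨0, Nat.succ_pos n⟩, by
    intro i
    left
    rw [Finset.sum_eq_single (0, 0)]
    · simp
    · intro p _ hp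
      simp [hp]
    · intro h
      exact absurd (Finset.mem_univ _) h⟩

theorem const_ff (c : ℕ) {r : ℕ} (a : Fin r → ℕ) (n : ℕ) :
    PowerSeries.constantCoeff (ff c a n (J0 r n)) = 1 := by
  unfold ff
  rw [map_prod]
  refine Finset.prod_eq_one (fun i _ => ?_)
  rw [map_prod]
  refine Finset.prod_eq_one (fun p _ => ?_)
  rw [map_pow]
  by_cases hp : p = (0, 0)
  · rw [hp, const_phi, one_pow]
  · have : ((J0 r n).1 i p : ℕ) = 0 := by simp [J0, hp]
    rw [this, pow_zero]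

theorem TR_eval (c : ℕ) {r : ℕ} (a : Fin r → ℕ) (N : ℕ) (hN : ∀ i, a i + c < N) (hN0 : 0 < N) :
    (TR c a).eval (1 / (N : ℚ)) ≠ 0 := by
  have hN' : (0 : ℚ) < N := by exact_mod_cast hN0
  unfold TR
  rw [Polynomial.eval_mul, Polynomial.eval_mul, Polynomial.eval_X, Polynomial.eval_prod]
  refine mul_ne_zero (mul_ne_zero ?_ (by positivity)) (Finset.prod_ne_zero_iff.2 (fun i _ => ?_))
  · simp
  · have h1 : ((a i : ℚ) + c) < N := by exact_mod_cast hN i
    have h2 : (0 : ℚ) ≤ c := Nat.cast_nonneg c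
    simp only [Polynomial.eval_mul, Polynomial.eval_sub, Polynomial.eval_one, Polynomial.eval_C,
      Polynomial.eval_X, map_add, Polynomial.eval_add]
    refine mul_ne_zero ?_ ?_
    · have : (a i : ℚ) * (1 / N) < 1 := by
        rw [mul_one_div, div_lt_one hN']
        linarith
      linarith
    · have : ((a i : ℚ) + c) * (1 / N) < 1 := by
        rw [mul_one_div, div_lt_one hN']
        linarith
      linarith

theorem TR_deg (c : ℕ) {r : ℕ} (a : Fin r → ℕ) : (TR c a).natDegree ≤ 2 * r + 1 := by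
  unfold TR
  refine Polynomial.natDegree_mul_le.trans ?_
  have h1 : (2 * Polynomial.X : Polynomial ℚ).natDegree ≤ 1 := by
    have : (2 : Polynomial ℚ) = Polynomial.C 2 := rfl
    rw [this]
    exact (Polynomial.natDegree_C_mul_le _ _).trans Polynomial.natDegree_X_le
  have h2 : ∀ x : ℚ, (1 - Polynomial.C x * Polynomial.X : Polynomial ℚ).natDegree ≤ 1 := by
    intro x
    refine (Polynomial.natDegree_sub_le _ _).trans ?_
    rw [Polynomial.natDegree_one]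
    exact max_le (Nat.zero_le _)
      ((Polynomial.natDegree_C_mul_le _ _).trans Polynomial.natDegree_X_le)
  have h3 : (∏ i, ((1 - Polynomial.C (a i : ℚ) * Polynomial.X) *
      (1 - Polynomial.C ((a i : ℚ) + c) * Polynomial.X)) : Polynomial ℚ).natDegree ≤ 2 * r := by
    refine (Polynomial.natDegree_prod_le _ _).trans ?_
    calc ∑ i, ((1 - Polynomial.C (a i : ℚ) * Polynomial.X) *
          (1 - Polynomial.C ((a i : ℚ) + c) * Polynomial.X) : Polynomial ℚ).natDegree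
        ≤ ∑ _i : Fin r, 2 := Finset.sum_le_sum (fun i _ =>
          Polynomial.natDegree_mul_le.trans (Nat.add_le_add (h2 _) (h2 _)))
      _ = 2 * r := by simp [mul_comm]
  omega

theorem TR_zero (c : ℕ) {r : ℕ} (a : Fin r → ℕ) : (TR c a).eval 0 = 0 := by
  unfold TR
  simp

theorem TR_der (c : ℕ) {r : ℕ} (a : Fin r → ℕ) :
    (Polynomial.derivative (TR c a)).eval 0 ≠ 0 := by
  unfold TR
  rw [Polynomial.derivative_mul, Polynomial.eval_add, Polynomial.eval_mul, Polynomial.eval_mul]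
  have h1 : (2 * Polynomial.X : Polynomial ℚ).eval 0 = 0 := by simp
  have h2 : (Polynomial.derivative (2 * Polynomial.X : Polynomial ℚ)).eval 0 = 2 := by
    have : (2 : Polynomial ℚ) = Polynomial.C 2 := rfl
    rw [this, Polynomial.derivative_C_mul, Polynomial.derivative_X]
    simp
  have h3 : (∏ i, ((1 - Polynomial.C (a i : ℚ) * Polynomial.X) *
      (1 - Polynomial.C ((a i : ℚ) + c) * Polynomial.X)) : Polynomial ℚ).eval 0 = 1 := by
    rw [Polynomial.eval_prod]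
    refine Finset.prod_eq_one (fun i _ => ?_)
    simp
  rw [h1, h2, h3]
  norm_num

theorem gsys (h3 : T_INDU) (c : ℕ) (hc : 1 ≤ c) {r : ℕ} (a : Fin r → ℕ) (n N C d : ℕ)
    (hn : 1 ≤ n) (ha : Function.Injective a) (hN : ∀ i, a i + c < N) (hN0 : 0 < N)
    (hU : UG (TR c a) (ff c a n) N C d) :
    ∃ S : GF.Sys (Ix r n), S.f = ff c a n ∧ GF.GSys S (J0 r n) N C (d + (2 * r + 1)) := by
  obtain ⟨S, Γ, e, τ, hST, hSf, hA, hO, hnil, htr, hb, hτ, hτ2, he, hden⟩ := hU.sys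
  have hC1 : 1 ≤ C := hU.C_pos
  have hCN : 1 ≤ C * N := Nat.mul_pos hC1 hN0
  have hCN' : (1 : ℚ) ≤ (C : ℚ) * N := by exact_mod_cast hCN
  refine ⟨S, hSf, ?_⟩
  refine ⟨hC1, ?_, ?_, ?_, ?_, hO, ?_, ?_, ?_, ?_, ?_, ?_⟩
  · have := hU.d_pos
    omega
  · rw [hST]
    exact TR_eval c a N hN hN0
  · rw [hST]
    have := TR_deg c a
    omega
  · intro i j
    have := hA i j
    omega
  · intro F hF
    rw [hSf] at hF
    exact h3 c r n a hc hn ha F hF
  · right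
    rw [hST]
    exact ⟨TR_zero c a, TR_der c a, hnil⟩
  · rw [hSf]
    exact const_ff c a n
  · intro i s
    rw [hSf]
    exact hU.bd i s
  · rw [hSf]
    exact hU.den
  · refine ⟨Γ, e, τ, htr, ?_, hτ, ?_, he, hden⟩
    · intro i j s
      refine (hb i j s).trans (pow_le_pow_right₀ hCN' ?_)
      exact Nat.mul_le_mul_right _ (by omega)
    · exact hτ2.trans (Nat.pow_le_pow_right hCN (by omega))

/-! ## Sizes -/

theorem card_Ix (r n : ℕ) : Fintype.card (Ix r n) ≤ (n + 1) ^ (4 * r) := by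
  refine (Fintype.card_subtype_le _).trans (le_of_eq ?_)
  rw [Fintype.card_pi]
  simp only [Finset.prod_const, Finset.card_univ, Fintype.card_fin, Fintype.card_pi,
    Fintype.card_prod]
  rw [← pow_mul]

theorem size (C0 r A B : ℕ) (M : ℕ) (hM : M ≤ (3 * B + 1 + 1) ^ (4 * r)) :
    (2 * (C0 * (A + 1)) ^ (C0 * (3 * B + 1))) ^ GF.EE M (C0 * (3 * B + 1) + (2 * r + 1)) ≤
      (A + 2) ^ (((1 + 3 * (C0 + 1) * C0) * (1000 * (2 * 3 ^ (4 * r)) ^ 8 *
        (3 * C0 + 2 * r + 2) ^ 3)) * (B + 1) ^ (32 * r + 4)) := by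
  set Q := B + 1 with hQ
  have hQ1 : 1 ≤ Q := by omega
  have hA1 : 1 ≤ A + 2 := by omega
  have hn : 3 * B + 1 ≤ 3 * Q := by omega
  have hn1 : 3 * B + 1 + 1 ≤ 3 * Q := by omega
  have hM1 : M + 1 ≤ (2 * 3 ^ (4 * r)) * Q ^ (4 * r) := by
    have h1 : M ≤ 3 ^ (4 * r) * Q ^ (4 * r) := by
      rw [← mul_pow]
      exact hM.trans (Nat.pow_le_pow_left hn1 _)
    have h2 : 1 ≤ 3 ^ (4 * r) * Q ^ (4 * r) := Nat.mul_pos (by positivity) (Nat.pow_pos hQ1)
    calc M + 1 ≤ 3 ^ (4 * r) * Q ^ (4 * r) + 3 ^ (4 * r) * Q ^ (4 * r) := Nat.add_le_add h1 h2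
      _ = (2 * 3 ^ (4 * r)) * Q ^ (4 * r) := by ring
  have hd1 : C0 * (3 * B + 1) + (2 * r + 1) + 1 ≤ (3 * C0 + 2 * r + 2) * Q := by
    have h1 : C0 * (3 * B + 1) ≤ C0 * (3 * Q) := Nat.mul_le_mul_left _ hn
    have h2 : 2 * r + 2 ≤ (2 * r + 2) * Q := Nat.le_mul_of_pos_right _ hQ1
    calc C0 * (3 * B + 1) + (2 * r + 1) + 1 = C0 * (3 * B + 1) + (2 * r + 2) := by ring
      _ ≤ C0 * (3 * Q) + (2 * r + 2) * Q := Nat.add_le_add h1 h2
      _ = (3 * C0 + 2 * r + 2) * Q := by ring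
  have hEE : GF.EE M (C0 * (3 * B + 1) + (2 * r + 1)) ≤
      (1000 * (2 * 3 ^ (4 * r)) ^ 8 * (3 * C0 + 2 * r + 2) ^ 3) * Q ^ (32 * r + 3) := by
    unfold GF.EE
    calc 1000 * (M + 1) ^ 8 * (C0 * (3 * B + 1) + (2 * r + 1) + 1) ^ 3
        ≤ 1000 * ((2 * 3 ^ (4 * r)) * Q ^ (4 * r)) ^ 8 * ((3 * C0 + 2 * r + 2) * Q) ^ 3 := by
          gcongr
      _ = (1000 * (2 * 3 ^ (4 * r)) ^ 8 * (3 * C0 + 2 * r + 2) ^ 3) * Q ^ (32 * r + 3) := by
          rw [mul_pow, mul_pow (3 * C0 + 2 * r + 2) Q, ← pow_mul, pow_add Q (32 * r) 3]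
          have : 4 * r * 8 = 32 * r := by ring
          rw [this]
          ring
  have hC : C0 * (A + 1) ≤ (A + 2) ^ (C0 + 1) := by
    rw [pow_succ]
    refine Nat.mul_le_mul ?_ (by omega)
    exact (Nat.lt_two_pow_self (n := C0)).le.trans (Nat.pow_le_pow_left (by omega) _)
  have h2C : 2 * (C0 * (A + 1)) ^ (C0 * (3 * B + 1)) ≤ (A + 2) ^ ((1 + 3 * (C0 + 1) * C0) * Q) := by
    calc 2 * (C0 * (A + 1)) ^ (C0 * (3 * B + 1))
        ≤ (A + 2) * ((A + 2) ^ (C0 + 1)) ^ (C0 * (3 * B + 1)) :=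
          Nat.mul_le_mul (by omega) (Nat.pow_le_pow_left hC _)
      _ = (A + 2) ^ (1 + (C0 + 1) * (C0 * (3 * B + 1))) := by
          rw [← pow_mul, pow_add, pow_one]
      _ ≤ (A + 2) ^ ((1 + 3 * (C0 + 1) * C0) * Q) := by
          apply Nat.pow_le_pow_right hA1
          have h3 : (C0 + 1) * (C0 * (3 * B + 1)) ≤ (C0 + 1) * (C0 * (3 * Q)) :=
            Nat.mul_le_mul_left _ (Nat.mul_le_mul_left _ hn)
          calc 1 + (C0 + 1) * (C0 * (3 * B + 1)) ≤ Q + (C0 + 1) * (C0 * (3 * Q)) :=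
                Nat.add_le_add hQ1 h3
            _ = (1 + 3 * (C0 + 1) * C0) * Q := by ring
  calc (2 * (C0 * (A + 1)) ^ (C0 * (3 * B + 1))) ^ GF.EE M (C0 * (3 * B + 1) + (2 * r + 1))
      ≤ ((A + 2) ^ ((1 + 3 * (C0 + 1) * C0) * Q)) ^
        GF.EE M (C0 * (3 * B + 1) + (2 * r + 1)) := Nat.pow_le_pow_left h2C _
    _ = (A + 2) ^ (((1 + 3 * (C0 + 1) * C0) * Q) *
        GF.EE M (C0 * (3 * B + 1) + (2 * r + 1))) := by rw [← pow_mul]
    _ ≤ (A + 2) ^ (((1 + 3 * (C0 + 1) * C0) * (1000 * (2 * 3 ^ (4 * r)) ^ 8 *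
        (3 * C0 + 2 * r + 2) ^ 3)) * Q ^ (32 * r + 4)) := by
        apply Nat.pow_le_pow_right hA1
        refine (Nat.mul_le_mul_left _ hEE).trans (le_of_eq ?_)
        rw [pow_succ Q (32 * r + 3)]
        ring

theorem two_le (A c : ℕ) : 2 * (A + c) ≤ (A + 2) ^ (c + 2) := by
  have h1 : 2 ^ (c + 1) ≤ (A + 2) ^ (c + 1) := Nat.pow_le_pow_left (by omega) _
  have h2 : c < 2 ^ c := Nat.lt_two_pow_self
  have h3 : 2 ^ (c + 1) = 2 * 2 ^ c := by rw [pow_succ]; ring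
  have h4 : 2 ^ (c + 1) * (A + 2) ≤ (A + 2) ^ (c + 2) := by
    rw [pow_succ (A + 2) (c + 1)]
    exact Nat.mul_le_mul_right _ h1
  have h5 : 1 ≤ 2 ^ c := Nat.one_le_two_pow
  refine le_trans ?_ h4
  rw [h3]
  nlinarith

end GTU_

open GTU_ in
theorem p_GTU (h1 : GF.T_TG) (h2 : T_FAMU) (h3 : T_INDU) (h4 : T_ODE1) (_h5 : T_FIPU)
    (h6 : T_EVPHI) (h7 : T_EVC) : T_GTU := by
  intro c r hc
  obtain ⟨C0, hC0⟩ := h2 c r hc
  set K := (1 + 3 * (C0 + 1) * C0) * (1000 * (2 * 3 ^ (4 * r)) ^ 8 *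
    (3 * C0 + 2 * r + 2) ^ 3) with hK
  refine ⟨K + (32 * r + 4) + (c + 2), ?_⟩
  intro B A N a ha haA hN W hWB hW0
  set b := K + (32 * r + 4) + (c + 2) with hb
  have hQ1 : 1 ≤ B + 1 := by omega
  have hQb : 1 ≤ (B + 1) ^ b := Nat.pow_pos hQ1
  have hA1 : 1 ≤ A + 2 := by omega
  have hN1 : (A + 2) ^ (c + 2) ≤ N := by
    refine le_trans (Nat.pow_le_pow_right hA1 ?_) hN
    calc c + 2 ≤ b := by omega
      _ ≤ b * (B + 1) ^ b := Nat.le_mul_of_pos_right _ hQb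
  have hN2 : 2 * (A + c) ≤ N := (two_le A c).trans hN1
  have hN0 : 0 < N := by omega
  have hNa : ∀ i, a i + c < N := by
    intro i
    have := haA i
    omega
  have hsize : (2 * (C0 * (A + 1)) ^ (C0 * (3 * B + 1))) ^
      GF.EE (Fintype.card (Ix r (3 * B + 1))) (C0 * (3 * B + 1) + (2 * r + 1)) ≤ N := by
    refine (size C0 r A B _ (card_Ix r (3 * B + 1))).trans (le_trans ?_ hN)
    apply Nat.pow_le_pow_right hA1
    rw [← hK]
    exact Nat.mul_le_mul (by omega) (Nat.pow_le_pow_right hQ1 (by omega))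
  have hU := hC0 (3 * B + 1) A N a (by omega) ha haA hN2
  obtain ⟨S, hSf, hG⟩ := gsys h3 c hc a (3 * B + 1) N _ _ (by omega) ha hNa hN0 hU
  have hNpos : (0 : ℝ) < N := by exact_mod_cast hN0
  have hz : ∀ i, ((a i : ℝ) + c) * (1 / (N : ℝ)) < 1 := by
    intro i
    rw [mul_one_div, div_lt_one hNpos]
    exact_mod_cast hNa i
  -- the values
  set Y : Fin r → Fin 2 × Fin 2 → ℝ := fun i p => PhR c (a i) (1 / (N : ℝ)) p.1 p.2 with hY
  have hdet : ∀ i, Y i (0, 0) * Y i (1, 1) - Y i (1, 0) * Y i (0, 1) = 1 :=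
    fun i => phr_det h4 h6 h7 c (a i) hc (1 / (N : ℝ)) (by positivity) (hz i)
  have e1 := ev_hW B W hWB Y
  rw [ev_hW' _ W Y hdet] at e1
  have e2 : MvPolynomial.aeval (fun v : Fin r × Fin 3 => Y v.1 (idx v.2)) W = 0 := by
    rw [← hW0]
    congr 2
    funext v
    obtain ⟨i, j⟩ := v
    fin_cases j <;> simp [idx, xn, hY]
  rw [e2] at e1
  have h0 := h1 (Ix r (3 * B + 1)) S (J0 r (3 * B + 1)) N _ _ hG hsize
    (fun μ => (hW (3 * B + 1) W).coeff (toF μ)) (by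
      rw [e1]
      refine Finset.sum_congr rfl (fun μ _ => ?_)
      congr 1
      rw [hSf]
      exact ev_ff h6 h7 c hc a (3 * B + 1) (1 / (N : ℝ)) (by positivity) hz μ)
  exact zero_of_coeff B W hWB (fun μ => congrFun h0 μ)

end Pool.Agent.LEG
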