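import Pool.Agent.LEG.Targets2

set_option autoImplicit false

/-!
# Linear independence of the monomials of fixed degrees (MP_5d33ca_ag)
-/

namespace Pool.Agent.LEG

open Finset
open scoped BigOperators Topology

namespace INDU_

/-- exponents of one block -/
abbrev Kp (n : ℕ) : Type :=
  {m : Fin 2 × Fin 2 → Fin (n + 1) // (∑ p, (m p : ℕ) = n) ∨ (∑ p, (m p : ℕ) + 1 = n)}

/-- the monomial -/
noncomputable def mo {n : ℕ} (m : Kp n) (x : Matrix (Fin 2) (Fin 2) ℝ) : ℝ :=
  ∏ p : Fin 2 × Fin 2, x p.1 p.2 ^ (m.1 p : ℕ)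

/-- exponent vector -/
noncomputable def tf {n : ℕ} (m : Kp n) : Fin 2 × Fin 2 →₀ ℕ :=
  Finsupp.equivFunOnFinite.symm fun p => (m.1 p : ℕ)

lemma tf_inj {n : ℕ} : Function.Injective (tf (n := n)) := by
  intro m m' h
  apply Subtype.ext
  funext p
  apply Fin.ext
  have := DFunLike.congr_fun h p
  simpa [tf] using this

/-- one block -/
lemma block (n : ℕ) (c : Kp n → ℝ)
    (h : ∀ x : Matrix (Fin 2) (Fin 2) ℝ, x.det = 1 → ∑ m, c m * mo m x = 0) : c = 0 := by
  have hpos : ∀ x : Matrix (Fin 2) (Fin 2) ℝ, 0 < x.det → ∑ m, c m * mo m x = 0 := by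
    intro x hx
    have key : ∀ τ : ℝ, τ ≠ 0 → τ ^ 2 = x.det →
        ∑ m, c m * mo m x * (if ∑ p, (m.1 p : ℕ) = n then 1 else τ) = 0 := by
      intro τ hτ hd
      have h1 := h (τ⁻¹ • x) (by
        rw [Matrix.det_smul, ← hd]
        simp [hτ])
      have h2 : ∑ m, c m * mo m x * (if ∑ p, (m.1 p : ℕ) = n then 1 else τ) =
          τ ^ n * ∑ m, c m * mo m (τ⁻¹ • x) := by
        rw [Finset.mul_sum]
        refine Finset.sum_congr rfl fun m _ => ?_
        have h3 : mo m (τ⁻¹ • x) = τ⁻¹ ^ (∑ p, (m.1 p : ℕ)) * mo m x := by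
          unfold mo
          rw [← Finset.prod_pow_eq_pow_sum, ← Finset.prod_mul_distrib]
          refine Finset.prod_congr rfl fun p _ => ?_
          rw [Matrix.smul_apply, smul_eq_mul, mul_pow]
        rw [h3, inv_pow]
        by_cases hm : ∑ p, (m.1 p : ℕ) = n
        · rw [if_pos hm, hm]
          field_simp
        · have hm2 : ∑ p, (m.1 p : ℕ) + 1 = n := by
            rcases m.2 with h4 | h4
            · exact absurd h4 hm
            · exact h4
          rw [if_neg hm]
          have h5 : τ ^ n = τ ^ (∑ p, (m.1 p : ℕ)) * τ := by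
            rw [← pow_succ, hm2]
          rw [h5]
          field_simp
      rw [h2, h1, mul_zero]
    set t := √x.det with ht
    have ht0 : 0 < t := Real.sqrt_pos.mpr hx
    have ht2 : t ^ 2 = x.det := Real.sq_sqrt hx.le
    have k1 := key t ht0.ne' ht2
    have k2 := key (-t) (neg_ne_zero.mpr ht0.ne') (by rw [neg_sq, ht2])
    have k3 : ∑ m, c m * mo m x =
        (1 / 2) * (∑ m, c m * mo m x * (if ∑ p, (m.1 p : ℕ) = n then 1 else t) +
          ∑ m, c m * mo m x * (if ∑ p, (m.1 p : ℕ) = n then 1 else -t)) +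
        (1 / (2 * t)) * (∑ m, c m * mo m x * (if ∑ p, (m.1 p : ℕ) = n then 1 else t) -
          ∑ m, c m * mo m x * (if ∑ p, (m.1 p : ℕ) = n then 1 else -t)) := by
      rw [← Finset.sum_add_distrib, ← Finset.sum_sub_distrib, Finset.mul_sum, Finset.mul_sum,
        ← Finset.sum_add_distrib]
      refine Finset.sum_congr rfl fun m _ => ?_
      split_ifs
      · ring
      · field_simp
        ring
    rw [k3, k1, k2]
    ring
  set Q : MvPolynomial (Fin 2 × Fin 2) ℝ := ∑ m, MvPolynomial.monomial (tf m) (c m) with hQ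
  have heval : ∀ y : Fin 2 × Fin 2 → ℝ, MvPolynomial.eval y Q =
      ∑ m, c m * mo m (Matrix.of fun i j => y (i, j)) := by
    intro y
    rw [hQ, map_sum]
    refine Finset.sum_congr rfl fun m _ => ?_
    rw [MvPolynomial.eval_monomial, Finsupp.prod_fintype _ _ (fun _ => pow_zero _)]
    rfl
  have hQ0 : Q = 0 := by
    refine MvPolynomial.funext_set (fun p => if p.1 = p.2 then Set.Ioo (1 : ℝ) 2
      else Set.Ioo (0 : ℝ) (1 / 2)) (fun p => ?_) fun y hy => ?_
    · split_ifs
      · exact Set.Ioo_infinite (by norm_num)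
      · exact Set.Ioo_infinite (by norm_num)
    · rw [heval, map_zero]
      apply hpos
      have y00 := hy (0, 0) (Set.mem_univ _)
      have y11 := hy (1, 1) (Set.mem_univ _)
      have y01 := hy (0, 1) (Set.mem_univ _)
      have y10 := hy (1, 0) (Set.mem_univ _)
      simp only [if_true, Fin.isValue, zero_ne_one, one_ne_zero, if_false, Set.mem_Ioo] at *
      rw [Matrix.det_fin_two]
      simp only [Matrix.of_apply]
      nlinarith [mul_pos (sub_pos.mpr y01.2) y10.1, y00.1, y11.1, mul_pos (sub_pos.mpr y00.1)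
        (sub_pos.mpr y11.1), y10.2]
  funext m
  have hc := congrArg (MvPolynomial.coeff (tf m)) hQ0
  rw [hQ, MvPolynomial.coeff_sum, MvPolynomial.coeff_zero, Finset.sum_eq_single m] at hc
  · rw [MvPolynomial.coeff_monomial, if_pos rfl] at hc
    exact hc
  · intro m' _ hm'
    rw [MvPolynomial.coeff_monomial, if_neg fun h => hm' (tf_inj h)]
  · intro h
    exact absurd (Finset.mem_univ m) h

/-- several blocks -/
lemma multi {κ Y : Type} [Fintype κ] (g : κ → Y → ℝ) (S : Set Y)
    (hg : ∀ c : κ → ℝ, (∀ y ∈ S, ∑ m, c m * g m y = 0) → c = 0) :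
    ∀ (r : ℕ) (c : (Fin r → κ) → ℝ), (∀ y : Fin r → Y, (∀ i, y i ∈ S) →
      ∑ w, c w * ∏ i, g (w i) (y i) = 0) → c = 0 := by
  intro r
  induction r with
  | zero =>
    intro c h
    funext w
    have h1 := h (fun i => i.elim0) (fun i => i.elim0)
    rw [Fintype.sum_subsingleton _ w] at h1
    simpa using h1
  | succ r ih =>
    intro c h
    have hm : ∀ m : κ, (fun w' : Fin r → κ => c (Fin.cons m w')) = 0 := by
      intro m
      apply ih
      intro y' hy'
      have h1 := hg (fun m => ∑ w' : Fin r → κ, c (Fin.cons m w') * ∏ i, g (w' i) (y' i)) (by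
        intro y0 hy0
        have h2 := h (Fin.cons y0 y') (by
          intro i
          refine Fin.cases ?_ (fun i => ?_) i
          · simpa using hy0
          · simpa using hy' i)
        rw [← (Fin.consEquiv (fun _ : Fin (r + 1) => κ)).sum_comp, Fintype.sum_prod_type] at h2
        rw [← h2]
        refine Finset.sum_congr rfl fun m _ => ?_
        rw [Finset.sum_mul]
        refine Finset.sum_congr rfl fun w' _ => ?_
        have e1 : (Fin.consEquiv fun _ : Fin (r + 1) => κ) (m, w') = Fin.cons m w' := rfl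
        rw [e1, Fin.prod_univ_succ]
        simp only [Fin.cons_zero, Fin.cons_succ]
        ring)
      exact congrFun h1 m
    funext w
    have h3 := congrFun (hm (w 0)) (Fin.tail w)
    simp only [Fin.cons_self_tail] at h3
    exact h3

end INDU_

open INDU_

theorem p_INDU (h : T_FIPU) : T_INDU := by
  intro c r n a hc hn ha l hl
  -- the polynomial
  set P : MvPolynomial (Fin r × Fin 2 × Fin 2) (Polynomial ℚ) :=
    ∑ μ : Ix r n, MvPolynomial.C (l μ) * ∏ i, ∏ p, MvPolynomial.X (i, p) ^ (μ.1 i p : ℕ) with hP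
  have hP0 : MvPolynomial.eval₂ (Polynomial.coeToPowerSeries.ringHom)
      (fun v => phi c (a v.1) v.2) P = 0 := by
    rw [← MvPolynomial.coe_eval₂Hom, hP]
    simp only [map_sum, map_mul, map_prod, map_pow, MvPolynomial.eval₂Hom_C,
      MvPolynomial.eval₂Hom_X']
    rw [← hl]
    rfl
  have h1 := h c r a hc ha P hP0
  funext μ
  apply Polynomial.funext
  intro z
  rw [Pi.zero_apply, Polynomial.eval_zero]
  let e : Ix r n ≃ (Fin r → Kp n) :=
    { toFun := fun μ i => ⟨μ.1 i, μ.2 i⟩
      invFun := fun w => ⟨fun i => (w i).1, fun i => (w i).2⟩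
      left_inv := fun _ => rfl
      right_inv := fun _ => rfl }
  have h2 := multi (mo (n := n)) {x | x.det = 1} (fun c hc => block n c hc) r
    (fun w => (((l (e.symm w)).eval z : ℚ) : ℝ)) (by
      intro y hy
      have h3 := h1 z y hy
      rw [← MvPolynomial.coe_eval₂Hom, hP] at h3
      simp only [map_sum, map_mul, map_prod, map_pow, MvPolynomial.eval₂Hom_C,
        MvPolynomial.eval₂Hom_X'] at h3
      rw [← e.sum_comp]
      rw [← h3]
      refine Finset.sum_congr rfl fun ν _ => ?_
      rw [Equiv.symm_apply_apply]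
      rfl)
  have h4 := congrFun h2 (e μ)
  simp only [Equiv.symm_apply_apply, Pi.zero_apply] at h4
  exact_mod_cast h4

end Pool.Agent.LEG
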