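import Pool.Agent.LEG.Targets2
import Pool.Agent.LEG.MULTI

set_option autoImplicit false

/-!
Several curves, with a power saving (job MULTIX). The reduction to one curve is in `MULTI.lean`.
-/

namespace Pool.Agent.LEG

namespace MULTIX_

/-- the statement for fixed `n`, `k`, `c` -/
def Mu (n k : ℕ) (c : Fin n → ℕ) : Prop := ∃ K : ℕ, 1 ≤ K ∧ ∀ (D T : ℕ) (θ : Fin k → ℂ), 1 ≤ D →
  1 ≤ T → ((MULTI_.En c D T θ).ncard : ℝ) ≤ K * (T : ℝ) ^ ((n : ℝ) - 1 / (K * (D : ℝ) ^ K))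

theorem mu_zero (k : ℕ) (c : Fin 0 → ℕ) : Mu 0 k c := by
  refine ⟨1, le_refl 1, fun D T θ hD hT => ?_⟩
  have h : MULTI_.En c D T θ = ∅ := by
    ext N
    simp only [Set.mem_empty_iff_false, iff_false]
    rintro ⟨-, P, -, hval, x, -, hne⟩
    apply hne
    rw [← hval]
    congr 3
    funext v
    exact Fin.elim0 v.1
  rw [h, Set.ncard_empty]
  have h1 : (0 : ℝ) ≤ (T : ℝ) ^ (((0 : ℕ) : ℝ) - 1 / (((1 : ℕ) : ℝ) * (D : ℝ) ^ 1)) :=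
    Real.rpow_nonneg (Nat.cast_nonneg T) _
  have h2 : (0 : ℝ) ≤ ((1 : ℕ) : ℝ) := by norm_num
  simpa using mul_nonneg h2 h1

theorem inv_le {K1 K D : ℕ} (h1 : 1 ≤ K1) (h : K1 ≤ K) (hD : 1 ≤ D) :
    1 / ((K : ℝ) * (D : ℝ) ^ K) ≤ 1 / ((K1 : ℝ) * (D : ℝ) ^ K1) := by
  have hD' : (1 : ℝ) ≤ (D : ℝ) := by exact_mod_cast hD
  have h1' : (1 : ℝ) ≤ (K1 : ℝ) := by exact_mod_cast h1
  have h' : (K1 : ℝ) ≤ (K : ℝ) := by exact_mod_cast h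
  have hpos : (0 : ℝ) < (K1 : ℝ) * (D : ℝ) ^ K1 := by positivity
  apply one_div_le_one_div_of_le hpos
  apply mul_le_mul h' (pow_le_pow_right₀ hD' h) (by positivity) (by positivity)

theorem mu_succ (hone : T_ONEX) (hgen : T_GEN) (n : ℕ)
    (ih : ∀ (k : ℕ) (c : Fin n → ℕ), (∀ i, 1 ≤ c i) → Mu n k c) (k : ℕ) (c : Fin (n + 1) → ℕ)
    (hc : ∀ i, 1 ≤ c i) : Mu (n + 1) k c := by
  obtain ⟨K1, hK1, h1⟩ := hone (c 0) (k + n * 4) (hc 0)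
  obtain ⟨K2, hK2, h2⟩ := ih (k + 4) (Fin.tail c) (fun i => hc i.succ)
  refine ⟨K1 + K2, by omega, fun D T θ hD hT => ?_⟩
  have hT1 : (1 : ℝ) ≤ (T : ℝ) := by exact_mod_cast hT
  have hT0 : (0 : ℝ) < (T : ℝ) := by linarith
  refine (MULTI_.count_le hgen n k D c θ T _ _ (by positivity)
    (fun θ' => h1 D T θ' hD hT) (fun z => h2 D T (Fin.append θ z) hD hT)).trans ?_
  have i1 : 1 / (((K1 + K2 : ℕ) : ℝ) * (D : ℝ) ^ (K1 + K2)) ≤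
      1 / ((K1 : ℝ) * (D : ℝ) ^ K1) := inv_le hK1 (Nat.le_add_right _ _) hD
  have i2 : 1 / (((K1 + K2 : ℕ) : ℝ) * (D : ℝ) ^ (K1 + K2)) ≤
      1 / ((K2 : ℝ) * (D : ℝ) ^ K2) := inv_le hK2 (Nat.le_add_left _ _) hD
  set κ : ℝ := 1 / (((K1 + K2 : ℕ) : ℝ) * (D : ℝ) ^ (K1 + K2)) with hκ
  set κ1 : ℝ := 1 / ((K1 : ℝ) * (D : ℝ) ^ K1) with hκ1
  set κ2 : ℝ := 1 / ((K2 : ℝ) * (D : ℝ) ^ K2) with hκ2
  have p1 : (T : ℝ) ^ (1 - κ1) * (T : ℝ) ^ n ≤ (T : ℝ) ^ (((n + 1 : ℕ) : ℝ) - κ) := by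
    rw [← Real.rpow_natCast, ← Real.rpow_add hT0]
    apply Real.rpow_le_rpow_of_exponent_le hT1
    push_cast
    linarith
  have p2 : (T : ℝ) * (T : ℝ) ^ ((n : ℝ) - κ2) ≤ (T : ℝ) ^ (((n + 1 : ℕ) : ℝ) - κ) := by
    nth_rewrite 1 [← Real.rpow_one (T : ℝ)]
    rw [← Real.rpow_add hT0]
    apply Real.rpow_le_rpow_of_exponent_le hT1
    push_cast
    linarith
  have hK1' : (0 : ℝ) ≤ (K1 : ℝ) := Nat.cast_nonneg _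
  have hK2' : (0 : ℝ) ≤ (K2 : ℝ) := Nat.cast_nonneg _
  have q1 : (K1 * (T : ℝ) ^ (1 - κ1)) * (T : ℝ) ^ n ≤
      K1 * (T : ℝ) ^ (((n + 1 : ℕ) : ℝ) - κ) := by
    calc (K1 * (T : ℝ) ^ (1 - κ1)) * (T : ℝ) ^ n
        = K1 * ((T : ℝ) ^ (1 - κ1) * (T : ℝ) ^ n) := by ring
      _ ≤ K1 * (T : ℝ) ^ (((n + 1 : ℕ) : ℝ) - κ) := by gcongr
  have q2 : (T : ℝ) * (K2 * (T : ℝ) ^ ((n : ℝ) - κ2)) ≤
      K2 * (T : ℝ) ^ (((n + 1 : ℕ) : ℝ) - κ) := by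
    calc (T : ℝ) * (K2 * (T : ℝ) ^ ((n : ℝ) - κ2))
        = K2 * ((T : ℝ) * (T : ℝ) ^ ((n : ℝ) - κ2)) := by ring
      _ ≤ K2 * (T : ℝ) ^ (((n + 1 : ℕ) : ℝ) - κ) := by gcongr
  calc _ ≤ K1 * (T : ℝ) ^ (((n + 1 : ℕ) : ℝ) - κ) +
        K2 * (T : ℝ) ^ (((n + 1 : ℕ) : ℝ) - κ) := add_le_add q1 q2
    _ = ((K1 + K2 : ℕ) : ℝ) * (T : ℝ) ^ (((n + 1 : ℕ) : ℝ) - κ) := by push_cast; ring

end MULTIX_

theorem p_MULTIX (h1 : T_ONEX) (h2 : T_GEN) : T_MULTIX := by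
  have key : ∀ (n k : ℕ) (c : Fin n → ℕ), (∀ i, 1 ≤ c i) → MULTIX_.Mu n k c := by
    intro n
    induction n with
    | zero => exact fun k c _ => MULTIX_.mu_zero k c
    | succ n ih => exact fun k c hc => MULTIX_.mu_succ h1 h2 n ih k c hc
  exact key

end Pool.Agent.LEG
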