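import Pool.Agent.LEG.Targets2
import Pool.Agent.KBD.ZE

set_option autoImplicit false

/-!
# Transport of the unipotent part
-/

namespace Pool.Agent.LEG.TRU_

open Finset
open scoped BigOperators

/-- `(1/2) log(1 + N w)` -/
noncomputable def gam (N : ℕ) : PowerSeries ℚ :=
  PowerSeries.mk fun n => (-1) ^ (n + 1) * (N : ℚ) ^ n / (2 * n)

/-- the transport matrix -/
noncomputable def Gam (N : ℕ) : Fin 2 → Fin 2 → PowerSeries ℚ := ![![1, 0], ![gam N, 1]]

theorem ty_mul (z : ℚ) (p q : Polynomial ℚ) : GF.ty z (p * q) = GF.ty z p * GF.ty z q := by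
  simp [GF.ty, Polynomial.taylor_mul]

theorem ty_neg (z : ℚ) (p : Polynomial ℚ) : GF.ty z (-p) = - GF.ty z p := by
  simp [GF.ty]

theorem ty_zero (z : ℚ) : GF.ty z 0 = 0 := by
  simp [GF.ty]

theorem key (N : ℕ) (hN : 1 ≤ N) :
    GF.ty (1 / (N : ℚ)) (2 * Polynomial.X) * PowerSeries.derivative ℚ (gam N) = 1 := by
  have hN0 : (N : ℚ) ≠ 0 := by
    have : N ≠ 0 := by omega
    exact_mod_cast this
  have h1 : GF.ty (1 / (N : ℚ)) (2 * Polynomial.X) =
      2 * PowerSeries.X + PowerSeries.C (2 * (1 / (N : ℚ))) := by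
    simp only [GF.ty]
    rw [Polynomial.taylor_mul, Polynomial.taylor_X]
    have : Polynomial.taylor (1 / (N : ℚ)) 2 = Polynomial.C 2 := by
      rw [show (2 : Polynomial ℚ) = Polynomial.C 2 from rfl, Polynomial.taylor_C]
    rw [this]
    simp only [Polynomial.coe_mul, Polynomial.coe_C, Polynomial.coe_add, Polynomial.coe_X]
    rw [mul_add, map_mul]
    rfl
  rw [h1]
  ext n
  rw [add_mul, map_add, mul_assoc, PowerSeries.coeff_C_mul]
  rcases n with _ | n
  · simp [gam, PowerSeries.coeff_derivative]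
    field_simp
  · have h2 : PowerSeries.coeff (n + 1)
        (2 * (PowerSeries.X * PowerSeries.derivative ℚ (gam N)) : PowerSeries ℚ) =
        2 * PowerSeries.coeff n (PowerSeries.derivative ℚ (gam N)) := by
      rw [show (2 : PowerSeries ℚ) = PowerSeries.C 2 from rfl, PowerSeries.coeff_C_mul,
        PowerSeries.coeff_succ_X_mul]
    rw [h2]
    simp only [PowerSeries.coeff_derivative, gam, PowerSeries.coeff_mk, PowerSeries.coeff_one]
    have hn1 : ((n : ℚ) + 1) ≠ 0 := by positivity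
    have hn2 : ((n : ℚ) + 1 + 1) ≠ 0 := by positivity
    rw [if_neg (by omega)]
    push_cast
    field_simp
    ring

end Pool.Agent.LEG.TRU_

namespace Pool.Agent.LEG

open TRU_ Finset

theorem p_TRU : T_TRU := by
  refine ⟨440, fun c a N _ hN => ⟨Gam N, fun k => 2 * Nat.lcmUpto k, ?_, ?_, ?_, ?_, ?_⟩⟩
  · intro i j
    fin_cases i <;> fin_cases j <;> simp [Gam, gam]
  · intro i j
    have hk := key N hN
    have hT : GF.ty (1 / (N : ℚ)) (T1 c a) = GF.ty (1 / (N : ℚ)) (2 * Polynomial.X) *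
        GF.ty (1 / (N : ℚ)) ((1 - Polynomial.C (a : ℚ) * Polynomial.X) *
          (1 - Polynomial.C ((a : ℚ) + c) * Polynomial.X)) := by
      rw [← ty_mul]
      congr 1
      unfold T1
      ring
    rw [Fin.sum_univ_two]
    fin_cases i <;> fin_cases j
    · simp [Gam, N1, ty_zero]
    · simp [Gam, N1, ty_zero]
    · simp only [Gam, N1, Fin.mk_one, Fin.zero_eta, Matrix.cons_val_zero, Matrix.cons_val_one,
        Matrix.cons_val', ty_zero, ty_neg, mul_zero, one_mul, zero_add, neg_neg]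
      rw [hT]
      calc _ = (GF.ty (1 / (N : ℚ)) (2 * Polynomial.X) * PowerSeries.derivative ℚ (gam N)) *
            GF.ty (1 / (N : ℚ)) ((1 - Polynomial.C (a : ℚ) * Polynomial.X) *
              (1 - Polynomial.C ((a : ℚ) + c) * Polynomial.X)) := by ring
        _ = _ := by rw [hk, one_mul]
    · simp [Gam, N1, ty_zero]
  · intro i j s
    have hN1 : (1 : ℚ) ≤ (N : ℚ) := by exact_mod_cast hN
    have hp : (1 : ℚ) ≤ (N : ℚ) ^ s := one_le_pow₀ hN1
    have hone : |PowerSeries.coeff s (1 : PowerSeries ℚ)| ≤ (N : ℚ) ^ s := by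
      rw [PowerSeries.coeff_one]
      split_ifs
      · simpa using hp
      · simp
    fin_cases i <;> fin_cases j
    · exact hone
    · simp [Gam]
    · show |PowerSeries.coeff s (gam N)| ≤ (N : ℚ) ^ s
      simp only [gam, PowerSeries.coeff_mk]
      rw [abs_div, abs_mul, abs_pow, abs_neg, abs_one, one_pow, one_mul,
        abs_of_nonneg (by positivity), abs_of_nonneg (by positivity)]
      rcases Nat.eq_zero_or_pos s with h0 | h0
      · subst h0
        simp
      · have hs : (1 : ℚ) ≤ (s : ℚ) := by exact_mod_cast h0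
        rw [div_le_iff₀ (by positivity)]
        nlinarith
    · exact hone
  · intro k
    refine ⟨Nat.mul_pos (by norm_num) (Nat.lcmUpto_pos k), ?_⟩
    calc 2 * Nat.lcmUpto k ≤ 2 * 220 ^ k := Nat.mul_le_mul_left _ (KBD.p_LCM k)
      _ ≤ 440 * 440 ^ k := Nat.mul_le_mul (by norm_num) (Nat.pow_le_pow_left (by norm_num) k)
      _ = 440 ^ (k + 1) := by ring
  · intro i j k s hs
    have hone : ∃ x : ℤ, ((2 * Nat.lcmUpto k : ℕ) : ℚ) * PowerSeries.coeff s (1 : PowerSeries ℚ)
        = x := by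
      rw [PowerSeries.coeff_one]
      split_ifs
      · exact ⟨(2 * Nat.lcmUpto k : ℕ), by simp⟩
      · exact ⟨0, by simp⟩
    fin_cases i <;> fin_cases j
    · exact hone
    · exact ⟨0, by simp [Gam]⟩
    · show ∃ x : ℤ, ((2 * Nat.lcmUpto k : ℕ) : ℚ) * PowerSeries.coeff s (gam N) = x
      simp only [gam, PowerSeries.coeff_mk]
      rcases Nat.eq_zero_or_pos s with h0 | h0
      · subst h0
        exact ⟨0, by simp⟩
      · have hdvd : s ∣ Nat.lcmUpto k := by
          unfold Nat.lcmUpto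
          exact Finset.dvd_lcm (f := id) (Finset.mem_Icc.2 ⟨by omega, hs⟩)
        obtain ⟨q, hq⟩ := hdvd
        refine ⟨(q : ℤ) * ((-1) ^ (s + 1) * (N : ℤ) ^ s), ?_⟩
        have hs0 : (s : ℚ) ≠ 0 := by
          have : s ≠ 0 := by omega
          exact_mod_cast this
        rw [hq]
        push_cast
        field_simp
    · exact hone

end Pool.Agent.LEG
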