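import Pool.Agent.LEG.Targets2
import Pool.Agent.LEG.BBS
import Pool.Agent.KBD.ZE

set_option autoImplicit false

/-!
# LEG2-TRV: transport of the Legendre system
-/

namespace Pool.Agent.LEG

open Finset Polynomial
open scoped BigOperators

namespace TRV_

/-! ### the formula for `T^k D^k` -/

lemma choose_step (n m : ℕ) : ((m : ℚ) + 1) * (n.choose (m + 1) : ℚ) =
    ((n : ℚ) - m) * (n.choose m : ℚ) := by
  rcases Nat.lt_or_ge n m with h | h
  · rw [Nat.choose_eq_zero_of_lt h, Nat.choose_eq_zero_of_lt (by omega)]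
    simp
  · have h1 := Nat.choose_succ_right_eq n m
    have h2 : ((n.choose (m + 1) : ℕ) : ℚ) * ((m : ℚ) + 1) = (n.choose m : ℚ) * ((n : ℚ) - m) := by
      rw [← Nat.cast_sub h]
      exact_mod_cast h1
    linarith

/-- `∑_{j=1}^k (-1)^j/(2j) binom(n, k-j)` -/
noncomputable def kap (k n : ℕ) : ℚ :=
  ∑ j ∈ range k, ((-1 : ℚ) ^ (j + 1) / (2 * ((j : ℚ) + 1))) * (n.choose (k - (j + 1)) : ℚ)

lemma kap_succ (k n : ℕ) : ((k : ℚ) + 1) * kap (k + 1) n =
    ((n : ℚ) - k) * kap k n - 1 / 2 * (n.choose k : ℚ) := by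
  have e1 : ((k : ℚ) + 1) * kap (k + 1) n =
      ∑ j ∈ range (k + 1), ((-1 : ℚ) ^ (j + 1) / (2 * ((j : ℚ) + 1))) *
        (((k - j : ℕ) : ℚ) * (n.choose (k - j) : ℚ)) +
      ∑ j ∈ range (k + 1), (-1 : ℚ) ^ (j + 1) / 2 * (n.choose (k - j) : ℚ) := by
    unfold kap
    rw [Finset.mul_sum, ← Finset.sum_add_distrib]
    refine Finset.sum_congr rfl fun j hj => ?_
    rw [Finset.mem_range] at hj
    have h1 : k + 1 - (j + 1) = k - j := by omega
    have h2 : ((k - j : ℕ) : ℚ) = (k : ℚ) - j := by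
      rw [Nat.cast_sub (by omega)]
    rw [h1, h2]
    have h3 : (j : ℚ) + 1 ≠ 0 := by positivity
    field_simp
    ring
  have e2 : ∑ j ∈ range (k + 1), ((-1 : ℚ) ^ (j + 1) / (2 * ((j : ℚ) + 1))) *
        (((k - j : ℕ) : ℚ) * (n.choose (k - j) : ℚ)) =
      ((n : ℚ) - k) * kap k n +
        ∑ j ∈ range k, (-1 : ℚ) ^ (j + 1) / 2 * (n.choose (k - (j + 1)) : ℚ) := by
    rw [Finset.sum_range_succ, Nat.sub_self]
    simp only [Nat.cast_zero, zero_mul, mul_zero, add_zero]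
    unfold kap
    rw [Finset.mul_sum, ← Finset.sum_add_distrib]
    refine Finset.sum_congr rfl fun j hj => ?_
    rw [Finset.mem_range] at hj
    have h1 : k - j = (k - (j + 1)) + 1 := by omega
    have h2 := choose_step n (k - (j + 1))
    have h3 : ((k - (j + 1) : ℕ) : ℚ) = (k : ℚ) - (j + 1) := by
      rw [Nat.cast_sub (by omega)]; push_cast; ring
    rw [h1]
    push_cast
    rw [h2, h3]
    have h4 : (j : ℚ) + 1 ≠ 0 := by positivity
    field_simp
    ring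
  have e3 : ∑ j ∈ range (k + 1), (-1 : ℚ) ^ (j + 1) / 2 * (n.choose (k - j) : ℚ) =
      ∑ j ∈ range k, (-1 : ℚ) ^ (j + 2) / 2 * (n.choose (k - (j + 1)) : ℚ) -
        1 / 2 * (n.choose k : ℚ) := by
    rw [Finset.sum_range_succ']
    simp only [Nat.sub_zero]
    ring
  have e4 : ∑ j ∈ range k, (-1 : ℚ) ^ (j + 2) / 2 * (n.choose (k - (j + 1)) : ℚ) =
      - ∑ j ∈ range k, (-1 : ℚ) ^ (j + 1) / 2 * (n.choose (k - (j + 1)) : ℚ) := by
    rw [← Finset.sum_neg_distrib]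
    refine Finset.sum_congr rfl fun j _ => ?_
    ring
  rw [e1, e2, e3, e4]
  ring

/-- `z^k w^[k]` -/
noncomputable def S1 (k : ℕ) (w1 : PowerSeries ℚ) : PowerSeries ℚ :=
  PowerSeries.mk fun n => (n.choose k : ℚ) * PowerSeries.coeff n w1

noncomputable def S0 (k : ℕ) (w0 w1 : PowerSeries ℚ) : PowerSeries ℚ :=
  PowerSeries.mk fun n => (n.choose k : ℚ) * PowerSeries.coeff n w0 +
    kap k n * PowerSeries.coeff n w1

lemma coeff_Xd (f : PowerSeries ℚ) (n : ℕ) :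
    PowerSeries.coeff n (PowerSeries.X * PowerSeries.derivative ℚ f) =
      n * PowerSeries.coeff n f := by
  rcases n with _ | n
  · simp
  · rw [PowerSeries.coeff_succ_X_mul, PowerSeries.coeff_derivative]
    push_cast
    ring

lemma coeff_natCast_mul (m n : ℕ) (f : PowerSeries ℚ) :
    PowerSeries.coeff n ((m : PowerSeries ℚ) * f) = (m : ℚ) * PowerSeries.coeff n f := by
  rw [← map_natCast (PowerSeries.C (R := ℚ)) m, PowerSeries.coeff_C_mul]

lemma S1_rec (k : ℕ) (w1 : PowerSeries ℚ) :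
    ((k + 1 : ℕ) : PowerSeries ℚ) * S1 (k + 1) w1 =
      PowerSeries.X * PowerSeries.derivative ℚ (S1 k w1) - (k : PowerSeries ℚ) * S1 k w1 := by
  ext n
  rw [map_sub, coeff_natCast_mul, coeff_natCast_mul, coeff_Xd]
  simp only [S1, PowerSeries.coeff_mk]
  have h := choose_step n k
  push_cast
  linear_combination (PowerSeries.coeff n w1) * h

lemma S0_rec (k : ℕ) (w0 w1 : PowerSeries ℚ) :
    ((2 : ℕ) : PowerSeries ℚ) * (((k + 1 : ℕ) : PowerSeries ℚ) * S0 (k + 1) w0 w1) =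
      ((2 : ℕ) : PowerSeries ℚ) * (PowerSeries.X * PowerSeries.derivative ℚ (S0 k w0 w1)) -
        ((2 : ℕ) : PowerSeries ℚ) * ((k : PowerSeries ℚ) * S0 k w0 w1) - S1 k w1 := by
  ext n
  rw [map_sub, map_sub, coeff_natCast_mul, coeff_natCast_mul, coeff_natCast_mul,
    coeff_natCast_mul, coeff_natCast_mul, coeff_Xd]
  simp only [S0, S1, PowerSeries.coeff_mk]
  have h := choose_step n k
  have h' := kap_succ k n
  push_cast
  linear_combination (2 * PowerSeries.coeff n w0) * h + (2 * PowerSeries.coeff n w1) * h'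

lemma leib (a b : PowerSeries ℚ) : PowerSeries.derivative ℚ (a * b) =
    a * PowerSeries.derivative ℚ b + b * PowerSeries.derivative ℚ a := by
  rw [Derivation.leibniz]; rfl

lemma pow_der (u : PowerSeries ℚ) (k : ℕ) : u * PowerSeries.derivative ℚ (u ^ k) =
    (k : PowerSeries ℚ) * u ^ k * PowerSeries.derivative ℚ u := by
  rw [Derivation.leibniz_pow]
  rcases k with _ | k
  · simp
  · simp only [Nat.add_sub_cancel, smul_eq_mul, nsmul_eq_mul, pow_succ]
    ring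

/-- the formula -/
theorem formula (U : ℚ[X]) (A : Fin 2 → Fin 2 → ℚ[X]) (φ : Fin 2 → Fin 2 → PowerSeries ℚ)
    (w0 w1 : PowerSeries ℚ)
    (h0 : ∀ i, ((2 * X * U : ℚ[X]) : PowerSeries ℚ) * PowerSeries.derivative ℚ (φ i 0) =
      (A i 0 : PowerSeries ℚ) * φ 0 0 + (A i 1 : PowerSeries ℚ) * φ 1 0)
    (h1 : ∀ i, ((2 * X * U : ℚ[X]) : PowerSeries ℚ) * PowerSeries.derivative ℚ (φ i 1) =
      (A i 0 : PowerSeries ℚ) * φ 0 1 + (A i 1 : PowerSeries ℚ) * φ 1 1 -
        (U : PowerSeries ℚ) * φ i 0) (k : ℕ) :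
    ∀ i, VS (2 * X * U) A (fun i => φ i 0 * w0 + φ i 1 * w1) k i =
      (k.factorial : PowerSeries ℚ) * (((2 : ℕ) : PowerSeries ℚ) * (U : PowerSeries ℚ)) ^ k *
        (φ i 0 * S0 k w0 w1 + φ i 1 * S1 k w1) := by
  have h2 : ((2 : ℚ[X]) : PowerSeries ℚ) = ((2 : ℕ) : PowerSeries ℚ) := by
    have := map_ofNat (Polynomial.coeToPowerSeries.ringHom (R := ℚ)) 2
    simpa using this
  have hT : ((2 * X * U : ℚ[X]) : PowerSeries ℚ) =
      PowerSeries.X * (((2 : ℕ) : PowerSeries ℚ) * (U : PowerSeries ℚ)) := by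
    rw [Polynomial.coe_mul, Polynomial.coe_mul, Polynomial.coe_X, h2]
    ring
  have hT' : ((derivative (2 * X * U : ℚ[X]) : ℚ[X]) : PowerSeries ℚ) =
      ((2 : ℕ) : PowerSeries ℚ) * (U : PowerSeries ℚ) + PowerSeries.X *
        PowerSeries.derivative ℚ (((2 : ℕ) : PowerSeries ℚ) * (U : PowerSeries ℚ)) := by
    rw [← PowerSeries.derivative_coe, hT, leib, PowerSeries.derivative_X]
    ring
  induction k with
  | zero =>
    intro i
    have e0 : S0 0 w0 w1 = w0 := by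
      ext n
      simp [S0, kap]
    have e1 : S1 0 w1 = w1 := by
      ext n
      simp [S1]
    simp only [VS, e0, e1]
    simp
  | succ k ih =>
    intro i
    have r0 := S0_rec k w0 w1
    have r1 := S1_rec k w1
    have a0 := h0 i
    have a1 := h1 i
    simp only [VS]
    rw [ih i, Fin.sum_univ_two, ih 0, ih 1, hT']
    rw [hT] at a0 a1 ⊢
    set u : PowerSeries ℚ := ((2 : ℕ) : PowerSeries ℚ) * (U : PowerSeries ℚ) with hu
    have hp := pow_der u k
    have hfac : PowerSeries.derivative ℚ (k.factorial : PowerSeries ℚ) = 0 := by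
      rw [← map_natCast (PowerSeries.C (R := ℚ)) k.factorial]
      exact PowerSeries.derivative_C
    have hf1 : ((k + 1).factorial : PowerSeries ℚ) =
        ((k + 1 : ℕ) : PowerSeries ℚ) * (k.factorial : PowerSeries ℚ) := by
      rw [Nat.factorial_succ]; push_cast; ring
    rw [hf1, pow_succ]
    simp only [leib, map_add, hfac, mul_zero, add_zero]
    set F : PowerSeries ℚ := (k.factorial : PowerSeries ℚ) with hF
    set s0 := S0 k w0 w1
    set s1 := S1 k w1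
    push_cast at r0 r1 hu ⊢
    linear_combination (F * u ^ k * s0) * a0 + (F * u ^ k * s1) * a1 +
      (PowerSeries.X * F * (φ i 0 * s0 + φ i 1 * s1)) * hp -
      (F * u ^ k * (U : PowerSeries ℚ) * φ i 0) * r0 -
      (F * u ^ k * u * φ i 1) * r1 + (F * u ^ k * φ i 0 * PowerSeries.X *
        PowerSeries.derivative ℚ s0 - F * u ^ k * φ i 0 * (k : PowerSeries ℚ) * s0) * hu

/-! ### comparison of `VV`, `VS`, `BB` -/

lemma VV_BB {ι : Type} [Fintype ι] [DecidableEq ι] (T : ℚ[X]) (A : ι → ι → ℚ[X]) (j : ι) (k : ℕ) :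
    ∀ i, VV T A (fun l => if l = j then 1 else 0) k i = BB T A k i j := by
  induction k with
  | zero => intro i; rfl
  | succ k ih =>
    intro i
    simp only [VV, BB]
    rw [ih i]
    simp only [ih]

lemma BB_VS {ι : Type} [Fintype ι] [DecidableEq ι] (T : ℚ[X]) (A : ι → ι → ℚ[X]) (j : ι) (k : ℕ) :
    ∀ i, (BB T A k i j : PowerSeries ℚ) =
      VS T A (fun l => if l = j then 1 else 0) k i := by
  induction k with
  | zero =>
    intro i
    simp only [BB, VS]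
    split_ifs
    · exact Polynomial.coe_one
    · exact Polynomial.coe_zero
  | succ k ih =>
    intro i
    simp only [VS, BB]
    rw [Polynomial.coe_sub, Polynomial.coe_sub, Polynomial.coe_mul, Polynomial.coe_mul,
      Polynomial.coe_mul, ← PowerSeries.derivative_coe, ← ih i]
    congr 2
    · congr 1
      congr 1
      exact map_natCast (Polynomial.coeToPowerSeries.ringHom (R := ℚ)) k
    · have h := map_sum (Polynomial.coeToPowerSeries.ringHom (R := ℚ))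
        (fun l => A i l * BB T A k l j) Finset.univ
      simp only [Polynomial.coeToPowerSeries.ringHom_apply, Polynomial.coe_mul] at h
      rw [h]
      exact Finset.sum_congr rfl fun l _ => by rw [ih l]

lemma T1_eq (c a : ℕ) : T1 c a = 2 * X * ((1 - C (a : ℚ) * X) * (1 - C ((a : ℚ) + c) * X)) := by
  unfold T1
  ring

/-- the quadratic factor -/
noncomputable def U1 (c a : ℕ) : ℚ[X] := (1 - C (a : ℚ) * X) * (1 - C ((a : ℚ) + c) * X)

lemma hor0 (c a : ℕ) (h : Hor (T1 c a) (kron (A1 c a) (N1 c a)) (phi c a)) (i : Fin 2) :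
    ((2 * X * U1 c a : ℚ[X]) : PowerSeries ℚ) * PowerSeries.derivative ℚ (phi c a (i, 0)) =
      (A1 c a i 0 : PowerSeries ℚ) * phi c a (0, 0) +
        (A1 c a i 1 : PowerSeries ℚ) * phi c a (1, 0) := by
  have h1 := h (i, 0)
  rw [T1_eq] at h1
  unfold U1
  rw [h1, Fintype.sum_prod_type, Fin.sum_univ_two, Fin.sum_univ_two, Fin.sum_univ_two]
  fin_cases i <;> simp [kron, N1]

lemma hor1 (c a : ℕ) (h : Hor (T1 c a) (kron (A1 c a) (N1 c a)) (phi c a)) (i : Fin 2) :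
    ((2 * X * U1 c a : ℚ[X]) : PowerSeries ℚ) * PowerSeries.derivative ℚ (phi c a (i, 1)) =
      (A1 c a i 0 : PowerSeries ℚ) * phi c a (0, 1) +
        (A1 c a i 1 : PowerSeries ℚ) * phi c a (1, 1) -
        (U1 c a : PowerSeries ℚ) * phi c a (i, 0) := by
  have h1 := h (i, 1)
  rw [T1_eq] at h1
  unfold U1
  rw [h1, Fintype.sum_prod_type, Fin.sum_univ_two, Fin.sum_univ_two, Fin.sum_univ_two]
  fin_cases i
  · simp [kron, N1]
    ring
  · simp [kron, N1]
    ring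

/-- the formula for the matrices -/
lemma BB_form (c a : ℕ) (h : Hor (T1 c a) (kron (A1 c a) (N1 c a)) (phi c a))
    (hd : phi c a (0, 0) * phi c a (1, 1) - phi c a (1, 0) * phi c a (0, 1) = 1) (j : Fin 2) :
    ∃ w0 w1 : PowerSeries ℚ, (∃ p0 p1 : Fin 2 × Fin 2, (w0 = phi c a p0 ∨ w0 = - phi c a p0) ∧
      (w1 = phi c a p1 ∨ w1 = - phi c a p1)) ∧
      ∀ k i, (BB (T1 c a) (A1 c a) k i j : PowerSeries ℚ) =
        (k.factorial : PowerSeries ℚ) *
          (((2 : ℕ) : PowerSeries ℚ) * (U1 c a : PowerSeries ℚ)) ^ k *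
          (phi c a (i, 0) * S0 k w0 w1 + phi c a (i, 1) * S1 k w1) := by
  have key : ∀ w0 w1 : PowerSeries ℚ, (∀ i : Fin 2, phi c a (i, 0) * w0 + phi c a (i, 1) * w1 =
      if i = j then 1 else 0) → ∀ k i, (BB (T1 c a) (A1 c a) k i j : PowerSeries ℚ) =
        (k.factorial : PowerSeries ℚ) *
          (((2 : ℕ) : PowerSeries ℚ) * (U1 c a : PowerSeries ℚ)) ^ k *
          (phi c a (i, 0) * S0 k w0 w1 + phi c a (i, 1) * S1 k w1) := by
    intro w0 w1 hw k i
    rw [BB_VS]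
    have e := formula (U1 c a) (A1 c a) (fun i l => phi c a (i, l)) w0 w1 (hor0 c a h)
      (hor1 c a h) k i
    have e2 : (fun i : Fin 2 => phi c a (i, 0) * w0 + phi c a (i, 1) * w1) =
        fun l => if l = j then 1 else 0 := funext hw
    rw [e2] at e
    rw [T1_eq]
    exact e
  fin_cases j
  · refine ⟨phi c a (1, 1), - phi c a (1, 0), ⟨(1, 1), (1, 0), Or.inl rfl, Or.inr rfl⟩,
      key _ _ ?_⟩
    intro i
    fin_cases i
    · simp
      linear_combination hd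
    · simp
      ring
  · refine ⟨- phi c a (0, 1), phi c a (0, 0), ⟨(0, 1), (0, 0), Or.inr rfl, Or.inl rfl⟩,
      key _ _ ?_⟩
    intro i
    fin_cases i
    · simp
      ring
    · simp
      linear_combination hd

/-! ### integrality -/

lemma int_sum {α : Type} (s : Finset α) (f : α → ℚ) (h : ∀ i ∈ s, ∃ x : ℤ, f i = x) :
    ∃ x : ℤ, ∑ i ∈ s, f i = x := by
  refine Finset.sum_induction f (fun q => ∃ x : ℤ, q = x) ?_ ⟨0, by simp⟩ h
  rintro a b ⟨x, hx⟩ ⟨y, hy⟩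
  exact ⟨x + y, by rw [hx, hy]; push_cast; ring⟩

/-- the coefficients of `d f` up to `M` are integers -/
def IU (M : ℕ) (d : ℚ) (f : PowerSeries ℚ) : Prop :=
  ∀ n, n ≤ M → ∃ x : ℤ, d * PowerSeries.coeff n f = x

lemma IU_neg {M : ℕ} {d : ℚ} {f : PowerSeries ℚ} (h : IU M d f) : IU M d (-f) := by
  intro n hn
  obtain ⟨x, hx⟩ := h n hn
  exact ⟨-x, by rw [map_neg, mul_neg, hx]; push_cast; ring⟩

lemma IU_add {M : ℕ} {d : ℚ} {f g : PowerSeries ℚ} (h : IU M d f) (h' : IU M d g) :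
    IU M d (f + g) := by
  intro n hn
  obtain ⟨x, hx⟩ := h n hn
  obtain ⟨y, hy⟩ := h' n hn
  exact ⟨x + y, by rw [map_add, mul_add, hx, hy]; push_cast; ring⟩

lemma IU_mul {M : ℕ} {d d' : ℚ} {f g : PowerSeries ℚ} (h : IU M d f) (h' : IU M d' g) :
    IU M (d * d') (f * g) := by
  intro n hn
  rw [PowerSeries.coeff_mul, Finset.mul_sum]
  refine int_sum _ _ fun p hp => ?_
  rw [Finset.HasAntidiagonal.mem_antidiagonal] at hp
  obtain ⟨x, hx⟩ := h p.1 (by omega)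
  obtain ⟨y, hy⟩ := h' p.2 (by omega)
  exact ⟨x * y, by push_cast; rw [← hx, ← hy]; ring⟩

lemma IU_int {M : ℕ} {d : ℚ} {f : PowerSeries ℚ} (c : ℤ) (h : IU M d f) : IU M (c * d) f := by
  intro n hn
  obtain ⟨x, hx⟩ := h n hn
  exact ⟨c * x, by push_cast; rw [← hx]; ring⟩

lemma IU_one (M : ℕ) : IU M 1 1 := by
  intro n _
  rw [PowerSeries.coeff_one]
  split_ifs
  · exact ⟨1, by norm_num⟩
  · exact ⟨0, by norm_num⟩

lemma IU_X (M : ℕ) : IU M 1 PowerSeries.X := by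
  intro n _
  rw [PowerSeries.coeff_X]
  split_ifs
  · exact ⟨1, by norm_num⟩
  · exact ⟨0, by norm_num⟩

lemma IU_C (M : ℕ) (c : ℤ) : IU M 1 (PowerSeries.C (c : ℚ)) := by
  intro n _
  rw [PowerSeries.coeff_C]
  split_ifs
  · exact ⟨c, by norm_num⟩
  · exact ⟨0, by norm_num⟩

lemma IU_pow {M : ℕ} {f : PowerSeries ℚ} (h : IU M 1 f) (k : ℕ) : IU M 1 (f ^ k) := by
  induction k with
  | zero => rw [pow_zero]; exact IU_one M
  | succ k ih =>
    rw [pow_succ]
    have := IU_mul ih h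
    rwa [mul_one] at this

lemma IU_lin (M : ℕ) (b : ℤ) : IU M 1 (1 - PowerSeries.C (b : ℚ) * PowerSeries.X) := by
  rw [sub_eq_add_neg]
  refine IU_add (IU_one M) (IU_neg ?_)
  have := IU_mul (IU_C M b) (IU_X M)
  rwa [mul_one] at this

lemma IU_U (M c a : ℕ) : IU M 1 (((2 : ℕ) : PowerSeries ℚ) * (U1 c a : PowerSeries ℚ)) := by
  have e : (U1 c a : PowerSeries ℚ) = (1 - PowerSeries.C (((a : ℤ) : ℚ)) * PowerSeries.X) *
      (1 - PowerSeries.C ((((a : ℤ) + c : ℤ)) : ℚ) * PowerSeries.X) := by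
    unfold U1
    rw [Polynomial.coe_mul, Polynomial.coe_sub, Polynomial.coe_sub, Polynomial.coe_mul,
      Polynomial.coe_mul, Polynomial.coe_one, Polynomial.coe_C, Polynomial.coe_C, Polynomial.coe_X]
    push_cast
    rfl
  have h := IU_mul (IU_lin M (a : ℤ)) (IU_lin M ((a : ℤ) + c))
  rw [mul_one, ← e] at h
  have h2 : ((2 : ℕ) : PowerSeries ℚ) = PowerSeries.C (((2 : ℤ) : ℚ)) := by
    rw [← map_natCast (PowerSeries.C (R := ℚ)) 2]
    norm_num
  rw [h2]
  have h3 := IU_mul (IU_C M 2) h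
  rwa [mul_one] at h3

lemma IU_S1 {M : ℕ} {d : ℚ} {w : PowerSeries ℚ} (h : IU M d w) (k : ℕ) : IU M d (S1 k w) := by
  intro n hn
  obtain ⟨x, hx⟩ := h n hn
  refine ⟨(n.choose k : ℤ) * x, ?_⟩
  rw [S1, PowerSeries.coeff_mk]
  push_cast
  rw [← hx]
  ring

lemma kap_int (k s n : ℕ) (hs : s ≤ k) : ∃ x : ℤ, 2 * (Nat.lcmUpto k : ℚ) * kap s n = x := by
  unfold kap
  rw [Finset.mul_sum]
  refine int_sum _ _ fun j hj => ?_
  rw [Finset.mem_range] at hj
  have hdvd : (j + 1) ∣ Nat.lcmUpto k := by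
    unfold Nat.lcmUpto
    exact Finset.dvd_lcm (f := id) (Finset.mem_Icc.2 ⟨by omega, by omega⟩)
  obtain ⟨q, hq⟩ := hdvd
  refine ⟨(q : ℤ) * (-1) ^ (j + 1) * (n.choose (s - (j + 1)) : ℤ), ?_⟩
  rw [hq]
  push_cast
  have h3 : (j : ℚ) + 1 ≠ 0 := by positivity
  field_simp

lemma IU_S0 {M : ℕ} {D : ℚ} {w0 w1 : PowerSeries ℚ} (h0 : IU M D w0) (h1 : IU M D w1)
    (k s : ℕ) (hs : s ≤ k) : IU M (2 * (Nat.lcmUpto k : ℚ) * D) (S0 s w0 w1) := by
  intro n hn
  obtain ⟨x, hx⟩ := h0 n hn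
  obtain ⟨y, hy⟩ := h1 n hn
  obtain ⟨z, hz⟩ := kap_int k s n hs
  refine ⟨2 * (Nat.lcmUpto k : ℤ) * (n.choose s : ℤ) * x + z * y, ?_⟩
  rw [S0, PowerSeries.coeff_mk]
  push_cast
  rw [← hx, ← hy, ← hz]
  ring

/-- denominators of the matrices -/
lemma BB_den (c a : ℕ) (h : Hor (T1 c a) (kron (A1 c a) (N1 c a)) (phi c a))
    (hd : phi c a (0, 0) * phi c a (1, 1) - phi c a (1, 0) * phi c a (0, 1) = 1)
    (M D k s : ℕ) (hs : s ≤ k) (hD : ∀ p, IU M (D : ℚ) (phi c a p)) (i j : Fin 2) (n : ℕ)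
    (hn : n ≤ M) : ∃ x : ℤ, ((D * (2 * Nat.lcmUpto k * D) : ℕ) : ℚ) *
      ((BB (T1 c a) (A1 c a) s i j).coeff n / (s.factorial : ℚ)) = x := by
  obtain ⟨w0, w1, ⟨p0, p1, hw0, hw1⟩, hf⟩ := BB_form c a h hd j
  have i0 : IU M (D : ℚ) w0 := by
    rcases hw0 with rfl | rfl
    · exact hD p0
    · exact IU_neg (hD p0)
  have i1 : IU M (D : ℚ) w1 := by
    rcases hw1 with rfl | rfl
    · exact hD p1
    · exact IU_neg (hD p1)
  have a0 := IU_mul (hD (i, 0)) (IU_S0 i0 i1 k s hs)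
  have a1 := IU_mul (hD (i, 1)) (IU_int (2 * (Nat.lcmUpto k : ℤ)) (IU_S1 i1 s))
  have e1 : (D : ℚ) * (((2 * (Nat.lcmUpto k : ℤ) : ℤ) : ℚ) * (D : ℚ)) =
      (D : ℚ) * (2 * (Nat.lcmUpto k : ℚ) * D) := by push_cast; ring
  rw [e1] at a1
  have a2 := IU_mul (IU_pow (IU_U M c a) s) (IU_add a0 a1)
  obtain ⟨x, hx⟩ := a2 n hn
  refine ⟨x, ?_⟩
  rw [← hx, ← Polynomial.coeff_coe, hf s i, mul_assoc (s.factorial : PowerSeries ℚ),
    coeff_natCast_mul]
  have hs0 : (s.factorial : ℚ) ≠ 0 := by exact_mod_cast Nat.factorial_ne_zero s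
  push_cast
  field_simp

/-- denominators of the values of the matrices -/
lemma BB_val (c a : ℕ) (h : Hor (T1 c a) (kron (A1 c a) (N1 c a)) (phi c a))
    (hd : phi c a (0, 0) * phi c a (1, 1) - phi c a (1, 0) * phi c a (0, 1) = 1)
    (hT : (T1 c a).natDegree ≤ 3) (hA : ∀ i j, (A1 c a i j).natDegree ≤ 3)
    (D k s N : ℕ) (hN : 1 ≤ N) (hs : s ≤ k) (hD : ∀ p, IU (3 * k) (D : ℚ) (phi c a p))
    (i j : Fin 2) : ∃ x : ℤ, ((D * (2 * Nat.lcmUpto k * D) : ℕ) : ℚ) * (N : ℚ) ^ (3 * s) *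
      ((BB (T1 c a) (A1 c a) s i j).eval (1 / (N : ℚ)) / (s.factorial : ℚ)) = x := by
  have hdeg := BBS_.BB_deg (T1 c a) (A1 c a) hT hA s i j
  rw [Polynomial.eval_eq_sum_range' (n := 3 * s + 1) (by omega), Finset.sum_div, Finset.mul_sum]
  refine int_sum _ _ fun n hn => ?_
  rw [Finset.mem_range] at hn
  obtain ⟨x, hx⟩ := BB_den c a h hd (3 * k) D k s hs hD i j n (by omega)
  refine ⟨x * (N : ℤ) ^ (3 * s - n), ?_⟩
  push_cast
  rw [← hx]
  have hN0 : (N : ℚ) ≠ 0 := by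
    have : 0 < N := hN
    positivity
  have e : (N : ℚ) ^ (3 * s) = (N : ℚ) ^ (3 * s - n) * (N : ℚ) ^ n := by
    rw [← pow_add]
    congr 1
    omega
  rw [e, one_div, inv_pow]
  push_cast
  field_simp

/-! ### sizes -/

open BBS_ in
lemma evq_le (p : ℚ[X]) (x : ℚ) (hx : |x| ≤ 1) : |p.eval x| ≤ nr p := by
  rw [eval_eq_sum_range, nr_eq (supp_subset_range_natDegree_succ (p := p))]
  refine (Finset.abs_sum_le_sum_abs _ _).trans (sum_le_sum fun n _ => ?_)
  rw [abs_mul, abs_pow]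
  have h1 : |x| ^ n ≤ 1 := pow_le_one₀ (abs_nonneg _) hx
  calc |p.coeff n| * |x| ^ n ≤ |p.coeff n| * 1 := mul_le_mul_of_nonneg_left h1 (abs_nonneg _)
    _ = _ := mul_one _

open BBS_ in
lemma nr_lin (b : ℚ) (hb : 0 ≤ b) : nr (1 - C b * X) ≤ 1 + b := by
  refine (nr_sub _ _).trans ?_
  have e1 : nr (1 : ℚ[X]) = 1 := by
    have h := nr_natCast 1
    rw [Nat.cast_one] at h
    rw [h]; norm_num
  have e2 : nr (C b * X : ℚ[X]) = b := by
    have h := nr_monomial 1 b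
    rw [← C_mul_X_pow_eq_monomial, pow_one] at h
    rw [h, abs_of_nonneg hb]
  rw [e1, e2]

open BBS_ in
lemma nr_T1 (c a : ℕ) : nr (T1 c a) ≤ 2 * (1 + a) * (1 + (a + c)) := by
  unfold T1
  have e2 : nr (2 : ℚ[X]) = 2 := by
    have h := nr_natCast 2
    rw [show ((2 : ℕ) : ℚ[X]) = 2 from rfl] at h
    rw [h]; norm_num
  have e3 : nr (X : ℚ[X]) = 1 := by
    have h := nr_monomial 1 1
    rw [← C_mul_X_pow_eq_monomial, pow_one, map_one, one_mul] at h
    rw [h, abs_one]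
  have h1 := nr_lin (a : ℚ) (by positivity)
  have h2 := nr_lin ((a : ℚ) + c) (by positivity)
  refine (nr_mul _ _).trans ?_
  refine mul_le_mul ?_ h2 (nr_nonneg _) (by positivity)
  refine (nr_mul _ _).trans ?_
  refine mul_le_mul ?_ h1 (nr_nonneg _) (by positivity)
  refine (nr_mul _ _).trans ?_
  rw [e2, e3, mul_one]

lemma deg_T1 (c a : ℕ) : (T1 c a).natDegree ≤ 3 := by
  unfold T1
  compute_degree

lemma deg_A1 (c a : ℕ) (i j : Fin 2) : (A1 c a i j).natDegree ≤ 3 := by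
  unfold A1
  fin_cases i <;> fin_cases j <;> simp <;> compute_degree <;> norm_num

open BBS_ in
lemma nr_A1 (c a : ℕ) (i j : Fin 2) : nr (A1 c a i j) ≤ 1 + (a + c) := by
  have h1 := nr_lin (a : ℚ) (by positivity)
  have h2 := nr_lin ((a : ℚ) + c) (by positivity)
  have h3 : (0 : ℚ) ≤ c := by positivity
  unfold A1
  fin_cases i <;> fin_cases j
  · show nr (-(1 - C ((a : ℚ) + c) * X)) ≤ _
    rw [nr_neg]; exact h2
  · show nr (1 - C (a : ℚ) * X) ≤ _
    linarith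
  · show nr (-(1 - C ((a : ℚ) + c) * X)) ≤ _
    rw [nr_neg]; exact h2
  · show nr (1 - C ((a : ℚ) + c) * X) ≤ _
    exact h2

open BBS_ in
lemma BB_size (c a k : ℕ) (i j : Fin 2) (x : ℚ) (hx : |x| ≤ 1) :
    |(BB (T1 c a) (A1 c a) k i j).eval x| ≤
      (16 * ((c : ℚ) + 1) * ((a : ℚ) + 1) ^ 2) ^ k * (k.factorial : ℚ) := by
  have hc0 : (0 : ℚ) ≤ c := by positivity
  have ha0 : (0 : ℚ) ≤ a := by positivity
  refine (evq_le _ _ hx).trans (BB_nr (T1 c a) (A1 c a) (ρ := 3) (deg_T1 c a) (deg_A1 c a) _ ?_ ?_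
    k i j)
  · have hT := nr_T1 c a
    have hT' := nr_derivative (T1 c a)
    have hdeg : (((T1 c a).natDegree : ℕ) : ℚ) ≤ 3 := by exact_mod_cast deg_T1 c a
    have hT'' : nr (derivative (T1 c a)) ≤ 3 * nr (T1 c a) :=
      hT'.trans (mul_le_mul_of_nonneg_right hdeg (nr_nonneg _))
    rw [Fin.sum_univ_two, Fin.sum_univ_two, Fin.sum_univ_two]
    have a1 := nr_A1 c a 0 0
    have a2 := nr_A1 c a 0 1
    have a3 := nr_A1 c a 1 0
    have a4 := nr_A1 c a 1 1
    push_cast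
    nlinarith [mul_nonneg hc0 ha0, mul_nonneg ha0 ha0, mul_nonneg hc0 (mul_nonneg ha0 ha0)]
  · nlinarith [mul_nonneg hc0 ha0, mul_nonneg ha0 ha0, mul_nonneg hc0 (mul_nonneg ha0 ha0)]

/-- the value of `T` -/
lemma T1_val (c a N : ℕ) (hN : 2 * (a + c) ≤ N) (hN1 : 1 ≤ N) :
    (T1 c a).eval (1 / (N : ℚ)) = ((2 * (N - a) * (N - a - c) : ℕ) : ℚ) / (N : ℚ) ^ 3 := by
  have hN0 : (N : ℚ) ≠ 0 := by
    have : 0 < N := hN1
    positivity
  have e1 : ((N - a : ℕ) : ℚ) = (N : ℚ) - a := by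
    rw [Nat.cast_sub (by omega)]
  have e2 : ((N - a - c : ℕ) : ℚ) = (N : ℚ) - a - c := by
    rw [Nat.cast_sub (by omega), e1]
  unfold T1
  rw [Nat.cast_mul, Nat.cast_mul, e1, e2]
  simp only [eval_mul, eval_sub, eval_one, eval_C, eval_X, eval_ofNat]
  push_cast
  field_simp
  ring

end TRV_

open TRV_ in
theorem p_TRV (h1 : T_LOC) (h2 : T_ODE1) (h3 : T_GPHIU) : T_TRV := by
  intro c hc
  obtain ⟨C1, hC1⟩ := h3 c
  obtain ⟨C0, hC0⟩ : ∃ C0 : ℕ, C0 = 440 + 24 * C1 + 32 * (c + 1) := ⟨_, rfl⟩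
  refine ⟨C0, ?_⟩
  intro a N hN
  obtain ⟨hor, hdet⟩ := h2 c a hc
  have hN1 : 1 ≤ N := by omega
  have hN0 : (0 : ℚ) < N := by exact_mod_cast hN1
  set τ : ℕ := 2 * (N - a) * (N - a - c) with hτ
  have hτ0 : 0 < τ := by
    have e1 : 0 < N - a := by omega
    have e2 : 0 < N - a - c := by omega
    positivity
  have hTz := T1_val c a N hN hN1
  rw [← hτ] at hTz
  have hTpos : 0 < (T1 c a).eval (1 / (N : ℚ)) := by
    rw [hTz]
    positivity
  have hloc := fun i : Fin 2 => h1 (Fin 2) (T1 c a) (A1 c a) (1 / (N : ℚ)) hTpos.ne'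
    (fun l => if i = l then 1 else 0)
  choose Γ hΓ0 hΓ using hloc
  have hP : ∀ (i j : Fin 2), ∑ l, Γ i l * ty (1 / (N : ℚ)) (if l = j then (1 : ℚ[X]) else 0) =
      Γ i j := by
    intro i j
    have : ∀ l, Γ i l * ty (1 / (N : ℚ)) (if l = j then (1 : ℚ[X]) else 0) =
        if l = j then Γ i l else 0 := by
      intro l
      split_ifs
      · simp [ty]
      · simp [ty]
    rw [Finset.sum_congr rfl fun l _ => this l]
    simp
  have key0 : ∀ (k : ℕ) (i j : Fin 2), ∑ l, Γ i l * ty (1 / (N : ℚ)) (BB (T1 c a) (A1 c a) k l j) =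
      ty (1 / (N : ℚ)) (T1 c a) ^ k * (PowerSeries.derivative ℚ)^[k] (Γ i j) := by
    intro k i j
    have h := hΓ i (fun l => if l = j then 1 else 0) k
    simp only [VV_BB] at h
    rw [h, hP i j]
  have hty : ∀ p : ℚ[X], PowerSeries.constantCoeff (ty (1 / (N : ℚ)) p) = p.eval (1 / (N : ℚ)) := by
    intro p
    unfold ty
    rw [← PowerSeries.coeff_zero_eq_constantCoeff_apply, Polynomial.coeff_coe,
      Polynomial.taylor_coeff_zero]
  have key : ∀ (k : ℕ) (i j : Fin 2), (BB (T1 c a) (A1 c a) k i j).eval (1 / (N : ℚ)) =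
      (T1 c a).eval (1 / (N : ℚ)) ^ k * ((k.factorial : ℚ) * PowerSeries.coeff k (Γ i j)) := by
    intro k i j
    have h := congrArg PowerSeries.constantCoeff (key0 k i j)
    rw [map_sum, map_mul, map_pow, PowerSeries.constantCoeff_iterate_derivative, hty] at h
    rw [← h]
    simp only [map_mul, hty, hΓ0]
    simp
  have key1 : ∀ (k : ℕ) (i j : Fin 2), PowerSeries.coeff k (Γ i j) =
      (N : ℚ) ^ (3 * k) / (τ : ℚ) ^ k *
        ((BB (T1 c a) (A1 c a) k i j).eval (1 / (N : ℚ)) / (k.factorial : ℚ)) := by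
    intro k i j
    rw [key k i j, hTz]
    have hs0 : (k.factorial : ℚ) ≠ 0 := by exact_mod_cast Nat.factorial_ne_zero k
    have hτ1 : (τ : ℚ) ≠ 0 := by exact_mod_cast hτ0.ne'
    rw [div_pow, ← pow_mul]
    field_simp
  -- the denominators
  set Cc : ℕ := (C1 * (a + 1)) ^ C1 with hCc
  have hCc1 : 1 ≤ Cc := by
    rcases Nat.eq_zero_or_pos C1 with h0 | h0
    · rw [hCc, h0]; simp
    · exact Nat.one_le_pow _ _ (by positivity)
  have hd : ∀ (n : ℕ) (p : Fin 2 × Fin 2), ∃ d : ℕ, 0 < d ∧ d ≤ Cc ^ (n + 1) ∧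
      ∀ s, s ≤ n → ∃ x : ℤ, (d : ℚ) * PowerSeries.coeff s (phi c a p) = x :=
    fun n p => (hC1 a p n).2
  choose dd hdd0 hdd1 hdd2 using hd
  set D : ℕ → ℕ := fun k => ∏ p, dd (3 * k) p with hD
  have hDpos : ∀ k, 0 < D k := fun k => Finset.prod_pos fun p _ => hdd0 _ p
  have hDle : ∀ k, D k ≤ (Cc ^ (3 * k + 1)) ^ 4 := by
    intro k
    have h := Finset.prod_le_pow_card Finset.univ (fun p : Fin 2 × Fin 2 => dd (3 * k) p)
      (Cc ^ (3 * k + 1)) (fun p _ => hdd1 _ p)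
    have e : (Finset.univ : Finset (Fin 2 × Fin 2)).card = 4 := by simp
    rw [e] at h
    exact h
  have hDI : ∀ k p, IU (3 * k) (D k : ℚ) (phi c a p) := by
    intro k p
    obtain ⟨q, hq⟩ : dd (3 * k) p ∣ D k := Finset.dvd_prod_of_mem _ (Finset.mem_univ p)
    have h : IU (3 * k) (dd (3 * k) p : ℚ) (phi c a p) := fun n hn => hdd2 _ p n hn
    have h' := IU_int (q : ℤ) h
    have e : ((q : ℤ) : ℚ) * (dd (3 * k) p : ℚ) = (D k : ℚ) := by
      rw [hq]; push_cast; ring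
    rwa [e] at h'
  -- the constants
  have hbase : 1 ≤ C0 * (a + 1) := by
    have : 1 ≤ C0 := by omega
    exact Nat.one_le_iff_ne_zero.mpr (by positivity)
  refine ⟨Γ, fun k => D k * (2 * Nat.lcmUpto k * D k), τ, ?_, ?_, ?_, hτ0, ?_, ?_, ?_⟩
  · intro i j
    exact hΓ0 i j
  · intro i j
    have h := key0 1 i j
    rw [pow_one, Function.iterate_one] at h
    change ty (1 / (N : ℚ)) (T1 c a) * PowerSeries.derivative ℚ (Γ i j) =
      - ∑ l, Γ i l * ty (1 / (N : ℚ)) (A1 c a l j)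
    rw [← h, ← Finset.sum_neg_distrib]
    refine Finset.sum_congr rfl fun l _ => ?_
    have e : BB (T1 c a) (A1 c a) 1 l j = - A1 c a l j := by
      have e0 : ∀ l, BB (T1 c a) (A1 c a) 0 l j = if l = j then 1 else 0 := fun l => rfl
      have e1 : BB (T1 c a) (A1 c a) 1 l j = T1 c a * derivative (BB (T1 c a) (A1 c a) 0 l j) -
          ((0 : ℕ) : ℚ[X]) * derivative (T1 c a) * BB (T1 c a) (A1 c a) 0 l j -
          ∑ m, A1 c a l m * BB (T1 c a) (A1 c a) 0 m j := rfl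
      rw [e1]
      simp only [e0]
      split_ifs <;> simp
    rw [e]
    unfold ty
    rw [map_neg, Polynomial.coe_neg]
    ring
  · intro i j s
    have hN2 : |1 / (N : ℚ)| ≤ 1 := by
      rw [abs_of_pos (by positivity), div_le_one hN0]
      exact_mod_cast hN1
    have hb := BB_size c a s i j (1 / (N : ℚ)) hN2
    have hs0 : (0 : ℚ) < (s.factorial : ℚ) := by exact_mod_cast Nat.factorial_pos s
    have hτ1 : (0 : ℚ) < (τ : ℚ) := by exact_mod_cast hτ0
    have hb' : |(BB (T1 c a) (A1 c a) s i j).eval (1 / (N : ℚ)) / (s.factorial : ℚ)| ≤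
        (16 * ((c : ℚ) + 1) * ((a : ℚ) + 1) ^ 2) ^ s := by
      rw [abs_div, abs_of_pos hs0, div_le_iff₀ hs0]
      exact hb
    have hq : (N : ℚ) ^ (3 * s) / (τ : ℚ) ^ s ≤ (2 * (N : ℚ)) ^ s := by
      rw [pow_mul, ← div_pow]
      refine pow_le_pow_left₀ (by positivity) ?_ s
      rw [div_le_iff₀ hτ1]
      have e1 : ((N - a : ℕ) : ℚ) = (N : ℚ) - a := by
        rw [Nat.cast_sub (by omega)]
      have e2 : ((N - a - c : ℕ) : ℚ) = (N : ℚ) - a - c := by
        rw [Nat.cast_sub (by omega), e1]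
      rw [hτ]
      push_cast
      rw [e1, e2]
      have h5 : 2 * ((a : ℚ) + c) ≤ N := by exact_mod_cast hN
      have ha0 : (0 : ℚ) ≤ a := by positivity
      have hc0 : (0 : ℚ) ≤ c := by positivity
      have h6 : (N : ℚ) / 2 ≤ (N : ℚ) - a := by linarith
      have h7 : (N : ℚ) / 2 ≤ (N : ℚ) - a - c := by linarith
      have h8 : (N : ℚ) / 2 * ((N : ℚ) / 2) ≤ ((N : ℚ) - a) * ((N : ℚ) - a - c) :=
        mul_le_mul h6 h7 (by positivity) (by linarith)
      nlinarith [h8, hN0]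
    rw [key1 s i j, abs_mul, abs_of_nonneg (by positivity)]
    calc (N : ℚ) ^ (3 * s) / (τ : ℚ) ^ s *
          |(BB (T1 c a) (A1 c a) s i j).eval (1 / (N : ℚ)) / (s.factorial : ℚ)|
        ≤ (2 * (N : ℚ)) ^ s * (16 * ((c : ℚ) + 1) * ((a : ℚ) + 1) ^ 2) ^ s :=
          mul_le_mul hq hb' (abs_nonneg _) (by positivity)
      _ = ((((32 * (c + 1) * (a + 1) ^ 2 : ℕ) : ℚ)) * N) ^ s := by
          rw [← mul_pow]
          congr 1
          push_cast
          ring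
      _ ≤ ((((C0 * (a + 1)) ^ C0 : ℕ) : ℚ) * N) ^ s := by
          refine pow_le_pow_left₀ (by positivity) ?_ s
          refine mul_le_mul_of_nonneg_right ?_ hN0.le
          have : 32 * (c + 1) * (a + 1) ^ 2 ≤ (C0 * (a + 1)) ^ C0 := by
            calc 32 * (c + 1) * (a + 1) ^ 2 ≤ C0 * (a + 1) ^ 2 :=
                  Nat.mul_le_mul_right _ (by omega)
              _ ≤ C0 * C0 * (a + 1) ^ 2 := by
                  refine Nat.mul_le_mul_right _ ?_
                  exact Nat.le_mul_of_pos_left _ (by omega)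
              _ = (C0 * (a + 1)) ^ 2 := by ring
              _ ≤ (C0 * (a + 1)) ^ C0 := Nat.pow_le_pow_right hbase (by omega)
          exact_mod_cast this
      _ ≤ ((((C0 * (a + 1)) ^ C0 : ℕ) : ℚ) * N) ^ (C0 * (s + 1)) := by
          refine pow_le_pow_right₀ ?_ ?_
          · have : 1 ≤ (C0 * (a + 1)) ^ C0 * N := Nat.one_le_iff_ne_zero.mpr
              (by positivity)
            exact_mod_cast this
          · nlinarith [show 1 ≤ C0 by omega]
  · have h4 : 2 ≤ (C0 * (a + 1)) ^ C0 := by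
      calc 2 ≤ C0 * (a + 1) := le_trans (show 2 ≤ C0 by omega)
            (Nat.le_mul_of_pos_right _ (Nat.succ_pos a))
        _ = (C0 * (a + 1)) ^ 1 := (pow_one _).symm
        _ ≤ _ := Nat.pow_le_pow_right hbase (by omega)
    calc τ ≤ 2 * N * N := by
          rw [hτ]
          exact Nat.mul_le_mul (Nat.mul_le_mul_left _ (by omega)) (by omega)
      _ ≤ (2 * N) ^ 2 := by nlinarith
      _ ≤ ((C0 * (a + 1)) ^ C0 * N) ^ 2 := Nat.pow_le_pow_left (Nat.mul_le_mul_right _ h4) 2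
      _ ≤ ((C0 * (a + 1)) ^ C0 * N) ^ C0 := by
          refine Nat.pow_le_pow_right ?_ (by omega)
          exact Nat.one_le_iff_ne_zero.mpr (by positivity)
  · intro k
    have hl := Nat.lcmUpto_pos k
    have hDk := hDpos k
    refine ⟨by positivity, ?_⟩
    have h220 := KBD.p_LCM k
    have hDl := hDle k
    calc D k * (2 * Nat.lcmUpto k * D k) ≤
          (Cc ^ (3 * k + 1)) ^ 4 * (2 * 220 ^ k * (Cc ^ (3 * k + 1)) ^ 4) :=
          Nat.mul_le_mul hDl (Nat.mul_le_mul (Nat.mul_le_mul_left _ h220) hDl)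
      _ = (2 * 220 ^ k) * Cc ^ (8 * (3 * k + 1)) := by
          rw [← pow_mul]
          have : 8 * (3 * k + 1) = (3 * k + 1) * 4 + (3 * k + 1) * 4 := by ring
          rw [this, pow_add]
          ring
      _ ≤ 440 ^ (k + 1) * Cc ^ (24 * (k + 1)) := by
          refine Nat.mul_le_mul ?_ (Nat.pow_le_pow_right hCc1 (by omega))
          calc 2 * 220 ^ k ≤ 440 * 440 ^ k :=
                Nat.mul_le_mul (by norm_num) (Nat.pow_le_pow_left (by norm_num) k)
            _ = 440 ^ (k + 1) := by ring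
      _ = (440 * (C1 * (a + 1)) ^ (24 * C1)) ^ (k + 1) := by
          rw [mul_pow, hCc, ← pow_mul, ← pow_mul]
          congr 2
          ring
      _ ≤ ((C0 * (a + 1)) ^ C0) ^ (k + 1) := by
          refine Nat.pow_le_pow_left ?_ _
          calc 440 * (C1 * (a + 1)) ^ (24 * C1) ≤ (C0 * (a + 1)) * (C0 * (a + 1)) ^ (24 * C1) := by
                refine Nat.mul_le_mul ?_ (Nat.pow_le_pow_left
                  (Nat.mul_le_mul_right _ (by omega)) _)
                exact le_trans (show 440 ≤ C0 by omega)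
                  (Nat.le_mul_of_pos_right _ (Nat.succ_pos a))
            _ = (C0 * (a + 1)) ^ (24 * C1 + 1) := by ring
            _ ≤ _ := Nat.pow_le_pow_right hbase (by omega)
  · intro i j k s hs
    obtain ⟨x, hx⟩ := BB_val c a hor hdet (deg_T1 c a) (deg_A1 c a) (D k) k s N hN1 hs
      (hDI k) i j
    refine ⟨x, ?_⟩
    rw [← hx, key1 s i j]
    have hτ1 : (τ : ℚ) ≠ 0 := by exact_mod_cast hτ0.ne'
    push_cast
    field_simp

end Pool.Agent.LEG

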