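import Pool.Agent.LEG.Targets
import Pool.Agent.GF.Targets

set_option autoImplicit false

/-!
# Periods of Legendre curves, version 2 (power saving): definitions and exact targets

The complete proofs are in `Blueprint2.lean.txt`.
-/

namespace Pool.Agent.LEG

open Finset
open scoped BigOperators Topology

/-! ## uniform families -/

/-- `IsG` with constant `C` -/
def IsGC (C : ℕ) (f : PowerSeries ℚ) : Prop :=
  ∀ n : ℕ, |PowerSeries.coeff n f| ≤ (C : ℚ) ^ (n + 1) ∧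
    ∃ d : ℕ, 0 < d ∧ d ≤ C ^ (n + 1) ∧ ∀ s, s ≤ n → ∃ x : ℤ, (d : ℚ) * PowerSeries.coeff s f = x

/-- a family solving a system `T g' = A g` with nilpotent residue at `0`, with bounds for the
coefficients and for the transport at `1 / N` (compare `GF.GSys`) -/
structure UG {ι : Type} [Fintype ι] [DecidableEq ι] (T : Polynomial ℚ) (g : ι → PowerSeries ℚ)
    (N C d : ℕ) : Prop where
  C_pos : 1 ≤ C
  d_pos : 1 ≤ d
  bd : ∀ i s, |PowerSeries.coeff s (g i)| ≤ (C : ℚ) ^ (s + 1)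
  den : ∃ e : ℕ → ℕ, (∀ k, 0 < e k ∧ e k ≤ C ^ (k + 1)) ∧
    ∀ i k s, s ≤ k → ∃ x : ℤ, (e k : ℚ) * PowerSeries.coeff s (g i) = x
  sys : ∃ (S : GF.Sys ι) (Γ : ι → ι → PowerSeries ℚ) (e : ℕ → ℕ) (τ : ℕ), S.T = T ∧ S.f = g ∧
    (∀ i j, (S.A i j).natDegree ≤ d) ∧ GF.Ode S ∧
    IsNilpotent (Matrix.of fun i j => (S.A i j).eval 0) ∧ GF.Tr S (1 / (N : ℚ)) Γ ∧
    (∀ i j s, |PowerSeries.coeff s (Γ i j)| ≤ ((C : ℚ) * N) ^ (d * (s + 1))) ∧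
    0 < τ ∧ τ ≤ (C * N) ^ d ∧ (∀ k, 0 < e k ∧ e k ≤ C ^ (k + 1)) ∧
    ∀ i j k s, s ≤ k → ∃ x : ℤ, (e k : ℚ) * (τ : ℚ) ^ s * PowerSeries.coeff s (Γ i j) = x

/-- monotonicity and relabelling -/
def T_UMONO : Prop := (∀ (ι : Type) [Fintype ι] [DecidableEq ι] (T : Polynomial ℚ)
    (g : ι → PowerSeries ℚ) (N C d C' d' : ℕ), 1 ≤ N → C ≤ C' → d ≤ d' → UG T g N C d →
    UG T g N C' d') ∧
  (∀ (ι κ : Type) [Fintype ι] [DecidableEq ι] [Fintype κ] [DecidableEq κ] (T : Polynomial ℚ)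
    (g : ι → PowerSeries ℚ) (N C d : ℕ) (e : κ ≃ ι), UG T g N C d →
    UG T (fun p => g (e p)) N C d)

/-- tensor products -/
def T_UMUL : Prop := ∀ (ι κ : Type) [Fintype ι] [DecidableEq ι] [Fintype κ] [DecidableEq κ]
  (T : Polynomial ℚ) (g : ι → PowerSeries ℚ) (h : κ → PowerSeries ℚ) (N C d C' d' : ℕ), 1 ≤ N →
  UG T g N C d → UG T h N C' d' →
  UG T (fun p : ι × κ => g p.1 * h p.2) N (2 * C * C') (d + d')

/-- direct sums -/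
def T_USUM : Prop := ∀ (ι κ : Type) [Fintype ι] [DecidableEq ι] [Fintype κ] [DecidableEq κ]
  (T : Polynomial ℚ) (g : ι → PowerSeries ℚ) (h : κ → PowerSeries ℚ) (N C d : ℕ), 1 ≤ N →
  UG T g N C d → UG T h N C d → UG T (Sum.elim g h) N (C * C) (2 * d)

/-- products over a finite set (from T_UMUL, T_UMONO) -/
def T_UPI : Prop := ∀ (S κ : Type) [Fintype S] [DecidableEq S] [Fintype κ] [DecidableEq κ]
  (T : Polynomial ℚ) (g : S → κ → PowerSeries ℚ) (N C d : ℕ), 1 ≤ N → 1 ≤ C → 1 ≤ d →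
  (∀ s, UG T (g s) N C d) →
  UG T (fun w : S → κ => ∏ s, g s (w s)) N ((2 * C) ^ Fintype.card S) (d * Fintype.card S + 1)

/-- removing repetitions -/
def T_USUB : Prop := ∀ (ι κ : Type) [Fintype ι] [DecidableEq ι] [Fintype κ] [DecidableEq κ]
  (T : Polynomial ℚ) (g : ι → PowerSeries ℚ) (N C d : ℕ) (e : κ → ι) (q : ι → κ), 1 ≤ N →
  (∀ p, q (e p) = p) → (∀ i, g i = g (e (q i))) → Indep (fun p => g (e p)) → UG T g N C d →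
  UG T (fun p => g (e p)) N ((Fintype.card ι + 1) * C) d

/-! ## one block -/

/-- `2 z (1 - a z) (1 - (a + c) z)` -/
noncomputable def T1 (c a : ℕ) : Polynomial ℚ :=
  2 * Polynomial.X * (1 - Polynomial.C (a : ℚ) * Polynomial.X) *
    (1 - Polynomial.C ((a : ℚ) + c) * Polynomial.X)

/-- the system for `(K, E)` -/
noncomputable def A1 (c a : ℕ) : Fin 2 → Fin 2 → Polynomial ℚ :=
  ![![-(1 - Polynomial.C ((a : ℚ) + c) * Polynomial.X), 1 - Polynomial.C (a : ℚ) * Polynomial.X],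
    ![-(1 - Polynomial.C ((a : ℚ) + c) * Polynomial.X),
      1 - Polynomial.C ((a : ℚ) + c) * Polynomial.X]]

/-- the unipotent part -/
noncomputable def N1 (c a : ℕ) : Fin 2 → Fin 2 → Polynomial ℚ :=
  ![![0, 0], ![-((1 - Polynomial.C (a : ℚ) * Polynomial.X) *
    (1 - Polynomial.C ((a : ℚ) + c) * Polynomial.X)), 0]]

/-- the system of one block, and the determinant -/
def T_ODE1 : Prop := ∀ c a : ℕ, 1 ≤ c → Hor (T1 c a) (kron (A1 c a) (N1 c a)) (phi c a) ∧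
  phi c a (0, 0) * phi c a (1, 1) - phi c a (1, 0) * phi c a (0, 1) = 1

/-- sizes and denominators, polynomial in `a` -/
def T_GPHIU : Prop := ∀ c : ℕ, ∃ C0 : ℕ, ∀ (a : ℕ) (p : Fin 2 × Fin 2),
  IsGC ((C0 * (a + 1)) ^ C0) (phi c a p)

/-- transport of `(K, E)` (from T_ODE1, T_GPHIU) -/
def T_TRV : Prop := ∀ c : ℕ, 1 ≤ c → ∃ C0 : ℕ, ∀ a N : ℕ, 2 * (a + c) ≤ N →
  ∃ (Γ : Fin 2 → Fin 2 → PowerSeries ℚ) (e : ℕ → ℕ) (τ : ℕ),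
    (∀ i j, PowerSeries.constantCoeff (Γ i j) = if i = j then 1 else 0) ∧
    (∀ i j, GF.ty (1 / (N : ℚ)) (T1 c a) * PowerSeries.derivative ℚ (Γ i j) =
      - ∑ l, Γ i l * GF.ty (1 / (N : ℚ)) (A1 c a l j)) ∧
    (∀ i j s, |PowerSeries.coeff s (Γ i j)| ≤
      ((((C0 * (a + 1)) ^ C0 : ℕ) : ℚ) * N) ^ (C0 * (s + 1))) ∧
    0 < τ ∧ τ ≤ ((C0 * (a + 1)) ^ C0 * N) ^ C0 ∧
    (∀ k, 0 < e k ∧ e k ≤ ((C0 * (a + 1)) ^ C0) ^ (k + 1)) ∧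
    ∀ i j k s, s ≤ k → ∃ x : ℤ, (e k : ℚ) * (τ : ℚ) ^ s * PowerSeries.coeff s (Γ i j) = x

/-- transport of the unipotent part -/
def T_TRU : Prop := ∃ C0 : ℕ, ∀ c a N : ℕ, 2 * (a + c) ≤ N → 1 ≤ N →
  ∃ (Γ : Fin 2 → Fin 2 → PowerSeries ℚ) (e : ℕ → ℕ),
    (∀ i j, PowerSeries.constantCoeff (Γ i j) = if i = j then 1 else 0) ∧
    (∀ i j, GF.ty (1 / (N : ℚ)) (T1 c a) * PowerSeries.derivative ℚ (Γ i j) =
      - ∑ l, Γ i l * GF.ty (1 / (N : ℚ)) (N1 c a l j)) ∧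
    (∀ i j s, |PowerSeries.coeff s (Γ i j)| ≤ (N : ℚ) ^ s) ∧
    (∀ k, 0 < e k ∧ e k ≤ C0 ^ (k + 1)) ∧
    ∀ i j k s, s ≤ k → ∃ x : ℤ, (e k : ℚ) * PowerSeries.coeff s (Γ i j) = x

/-- the common denominator for several blocks -/
noncomputable def TR (c : ℕ) {r : ℕ} (a : Fin r → ℕ) : Polynomial ℚ :=
  2 * Polynomial.X * ∏ i, ((1 - Polynomial.C (a i : ℚ) * Polynomial.X) *
    (1 - Polynomial.C ((a i : ℚ) + c) * Polynomial.X))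

/-- one block over the common denominator (from T_ODE1, T_GPHIU, T_TRV, T_TRU) -/
def T_BLKU : Prop := ∀ c r : ℕ, 1 ≤ c → ∃ C0 : ℕ, ∀ (A N : ℕ) (a : Fin r → ℕ), (∀ i, a i ≤ A) →
  2 * (A + c) ≤ N → ∀ i, UG (TR c a) (phi c (a i)) N ((C0 * (A + 1)) ^ C0) C0

/-! ## the family -/

/-- monomials of degree exactly `n` or `n - 1` in the four entries of each block -/
abbrev Ix (r n : ℕ) : Type :=
  {μ : Fin r → Fin 2 × Fin 2 → Fin (n + 1) //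
    ∀ i, (∑ p, (μ i p : ℕ) = n) ∨ (∑ p, (μ i p : ℕ) + 1 = n)}

/-- the monomials -/
noncomputable def ff (c : ℕ) {r : ℕ} (a : Fin r → ℕ) (n : ℕ) (μ : Ix r n) : PowerSeries ℚ :=
  ∏ i, ∏ p, phi c (a i) p ^ (μ.1 i p : ℕ)

/-- formal functional independence for arbitrary shifts (from T_FI, T_RHO, T_EVPHI, T_EVC) -/
def T_FIPU : Prop := ∀ (c r : ℕ) (a : Fin r → ℕ), 1 ≤ c → Function.Injective a →
  ∀ (P : MvPolynomial (Fin r × Fin 2 × Fin 2) (Polynomial ℚ)),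
  MvPolynomial.eval₂ (Polynomial.coeToPowerSeries.ringHom)
    (fun v => phi c (a v.1) v.2) P = 0 →
  ∀ (z : ℚ) (x : Fin r → Matrix (Fin 2) (Fin 2) ℝ), (∀ i, (x i).det = 1) →
    MvPolynomial.eval₂ ((algebraMap ℚ ℝ).comp (Polynomial.evalRingHom z))
      (fun v => x v.1 v.2.1 v.2.2) P = 0

/-- (from T_FIPU) -/
def T_INDU : Prop := ∀ (c r n : ℕ) (a : Fin r → ℕ), 1 ≤ c → 1 ≤ n → Function.Injective a →
  Indep (ff c a n)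

/-- (from T_BLKU, T_UMONO, T_USUM, T_UPI, T_USUB, T_INDU) -/
def T_FAMU : Prop := ∀ c r : ℕ, 1 ≤ c → ∃ C0 : ℕ, ∀ (n A N : ℕ) (a : Fin r → ℕ), 1 ≤ n →
  Function.Injective a → (∀ i, a i ≤ A) → 2 * (A + c) ≤ N →
  UG (TR c a) (ff c a n) N ((C0 * (A + 1)) ^ (C0 * n)) (C0 * n)

/-- no relation of bounded degree between the values
(from GF.T_TG, T_FAMU, T_INDU, T_FIPU, T_EVPHI, T_EVC) -/
def T_GTU : Prop := ∀ c r : ℕ, 1 ≤ c → ∃ b : ℕ, ∀ (B A N : ℕ) (a : Fin r → ℕ),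
  Function.Injective a → (∀ i, a i ≤ A) → (A + 2) ^ (b * (B + 1) ^ b) ≤ N →
  ∀ W : MvPolynomial (Fin r × Fin 3) ℤ, (∀ v, W.degreeOf v ≤ B) →
    MvPolynomial.aeval (fun v => xn c N (a v.1) v.2) W = 0 → W = 0

/-! ## elimination and counting, explicit in the degree -/

/-- elimination by counting dimensions -/
def T_ELIMX : Prop := ∀ K r S : ℕ, K < S → ∃ b : ℕ, ∀ (D : ℕ) (θ : Fin K → ℂ) (y : Fin r → ℂ)
  (s : Fin S → Fin K ⊕ Fin r), (∀ i, Rl D θ (y i)) → ∃ W : MvPolynomial (Fin S) ℤ, W ≠ 0 ∧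
    (∀ v, W.degreeOf v ≤ b * (D + 1) ^ b) ∧
    MvPolynomial.aeval (fun v => Sum.elim θ y (s v)) W = 0

/-- (from T_ELIMX) -/
def T_ELIM3X : Prop := ∀ K r : ℕ, K < r → ∃ b : ℕ, ∀ (D : ℕ) (θ : Fin K → ℂ)
  (x : Fin r → Fin 3 → ℂ), (∀ i, Rl3 D θ (x i)) → ∃ W : MvPolynomial (Fin r × Fin 3) ℤ, W ≠ 0 ∧
    (∀ v, W.degreeOf v ≤ b * (D + 1) ^ b) ∧ MvPolynomial.aeval (fun v => x v.1 v.2) W = 0

/-- from periods to the functions (from T_RHO) -/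
def T_EXCX : Prop := ∀ c k : ℕ, 1 ≤ c → ∃ b : ℕ, ∀ (D N : ℕ) (θ : Fin k → ℂ),
  ∃ θ' : Fin (k + 2) → ℂ, ∀ a : ℕ, a + c < N → Exc c D θ (N - a) →
    Rl3 (b * (D + 1)) θ' (fun j => (xn c N a j : ℂ))

/-- few exceptions in a window (from T_EXCX, T_ELIM3X, T_GTU) -/
def T_WINX : Prop := ∀ c k : ℕ, 1 ≤ c → ∃ b : ℕ, ∀ (D A N : ℕ), (A + 2) ^ (b * (D + 1) ^ b) ≤ N →
  ∀ θ : Fin k → ℂ, ({a : ℕ | a ≤ A ∧ Exc c D θ (N - a)}).ncard ≤ k + 2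

/-- one curve (from T_WINX) -/
def T_ONEX : Prop := ∀ c k : ℕ, 1 ≤ c → ∃ K : ℕ, 1 ≤ K ∧ ∀ (D T : ℕ) (θ : Fin k → ℂ), 1 ≤ D →
  1 ≤ T → (({N : ℕ | c < N ∧ N ≤ T ∧ Exc c D θ N}).ncard : ℝ) ≤
    K * (T : ℝ) ^ (1 - 1 / (K * (D : ℝ) ^ K))

/-- several curves (from T_ONEX, T_GEN) -/
def T_MULTIX : Prop := ∀ (n k : ℕ) (c : Fin n → ℕ), (∀ i, 1 ≤ c i) → ∃ K : ℕ, 1 ≤ K ∧
  ∀ (D T : ℕ) (θ : Fin k → ℂ), 1 ≤ D → 1 ≤ T →
  (({N : Fin n → ℕ | (∀ i, c i < N i ∧ N i ≤ T) ∧ MExc c D θ N}).ncard : ℝ) ≤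
    K * (T : ℝ) ^ ((n : ℝ) - 1 / (K * (D : ℝ) ^ K))

end Pool.Agent.LEG
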