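import Pool.Agent.LEG.Targets2

set_option autoImplicit false

/-!
# UMONO: monotonicity and relabelling of uniform families
-/

namespace Pool.Agent.LEG

open Finset
open scoped BigOperators Topology

namespace UMONO_

lemma ndpow {C C' k : ℕ} (h : C ≤ C') : C ^ k ≤ C' ^ k := Nat.pow_le_pow_left h k

lemma qpow {C C' k : ℕ} (h : C ≤ C') : (C : ℚ) ^ k ≤ (C' : ℚ) ^ k := by
  exact_mod_cast Nat.pow_le_pow_left h k

lemma mono {ι : Type} [Fintype ι] [DecidableEq ι] (T : Polynomial ℚ)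
    (g : ι → PowerSeries ℚ) (N C d C' d' : ℕ) (hN : 1 ≤ N) (hC : C ≤ C') (hd : d ≤ d')
    (h : UG T g N C d) : UG T g N C' d' := by
  have hC1 := h.C_pos
  have hCN : 1 ≤ C' * N := Nat.mul_pos (hC1.trans hC) hN
  have hCN2 : C * N ≤ C' * N := Nat.mul_le_mul_right N hC
  refine ⟨hC1.trans hC, h.d_pos.trans hd, fun i s => (h.bd i s).trans (qpow hC), ?_, ?_⟩
  · obtain ⟨e, he, he'⟩ := h.den
    exact ⟨e, fun k => ⟨(he k).1, (he k).2.trans (ndpow hC)⟩, he'⟩
  · obtain ⟨S, Γ, e, τ, s1, s2, s3, s4, s5, s6, s7, s8, s9, s10, s11⟩ := h.sys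
    refine ⟨S, Γ, e, τ, s1, s2, fun i j => (s3 i j).trans hd, s4, s5, s6, ?_, s8, ?_,
      fun k => ⟨(s10 k).1, (s10 k).2.trans (ndpow hC)⟩, s11⟩
    · intro i j s
      refine (s7 i j s).trans ?_
      have h1 : (C * N) ^ (d * (s + 1)) ≤ (C' * N) ^ (d' * (s + 1)) :=
        (Nat.pow_le_pow_left hCN2 _).trans
          (Nat.pow_le_pow_right hCN (Nat.mul_le_mul_right _ hd))
      exact_mod_cast h1
    · exact s9.trans ((Nat.pow_le_pow_left hCN2 _).trans (Nat.pow_le_pow_right hCN hd))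

lemma relabel {ι κ : Type} [Fintype ι] [DecidableEq ι] [Fintype κ] [DecidableEq κ]
    (T : Polynomial ℚ) (g : ι → PowerSeries ℚ) (N C d : ℕ) (e : κ ≃ ι) (h : UG T g N C d) :
    UG T (fun p => g (e p)) N C d := by
  refine ⟨h.C_pos, h.d_pos, fun i s => h.bd (e i) s, ?_, ?_⟩
  · obtain ⟨E, he, he'⟩ := h.den
    exact ⟨E, he, fun i k s hs => he' (e i) k s hs⟩
  · obtain ⟨S, Γ, E, τ, s1, s2, s3, s4, s5, s6, s7, s8, s9, s10, s11⟩ := h.sys
    refine ⟨⟨S.T, fun i j => S.A (e i) (e j), fun p => S.f (e p)⟩,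
      fun i j => Γ (e i) (e j), E, τ, s1, ?_, fun i j => s3 _ _, ?_, ?_, ⟨?_, ?_⟩,
      fun i j s => s7 _ _ s, s8, s9, s10, fun i j k s hs => s11 _ _ k s hs⟩
    · simp only [s2]
    · intro i
      simp only
      rw [s4 (e i)]
      exact (Equiv.sum_comp e (fun j => (S.A (e i) j : PowerSeries ℚ) * S.f j)).symm
    · have h2 := s5.map (Matrix.reindexAlgEquiv ℚ ℚ e.symm)
      have h3 : (Matrix.reindexAlgEquiv ℚ ℚ e.symm)
          (Matrix.of fun i j => Polynomial.eval 0 (S.A i j)) =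
          Matrix.of fun i j => (S.A (e i) (e j)).eval 0 := by
        ext i j
        simp [Matrix.coe_reindexAlgEquiv]
      rw [h3] at h2
      exact h2
    · intro i j
      rw [s6.init (e i) (e j)]
      simp only [e.injective.eq_iff]
    · intro i j
      simp only
      rw [s6.ode (e i) (e j)]
      congr 1
      exact (Equiv.sum_comp e (fun l => Γ (e i) l * GF.ty (1 / (N : ℚ)) (S.A l (e j)))).symm

end UMONO_

theorem p_UMONO : T_UMONO :=
  ⟨fun _ _ _ T g N C d C' d' hN hC hd h => UMONO_.mono T g N C d C' d' hN hC hd h,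
    fun _ _ _ _ _ _ T g N C d e h => UMONO_.relabel T g N C d e h⟩

end Pool.Agent.LEG
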