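import Pool.Agent.LEG.Targets2

set_option autoImplicit false

/-!
# UMUL: tensor products of uniform families
-/

namespace Pool.Agent.LEG

open Finset
open scoped BigOperators Topology

namespace UMUL_

theorem two_pow (s : ℕ) : ((s : ℚ) + 1) ≤ 2 ^ (s + 1) := by
  have h : s + 1 ≤ 2 ^ (s + 1) := Nat.lt_two_pow_self.le
  exact_mod_cast h

/-- the ordinary differential equation of the tensor product -/
theorem ode_kron {ι κ : Type} [Fintype ι] [DecidableEq ι] [Fintype κ] [DecidableEq κ]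
    {T : Polynomial ℚ} {A : ι → ι → Polynomial ℚ} {B : κ → κ → Polynomial ℚ}
    {f : ι → PowerSeries ℚ} {g : κ → PowerSeries ℚ}
    (hf : ∀ i, (T : PowerSeries ℚ) * PowerSeries.derivative ℚ (f i) =
      ∑ j, (A i j : PowerSeries ℚ) * f j)
    (hg : ∀ i, (T : PowerSeries ℚ) * PowerSeries.derivative ℚ (g i) =
      ∑ j, (B i j : PowerSeries ℚ) * g j) (p : ι × κ) :
    (T : PowerSeries ℚ) * PowerSeries.derivative ℚ (f p.1 * g p.2) =
      ∑ q : ι × κ, (kron A B p q : PowerSeries ℚ) * (f q.1 * g q.2) := by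
  obtain ⟨i, j⟩ := p
  have h1 := hf i
  have h2 := hg j
  have h3 : ∑ q : ι × κ, (kron A B (i, j) q : PowerSeries ℚ) * (f q.1 * g q.2) =
      (∑ l, (A i l : PowerSeries ℚ) * f l) * g j + f i * ∑ l, (B j l : PowerSeries ℚ) * g l := by
    have h4 : ∀ q : ι × κ, (kron A B (i, j) q : PowerSeries ℚ) * (f q.1 * g q.2) =
        (if j = q.2 then (A i q.1 : PowerSeries ℚ) * f q.1 * g q.2 else 0) +
          (if i = q.1 then (B j q.2 : PowerSeries ℚ) * (f q.1 * g q.2) else 0) := by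
      intro q
      unfold kron
      rw [Polynomial.coe_add, add_mul]
      congr 1
      · split_ifs
        · ring
        · simp
      · split_ifs
        · ring
        · simp
    simp only [h4]
    rw [Finset.sum_add_distrib, Fintype.sum_prod_type, Fintype.sum_prod_type]
    congr 1
    · rw [Finset.sum_mul]
      refine Finset.sum_congr rfl fun l _ => ?_
      rw [Finset.sum_ite_eq univ j]
      simp
    · rw [Finset.sum_comm, Finset.mul_sum]
      refine Finset.sum_congr rfl fun l _ => ?_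
      rw [Finset.sum_ite_eq univ i]
      simp only [Finset.mem_univ, if_true]
      ring
  simp only
  rw [h3, ← h1, ← h2, Derivation.leibniz]
  simp only [smul_eq_mul]
  ring

/-- the transport of the tensor product -/
theorem tr_kron {ι κ : Type} [Fintype ι] [DecidableEq ι] [Fintype κ] [DecidableEq κ] {z0 : ℚ}
    {T : Polynomial ℚ} {A : ι → ι → Polynomial ℚ} {B : κ → κ → Polynomial ℚ}
    {Γ : ι → ι → PowerSeries ℚ} {Δ : κ → κ → PowerSeries ℚ}
    (hf : ∀ i j, GF.ty z0 T * PowerSeries.derivative ℚ (Γ i j) =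
      - ∑ l, Γ i l * GF.ty z0 (A l j))
    (hg : ∀ i j, GF.ty z0 T * PowerSeries.derivative ℚ (Δ i j) =
      - ∑ l, Δ i l * GF.ty z0 (B l j)) (p q : ι × κ) :
    GF.ty z0 T * PowerSeries.derivative ℚ (Γ p.1 q.1 * Δ p.2 q.2) =
      - ∑ l : ι × κ, (Γ p.1 l.1 * Δ p.2 l.2) * GF.ty z0 (kron A B l q) := by
  obtain ⟨i, j⟩ := p
  obtain ⟨i', j'⟩ := q
  have h1 := hf i i'
  have h2 := hg j j'
  have hty : ∀ P Q : Polynomial ℚ, GF.ty z0 (P + Q) = GF.ty z0 P + GF.ty z0 Q := by
    intro P Q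
    rw [GF.ty, map_add, Polynomial.coe_add]
    rfl
  have hty0 : GF.ty z0 0 = 0 := by
    rw [GF.ty, map_zero, Polynomial.coe_zero]
  have h3 : ∑ l : ι × κ, (Γ i l.1 * Δ j l.2) * GF.ty z0 (kron A B l (i', j')) =
      (∑ l, Γ i l * GF.ty z0 (A l i')) * Δ j j' +
        Γ i i' * ∑ l, Δ j l * GF.ty z0 (B l j') := by
    have h4 : ∀ l : ι × κ, (Γ i l.1 * Δ j l.2) * GF.ty z0 (kron A B l (i', j')) =
        (if l.2 = j' then Γ i l.1 * GF.ty z0 (A l.1 i') * Δ j l.2 else 0) +
          (if l.1 = i' then Γ i l.1 * (Δ j l.2 * GF.ty z0 (B l.2 j')) else 0) := by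
      intro l
      unfold kron
      rw [hty, mul_add]
      congr 1
      · split_ifs
        · ring
        · rw [hty0, mul_zero]
      · split_ifs
        · ring
        · rw [hty0, mul_zero]
    simp only [h4]
    rw [Finset.sum_add_distrib, Fintype.sum_prod_type, Fintype.sum_prod_type]
    congr 1
    · rw [Finset.sum_mul]
      refine Finset.sum_congr rfl fun l _ => ?_
      rw [Finset.sum_ite_eq' univ j']
      simp
    · rw [Finset.sum_comm, Finset.mul_sum]
      refine Finset.sum_congr rfl fun l _ => ?_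
      rw [Finset.sum_ite_eq' univ i']
      simp
  simp only
  rw [h3, Derivation.leibniz]
  simp only [smul_eq_mul]
  linear_combination Δ j j' * h1 + Γ i i' * h2

open scoped Kronecker in
theorem pow_kron_one {ι κ : Type} [Fintype ι] [DecidableEq ι] [Fintype κ] [DecidableEq κ]
    (A : Matrix ι ι ℚ) (n : ℕ) :
    (A ⊗ₖ (1 : Matrix κ κ ℚ)) ^ n = (A ^ n) ⊗ₖ (1 : Matrix κ κ ℚ) := by
  induction n with
  | zero => rw [pow_zero, pow_zero, Matrix.one_kronecker_one]
  | succ n ih => rw [pow_succ, ih, ← Matrix.mul_kronecker_mul, one_mul, pow_succ]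

open scoped Kronecker in
theorem pow_one_kron {ι κ : Type} [Fintype ι] [DecidableEq ι] [Fintype κ] [DecidableEq κ]
    (B : Matrix κ κ ℚ) (n : ℕ) :
    ((1 : Matrix ι ι ℚ) ⊗ₖ B) ^ n = (1 : Matrix ι ι ℚ) ⊗ₖ (B ^ n) := by
  induction n with
  | zero => rw [pow_zero, pow_zero, Matrix.one_kronecker_one]
  | succ n ih => rw [pow_succ, ih, ← Matrix.mul_kronecker_mul, one_mul, pow_succ]

open scoped Kronecker in
theorem nil_kron {ι κ : Type} [Fintype ι] [DecidableEq ι] [Fintype κ] [DecidableEq κ]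
    {A : ι → ι → Polynomial ℚ} {B : κ → κ → Polynomial ℚ}
    (hA : IsNilpotent (Matrix.of fun i j => (A i j).eval 0))
    (hB : IsNilpotent (Matrix.of fun i j => (B i j).eval 0)) :
    IsNilpotent (Matrix.of fun p q => (kron A B p q).eval 0) := by
  set A0 : Matrix ι ι ℚ := Matrix.of fun i j => (A i j).eval 0 with hA0
  set B0 : Matrix κ κ ℚ := Matrix.of fun i j => (B i j).eval 0 with hB0
  have h1 : (Matrix.of fun p q => (kron A B p q).eval 0) =
      A0 ⊗ₖ (1 : Matrix κ κ ℚ) + (1 : Matrix ι ι ℚ) ⊗ₖ B0 := by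
    ext p q
    simp only [Matrix.of_apply, Matrix.add_apply, Matrix.kroneckerMap_apply, hA0, hB0, kron,
      Polynomial.eval_add, Matrix.one_apply]
    congr 1
    · split_ifs <;> simp
    · split_ifs <;> simp
  rw [h1]
  apply Commute.isNilpotent_add
  · show A0 ⊗ₖ (1 : Matrix κ κ ℚ) * (1 : Matrix ι ι ℚ) ⊗ₖ B0 =
      (1 : Matrix ι ι ℚ) ⊗ₖ B0 * A0 ⊗ₖ (1 : Matrix κ κ ℚ)
    rw [← Matrix.mul_kronecker_mul, ← Matrix.mul_kronecker_mul]
    simp
  · obtain ⟨n, hn⟩ := hA
    exact ⟨n, by rw [pow_kron_one, hn, Matrix.zero_kronecker]⟩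
  · obtain ⟨n, hn⟩ := hB
    exact ⟨n, by rw [pow_one_kron, hn, Matrix.kronecker_zero]⟩

/-- size of the coefficients of a product -/
theorem size_mul {f g : PowerSeries ℚ} {a b : ℚ} {s : ℕ} (ha : 1 ≤ a) (hb : 1 ≤ b)
    (hf : ∀ s, |PowerSeries.coeff s f| ≤ a ^ (s + 1))
    (hg : ∀ s, |PowerSeries.coeff s g| ≤ b ^ (s + 1)) :
    |PowerSeries.coeff s (f * g)| ≤ (s + 1) * (a ^ (s + 1) * b ^ (s + 1)) := by
  rw [PowerSeries.coeff_mul]
  refine (Finset.abs_sum_le_sum_abs _ _).trans ?_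
  have h : ∀ p ∈ Finset.HasAntidiagonal.antidiagonal s,
      |PowerSeries.coeff p.1 f * PowerSeries.coeff p.2 g| ≤ a ^ (s + 1) * b ^ (s + 1) := by
    intro p hp
    have hp' : p.1 + p.2 = s := Finset.HasAntidiagonal.mem_antidiagonal.1 hp
    rw [abs_mul]
    apply mul_le_mul ((hf _).trans (pow_le_pow_right₀ ha (by omega)))
      ((hg _).trans (pow_le_pow_right₀ hb (by omega))) (abs_nonneg _) (by positivity)
  refine (Finset.sum_le_sum h).trans ?_
  rw [Finset.sum_const, Finset.Nat.card_antidiagonal, nsmul_eq_mul]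
  push_cast
  exact le_rfl

/-- denominators of a product -/
theorem den_mul {f g : PowerSeries ℚ} {e e' k : ℕ} {τ τ' : ℕ}
    (hf : ∀ s, s ≤ k → ∃ x : ℤ, (e : ℚ) * (τ : ℚ) ^ s * PowerSeries.coeff s f = x)
    (hg : ∀ s, s ≤ k → ∃ x : ℤ, (e' : ℚ) * (τ' : ℚ) ^ s * PowerSeries.coeff s g = x) (s : ℕ)
    (hs : s ≤ k) :
    ∃ x : ℤ, ((e * e' : ℕ) : ℚ) * ((τ * τ' : ℕ) : ℚ) ^ s * PowerSeries.coeff s (f * g) = x := by
  rw [PowerSeries.coeff_mul, Finset.mul_sum]
  have h : ∀ p ∈ Finset.HasAntidiagonal.antidiagonal s, ∃ x : ℤ,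
      ((e * e' : ℕ) : ℚ) * ((τ * τ' : ℕ) : ℚ) ^ s *
        (PowerSeries.coeff p.1 f * PowerSeries.coeff p.2 g) = x := by
    intro p hp
    have hp' : p.1 + p.2 = s := Finset.HasAntidiagonal.mem_antidiagonal.1 hp
    obtain ⟨x, hx⟩ := hf p.1 (by omega)
    obtain ⟨y, hy⟩ := hg p.2 (by omega)
    refine ⟨x * y * τ ^ p.2 * τ' ^ p.1, ?_⟩
    push_cast
    rw [← hx, ← hy, ← hp']
    ring
  choose! F hF using h
  refine ⟨∑ p ∈ Finset.HasAntidiagonal.antidiagonal s, F p, ?_⟩
  push_cast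
  refine Finset.sum_congr rfl fun p hp => ?_
  have := hF p hp
  push_cast at this
  exact this

end UMUL_

open UMUL_ in
theorem p_UMUL : T_UMUL := by
  intro ι κ _ _ _ _ T g h N C d C' d' hN hg hh
  obtain ⟨S, Γ, e, τ, hST, hSf, hSd, hSo, hSn, hSt, hSb, hτ0, hτ, he, hei⟩ := hg.sys
  obtain ⟨S', Γ', e', τ', hST', hSf', hSd', hSo', hSn', hSt', hSb', hτ0', hτ', he', hei'⟩ := hh.sys
  have hC := hg.C_pos
  have hC' := hh.C_pos
  have hd := hg.d_pos
  have hd' := hh.d_pos
  have hCq : (1 : ℚ) ≤ C := by exact_mod_cast hC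
  have hCq' : (1 : ℚ) ≤ C' := by exact_mod_cast hC'
  have hNq : (1 : ℚ) ≤ N := by exact_mod_cast hN
  have hCN : (1 : ℚ) ≤ (C : ℚ) * N := one_le_mul_of_one_le_of_one_le hCq hNq
  have hCN' : (1 : ℚ) ≤ (C' : ℚ) * N := one_le_mul_of_one_le_of_one_le hCq' hNq
  have hee : ∀ (a b : ℕ → ℕ), (∀ k, 0 < a k ∧ a k ≤ C ^ (k + 1)) →
      (∀ k, 0 < b k ∧ b k ≤ C' ^ (k + 1)) →
      ∀ k, 0 < a k * b k ∧ a k * b k ≤ (2 * C * C') ^ (k + 1) := by
    intro a b ha hb k
    refine ⟨Nat.mul_pos (ha k).1 (hb k).1, (Nat.mul_le_mul (ha k).2 (hb k).2).trans ?_⟩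
    rw [← mul_pow]
    apply Nat.pow_le_pow_left
    nlinarith [Nat.zero_le (C * C')]
  refine ⟨?_, by omega, ?_, ?_, ?_⟩
  · have := Nat.mul_pos (Nat.mul_pos two_pos hC) hC'
    omega
  · rintro ⟨i, j⟩ s
    refine (size_mul (s := s) hCq hCq' (hg.bd i) (hh.bd j)).trans ?_
    push_cast
    rw [mul_pow, mul_pow, ← mul_assoc]
    have h1 := two_pow s
    gcongr
  · obtain ⟨a, ha, ha'⟩ := hg.den
    obtain ⟨b, hb, hb'⟩ := hh.den
    refine ⟨fun k => a k * b k, hee a b ha hb, ?_⟩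
    rintro ⟨i, j⟩ k s hs
    have h1 := den_mul (f := g i) (g := h j) (e := a k) (e' := b k) (k := k) (τ := 1) (τ' := 1)
      (fun s hs => by simpa using ha' i k s hs) (fun s hs => by simpa using hb' j k s hs) s hs
    simpa using h1
  · refine ⟨⟨T, kron S.A S'.A, fun p : ι × κ => g p.1 * h p.2⟩,
      fun p q => Γ p.1 q.1 * Γ' p.2 q.2, fun k => e k * e' k, τ * τ', rfl, rfl, ?_, ?_, ?_, ?_, ?_,
      Nat.mul_pos hτ0 hτ0', ?_, hee e e' he he', ?_⟩
    · intro p q
      unfold kron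
      refine (Polynomial.natDegree_add_le _ _).trans (max_le ?_ ?_)
      · split_ifs
        · exact (hSd _ _).trans (by omega)
        · simp
      · split_ifs
        · exact (hSd' _ _).trans (by omega)
        · simp
    · refine ode_kron (T := T) (A := S.A) (B := S'.A) (f := g) (g := h) ?_ ?_
      · rw [← hST, ← hSf]; exact hSo
      · rw [← hST', ← hSf']; exact hSo'
    · exact nil_kron hSn hSn'
    · refine ⟨?_, ?_⟩
      · rintro ⟨i, j⟩ ⟨i', j'⟩
        simp only [map_mul]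
        rw [hSt.init, hSt'.init]
        by_cases h1 : i = i' <;> by_cases h2 : j = j' <;> simp [h1, h2]
      · refine tr_kron (T := T) (A := S.A) (B := S'.A) (Γ := Γ) (Δ := Γ') ?_ ?_
        · rw [← hST]; exact hSt.ode
        · rw [← hST']; exact hSt'.ode
    · rintro ⟨i, j⟩ ⟨i', j'⟩ s
      have h1 := size_mul (s := s) (a := ((C : ℚ) * N) ^ d) (b := ((C' : ℚ) * N) ^ d')
        (one_le_pow₀ hCN) (one_le_pow₀ hCN')
        (f := Γ i i') (g := Γ' j j') (fun s => by rw [← pow_mul]; exact hSb i i' s)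
        (fun s => by rw [← pow_mul]; exact hSb' j j' s)
      refine h1.trans ?_
      have h2 : ((C : ℚ) * N) ^ d ≤ ((C : ℚ) * C' * N) ^ d := by
        apply pow_le_pow_left₀ (by positivity)
        nlinarith [mul_nonneg (zero_le_one.trans hCN) (sub_nonneg.2 hCq')]
      have h3 : ((C' : ℚ) * N) ^ d' ≤ ((C : ℚ) * C' * N) ^ d' := by
        apply pow_le_pow_left₀ (by positivity)
        nlinarith [mul_nonneg (zero_le_one.trans hCN') (sub_nonneg.2 hCq)]
      have h4 : (2 : ℚ) ≤ 2 ^ (d + d') := by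
        calc (2 : ℚ) = 2 ^ 1 := by norm_num
          _ ≤ 2 ^ (d + d') := pow_le_pow_right₀ (by norm_num) (by omega)
      calc ((s : ℚ) + 1) * ((((C : ℚ) * N) ^ d) ^ (s + 1) * (((C' : ℚ) * N) ^ d') ^ (s + 1)) ≤
            (2 ^ (d + d')) ^ (s + 1) * ((((C : ℚ) * C' * N) ^ d) ^ (s + 1) *
              (((C : ℚ) * C' * N) ^ d') ^ (s + 1)) := by
            gcongr
            refine (two_pow s).trans ?_
            gcongr
        _ = _ := by
            push_cast
            rw [← mul_pow, ← mul_pow, ← pow_add, ← mul_pow, ← pow_mul]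
            congr 1
            ring
    · calc τ * τ' ≤ (C * N) ^ d * (C' * N) ^ d' := Nat.mul_le_mul hτ hτ'
        _ ≤ (2 * C * C' * N) ^ d * (2 * C * C' * N) ^ d' := by
            apply Nat.mul_le_mul
            · apply Nat.pow_le_pow_left
              apply Nat.mul_le_mul_right
              nlinarith [Nat.zero_le (C * C')]
            · apply Nat.pow_le_pow_left
              apply Nat.mul_le_mul_right
              nlinarith [Nat.zero_le (C * C')]
        _ = _ := by rw [← pow_add]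
    · rintro ⟨i, j⟩ ⟨i', j'⟩ k s hs
      exact den_mul (hei i i' k) (hei' j j' k) s hs

end Pool.Agent.LEG

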