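import Pool.Agent.LEG.Targets2

set_option autoImplicit false

/-!
# UPI: finite products, with bounds
-/

namespace Pool.Agent.LEG

open Finset
open scoped BigOperators Topology

namespace UPI_

/-- a family with one element, the constant function `1` -/
theorem ug_one {ι : Type} [Fintype ι] [DecidableEq ι] [Subsingleton ι] (T : Polynomial ℚ)
    (N : ℕ) (hN : 1 ≤ N) : UG T (fun _ : ι => (1 : PowerSeries ℚ)) N 1 1 := by
  have hNr : (1 : ℚ) ≤ N := by exact_mod_cast hN
  have hc : ∀ s : ℕ, |PowerSeries.coeff s (1 : PowerSeries ℚ)| ≤ 1 := by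
    intro s
    rw [PowerSeries.coeff_one]
    split_ifs <;> simp
  have hi : ∀ s : ℕ, ∃ x : ℤ, PowerSeries.coeff s (1 : PowerSeries ℚ) = x := by
    intro s
    rw [PowerSeries.coeff_one]
    split_ifs
    · exact ⟨1, by simp⟩
    · exact ⟨0, by simp⟩
  refine ⟨le_rfl, le_rfl, fun _ s => ?_, ⟨fun _ => 1, fun k => ⟨one_pos, by simp⟩,
    fun _ k s _ => ?_⟩, ⟨⟨T, fun _ _ => 0, fun _ => 1⟩, fun _ _ => 1, fun _ => 1, 1, rfl, rfl,
    fun _ _ => by simp, fun _ => by simp, ?_, ⟨fun i j => ?_, fun i j => by simp [GF.ty]⟩,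
    fun _ _ s => ?_, one_pos, ?_, fun k => ⟨one_pos, by simp⟩, fun _ _ k s _ => ?_⟩⟩
  · simpa using hc s
  · obtain ⟨x, hx⟩ := hi s
    exact ⟨x, by rw [hx]; simp⟩
  · have : (Matrix.of fun _ _ : ι => Polynomial.eval (0 : ℚ) (0 : Polynomial ℚ)) = 0 := by
      ext i j
      simp
    rw [this]
    exact IsNilpotent.zero
  · rw [if_pos (Subsingleton.elim i j)]
    simp
  · refine (hc s).trans ?_
    rw [Nat.cast_one, one_mul]
    exact one_le_pow₀ hNr
  · simpa using hN
  · obtain ⟨x, hx⟩ := hi s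
    exact ⟨x, by rw [hx]; simp⟩

/-- the induction statement -/
def St (S : Type) [Fintype S] : Prop := ∀ (_ : DecidableEq S) (κ : Type) (_ : Fintype κ)
  (_ : DecidableEq κ) (T : Polynomial ℚ) (g : S → κ → PowerSeries ℚ) (N C d : ℕ), 1 ≤ N →
  1 ≤ C → 1 ≤ d → (∀ s, UG T (g s) N C d) →
  UG T (fun w : S → κ => ∏ s, g s (w s)) N ((2 * C) ^ Fintype.card S) (d * Fintype.card S + 1)

theorem st_all (h1 : T_UMUL) (h2 : T_UMONO) (S : Type) [Fintype S] : St S := by
  refine Fintype.induction_empty_option (P := fun S _ => St S) ?_ ?_ ?_ S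
  · intro α β _ e h dβ κ fκ dκ T g N C d hN hC hd hg
    let _ : Fintype α := Fintype.ofEquiv β e.symm
    let _ : DecidableEq α := Classical.decEq α
    have h3 : UG T (fun w : α → κ => ∏ s, g (e s) (w s)) N ((2 * C) ^ Fintype.card α)
        (d * Fintype.card α + 1) :=
      h (Classical.decEq α) κ fκ dκ T (fun s => g (e s)) N C d hN hC hd (fun s => hg (e s))
    have h4 := h2.2 (α → κ) (β → κ) T _ N _ _ (Equiv.arrowCongr e.symm (Equiv.refl κ)).symm.symm
      h3
    have h5 : (fun w : β → κ => ∏ s, g s (w s)) = fun p : β → κ =>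
        (fun w : α → κ => ∏ s, g (e s) (w s)) (Equiv.arrowCongr e.symm (Equiv.refl κ) p) := by
      funext w
      simp only [Equiv.arrowCongr_apply, Equiv.coe_refl, Function.comp_apply, id_eq,
        Equiv.symm_symm]
      exact (Equiv.prod_comp e (fun s => g s (w s))).symm
    rw [h5, ← Fintype.card_congr e]
    exact h4
  · intro dS κ fκ dκ T g N C d hN hC hd hg
    have h3 := ug_one (ι := PEmpty → κ) T N hN
    have h5 : (fun w : PEmpty → κ => ∏ s, g s (w s)) = fun _ => 1 := by
      funext w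
      simp
    rw [h5]
    simpa using h3
  · intro α _ h dS κ fκ dκ T g N C d hN hC hd hg
    let _ : DecidableEq α := Classical.decEq α
    have h3 : UG T (fun w : α → κ => ∏ s, g (some s) (w s)) N ((2 * C) ^ Fintype.card α)
        (d * Fintype.card α + 1) :=
      h (Classical.decEq α) κ fκ dκ T (fun s => g (some s)) N C d hN hC hd
        (fun s => hg (some s))
    have h4 := h1 κ (α → κ) T (g none) _ N _ _ _ _ hN (hg none) h3
    have h5 := h2.2 (κ × (α → κ)) (Option α → κ) T _ N _ _ (Equiv.piOptionEquivProd) h4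
    have h6 : (fun w : Option α → κ => ∏ s, g s (w s)) = fun p : Option α → κ =>
        (fun p : κ × (α → κ) => g none p.1 * ∏ s, g (some s) (p.2 s))
          (Equiv.piOptionEquivProd p) := by
      funext w
      rw [Fintype.prod_option]
      rfl
    have h7 : (2 * C) ^ Fintype.card (Option α) = 2 * C * (2 * C) ^ Fintype.card α := by
      rw [Fintype.card_option, pow_succ']
    have h8 : d * Fintype.card (Option α) + 1 = d + (d * Fintype.card α + 1) := by
      rw [Fintype.card_option]
      ring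
    rw [h6, h7, h8]
    exact h5

end UPI_

open UPI_ in
theorem p_UPI (h1 : T_UMUL) (h2 : T_UMONO) : T_UPI := by
  intro S κ _ dS _ dκ T g N C d hN hC hd hg
  exact st_all h1 h2 S dS κ _ dκ T g N C d hN hC hd hg

end Pool.Agent.LEG
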