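import Pool.Agent.LEG.Targets2

set_option autoImplicit false

/-!
Removing repetitions in a uniform family (job USUB).
-/

namespace Pool.Agent.LEG

open Finset
open scoped BigOperators

namespace USUB_

theorem coe_sum' {α : Type} (s : Finset α) (f : α → Polynomial ℚ) :
    ((∑ i ∈ s, f i : Polynomial ℚ) : PowerSeries ℚ) = ∑ i ∈ s, (f i : PowerSeries ℚ) := by
  rw [← Polynomial.coeToPowerSeries.ringHom_apply, map_sum]
  rfl

theorem ty_sum {α : Type} (z0 : ℚ) (s : Finset α) (f : α → Polynomial ℚ) :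
    GF.ty z0 (∑ i ∈ s, f i) = ∑ i ∈ s, GF.ty z0 (f i) := by
  unfold GF.ty
  rw [map_sum, coe_sum']

theorem indep_eq {κ : Type} [Fintype κ] (f : κ → PowerSeries ℚ) (hf : Indep f)
    (a b : κ → Polynomial ℚ) (h : ∑ p, (a p : PowerSeries ℚ) * f p = ∑ p, (b p : PowerSeries ℚ) * f p) :
    a = b := by
  have h1 : a - b = 0 := by
    refine hf (a - b) ?_
    have : ∀ p, (((a - b) p : Polynomial ℚ) : PowerSeries ℚ) * f p =
        (a p : PowerSeries ℚ) * f p - (b p : PowerSeries ℚ) * f p := by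
      intro p
      rw [Pi.sub_apply, Polynomial.coe_sub, sub_mul]
    rw [Finset.sum_congr rfl fun p _ => this p, Finset.sum_sub_distrib, h, sub_self]
  exact sub_eq_zero.1 h1

/-- summing over the fibres of `q` -/
theorem fib {R ι κ : Type} [CommRing R] [Fintype ι] [Fintype κ] [DecidableEq κ] (q : ι → κ)
    (u : ι → R) (v : κ → R) :
    ∑ p, (∑ j with q j = p, u j) * v p = ∑ j, u j * v (q j) := by
  rw [← Finset.sum_fiberwise univ q (fun j => u j * v (q j))]
  refine Finset.sum_congr rfl fun p _ => ?_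
  rw [Finset.sum_mul]
  refine Finset.sum_congr rfl fun j hj => ?_
  rw [(Finset.mem_filter.1 hj).2]

end USUB_

open USUB_ in
theorem p_USUB : T_USUB := by
  classical
  intro ι κ _ _ _ _ T g N C d e q hN hqe hg hind hU
  obtain ⟨hC, hd, hbd, ⟨e1, he1, hden⟩, S, Γ, e2, τ, hST, hSf, hdeg, hode, hnil, htr, hΓ, hτ0, hτ1,
    he2, hΓd⟩ := hU
  set c1 : ℕ := Fintype.card ι + 1 with hc1
  have hc1' : 1 ≤ c1 := Nat.le_add_left _ _
  have hCC : C ≤ c1 * C := Nat.le_mul_of_pos_left C hc1'
  set f : κ → PowerSeries ℚ := fun p => g (e p) with hf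
  have hgf : ∀ i, g i = f (q i) := hg
  obtain ⟨Af, hAf⟩ : ∃ Af : κ → κ → Polynomial ℚ,
      Af = fun p p' => ∑ i with q i = p', S.A (e p) i := ⟨_, rfl⟩
  obtain ⟨Gf, hGf⟩ : ∃ Gf : κ → κ → PowerSeries ℚ,
      Gf = fun p p' => ∑ i with q i = p', Γ (e p) i := ⟨_, rfl⟩
  -- the system in terms of `f`
  have hsys : ∀ i, (T : PowerSeries ℚ) * PowerSeries.derivative ℚ (g i) =
      ∑ p', ((∑ j with q j = p', S.A i j : Polynomial ℚ) : PowerSeries ℚ) * f p' := by
    intro i
    have h0 := hode i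
    rw [hST, hSf] at h0
    rw [h0]
    simp only [coe_sum']
    rw [fib q (fun j => (S.A i j : PowerSeries ℚ)) f]
    refine Finset.sum_congr rfl fun j _ => ?_
    rw [hgf j]
  have hcomm : ∀ i p', ∑ j with q j = p', S.A i j = Af (q i) p' := by
    intro i p'
    have h1 : (T : PowerSeries ℚ) * PowerSeries.derivative ℚ (g i) =
        ∑ p', (Af (q i) p' : PowerSeries ℚ) * f p' := by
      rw [hg i, hsys (e (q i)), hAf]
    rw [hsys i] at h1
    exact congrFun (indep_eq f hind _ _ h1) p'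
  have hcard : ∀ p' : κ, ((univ.filter fun i => q i = p').card : ℚ) ≤ (c1 : ℚ) := by
    intro p'
    have : (univ.filter fun i => q i = p').card ≤ c1 :=
      (Finset.card_le_univ _).trans (Nat.le_succ _)
    exact_mod_cast this
  have hpowle : ∀ k : ℕ, C ^ (k + 1) ≤ (c1 * C) ^ (k + 1) := fun k => Nat.pow_le_pow_left hCC _
  refine ⟨Nat.le_trans hC hCC, hd, ?_, ?_, ⟨⟨T, Af, f⟩, Gf, e2, τ, rfl, rfl, ?_, ?_, ?_, ⟨?_, ?_⟩, ?_,
    hτ0, ?_, ?_, ?_⟩⟩
  · intro p s
    refine (hbd (e p) s).trans ?_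
    have := hpowle s
    exact_mod_cast this
  · exact ⟨e1, fun k => ⟨(he1 k).1, (he1 k).2.trans (hpowle k)⟩, fun p k s hs => hden (e p) k s hs⟩
  · -- degrees
    intro p p'
    change (Af p p').natDegree ≤ d
    rw [hAf]
    exact Polynomial.natDegree_sum_le_of_forall_le _ _ fun i _ => hdeg _ _
  · -- the equation
    intro p
    change (T : PowerSeries ℚ) * PowerSeries.derivative ℚ (f p) = ∑ p', (Af p p' : PowerSeries ℚ) * f p'
    rw [hAf]
    exact hsys (e p)
  · -- nilpotent
    obtain ⟨n, hn⟩ := hnil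
    refine ⟨n, ?_⟩
    set M : Matrix ι ι ℚ := Matrix.of fun i j => (S.A i j).eval 0 with hM
    set Mf : Matrix κ κ ℚ := Matrix.of fun i j => (Af i j).eval 0 with hMf
    set E : Matrix ι κ ℚ := Matrix.of fun i p => if q i = p then 1 else 0 with hE
    set R : Matrix κ ι ℚ := Matrix.of fun p i => if e p = i then 1 else 0 with hR
    have h1 : M * E = E * Mf := by
      ext i p'
      rw [Matrix.mul_apply, Matrix.mul_apply]
      have h2 := congrArg (fun P : Polynomial ℚ => P.eval 0) (hcomm i p')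
      simp only [Polynomial.eval_finsetSum] at h2
      have h3 : ∑ j, M i j * E j p' = ∑ j with q j = p', (S.A i j).eval 0 := by
        rw [Finset.sum_filter]
        refine Finset.sum_congr rfl fun j _ => ?_
        simp only [hM, hE, Matrix.of_apply]
        split_ifs <;> simp
      have h4 : ∑ r, E i r * Mf r p' = (Af (q i) p').eval 0 := by
        rw [Finset.sum_eq_single (q i)]
        · simp [hE, hMf]
        · intro b _ hb
          simp [hE, Ne.symm hb]
        · intro hb
          exact absurd (Finset.mem_univ _) hb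
      rw [h3, h4]
      exact h2
    have h2 : ∀ m : ℕ, M ^ m * E = E * Mf ^ m := by
      intro m
      induction m with
      | zero => simp
      | succ m ih => rw [pow_succ', Matrix.mul_assoc, ih, ← Matrix.mul_assoc, h1, Matrix.mul_assoc,
          ← pow_succ']
    have h3 : R * E = 1 := by
      ext p p'
      rw [Matrix.mul_apply, Finset.sum_eq_single (e p)]
      · simp [hR, hE, Matrix.of_apply, hqe, Matrix.one_apply]
      · intro b _ hb
        simp [hR, Ne.symm hb]
      · intro hb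
        exact absurd (Finset.mem_univ _) hb
    change Mf ^ n = 0
    calc Mf ^ n = R * E * Mf ^ n := by rw [h3, Matrix.one_mul]
      _ = R * (M ^ n * E) := by rw [Matrix.mul_assoc, h2]
      _ = 0 := by rw [hn, Matrix.zero_mul, Matrix.mul_zero]
  · -- initial value
    intro p p'
    rw [hGf]
    simp only [map_sum, htr.init]
    rw [Finset.sum_ite_eq]
    simp only [Finset.mem_filter, Finset.mem_univ, true_and, hqe]
  · -- the equation of the transport
    intro p p'
    change GF.ty (1 / (N : ℚ)) T * PowerSeries.derivative ℚ (Gf p p') =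
      - ∑ r, Gf p r * GF.ty (1 / (N : ℚ)) (Af r p')
    have h1 := htr.ode
    rw [hST] at h1
    have h2 : ∑ r, Gf p r * GF.ty (1 / (N : ℚ)) (Af r p') =
        ∑ l, Γ (e p) l * GF.ty (1 / (N : ℚ)) (Af (q l) p') := by
      rw [hGf]
      exact fib q (fun l => Γ (e p) l) (fun r => GF.ty (1 / (N : ℚ)) (Af r p'))
    have h3 : ∀ l, GF.ty (1 / (N : ℚ)) (Af (q l) p') =
        ∑ j with q j = p', GF.ty (1 / (N : ℚ)) (S.A l j) := by
      intro l
      rw [← hcomm l p', ty_sum]
    rw [h2, hGf]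
    simp only [map_sum, h3, Finset.mul_sum]
    rw [Finset.sum_comm, ← Finset.sum_neg_distrib]
    refine Finset.sum_congr rfl fun j _ => ?_
    exact h1 (e p) j
  · -- size
    intro p p' s
    change |PowerSeries.coeff s (Gf p p')| ≤ _
    have hCN : (0 : ℚ) ≤ ((C : ℚ) * N) ^ (d * (s + 1)) := by positivity
    have h1 : |PowerSeries.coeff s (Gf p p')| ≤ (c1 : ℚ) * ((C : ℚ) * N) ^ (d * (s + 1)) := by
      rw [hGf]
      simp only [map_sum]
      refine (Finset.abs_sum_le_sum_abs _ _).trans ?_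
      refine (Finset.sum_le_sum fun j _ => hΓ (e p) j s).trans ?_
      rw [Finset.sum_const, nsmul_eq_mul]
      exact mul_le_mul_of_nonneg_right (hcard p') hCN
    refine h1.trans ?_
    have h2 : (((c1 * C : ℕ) : ℚ) * N) ^ (d * (s + 1)) =
        (c1 : ℚ) ^ (d * (s + 1)) * ((C : ℚ) * N) ^ (d * (s + 1)) := by
      push_cast
      rw [← mul_pow]
      ring
    rw [h2]
    refine mul_le_mul_of_nonneg_right ?_ hCN
    have h3 : (1 : ℚ) ≤ (c1 : ℚ) := by exact_mod_cast hc1'
    refine le_self_pow₀ h3 ?_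
    have : 1 ≤ d * (s + 1) := Nat.mul_pos hd (Nat.succ_pos _)
    omega
  · -- `τ`
    exact hτ1.trans (Nat.pow_le_pow_left (Nat.mul_le_mul_right N hCC) d)
  · exact fun k => ⟨(he2 k).1, (he2 k).2.trans (hpowle k)⟩
  · intro p p' k s hs
    change ∃ x : ℤ, (e2 k : ℚ) * (τ : ℚ) ^ s * PowerSeries.coeff s (Gf p p') = x
    choose x hx using fun j => hΓd (e p) j k s hs
    refine ⟨∑ j with q j = p', x j, ?_⟩
    rw [hGf]
    simp only [map_sum, Finset.mul_sum, Int.cast_sum]
    exact Finset.sum_congr rfl fun j _ => hx j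

end Pool.Agent.LEG
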