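import Pool.Agent.LEG.Targets2

set_option autoImplicit false

/-!
# Direct sums of uniform families (job USUM)
-/

namespace Pool.Agent.LEG

open Finset
open scoped BigOperators Topology

namespace USUM_

/-- the block diagonal family of two families -/
def blk {ι κ R : Type} [Zero R] (a : ι → ι → R) (b : κ → κ → R) : ι ⊕ κ → ι ⊕ κ → R
  | Sum.inl i, Sum.inl j => a i j
  | Sum.inl _, Sum.inr _ => 0
  | Sum.inr _, Sum.inl _ => 0
  | Sum.inr i, Sum.inr j => b i j

theorem nil_blk {ι κ : Type} [Fintype ι] [DecidableEq ι] [Fintype κ] [DecidableEq κ]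
    (a : ι → ι → ℚ) (b : κ → κ → ℚ) (ha : IsNilpotent (Matrix.of a))
    (hb : IsNilpotent (Matrix.of b)) : IsNilpotent (Matrix.of (blk a b)) := by
  have h : Matrix.of (blk a b) = Matrix.fromBlocks (Matrix.of a) 0 0 (Matrix.of b) := by
    ext i j
    rcases i with i | i <;> rcases j with j | j <;> rfl
  obtain ⟨m, hm⟩ := ha
  obtain ⟨n, hn⟩ := hb
  refine ⟨m + n, ?_⟩
  rw [h, Matrix.fromBlocks_diagonal_pow, pow_add, pow_add, hm, hn, zero_mul, mul_zero]
  exact Matrix.fromBlocks_zero

end USUM_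

open USUM_ in
theorem p_USUM : T_USUM := by
  intro ι κ _ _ _ _ T g h N C d hN hg hh
  obtain ⟨S1, Γ1, e1, τ1, hT1, hf1, hA1, hO1, hn1, ⟨ht1i, ht1o⟩, hc1, hτ1, hτ1', he1, hi1⟩ := hg.sys
  obtain ⟨S2, Γ2, e2, τ2, hT2, hf2, hA2, hO2, hn2, ⟨ht2i, ht2o⟩, hc2, hτ2, hτ2', he2, hi2⟩ := hh.sys
  have hC := hg.C_pos
  have hd := hg.d_pos
  have hCq : (1 : ℚ) ≤ C := by exact_mod_cast hC
  have hNq : (1 : ℚ) ≤ N := by exact_mod_cast hN
  have hpow : ∀ s : ℕ, (C : ℚ) ^ (s + 1) ≤ ((C * C : ℕ) : ℚ) ^ (s + 1) := by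
    intro s
    refine pow_le_pow_left₀ (by positivity) ?_ _
    push_cast
    nlinarith
  have hpow2 : ∀ s : ℕ, ((C : ℚ) * N) ^ (d * (s + 1)) ≤
      (((C * C : ℕ) : ℚ) * N) ^ (2 * d * (s + 1)) := by
    intro s
    have h1 : (1 : ℚ) ≤ (C : ℚ) * N := by nlinarith
    calc ((C : ℚ) * N) ^ (d * (s + 1)) ≤ ((C : ℚ) * N) ^ (2 * d * (s + 1)) := by
          refine pow_le_pow_right₀ h1 ?_
          nlinarith [Nat.zero_le (d * (s + 1))]
      _ ≤ (((C * C : ℕ) : ℚ) * N) ^ (2 * d * (s + 1)) := by
          refine pow_le_pow_left₀ (by positivity) ?_ _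
          push_cast
          refine mul_le_mul_of_nonneg_right ?_ (by positivity)
          nlinarith
  have hprod : ∀ (e e' : ℕ → ℕ), (∀ k, 0 < e k ∧ e k ≤ C ^ (k + 1)) →
      (∀ k, 0 < e' k ∧ e' k ≤ C ^ (k + 1)) →
      ∀ k, 0 < e k * e' k ∧ e k * e' k ≤ (C * C) ^ (k + 1) := by
    intro e e' he he' k
    refine ⟨Nat.mul_pos (he k).1 (he' k).1, ?_⟩
    rw [mul_pow]
    exact Nat.mul_le_mul (he k).2 (he' k).2
  refine ⟨Nat.mul_pos hC hC, by omega, ?_, ?_, ?_⟩
  · intro i s
    rcases i with i | i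
    · exact (hg.bd i s).trans (hpow s)
    · exact (hh.bd i s).trans (hpow s)
  · obtain ⟨a1, ha1, hb1⟩ := hg.den
    obtain ⟨a2, ha2, hb2⟩ := hh.den
    refine ⟨fun k => a1 k * a2 k, hprod a1 a2 ha1 ha2, ?_⟩
    intro i k s hs
    rcases i with i | i
    · obtain ⟨x, hx⟩ := hb1 i k s hs
      refine ⟨(a2 k : ℤ) * x, ?_⟩
      push_cast
      rw [← hx]
      simp only [Sum.elim_inl]
      ring
    · obtain ⟨x, hx⟩ := hb2 i k s hs
      refine ⟨(a1 k : ℤ) * x, ?_⟩
      push_cast
      rw [← hx]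
      simp only [Sum.elim_inr]
      ring
  · refine ⟨⟨T, blk S1.A S2.A, Sum.elim g h⟩, blk Γ1 Γ2, fun k => e1 k * e2 k, τ1 * τ2, rfl, rfl,
      ?_, ?_, ?_, ⟨?_, ?_⟩, ?_, Nat.mul_pos hτ1 hτ2, ?_, hprod e1 e2 he1 he2, ?_⟩
    · intro i j
      rcases i with i | i <;> rcases j with j | j
      · exact (hA1 i j).trans (by omega)
      · simp [blk]
      · simp [blk]
      · exact (hA2 i j).trans (by omega)
    · intro i
      rcases i with i | i
      · have := hO1 i
        rw [hT1, hf1] at this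
        show (T : PowerSeries ℚ) * PowerSeries.derivative ℚ (g i) = _
        rw [this, Fintype.sum_sum_type]
        simp [blk]
      · have := hO2 i
        rw [hT2, hf2] at this
        show (T : PowerSeries ℚ) * PowerSeries.derivative ℚ (h i) = _
        rw [this, Fintype.sum_sum_type]
        simp [blk]
    · have := nil_blk _ _ hn1 hn2
      convert this using 2
      ext i j
      rcases i with i | i <;> rcases j with j | j <;> simp [blk]
    · intro i j
      rcases i with i | i <;> rcases j with j | j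
      · simpa [blk] using ht1i i j
      · simp [blk]
      · simp [blk]
      · simpa [blk] using ht2i i j
    · intro i j
      rw [Fintype.sum_sum_type]
      rcases i with i | i <;> rcases j with j | j
      · have := ht1o i j
        rw [hT1] at this
        simpa [blk, GF.ty] using this
      · simp [blk, GF.ty]
      · simp [blk, GF.ty]
      · have := ht2o i j
        rw [hT2] at this
        simpa [blk, GF.ty] using this
    · intro i j s
      rcases i with i | i <;> rcases j with j | j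
      · exact (hc1 i j s).trans (hpow2 s)
      · simp only [blk, map_zero, abs_zero]
        positivity
      · simp only [blk, map_zero, abs_zero]
        positivity
      · exact (hc2 i j s).trans (hpow2 s)
    · calc τ1 * τ2 ≤ (C * N) ^ d * (C * N) ^ d := Nat.mul_le_mul hτ1' hτ2'
        _ = (C * N) ^ (2 * d) := by rw [← pow_add, two_mul]
        _ ≤ (C * C * N) ^ (2 * d) := by
            refine Nat.pow_le_pow_left ?_ _
            refine Nat.mul_le_mul_right _ ?_
            nlinarith
    · intro i j k s hs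
      rcases i with i | i <;> rcases j with j | j
      · obtain ⟨x, hx⟩ := hi1 i j k s hs
        refine ⟨(e2 k : ℤ) * (τ2 : ℤ) ^ s * x, ?_⟩
        push_cast
        rw [← hx, mul_pow]
        simp only [blk]
        ring
      · exact ⟨0, by simp [blk]⟩
      · exact ⟨0, by simp [blk]⟩
      · obtain ⟨x, hx⟩ := hi2 i j k s hs
        refine ⟨(e1 k : ℤ) * (τ1 : ℤ) ^ s * x, ?_⟩
        push_cast
        rw [← hx, mul_pow]
        simp only [blk]
        ring

end Pool.Agent.LEG
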