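import Pool.Agent.LEG.Targets2

set_option autoImplicit false

/-!
Few exceptions in a window, with an explicit size of the window (`T_WINX`).
-/

namespace Pool.Agent.LEG

namespace WINX_

theorem pow_bound (b1 b2 b3 c D : ℕ) :
    b3 * (b2 * (b1 * (D + 1) + 1) ^ b2 + 1) ^ b3 ≤
      (b3 * ((b2 + 1) * (b1 + 1) ^ b2) ^ b3 + b2 * b3 + c + 1) *
        (D + 1) ^ (b3 * ((b2 + 1) * (b1 + 1) ^ b2) ^ b3 + b2 * b3 + c + 1) := by
  have hD : 1 ≤ D + 1 := Nat.succ_le_succ (Nat.zero_le D)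
  have h1 : b1 * (D + 1) + 1 ≤ (b1 + 1) * (D + 1) := by nlinarith
  have h2 : b2 * (b1 * (D + 1) + 1) ^ b2 + 1 ≤ (b2 + 1) * (b1 + 1) ^ b2 * (D + 1) ^ b2 := by
    have h3 : (b1 * (D + 1) + 1) ^ b2 ≤ ((b1 + 1) * (D + 1)) ^ b2 := Nat.pow_le_pow_left h1 b2
    have h4 : 1 ≤ ((b1 + 1) * (D + 1)) ^ b2 := Nat.one_le_pow _ _ (Nat.mul_pos (by omega) hD)
    calc b2 * (b1 * (D + 1) + 1) ^ b2 + 1 ≤ b2 * ((b1 + 1) * (D + 1)) ^ b2 +
          ((b1 + 1) * (D + 1)) ^ b2 := Nat.add_le_add (Nat.mul_le_mul_left _ h3) h4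
      _ = (b2 + 1) * (b1 + 1) ^ b2 * (D + 1) ^ b2 := by
          rw [mul_pow]
          ring
  set M := b3 * ((b2 + 1) * (b1 + 1) ^ b2) ^ b3 with hM
  calc b3 * (b2 * (b1 * (D + 1) + 1) ^ b2 + 1) ^ b3
      ≤ b3 * ((b2 + 1) * (b1 + 1) ^ b2 * (D + 1) ^ b2) ^ b3 :=
        Nat.mul_le_mul_left _ (Nat.pow_le_pow_left h2 b3)
    _ = M * (D + 1) ^ (b2 * b3) := by
        rw [hM, mul_pow, ← pow_mul]
        ring
    _ ≤ (M + b2 * b3 + c + 1) * (D + 1) ^ (M + b2 * b3 + c + 1) := by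
        apply Nat.mul_le_mul
        · omega
        · exact Nat.pow_le_pow_right hD (by omega)

theorem lin_bound (A c b D : ℕ) (hb : c + 1 ≤ b) : A + c + 1 ≤ (A + 2) ^ (b * (D + 1) ^ b) := by
  have h1 : b ≤ b * (D + 1) ^ b := Nat.le_mul_of_pos_right _ (Nat.pow_pos (Nat.succ_pos D))
  have h2 : (A + 2) ^ (c + 1) ≤ (A + 2) ^ (b * (D + 1) ^ b) :=
    Nat.pow_le_pow_right (by omega) (hb.trans h1)
  refine le_trans ?_ h2
  have h3 : c + 1 ≤ (A + 2) ^ c := by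
    calc c + 1 ≤ 2 ^ c := Nat.lt_two_pow_self
      _ ≤ (A + 2) ^ c := Nat.pow_le_pow_left (by omega) c
  calc A + c + 1 ≤ (c + 1) * (A + 2) := by nlinarith
    _ ≤ (A + 2) ^ c * (A + 2) := Nat.mul_le_mul_right _ h3
    _ = (A + 2) ^ (c + 1) := by rw [pow_succ]

end WINX_

open WINX_ in
theorem p_WINX (h1 : T_EXCX) (h2 : T_ELIM3X) (h3 : T_GTU) : T_WINX := by
  intro c k hc
  obtain ⟨b1, hb1⟩ := h1 c k hc
  obtain ⟨b2, hb2⟩ := h2 (k + 2) (k + 3) (by omega)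
  obtain ⟨b3, hb3⟩ := h3 c (k + 3) hc
  refine ⟨b3 * ((b2 + 1) * (b1 + 1) ^ b2) ^ b3 + b2 * b3 + c + 1, fun D A N hN θ => ?_⟩
  have hNA : A + c + 1 ≤ N := (lin_bound A c _ D (by omega)).trans hN
  have hN3 : (A + 2) ^ (b3 * (b2 * (b1 * (D + 1) + 1) ^ b2 + 1) ^ b3) ≤ N :=
    (Nat.pow_le_pow_right (by omega) (pow_bound b1 b2 b3 c D)).trans hN
  obtain ⟨θ', hθ'⟩ := hb1 D N θ
  by_contra hcard
  push Not at hcard
  set S : Set ℕ := {a : ℕ | a ≤ A ∧ Exc c D θ (N - a)} with hS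
  have hfin : S.Finite := (Set.finite_Iic A).subset (fun a ha => ha.1)
  have hcard' : k + 3 ≤ hfin.toFinset.card := by
    rw [← Set.ncard_eq_toFinset_card S hfin]
    omega
  set f := hfin.toFinset.orderEmbOfCardLe hcard' with hf
  have hfmem : ∀ i, f i ∈ S := fun i => by
    have := hfin.toFinset.orderEmbOfCardLe_mem hcard' i
    rwa [Set.Finite.mem_toFinset] at this
  obtain ⟨W, hW0, hWd, hWz⟩ := hb2 (b1 * (D + 1)) θ' (fun i j => (xn c N (f i) j : ℂ)) (fun i =>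
    hθ' (f i) (by have := (hfmem i).1; omega) (hfmem i).2)
  refine hW0 (hb3 _ A N (fun i => f i) f.injective (fun i => (hfmem i).1) hN3 W hWd ?_)
  have e1 : (fun v : Fin (k + 3) × Fin 3 => ((xn c N (f v.1) v.2 : ℝ) : ℂ)) =
      fun v => algebraMap ℝ ℂ (xn c N (f v.1) v.2) := rfl
  have e2 : MvPolynomial.aeval
    (fun v : Fin (k + 3) × Fin 3 => ((xn c N (f v.1) v.2 : ℝ) : ℂ)) W = 0 := hWz
  rw [e1] at e2
  have e3 := MvPolynomial.aeval_algebraMap_apply (A := ℝ) (B := ℂ)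
    (fun v : Fin (k + 3) × Fin 3 => xn c N (f v.1) v.2) W
  have e4 : algebraMap ℝ ℂ (MvPolynomial.aeval
      (fun v : Fin (k + 3) × Fin 3 => xn c N (f v.1) v.2) W) = 0 := by
    rw [← e3]
    exact e2
  exact (map_eq_zero (algebraMap ℝ ℂ)).1 e4

end Pool.Agent.LEG
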