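import Pool.Agent.LEG.All1
import Pool.Agent.LEG.Targets2
import Pool.Agent.LEG.UMONO
import Pool.Agent.LEG.UMUL
import Pool.Agent.LEG.USUM
import Pool.Agent.LEG.UPI
import Pool.Agent.LEG.USUB
import Pool.Agent.LEG.ODE1
import Pool.Agent.LEG.GPHIU
import Pool.Agent.LEG.TRV
import Pool.Agent.LEG.TRU
import Pool.Agent.LEG.BLKU
import Pool.Agent.LEG.FIPU
import Pool.Agent.LEG.INDU
import Pool.Agent.LEG.FAMU
import Pool.Agent.LEG.GTU
import Pool.Agent.LEG.ELIMX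
import Pool.Agent.LEG.ELIM3X
import Pool.Agent.LEG.EXCX
import Pool.Agent.LEG.WINX
import Pool.Agent.LEG.ONEX
import Pool.Agent.LEG.MULTIX
import Pool.Agent.GF.All

set_option autoImplicit false

/-!
Assembly of version 2 (power saving).
-/

namespace Pool.Agent.LEG

theorem h_ODE1 : T_ODE1 := p_ODE1 p_FORM

theorem h_FIPU : T_FIPU := p_FIPU h_FI h_RHO h_EVPHI p_EVC

theorem h_INDU : T_INDU := p_INDU h_FIPU

theorem h_BLKU : T_BLKU := p_BLKU h_ODE1 p_GPHIU (p_TRV p_LOC h_ODE1 p_GPHIU) p_TRU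

theorem h_FAMU : T_FAMU := p_FAMU h_BLKU p_UMONO p_USUM (p_UPI p_UMUL p_UMONO) p_USUB h_INDU

theorem h_GTU : T_GTU := p_GTU GF.TG h_FAMU h_INDU h_ODE1 h_FIPU h_EVPHI p_EVC

theorem h_ONEX : T_ONEX := p_ONEX (p_WINX (p_EXCX h_RHO) (p_ELIM3X p_ELIMX) h_GTU)

theorem multix : T_MULTIX := p_MULTIX h_ONEX p_GEN

end Pool.Agent.LEG
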