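import Mathlib

set_option autoImplicit false

/-!
# The hypergeometric series of the Legendre family

`F = ∑ f_n z^n`, `E = ∑ e_n z^n` (complete elliptic integrals of the first and second kind divided
by `π/2`) and their logarithmic partners `G`, `W`; coefficients and Hasse derivatives.
-/

namespace Pool.Agent.LEG.TRL_

open PowerSeries

/-- `f_n = (binom(2n,n)/4^n)^2` -/
noncomputable def fc (n : ℕ) : ℚ := ((Nat.centralBinom n : ℚ) / 4 ^ n) ^ 2

/-- `e_n = -f_n/(2n-1)` -/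
noncomputable def ec (n : ℕ) : ℚ := -fc n / (2 * n - 1)

/-- `h_n = ∑_{j ≤ n} (1/(2j-1) - 1/(2j))` -/
noncomputable def hc (n : ℕ) : ℚ :=
  ∑ j ∈ Finset.range n, (1 / (2 * (j : ℚ) + 1) - 1 / (2 * (j : ℚ) + 2))

/-- `g_n = 4 h_n f_n` -/
noncomputable def gc (n : ℕ) : ℚ := 4 * hc n * fc n

/-- `w_n = (4 h_n - 2/(2n-1)) e_n` -/
noncomputable def wc (n : ℕ) : ℚ := (4 * hc n - 2 / (2 * n - 1)) * ec n

theorem two_mul_sub_one_ne (n : ℕ) : (2 * (n : ℚ) - 1) ≠ 0 := by
  intro h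
  have h1 : (2 * (n : ℚ)) = 1 := by linarith
  have h2 : 2 * n = 1 := by exact_mod_cast h1
  omega

theorem fc_succ (n : ℕ) : (2 * (n : ℚ) + 2) ^ 2 * fc (n + 1) = (2 * n + 1) ^ 2 * fc n := by
  have h : ((n + 1 : ℕ) : ℚ) * (Nat.centralBinom (n + 1) : ℚ) =
      2 * (2 * n + 1) * (Nat.centralBinom n : ℚ) := by
    have := Nat.succ_mul_centralBinom_succ n
    exact_mod_cast this
  push_cast at h
  unfold fc
  have h4 : (4 : ℚ) ^ n ≠ 0 := by positivity
  have h5 : (2 * (n : ℚ) + 2) * ((Nat.centralBinom (n + 1) : ℚ) / 4 ^ (n + 1)) =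
      (2 * n + 1) * ((Nat.centralBinom n : ℚ) / 4 ^ n) := by
    rw [pow_succ]
    field_simp
    linear_combination 2 * h
  rw [← mul_pow, h5, mul_pow]

theorem hc_succ (n : ℕ) : hc (n + 1) = hc n + 1 / (2 * (n : ℚ) + 1) - 1 / (2 * (n : ℚ) + 2) := by
  unfold hc
  rw [Finset.sum_range_succ]
  ring

/-- `(2m-1) e_m = -f_m` -/
theorem ec_eq (m : ℕ) : (2 * (m : ℚ) - 1) * ec m = -fc m := by
  unfold ec
  field_simp [two_mul_sub_one_ne m]

/-- `(2m-1) w_m = -g_m - 2 e_m` -/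
theorem wc_eq (m : ℕ) : (2 * (m : ℚ) - 1) * wc m = -gc m - 2 * ec m := by
  have h := two_mul_sub_one_ne m
  unfold wc gc
  have h1 := ec_eq m
  have h2 : (2 * (m : ℚ) - 1) * ((4 * hc m - 2 / (2 * m - 1)) * ec m) =
      4 * hc m * ((2 * (m : ℚ) - 1) * ec m) - 2 * ec m := by
    field_simp
  rw [h2, h1]
  ring

/-- `(2m+3) f_{m+1} = (2m+1) f_m + e_{m+1}` -/
theorem fc_rec (m : ℕ) : (2 * (m : ℚ) + 3) * fc (m + 1) = (2 * m + 1) * fc m + ec (m + 1) := by
  have h1 := fc_succ m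
  have h2 := ec_eq (m + 1)
  push_cast at h2
  have h3 : (2 * (m : ℚ) + 1) ≠ 0 := by positivity
  apply mul_left_cancel₀ h3
  linear_combination h1 - h2

/-- `(2m+3) g_{m+1} = (2m+1) g_m + w_{m+1} - 2 f_{m+1} + 2 f_m` -/
theorem gc_rec (m : ℕ) : (2 * (m : ℚ) + 3) * gc (m + 1) =
    (2 * m + 1) * gc m + wc (m + 1) - 2 * fc (m + 1) + 2 * fc m := by
  have h1 := fc_succ m
  have h2 := ec_eq (m + 1)
  have h4 := wc_eq (m + 1)
  have h5 := hc_succ m
  push_cast at h2 h4
  have h3 : (2 * (m : ℚ) + 1) ≠ 0 := by positivity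
  have h6 : (2 * (m : ℚ) + 2) ≠ 0 := by positivity
  have h7 : fc (m + 1) = (2 * m + 1) ^ 2 / (2 * (m : ℚ) + 2) ^ 2 * fc m := by
    field_simp
    linarith
  have h8 : ec (m + 1) = -fc (m + 1) / (2 * m + 1) := by
    rw [eq_div_iff h3]
    linarith
  have h9 : wc (m + 1) = (-gc (m + 1) - 2 * ec (m + 1)) / (2 * m + 1) := by
    rw [eq_div_iff h3]
    linarith
  rw [h9, h8]
  unfold gc
  rw [h5, h7]
  field_simp
  ring

/-- coefficients of `(1+X)^m log(1+X)` -/
noncomputable def cc (m k : ℕ) : ℚ :=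
  ∑ j ∈ Finset.range k, (-1) ^ j / ((j : ℚ) + 1) * (m.choose (k - 1 - j) : ℚ)

/-- the binomial coefficient as a rational number -/
noncomputable def bb (m k : ℕ) : ℚ := (m.choose k : ℚ)

theorem bb_zero (m : ℕ) : bb m 0 = 1 := by simp [bb]

theorem cc_zero (m : ℕ) : cc m 0 = 0 := by simp [cc]

theorem bb_pascal (m k : ℕ) : bb (m + 1) (k + 1) = bb m k + bb m (k + 1) := by
  unfold bb
  rw [Nat.choose_succ_succ]
  push_cast
  ring

theorem bb_absorb (m k : ℕ) : ((k : ℚ) + 1) * bb m (k + 1) = ((m : ℚ) - k) * bb m k := by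
  unfold bb
  rcases le_or_gt k m with h | h
  · have := Nat.choose_succ_right_eq m k
    have h2 : ((m.choose (k + 1) * (k + 1) : ℕ) : ℚ) = ((m.choose k * (m - k) : ℕ) : ℚ) := by
      rw [this]
    push_cast [Nat.cast_sub h] at h2
    linarith
  · rw [Nat.choose_eq_zero_of_lt h, Nat.choose_eq_zero_of_lt (Nat.lt_succ_of_lt h)]
    simp

/-- the logarithm series `log (1+X)` -/
noncomputable def lgs : PowerSeries ℚ :=
  PowerSeries.mk fun s => if s = 0 then 0 else (-1) ^ (s + 1) / (s : ℚ)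

theorem cc_eq (m k : ℕ) : cc m k = coeff k ((1 + X : PowerSeries ℚ) ^ m * lgs) := by
  rcases k with _ | k
  · rw [cc_zero]
    simp [lgs, coeff_zero_eq_constantCoeff]
  rw [mul_comm, coeff_mul, Finset.Nat.sum_antidiagonal_succ]
  simp only [lgs, coeff_mk, if_true, zero_mul, zero_add]
  rw [Finset.Nat.sum_antidiagonal_eq_sum_range_succ_mk]
  unfold cc
  apply Finset.sum_congr rfl
  intro j hj
  have hj' : j ≤ k := by simpa [Nat.lt_succ_iff] using hj
  have h1 : (if j + 1 = 0 then (0 : ℚ) else (-1) ^ (j + 1 + 1) / ((j + 1 : ℕ) : ℚ)) =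
      (-1) ^ j / ((j : ℚ) + 1) := by
    rw [if_neg (by omega)]
    push_cast
    ring
  rw [h1]
  have h2 : coeff (k - j) ((1 + X : PowerSeries ℚ) ^ m) = (m.choose (k + 1 - 1 - j) : ℚ) := by
    have h3 : ((1 + X : PowerSeries ℚ) ^ m) = (((1 + Polynomial.X : Polynomial ℚ) ^ m :
        Polynomial ℚ) : PowerSeries ℚ) := by
      push_cast
      rfl
    rw [h3, Polynomial.coeff_coe, Polynomial.coeff_one_add_X_pow]
    rfl
  rw [h2]

theorem cc_pascal (m k : ℕ) : cc (m + 1) (k + 1) = cc m k + cc m (k + 1) := by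
  rw [cc_eq, cc_eq, cc_eq]
  have : (1 + X : PowerSeries ℚ) ^ (m + 1) * lgs = X * ((1 + X) ^ m * lgs) + (1 + X) ^ m * lgs := by
    ring
  rw [this, map_add, coeff_succ_X_mul]

theorem lgs_deriv : (1 + X) * derivative ℚ lgs = 1 := by
  ext s
  rw [add_mul, one_mul, map_add]
  rcases s with _ | s
  · simp [coeff_derivative, lgs]
  · rw [coeff_succ_X_mul, coeff_derivative, coeff_derivative]
    simp only [lgs, coeff_mk]
    rw [if_neg (by omega), if_neg (by omega), coeff_one, if_neg (by omega)]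
    have h1 : ((s : ℚ) + 1) ≠ 0 := by positivity
    have h2 : ((s : ℚ) + 1 + 1) ≠ 0 := by positivity
    push_cast
    field_simp
    ring

theorem cc_absorb (m k : ℕ) : ((k : ℚ) + 1) * cc m (k + 1) =
    ((m : ℚ) - k) * cc m k + bb m k := by
  have h0 : (1 + X : PowerSeries ℚ) * derivative ℚ ((1 + X) ^ m * lgs) =
      (m : PowerSeries ℚ) * ((1 + X) ^ m * lgs) + (1 + X) ^ m := by
    have h1 : (1 + X : PowerSeries ℚ) * derivative ℚ ((1 + X : PowerSeries ℚ) ^ m) =
        (m : PowerSeries ℚ) * (1 + X) ^ m := by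
      rw [derivative_pow]
      rcases m with _ | m
      · simp
      · have : derivative ℚ (1 + X : PowerSeries ℚ) = 1 := by
          rw [map_add, derivative_X]
          simp
        rw [this, Nat.add_sub_cancel]
        ring
    rw [Derivation.leibniz]
    simp only [smul_eq_mul]
    have := lgs_deriv
    linear_combination lgs * h1 + (1 + X) ^ m * this
  have h2 := congrArg (coeff k) h0
  rw [add_mul, one_mul, map_add, map_add] at h2
  have h3 : coeff k ((1 + X : PowerSeries ℚ) ^ m) = bb m k := by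
    have h3 : ((1 + X : PowerSeries ℚ) ^ m) = (((1 + Polynomial.X : Polynomial ℚ) ^ m :
        Polynomial ℚ) : PowerSeries ℚ) := by
      push_cast
      rfl
    rw [h3, Polynomial.coeff_coe, Polynomial.coeff_one_add_X_pow]
    rfl
  have h4 : coeff k ((m : PowerSeries ℚ) * ((1 + X : PowerSeries ℚ) ^ m * lgs)) =
      (m : ℚ) * cc m k := by
    rw [cc_eq]
    have : (m : PowerSeries ℚ) = C (m : ℚ) := by simp
    rw [this, coeff_C_mul]
  rw [h3, h4, coeff_derivative, ← cc_eq] at h2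
  have h5 : coeff k (X * derivative ℚ ((1 + X : PowerSeries ℚ) ^ m * lgs)) = (k : ℚ) * cc m k := by
    rcases k with _ | k
    · simp [cc_zero]
    · rw [coeff_succ_X_mul, coeff_derivative, ← cc_eq]
      push_cast
      ring
  rw [h5] at h2
  linarith

end Pool.Agent.LEG.TRL_
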