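import Mathlib
import Pool.Agent.LEG.SERIES

set_option autoImplicit false

/-!
# Higher derivatives of the Legendre system: polynomials, denominators and sizes
-/

namespace Pool.Agent.LEG.TRL_

open PowerSeries

/-! ## the recursion satisfied by Hasse derivatives -/

/-- first component, first column -/
noncomputable def aF (k : ℕ) : PowerSeries ℚ := mk fun m => bb m k * fc m
/-- second component, first column -/
noncomputable def aE (k : ℕ) : PowerSeries ℚ := mk fun m => bb m k * ec m
/-- first component, second column -/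
noncomputable def bF (k : ℕ) : PowerSeries ℚ := mk fun m => bb m k * gc m + cc m k * fc m
/-- second component, second column -/
noncomputable def bE (k : ℕ) : PowerSeries ℚ := mk fun m => bb m k * wc m + cc m k * ec m

/-- the recursion of the logarithmic derivatives, divided by powers of `1 - z` -/
structure RecS (p r : ℕ → PowerSeries ℚ) : Prop where
  p1 : 2 * (1 - X) * p 1 = -(1 - X) * p 0 + r 0
  r1 : 2 * (1 - X) * r 1 = -(1 - X) * p 0 + (1 - X) * r 0
  ps : ∀ k : ℕ, 2 * ((k : PowerSeries ℚ) + 2) * (1 - X) * p (k + 2) =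
    -(1 - X) * p (k + 1) + r (k + 1) - 2 * ((k : PowerSeries ℚ) + 1) * (1 - 2 * X) * p (k + 1) +
      X * (2 * (k : PowerSeries ℚ) + 1) * p k
  rs : ∀ k : ℕ, 2 * ((k : PowerSeries ℚ) + 2) * (1 - X) * r (k + 2) =
    -(1 - X) * p (k + 1) + (1 - X) * r (k + 1) -
      2 * ((k : PowerSeries ℚ) + 1) * (1 - 2 * X) * r (k + 1) +
      X * (p k + (2 * (k : PowerSeries ℚ) - 1) * r k)

/-- the recursion of the polynomials `N_k` -/
structure RecN {R : Type*} [CommRing R] (x : R) (p r : ℕ → R) : Prop where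
  p1 : 2 * p 1 = -(1 - x) * p 0 + r 0
  r1 : 2 * r 1 = -(1 - x) * p 0 + (1 - x) * r 0
  ps : ∀ k : ℕ, 2 * ((k : R) + 2) * p (k + 2) =
    -(1 - x) * p (k + 1) + r (k + 1) - 2 * ((k : R) + 1) * (1 - 2 * x) * p (k + 1) +
      x * (1 - x) * (2 * (k : R) + 1) * p k
  rs : ∀ k : ℕ, 2 * ((k : R) + 2) * r (k + 2) =
    -(1 - x) * p (k + 1) + (1 - x) * r (k + 1) -
      2 * ((k : R) + 1) * (1 - 2 * x) * r (k + 1) +
      x * (1 - x) * (p k + (2 * (k : R) - 1) * r k)

/-- the recursion from its coefficients -/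
theorem recS_of_coeff (p r : ℕ → ℕ → ℚ)
    (p1z : 2 * p 1 0 = -p 0 0 + r 0 0)
    (p1s : ∀ m, 2 * (p 1 (m + 1) - p 1 m) = -(p 0 (m + 1) - p 0 m) + r 0 (m + 1))
    (r1z : 2 * r 1 0 = -p 0 0 + r 0 0)
    (r1s : ∀ m, 2 * (r 1 (m + 1) - r 1 m) = -(p 0 (m + 1) - p 0 m) + (r 0 (m + 1) - r 0 m))
    (psz : ∀ k : ℕ, 2 * ((k : ℚ) + 2) * p (k + 2) 0 =
      -p (k + 1) 0 + r (k + 1) 0 - 2 * ((k : ℚ) + 1) * p (k + 1) 0)
    (pss : ∀ k m : ℕ, 2 * ((k : ℚ) + 2) * (p (k + 2) (m + 1) - p (k + 2) m) =
      -(p (k + 1) (m + 1) - p (k + 1) m) + r (k + 1) (m + 1) -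
        2 * ((k : ℚ) + 1) * (p (k + 1) (m + 1) - 2 * p (k + 1) m) + (2 * (k : ℚ) + 1) * p k m)
    (rsz : ∀ k : ℕ, 2 * ((k : ℚ) + 2) * r (k + 2) 0 =
      -p (k + 1) 0 + r (k + 1) 0 - 2 * ((k : ℚ) + 1) * r (k + 1) 0)
    (rss : ∀ k m : ℕ, 2 * ((k : ℚ) + 2) * (r (k + 2) (m + 1) - r (k + 2) m) =
      -(p (k + 1) (m + 1) - p (k + 1) m) + (r (k + 1) (m + 1) - r (k + 1) m) -
        2 * ((k : ℚ) + 1) * (r (k + 1) (m + 1) - 2 * r (k + 1) m) +
        (p k m + (2 * (k : ℚ) - 1) * r k m)) :
    RecS (fun k => PowerSeries.mk (p k)) (fun k => PowerSeries.mk (r k)) := by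
  constructor
  · have key : C (2 : ℚ) * PowerSeries.mk (p 1) + PowerSeries.mk (p 0) - PowerSeries.mk (r 0) +
        X * (C (-2 : ℚ) * PowerSeries.mk (p 1) - PowerSeries.mk (p 0)) = 0 := by
      ext m
      rcases m with _ | m
      · simp only [map_add, map_sub, coeff_C_mul, coeff_mk, coeff_zero_X_mul, map_zero]
        linarith [p1z]
      · simp only [map_add, map_sub, coeff_C_mul, coeff_mk, coeff_succ_X_mul, map_zero]
        linarith [p1s m]
    simp only [map_neg, map_ofNat] at key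
    linear_combination key
  · have key : C (2 : ℚ) * PowerSeries.mk (r 1) + PowerSeries.mk (p 0) - PowerSeries.mk (r 0) +
        X * (C (-2 : ℚ) * PowerSeries.mk (r 1) - PowerSeries.mk (p 0) + PowerSeries.mk (r 0)) = 0 := by
      ext m
      rcases m with _ | m
      · simp only [map_add, map_sub, coeff_C_mul, coeff_mk, coeff_zero_X_mul, map_zero]
        linarith [r1z]
      · simp only [map_add, map_sub, coeff_C_mul, coeff_mk, coeff_succ_X_mul, map_zero]
        linarith [r1s m]
    simp only [map_neg, map_ofNat] at key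
    linear_combination key
  · intro k
    obtain ⟨c1, hc1⟩ : ∃ c : ℚ, c = 2 * ((k : ℚ) + 2) := ⟨_, rfl⟩
    obtain ⟨c2, hc2⟩ : ∃ c : ℚ, c = 1 + 2 * ((k : ℚ) + 1) := ⟨_, rfl⟩
    obtain ⟨c3, hc3⟩ : ∃ c : ℚ, c = 1 + 4 * ((k : ℚ) + 1) := ⟨_, rfl⟩
    obtain ⟨c4, hc4⟩ : ∃ c : ℚ, c = 2 * (k : ℚ) + 1 := ⟨_, rfl⟩
    have key : C c1 * PowerSeries.mk (p (k + 2)) + C c2 * PowerSeries.mk (p (k + 1)) -
        PowerSeries.mk (r (k + 1)) + X * (-(C c1 * PowerSeries.mk (p (k + 2))) -
          C c3 * PowerSeries.mk (p (k + 1)) - C c4 * PowerSeries.mk (p k)) = 0 := by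
      ext m
      rcases m with _ | m
      · simp only [map_add, map_sub, coeff_C_mul, coeff_mk, coeff_zero_X_mul, map_zero]
        rw [hc1, hc2]
        linarith [psz k]
      · simp only [map_add, map_sub, map_neg, coeff_C_mul, coeff_mk, coeff_succ_X_mul, map_zero]
        rw [hc1, hc2, hc3, hc4]
        linarith [pss k m]
    rw [hc1, hc2, hc3, hc4] at key
    simp only [map_ofNat, map_mul, map_add, map_natCast, map_one] at key
    linear_combination key
  · intro k
    obtain ⟨c1, hc1⟩ : ∃ c : ℚ, c = 2 * ((k : ℚ) + 2) := ⟨_, rfl⟩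
    obtain ⟨c2, hc2⟩ : ∃ c : ℚ, c = -1 + 2 * ((k : ℚ) + 1) := ⟨_, rfl⟩
    obtain ⟨c3, hc3⟩ : ∃ c : ℚ, c = 1 - 4 * ((k : ℚ) + 1) := ⟨_, rfl⟩
    obtain ⟨c4, hc4⟩ : ∃ c : ℚ, c = 2 * (k : ℚ) - 1 := ⟨_, rfl⟩
    have key : C c1 * PowerSeries.mk (r (k + 2)) + PowerSeries.mk (p (k + 1)) +
        C c2 * PowerSeries.mk (r (k + 1)) +
        X * (-(C c1 * PowerSeries.mk (r (k + 2))) - PowerSeries.mk (p (k + 1)) +
          C c3 * PowerSeries.mk (r (k + 1)) - PowerSeries.mk (p k) -
            C c4 * PowerSeries.mk (r k)) = 0 := by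
      ext m
      rcases m with _ | m
      · simp only [map_add, coeff_C_mul, coeff_mk, coeff_zero_X_mul, map_zero]
        rw [hc1, hc2]
        linarith [rsz k]
      · simp only [map_add, map_sub, map_neg, coeff_C_mul, coeff_mk, coeff_succ_X_mul, map_zero]
        rw [hc1, hc2, hc3, hc4]
        linarith [rss k m]
    rw [hc1, hc2, hc3, hc4] at key
    simp only [map_neg, map_ofNat, map_mul, map_add, map_sub, map_natCast, map_one] at key
    linear_combination key

theorem bb_zero_left (k : ℕ) : bb 0 (k + 1) = 0 := by simp [bb]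

theorem bb_one (m : ℕ) : bb m 1 = m := by simp [bb]

theorem cc_one (m : ℕ) : cc m 1 = 1 := by simp [cc]

theorem fc_zero : fc 0 = 1 := by simp [fc]
theorem ec_zero : ec 0 = 1 := by simp [ec, fc_zero]
theorem hc_zero : hc 0 = 0 := by simp [hc]
theorem gc_zero : gc 0 = 0 := by simp [gc, hc_zero]
theorem wc_zero : wc 0 = 2 := by
  simp [wc, hc_zero, ec_zero]
  norm_num

/-- the first column -/
theorem recS_a : RecS aF aE := by
  refine recS_of_coeff (fun k m => bb m k * fc m) (fun k m => bb m k * ec m) ?_ ?_ ?_ ?_ ?_ ?_ ?_ ?_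
  · simp [bb_zero, bb_one, fc_zero, ec_zero]
  · intro m
    have h := fc_rec m
    simp only [bb_zero, bb_one]
    push_cast
    linear_combination h
  · simp [bb_zero, bb_one, fc_zero, ec_zero]
  · intro m
    have h1 := ec_eq m
    have h2 := ec_eq (m + 1)
    simp only [bb_zero, bb_one]
    push_cast at *
    linear_combination h2 - h1
  · intro k
    rcases k with _ | k <;> simp [bb_zero_left]
  · intro k m
    have h := fc_rec m
    have h1 := bb_absorb (m + 1) (k + 1)
    have h2 := bb_absorb m (k + 1)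
    have h3 := bb_absorb m k
    have h4 := bb_pascal m k
    push_cast at *
    linear_combination 2 * fc (m + 1) * h1 + bb (m + 1) (k + 1) * h - 2 * fc m * h2 +
      (2 * m + 1) * fc m * h4 - 2 * fc m * h3
  · intro k
    rcases k with _ | k <;> simp [bb_zero_left]
  · intro k m
    have e0 := ec_eq m
    have e1 := ec_eq (m + 1)
    have h1 := bb_absorb (m + 1) (k + 1)
    have h2 := bb_absorb m (k + 1)
    have h3 := bb_absorb m k
    have h4 := bb_pascal m k
    push_cast at *
    linear_combination 2 * ec (m + 1) * h1 + bb (m + 1) (k + 1) * e1 - 2 * ec m * h2 -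
      (bb m (k + 1) + bb m k) * e0 - 2 * ec m * h3

theorem cc_zero_left (k : ℕ) : ((k : ℚ) + 1) * cc 0 (k + 1) = -(k : ℚ) * cc 0 k + bb 0 k := by
  have := cc_absorb 0 k
  push_cast at this
  linarith

/-- the second column -/
theorem recS_b : RecS bF bE := by
  refine recS_of_coeff (fun k m => bb m k * gc m + cc m k * fc m)
    (fun k m => bb m k * wc m + cc m k * ec m) ?_ ?_ ?_ ?_ ?_ ?_ ?_ ?_
  · simp [bb_zero, bb_one, fc_zero, ec_zero, gc_zero, wc_zero, cc_zero, cc_one]
  · intro m
    have h := gc_rec m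
    simp only [bb_zero, bb_one, cc_zero, cc_one]
    push_cast
    linear_combination h
  · simp [bb_zero, bb_one, fc_zero, ec_zero, gc_zero, wc_zero, cc_zero, cc_one]
  · intro m
    have h1 := wc_eq m
    have h2 := wc_eq (m + 1)
    simp only [bb_zero, bb_one, cc_zero, cc_one]
    push_cast at *
    linear_combination h2 - h1
  · intro k
    have h1 := cc_zero_left (k + 1)
    simp only [fc_zero, ec_zero, gc_zero, wc_zero, bb_zero_left] at *
    push_cast at *
    linear_combination 2 * h1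
  · intro k m
    have h := fc_rec m
    have hg := gc_rec m
    have h1 := bb_absorb (m + 1) (k + 1)
    have h2 := bb_absorb m (k + 1)
    have h3 := bb_absorb m k
    have h4 := bb_pascal m k
    have c1 := cc_absorb (m + 1) (k + 1)
    have c2 := cc_absorb m (k + 1)
    have c3 := cc_absorb m k
    have c4 := cc_pascal m k
    push_cast at *
    linear_combination 2 * gc (m + 1) * h1 + bb (m + 1) (k + 1) * hg - 2 * gc m * h2 +
      (2 * m + 1) * gc m * h4 - 2 * gc m * h3 +
      2 * fc (m + 1) * c1 + cc (m + 1) (k + 1) * h - 2 * fc m * c2 +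
      (2 * m + 1) * fc m * c4 - 2 * fc m * c3 + 2 * fc m * h4
  · intro k
    have h1 := cc_zero_left (k + 1)
    simp only [fc_zero, ec_zero, gc_zero, wc_zero, bb_zero_left] at *
    push_cast at *
    linear_combination 2 * h1
  · intro k m
    have e0 := ec_eq m
    have e1 := ec_eq (m + 1)
    have w0 := wc_eq m
    have w1 := wc_eq (m + 1)
    have h1 := bb_absorb (m + 1) (k + 1)
    have h2 := bb_absorb m (k + 1)
    have h3 := bb_absorb m k
    have h4 := bb_pascal m k
    have c1 := cc_absorb (m + 1) (k + 1)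
    have c2 := cc_absorb m (k + 1)
    have c3 := cc_absorb m k
    have c4 := cc_pascal m k
    push_cast at *
    linear_combination 2 * wc (m + 1) * h1 + bb (m + 1) (k + 1) * w1 - 2 * wc m * h2 -
      (bb m (k + 1) + bb m k) * w0 - 2 * wc m * h3 +
      2 * ec (m + 1) * c1 + cc (m + 1) (k + 1) * e1 - 2 * ec m * c2 -
      (cc m (k + 1) + cc m k) * e0 - 2 * ec m * c3

/-! ## the determinant -/

theorem det_two : aF 0 * bE 0 - aE 0 * bF 0 = 2 := by
  have hF := recS_a.p1
  have hE := recS_a.r1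
  have hG := recS_b.p1
  have hW := recS_b.r1
  have h1 : aF 1 = X * derivative ℚ (aF 0) ∧ aE 1 = X * derivative ℚ (aE 0) := by
    constructor
    · ext s
      rcases s with _ | s
      · simp [aF, bb_zero_left]
      · rw [coeff_succ_X_mul, coeff_derivative]
        simp [aF, bb_one, bb_zero]
        ring
    · ext s
      rcases s with _ | s
      · simp [aE, bb_zero_left]
      · rw [coeff_succ_X_mul, coeff_derivative]
        simp [aE, bb_one, bb_zero]
        ring
  have h2 : bF 1 = X * derivative ℚ (bF 0) + aF 0 := by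
    ext s
    rw [map_add]
    rcases s with _ | s
    · simp [aF, bF, bb_zero_left, cc_one, bb_zero]
    · rw [coeff_succ_X_mul, coeff_derivative]
      simp [aF, bF, bb_one, bb_zero, cc_one, cc_zero]
      ring
  have h3 : bE 1 = X * derivative ℚ (bE 0) + aE 0 := by
    ext s
    rw [map_add]
    rcases s with _ | s
    · simp [aE, bE, bb_zero_left, cc_one, bb_zero]
    · rw [coeff_succ_X_mul, coeff_derivative]
      simp [aE, bE, bb_one, bb_zero, cc_one, cc_zero]
      ring
  rw [h1.1] at hF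
  rw [h1.2] at hE
  rw [h2] at hG
  rw [h3] at hW
  have hD : 2 * (1 - X) * X * derivative ℚ (aF 0 * bE 0 - aE 0 * bF 0) = 0 := by
    rw [map_sub, Derivation.leibniz, Derivation.leibniz]
    simp only [smul_eq_mul]
    linear_combination bE 0 * hF - bF 0 * hE - aE 0 * hG + aF 0 * hW
  have hne : (2 * (1 - X) * X : PowerSeries ℚ) ≠ 0 := by
    intro h
    have := congrArg (coeff 1) h
    rw [coeff_succ_mul_X] at this
    have h2 : constantCoeff (2 : PowerSeries ℚ) = 2 := map_ofNat _ 2
    simp [coeff_zero_eq_constantCoeff, h2] at this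
  have hD0 : derivative ℚ (aF 0 * bE 0 - aE 0 * bF 0) = 0 := by
    rcases mul_eq_zero.mp hD with h | h
    · exact absurd h hne
    · exact h
  have h2d : derivative ℚ (2 : PowerSeries ℚ) = 0 := by
    have : (2 : PowerSeries ℚ) = C (2 : ℚ) := (map_ofNat C 2).symm
    rw [this, derivative_C]
  apply derivative.ext
  · rw [hD0, h2d]
  · rw [map_sub, map_mul, map_mul, ← coeff_zero_eq_constantCoeff_apply,
      ← coeff_zero_eq_constantCoeff_apply, ← coeff_zero_eq_constantCoeff_apply,
      ← coeff_zero_eq_constantCoeff_apply]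
    have h2 : constantCoeff (2 : PowerSeries ℚ) = 2 := map_ofNat _ 2
    simp [aF, aE, bE, bF, bb_zero, cc_zero, fc_zero, ec_zero, gc_zero, wc_zero, h2]

end Pool.Agent.LEG.TRL_
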