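import Pool.Agent.LEG.Targets

set_option autoImplicit false

/-!
# Convergence of `F0`, `H0`, `F2`, `H2` in the unit disc (job CONV)
-/

namespace Pool.Agent.LEG

open Finset
open scoped BigOperators

namespace CONV_

/-- polynomially bounded coefficients -/
def PB (f : PowerSeries ℚ) : Prop :=
  ∃ B k : ℕ, ∀ n : ℕ, |PowerSeries.coeff n f| ≤ (B : ℚ) * ((n : ℚ) + 1) ^ k

theorem one_le (n k : ℕ) : (1 : ℚ) ≤ ((n : ℚ) + 1) ^ k :=
  one_le_pow₀ (by have : (0 : ℚ) ≤ n := Nat.cast_nonneg n; linarith)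

theorem pb_of_le (f : PowerSeries ℚ) (B : ℕ) (h : ∀ n, |PowerSeries.coeff n f| ≤ B) : PB f :=
  ⟨B, 0, fun n => by rw [pow_zero, mul_one]; exact h n⟩

theorem pb_mono (f : PowerSeries ℚ) (B k K : ℕ) (hK : k ≤ K)
    (h : ∀ n : ℕ, |PowerSeries.coeff n f| ≤ (B : ℚ) * ((n : ℚ) + 1) ^ k) (n : ℕ) :
    |PowerSeries.coeff n f| ≤ (B : ℚ) * ((n : ℚ) + 1) ^ K := by
  refine (h n).trans (mul_le_mul_of_nonneg_left (pow_le_pow_right₀ ?_ hK) (Nat.cast_nonneg B))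
  have : (0 : ℚ) ≤ n := Nat.cast_nonneg n
  linarith

theorem pb_add (f g : PowerSeries ℚ) (hf : PB f) (hg : PB g) : PB (f + g) := by
  obtain ⟨B1, k1, h1⟩ := hf
  obtain ⟨B2, k2, h2⟩ := hg
  refine ⟨B1 + B2, max k1 k2, fun n => ?_⟩
  rw [map_add]
  refine (abs_add_le _ _).trans ?_
  have e1 := pb_mono f B1 k1 (max k1 k2) (le_max_left _ _) h1 n
  have e2 := pb_mono g B2 k2 (max k1 k2) (le_max_right _ _) h2 n
  push_cast
  linarith

theorem pb_neg (f : PowerSeries ℚ) (hf : PB f) : PB (-f) := by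
  obtain ⟨B1, k1, h1⟩ := hf
  refine ⟨B1, k1, fun n => ?_⟩
  rw [map_neg, abs_neg]
  exact h1 n

theorem pb_mul (f g : PowerSeries ℚ) (hf : PB f) (hg : PB g) : PB (f * g) := by
  obtain ⟨B1, k1, h1⟩ := hf
  obtain ⟨B2, k2, h2⟩ := hg
  refine ⟨B1 * B2, k1 + k2 + 1, fun n => ?_⟩
  rw [PowerSeries.coeff_mul]
  refine (Finset.abs_sum_le_sum_abs _ _).trans ?_
  have h3 : ∀ p ∈ Finset.HasAntidiagonal.antidiagonal n,
      |PowerSeries.coeff p.1 f * PowerSeries.coeff p.2 g| ≤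
        (B1 : ℚ) * B2 * ((n : ℚ) + 1) ^ (k1 + k2) := by
    intro p hp
    rw [Finset.HasAntidiagonal.mem_antidiagonal] at hp
    have e1 : (p.1 : ℚ) ≤ n := by exact_mod_cast (by omega : p.1 ≤ n)
    have e2 : (p.2 : ℚ) ≤ n := by exact_mod_cast (by omega : p.2 ≤ n)
    have e3 : (0 : ℚ) ≤ p.1 := Nat.cast_nonneg _
    have e4 : (0 : ℚ) ≤ p.2 := Nat.cast_nonneg _
    rw [abs_mul]
    calc |PowerSeries.coeff p.1 f| * |PowerSeries.coeff p.2 g|
        ≤ ((B1 : ℚ) * ((p.1 : ℚ) + 1) ^ k1) * ((B2 : ℚ) * ((p.2 : ℚ) + 1) ^ k2) :=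
          mul_le_mul (h1 _) (h2 _) (abs_nonneg _) (by positivity)
      _ ≤ ((B1 : ℚ) * ((n : ℚ) + 1) ^ k1) * ((B2 : ℚ) * ((n : ℚ) + 1) ^ k2) := by
          gcongr
      _ = _ := by rw [pow_add]; ring
  refine (Finset.sum_le_card_nsmul _ _ _ h3).trans ?_
  rw [Finset.Nat.card_antidiagonal, nsmul_eq_mul, pow_succ]
  push_cast
  apply le_of_eq
  ring

theorem pb_one : PB 1 := by
  refine pb_of_le 1 1 fun n => ?_
  rw [PowerSeries.coeff_one]
  split_ifs <;> simp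

theorem pb_X : PB PowerSeries.X := by
  refine pb_of_le _ 1 fun n => ?_
  rw [PowerSeries.coeff_X]
  split_ifs <;> simp

theorem pb_two : PB 2 := by
  rw [← one_add_one_eq_two]
  exact pb_add 1 1 pb_one pb_one

theorem pb_der (f : PowerSeries ℚ) (hf : PB f) : PB (PowerSeries.derivative ℚ f) := by
  obtain ⟨B, k, h⟩ := hf
  refine ⟨B * 2 ^ k, k + 1, fun n => ?_⟩
  have e0 : (0 : ℚ) ≤ n := Nat.cast_nonneg n
  have e1 : PowerSeries.coeff n (PowerSeries.derivative ℚ f) =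
      PowerSeries.coeff (n + 1) f * ((n : ℚ) + 1) := PowerSeries.coeff_derivative f n
  rw [e1, abs_mul, abs_of_nonneg (by linarith : (0 : ℚ) ≤ (n : ℚ) + 1)]
  have e2 := h (n + 1)
  push_cast at e2 ⊢
  have e3 : ((n : ℚ) + 1 + 1) ^ k ≤ 2 ^ k * ((n : ℚ) + 1) ^ k := by
    rw [← mul_pow]
    exact pow_le_pow_left₀ (by linarith) (by linarith) k
  calc |PowerSeries.coeff (n + 1) f| * ((n : ℚ) + 1)
      ≤ ((B : ℚ) * ((n : ℚ) + 1 + 1) ^ k) * ((n : ℚ) + 1) :=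
        mul_le_mul_of_nonneg_right e2 (by linarith)
    _ ≤ ((B : ℚ) * (2 ^ k * ((n : ℚ) + 1) ^ k)) * ((n : ℚ) + 1) := by gcongr
    _ = _ := by rw [pow_succ]; ring

theorem conv_of_pb (f : PowerSeries ℚ) (hf : PB f) (x : ℝ) (hx : |x| < 1) : Conv f x := by
  obtain ⟨B, k, h⟩ := hf
  have hx' : ‖|x|‖ < 1 := by rwa [Real.norm_eq_abs, abs_abs]
  have s1 := summable_pow_mul_geometric_of_norm_lt_one k hx'
  have s2 := summable_geometric_of_norm_lt_one hx'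
  have s3 := (s1.add s2).mul_left ((B : ℝ) * 2 ^ k)
  refine Summable.of_nonneg_of_le (fun n => by positivity) (fun n => ?_) s3
  have h1 : |((PowerSeries.coeff n f : ℚ) : ℝ)| ≤ (B : ℝ) * ((n : ℝ) + 1) ^ k := by
    have := h n
    exact_mod_cast this
  have h2 : ((n : ℝ) + 1) ^ k ≤ 2 ^ k * ((n : ℝ) ^ k + 1) := by
    rcases Nat.eq_zero_or_pos n with hn | hn
    · subst hn
      have e1 : (1 : ℝ) ≤ 2 ^ k := one_le_pow₀ (by norm_num)
      have e2 : (0 : ℝ) ≤ ((0 : ℕ) : ℝ) ^ k := by positivity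
      have e3 : (((0 : ℕ) : ℝ) + 1) ^ k = 1 := by norm_num
      rw [e3]
      nlinarith
    · have hn' : (1 : ℝ) ≤ n := by exact_mod_cast hn
      have e1 : ((n : ℝ) + 1) ^ k ≤ (2 * (n : ℝ)) ^ k :=
        pow_le_pow_left₀ (by linarith) (by linarith) k
      rw [mul_pow] at e1
      have e2 : (0 : ℝ) ≤ 2 ^ k := by positivity
      nlinarith
  calc |((PowerSeries.coeff n f : ℚ) : ℝ)| * |x| ^ n
      ≤ ((B : ℝ) * (2 ^ k * ((n : ℝ) ^ k + 1))) * |x| ^ n := by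
        refine mul_le_mul_of_nonneg_right (h1.trans ?_) (by positivity)
        exact mul_le_mul_of_nonneg_left h2 (Nat.cast_nonneg B)
    _ = _ := by ring

theorem cb (n : ℕ) : 0 ≤ ((Nat.centralBinom n : ℚ) / 4 ^ n) ^ 2 ∧
    ((Nat.centralBinom n : ℚ) / 4 ^ n) ^ 2 ≤ 1 := by
  refine ⟨by positivity, ?_⟩
  have h1 : Nat.centralBinom n ≤ 4 ^ n := by
    have h2 := Nat.choose_le_two_pow (2 * n) n
    rw [pow_mul] at h2
    exact h2
  have h3 : (Nat.centralBinom n : ℚ) / 4 ^ n ≤ 1 := by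
    rw [div_le_one (by positivity)]
    exact_mod_cast h1
  exact pow_le_one₀ (by positivity) h3

theorem pb_F0 : PB F0 := by
  refine pb_of_le _ 1 fun n => ?_
  unfold F0
  rw [PowerSeries.coeff_mk, abs_of_nonneg (cb n).1]
  exact_mod_cast (cb n).2

theorem pb_H0 : PB H0 := by
  refine ⟨2, 1, fun n => ?_⟩
  unfold H0
  rw [PowerSeries.coeff_mk, abs_mul, abs_of_nonneg (cb n).1, abs_mul]
  have h1 : |∑ j ∈ range n, (1 / (2 * (j : ℚ) + 1) - 1 / (2 * (j : ℚ) + 2))| ≤ (n : ℚ) := by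
    refine (Finset.abs_sum_le_sum_abs _ _).trans ?_
    have h2 : ∀ j ∈ range n, |(1 / (2 * (j : ℚ) + 1) - 1 / (2 * (j : ℚ) + 2))| ≤ 1 := by
      intro j _
      have e0 : (0 : ℚ) ≤ j := Nat.cast_nonneg j
      have e1 : 1 / (2 * (j : ℚ) + 1) ≤ 1 := by
        rw [div_le_one (by linarith)]
        linarith
      have e2 : 1 / (2 * (j : ℚ) + 2) ≤ 1 := by
        rw [div_le_one (by linarith)]
        linarith
      have e3 : 0 ≤ 1 / (2 * (j : ℚ) + 1) := by positivity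
      have e4 : 0 ≤ 1 / (2 * (j : ℚ) + 2) := by positivity
      rw [abs_le]
      constructor <;> linarith
    refine (Finset.sum_le_card_nsmul _ _ _ h2).trans ?_
    rw [Finset.card_range, nsmul_eq_mul, mul_one]
  have e2 : |(2 : ℚ)| = 2 := by norm_num
  rw [e2, pow_one]
  calc ((Nat.centralBinom n : ℚ) / 4 ^ n) ^ 2 * (2 * |∑ j ∈ range n,
        (1 / (2 * (j : ℚ) + 1) - 1 / (2 * (j : ℚ) + 2))|)
      ≤ 1 * (2 * (n : ℚ)) := by
        refine mul_le_mul (cb n).2 ?_ (by positivity) (by norm_num)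
        linarith
    _ ≤ _ := by push_cast; linarith

theorem pb_F2 : PB F2 := by
  unfold F2
  have h1 : PB (1 - PowerSeries.X) := by
    rw [sub_eq_add_neg]
    exact pb_add _ _ pb_one (pb_neg _ pb_X)
  exact pb_add _ _ (pb_mul _ _ (pb_mul _ _ (pb_mul _ _ pb_two pb_X) h1) (pb_der _ pb_F0))
    (pb_mul _ _ h1 pb_F0)

theorem pb_H2 : PB H2 := by
  unfold H2
  have h1 : PB (1 - PowerSeries.X) := by
    rw [sub_eq_add_neg]
    exact pb_add _ _ pb_one (pb_neg _ pb_X)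
  exact pb_add _ _ (pb_add _ _
    (pb_mul _ _ (pb_mul _ _ (pb_mul _ _ pb_two pb_X) h1) (pb_der _ pb_H0))
    (pb_mul _ _ h1 pb_H0)) (pb_mul _ _ h1 pb_F0)

end CONV_

open CONV_ in
theorem p_CONV : T_CONV := by
  intro i j x hx
  refine conv_of_pb _ ?_ x hx
  fin_cases i <;> fin_cases j
  · exact pb_F0
  · exact pb_H0
  · exact pb_F2
  · exact pb_H2

end Pool.Agent.LEG
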