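import Mathlib
import Pool.Agent.LEG.COLS

set_option autoImplicit false

/-!
# The polynomials of the local fundamental matrix of the Legendre system
-/

namespace Pool.Agent.LEG.TRL_

/-! ## general properties of the recursion -/

section Rec

variable {R S : Type*} [CommRing R] [CommRing S]

theorem RecN.map {x : R} {p r : ℕ → R} (h : RecN x p r) (φ : R →+* S) :
    RecN (φ x) (fun k => φ (p k)) (fun k => φ (r k)) := by
  have h2 : φ 2 = 2 := map_ofNat φ 2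
  constructor
  · have := congrArg φ h.p1
    simpa [h2] using this
  · have := congrArg φ h.r1
    simpa [h2] using this
  · intro k
    have := congrArg φ (h.ps k)
    simpa [h2] using this
  · intro k
    have := congrArg φ (h.rs k)
    simpa [h2] using this

theorem RecN.comb {x : R} {p r p' r' : ℕ → R} (h : RecN x p r) (h' : RecN x p' r') (c d : R) :
    RecN x (fun k => c * p k + d * p' k) (fun k => c * r k + d * r' k) := by
  constructor
  · linear_combination c * h.p1 + d * h'.p1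
  · linear_combination c * h.r1 + d * h'.r1
  · intro k
    linear_combination c * h.ps k + d * h'.ps k
  · intro k
    linear_combination c * h.rs k + d * h'.rs k

theorem RecN.uniq [IsDomain R] [CharZero R] {x : R} {p r p' r' : ℕ → R} (h : RecN x p r)
    (h' : RecN x p' r') (hp : p 0 = p' 0) (hr : r 0 = r' 0) :
    ∀ k, p k = p' k ∧ r k = r' k := by
  have h2 : (2 : R) ≠ 0 := two_ne_zero
  have hone : p 1 = p' 1 ∧ r 1 = r' 1 := by
    constructor
    · apply mul_left_cancel₀ h2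
      rw [h.p1, h'.p1, hp, hr]
    · apply mul_left_cancel₀ h2
      rw [h.r1, h'.r1, hp, hr]
  have key : ∀ k, (p k = p' k ∧ r k = r' k) ∧ (p (k + 1) = p' (k + 1) ∧ r (k + 1) = r' (k + 1)) := by
    intro k
    induction k with
    | zero => exact ⟨⟨hp, hr⟩, hone⟩
    | succ k ih =>
      obtain ⟨⟨a1, a2⟩, b1, b2⟩ := ih
      refine ⟨⟨b1, b2⟩, ?_, ?_⟩
      · have hk : (2 * ((k : R) + 2)) ≠ 0 := by
          apply mul_ne_zero h2
          exact_mod_cast (Nat.succ_ne_zero (k + 1))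
        apply mul_left_cancel₀ hk
        have e1 := h.ps k
        have e2 := h'.ps k
        rw [a1, b1, b2] at e1
        exact e1.trans e2.symm
      · have hk : (2 * ((k : R) + 2)) ≠ 0 := by
          apply mul_ne_zero h2
          exact_mod_cast (Nat.succ_ne_zero (k + 1))
        apply mul_left_cancel₀ hk
        have e1 := h.rs k
        have e2 := h'.rs k
        rw [a1, a2, b1, b2] at e1
        exact e1.trans e2.symm
  exact fun k => (key k).1

end Rec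

open PowerSeries in
theorem RecS.toN {p r : ℕ → PowerSeries ℚ} (h : RecS p r) :
    RecN (X : PowerSeries ℚ) (fun k => (1 - X) ^ k * p k) (fun k => (1 - X) ^ k * r k) := by
  constructor
  · have := h.p1
    linear_combination this
  · have := h.r1
    linear_combination this
  · intro k
    have := h.ps k
    linear_combination (1 - X) ^ (k + 1) * this
  · intro k
    have := h.rs k
    linear_combination (1 - X) ^ (k + 1) * this

/-! ## the polynomials -/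

open Polynomial

/-- one column of the polynomial matrices -/
noncomputable def nk (p0 r0 : ℚ) : ℕ → ℚ[X] × ℚ[X]
  | 0 => (C p0, C r0)
  | 1 => (C (1 / 2) * (-(1 - X) * C p0 + C r0), C (1 / 2) * (-(1 - X) * C p0 + (1 - X) * C r0))
  | (k + 2) =>
    (C (1 / (2 * ((k : ℚ) + 2))) * (-(1 - X) * (nk p0 r0 (k + 1)).1 + (nk p0 r0 (k + 1)).2 -
        2 * ((k : ℚ[X]) + 1) * (1 - 2 * X) * (nk p0 r0 (k + 1)).1 +
        X * (1 - X) * (2 * (k : ℚ[X]) + 1) * (nk p0 r0 k).1),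
     C (1 / (2 * ((k : ℚ) + 2))) * (-(1 - X) * (nk p0 r0 (k + 1)).1 +
        (1 - X) * (nk p0 r0 (k + 1)).2 -
        2 * ((k : ℚ[X]) + 1) * (1 - 2 * X) * (nk p0 r0 (k + 1)).2 +
        X * (1 - X) * ((nk p0 r0 k).1 + (2 * (k : ℚ[X]) - 1) * (nk p0 r0 k).2)))

theorem nk_zero (p0 r0 : ℚ) : nk p0 r0 0 = (C p0, C r0) := by
  rw [nk]

theorem nk_one (p0 r0 : ℚ) : nk p0 r0 1 = (C (1 / 2) * (-(1 - X) * C p0 + C r0),
    C (1 / 2) * (-(1 - X) * C p0 + (1 - X) * C r0)) := by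
  rw [nk]

theorem nk_succ (p0 r0 : ℚ) (k : ℕ) : nk p0 r0 (k + 2) =
    (C (1 / (2 * ((k : ℚ) + 2))) * (-(1 - X) * (nk p0 r0 (k + 1)).1 + (nk p0 r0 (k + 1)).2 -
        2 * ((k : ℚ[X]) + 1) * (1 - 2 * X) * (nk p0 r0 (k + 1)).1 +
        X * (1 - X) * (2 * (k : ℚ[X]) + 1) * (nk p0 r0 k).1),
     C (1 / (2 * ((k : ℚ) + 2))) * (-(1 - X) * (nk p0 r0 (k + 1)).1 +
        (1 - X) * (nk p0 r0 (k + 1)).2 -
        2 * ((k : ℚ[X]) + 1) * (1 - 2 * X) * (nk p0 r0 (k + 1)).2 +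
        X * (1 - X) * ((nk p0 r0 k).1 + (2 * (k : ℚ[X]) - 1) * (nk p0 r0 k).2))) := by
  rw [nk]

theorem two_mul_C_half : (2 : ℚ[X]) * C (1 / 2 : ℚ) = 1 := by
  have h : (2 : ℚ[X]) = C (2 : ℚ) := (map_ofNat C 2).symm
  rw [h, ← C_mul]
  norm_num

theorem two_mul_C_inv (k : ℕ) : (2 * ((k : ℚ[X]) + 2)) * C (1 / (2 * ((k : ℚ) + 2))) = 1 := by
  have h : (2 * ((k : ℚ[X]) + 2)) = C (2 * ((k : ℚ) + 2)) := by
    rw [C_mul, C_add]
    have h2 : C (2 : ℚ) = (2 : ℚ[X]) := map_ofNat C 2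
    rw [h2]
    simp
  have h3 : (2 * ((k : ℚ) + 2)) ≠ 0 := by positivity
  rw [h, ← C_mul, mul_one_div, div_self h3, C_1]

theorem recN_nk (p0 r0 : ℚ) :
    RecN (X : ℚ[X]) (fun k => (nk p0 r0 k).1) (fun k => (nk p0 r0 k).2) := by
  have h2 := two_mul_C_half
  constructor
  · rw [nk_one, nk_zero]
    linear_combination (-(1 - X) * C p0 + C r0) * h2
  · rw [nk_one, nk_zero]
    linear_combination (-(1 - X) * C p0 + (1 - X) * C r0) * h2
  · intro k
    rw [nk_succ]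
    linear_combination (-(1 - X) * (nk p0 r0 (k + 1)).1 + (nk p0 r0 (k + 1)).2 -
        2 * ((k : ℚ[X]) + 1) * (1 - 2 * X) * (nk p0 r0 (k + 1)).1 +
        X * (1 - X) * (2 * (k : ℚ[X]) + 1) * (nk p0 r0 k).1) * two_mul_C_inv k
  · intro k
    rw [nk_succ]
    linear_combination (-(1 - X) * (nk p0 r0 (k + 1)).1 +
        (1 - X) * (nk p0 r0 (k + 1)).2 -
        2 * ((k : ℚ[X]) + 1) * (1 - 2 * X) * (nk p0 r0 (k + 1)).2 +
        X * (1 - X) * ((nk p0 r0 k).1 + (2 * (k : ℚ[X]) - 1) * (nk p0 r0 k).2)) * two_mul_C_inv k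

/-! ## degrees and sizes -/

/-- bound for the coefficients and the degree -/
def Bd (B : ℚ) (d : ℕ) (p : ℚ[X]) : Prop := ∀ m, |p.coeff m| ≤ B ∧ (d < m → p.coeff m = 0)

theorem Bd.nonneg {B : ℚ} {d : ℕ} {p : ℚ[X]} (h : Bd B d p) : 0 ≤ B :=
  (abs_nonneg _).trans (h 0).1

theorem Bd.add {B B' : ℚ} {d : ℕ} {p q : ℚ[X]} (hp : Bd B d p) (hq : Bd B' d q) :
    Bd (B + B') d (p + q) := by
  intro m
  rw [coeff_add]
  refine ⟨(abs_add_le _ _).trans (add_le_add (hp m).1 (hq m).1), fun h => ?_⟩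
  rw [(hp m).2 h, (hq m).2 h, add_zero]

theorem Bd.neg {B : ℚ} {d : ℕ} {p : ℚ[X]} (hp : Bd B d p) : Bd B d (-p) := by
  intro m
  rw [coeff_neg, abs_neg]
  refine ⟨(hp m).1, fun h => ?_⟩
  rw [(hp m).2 h, neg_zero]

theorem Bd.sub {B B' : ℚ} {d : ℕ} {p q : ℚ[X]} (hp : Bd B d p) (hq : Bd B' d q) :
    Bd (B + B') d (p - q) := by
  rw [sub_eq_add_neg]
  exact hp.add hq.neg

theorem Bd.C_mul {B : ℚ} {d : ℕ} {p : ℚ[X]} (c : ℚ) (hp : Bd B d p) :
    Bd (|c| * B) d (C c * p) := by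
  intro m
  rw [coeff_C_mul, abs_mul]
  refine ⟨mul_le_mul_of_nonneg_left (hp m).1 (abs_nonneg _), fun h => ?_⟩
  rw [(hp m).2 h, mul_zero]

theorem Bd.X_mul {B : ℚ} {d : ℕ} {p : ℚ[X]} (hp : Bd B d p) : Bd B (d + 1) (X * p) := by
  intro m
  rcases m with _ | m
  · simp only [mul_coeff_zero, coeff_X_zero, zero_mul, abs_zero]
    exact ⟨hp.nonneg, fun _ => trivial⟩
  · rw [coeff_X_mul]
    exact ⟨(hp m).1, fun h => (hp m).2 (by omega)⟩

theorem Bd.mono {B B' : ℚ} {d d' : ℕ} {p : ℚ[X]} (hp : Bd B d p) (h : B ≤ B') (h' : d ≤ d') :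
    Bd B' d' p :=
  fun m => ⟨(hp m).1.trans h, fun hm => (hp m).2 (by omega)⟩

theorem Bd.one_sub {B : ℚ} {d : ℕ} {p : ℚ[X]} (hp : Bd B d p) :
    Bd (2 * B) (d + 1) ((1 - X) * p) := by
  have h := (hp.mono le_rfl (Nat.le_succ d)).sub hp.X_mul
  have e : (1 - X) * p = p - X * p := by ring
  rw [e]
  exact h.mono (by linarith) le_rfl

theorem Bd.one_sub_two {B : ℚ} {d : ℕ} {p : ℚ[X]} (hp : Bd B d p) :
    Bd (3 * B) (d + 1) ((1 - 2 * X) * p) := by
  have h := (hp.mono le_rfl (Nat.le_succ d)).sub (hp.X_mul.C_mul 2)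
  have e : (1 - 2 * X) * p = p - C 2 * (X * p) := by
    have h2 : C (2 : ℚ) = (2 : ℚ[X]) := map_ofNat C 2
    rw [h2]
    ring
  rw [e]
  refine h.mono ?_ le_rfl
  rw [abs_two]
  linarith

theorem bd_C (c : ℚ) : Bd |c| 0 (C c : ℚ[X]) := by
  intro m
  rw [coeff_C]
  split_ifs with h
  · exact ⟨le_rfl, fun h' => by omega⟩
  · rw [abs_zero]
    exact ⟨abs_nonneg _, fun _ => rfl⟩

theorem bd_nk {p0 r0 : ℚ} (hp : |p0| ≤ 1) (hr : |r0| ≤ 1) :
    ∀ k, Bd (5 ^ k) k (nk p0 r0 k).1 ∧ Bd (5 ^ k) k (nk p0 r0 k).2 := by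
  have key : ∀ k, (Bd (5 ^ k) k (nk p0 r0 k).1 ∧ Bd (5 ^ k) k (nk p0 r0 k).2) ∧
      (Bd (5 ^ (k + 1)) (k + 1) (nk p0 r0 (k + 1)).1 ∧
        Bd (5 ^ (k + 1)) (k + 1) (nk p0 r0 (k + 1)).2) := by
    intro k
    induction k with
    | zero =>
      have hp' : Bd 1 0 (C p0 : ℚ[X]) := (bd_C p0).mono hp le_rfl
      have hr' : Bd 1 0 (C r0 : ℚ[X]) := (bd_C r0).mono hr le_rfl
      refine ⟨?_, ?_⟩
      · rw [nk_zero]
        simpa using ⟨hp', hr'⟩
      · rw [zero_add, nk_one]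
        have h1 := (hp'.one_sub.neg.add (hr'.mono le_rfl (Nat.zero_le 1))).C_mul (1 / 2)
        have h2 := (hp'.one_sub.neg.add hr'.one_sub).C_mul (1 / 2)
        rw [abs_of_pos (by norm_num : (0 : ℚ) < 1 / 2)] at h1 h2
        constructor
        · rw [neg_mul]
          exact h1.mono (by norm_num) le_rfl
        · rw [neg_mul]
          exact h2.mono (by norm_num) le_rfl
    | succ k ih =>
      obtain ⟨⟨a1, a2⟩, b1, b2⟩ := ih
      refine ⟨⟨b1, b2⟩, ?_⟩
      have hk : (0 : ℚ) ≤ k := Nat.cast_nonneg k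
      have hk2 : (0 : ℚ) < 2 * ((k : ℚ) + 2) := by positivity
      have h5 : (0 : ℚ) < 5 ^ k := by positivity
      have h51 : (5 : ℚ) ^ (k + 1) = 5 * 5 ^ k := pow_succ' _ _
      have h52 : (5 : ℚ) ^ (k + 1 + 1) = 5 * (5 * 5 ^ k) := by rw [pow_succ', pow_succ']
      have e1 : (2 * ((k : ℚ[X]) + 1)) = C (2 * ((k : ℚ) + 1)) := by
        rw [C_mul, C_add]
        have h2 : C (2 : ℚ) = (2 : ℚ[X]) := map_ofNat C 2
        rw [h2]
        simp
      have e2 : (2 * (k : ℚ[X]) + 1) = C (2 * (k : ℚ) + 1) := by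
        rw [C_add, C_mul]
        have h2 : C (2 : ℚ) = (2 : ℚ[X]) := map_ofNat C 2
        rw [h2]
        simp
      have e3 : (2 * (k : ℚ[X]) - 1) = C (2 * (k : ℚ) - 1) := by
        rw [C_sub, C_mul]
        have h2 : C (2 : ℚ) = (2 : ℚ[X]) := map_ofNat C 2
        rw [h2]
        simp
      have hc1 : |2 * ((k : ℚ) + 1)| = 2 * ((k : ℚ) + 1) := abs_of_nonneg (by positivity)
      have hc2 : |2 * (k : ℚ) + 1| = 2 * (k : ℚ) + 1 := abs_of_nonneg (by positivity)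
      have hc3 : |2 * (k : ℚ) - 1| ≤ 2 * (k : ℚ) + 1 := by
        rw [abs_le]
        constructor <;> linarith
      have hc4 : |1 / (2 * ((k : ℚ) + 2))| = 1 / (2 * ((k : ℚ) + 2)) :=
        abs_of_nonneg (by positivity)
      rw [nk_succ]
      constructor
      · have t1 := b1.one_sub.neg
        have t2 := b2.mono le_rfl (Nat.le_succ (k + 1))
        have t3 := (b1.one_sub_two.C_mul (2 * ((k : ℚ) + 1)))
        have t4 := ((a1.C_mul (2 * (k : ℚ) + 1)).one_sub).X_mul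
        have t := (((t1.add t2).sub t3).add t4).C_mul (1 / (2 * ((k : ℚ) + 2)))
        rw [hc1, hc2, hc4] at t
        have e : C (1 / (2 * ((k : ℚ) + 2))) * (-(1 - X) * (nk p0 r0 (k + 1)).1 +
            (nk p0 r0 (k + 1)).2 - 2 * ((k : ℚ[X]) + 1) * (1 - 2 * X) * (nk p0 r0 (k + 1)).1 +
            X * (1 - X) * (2 * (k : ℚ[X]) + 1) * (nk p0 r0 k).1) =
            C (1 / (2 * ((k : ℚ) + 2))) * (-((1 - X) * (nk p0 r0 (k + 1)).1) +
            (nk p0 r0 (k + 1)).2 - C (2 * ((k : ℚ) + 1)) * ((1 - 2 * X) * (nk p0 r0 (k + 1)).1) +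
            X * ((1 - X) * (C (2 * (k : ℚ) + 1) * (nk p0 r0 k).1))) := by
          rw [← e1, ← e2]
          ring
        rw [e]
        refine t.mono ?_ (by omega)
        rw [one_div, inv_mul_le_iff₀ hk2, h51, h52]
        nlinarith [mul_nonneg hk h5.le, mul_le_mul_of_nonneg_right hc3 h5.le]
      · have t1 := b1.one_sub.neg
        have t2 := b2.one_sub
        have t3 := (b2.one_sub_two.C_mul (2 * ((k : ℚ) + 1)))
        have t4 := ((a1.add (a2.C_mul (2 * (k : ℚ) - 1))).one_sub).X_mul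
        have t := (((t1.add t2).sub t3).add t4).C_mul (1 / (2 * ((k : ℚ) + 2)))
        rw [hc1, hc4] at t
        have e : C (1 / (2 * ((k : ℚ) + 2))) * (-(1 - X) * (nk p0 r0 (k + 1)).1 +
            (1 - X) * (nk p0 r0 (k + 1)).2 -
            2 * ((k : ℚ[X]) + 1) * (1 - 2 * X) * (nk p0 r0 (k + 1)).2 +
            X * (1 - X) * ((nk p0 r0 k).1 + (2 * (k : ℚ[X]) - 1) * (nk p0 r0 k).2)) =
            C (1 / (2 * ((k : ℚ) + 2))) * (-((1 - X) * (nk p0 r0 (k + 1)).1) +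
            (1 - X) * (nk p0 r0 (k + 1)).2 -
            C (2 * ((k : ℚ) + 1)) * ((1 - 2 * X) * (nk p0 r0 (k + 1)).2) +
            X * ((1 - X) * ((nk p0 r0 k).1 + C (2 * (k : ℚ) - 1) * (nk p0 r0 k).2))) := by
          rw [← e1, ← e3]
          ring
        rw [e]
        refine t.mono ?_ (by omega)
        rw [one_div, inv_mul_le_iff₀ hk2, h51, h52]
        nlinarith [mul_nonneg hk h5.le, mul_le_mul_of_nonneg_right hc3 h5.le]
  exact fun k => (key k).1

end Pool.Agent.LEG.TRL_
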