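import Mathlib
import Pool.Agent.LEG.POLY

set_option autoImplicit false

/-!
# Denominators of the polynomials of the Legendre system
-/

namespace Pool.Agent.LEG.TRL_

open PowerSeries

/-- `16^s` clears the denominator of the coefficient of `X^s` -/
def I16 (f : PowerSeries ℚ) : Prop := ∀ s, ∃ x : ℤ, (16 : ℚ) ^ s * coeff s f = x

/-- the same up to the factor `L`, for the coefficients up to `S` -/
def IL (L S : ℕ) (f : PowerSeries ℚ) : Prop :=
  ∀ s, s ≤ S → ∃ x : ℤ, (16 : ℚ) ^ s * L * coeff s f = x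

theorem I16.mul_IL {L S : ℕ} {f g : PowerSeries ℚ} (hf : I16 f) (hg : IL L S g) :
    IL L S (f * g) := by
  intro s hs
  have h : ∀ p : ℕ × ℕ, ∃ x : ℤ, p ∈ Finset.HasAntidiagonal.antidiagonal s →
      (16 : ℚ) ^ s * L * (coeff p.1 f * coeff p.2 g) = x := by
    intro p
    by_cases hp : p ∈ Finset.HasAntidiagonal.antidiagonal s
    · have hp' := Finset.HasAntidiagonal.mem_antidiagonal.1 hp
      obtain ⟨x, hx⟩ := hf p.1
      obtain ⟨y, hy⟩ := hg p.2 (by omega)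
      refine ⟨x * y, fun _ => ?_⟩
      push_cast
      rw [← hx, ← hy, ← hp', pow_add]
      ring
    · exact ⟨0, fun h => absurd h hp⟩
  choose x hx using h
  refine ⟨∑ p ∈ Finset.HasAntidiagonal.antidiagonal s, x p, ?_⟩
  rw [coeff_mul, Finset.mul_sum]
  push_cast
  exact Finset.sum_congr rfl hx

theorem IL.sub {L S : ℕ} {f g : PowerSeries ℚ} (hf : IL L S f) (hg : IL L S g) :
    IL L S (f - g) := by
  intro s hs
  obtain ⟨x, hx⟩ := hf s hs
  obtain ⟨y, hy⟩ := hg s hs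
  refine ⟨x - y, ?_⟩
  rw [map_sub, mul_sub, hx, hy]
  push_cast
  ring

theorem i16_one_sub_pow (k : ℕ) : I16 ((1 - X) ^ k) := by
  intro s
  have h : ((1 - X : PowerSeries ℚ) ^ k) = (((1 - Polynomial.X : Polynomial ℤ) ^ k).map
      (Int.castRingHom ℚ) : Polynomial ℚ) := by
    rw [Polynomial.map_pow, Polynomial.map_sub, Polynomial.map_one, Polynomial.map_X]
    push_cast
    rfl
  rw [h, Polynomial.coeff_coe, Polynomial.coeff_map]
  refine ⟨16 ^ s * ((1 - Polynomial.X : Polynomial ℤ) ^ k).coeff s, ?_⟩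
  push_cast
  simp

theorem fc_int (m : ℕ) : ∃ x : ℤ, (16 : ℚ) ^ m * fc m = x := by
  refine ⟨(Nat.centralBinom m : ℤ) ^ 2, ?_⟩
  unfold fc
  have h : (16 : ℚ) ^ m = (4 ^ m) ^ 2 := by
    rw [← pow_mul, mul_comm, pow_mul]
    norm_num
  rw [h, div_pow]
  have h4 : ((4 : ℚ) ^ m) ^ 2 ≠ 0 := by positivity
  field_simp
  push_cast
  rfl

theorem ec_int (m : ℕ) : ∃ x : ℤ, (16 : ℚ) ^ m * ec m = x := by
  rcases m with _ | m
  · exact ⟨1, by simp [ec_zero]⟩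
  · obtain ⟨x, hx⟩ := fc_int (m + 1)
    obtain ⟨y, hy⟩ := fc_int m
    have h := fc_rec m
    refine ⟨(2 * m + 3) * x - 16 * (2 * m + 1) * y, ?_⟩
    push_cast
    rw [← hx, ← hy, pow_succ]
    linear_combination -(16 : ℚ) ^ m * 16 * h

theorem i16_aF (k : ℕ) : I16 (aF k) := by
  intro s
  obtain ⟨x, hx⟩ := fc_int s
  refine ⟨(s.choose k : ℤ) * x, ?_⟩
  simp only [aF, coeff_mk, bb]
  push_cast
  rw [← hx]
  ring

theorem i16_aE (k : ℕ) : I16 (aE k) := by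
  intro s
  obtain ⟨x, hx⟩ := ec_int s
  refine ⟨(s.choose k : ℤ) * x, ?_⟩
  simp only [aE, coeff_mk, bb]
  push_cast
  rw [← hx]
  ring

theorem lcm_div {n j : ℕ} (h1 : 1 ≤ j) (h2 : j ≤ n) : ∃ x : ℤ, (Nat.lcmUpto n : ℚ) * (1 / j) = x := by
  have : j ∣ Nat.lcmUpto n := by
    unfold Nat.lcmUpto
    exact Finset.dvd_lcm (by simp [h1, h2])
  obtain ⟨c, hc⟩ := this
  refine ⟨c, ?_⟩
  rw [hc]
  have : (j : ℚ) ≠ 0 := by positivity
  push_cast
  field_simp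

theorem hc_int {S m : ℕ} (h : m ≤ S) : ∃ x : ℤ, (Nat.lcmUpto (2 * S) : ℚ) * hc m = x := by
  induction m with
  | zero => exact ⟨0, by simp [hc_zero]⟩
  | succ m ih =>
    obtain ⟨x, hx⟩ := ih (by omega)
    obtain ⟨y, hy⟩ := lcm_div (n := 2 * S) (j := 2 * m + 1) (by omega) (by omega)
    obtain ⟨z, hz⟩ := lcm_div (n := 2 * S) (j := 2 * m + 2) (by omega) (by omega)
    refine ⟨x + y - z, ?_⟩
    rw [hc_succ]
    push_cast at *
    rw [← hx, ← hy, ← hz]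
    ring

theorem cc_int {S m k : ℕ} (h : k ≤ S) : ∃ x : ℤ, (Nat.lcmUpto (2 * S) : ℚ) * cc m k = x := by
  have h1 : ∀ j : ℕ, ∃ x : ℤ, j ∈ Finset.range k → (Nat.lcmUpto (2 * S) : ℚ) *
      ((-1) ^ j / ((j : ℚ) + 1) * (m.choose (k - 1 - j) : ℚ)) = x := by
    intro j
    by_cases hj : j ∈ Finset.range k
    · have hj' := Finset.mem_range.1 hj
      obtain ⟨y, hy⟩ := lcm_div (n := 2 * S) (j := j + 1) (by omega) (by omega)
      refine ⟨(-1) ^ j * y * (m.choose (k - 1 - j) : ℤ), fun _ => ?_⟩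
      push_cast at *
      rw [← hy]
      ring
    · exact ⟨0, fun h => absurd h hj⟩
  choose x hx using h1
  refine ⟨∑ j ∈ Finset.range k, x j, ?_⟩
  unfold cc
  rw [Finset.mul_sum]
  push_cast
  exact Finset.sum_congr rfl hx

theorem il_bF {k S : ℕ} (hk : k ≤ S) : IL (Nat.lcmUpto (2 * S)) S (bF k) := by
  intro s hs
  obtain ⟨x, hx⟩ := fc_int s
  obtain ⟨y, hy⟩ := hc_int hs
  obtain ⟨z, hz⟩ := cc_int (m := s) hk
  refine ⟨(s.choose k : ℤ) * (4 * y * x) + z * x, ?_⟩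
  simp only [bF, coeff_mk, bb, gc]
  push_cast
  rw [← hx, ← hy, ← hz]
  ring

theorem il_bE {k S : ℕ} (hk : k ≤ S) : IL (Nat.lcmUpto (2 * S)) S (bE k) := by
  intro s hs
  obtain ⟨x, hx⟩ := ec_int s
  obtain ⟨y, hy⟩ := hc_int hs
  obtain ⟨z, hz⟩ := cc_int (m := s) hk
  have h1 : ∃ t : ℤ, (Nat.lcmUpto (2 * S) : ℚ) * (2 / (2 * s - 1)) = t := by
    rcases s with _ | s
    · refine ⟨-2 * (Nat.lcmUpto (2 * S) : ℤ), ?_⟩
      push_cast
      norm_num
      ring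
    · obtain ⟨t, ht⟩ := lcm_div (n := 2 * S) (j := 2 * s + 1) (by omega) (by omega)
      refine ⟨2 * t, ?_⟩
      push_cast at *
      rw [← ht]
      ring
  obtain ⟨t, ht⟩ := h1
  refine ⟨(s.choose k : ℤ) * ((4 * y - t) * x) + z * x, ?_⟩
  simp only [bE, coeff_mk, bb, wc]
  push_cast
  rw [← hx, ← hy, ← hz, ← ht]
  ring

/-! ## the columns as power series -/

instance : CharZero (PowerSeries ℚ) := algebraRat.charZero _

theorem C_half_mul_two : (C (1 / 2 : ℚ) : PowerSeries ℚ) * 2 = 1 := by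
  have h : (2 : PowerSeries ℚ) = C (2 : ℚ) := (map_ofNat C 2).symm
  rw [h, ← map_mul]
  norm_num

theorem recN_coe (p0 r0 : ℚ) : RecN (X : PowerSeries ℚ)
    (fun k => ((nk p0 r0 k).1 : PowerSeries ℚ)) (fun k => ((nk p0 r0 k).2 : PowerSeries ℚ)) := by
  have h := (recN_nk p0 r0).map (Polynomial.coeToPowerSeries.ringHom (R := ℚ))
  simpa using h

theorem col1 (k : ℕ) :
    ((nk 1 0 k).1 : PowerSeries ℚ) =
      C (1 / 2) * (((1 - X) ^ k * aF k) * bE 0 - ((1 - X) ^ k * aE 0) * bF k) ∧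
    ((nk 1 0 k).2 : PowerSeries ℚ) =
      C (1 / 2) * (((1 - X) ^ k * aE k) * bE 0 - ((1 - X) ^ k * aE 0) * bE k) := by
  have h := (recS_a.toN.comb recS_b.toN (C (1 / 2) * bE 0) (-(C (1 / 2) * aE 0)))
  have hd := det_two
  have h2 := C_half_mul_two
  have hu := (recN_coe 1 0).uniq h (by
      rw [nk_zero]
      simp only [map_one, Polynomial.coe_one, pow_zero, one_mul]
      linear_combination -C (1 / 2 : ℚ) * hd - h2) (by
      rw [nk_zero]
      simp only [map_zero, Polynomial.coe_zero, pow_zero, one_mul]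
      ring) k
  refine ⟨hu.1.trans ?_, hu.2.trans ?_⟩ <;> ring

theorem col2 (k : ℕ) :
    ((nk 0 1 k).1 : PowerSeries ℚ) =
      C (1 / 2) * (((1 - X) ^ k * aF 0) * bF k - ((1 - X) ^ k * aF k) * bF 0) ∧
    ((nk 0 1 k).2 : PowerSeries ℚ) =
      C (1 / 2) * (((1 - X) ^ k * aF 0) * bE k - ((1 - X) ^ k * aE k) * bF 0) := by
  have h := (recS_a.toN.comb recS_b.toN (-(C (1 / 2) * bF 0)) (C (1 / 2) * aF 0))
  have hd := det_two
  have h2 := C_half_mul_two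
  have hu := (recN_coe 0 1).uniq h (by
      rw [nk_zero]
      simp only [map_zero, Polynomial.coe_zero, pow_zero, one_mul]
      ring) (by
      rw [nk_zero]
      simp only [map_one, Polynomial.coe_one, pow_zero, one_mul]
      linear_combination -C (1 / 2 : ℚ) * hd - h2) k
  refine ⟨hu.1.trans ?_, hu.2.trans ?_⟩ <;> ring

/-- the denominator of the polynomials -/
def dn (k : ℕ) : ℕ := 2 * 16 ^ k * Nat.lcmUpto (2 * k)

theorem int_of_IL {k : ℕ} {p : Polynomial ℚ} {f : PowerSeries ℚ}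
    (hp : ∀ m, k < m → p.coeff m = 0) (h : (p : PowerSeries ℚ) = C (1 / 2) * f)
    (hf : IL (Nat.lcmUpto (2 * k)) k f) (s : ℕ) : ∃ x : ℤ, (dn k : ℚ) * p.coeff s = x := by
  rcases le_or_gt s k with hs | hs
  · obtain ⟨x, hx⟩ := hf s hs
    refine ⟨16 ^ (k - s) * x, ?_⟩
    have h1 : p.coeff s = 1 / 2 * coeff s f := by
      rw [← Polynomial.coeff_coe, h, coeff_C_mul]
    rw [h1]
    unfold dn
    push_cast
    rw [← hx]
    have : (16 : ℚ) ^ k = 16 ^ (k - s) * 16 ^ s := by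
      rw [← pow_add]
      congr 1
      omega
    rw [this]
    ring
  · exact ⟨0, by rw [hp s hs]; simp⟩

theorem I16.mul {f g : PowerSeries ℚ} (hf : I16 f) (hg : I16 g) : I16 (f * g) := by
  intro s
  have hg' : IL 1 s g := by
    intro t _
    obtain ⟨x, hx⟩ := hg t
    exact ⟨x, by rw [← hx]; push_cast; ring⟩
  obtain ⟨x, hx⟩ := hf.mul_IL hg' s le_rfl
  exact ⟨x, by rw [← hx]; push_cast; ring⟩

theorem nk_int (p0 r0 : ℚ) (h : (p0 = 1 ∧ r0 = 0) ∨ (p0 = 0 ∧ r0 = 1)) (k s : ℕ) :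
    (∃ x : ℤ, (dn k : ℚ) * (nk p0 r0 k).1.coeff s = x) ∧
    (∃ x : ℤ, (dn k : ℚ) * (nk p0 r0 k).2.coeff s = x) := by
  have hb : |p0| ≤ 1 ∧ |r0| ≤ 1 := by
    rcases h with ⟨h1, h2⟩ | ⟨h1, h2⟩ <;> rw [h1, h2] <;> simp
  have hd := bd_nk hb.1 hb.2 k
  have hp1 := fun m => (hd.1 m).2
  have hp2 := fun m => (hd.2 m).2
  rcases h with ⟨h1, h2⟩ | ⟨h1, h2⟩
  · rw [h1, h2] at hp1 hp2 ⊢
    refine ⟨int_of_IL hp1 (col1 k).1 ?_ s, int_of_IL hp2 (col1 k).2 ?_ s⟩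
    · exact (((i16_one_sub_pow k).mul (i16_aF k)).mul_IL (il_bE (Nat.zero_le k))).sub
        (((i16_one_sub_pow k).mul (i16_aE 0)).mul_IL (il_bF le_rfl))
    · exact (((i16_one_sub_pow k).mul (i16_aE k)).mul_IL (il_bE (Nat.zero_le k))).sub
        (((i16_one_sub_pow k).mul (i16_aE 0)).mul_IL (il_bE le_rfl))
  · rw [h1, h2] at hp1 hp2 ⊢
    refine ⟨int_of_IL hp1 (col2 k).1 ?_ s, int_of_IL hp2 (col2 k).2 ?_ s⟩
    · exact (((i16_one_sub_pow k).mul (i16_aF 0)).mul_IL (il_bF le_rfl)).sub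
        (((i16_one_sub_pow k).mul (i16_aF k)).mul_IL (il_bF (Nat.zero_le k)))
    · exact (((i16_one_sub_pow k).mul (i16_aF 0)).mul_IL (il_bE le_rfl)).sub
        (((i16_one_sub_pow k).mul (i16_aE k)).mul_IL (il_bF (Nat.zero_le k)))

end Pool.Agent.LEG.TRL_
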