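import Mathlib
import Pool.Agent.LEG.INTG

set_option autoImplicit false

/-!
# The local fundamental matrix of the Legendre system and its composite with `c z / (1 - a z)`
-/

namespace Pool.Agent.LEG.TRL_

open PowerSeries

theorem coeff_X_deriv (f : PowerSeries ℚ) (k : ℕ) :
    coeff k (X * derivative ℚ f) = k * coeff k f := by
  rcases k with _ | k
  · simp
  · rw [coeff_succ_X_mul, coeff_derivative]
    push_cast
    ring

/-- first component of a column of the local fundamental matrix at `x` -/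
noncomputable def vp (p0 r0 x : ℚ) : PowerSeries ℚ :=
  PowerSeries.mk fun k => (nk p0 r0 k).1.eval x / (x * (1 - x)) ^ k

/-- second component -/
noncomputable def vr (p0 r0 x : ℚ) : PowerSeries ℚ :=
  PowerSeries.mk fun k => (nk p0 r0 k).2.eval x / (x * (1 - x)) ^ k

theorem v_ode (p0 r0 : ℚ) {x : ℚ} (hx : x * (1 - x) ≠ 0) :
    2 * (C x + X) * (1 - (C x + X)) * derivative ℚ (vp p0 r0 x) =
      -(1 - (C x + X)) * vp p0 r0 x + vr p0 r0 x ∧
    2 * (C x + X) * (1 - (C x + X)) * derivative ℚ (vr p0 r0 x) =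
      -(1 - (C x + X)) * vp p0 r0 x + (1 - (C x + X)) * vr p0 r0 x := by
  have hR := (recN_nk p0 r0).map (Polynomial.evalRingHom x)
  simp only [Polynomial.coe_evalRingHom, Polynomial.eval_X] at hR
  obtain ⟨dd, hdd⟩ : ∃ d : ℚ, d = x * (1 - x) := ⟨_, rfl⟩
  rw [← hdd] at hx
  obtain ⟨c1, hc1⟩ : ∃ d : ℚ, d = 1 - 2 * x := ⟨_, rfl⟩
  obtain ⟨c2, hc2⟩ : ∃ d : ℚ, d = 1 - x := ⟨_, rfl⟩
  have e0 : (2 : PowerSeries ℚ) = C (2 : ℚ) := (map_ofNat C 2).symm
  have e1 : (C x : PowerSeries ℚ) * (1 - C x) = C dd := by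
    rw [hdd, map_mul, map_sub, map_one]
  have e2 : (1 - 2 * C x : PowerSeries ℚ) = C c1 := by
    rw [hc1, map_sub, map_mul, map_one, e0]
  have e3 : (1 - C x : PowerSeries ℚ) = C c2 := by
    rw [hc2, map_sub, map_one]
  have l1 : ∀ f : PowerSeries ℚ, 2 * (C x + X) * (1 - (C x + X)) * derivative ℚ f =
      C 2 * (C dd * derivative ℚ f + C c1 * (X * derivative ℚ f) -
        X * (X * derivative ℚ f)) := by
    intro f
    rw [← e1, ← e2, ← e0]
    ring
  have l2 : ∀ f : PowerSeries ℚ, (1 - (C x + X)) * f = C c2 * f - X * f := by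
    intro f
    rw [← e3]
    ring
  have hp : ∀ k, coeff k (vp p0 r0 x) = (nk p0 r0 k).1.eval x / dd ^ k := by
    intro k
    rw [hdd]
    simp [vp]
  have hr : ∀ k, coeff k (vr p0 r0 x) = (nk p0 r0 k).2.eval x / dd ^ k := by
    intro k
    rw [hdd]
    simp [vr]
  constructor
  · rw [neg_mul, l1, l2]
    ext k
    rcases k with _ | k
    · simp only [map_add, map_sub, map_neg, coeff_C_mul, coeff_zero_X_mul, coeff_derivative, hp, hr]
      have := hR.p1
      rw [hc2]
      field_simp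
      push_cast
      linear_combination dd * this
    · simp only [map_add, map_sub, map_neg, coeff_C_mul, coeff_succ_X_mul, coeff_derivative,
        coeff_X_deriv, hp, hr]
      have := hR.ps k
      rw [hc2, hc1]
      have h1 : dd ^ (k + 1 + 1) = dd * dd * dd ^ k := by ring
      have h2 : dd ^ (k + 1) = dd * dd ^ k := by ring
      have h3 : dd ^ k ≠ 0 := pow_ne_zero _ hx
      rw [h1, h2]
      push_cast
      field_simp
      rw [← hdd] at this
      linear_combination this
  · rw [neg_mul, l1, l2, l2]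
    ext k
    rcases k with _ | k
    · simp only [map_add, map_sub, map_neg, coeff_C_mul, coeff_zero_X_mul, coeff_derivative, hp, hr]
      have := hR.r1
      rw [hc2]
      field_simp
      push_cast
      linear_combination dd * this
    · simp only [map_add, map_sub, map_neg, coeff_C_mul, coeff_succ_X_mul, coeff_derivative,
        coeff_X_deriv, hp, hr]
      have := hR.rs k
      rw [hc2, hc1]
      have h1 : dd ^ (k + 1 + 1) = dd * dd * dd ^ k := by ring
      have h2 : dd ^ (k + 1) = dd * dd ^ k := by ring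
      have h3 : dd ^ k ≠ 0 := pow_ne_zero _ hx
      rw [h1, h2]
      push_cast
      field_simp
      rw [← hdd] at this
      linear_combination this

theorem v_init (p0 r0 x : ℚ) : constantCoeff (vp p0 r0 x) = p0 ∧
    constantCoeff (vr p0 r0 x) = r0 := by
  rw [← coeff_zero_eq_constantCoeff_apply, ← coeff_zero_eq_constantCoeff_apply]
  simp [vp, vr, nk_zero]

/-! ## the substitution -/

/-- `c z / (1 - a z) - c z0 / (1 - a z0)` as a power series in `z - z0`, `z0 = 1 / N` -/
noncomputable def ss (c a N : ℕ) : PowerSeries ℚ :=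
  C ((c : ℚ) * N ^ 2 / ((N : ℚ) - a) ^ 2) *
    (X * PowerSeries.mk fun j => ((a : ℚ) * N / ((N : ℚ) - a)) ^ j)

theorem ss_subst (c a N : ℕ) : HasSubst (ss c a N) := by
  apply HasSubst.of_constantCoeff_zero'
  simp [ss]

/-- the equation of the substitution -/
theorem ss_eq {c a N : ℕ} (h : a < N) :
    (1 - C (a : ℚ) * (C (1 / (N : ℚ)) + X)) * (C ((c : ℚ) / ((N : ℚ) - a)) + ss c a N) =
      C (c : ℚ) * (C (1 / (N : ℚ)) + X) := by
  have hN : (N : ℚ) ≠ 0 := by
    have : 0 < N := by omega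
    positivity
  have hn : ((N : ℚ) - a) ≠ 0 := by
    have : (a : ℚ) < N := by exact_mod_cast h
    linarith
  obtain ⟨ρ, hρ⟩ : ∃ d : ℚ, d = (a : ℚ) * N / ((N : ℚ) - a) := ⟨_, rfl⟩
  obtain ⟨z0, hz0⟩ : ∃ d : ℚ, d = 1 / (N : ℚ) := ⟨_, rfl⟩
  obtain ⟨x, hx⟩ : ∃ d : ℚ, d = (c : ℚ) / ((N : ℚ) - a) := ⟨_, rfl⟩
  obtain ⟨t, ht⟩ : ∃ d : ℚ, d = (c : ℚ) * N ^ 2 / ((N : ℚ) - a) ^ 2 := ⟨_, rfl⟩
  obtain ⟨u, hu⟩ : ∃ d : ℚ, d = ((N : ℚ) - a) / N := ⟨_, rfl⟩
  have hgeo : (1 - C ρ * X) * PowerSeries.mk (fun j => ρ ^ j) = 1 := by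
    rw [sub_mul, one_mul, mul_assoc]
    ext j
    rcases j with _ | j
    · simp
    · rw [map_sub, coeff_C_mul, coeff_succ_X_mul, coeff_mk, coeff_mk, coeff_one]
      simp
      ring
  have hp : (1 - C (a : ℚ) * (C (1 / (N : ℚ)) + X) : PowerSeries ℚ) = C u * (1 - C ρ * X) := by
    have h1 : (1 : ℚ) - a * (1 / N) = u := by
      rw [hu]
      field_simp
    have h2 : (a : ℚ) = u * ρ := by
      rw [hu, hρ]
      field_simp
    calc (1 - C (a : ℚ) * (C (1 / (N : ℚ)) + X) : PowerSeries ℚ)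
        = C ((1 : ℚ) - a * (1 / N)) - C (a : ℚ) * X := by
          rw [map_sub, map_mul, map_one]
          ring
      _ = C u - C (u * ρ) * X := by rw [h1, ← h2]
      _ = C u * (1 - C ρ * X) := by
          rw [map_mul]
          ring
  have h3 : u * x = c * z0 := by
    rw [hu, hx, hz0]
    field_simp
  have h4 : u * t - u * x * ρ = c := by
    rw [hu, ht, hx, hρ]
    field_simp
  have h3' : (C u * C x : PowerSeries ℚ) = C (c : ℚ) * C z0 := by
    rw [← map_mul, ← map_mul, h3]
  have h4' : (C u * C t - C u * C x * C ρ : PowerSeries ℚ) = C (c : ℚ) := by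
    rw [← map_mul, ← map_mul, ← map_mul, ← map_sub, h4]
  have hss : ss c a N = C t * (X * PowerSeries.mk fun j => ρ ^ j) := by
    rw [ht, hρ]
    rfl
  rw [hp, hss, ← hx, ← hz0]
  linear_combination h3' + X * h4' + C u * C t * X * hgeo

/-- the factor `1 - a z` -/
noncomputable def pz (a N : ℕ) : PowerSeries ℚ := 1 - C (a : ℚ) * (C (1 / (N : ℚ)) + X)

theorem ss_deriv {c a N : ℕ} (h : a < N) :
    pz a N ^ 2 * derivative ℚ (ss c a N) = C (c : ℚ) := by
  have h1 := ss_eq (c := c) h
  have h2 := congrArg (derivative ℚ) h1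
  rw [Derivation.leibniz, Derivation.leibniz, map_add, map_add, map_sub, derivative_C,
    derivative_C, derivative_C, Derivation.leibniz, map_add, derivative_C, derivative_C,
    derivative_X] at h2
  have hone : derivative ℚ (1 : PowerSeries ℚ) = 0 := by
    rw [← map_one (C (R := ℚ)), derivative_C]
  rw [hone] at h2
  simp only [smul_eq_mul, mul_zero, add_zero, zero_add, mul_one, zero_sub] at h2
  unfold pz
  linear_combination (1 - C (a : ℚ) * (C (1 / (N : ℚ)) + X)) * h2 + C (a : ℚ) * h1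

/-- composite of the first component -/
noncomputable def cp (p0 r0 : ℚ) (c a N : ℕ) : PowerSeries ℚ :=
  (vp p0 r0 ((c : ℚ) / ((N : ℚ) - a))).subst (ss c a N)

/-- composite of the second component -/
noncomputable def cr (p0 r0 : ℚ) (c a N : ℕ) : PowerSeries ℚ :=
  (vr p0 r0 ((c : ℚ) / ((N : ℚ) - a))).subst (ss c a N)

theorem constantCoeff_ss (c a N : ℕ) : constantCoeff (ss c a N) = 0 := by
  simp [ss]

theorem constantCoeff_comp (f : PowerSeries ℚ) (c a N : ℕ) :
    constantCoeff ((f.subst (ss c a N) : PowerSeries ℚ)) = constantCoeff f := by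
  have hs := ss_subst c a N
  obtain ⟨g, hg⟩ : X ∣ f - C (constantCoeff f) := X_dvd_iff.mpr (by simp)
  have h1 : f = C (constantCoeff f) + X * g := by
    rw [← hg]
    ring
  have h2 : (f.subst (ss c a N) : PowerSeries ℚ) =
      C (constantCoeff f) + ss c a N * g.subst (ss c a N) := by
    conv_lhs => rw [h1]
    rw [subst_add hs, subst_mul hs, subst_X hs]
    congr 1
    exact subst_C _
  rw [h2, map_add, map_mul, constantCoeff_ss, zero_mul, add_zero]
  simp

theorem c_init (p0 r0 : ℚ) (c a N : ℕ) : constantCoeff (cp p0 r0 c a N) = p0 ∧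
    constantCoeff (cr p0 r0 c a N) = r0 := by
  unfold cp cr
  rw [constantCoeff_comp, constantCoeff_comp]
  exact v_init _ _ _

theorem c_ode (p0 r0 : ℚ) {c a N : ℕ} (hc : 1 ≤ c) (h : a + c < N) :
    2 * (C (1 / (N : ℚ)) + X) * pz a N * pz (a + c) N * derivative ℚ (cp p0 r0 c a N) =
      -pz (a + c) N * cp p0 r0 c a N + pz a N * cr p0 r0 c a N ∧
    2 * (C (1 / (N : ℚ)) + X) * pz a N * pz (a + c) N * derivative ℚ (cr p0 r0 c a N) =
      -pz (a + c) N * cp p0 r0 c a N + pz (a + c) N * cr p0 r0 c a N := by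
  have hN : (0 : ℚ) < N := by
    have : 0 < N := by omega
    positivity
  have hn : (0 : ℚ) < ((N : ℚ) - a) := by
    have : (a : ℚ) < N := by exact_mod_cast (by omega : a < N)
    linarith
  have hnc : (0 : ℚ) < ((N : ℚ) - a) - c := by
    have : (a : ℚ) + c < N := by exact_mod_cast h
    linarith
  have hc0 : (0 : ℚ) < c := by positivity
  obtain ⟨x, hx⟩ : ∃ d : ℚ, d = (c : ℚ) / ((N : ℚ) - a) := ⟨_, rfl⟩
  have hx1 : x * (1 - x) ≠ 0 := by
    rw [hx]
    have h1 : (c : ℚ) / ((N : ℚ) - a) ≠ 0 := by positivity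
    have h2 : 1 - (c : ℚ) / ((N : ℚ) - a) = (((N : ℚ) - a) - c) / ((N : ℚ) - a) := by
      field_simp
    rw [h2]
    exact mul_ne_zero h1 (by positivity)
  have hs := ss_subst c a N
  have e1 := ss_eq (c := c) (a := a) (N := N) (by omega)
  rw [← hx] at e1
  have e2 := ss_deriv (c := c) (a := a) (N := N) (by omega)
  have e3 : pz (a + c) N = pz a N - C (c : ℚ) * (C (1 / (N : ℚ)) + X) := by
    unfold pz
    push_cast
    rw [map_add]
    ring
  have e1' : pz a N * (C x + ss c a N) = C (c : ℚ) * (C (1 / (N : ℚ)) + X) := e1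
  have e4 : pz (a + c) N = pz a N * (1 - (C x + ss c a N)) := by
    rw [e3]
    linear_combination e1'
  obtain ⟨o1, o2⟩ := v_ode p0 r0 hx1
  have hC : substAlgHom hs (C x : PowerSeries ℚ) = C x := by
    rw [coe_substAlgHom]
    exact subst_C _
  have hX : substAlgHom hs (X : PowerSeries ℚ) = ss c a N := substAlgHom_X hs
  have h2 : substAlgHom hs (2 : PowerSeries ℚ) = 2 := map_ofNat _ 2
  have hnz : (C (c : ℚ) : PowerSeries ℚ) ≠ 0 := by
    intro h0
    have := congrArg constantCoeff h0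
    simp at this
    omega
  have sub1 := congrArg (substAlgHom hs) o1
  have sub2 := congrArg (substAlgHom hs) o2
  simp only [map_mul, map_add, map_sub, map_neg, map_one, hC, hX, h2] at sub1 sub2
  have hP : cp p0 r0 c a N = substAlgHom hs (vp p0 r0 x) := by
    rw [coe_substAlgHom, hx]
    rfl
  have hR : cr p0 r0 c a N = substAlgHom hs (vr p0 r0 x) := by
    rw [coe_substAlgHom, hx]
    rfl
  have hP' : derivative ℚ (cp p0 r0 c a N) =
      substAlgHom hs (derivative ℚ (vp p0 r0 x)) * derivative ℚ (ss c a N) := by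
    rw [hP, coe_substAlgHom]
    exact derivative_subst hs
  have hR' : derivative ℚ (cr p0 r0 c a N) =
      substAlgHom hs (derivative ℚ (vr p0 r0 x)) * derivative ℚ (ss c a N) := by
    rw [hR, coe_substAlgHom]
    exact derivative_subst hs
  rw [hP', hR', hP, hR]
  constructor
  · apply mul_left_cancel₀ hnz
    linear_combination
      (-2 * pz a N * pz (a + c) N * substAlgHom hs (derivative ℚ (vp p0 r0 x)) *
        derivative ℚ (ss c a N)) * e1' +
      (2 * pz a N ^ 2 * (C x + ss c a N) * substAlgHom hs (derivative ℚ (vp p0 r0 x)) *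
        derivative ℚ (ss c a N) + C (c : ℚ) * substAlgHom hs (vp p0 r0 x)) * e4 +
      (pz a N ^ 3 * derivative ℚ (ss c a N)) * sub1 +
      (pz a N * (-(1 - (C x + ss c a N)) * substAlgHom hs (vp p0 r0 x) +
        substAlgHom hs (vr p0 r0 x))) * e2
  · apply mul_left_cancel₀ hnz
    linear_combination
      (-2 * pz a N * pz (a + c) N * substAlgHom hs (derivative ℚ (vr p0 r0 x)) *
        derivative ℚ (ss c a N)) * e1' +
      (2 * pz a N ^ 2 * (C x + ss c a N) * substAlgHom hs (derivative ℚ (vr p0 r0 x)) *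
        derivative ℚ (ss c a N) + C (c : ℚ) * substAlgHom hs (vp p0 r0 x) -
        C (c : ℚ) * substAlgHom hs (vr p0 r0 x)) * e4 +
      (pz a N ^ 3 * derivative ℚ (ss c a N)) * sub2 +
      (pz a N * (-(1 - (C x + ss c a N)) * substAlgHom hs (vp p0 r0 x) +
        (1 - (C x + ss c a N)) * substAlgHom hs (vr p0 r0 x))) * e2

end Pool.Agent.LEG.TRL_
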