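import Mathlib
import Pool.Agent.LEG.LOCALV

set_option autoImplicit false

/-!
# Sizes and denominators of the transport of the Legendre system
-/

namespace Pool.Agent.LEG.TRL_

open PowerSeries

/-! ## powers of the substitution -/

theorem coeff_ss_zero (c a N : ℕ) : coeff 0 (ss c a N) = 0 := by
  simp [ss]

theorem coeff_ss_succ (c a N j : ℕ) : coeff (j + 1) (ss c a N) =
    (c : ℚ) * N ^ 2 / ((N : ℚ) - a) ^ 2 * ((a : ℚ) * N / ((N : ℚ) - a)) ^ j := by
  rw [ss, coeff_C_mul, coeff_succ_X_mul, coeff_mk]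

theorem coeff_ss_pow_zero (c a N : ℕ) : ∀ i j, j < i → coeff j (ss c a N ^ i) = 0 := by
  intro i j h
  have : X ∣ ss c a N := X_dvd_iff.mpr (constantCoeff_ss c a N)
  have h2 : X ^ i ∣ ss c a N ^ i := pow_dvd_pow_of_dvd this i
  exact X_pow_dvd_iff.mp h2 j h

theorem coeff_comp (f : PowerSeries ℚ) (c a N j : ℕ) :
    coeff j ((f.subst (ss c a N) : PowerSeries ℚ)) =
      ∑ i ∈ Finset.range (j + 1), coeff i f * coeff j (ss c a N ^ i) := by
  rw [coeff_subst' (ss_subst c a N)]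
  rw [finsum_eq_sum_of_support_subset (s := Finset.range (j + 1))]
  · rfl
  · intro i hi
    simp only [Finset.coe_range, Set.mem_Iio]
    by_contra h
    apply hi
    simp only [smul_eq_mul]
    rw [coeff_ss_pow_zero c a N i j (by omega), mul_zero]

theorem ss_bound {c a N : ℕ} (h : 2 * a ≤ N) (hN : 0 < N) (j : ℕ) :
    |coeff (j + 1) (ss c a N)| ≤ 4 * c * (N : ℚ) ^ j := by
  have hN' : (0 : ℚ) < N := by exact_mod_cast hN
  have ha : 2 * (a : ℚ) ≤ N := by exact_mod_cast h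
  have hn : (N : ℚ) / 2 ≤ (N : ℚ) - a := by linarith
  have hn0 : (0 : ℚ) < (N : ℚ) - a := by linarith
  rw [coeff_ss_succ, abs_of_nonneg (by positivity)]
  have h1 : (c : ℚ) * N ^ 2 / ((N : ℚ) - a) ^ 2 ≤ 4 * c := by
    rw [div_le_iff₀ (by positivity)]
    have : (N : ℚ) ^ 2 ≤ 4 * ((N : ℚ) - a) ^ 2 := by nlinarith
    have hc : (0 : ℚ) ≤ c := Nat.cast_nonneg c
    nlinarith
  have h2 : (a : ℚ) * N / ((N : ℚ) - a) ≤ N := by
    rw [div_le_iff₀ hn0]
    nlinarith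
  have h3 : (0 : ℚ) ≤ (a : ℚ) * N / ((N : ℚ) - a) := by positivity
  exact mul_le_mul h1 (pow_le_pow_left₀ h3 h2 j) (by positivity) (by positivity)

theorem ss_pow_bound {c a N : ℕ} (h : 2 * a ≤ N) (hN : 0 < N) : ∀ i j,
    |coeff j (ss c a N ^ i)| ≤ (4 * (c : ℚ)) ^ i * (2 * N) ^ j / N ^ i := by
  have hN' : (0 : ℚ) < N := by exact_mod_cast hN
  intro i
  induction i with
  | zero =>
    intro j
    rw [pow_zero, coeff_one]
    have hN1 : (1 : ℚ) ≤ N := by exact_mod_cast hN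
    have h1 : (1 : ℚ) ≤ (2 * (N : ℚ)) ^ j := one_le_pow₀ (by linarith)
    split_ifs
    · simpa using h1
    · simp only [abs_zero, pow_zero, one_mul, div_one]
      linarith
  | succ i ih =>
    intro j
    rw [pow_succ', coeff_mul, Finset.Nat.sum_antidiagonal_eq_sum_range_succ
      (fun u v => coeff u (ss c a N) * coeff v (ss c a N ^ i)), Finset.sum_range_succ']
    rw [coeff_ss_zero, zero_mul, add_zero]
    refine (Finset.abs_sum_le_sum_abs _ _).trans ?_
    have hterm : ∀ u ∈ Finset.range j,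
        |coeff (u + 1) (ss c a N) * coeff (j - (u + 1)) (ss c a N ^ i)| ≤
          (4 * (c : ℚ)) ^ (i + 1) * (N : ℚ) ^ j / N ^ (i + 1) * 2 ^ (j - 1 - u) := by
      intro u hu
      have hu' := Finset.mem_range.1 hu
      rw [abs_mul]
      have h1 := mul_le_mul (ss_bound (c := c) h hN u) (ih (j - (u + 1))) (abs_nonneg _)
        (by positivity)
      refine h1.trans (le_of_eq ?_)
      have e1 : j - (u + 1) = j - 1 - u := by omega
      have e2 : (N : ℚ) ^ j = N ^ u * N ^ (j - 1 - u) * N := by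
        rw [← pow_add, ← pow_succ]
        congr 1
        omega
      rw [e1, e2, mul_pow 2 (N : ℚ), pow_succ (4 * (c : ℚ)) i, pow_succ (N : ℚ) i]
      generalize (4 * (c : ℚ)) ^ i = t
      field_simp
    refine (Finset.sum_le_sum hterm).trans ?_
    rw [← Finset.mul_sum]
    have hsum : ∑ u ∈ Finset.range j, (2 : ℚ) ^ (j - 1 - u) ≤ 2 ^ j := by
      rw [Finset.sum_range_reflect (fun u => (2 : ℚ) ^ u) j]
      have := geom_sum_eq (by norm_num : (2 : ℚ) ≠ 1) j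
      rw [this]
      norm_num
    have hpos : (0 : ℚ) ≤ (4 * (c : ℚ)) ^ (i + 1) * (N : ℚ) ^ j / N ^ (i + 1) := by positivity
    refine (mul_le_mul_of_nonneg_left hsum hpos).trans (le_of_eq ?_)
    rw [mul_pow 2 (N : ℚ) j]
    ring

/-! ## coefficients at the point -/

theorem abs_eval_le {B : ℚ} {k : ℕ} {p : Polynomial ℚ} (hp : Bd B k p) {x : ℚ} (h0 : 0 ≤ x)
    (h1 : x ≤ 1) : |p.eval x| ≤ (k + 1) * B := by
  have hdeg : p.natDegree < k + 1 := by
    rw [Nat.lt_succ_iff, Polynomial.natDegree_le_iff_coeff_eq_zero]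
    exact fun m hm => (hp m).2 hm
  rw [Polynomial.eval_eq_sum_range' hdeg]
  refine (Finset.abs_sum_le_sum_abs _ _).trans ?_
  have : ∀ i ∈ Finset.range (k + 1), |p.coeff i * x ^ i| ≤ B := by
    intro i _
    rw [abs_mul, abs_of_nonneg (pow_nonneg h0 i)]
    calc |p.coeff i| * x ^ i ≤ B * 1 :=
          mul_le_mul (hp i).1 (pow_le_one₀ h0 h1) (pow_nonneg h0 i) hp.nonneg
      _ = B := mul_one B
  refine (Finset.sum_le_sum this).trans ?_
  rw [Finset.sum_const, Finset.card_range, nsmul_eq_mul]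
  push_cast
  exact le_rfl

theorem succ_le_two_pow (k : ℕ) : ((k : ℚ) + 1) ≤ 2 ^ k := by
  have := Nat.lt_two_pow_self (n := k)
  have h2 : k + 1 ≤ 2 ^ k := this
  exact_mod_cast h2

theorem point_bound {c a N : ℕ} (hc : 1 ≤ c) (h : 2 * (a + c) ≤ N) {p : Polynomial ℚ} {k : ℕ}
    (hp : Bd (5 ^ k) k p) :
    |p.eval ((c : ℚ) / ((N : ℚ) - a)) /
      ((c : ℚ) / ((N : ℚ) - a) * (1 - (c : ℚ) / ((N : ℚ) - a))) ^ k| ≤ (20 * N) ^ k := by
  have hN' : 2 * ((a : ℚ) + c) ≤ N := by exact_mod_cast h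
  have hc' : (1 : ℚ) ≤ c := by exact_mod_cast hc
  have ha' : (0 : ℚ) ≤ a := Nat.cast_nonneg a
  have hn0 : (0 : ℚ) < (N : ℚ) - a := by linarith
  have hx0 : 0 < (c : ℚ) / ((N : ℚ) - a) := by positivity
  have hx1 : (c : ℚ) / ((N : ℚ) - a) ≤ 1 := by
    rw [div_le_one hn0]
    linarith
  have hdd : 1 / (2 * (N : ℚ)) ≤
      (c : ℚ) / ((N : ℚ) - a) * (1 - (c : ℚ) / ((N : ℚ) - a)) := by
    have e : (c : ℚ) / ((N : ℚ) - a) * (1 - (c : ℚ) / ((N : ℚ) - a)) =
        c * ((N : ℚ) - a - c) / ((N : ℚ) - a) ^ 2 := by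
      field_simp
    rw [e, div_le_div_iff₀ (by linarith) (by positivity)]
    have h1 : ((N : ℚ) - a) ^ 2 ≤ N * N := by nlinarith
    have h2 : (N : ℚ) ≤ 2 * (c * ((N : ℚ) - a - c)) := by nlinarith
    nlinarith
  have hNp : (0 : ℚ) < N := by linarith
  have hddp : 0 < (c : ℚ) / ((N : ℚ) - a) * (1 - (c : ℚ) / ((N : ℚ) - a)) :=
    lt_of_lt_of_le (by positivity) hdd
  rw [abs_div, abs_of_pos (pow_pos hddp k), div_le_iff₀ (pow_pos hddp k)]
  have h1 := abs_eval_le hp hx0.le hx1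
  have h2 : ((k : ℚ) + 1) * 5 ^ k ≤ 10 ^ k := by
    calc ((k : ℚ) + 1) * 5 ^ k ≤ 2 ^ k * 5 ^ k :=
          mul_le_mul_of_nonneg_right (succ_le_two_pow k) (by positivity)
      _ = 10 ^ k := by
          rw [← mul_pow]
          norm_num
  refine (h1.trans h2).trans ?_
  rw [← mul_pow]
  apply pow_le_pow_left₀ (by norm_num)
  calc (10 : ℚ) = 20 * N * (1 / (2 * N)) := by
        field_simp
        norm_num
    _ ≤ _ := mul_le_mul_of_nonneg_left hdd (by positivity)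

theorem geom_le (y : ℚ) (hy : 0 ≤ y) (j : ℕ) :
    ∑ i ∈ Finset.range (j + 1), y ^ i ≤ (y + 1) ^ j := by
  rw [add_pow]
  apply Finset.sum_le_sum
  intro i hi
  have hi' : i ≤ j := by simpa [Nat.lt_succ_iff] using hi
  have : (1 : ℚ) ≤ (j.choose i : ℚ) := by
    exact_mod_cast Nat.choose_pos hi'
  rw [one_pow, mul_one]
  nlinarith [pow_nonneg hy i]

theorem comp_bound {c a N : ℕ} (hc : 1 ≤ c) (h : 2 * (a + c) ≤ N) {f : PowerSeries ℚ}
    (hf : ∀ k, |coeff k f| ≤ (20 * (N : ℚ)) ^ k) (j : ℕ) :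
    |coeff j ((f.subst (ss c a N) : PowerSeries ℚ))| ≤ (200 * c * (N : ℚ)) ^ j := by
  have hN : 0 < N := by omega
  have hN' : (0 : ℚ) < N := by exact_mod_cast hN
  have hc' : (1 : ℚ) ≤ c := by exact_mod_cast hc
  rw [coeff_comp]
  refine (Finset.abs_sum_le_sum_abs _ _).trans ?_
  have hterm : ∀ i ∈ Finset.range (j + 1), |coeff i f * coeff j (ss c a N ^ i)| ≤
      (2 * (N : ℚ)) ^ j * (80 * c) ^ i := by
    intro i _
    rw [abs_mul]
    refine (mul_le_mul (hf i) (ss_pow_bound (c := c) (by omega : 2 * a ≤ N) hN i j) (abs_nonneg _)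
      (by positivity)).trans (le_of_eq ?_)
    have : (20 * (N : ℚ)) ^ i * (4 * (c : ℚ)) ^ i / (N : ℚ) ^ i = (80 * c) ^ i := by
      rw [← mul_pow, ← div_pow]
      congr 1
      field_simp
      ring
    rw [← this]
    ring
  refine (Finset.sum_le_sum hterm).trans ?_
  rw [← Finset.mul_sum]
  refine (mul_le_mul_of_nonneg_left (geom_le (80 * (c : ℚ)) (by positivity) j)
    (by positivity)).trans ?_
  rw [← mul_pow]
  apply pow_le_pow_left₀ (by positivity)
  nlinarith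

end Pool.Agent.LEG.TRL_
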