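import Mathlib
import Pool.Agent.LEG.SIZEV

set_option autoImplicit false

/-!
# Denominators of the transport of the Legendre system
-/

namespace Pool.Agent.LEG.TRL_

open PowerSeries

theorem ss_den {c a N : ℕ} (h : a < N) (u : ℕ) : ∃ x : ℤ,
    ((N : ℚ) - a) ^ (u + 2) * coeff (u + 1) (ss c a N) = c * x := by
  have hn : ((N : ℚ) - a) ≠ 0 := by
    have : (a : ℚ) < N := by exact_mod_cast h
    linarith
  refine ⟨(N : ℤ) ^ 2 * ((a : ℤ) * N) ^ u, ?_⟩
  rw [coeff_ss_succ]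
  push_cast
  rw [div_pow, pow_add]
  field_simp

theorem ss_pow_den {c a N : ℕ} (h : a < N) : ∀ i j, ∃ x : ℤ,
    ((N : ℚ) - a) ^ (j + i) * coeff j (ss c a N ^ i) = (c : ℚ) ^ i * x := by
  intro i
  induction i with
  | zero =>
    intro j
    refine ⟨((N : ℤ) - a) ^ j * (if j = 0 then 1 else 0), ?_⟩
    rw [pow_zero, coeff_one]
    push_cast
    simp
  | succ i ih =>
    intro j
    rw [pow_succ', coeff_mul, Finset.Nat.sum_antidiagonal_eq_sum_range_succ
      (fun u v => coeff u (ss c a N) * coeff v (ss c a N ^ i)), Finset.sum_range_succ']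
    rw [coeff_ss_zero, zero_mul, add_zero]
    have hterm : ∀ u : ℕ, ∃ x : ℤ, u ∈ Finset.range j → ((N : ℚ) - a) ^ (j + (i + 1)) *
        (coeff (u + 1) (ss c a N) * coeff (j - (u + 1)) (ss c a N ^ i)) =
          (c : ℚ) ^ (i + 1) * x := by
      intro u
      by_cases hu : u ∈ Finset.range j
      · have hu' := Finset.mem_range.1 hu
        obtain ⟨x, hx⟩ := ss_den (c := c) h u
        obtain ⟨y, hy⟩ := ih (j - (u + 1))
        refine ⟨x * y, fun _ => ?_⟩
        have e : ((N : ℚ) - a) ^ (j + (i + 1)) =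
            ((N : ℚ) - a) ^ (u + 2) * ((N : ℚ) - a) ^ (j - (u + 1) + i) := by
          rw [← pow_add]
          congr 1
          omega
        rw [e]
        push_cast
        linear_combination ((N : ℚ) - a) ^ (j - (u + 1) + i) * coeff (j - (u + 1)) (ss c a N ^ i) *
          hx + c * x * hy
      · exact ⟨0, fun h => absurd h hu⟩
    choose x hx using hterm
    refine ⟨∑ u ∈ Finset.range j, x u, ?_⟩
    rw [Finset.mul_sum]
    push_cast
    rw [Finset.mul_sum]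
    exact Finset.sum_congr rfl fun u hu => hx u hu

theorem dn_dvd {i k : ℕ} (h : i ≤ k) : dn i ∣ dn k := by
  unfold dn
  apply Nat.mul_dvd_mul
  · exact Nat.mul_dvd_mul (dvd_refl 2) (pow_dvd_pow 16 h)
  · unfold Nat.lcmUpto
    apply Finset.lcm_dvd
    intro b hb
    have hb' := Finset.mem_Icc.1 hb
    exact Finset.dvd_lcm (Finset.mem_Icc.2 ⟨hb'.1, by omega⟩)

theorem eval_den {c : ℕ} {n : ℚ} {m : ℤ} (hm : n = m) (hn : n ≠ 0) {k : ℕ} {p : Polynomial ℚ}
    {B : ℚ} (hp : Bd B k p) (hi : ∀ s, ∃ x : ℤ, (dn k : ℚ) * p.coeff s = x) :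
    ∃ x : ℤ, (dn k : ℚ) * n ^ k * p.eval ((c : ℚ) / n) = x := by
  have hdeg : p.natDegree < k + 1 := by
    rw [Nat.lt_succ_iff, Polynomial.natDegree_le_iff_coeff_eq_zero]
    exact fun m hm => (hp m).2 hm
  rw [Polynomial.eval_eq_sum_range' hdeg]
  choose x hx using hi
  refine ⟨∑ s ∈ Finset.range (k + 1), x s * (c : ℤ) ^ s * m ^ (k - s), ?_⟩
  rw [Finset.mul_sum]
  push_cast
  apply Finset.sum_congr rfl
  intro s hs
  have hs' : s ≤ k := by simpa [Nat.lt_succ_iff] using hs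
  rw [← hx s, ← hm]
  have e : n ^ k = n ^ (k - s) * n ^ s := by
    rw [← pow_add]
    congr 1
    omega
  rw [e, div_pow]
  field_simp

theorem comp_den {c a N : ℕ} (hc : 1 ≤ c) (h : a + c < N) {q : ℕ → Polynomial ℚ}
    (hq : ∀ k, Bd (5 ^ k) k (q k)) (hi : ∀ k s, ∃ x : ℤ, (dn k : ℚ) * (q k).coeff s = x)
    {f : PowerSeries ℚ} (hf : ∀ k, coeff k f = (q k).eval ((c : ℚ) / ((N : ℚ) - a)) /
      ((c : ℚ) / ((N : ℚ) - a) * (1 - (c : ℚ) / ((N : ℚ) - a))) ^ k) {j k : ℕ} (hj : j ≤ k) :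
    ∃ x : ℤ, (dn k : ℚ) * (((N : ℚ) - a) * ((N : ℚ) - a - c)) ^ j *
      coeff j ((f.subst (ss c a N) : PowerSeries ℚ)) = x := by
  have hN' : (a : ℚ) + c < N := by exact_mod_cast h
  have hc' : (1 : ℚ) ≤ c := by exact_mod_cast hc
  have hn : ((N : ℚ) - a) ≠ 0 := by linarith
  have hnc : ((N : ℚ) - a - c) ≠ 0 := by linarith
  have hc0 : (c : ℚ) ≠ 0 := by linarith
  have hdd : (c : ℚ) / ((N : ℚ) - a) * (1 - (c : ℚ) / ((N : ℚ) - a)) =
      c * ((N : ℚ) - a - c) / ((N : ℚ) - a) ^ 2 := by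
    field_simp
  have hterm : ∀ i : ℕ, ∃ x : ℤ, i ∈ Finset.range (j + 1) →
      (dn k : ℚ) * (((N : ℚ) - a) * ((N : ℚ) - a - c)) ^ j *
        (coeff i f * coeff j (ss c a N ^ i)) = x := by
    intro i
    by_cases hi' : i ∈ Finset.range (j + 1)
    · have hij : i ≤ j := by simpa [Nat.lt_succ_iff] using hi'
      obtain ⟨d, hd⟩ := dn_dvd (hij.trans hj)
      obtain ⟨x, hx⟩ := eval_den (c := c) (n := (N : ℚ) - a) (m := (N : ℤ) - a)
        (by push_cast; ring) hn (hq i) (hi i)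
      obtain ⟨y, hy⟩ := ss_pow_den (c := c) (by omega : a < N) i j
      refine ⟨d * x * ((N : ℤ) - a - c) ^ (j - i) * y, fun _ => ?_⟩
      rw [hf i, hdd, hd]
      have e1 : ((N : ℚ) - a - c) ^ j = ((N : ℚ) - a - c) ^ (j - i) * ((N : ℚ) - a - c) ^ i := by
        rw [← pow_add]
        congr 1
        omega
      have e2 : ((N : ℚ) - a) ^ (j + i) = ((N : ℚ) - a) ^ j * ((N : ℚ) - a) ^ i := pow_add _ _ _
      rw [e2] at hy
      have hy' : ((N : ℚ) - a) ^ j * coeff j (ss c a N ^ i) * ((N : ℚ) - a) ^ i / (c : ℚ) ^ i =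
          y := by
        rw [div_eq_iff (pow_ne_zero _ hc0)]
        linear_combination hy
      push_cast
      rw [← hx, ← hy', mul_pow, e1, div_pow, mul_pow]
      generalize Polynomial.eval ((c : ℚ) / ((N : ℚ) - a)) (q i) = E
      generalize (coeff j) (ss c a N ^ i) = S
      have h1 : ((N : ℚ) - a - c) ^ i ≠ 0 := pow_ne_zero _ hnc
      have h2 : ((N : ℚ) - a) ^ i ≠ 0 := pow_ne_zero _ hn
      have h3 : (c : ℚ) ^ i ≠ 0 := pow_ne_zero _ hc0
      have h4 : (((N : ℚ) - a) ^ 2) ^ i = ((N : ℚ) - a) ^ i * ((N : ℚ) - a) ^ i := by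
        rw [← pow_mul, ← pow_add]
        congr 1
        ring
      rw [h4]
      field_simp
    · exact ⟨0, fun h => absurd h hi'⟩
  choose x hx using hterm
  refine ⟨∑ i ∈ Finset.range (j + 1), x i, ?_⟩
  rw [coeff_comp, Finset.mul_sum]
  push_cast
  exact Finset.sum_congr rfl hx

end Pool.Agent.LEG.TRL_
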