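import Pool.Agent.LEG.Targets2
import Pool.Agent.LEG.ELIM

set_option autoImplicit false

/-!
# ELIMX: elimination by a dimension count, explicit in the degree
-/

namespace Pool.Agent.LEG

open Finset
open scoped BigOperators

namespace ELIMX_

open ELIM_ in
theorem core (K r S D : ℕ) (hKS : K < S) (θ : Fin K → ℂ) (y : Fin r → ℂ)
    (s : Fin S → Fin K ⊕ Fin r) (hrel : ∀ i, Rl D θ (y i)) :
    ∃ W : MvPolynomial (Fin S) ℤ, W ≠ 0 ∧
      (∀ v, W.degreeOf v ≤ (S + r * S * D + 1) ^ K * (D + 1) ^ r) ∧
      MvPolynomial.aeval (fun v => Sum.elim θ y (s v)) W = 0 := by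
  set B := (S + r * S * D + 1) ^ K * (D + 1) ^ r with hB
  set q := S * B with hq
  choose A d hd hdD hA0 hA hr using fun i => rel_data (hrel i)
  set b : Fin r → ℂ := fun i => A i (d i) ^ q with hb
  have hbi : ∀ i, ∀ e ≤ q, b i * y i ^ e ∈
      Mo θ (fun _ => q * D) * Mo y (fun l => if l = i then D else 0) :=
    fun i e he => pow_red' (hd i) (hdD i) (hA i) (hr i) he
  set bb : ℂ := ∏ i, b i with hbb
  have hbb0 : bb ≠ 0 := by
    rw [hbb]
    exact Finset.prod_ne_zero_iff.2 fun i _ => pow_ne_zero q (hA0 i)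
  set E := q + r * (q * D) with hE
  set F : Bx K E × Bx r D → ℂ :=
    fun p => (∏ i, θ i ^ (p.1 i : ℕ)) * ∏ i, y i ^ (p.2 i : ℕ) with hF
  set W : Submodule ℚ ℂ := Submodule.span ℚ (Set.range F) with hW
  have key : ∀ z ∈ Mo y (fun _ => q), bb * z ∈
      Mo θ (fun _ => r * (q * D)) * Mo y (fun _ => D) := by
    intro z hz
    unfold Mo at hz
    induction hz using Submodule.span_induction with
    | mem z hz =>
      obtain ⟨α, hα, rfl⟩ := hz
      rw [hbb, ← Finset.prod_mul_distrib]
      have h1 := prod_red hbi α hα Finset.univ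
      refine mm (Mo_mono fun _ => ?_) (Mo_mono fun l => ?_) h1
      · rw [Finset.card_univ, Fintype.card_fin]
      · rw [if_pos (Finset.mem_univ l)]
    | zero => rw [mul_zero]; exact Submodule.zero_mem _
    | add z z' _ _ h1 h2 => rw [mul_add]; exact Submodule.add_mem _ h1 h2
    | smul r z _ h1 =>
      rw [mul_smul_comm]
      exact Submodule.smul_mem _ r h1
  have key2 : ∀ z ∈ Mo θ (fun _ => q) * Mo y (fun _ => q), bb * z ∈ W := by
    intro z hz
    induction hz using Submodule.mul_induction_on' with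
    | mem_mul_mem m hm n hn =>
      have h1 : bb * (m * n) = m * (bb * n) := by ring
      rw [h1]
      have h2 := Submodule.mul_mem_mul hm (key n hn)
      rw [← mul_assoc] at h2
      exact fin_span θ y (mm (Mo_mul _ _) le_rfl h2)
    | add m _ n _ h1 h2 => rw [mul_add]; exact Submodule.add_mem _ h1 h2
  have hmem : ∀ J : Bx S B, bb * ∏ v, (Sum.elim θ y (s v)) ^ (J v : ℕ) ∈ W := by
    intro J
    have h1 := val_mem (B := B) θ y (Finset.univ : Finset (Fin S)) s (fun v => (J v : ℕ))
      (fun v => Nat.lt_succ_iff.1 (J v).isLt)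
    rw [Finset.card_univ, Fintype.card_fin] at h1
    exact key2 _ h1
  set w : Bx S B → W := fun J => ⟨_, hmem J⟩ with hw
  have : FiniteDimensional ℚ W := FiniteDimensional.span_of_finite ℚ (Set.finite_range F)
  have hdim : Module.finrank ℚ W < Fintype.card (Bx S B) := by
    have h1 : Module.finrank ℚ W ≤ Fintype.card (Bx K E × Bx r D) :=
      finrank_range_le_card F
    have h2 : Fintype.card (Bx K E × Bx r D) = (E + 1) ^ K * (D + 1) ^ r := by
      simp [Fintype.card_prod]
    have h3 : Fintype.card (Bx S B) = (B + 1) ^ S := by simp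
    rw [h3]
    rw [h2] at h1
    exact lt_of_le_of_lt h1 (dim_count K r S D B hKS hB)
  have hli : ¬ LinearIndependent ℚ w := by
    intro h
    have := h.fintype_card_le_finrank
    omega
  obtain ⟨g, hg, j0, hj0⟩ := Fintype.not_linearIndependent_iff.1 hli
  obtain ⟨m, hm⟩ := IsLocalization.exist_integer_multiples_of_finite (nonZeroDivisors ℤ) g
  choose c hc using hm
  have hc' : ∀ J, ((c J : ℤ) : ℚ) = ((m : ℤ) : ℚ) * g J := by
    intro J
    have := hc J
    rw [eq_intCast] at this
    rw [this, zsmul_eq_mul]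
  have hm0 : ((m : ℤ) : ℚ) ≠ 0 := by
    exact_mod_cast nonZeroDivisors.coe_ne_zero m
  have hcj : c j0 ≠ 0 := by
    intro h0
    have := hc' j0
    rw [h0, Int.cast_zero] at this
    rcases mul_eq_zero.1 this.symm with h | h
    · exact hm0 h
    · exact hj0 h
  refine ⟨∑ J, MvPolynomial.monomial (fs J) (c J), ?_, ?_, ?_⟩
  · intro h0
    have h1 := congrArg (MvPolynomial.coeff (fs j0)) h0
    rw [MvPolynomial.coeff_sum, MvPolynomial.coeff_zero,
      Finset.sum_eq_single j0] at h1
    · rw [MvPolynomial.coeff_monomial, if_pos rfl] at h1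
      exact hcj h1
    · intro J _ hJ
      rw [MvPolynomial.coeff_monomial, if_neg (fun h => hJ (fs_inj h))]
    · intro h; exact absurd (Finset.mem_univ j0) h
  · intro v
    refine (MvPolynomial.degreeOf_sum_le v _ _).trans (Finset.sup_le fun J _ => ?_)
    rw [MvPolynomial.degreeOf_le_iff]
    intro μ hμ
    have h4 := MvPolynomial.support_monomial_subset hμ
    rw [Finset.mem_singleton] at h4
    rw [h4, fs_apply]
    exact Nat.lt_succ_iff.1 (J v).isLt
  · have h1 := congrArg (fun w : W => (w : ℂ)) hg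
    simp only [Submodule.coe_sum, Submodule.coe_smul, ZeroMemClass.coe_zero, hw] at h1
    have h2 : bb * MvPolynomial.aeval (fun v => Sum.elim θ y (s v))
        (∑ J, MvPolynomial.monomial (fs J) (c J)) = 0 := by
      have h3 : ∀ J, (c J : ℂ) = ((m : ℤ) : ℂ) * (g J : ℂ) := by
        intro J
        have := congrArg (fun r : ℚ => (r : ℂ)) (hc' J)
        push_cast at this
        exact this
      rw [map_sum, Finset.mul_sum]
      calc ∑ J, bb * MvPolynomial.aeval (fun v => Sum.elim θ y (s v))
            (MvPolynomial.monomial (fs J) (c J))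
          = ((m : ℤ) : ℂ) * ∑ J, g J • (bb * ∏ v, (Sum.elim θ y (s v)) ^ (J v : ℕ)) := by
            rw [Finset.mul_sum]
            refine Finset.sum_congr rfl fun J _ => ?_
            rw [MvPolynomial.aeval_monomial, Finsupp.prod_fintype _ _ (fun i => pow_zero _),
              eq_intCast, h3, Rat.smul_def]
            simp only [fs_apply]
            ring
        _ = 0 := by rw [h1, mul_zero]
    exact (mul_eq_zero.1 h2).resolve_left hbb0

end ELIMX_

open ELIMX_ in
theorem p_ELIMX : T_ELIMX := by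
  intro K r S hKS
  refine ⟨(S + r * S + 1) ^ K + K + r, fun D θ y s hrel => ?_⟩
  obtain ⟨W, hW, hdeg, h0⟩ := core K r S D hKS θ y s hrel
  refine ⟨W, hW, fun v => (hdeg v).trans ?_, h0⟩
  set b := (S + r * S + 1) ^ K + K + r with hb
  have h1 : S + r * S * D + 1 ≤ (S + r * S + 1) * (D + 1) := by nlinarith
  calc (S + r * S * D + 1) ^ K * (D + 1) ^ r
      ≤ ((S + r * S + 1) * (D + 1)) ^ K * (D + 1) ^ r :=
        Nat.mul_le_mul (Nat.pow_le_pow_left h1 K) le_rfl
    _ = (S + r * S + 1) ^ K * (D + 1) ^ (K + r) := by rw [mul_pow, pow_add, mul_assoc]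
    _ ≤ b * (D + 1) ^ b := by
        refine Nat.mul_le_mul ?_ (Nat.pow_le_pow_right (Nat.succ_pos D) ?_)
        · omega
        · omega

end Pool.Agent.LEG
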