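import Pool.Agent.LEG.All2

set_option autoImplicit false

/-!
# Periods of Legendre elliptic curves: relations of bounded degree

For fixed numerators `c i` and all but `K T ^ (n - κ)` of the tuples `N i ≤ T`, every polynomial
relation of degree at most `D` with coefficients in `ℤ[θ]` between the periods of the elliptic
curves `y ^ 2 = x (x - 1) (x - c i / N i)` follows from the Legendre relations.
-/

namespace Pool.Agent.LEG.Final

/-- the complete elliptic integral of the first kind, parameter `m` -/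
noncomputable def ellK (m : ℝ) : ℝ :=
  ∫ t in (0 : ℝ)..(Real.pi / 2), 1 / Real.sqrt (1 - m * Real.sin t ^ 2)

/-- the complete elliptic integral of the second kind, parameter `m` -/
noncomputable def ellE (m : ℝ) : ℝ :=
  ∫ t in (0 : ℝ)..(Real.pi / 2), Real.sqrt (1 - m * Real.sin t ^ 2)

/-- the four periods `K(m), E(m), K(1-m), E(1-m)` of the curve `y ^ 2 = x (x - 1) (x - m)` -/
noncomputable def periods (m : ℝ) : Fin 4 → ℂ :=
  ![(ellK m : ℂ), (ellE m : ℂ), (ellK (1 - m) : ℂ), (ellE (1 - m) : ℂ)]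

/-- the Legendre relation `E K' + E' K - K K' = π / 2` for `x = (K, E, K', E')` -/
def LegendreRelation (x : Fin 4 → ℂ) : Prop := x 1 * x 2 + x 3 * x 0 - x 0 * x 2 = (Real.pi : ℂ) / 2

/-- the periods of the `n` curves with parameters `m i` satisfy a polynomial relation of total
degree at most `D` with coefficients in `ℤ[θ]` that does not hold at all points satisfying the
Legendre relations -/
def HasExtraRelation {k n : ℕ} (D : ℕ) (θ : Fin k → ℂ) (m : Fin n → ℝ) : Prop :=
  ∃ P : MvPolynomial (Fin k ⊕ (Fin n × Fin 4)) ℤ, P.totalDegree ≤ D ∧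
    MvPolynomial.aeval (Sum.elim θ (fun v => periods (m v.1) v.2)) P = 0 ∧
    ∃ x : Fin n → Fin 4 → ℂ, (∀ i, LegendreRelation (x i)) ∧
      MvPolynomial.aeval (Sum.elim θ (fun v => x v.1 v.2)) P ≠ 0

theorem result :
    (∀ m : ℝ, 0 < m → m < 1 → LegendreRelation (periods m)) ∧
    ∀ (n k : ℕ) (c : Fin n → ℕ), (∀ i, 1 ≤ c i) → ∃ K : ℕ, 1 ≤ K ∧
      ∀ (D T : ℕ) (θ : Fin k → ℂ), 1 ≤ D → 1 ≤ T →
        (({N : Fin n → ℕ | (∀ i, c i < N i ∧ N i ≤ T) ∧
          HasExtraRelation D θ (fun i => (c i : ℝ) / N i)}).ncard : ℝ) ≤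
          K * (T : ℝ) ^ ((n : ℝ) - 1 / (K * (D : ℝ) ^ K)) := by
  constructor
  · intro m hm hm'
    have h := Pool.Agent.LEG.h_LEGR m hm hm'
    have h2 : ((ellE m * ellK (1 - m) + ellE (1 - m) * ellK m - ellK m * ellK (1 - m) : ℝ) : ℂ) =
        ((Real.pi / 2 : ℝ) : ℂ) := congrArg _ h
    push_cast at h2
    simpa [LegendreRelation, periods] using h2
  · intro n k c hc
    exact Pool.Agent.LEG.multix n k c hc

end Pool.Agent.LEG.Final
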