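import Pool.Agent.LEG.Targets

set_option autoImplicit false

/-!
# A generic point on a product of Legendre surfaces

The surface `Leg` is the image of `ℂ⁴` under a polynomial map, and countably many polynomials which
do not vanish identically have a common point where none of them vanishes.
-/

namespace Pool.Agent.LEG

namespace GEN_

open MvPolynomial

/-- countably many polynomials, none of which vanishes identically on `L`, have a common point of
`L` where none of them vanishes -/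
def Gn {σ : Type} (L : Set (σ → ℂ)) : Prop :=
  ∀ S : Set (MvPolynomial σ ℂ), S.Countable → (∀ P ∈ S, ∃ x ∈ L, eval x P ≠ 0) →
    ∃ y ∈ L, ∀ P ∈ S, eval y P ≠ 0

lemma ev_sub {σ τ : Type} (f : σ → MvPolynomial τ ℂ) (z : τ → ℂ) (P : MvPolynomial σ ℂ) :
    eval z (aeval f P) = eval (fun v => eval z (f v)) P := by
  induction P using MvPolynomial.induction_on with
  | C a => simp
  | add p q hp hq => rw [map_add, map_add, map_add, hp, hq]
  | mul_X p i hp => rw [map_mul, map_mul, map_mul, hp, aeval_X, eval_X]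

lemma ev_poly (t : ℂ) (P : MvPolynomial Unit ℂ) :
    (aeval (fun _ => (Polynomial.X : Polynomial ℂ)) P).eval t = eval (fun _ => t) P := by
  induction P using MvPolynomial.induction_on with
  | C a => simp
  | add p q hp hq => simp [hp, hq]
  | mul_X p i hp => simp [hp]

lemma gn_unit : Gn (Set.univ : Set (Unit → ℂ)) := by
  intro S hS h
  have h1 : (⋃ P ∈ S, {t : ℂ | eval (fun _ : Unit => t) P = 0}).Countable := by
    refine hS.biUnion (fun P hP => ?_)
    obtain ⟨x, _, hx⟩ := h P hP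
    have hq0 : (aeval (fun _ => (Polynomial.X : Polynomial ℂ)) P) ≠ 0 := by
      intro h0
      apply hx
      have e : x = fun _ => x () := by
        funext u
        rfl
      rw [e, ← ev_poly, h0, Polynomial.eval_zero]
    refine (Polynomial.finite_setOfPred_isRoot hq0).countable.mono ?_
    intro t ht
    show Polynomial.eval t _ = 0
    rw [ev_poly]
    exact ht
  have h2 : ∃ t : ℂ, t ∉ ⋃ P ∈ S, {t : ℂ | eval (fun _ : Unit => t) P = 0} := by
    by_contra hcon
    push Not at hcon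
    apply not_countable_complex
    exact h1.mono (fun t _ => hcon t)
  obtain ⟨t, ht⟩ := h2
  refine ⟨fun _ => t, Set.mem_univ _, fun P hP h0 => ht ?_⟩
  exact Set.mem_biUnion hP h0

lemma gn_image {σ τ : Type} {L : Set (τ → ℂ)} (hL : Gn L) (f : σ → MvPolynomial τ ℂ)
    {L' : Set (σ → ℂ)} (h1 : ∀ x ∈ L, (fun v => eval x (f v)) ∈ L')
    (h2 : ∀ y ∈ L', ∃ x ∈ L, (fun v => eval x (f v)) = y) : Gn L' := by
  intro S hS h
  have h3 : ∀ Q ∈ (fun P => aeval f P) '' S, ∃ x ∈ L, eval x Q ≠ 0 := by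
    rintro Q ⟨P, hP, rfl⟩
    obtain ⟨y, hy, hne⟩ := h P hP
    obtain ⟨x, hx, rfl⟩ := h2 y hy
    exact ⟨x, hx, by simpa only [ev_sub] using hne⟩
  obtain ⟨x, hx, hall⟩ := hL _ (hS.image _) h3
  refine ⟨_, h1 x hx, fun P hP => ?_⟩
  have h4 := hall _ ⟨P, hP, rfl⟩
  simpa only [ev_sub] using h4

/-- insert a point for the index `0` and variables for the other ones -/
noncomputable def ins {n : ℕ} {σ : Type} (y : σ → ℂ) (v : Fin (n + 1) × σ) :
    MvPolynomial (Fin n × σ) ℂ :=
  Fin.cases (motive := fun _ => MvPolynomial (Fin n × σ) ℂ) (C (y v.2)) (fun i => X (i, v.2)) v.1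

/-- insert variables for the index `0` and a point for the other ones -/
noncomputable def ins' {n : ℕ} {σ : Type} (y : Fin n × σ → ℂ) (v : Fin (n + 1) × σ) :
    MvPolynomial σ ℂ :=
  Fin.cases (motive := fun _ => MvPolynomial σ ℂ) (X v.2) (fun i => C (y (i, v.2))) v.1

/-- the point of the product -/
def join {n : ℕ} {σ : Type} (y : σ → ℂ) (z : Fin n × σ → ℂ) (v : Fin (n + 1) × σ) : ℂ :=
  Fin.cases (motive := fun _ => ℂ) (y v.2) (fun i => z (i, v.2)) v.1

lemma ev_ins {n : ℕ} {σ : Type} (y : σ → ℂ) (z : Fin n × σ → ℂ)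
    (P : MvPolynomial (Fin (n + 1) × σ) ℂ) :
    eval z (aeval (ins y) P) = eval (join y z) P := by
  rw [ev_sub]
  have e : (fun v => eval z (ins y v)) = join y z := by
    funext v
    obtain ⟨i, j⟩ := v
    refine Fin.cases ?_ (fun i => ?_) i
    · simp [ins, join]
    · simp [ins, join]
  rw [e]

lemma ev_ins' {n : ℕ} {σ : Type} (y : σ → ℂ) (z : Fin n × σ → ℂ)
    (P : MvPolynomial (Fin (n + 1) × σ) ℂ) :
    eval y (aeval (ins' z) P) = eval (join y z) P := by
  rw [ev_sub]
  have e : (fun v => eval y (ins' z v)) = join y z := by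
    funext v
    obtain ⟨i, j⟩ := v
    refine Fin.cases ?_ (fun i => ?_) i
    · simp [ins', join]
    · simp [ins', join]
  rw [e]

lemma join_self {n : ℕ} {σ : Type} (x : Fin (n + 1) × σ → ℂ) :
    join (fun j => x (0, j)) (fun v => x (v.1.succ, v.2)) = x := by
  funext v
  obtain ⟨i, j⟩ := v
  refine Fin.cases ?_ (fun i => ?_) i
  · simp [join]
  · simp [join]

lemma gn_pi {σ : Type} {L : Set (σ → ℂ)} (hL : Gn L) : ∀ n : ℕ,
    Gn {x : Fin n × σ → ℂ | ∀ i, (fun j => x (i, j)) ∈ L}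
  | 0 => by
    intro S hS h
    refine ⟨fun v => v.1.elim0, fun i => i.elim0, fun P hP => ?_⟩
    obtain ⟨x, _, hne⟩ := h P hP
    have e : x = fun v => v.1.elim0 := by
      funext v
      exact v.1.elim0
    rw [← e]
    exact hne
  | n + 1 => by
    intro S hS h
    have hn := gn_pi hL n
    choose! x hx hne using h
    have h1 : ∀ Q ∈ (fun P => aeval (ins' (fun v : Fin n × σ => x P (v.1.succ, v.2))) P) '' S,
        ∃ y ∈ L, eval y Q ≠ 0 := by
      rintro Q ⟨P, hP, rfl⟩
      refine ⟨fun j => x P (0, j), hx P hP 0, ?_⟩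
      simp only [ev_ins']
      rw [join_self]
      exact hne P hP
    obtain ⟨y, hy, hall⟩ := hL _ (hS.image _) h1
    have h2 : ∀ Q ∈ (fun P => aeval (ins y) P) '' S,
        ∃ z ∈ {x : Fin n × σ → ℂ | ∀ i, (fun j => x (i, j)) ∈ L}, eval z Q ≠ 0 := by
      rintro Q ⟨P, hP, rfl⟩
      refine ⟨fun v => x P (v.1.succ, v.2), fun i => hx P hP i.succ, ?_⟩
      simp only [ev_ins]
      have h3 := hall _ ⟨P, hP, rfl⟩
      simpa only [ev_ins'] using h3
    obtain ⟨z, hz, hall2⟩ := hn _ (hS.image _) h2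
    refine ⟨join y z, ?_, ?_⟩
    · intro i
      refine Fin.cases ?_ (fun i => ?_) i
      · exact hy
      · exact hz i
    · intro P hP
      have h3 := hall2 _ ⟨P, hP, rfl⟩
      simpa only [ev_ins] using h3

/-- variable -/
noncomputable def V (i : Fin 4) : MvPolynomial (Fin 4 × Unit) ℂ := X (i, ())

/-- the parametrisation of `Leg` -/
noncomputable def par (κ : ℂ) : Fin 4 → MvPolynomial (Fin 4 × Unit) ℂ :=
  ![-((1 + V 1 * V 2) * V 3 + V 1), C κ * (1 + V 1 * V 2),
    V 2 * V 3 + 1 + V 0 * ((1 + V 1 * V 2) * V 3 + V 1),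
    V 2 * V 3 + 1 + V 0 * ((1 + V 1 * V 2) * V 3 + V 1) + C κ * (V 2 + V 0 * (1 + V 1 * V 2))]

/-- the point with the parameters `a b c d` -/
def pnt (κ a b c d : ℂ) : Fin 4 → ℂ :=
  ![-((1 + b * c) * d + b), κ * (1 + b * c), c * d + 1 + a * ((1 + b * c) * d + b),
    c * d + 1 + a * ((1 + b * c) * d + b) + κ * (c + a * (1 + b * c))]

lemma ev_par (κ : ℂ) (x : Fin 4 × Unit → ℂ) :
    (fun v => eval x (par κ v)) = pnt κ (x (0, ())) (x (1, ())) (x (2, ())) (x (3, ())) := by
  funext v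
  fin_cases v <;> simp [par, pnt, V]

lemma leg_pnt (a b c d : ℂ) : Leg (pnt ((Real.pi : ℂ) / 2) a b c d) := by
  unfold Leg pnt
  simp
  ring

lemma surj (x : Fin 4 → ℂ) (hx : Leg x) : ∃ a b c d : ℂ, pnt ((Real.pi : ℂ) / 2) a b c d = x := by
  unfold Leg at hx
  have hκ : (Real.pi : ℂ) / 2 ≠ 0 := by
    have : (Real.pi : ℂ) ≠ 0 := by exact_mod_cast Real.pi_ne_zero
    exact div_ne_zero this two_ne_zero
  generalize (Real.pi : ℂ) / 2 = κ at hx hκ ⊢
  by_cases h0 : x 0 = 0
  · -- then x 1 and x 2 are not zero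
    have h12 : x 1 * x 2 = κ := by
      rw [h0] at hx
      linear_combination hx
    have h1 : x 1 ≠ 0 := by
      intro h
      apply hκ
      rw [← h12, h, zero_mul]
    -- p = x1 / κ, q = 0, r = (x3 - x2)/κ, s = x2
    refine ⟨(x 2 - (x 3 - x 2) / κ - 1) / (-(x 1 / κ)), -(x 1 / κ),
      (x 1 / κ - 1) / (-(x 1 / κ)), 1, ?_⟩
    funext v
    have h2 : x 2 = κ / x 1 := by
      rw [← h12]
      field_simp
    fin_cases v
    · simp [pnt, h0]
      field_simp
      ring
    · simp [pnt]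
      field_simp
      ring
    · simp [pnt]
      rw [h2]
      field_simp
      ring
    · simp [pnt]
      rw [h2]
      field_simp
      ring
  · refine ⟨(x 2 - 1) / (-x 0), -x 0, (x 1 / κ - 1) / (-x 0), 0, ?_⟩
    have h3 : x 3 = (κ - x 1 * x 2 + x 0 * x 2) / x 0 := by
      rw [← hx]
      field_simp
      ring
    funext v
    fin_cases v
    · simp [pnt]
    · simp [pnt]
      field_simp
      ring
    · simp [pnt]
      field_simp
      ring
    · simp [pnt]
      rw [h3]
      field_simp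
      ring

lemma gn_leg : Gn {x : Fin 4 → ℂ | Leg x} := by
  refine gn_image (gn_pi gn_unit 4) (par ((Real.pi : ℂ) / 2)) ?_ ?_
  · intro x _
    rw [ev_par]
    exact leg_pnt _ _ _ _
  · intro y hy
    obtain ⟨a, b, c, d, h⟩ := surj y hy
    refine ⟨fun v => ![a, b, c, d] v.1, fun i => Set.mem_univ _, ?_⟩
    rw [ev_par]
    simpa using h

end GEN_

open GEN_ in
theorem p_GEN : T_GEN := by
  intro n S hS h
  have h1 : ∀ P ∈ S, ∃ x ∈ {x : Fin n × Fin 4 → ℂ | ∀ i, (fun j => x (i, j)) ∈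
      {x : Fin 4 → ℂ | Leg x}}, MvPolynomial.eval x P ≠ 0 := by
    intro P hP
    obtain ⟨x, hx, hne⟩ := h P hP
    exact ⟨fun v => x v.1 v.2, hx, hne⟩
  obtain ⟨y, hy, hall⟩ := gn_pi gn_leg n S hS h1
  exact ⟨fun i j => y (i, j), hy, hall⟩

end Pool.Agent.LEG
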